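import Mathlib

/-!
Straight-line programs with exponentially many robust sign alternations: folding.
-/

open Finset

namespace Pool.Agent.W942.Fb

/-- the thresholds -/
def th : ℕ → ℝ
  | 0 => 3
  | i + 1 => 2 * th i ^ 2

theorem three_le_th (i : ℕ) : 3 ≤ th i := by
  induction i with
  | zero => simp [th]
  | succ i ih => simp only [th]; nlinarith

/-- `A_j` and `B_j` -/
noncomputable def AB (c : ℕ → ℝ) : ℕ → ℝ → ℝ × ℝ
  | 0, x => (x, 1)
  | j + 1, x => ((AB c j x).1 * (AB c j x).1 + (AB c j x).2 * (AB c j x).2,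
      c j * ((AB c j x).1 * (AB c j x).2))

theorem AB_pos {c : ℕ → ℝ} (hc : ∀ j, 0 < c j) (j : ℕ) {x : ℝ} (hx : 0 < x) :
    0 < (AB c j x).1 ∧ 0 < (AB c j x).2 := by
  induction j with
  | zero => simp [AB, hx]
  | succ j ih =>
    simp only [AB]
    exact ⟨by nlinarith [mul_pos ih.1 ih.1, mul_pos ih.2 ih.2], mul_pos (hc j) (mul_pos ih.1 ih.2)⟩

theorem AB_cont (c : ℕ → ℝ) (j : ℕ) :
    Continuous (fun x => (AB c j x).1) ∧ Continuous (fun x => (AB c j x).2) := by
  induction j with
  | zero => simp only [AB]; exact ⟨continuous_id, continuous_const⟩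
  | succ j ih =>
    simp only [AB]
    exact ⟨(ih.1.mul ih.1).add (ih.2.mul ih.2), continuous_const.mul (ih.1.mul ih.2)⟩

theorem fold (k : ℕ) (c : ℕ → ℝ) (hc : ∀ j, c j = 2 * th (k - j - 1)) : ∀ j ≤ k,
    ∃ x : ℕ → ℝ, (∀ r ≤ 2 ^ j, 0 < x r) ∧ (∀ r < 2 ^ j, x r < x (r + 1)) ∧
      (∀ r < 2 ^ j, ((AB c j (x r)).1 - (AB c j (x r)).2) *
        ((AB c j (x (r + 1))).1 - (AB c j (x (r + 1))).2) < 0) ∧
      ∀ r ≤ 2 ^ j, th (k - j) * (AB c j (x r)).2 ≤ (AB c j (x r)).1 ∨
        th (k - j) * (AB c j (x r)).1 ≤ (AB c j (x r)).2 := by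
  have hc0 : ∀ j, 0 < c j := fun j => by rw [hc]; linarith [three_le_th (k - j - 1)]
  intro j
  induction j with
  | zero =>
    intro _
    have h3 := three_le_th k
    refine ⟨fun r => if r = 0 then 1 / th k else th k, ?_, ?_, ?_, ?_⟩
    · intro r _
      simp only
      split_ifs <;> positivity
    · intro r hr
      have hr0 : r = 0 := by simpa using hr
      subst hr0
      simp only [if_true, zero_add, one_ne_zero, if_false]
      rw [div_lt_iff₀ (by linarith)]
      nlinarith
    · intro r hr
      have hr0 : r = 0 := by simpa using hr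
      subst hr0
      simp only [if_true, zero_add, one_ne_zero, if_false, AB]
      have h1 : 1 / th k < 1 := by
        rw [div_lt_iff₀ (by linarith)]; linarith
      exact mul_neg_of_neg_of_pos (by linarith) (by linarith)
    · intro r _
      simp only [AB, Nat.sub_zero]
      split_ifs
      · right
        rw [mul_one_div_cancel (by linarith)]
      · left
        linarith
  | succ j ih =>
    intro hj
    obtain ⟨x, hx0, hx1, hx2, hx3⟩ := ih (by omega)
    obtain ⟨cA, cB⟩ := AB_cont c j
    -- zeros
    have hz : ∀ r, ∃ y, r < 2 ^ j → x r < y ∧ y < x (r + 1) ∧ (AB c j y).1 = (AB c j y).2 := by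
      intro r
      by_cases hr : r < 2 ^ j
      · have hlt := hx1 r hr
        have hs := hx2 r hr
        have hcont : ContinuousOn (fun x => (AB c j x).1 - (AB c j x).2)
          (Set.Icc (x r) (x (r + 1))) := (cA.sub cB).continuousOn
        have key : ∃ y ∈ Set.Icc (x r) (x (r + 1)), (AB c j y).1 - (AB c j y).2 = 0 := by
          rcases lt_or_gt_of_ne (left_ne_zero_of_mul hs.ne) with h | h
          · have h' : 0 < (AB c j (x (r + 1))).1 - (AB c j (x (r + 1))).2 := by
              by_contra hcon
              push Not at hcon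
              nlinarith
            obtain ⟨y, hy, he⟩ := intermediate_value_Icc hlt.le hcont ⟨h.le, h'.le⟩
            exact ⟨y, hy, he⟩
          · have h' : (AB c j (x (r + 1))).1 - (AB c j (x (r + 1))).2 < 0 := by
              by_contra hcon
              push Not at hcon
              nlinarith
            obtain ⟨y, hy, he⟩ := intermediate_value_Icc' hlt.le hcont ⟨h'.le, h.le⟩
            exact ⟨y, hy, he⟩
        obtain ⟨y, hy, he⟩ := key
        refine ⟨y, fun _ => ⟨lt_of_le_of_ne hy.1 ?_, lt_of_le_of_ne hy.2 ?_, by linarith⟩⟩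
        · intro heq
          rw [heq, he] at hs
          simp at hs
        · intro heq
          rw [← heq, he] at hs
          simp at hs
      · exact ⟨0, fun h => absurd h hr⟩
    choose y hy using hz
    have hT : k - j = (k - (j + 1)) + 1 := by omega
    have hck : c j = 2 * th (k - (j + 1)) := by rw [hc, Nat.sub_sub]
    set t := th (k - (j + 1)) with ht
    have ht3 : 3 ≤ t := three_le_th _
    have hTj : th (k - j) = 2 * t ^ 2 := by rw [hT]; simp [th, ht]
    -- values at the old points
    have old : ∀ r ≤ 2 ^ j, t * (AB c (j + 1) (x r)).2 ≤ (AB c (j + 1) (x r)).1 := by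
      intro r hr
      have hp := AB_pos hc0 j (hx0 r hr)
      simp only [AB]
      rw [hck]
      rcases hx3 r hr with h | h
      · rw [hTj] at h
        nlinarith [mul_le_mul_of_nonneg_right h hp.1.le, mul_pos hp.2 hp.2]
      · rw [hTj] at h
        nlinarith [mul_le_mul_of_nonneg_right h hp.2.le, mul_pos hp.1 hp.1]
    have new : ∀ r < 2 ^ j, t * (AB c (j + 1) (y r)).1 ≤ (AB c (j + 1) (y r)).2 := by
      intro r hr
      obtain ⟨_, _, he⟩ := hy r hr
      simp only [AB]
      rw [hck, he]
      nlinarith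
    have ypos : ∀ r < 2 ^ j, 0 < y r := fun r hr => (hx0 r hr.le).trans (hy r hr).1
    have hpow : 2 ^ (j + 1) = 2 * 2 ^ j := by ring
    refine ⟨fun r => if r % 2 = 0 then x (r / 2) else y (r / 2), ?_, ?_, ?_, ?_⟩
    · intro r hr
      simp only
      split_ifs with h
      · exact hx0 _ (by omega)
      · exact ypos _ (by omega)
    · intro r hr
      simp only
      rcases Nat.even_or_odd' r with ⟨q, hq | hq⟩
      · have h1 : r % 2 = 0 := by omega
        have h2 : ¬ (r + 1) % 2 = 0 := by omega
        have h3 : r / 2 = q := by omega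
        have h4 : (r + 1) / 2 = q := by omega
        rw [if_pos h1, if_neg h2, h3, h4]
        exact (hy q (by omega)).1
      · have h1 : ¬ r % 2 = 0 := by omega
        have h2 : (r + 1) % 2 = 0 := by omega
        have h3 : r / 2 = q := by omega
        have h4 : (r + 1) / 2 = q + 1 := by omega
        rw [if_neg h1, if_pos h2, h3, h4]
        exact (hy q (by omega)).2.1
    · have pold : ∀ r ≤ 2 ^ j, 0 < (AB c (j + 1) (x r)).1 - (AB c (j + 1) (x r)).2 := by
        intro r hr
        have hp := AB_pos hc0 (j + 1) (hx0 r hr)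
        nlinarith [old r hr, hp.2]
      have pnew : ∀ r < 2 ^ j, (AB c (j + 1) (y r)).1 - (AB c (j + 1) (y r)).2 < 0 := by
        intro r hr
        have hp := AB_pos hc0 (j + 1) (ypos r hr)
        nlinarith [new r hr, hp.1]
      intro r hr
      simp only
      rcases Nat.even_or_odd' r with ⟨q, hq | hq⟩
      · have h1 : r % 2 = 0 := by omega
        have h2 : ¬ (r + 1) % 2 = 0 := by omega
        have h3 : r / 2 = q := by omega
        have h4 : (r + 1) / 2 = q := by omega
        rw [if_pos h1, if_neg h2, h3, h4]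
        exact mul_neg_of_pos_of_neg (pold q (by omega)) (pnew q (by omega))
      · have h1 : ¬ r % 2 = 0 := by omega
        have h2 : (r + 1) % 2 = 0 := by omega
        have h3 : r / 2 = q := by omega
        have h4 : (r + 1) / 2 = q + 1 := by omega
        rw [if_neg h1, if_pos h2, h3, h4]
        exact mul_neg_of_neg_of_pos (pnew q (by omega)) (pold (q + 1) (by omega))
    · intro r hr
      simp only
      split_ifs with h
      · exact Or.inl (old _ (by omega))
      · exact Or.inr (new _ (by omega))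

/-- **exponentially many robust alternations** -/
theorem slp_alternations (k : ℕ) :
    ∃ c : ℕ → ℝ, (∀ j, 0 < c j) ∧ ∃ x : ℕ → ℝ, 0 < x 0 ∧ (∀ r < 2 ^ k, x r < x (r + 1)) ∧
      (∀ r < 2 ^ k, ((AB c k (x r)).1 - (AB c k (x r)).2) *
        ((AB c k (x (r + 1))).1 - (AB c k (x (r + 1))).2) < 0) ∧
      ∀ r ≤ 2 ^ k, 1 / 2 * ((AB c k (x r)).1 + (AB c k (x r)).2) ≤
        |(AB c k (x r)).1 - (AB c k (x r)).2| := by
  have hc0 : ∀ j, 0 < 2 * th (k - j - 1) := fun j => by linarith [three_le_th (k - j - 1)]
  refine ⟨fun j => 2 * th (k - j - 1), hc0, ?_⟩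
  obtain ⟨x, hx0, hx1, hx2, hx3⟩ := fold k (fun j => 2 * th (k - j - 1)) (fun _ => rfl) k le_rfl
  refine ⟨x, hx0 0 (Nat.zero_le _), hx1, hx2, fun r hr => ?_⟩
  have hp := AB_pos hc0 k (hx0 r hr)
  have h := hx3 r hr
  simp only [Nat.sub_self, th] at h
  rcases h with h | h
  · rw [abs_of_pos (by linarith)]
    linarith
  · rw [abs_of_neg (by linarith)]
    linarith

end Pool.Agent.W942.Fb
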