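import Mathlib

/-!
Variation of finite sequences.
-/

open Finset

namespace Pool.Agent.W942.Ta

/-- variation of a sequence over the first `N` steps -/
def vr (N : ℕ) (u : ℕ → ℝ) : ℝ := ∑ r ∈ range N, |u (r + 1) - u r|

theorem vr_nonneg (N : ℕ) (u : ℕ → ℝ) : 0 ≤ vr N u := sum_nonneg fun _ _ => abs_nonneg _

theorem vr_succ (N : ℕ) (u : ℕ → ℝ) : vr (N + 1) u = vr N u + |u (N + 1) - u N| :=
  sum_range_succ _ _

/-- monotone up to `a`, antitone from `a` to `N` -/
theorem vr_mono_up {N : ℕ} {u : ℕ → ℝ} (h : ∀ r < N, u r ≤ u (r + 1)) : vr N u = u N - u 0 := by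
  unfold vr
  rw [← sum_range_sub]
  refine sum_congr rfl fun r hr => abs_of_nonneg ?_
  linarith [h r (mem_range.mp hr)]

theorem vr_qc {N : ℕ} {u : ℕ → ℝ} (h0 : ∀ r ≤ N, 0 ≤ u r) (h1 : ∀ r ≤ N, u r ≤ 1)
    (hq : ∀ a b c, a ≤ b → b ≤ c → c ≤ N → min (u a) (u c) ≤ u b) : vr N u ≤ 2 := by
  -- stronger statement by induction on the prefix
  have key : ∀ n ≤ N, vr n u ≤ 2 * (⨆ r : Fin (n + 1), u r) - u n - u 0 := by
    intro n
    induction n with
    | zero =>
      intro _
      have : (⨆ r : Fin (0 + 1), u r) = u 0 := by
        have h : ∀ r : Fin (0 + 1), u r = u 0 := by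
          intro r
          have : (r : ℕ) = 0 := by omega
          rw [this]
        simp_rw [h]
        exact ciSup_const
      rw [this]
      simp [vr]
      linarith
    | succ n ih =>
      intro hn
      have ih' := ih (by omega)
      rw [vr_succ]
      have hbdd : BddAbove (Set.range fun r : Fin (n + 1 + 1) => u r) := Set.finite_range _ |>.bddAbove
      have hle : (⨆ r : Fin (n + 1), u r) ≤ ⨆ r : Fin (n + 1 + 1), u r := by
        refine ciSup_le fun r => ?_
        have := le_ciSup hbdd r.castSucc
        simpa using this
      have hlast : u (n + 1) ≤ ⨆ r : Fin (n + 1 + 1), u r := by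
        have := le_ciSup hbdd (Fin.last (n + 1))
        simpa using this
      rcases le_total (u (n + 1)) (u n) with hd | hu
      · rw [abs_of_nonpos (by linarith)]
        linarith
      · rw [abs_of_nonneg (by linarith)]
        -- all earlier values are at most `u (n+1)`, and earlier sup equals `u n`
        rcases eq_or_lt_of_le hu with he | hlt
        · rw [← he]
          rw [← he] at hlast
          linarith
        · have hsup : (⨆ r : Fin (n + 1), u r) ≤ u n := by
            refine ciSup_le fun r => ?_
            have := hq r n (n + 1) (by omega) (by omega) (by omega)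
            rcases min_le_iff.mp this with h | h
            · exact h
            · exact absurd h (not_le.mpr hlt)
          linarith
  have h := key N le_rfl
  have hs : (⨆ r : Fin (N + 1), u r) ≤ 1 := ciSup_le fun r => h1 r (by omega)
  have a := h0 N le_rfl
  have b := h0 0 (Nat.zero_le _)
  linarith

/-- the logistic function -/
noncomputable def sg (z : ℝ) : ℝ := 1 / (1 + Real.exp (-z))

theorem sg_pos (z : ℝ) : 0 < sg z := by
  unfold sg; positivity

theorem sg_lt (z : ℝ) : sg z < 1 := by
  unfold sg
  rw [div_lt_one (by positivity)]
  linarith [Real.exp_pos (-z)]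

theorem sg_mono : Monotone sg := by
  intro a b h
  unfold sg
  apply one_div_le_one_div_of_le (by positivity)
  have := Real.exp_le_exp.mpr (neg_le_neg h)
  linarith

theorem sg_lip {a b : ℝ} (h : a ≤ b) : sg b - sg a ≤ (b - a) / 4 := by
  -- the function z/4 - sg z is monotone
  have hmono : Monotone fun z : ℝ => z / 4 - sg z := by
    have hd : ∀ z : ℝ, HasDerivAt (fun z : ℝ => z / 4 - sg z)
        (1 / 4 - Real.exp (-z) / (1 + Real.exp (-z)) ^ 2) z := by
      intro z
      have h1 : HasDerivAt (fun z : ℝ => 1 + Real.exp (-z)) (-Real.exp (-z)) z := by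
        have := ((hasDerivAt_id z).neg.exp).const_add 1
        simpa using this
      have h2 := (hasDerivAt_const z (1:ℝ)).div h1 (by positivity)
      have h3 := ((hasDerivAt_id z).div_const 4).sub h2
      refine h3.congr_deriv ?_
      simp
    refine monotone_of_deriv_nonneg (fun z => (hd z).differentiableAt) fun z => ?_
    rw [(hd z).deriv]
    have : Real.exp (-z) / (1 + Real.exp (-z)) ^ 2 ≤ 1 / 4 := by
      rw [div_le_div_iff₀ (by positivity) (by norm_num)]
      nlinarith [sq_nonneg (1 - Real.exp (-z))]
    linarith
  have := hmono h
  simp only at this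
  linarith

/-- The variation of the logistic function of `G + E`, where the steps of `G` change direction
rarely. -/
theorem vr_sg (N : ℕ) (G E : ℕ → ℝ) (d : ℕ → Bool)
    (hd : ∀ r < N, d r = true → G r ≤ G (r + 1)) (hd' : ∀ r < N, d r = false → G (r + 1) ≤ G r) :
    vr N (fun r => sg (G r + E r)) ≤
      ((range (N - 1)).filter fun r => d r ≠ d (r + 1)).card + 1 + vr N E / 2 := by
  rcases Nat.eq_zero_or_pos N with rfl | hN
  · simp [vr]
  have key : ∀ n, n < N → vr (n + 1) (fun r => sg (G r + E r)) ≤
      ((range n).filter fun r => d r ≠ d (r + 1)).card + vr (n + 1) E / 2 +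
        (if d n = true then sg (G (n + 1) + E (n + 1)) else 1 - sg (G (n + 1) + E (n + 1))) := by
    -- one step
    have step : ∀ r < N, |sg (G (r + 1) + E (r + 1)) - sg (G r + E r)| ≤
        |E (r + 1) - E r| / 2 +
        (if d r = true then sg (G (r + 1) + E (r + 1)) - sg (G r + E r)
          else sg (G r + E r) - sg (G (r + 1) + E (r + 1))) := by
      intro r hr
      have lipa : sg (G (r+1) + E r) - sg (G (r+1) + E (r+1)) ≤ |E (r + 1) - E r| / 4 := by
        rcases le_total (E r) (E (r+1)) with h | h
        · have := sg_mono (add_le_add_right h (G (r+1)))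
          have h2 := abs_nonneg (E (r + 1) - E r)
          linarith
        · have := sg_lip (add_le_add_right h (G (r+1)))
          rw [abs_of_nonpos (by linarith)]
          linarith
      have lipb : sg (G (r+1) + E (r+1)) - sg (G (r+1) + E r) ≤ |E (r + 1) - E r| / 4 := by
        rcases le_total (E r) (E (r+1)) with h | h
        · have := sg_lip (add_le_add_right h (G (r+1)))
          rw [abs_of_nonneg (by linarith)]
          linarith
        · have := sg_mono (add_le_add_right h (G (r+1)))
          have h2 := abs_nonneg (E (r + 1) - E r)
          linarith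
      by_cases hdr : d r = true
      · rw [if_pos hdr]
        have := sg_mono (add_le_add_left (hd r hr hdr) (E r))
        have h2 := abs_nonneg (E (r + 1) - E r)
        rw [abs_le]
        constructor <;> linarith
      · rw [if_neg hdr]
        have := sg_mono (add_le_add_left (hd' r hr (by simpa using hdr)) (E r))
        have h2 := abs_nonneg (E (r + 1) - E r)
        rw [abs_le]
        constructor <;> linarith
    intro n
    induction n with
    | zero =>
      intro h0
      rw [vr_succ, vr_succ]
      have := step 0 h0
      simp only [vr, range_zero, sum_empty, filter_empty, card_empty, Nat.cast_zero, zero_add] at *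
      have p0 := sg_pos (G 0 + E 0)
      have p1 := sg_lt (G 0 + E 0)
      split_ifs at this ⊢ with h
      · linarith
      · linarith
    | succ n ih =>
      intro hn
      have ih' := ih (by omega)
      rw [vr_succ (n+1), vr_succ (n+1) E]
      have st := step (n+1) hn
      rw [range_add_one, filter_insert]
      have p0 := sg_pos (G (n+1) + E (n+1))
      have p1 := sg_lt (G (n+1) + E (n+1))
      by_cases hc : d n ≠ d (n + 1)
      · rw [if_pos hc, card_insert_of_notMem (by simp)]
        push_cast
        by_cases h : d (n+1) = true
        · have h' : d n = false := by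
            cases hdn : d n with
            | false => rfl
            | true => exact absurd (hdn.trans h.symm) hc
          rw [if_pos h] at st ⊢
          rw [if_neg (by simp [h'])] at ih'
          linarith
        · have h' : d n = true := by
            cases hdn : d n with
            | true => rfl
            | false =>
              have h'' : d (n+1) = false := by simpa using h
              exact absurd (hdn.trans h''.symm) hc
          rw [if_neg h] at st ⊢
          rw [if_pos h'] at ih'
          linarith
      · rw [if_neg hc]
        have hc' : d n = d (n+1) := not_not.mp hc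
        rw [hc'] at ih'
        by_cases h : d (n+1) = true
        · rw [if_pos h] at st ih' ⊢
          linarith
        · rw [if_neg h] at st ih' ⊢
          linarith
  have := key (N - 1) (by omega)
  rw [Nat.sub_add_cancel hN] at this
  have p0 := sg_pos (G N + E N)
  have p1 := sg_lt (G N + E N)
  split_ifs at this <;> linarith

/-- a monotone sequence in a finite set changes at most `card - 1` times -/
theorem changes_le (N : ℕ) (a : ℕ → ℕ) (ha : ∀ r < N, a r ≤ a (r + 1)) (S : Finset ℕ)
    (hS : ∀ r ≤ N, a r ∈ S) : ((range N).filter fun r => a r ≠ a (r + 1)).card + 1 ≤ S.card := by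
  classical
  have h0 : a 0 ∈ S := hS 0 (Nat.zero_le _)
  have hmono : ∀ i j, i ≤ j → j ≤ N → a i ≤ a j := by
    intro i j hij
    induction hij with
    | refl => intro _; exact le_rfl
    | step h ih => intro hj; exact (ih (by omega)).trans (ha _ (by omega))
  have hmap : ∀ r ∈ (range N).filter (fun r => a r ≠ a (r + 1)), a (r + 1) ∈ S.erase (a 0) := by
    intro r hr
    obtain ⟨h1, h2⟩ := mem_filter.mp hr
    have hr' := mem_range.mp h1
    refine mem_erase.mpr ⟨?_, hS _ (by omega)⟩
    have := ha r hr'
    have := hmono 0 r (by omega) (by omega)
    omega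
  have hinj : Set.InjOn (fun r => a (r + 1)) ((range N).filter (fun r => a r ≠ a (r + 1)) : Set ℕ) := by
    intro r hr q hq h
    simp only [coe_filter, Set.mem_ofPred_eq, mem_range] at hr hq h
    by_contra hne
    rcases lt_or_gt_of_ne hne with hlt | hlt
    · have h1 := hmono (r+1) q (by omega) (by omega)
      have h2 := ha q hq.1
      omega
    · have h1 := hmono (q+1) r (by omega) (by omega)
      have h2 := ha r hr.1
      omega
  have := card_le_card_of_injOn _ hmap hinj
  rw [card_erase_of_mem h0] at this
  have hpos : 0 < S.card := card_pos.mpr ⟨_, h0⟩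
  omega

end Pool.Agent.W942.Ta
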