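import Pool.Agent.W942.TaI
import Pool.Agent.W942.TaV

/-!
From variation bounds for a quotient `F / W` on the two half-lines to roots of `F = y W`, levels
with few roots, and robust alternations.
-/

open Finset MeasureTheory
open scoped ENNReal

namespace Pool.Agent.W942.Fb

open Pool.Agent.W942.Ta

section

variable {F W : ℝ → ℝ} {K : ℕ}

theorem eVar_pos
    (h : ∀ (N : ℕ) (X : ℕ → ℝ), Monotone X → (∀ r, 0 < X r) → vr N (fun r => F (X r) / W (X r)) ≤ K) :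
    eVariationOn (fun x => F x / W x) (Set.Ioi 0) ≤ (K : ℝ≥0∞) := by
  unfold eVariationOn
  refine iSup_le ?_
  rintro ⟨N, u, hu, hus⟩
  simp only
  have h := h N u hu (fun r => hus r)
  have h1 : ∑ i ∈ range N, edist (F (u (i + 1)) / W (u (i + 1))) (F (u i) / W (u i)) =
      ENNReal.ofReal (vr N (fun r => F (u r) / W (u r))) := by
    unfold vr
    rw [ENNReal.ofReal_sum_of_nonneg fun _ _ => abs_nonneg _]
    refine sum_congr rfl fun r _ => ?_
    rw [edist_dist, Real.dist_eq]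
  rw [h1]
  calc ENNReal.ofReal (vr N (fun r => F (u r) / W (u r)))
      ≤ ENNReal.ofReal ((K : ℕ) : ℝ) := ENNReal.ofReal_le_ofReal h
    _ = _ := ENNReal.ofReal_natCast _

theorem eVar_neg
    (h : ∀ (N : ℕ) (X : ℕ → ℝ), Monotone X → (∀ r, 0 < X r) →
      vr N (fun r => F (-X r) / W (-X r)) ≤ K) :
    eVariationOn (fun x => F x / W x) (Set.Iio 0) ≤ (K : ℝ≥0∞) := by
  have h1 := eVar_pos (F := fun x => F (-x)) (W := fun x => W (-x)) h
  have h2 : (fun x => F (-x) / W (-x)) = (fun x => F x / W x) ∘ (fun x : ℝ => -x) := rfl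
  rw [h2, eVariationOn.comp_eq_of_antitoneOn _ _ (fun a _ b _ h => neg_le_neg h)] at h1
  have h3 : (fun x : ℝ => -x) '' Set.Ioi 0 = Set.Iio 0 := by
    ext x
    simp only [Set.mem_image, Set.mem_Ioi, Set.mem_Iio]
    constructor
    · rintro ⟨y, hy, rfl⟩; linarith
    · intro hx; exact ⟨-x, by linarith, by ring⟩
  rw [h3] at h1
  exact h1

theorem lint_roots (hW : ∀ x, x ≠ 0 → 0 < W x)
    (hp : eVariationOn (fun x => F x / W x) (Set.Ioi 0) ≤ (K : ℝ≥0∞))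
    (hn : eVariationOn (fun x => F x / W x) (Set.Iio 0) ≤ (K : ℝ≥0∞)) :
    ∫⁻ y, ((({x : ℝ | x ≠ 0 ∧ F x = y * W x} : Set ℝ).encard : ℕ∞) : ℝ≥0∞) ≤
      ((2 * K : ℕ) : ℝ≥0∞) := by
  obtain ⟨a, ha, ha1, ha2⟩ := indicatrix' (fun x => F x / W x) (Set.Ioi 0)
  obtain ⟨b, hb, hb1, hb2⟩ := indicatrix' (fun x => F x / W x) (Set.Iio 0)
  have hle : ∀ y, ((({x : ℝ | x ≠ 0 ∧ F x = y * W x} : Set ℝ).encard : ℕ∞) : ℝ≥0∞) ≤
      a y + b y := by
    intro y
    have hsub : {x : ℝ | x ≠ 0 ∧ F x = y * W x} ⊆ {x ∈ Set.Ioi 0 | F x / W x = y} ∪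
        {x ∈ Set.Iio 0 | F x / W x = y} := by
      rintro x ⟨hx, he⟩
      have hy : F x / W x = y := by
        rw [div_eq_iff (hW x hx).ne']
        exact he
      rcases lt_or_gt_of_ne hx with h | h
      · exact Or.inr ⟨h, hy⟩
      · exact Or.inl ⟨h, hy⟩
    have h1 := (Set.encard_le_encard hsub).trans (Set.encard_union_le _ _)
    calc ((({x : ℝ | x ≠ 0 ∧ F x = y * W x} : Set ℝ).encard : ℕ∞) : ℝ≥0∞)
        ≤ ((({x ∈ Set.Ioi (0:ℝ) | F x / W x = y}.encard +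
          {x ∈ Set.Iio (0:ℝ) | F x / W x = y}.encard : ℕ∞)) : ℝ≥0∞) := by
          exact_mod_cast h1
      _ ≤ a y + b y := by
          rw [ENat.toENNReal_add]
          exact add_le_add (ha1 y) (hb1 y)
  calc ∫⁻ y, ((({x : ℝ | x ≠ 0 ∧ F x = y * W x} : Set ℝ).encard : ℕ∞) : ℝ≥0∞)
      ≤ ∫⁻ y, (a y + b y) := lintegral_mono hle
    _ = (∫⁻ y, a y) + ∫⁻ y, b y := lintegral_add_left ha _
    _ ≤ (K : ℝ≥0∞) + (K : ℝ≥0∞) := add_le_add (ha2.trans hp) (hb2.trans hn)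
    _ = ((2 * K : ℕ) : ℝ≥0∞) := by
        push_cast
        ring

theorem exists_level {L : ℕ}
    (hl : ∫⁻ y, ((({x : ℝ | x ≠ 0 ∧ F x = y * W x} : Set ℝ).encard : ℕ∞) : ℝ≥0∞) ≤
      ((L : ℕ) : ℝ≥0∞)) {ε : ℝ} (hε : 0 < ε) :
    ∃ y ∈ Set.Ioo 0 ε, ({x : ℝ | x ≠ 0 ∧ F x = y * W x} : Set ℝ).Finite ∧
      ((({x : ℝ | x ≠ 0 ∧ F x = y * W x} : Set ℝ).ncard : ℕ) : ℝ) ≤ L / ε := by
  by_contra hcon
  push Not at hcon
  set B : ℝ := L / ε with hB
  have hB0 : 0 ≤ B := by positivity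
  set n : ℕ := ⌊B⌋₊ + 1 with hn
  have hnB : B < n := by
    rw [hn]; push_cast; exact Nat.lt_floor_add_one B
  have hlow : ∀ y ∈ Set.Ioo (0:ℝ) ε, ((n : ℕ) : ℝ≥0∞) ≤
      ((({x : ℝ | x ≠ 0 ∧ F x = y * W x} : Set ℝ).encard : ℕ∞) : ℝ≥0∞) := by
    intro y hy
    by_cases hfin : ({x : ℝ | x ≠ 0 ∧ F x = y * W x} : Set ℝ).Finite
    · have h1 := hcon y hy hfin
      have h2 : ⌊B⌋₊ < ({x : ℝ | x ≠ 0 ∧ F x = y * W x} : Set ℝ).ncard :=
        (Nat.floor_lt hB0).mpr h1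
      rw [← hfin.cast_ncard_eq]
      simp only [ENat.toENNReal_coe, Nat.cast_le]
      omega
    · have : ({x : ℝ | x ≠ 0 ∧ F x = y * W x} : Set ℝ).Infinite := hfin
      rw [this.encard_eq]
      simp
  have h1 : ((n : ℕ) : ℝ≥0∞) * ENNReal.ofReal ε ≤ ((L : ℕ) : ℝ≥0∞) := by
    calc ((n : ℕ) : ℝ≥0∞) * ENNReal.ofReal ε = ∫⁻ y in Set.Ioo (0:ℝ) ε, ((n : ℕ) : ℝ≥0∞) := by
          rw [lintegral_const]
          simp
      _ ≤ ∫⁻ y in Set.Ioo (0:ℝ) ε,
            ((({x : ℝ | x ≠ 0 ∧ F x = y * W x} : Set ℝ).encard : ℕ∞) : ℝ≥0∞) := by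
          exact setLIntegral_mono' measurableSet_Ioo hlow
      _ ≤ ∫⁻ y, ((({x : ℝ | x ≠ 0 ∧ F x = y * W x} : Set ℝ).encard : ℕ∞) : ℝ≥0∞) :=
          setLIntegral_le_lintegral _ _
      _ ≤ _ := hl
  have h2 : (n : ℝ) * ε ≤ L := by
    have h3 := ENNReal.toReal_mono (ENNReal.natCast_ne_top _) h1
    rw [ENNReal.toReal_mul, ENNReal.toReal_natCast, ENNReal.toReal_ofReal hε.le,
      ENNReal.toReal_natCast] at h3
    exact h3
  have h3 : B * ε = L := by
    rw [hB]; field_simp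
  nlinarith

/-- Robust sign alternations on the positive half-line. -/
theorem robust (hW : ∀ x, x ≠ 0 → 0 < W x)
    (h : ∀ (N : ℕ) (X : ℕ → ℝ), Monotone X → (∀ r, 0 < X r) → vr N (fun r => F (X r) / W (X r)) ≤ K)
    {δ : ℝ} (N : ℕ) (x : ℕ → ℝ) (hx0 : 0 < x 0) (hx : ∀ r < N, x r < x (r + 1))
    (hs : ∀ r < N, F (x r) * F (x (r + 1)) < 0)
    (hr : ∀ r ≤ N, δ * W (x r) ≤ |F (x r)|) :
    N * (2 * δ) ≤ K := by
  have hmono : ∀ a b, a ≤ b → b ≤ N → x a ≤ x b := by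
    intro a b hab
    induction hab with
    | refl => intro _; exact le_rfl
    | step h ih => intro hb; exact (ih (by omega)).trans (hx _ (by omega)).le
  set X : ℕ → ℝ := fun r => x (min r N) with hX
  have hXm : Monotone X := by
    intro a b hab
    exact hmono _ _ (min_le_min_right _ hab) (min_le_right _ _)
  have hXp : ∀ r, 0 < X r := fun r => hx0.trans_le (hmono _ _ (Nat.zero_le _) (min_le_right _ _))
  have h := h N X hXm hXp
  refine le_trans ?_ h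
  unfold vr
  have : (N : ℝ) * (2 * δ) = ∑ _r ∈ range N, 2 * δ := by simp
  rw [this]
  refine sum_le_sum fun r hrN => ?_
  have hrN' := mem_range.mp hrN
  have e1 : X r = x r := by rw [hX]; simp only; rw [min_eq_left hrN'.le]
  have e2 : X (r + 1) = x (r + 1) := by rw [hX]; simp only; rw [min_eq_left hrN']
  have hp1 : 0 < x r := by rw [← e1]; exact hXp r
  have hp2 : 0 < x (r + 1) := by rw [← e2]; exact hXp (r + 1)
  simp only
  rw [e1, e2]
  have s1 := hs r hrN'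
  have r1 := hr r hrN'.le
  have r2 := hr (r + 1) hrN'
  have w1 := hW _ hp1.ne'
  have w2 := hW _ hp2.ne'
  set a := F (x r)
  set b := F (x (r + 1))
  set A := W (x r)
  set B := W (x (r + 1))
  rcases lt_trichotomy a 0 with ha | ha | ha
  · have hb : 0 < b := by nlinarith
    rw [abs_of_neg ha] at r1
    rw [abs_of_pos hb] at r2
    have g1 : a / A ≤ -δ := by rw [div_le_iff₀ w1]; linarith
    have g2 : δ ≤ b / B := by rw [le_div_iff₀ w2]; linarith
    have g3 : a / A < 0 := div_neg_of_neg_of_pos ha w1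
    have g4 : 0 < b / B := div_pos hb w2
    rw [abs_of_pos (by linarith)]
    linarith
  · rw [ha] at s1; simp at s1
  · have hb : b < 0 := by nlinarith
    rw [abs_of_pos ha] at r1
    rw [abs_of_neg hb] at r2
    have g1 : δ ≤ a / A := by rw [le_div_iff₀ w1]; linarith
    have g2 : b / B ≤ -δ := by rw [div_le_iff₀ w2]; linarith
    have g3 : b / B < 0 := div_neg_of_neg_of_pos hb w2
    have g4 : 0 < a / A := div_pos ha w1
    rw [abs_of_neg (by linarith)]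
    linarith

end

end Pool.Agent.W942.Fb
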