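import Pool.Agent.W942.FinalC

/-!
# Polynomial functions of determinants: closure properties and the exponential form
-/

set_option autoImplicit false
set_option maxHeartbeats 1000000

namespace Pool.Agent.W942.Ext

open Finset MvPolynomial

universe u v w

section
variable {K : Type u} [CommRing K] {n : ℕ}

theorem RowLineDet.detFunction {R : ℕ} {p : MvPolynomial (Fin n × Fin n) K}
    (h : RowLineDet R p) : DetFunction 1 R R p := by
  refine ⟨1, fun _ => p, fun _ => R, X 0, fun _ => h, fun _ => le_rfl, by simp, ?_, by simp⟩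
  rcases subsingleton_or_nontrivial K with hK | hK
  · have h1 : (X 0 : MvPolynomial (Fin 1) K) = 0 := by
      ext m
      exact Subsingleton.elim _ _
    rw [h1, totalDegree_zero]
    exact Nat.zero_le _
  · rw [totalDegree_X]

/-- A polynomial function of functions: the numbers `R` add up. -/
theorem DetFunction.comp {a : ℕ} {δ L : ℕ} {R : Fin a → ℕ}
    {p : Fin a → MvPolynomial (Fin n × Fin n) K} (hp : ∀ j, DetFunction δ L (R j) (p j))
    (G : MvPolynomial (Fin a) K) :
    ∃ δ', DetFunction δ' L (∑ j, R j) (aeval p G) := by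
  classical
  choose t q l Gf hq hlL hlR hdeg hpq using hp
  let e := (Fintype.equivFin (Σ j : Fin a, Fin (t j)))
  let H : MvPolynomial (Σ j : Fin a, Fin (t j)) K :=
    aeval (fun j => rename (fun b => (⟨j, b⟩ : Σ j : Fin a, Fin (t j))) (Gf j)) G
  refine ⟨_, Fintype.card (Σ j : Fin a, Fin (t j)), fun x => q (e.symm x).1 (e.symm x).2,
    fun x => l (e.symm x).1 (e.symm x).2, rename e H, fun x => hq _ _, fun x => hlL _ _, ?_,
    le_rfl, ?_⟩
  · rw [e.symm.sum_comp (fun y => l y.1 y.2), Fintype.sum_sigma]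
    exact Finset.sum_le_sum fun j _ => hlR j
  · rw [aeval_rename]
    have h1 : ((fun x => q (e.symm x).1 (e.symm x).2) ∘ e) = fun y => q y.1 y.2 := by
      funext y
      show q (e.symm (e y)).1 (e.symm (e y)).2 = _
      rw [e.symm_apply_apply]
    rw [h1]
    simp only [H]
    rw [← AlgHom.comp_apply]
    have h2 : (aeval p : MvPolynomial (Fin a) K →ₐ[K] _) =
        (aeval (fun y : Σ j : Fin a, Fin (t j) => q y.1 y.2)).comp
        (aeval (fun j => rename (fun b => (⟨j, b⟩ : Σ j : Fin a, Fin (t j))) (Gf j))) := by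
      refine MvPolynomial.algHom_ext fun j => ?_
      rw [aeval_X, AlgHom.comp_apply, aeval_X, aeval_rename, hpq j]
      rfl
    rw [h2]

/-- Every polynomial is a polynomial function of the `n ^ 2` variables. -/
theorem detFunction_all [Nontrivial K] (p : MvPolynomial (Fin n × Fin n) K) :
    DetFunction p.totalDegree 1 (n ^ 2) p := by
  classical
  refine ⟨n * n, fun x => X (finProdFinEquiv.symm x), fun _ => 1,
    rename finProdFinEquiv p, fun x => ?_, fun _ => le_rfl, by simp [sq], ?_, ?_⟩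
  · refine ⟨1, Matrix.of fun _ _ => X (finProdFinEquiv.symm x),
      fun _ => some (finProdFinEquiv.symm x).1, ?_, ?_, ?_⟩
    · intro i j z hz
      rw [Matrix.of_apply, vars_X, Finset.mem_singleton] at hz
      rw [hz]
    · exact (Finset.card_filter_le _ _).trans (by simp)
    · simp
  · exact totalDegree_rename_le _ _
  · rw [aeval_rename]
    have h1 : ((fun x => (X (finProdFinEquiv.symm x) : MvPolynomial (Fin n × Fin n) K)) ∘
        finProdFinEquiv) = X := by
      funext y
      show X (finProdFinEquiv.symm (finProdFinEquiv y)) = X y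
      rw [Equiv.symm_apply_apply]
    rw [h1, aeval_X_left]
    rfl

end

/-- The exponential form. -/
theorem final_arithC {n s k R M : ℕ} (hn : 0 < n) (hM : n ≤ M) (hR : 1 ≤ R) (h64 : 64 * k ^ 3 * R * M ≤ n ^ 3)
    (h : ∀ D k : ℕ, Even D → D * k ≤ n →
      D ^ k * n.descFactorial (2 * k) ≤ s * (k * (k + 1) * (2 * R * M)) ^ k) : 2 ^ k ≤ s := by
  rcases Nat.eq_zero_or_pos k with rfl | hk
  · have := h 2 0 even_two (by simp)
    simpa using this
  have hn8 : 8 * k ≤ n := by
    have h1 : 64 * k ^ 3 * n ≤ n ^ 2 * n := by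
      calc 64 * k ^ 3 * n ≤ 64 * k ^ 3 * R * M := by
            rw [mul_assoc (64 * k ^ 3)]
            exact Nat.mul_le_mul_left _ (hM.trans (Nat.le_mul_of_pos_left M hR))
        _ ≤ n ^ 3 := h64
        _ = n ^ 2 * n := by ring
    have h2 : 64 * k ^ 3 ≤ n ^ 2 := Nat.le_of_mul_le_mul_right h1 hn
    have h3 : (8 * k) ^ 2 ≤ n ^ 2 := by
      refine le_trans ?_ h2
      nlinarith [Nat.pow_le_pow_right hk (show 2 ≤ 3 by norm_num)]
    exact (Nat.pow_le_pow_iff_left (by norm_num)).1 h3
  set D := 2 * (n / (2 * k)) with hD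
  have hDk : D * k ≤ n := by
    calc D * k = 2 * k * (n / (2 * k)) := by rw [hD]; ring
      _ ≤ n := Nat.mul_div_le _ _
  have hDk2 : n ≤ 2 * k * D := by
    have h1 : n < 2 * k * (n / (2 * k)) + 2 * k := by
      have := Nat.lt_mul_div_succ n (show 0 < 2 * k by omega)
      rw [mul_add, mul_one] at this
      exact this
    have h2 : 2 * k * D = 2 * (2 * k * (n / (2 * k))) := by rw [hD]; ring
    omega
  have h1 : (n + 1 - 2 * k) ^ (2 * k) ≤ n.descFactorial (2 * k) :=
    Nat.pow_sub_le_descFactorial n (2 * k)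
  have h2 : n ≤ 2 * (n + 1 - 2 * k) := by omega
  have h3 : (n ^ 3) ^ k ≤ s * (32 * k ^ 3 * R * M) ^ k := by
    calc (n ^ 3) ^ k = n ^ k * n ^ (2 * k) := by rw [← pow_mul, ← pow_add]; congr 1; ring
      _ ≤ (2 * k * D) ^ k * (2 * (n + 1 - 2 * k)) ^ (2 * k) :=
        Nat.mul_le_mul (Nat.pow_le_pow_left hDk2 _) (Nat.pow_le_pow_left h2 _)
      _ = (8 * k) ^ k * (D ^ k * (n + 1 - 2 * k) ^ (2 * k)) := by
        rw [mul_pow (2 * k) D, mul_pow 2 (n + 1 - 2 * k), pow_mul 2 2 k,
          show (8 * k) ^ k = (2 * k) ^ k * (2 ^ 2) ^ k by rw [← mul_pow]; congr 1; ring]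
        ring
      _ ≤ (8 * k) ^ k * (s * (k * (k + 1) * (2 * R * M)) ^ k) :=
        Nat.mul_le_mul_left _ ((Nat.mul_le_mul_left _ h1).trans (h D k (even_two_mul _) hDk))
      _ = s * (8 * k * (k * (k + 1) * (2 * R * M))) ^ k := by rw [mul_pow (8 * k)]; ring
      _ ≤ s * (32 * k ^ 3 * R * M) ^ k := by
        refine Nat.mul_le_mul_left _ (Nat.pow_le_pow_left ?_ _)
        have h4 : k + 1 ≤ 2 * k := by omega
        calc 8 * k * (k * (k + 1) * (2 * R * M)) = 16 * k ^ 2 * R * M * (k + 1) := by ring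
          _ ≤ 16 * k ^ 2 * R * M * (2 * k) := Nat.mul_le_mul_left _ h4
          _ = _ := by ring
  have h4 : 2 ^ k * (32 * k ^ 3 * R * M) ^ k ≤ s * (32 * k ^ 3 * R * M) ^ k := by
    refine le_trans ?_ h3
    rw [← mul_pow]
    exact Nat.pow_le_pow_left (by linarith) k
  have hMpos : 0 < M := lt_of_lt_of_le hn hM
  exact Nat.le_of_mul_le_mul_right h4 (by positivity)

end Pool.Agent.W942.Ext
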