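import Pool.Agent.W942.AlgFin
import Pool.Agent.W942.CompCor

/-!
# Sums of algebraic functions of determinants: corollaries
-/

set_option autoImplicit false
set_option maxHeartbeats 1000000

namespace Pool.Agent.W942.Alg

open Finset MvPolynomial

universe u

section
variable {K : Type u} [Field K] {n : ℕ}

theorem alg_main (hF : (2 : K) ≠ 0) {s : ℕ}
    (z : Fin s → FractionRing (MvPolynomial (Fin n × Fin n) K)) (L R : Fin s → ℕ)
    (hz : ∀ i, AlgFunction (L i) (R i) (z i))
    (hsum : ∑ i, z i = algebraMap (MvPolynomial (Fin n × Fin n) K) _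
      (Matrix.of fun i j => (X (i, j) : MvPolynomial (Fin n × Fin n) K)).permanent)
    (D k : ℕ) (hD : Even D) (hk : D * k ≤ n) : D ^ k * n.descFactorial (2 * k) ≤
      ∑ i, (k * (k + 1) * (2 * R i * max n (2 * L i))) ^ k := by
  rcases Nat.eq_zero_or_pos D with h0 | h0
  · subst h0
    rcases Nat.eq_zero_or_pos k with h1 | h1
    · subst h1
      have := alg_lower (k := 0) (h := 0) hF (by omega) z L R hz hsum
      simpa using this
    · rw [zero_pow (by omega), zero_mul]
      exact Nat.zero_le _
  · obtain ⟨m, hm⟩ := hD
    obtain ⟨h, rfl⟩ : ∃ h, D = 2 * (h + 1) := ⟨m - 1, by omega⟩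
    exact alg_lower hF hk z L R hz hsum

/-- One algebraic function. -/
theorem alg_one (hF : (2 : K) ≠ 0) {L R : ℕ}
    (h : AlgFunction L R (algebraMap (MvPolynomial (Fin n × Fin n) K)
      (FractionRing (MvPolynomial (Fin n × Fin n) K))
      (Matrix.of fun i j => (X (i, j) : MvPolynomial (Fin n × Fin n) K)).permanent)) :
    n * (n - 1) ^ 2 ≤ 4 * R * max n (2 * L) := by
  obtain ⟨D, hD, hDn, hDn'⟩ : ∃ D, Even D ∧ D ≤ n ∧ n - 1 ≤ D := by
    rcases Nat.even_or_odd n with h1 | h1
    · exact ⟨n, h1, le_rfl, by omega⟩
    · exact ⟨n - 1, Nat.Odd.sub_odd h1 odd_one, by omega, le_rfl⟩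
  have h1 := alg_main hF (s := 1) (fun _ => _) (fun _ => L) (fun _ => R) (fun _ => h)
    (by simp) D 1 hD (by simpa using hDn)
  simp only [Finset.univ_unique, Fin.default_eq_zero, Finset.sum_const, Finset.card_singleton,
    smul_eq_mul, pow_one, mul_one, one_mul] at h1
  have h2 : n.descFactorial 2 = n * (n - 1) := by
    rw [Nat.descFactorial_succ, Nat.descFactorial_one]
    ring
  rw [h2] at h1
  calc n * (n - 1) ^ 2 = (n - 1) * (n * (n - 1)) := by ring
    _ ≤ D * (n * (n - 1)) := Nat.mul_le_mul_right _ hDn'
    _ ≤ _ := h1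
    _ = _ := by ring

/-- In characteristic zero algebraic functions are separable. -/
theorem algFunction_of_isAlgebraic [CharZero K] {L R t : ℕ}
    (q : Fin t → MvPolynomial (Fin n × Fin n) K) (l : Fin t → ℕ)
    (hq : ∀ j, Ext.RowLineDet (l j) (q j)) (hL : ∀ j, l j ≤ L) (hR : ∑ j, l j ≤ R)
    (z : FractionRing (MvPolynomial (Fin n × Fin n) K))
    (hz : IsAlgebraic (IntermediateField.adjoin K (Set.range fun j => algebraMap
      (MvPolynomial (Fin n × Fin n) K) (FractionRing (MvPolynomial (Fin n × Fin n) K)) (q j))) z) :
    AlgFunction L R z := by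
  refine ⟨t, q, l, hq, hL, hR, ?_⟩
  have h1 : CharZero (IntermediateField.adjoin K (Set.range fun j => algebraMap
      (MvPolynomial (Fin n × Fin n) K) (FractionRing (MvPolynomial (Fin n × Fin n) K)) (q j))) :=
    inferInstance
  exact (minpoly.irreducible hz.isIntegral).separable

/-- The determinant. -/
theorem algFunction_det : AlgFunction n n (algebraMap (MvPolynomial (Fin n × Fin n) K)
    (FractionRing (MvPolynomial (Fin n × Fin n) K))
    (Matrix.of fun i j => (X (i, j) : MvPolynomial (Fin n × Fin n) K)).det) := by
  refine ⟨1, fun _ => (Matrix.of fun i j => (X (i, j) : MvPolynomial (Fin n × Fin n) K)).det,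
    fun _ => n, fun _ => Ext.rowLineDet_det, fun _ => le_rfl, by simp, ?_⟩
  exact isSeparable_algebraMap (⟨_, IntermediateField.subset_adjoin K _ ⟨0, rfl⟩⟩ :
    IntermediateField.adjoin K (Set.range fun _ : Fin 1 => algebraMap
      (MvPolynomial (Fin n × Fin n) K) (FractionRing (MvPolynomial (Fin n × Fin n) K))
      (Matrix.of fun i j => (X (i, j) : MvPolynomial (Fin n × Fin n) K)).det))

/-- Every rational function is a function of the `n ^ 2` variables. -/
theorem algFunction_all (z : FractionRing (MvPolynomial (Fin n × Fin n) K)) :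
    AlgFunction 1 (n ^ 2) z := by
  classical
  refine ⟨n * n, fun x => X (finProdFinEquiv.symm x), fun _ => 1, fun x => ?_, fun _ => le_rfl,
    by simp [sq], ?_⟩
  · refine ⟨1, Matrix.of fun _ _ => X (finProdFinEquiv.symm x),
      fun _ => some (finProdFinEquiv.symm x).1, ?_, ?_, ?_⟩
    · intro i j z hz
      rw [Matrix.of_apply, vars_X, Finset.mem_singleton] at hz
      rw [hz]
    · exact (Finset.card_filter_le _ _).trans (by simp)
    · simp
  · set E := IntermediateField.adjoin K (Set.range fun x : Fin (n * n) => algebraMap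
      (MvPolynomial (Fin n × Fin n) K) (FractionRing (MvPolynomial (Fin n × Fin n) K))
      (X (finProdFinEquiv.symm x))) with hE
    have h1 : ∀ f : MvPolynomial (Fin n × Fin n) K, algebraMap (MvPolynomial (Fin n × Fin n) K)
        (FractionRing (MvPolynomial (Fin n × Fin n) K)) f ∈ E := by
      intro f
      induction f using MvPolynomial.induction_on with
      | C a =>
        rw [← MvPolynomial.algebraMap_eq, ← IsScalarTower.algebraMap_apply]
        exact E.algebraMap_mem a
      | add p q hp hq => rw [map_add]; exact add_mem hp hq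
      | mul_X p i hp =>
        rw [map_mul]
        refine mul_mem hp (IntermediateField.subset_adjoin K _ ⟨finProdFinEquiv i, ?_⟩)
        simp only [Equiv.symm_apply_apply]
    have h2 : z ∈ E := by
      obtain ⟨a, b, _, rfl⟩ := IsFractionRing.div_surjective (A := MvPolynomial (Fin n × Fin n) K) z
      exact div_mem (h1 a) (h1 b)
    exact isSeparable_algebraMap (⟨z, h2⟩ : E)

variable (K n) in
/-- The permanent of the matrix of variables, as an element of the field of rational functions. -/
noncomputable def perF : FractionRing (MvPolynomial (Fin n × Fin n) K) :=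
  algebraMap (MvPolynomial (Fin n × Fin n) K) (FractionRing (MvPolynomial (Fin n × Fin n) K))
    (Matrix.of fun i j => (X (i, j) : MvPolynomial (Fin n × Fin n) K)).permanent

variable (K n) in
/-- The determinant of the matrix of variables, as an element of the field of rational functions. -/
noncomputable def detF : FractionRing (MvPolynomial (Fin n × Fin n) K) :=
  algebraMap (MvPolynomial (Fin n × Fin n) K) (FractionRing (MvPolynomial (Fin n × Fin n) K))
    (Matrix.of fun i j => (X (i, j) : MvPolynomial (Fin n × Fin n) K)).det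

/-- `z` is algebraic over the field generated over `K` by the polynomials `q j`. -/
def AlgOver {t : ℕ} (q : Fin t → MvPolynomial (Fin n × Fin n) K)
    (z : FractionRing (MvPolynomial (Fin n × Fin n) K)) : Prop :=
  IsAlgebraic (IntermediateField.adjoin K (Set.range fun j => algebraMap
    (MvPolynomial (Fin n × Fin n) K) (FractionRing (MvPolynomial (Fin n × Fin n) K)) (q j))) z

end

end Pool.Agent.W942.Alg
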