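import Pool.Agent.W942.RowDet

/-!
# Derivations of fields of rational functions
-/

set_option autoImplicit false
set_option maxHeartbeats 1000000

namespace Pool.Agent.W942.Alg

open Finset MvPolynomial TensorProduct

section
variable {K A L : Type*} [Field K] [CommRing A] [IsDomain A] [Field L] [Algebra K A] [Algebra K L]
  [Algebra A L] [IsScalarTower K A L] [IsFractionRing A L]

variable (L) in
/-- The extension of a derivation to the field of fractions. -/
noncomputable def exD (d : Derivation K A A) : Derivation K L L :=
  haveI : Algebra.FormallyEtale A L := Algebra.FormallyEtale.of_isLocalization (nonZeroDivisors A)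
  ((LinearMap.liftBaseChange L ((Algebra.linearMap A L).compDer d).liftKaehlerDifferential).comp
    (KaehlerDifferential.tensorKaehlerEquivOfFormallyEtale K A L).symm.toLinearMap).compDer
      (KaehlerDifferential.D K L)

theorem exD_algebraMap (d : Derivation K A A) (f : A) :
    exD L d (algebraMap A L f) = algebraMap A L (d f) := by
  have : Algebra.FormallyEtale A L := Algebra.FormallyEtale.of_isLocalization (nonZeroDivisors A)
  have h1 : exD L d (algebraMap A L f) =
      LinearMap.liftBaseChange L ((Algebra.linearMap A L).compDer d).liftKaehlerDifferential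
        ((KaehlerDifferential.tensorKaehlerEquivOfFormallyEtale K A L).symm
          (KaehlerDifferential.D K L (algebraMap A L f))) := rfl
  rw [h1, KaehlerDifferential.tensorKaehlerEquivOfFormallyEtale_symm_D_algebraMap,
    LinearMap.liftBaseChange_tmul, one_smul, Derivation.liftKaehlerDifferential_comp_D]
  rfl

end

section
variable {k A P : Type*} [CommRing k] [CommRing A] [Algebra k A]

/-- Iterated derivations. -/
def dls (D : P → Derivation k A A) : List P → A → A
  | [], f => f
  | p :: l, f => dls D l (D p f)

theorem dls_nil (D : P → Derivation k A A) (f : A) : dls D [] f = f := rfl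

theorem dls_cons (D : P → Derivation k A A) (p : P) (l : List P) (f : A) :
    dls D (p :: l) f = dls D l (D p f) := rfl

theorem dls_append (D : P → Derivation k A A) (l₁ l₂ : List P) (f : A) :
    dls D (l₁ ++ l₂) f = dls D l₂ (dls D l₁ f) := by
  induction l₁ generalizing f with
  | nil => rfl
  | cons p l ih => rw [List.cons_append, dls_cons, dls_cons, ih]

theorem dls_add (D : P → Derivation k A A) (l : List P) (f g : A) :
    dls D l (f + g) = dls D l f + dls D l g := by
  induction l generalizing f g with
  | nil => rfl
  | cons p l ih => rw [dls_cons, dls_cons, dls_cons, map_add, ih]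

theorem dls_zero (D : P → Derivation k A A) (l : List P) : dls D l 0 = 0 := by
  induction l with
  | nil => rfl
  | cons p l ih => rw [dls_cons, map_zero, ih]

theorem dls_sum {ι : Type*} (D : P → Derivation k A A) (l : List P) (s : Finset ι) (f : ι → A) :
    dls D l (∑ i ∈ s, f i) = ∑ i ∈ s, dls D l (f i) := by
  classical
  induction s using Finset.induction_on with
  | empty => rw [Finset.sum_empty, Finset.sum_empty, dls_zero]
  | insert a s ha ih => rw [Finset.sum_insert ha, Finset.sum_insert ha, dls_add, ih]

theorem dls_congr (D D' : P → Derivation k A A) (l : List P) (h : ∀ p ∈ l, D p = D' p) (f : A) :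
    dls D l f = dls D' l f := by
  induction l generalizing f with
  | nil => rfl
  | cons p l ih =>
    rw [dls_cons, dls_cons, h p (by simp), ih fun p hp => h p (List.mem_cons_of_mem _ hp)]

/-- The product rule for iterated derivations. -/
theorem dls_mul [DecidableEq P] (D : P → Derivation k A A) (l : List P) (hl : l.Nodup) (f g : A) :
    dls D l (f * g) = ∑ B ∈ l.toFinset.powerset,
      dls D (l.filter (· ∈ B)) f * dls D (l.filter (· ∉ B)) g := by
  induction l generalizing f g with
  | nil => simp [dls_nil]
  | cons i l ih =>
    obtain ⟨hi, hl'⟩ := List.nodup_cons.1 hl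
    have hi' : i ∉ l.toFinset := by simpa using hi
    rw [dls_cons, Derivation.leibniz, smul_eq_mul, smul_eq_mul, mul_comm g (D i f), dls_add,
      ih hl', ih hl', List.toFinset_cons, Finset.sum_powerset_insert hi']
    refine congrArg₂ (· + ·) ?_ ?_
    · refine Finset.sum_congr rfl fun B hB => ?_
      have hiB : i ∉ B := fun h => hi' (Finset.mem_powerset.1 hB h)
      rw [List.filter_cons_of_neg (by simpa using hiB), List.filter_cons_of_pos (by simpa using hiB),
        dls_cons]
    · refine Finset.sum_congr rfl fun B hB => ?_
      have hiB : i ∉ B := fun h => hi' (Finset.mem_powerset.1 hB h)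
      rw [List.filter_cons_of_pos (by simp), List.filter_cons_of_neg (by simp), dls_cons]
      have h1 : l.filter (· ∈ insert i B) = l.filter (· ∈ B) := by
        refine List.filter_congr fun a ha => ?_
        have : a ≠ i := fun h => hi (h ▸ ha)
        simp [this]
      have h2 : l.filter (· ∉ insert i B) = l.filter (· ∉ B) := by
        refine List.filter_congr fun a ha => ?_
        have : a ≠ i := fun h => hi (h ▸ ha)
        simp [this]
      rw [h1, h2]

end

section
variable {K A L P : Type*} [Field K] [CommRing A] [IsDomain A] [Field L] [Algebra K A] [Algebra K L]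
  [Algebra A L] [IsScalarTower K A L] [IsFractionRing A L]

theorem dls_exD (D : P → Derivation K A A) (l : List P) (f : A) :
    dls (fun p => exD L (D p)) l (algebraMap A L f) = algebraMap A L (dls D l f) := by
  induction l generalizing f with
  | nil => rfl
  | cons p l ih => rw [dls_cons, dls_cons, exD_algebraMap, ih]

end

section
variable {K : Type*} [Field K] {n : ℕ}

/-- The derivative in the direction `y ρ` with respect to the variables of the row `ρ`. -/
noncomputable def rd (y : Fin n × Fin n → K) (ρ : Fin n) :
    Derivation K (MvPolynomial (Fin n × Fin n) K) (MvPolynomial (Fin n × Fin n) K) :=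
  mkDerivation K (fun ij => if ij.1 = ρ then C (y ij) else 0)

theorem rd_X (y : Fin n × Fin n → K) (ρ : Fin n) (ij : Fin n × Fin n) :
    rd y ρ (X ij) = if ij.1 = ρ then C (y ij) else 0 := by
  unfold rd
  rw [mkDerivation_X]

theorem rd_C (y : Fin n × Fin n → K) (ρ : Fin n) (a : K) : rd y ρ (C a) = 0 := by
  rw [← MvPolynomial.algebraMap_eq, Derivation.map_algebraMap]

theorem rd_congr {y y' : Fin n × Fin n → K} {ρ : Fin n} (h : ∀ j, y (ρ, j) = y' (ρ, j)) :
    rd y ρ = rd y' ρ := by
  refine MvPolynomial.derivation_ext fun ij => ?_
  rw [rd_X, rd_X]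
  split_ifs with h1
  · rw [show ij = (ρ, ij.2) from Prod.ext h1 rfl, h ij.2]
  · rfl

theorem rd_comm (y y' : Fin n × Fin n → K) (ρ ρ' : Fin n)
    (f : MvPolynomial (Fin n × Fin n) K) : rd y ρ (rd y' ρ' f) = rd y' ρ' (rd y ρ f) := by
  have h : ⁅rd y ρ, rd y' ρ'⁆ = 0 := by
    apply MvPolynomial.derivation_ext
    intro k
    rw [Derivation.commutator_apply, rd_X, rd_X]
    split_ifs <;> simp
  have h2 := congrArg (fun D : Derivation K (MvPolynomial (Fin n × Fin n) K) _ => D f) h
  simp only [Derivation.commutator_apply] at h2
  exact sub_eq_zero.1 h2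

theorem rd_zero (y : Fin n × Fin n → K) (ρ : Fin n) (q : MvPolynomial (Fin n × Fin n) K)
    (hq : ∀ x ∈ q.vars, x.1 ≠ ρ) : rd y ρ q = 0 := by
  have h1 : q ∈ supported K {x : Fin n × Fin n | x.1 ≠ ρ} := by
    rw [mem_supported]
    intro x hx
    exact hq x hx
  rw [supported_eq_adjoin_X] at h1
  refine Algebra.adjoin_induction (p := fun q _ => rd y ρ q = 0) ?_ ?_ ?_ ?_ h1
  · rintro _ ⟨x, hx, rfl⟩
    rw [rd_X, if_neg hx]
  · intro r
    rw [MvPolynomial.algebraMap_eq, rd_C]
  · intro a b _ _ ha hb
    rw [map_add, ha, hb, add_zero]
  · intro a b _ _ ha hb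
    rw [Derivation.leibniz, ha, hb, smul_zero, smul_zero, add_zero]

end

section
variable {K L U V ι P : Type*} [Field K] [Field L] [Fintype ι] [DecidableEq ι] {n : ℕ}
  [Algebra (MvPolynomial (Fin n × Fin n) K) L]

/-- The rank of iterated derivatives of a determinant. -/
theorem rk_dls (own : ι → Option (Fin n)) (x : P → Fin n) (PU : Set P)
    (y : P → U → V → Fin n × Fin n → K)
    (hyU : ∀ p ∈ PU, ∀ u v v', y p u v = y p u v') (hyV : ∀ p ∉ PU, ∀ u u' v, y p u v = y p u' v)
    (l : List P) (hl : (l.map x).Nodup) : ∀ (A B : Finset ι) (_ : Disjoint A B)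
    (M : U → V → Matrix ι ι (MvPolynomial (Fin n × Fin n) K))
    (_ : ∀ i ∈ A, ∀ u v v', M u v i = M u v' i) (_ : ∀ i ∈ B, ∀ u u' v, M u v i = M u' v i)
    (_ : ∀ i ∉ A, i ∉ B → ∀ u u' v v', M u v i = M u' v' i)
    (_ : ∀ i p, i ∈ A ∪ B → p ∈ l → own i ≠ some (x p))
    (_ : ∀ i p, p ∈ l → own i ≠ some (x p) → ∀ z u v j, rd z (x p) (M u v i j) = 0),
    HasRk (fun u v => algebraMap (MvPolynomial (Fin n × Fin n) K) L
        (dls (fun p => rd (y p u v) (x p)) l (M u v).det))
      (2 ^ (A.card + B.card + l.length) *
        (l.map fun p => (Finset.univ.filter fun i => own i = some (x p)).card).prod) := by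
  classical
  induction l with
  | nil =>
    intro A B hAB M hA hB hC _ _
    have h1 := det_rk' A B hAB
      (fun u v => (M u v).map (algebraMap (MvPolynomial (Fin n × Fin n) K) L))
      (fun i hi u v v' => by
        funext j
        simp only [Matrix.map_apply]
        rw [hA i hi u v v'])
      (fun i hi u u' v => by
        funext j
        simp only [Matrix.map_apply]
        rw [hB i hi u u' v])
      (fun i hi hi' u u' v v' => by
        funext j
        simp only [Matrix.map_apply]
        rw [hC i hi hi' u u' v v'])
    refine (h1.congr fun u v => ?_).mono ?_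
    · rw [dls_nil, RingHom.map_det]
      rfl
    · simp only [List.length_nil, List.map_nil, List.prod_nil, mul_one, add_zero]
      exact Nat.choose_le_two_pow _ _
  | cons p l ih =>
    intro A B hAB M hA hB hC hO hD
    rw [List.map_cons] at hl
    obtain ⟨hpl, hl'⟩ := List.nodup_cons.1 hl
    set T : Finset ι := Finset.univ.filter fun i => own i = some (x p) with hT
    let N : ι → U → V → Matrix ι ι (MvPolynomial (Fin n × Fin n) K) := fun i u v =>
      (M u v).updateRow i (fun j => rd (y p u v) (x p) (M u v i j))
    have hsplit : ∀ u v, algebraMap (MvPolynomial (Fin n × Fin n) K) L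
        (dls (fun p => rd (y p u v) (x p)) (p :: l) (M u v).det) =
        ∑ i ∈ T, algebraMap (MvPolynomial (Fin n × Fin n) K) L
          (dls (fun p => rd (y p u v) (x p)) l (N i u v).det) := by
      intro u v
      rw [dls_cons, Ext.deriv_det, dls_sum, map_sum]
      symm
      refine Finset.sum_subset (Finset.subset_univ _) fun i _ hi => ?_
      have h0 : (N i u v).det = 0 := by
        refine Matrix.det_eq_zero_of_row_eq_zero i fun j => ?_
        simp only [N, Matrix.updateRow_self]
        exact hD i p (by simp) (fun h => hi (by rw [hT, Finset.mem_filter]; exact ⟨Finset.mem_univ _, h⟩))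
          _ u v j
      rw [h0, dls_zero, map_zero]
    have hTo : ∀ i ∈ T, own i = some (x p) := fun i hi => (Finset.mem_filter.1 hi).2
    have hTA : ∀ i ∈ T, i ∉ A := fun i hi hA => hO i p (Finset.mem_union_left _ hA) (by simp)
      (hTo i hi)
    have hTB : ∀ i ∈ T, i ∉ B := fun i hi hB => hO i p (Finset.mem_union_right _ hB) (by simp)
      (hTo i hi)
    have hown : ∀ p' ∈ l, x p' ≠ x p := by
      intro p' h h2
      exact hpl (h2 ▸ List.mem_map.2 ⟨p', h, rfl⟩)
    have hNne : ∀ i i' u v, i' ≠ i → N i u v i' = M u v i' := by
      intro i i' u v h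
      exact Matrix.updateRow_ne h
    have hNs : ∀ i u v, N i u v i = fun j => rd (y p u v) (x p) (M u v i j) := by
      intro i u v
      exact Matrix.updateRow_self
    -- the conditions for the tail
    have kD : ∀ i ∈ T, ∀ i' p', p' ∈ l → own i' ≠ some (x p') → ∀ z u v j,
        rd z (x p') (N i u v i' j) = 0 := by
      intro i hi i' p' h1 h2 z u v j
      by_cases h4 : i' = i
      · rw [h4, hNs]
        simp only
        rw [rd_comm, hD i p' (List.mem_cons_of_mem _ h1) (h4 ▸ h2), map_zero]
      · rw [hNne _ _ _ _ h4]
        exact hD i' p' (List.mem_cons_of_mem _ h1) h2 z u v j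
    have kO : ∀ i ∈ T, ∀ i' p', i' ∈ insert i (A ∪ B) → p' ∈ l → own i' ≠ some (x p') := by
      intro i hi i' p' h1 h2 h3
      rcases Finset.mem_insert.1 h1 with h4 | h4
      · rw [h4, hTo i hi] at h3
        exact hown p' h2 (Option.some_injective _ h3).symm
      · exact hO i' p' h4 (List.mem_cons_of_mem _ h2) h3
    have kC : ∀ i ∈ T, ∀ i', i' ∉ insert i (A ∪ B) → ∀ u u' v v',
        N i u v i' = N i u' v' i' := by
      intro i hi i' h1 u u' v v'
      have h4 : i' ≠ i := fun h => h1 (h ▸ Finset.mem_insert_self _ _)
      have h5 : i' ∉ A ∪ B := fun h => h1 (Finset.mem_insert_of_mem h)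
      rw [hNne _ _ _ _ h4, hNne _ _ _ _ h4]
      exact hC i' (fun h => h5 (Finset.mem_union_left _ h)) (fun h => h5 (Finset.mem_union_right _ h))
        u u' v v'
    have hcase : ∀ i ∈ T, HasRk (fun u v => algebraMap (MvPolynomial (Fin n × Fin n) K) L
          (dls (fun p => rd (y p u v) (x p)) l (N i u v).det))
        (2 ^ (A.card + B.card + (p :: l).length) *
          (l.map fun p => (Finset.univ.filter fun i => own i = some (x p)).card).prod) := by
      intro i hi
      by_cases hP : p ∈ PU
      · have h1 := ih hl' (insert i A) B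
          (Finset.disjoint_insert_left.2 ⟨hTB i hi, hAB⟩) (N i)
          (fun i' hi' u v v' => by
            rcases Finset.mem_insert.1 hi' with h4 | h4
            · rw [h4, hNs, hNs, hyU p hP u v v', hC i (hTA i hi) (hTB i hi) u u v v']
            · have h5 : i' ≠ i := fun h => hTA i hi (h ▸ h4)
              rw [hNne _ _ _ _ h5, hNne _ _ _ _ h5, hA i' h4 u v v'])
          (fun i' hi' u u' v => by
            have h5 : i' ≠ i := fun h => hTB i hi (h ▸ hi')
            rw [hNne _ _ _ _ h5, hNne _ _ _ _ h5, hB i' hi' u u' v])
          (fun i' h1 h2 => kC i hi i' (by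
            rw [Finset.mem_insert, Finset.mem_union]
            rw [Finset.mem_insert] at h1
            tauto))
          (fun i' p' h1 h2 => kO i hi i' p' (by
            rw [Finset.mem_union, Finset.mem_insert] at h1
            rw [Finset.mem_insert, Finset.mem_union]
            tauto) h2)
          (kD i hi)
        refine h1.mono (Nat.mul_le_mul_right _ (Nat.pow_le_pow_right (by norm_num) ?_))
        rw [Finset.card_insert_of_notMem (hTA i hi), List.length_cons]
        omega
      · have h1 := ih hl' A (insert i B)
          (Finset.disjoint_insert_right.2 ⟨hTA i hi, hAB⟩) (N i)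
          (fun i' hi' u v v' => by
            have h5 : i' ≠ i := fun h => hTA i hi (h ▸ hi')
            rw [hNne _ _ _ _ h5, hNne _ _ _ _ h5, hA i' hi' u v v'])
          (fun i' hi' u u' v => by
            rcases Finset.mem_insert.1 hi' with h4 | h4
            · rw [h4, hNs, hNs, hyV p hP u u' v, hC i (hTA i hi) (hTB i hi) u u' v v]
            · have h5 : i' ≠ i := fun h => hTB i hi (h ▸ h4)
              rw [hNne _ _ _ _ h5, hNne _ _ _ _ h5, hB i' h4 u u' v])
          (fun i' h1 h2 => kC i hi i' (by
            rw [Finset.mem_insert, Finset.mem_union]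
            rw [Finset.mem_insert] at h2
            tauto))
          (fun i' p' h1 h2 => kO i hi i' p' (by
            rw [Finset.mem_union, Finset.mem_insert] at h1
            rw [Finset.mem_insert, Finset.mem_union]
            tauto) h2)
          (kD i hi)
        refine h1.mono (Nat.mul_le_mul_right _ (Nat.pow_le_pow_right (by norm_num) ?_))
        rw [Finset.card_insert_of_notMem (hTB i hi), List.length_cons]
        omega
    have h2 := HasRk.sum T hcase
    refine (h2.congr fun u v => hsplit u v).mono (le_of_eq ?_)
    rw [Finset.sum_const, smul_eq_mul, List.map_cons, List.prod_cons]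
    ring

end

end Pool.Agent.W942.Alg
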