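import Pool.Agent.W942.FinalR

/-!
# Polynomials which are determinants with few lines: determinants, products, branching programs
-/

set_option autoImplicit false
set_option maxHeartbeats 1000000

namespace Pool.Agent.W942.Ext

open Finset MvPolynomial

universe u v w

section
variable {K : Type u} [CommRing K] {n : ℕ}

theorem RowLineDet.of_fintype {R : ℕ} {ι : Type*} [Fintype ι] [DecidableEq ι]
    (M : Matrix ι ι (MvPolynomial (Fin n × Fin n) K)) (own : ι → Option (Fin n))
    (hM : ∀ i j, ∀ x ∈ (M i j).vars, own i = some x.1)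
    (hR : (Finset.univ.filter fun i => own i ≠ none).card ≤ R) : RowLineDet R M.det := by
  classical
  let e := Fintype.equivFin ι
  refine ⟨Fintype.card ι, M.submatrix e.symm e.symm, fun i => own (e.symm i), ?_, ?_, ?_⟩
  · intro i j x hx
    exact hM _ _ x hx
  · refine le_trans (le_of_eq ?_) hR
    rw [← Fintype.card_subtype, ← Fintype.card_subtype]
    exact Fintype.card_congr (e.symm.subtypeEquiv fun a => Iff.rfl)
  · rw [Matrix.det_submatrix_equiv_self]

theorem RowLineDet.mono {R R' : ℕ} {p : MvPolynomial (Fin n × Fin n) K} (h : RowLineDet R p)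
    (hR : R ≤ R') : RowLineDet R' p := by
  obtain ⟨m, M, own, h1, h2, h3⟩ := h
  exact ⟨m, M, own, h1, h2.trans hR, h3⟩

/-- Products. -/
theorem RowLineDet.mul {R R' : ℕ} {p q : MvPolynomial (Fin n × Fin n) K} (hp : RowLineDet R p)
    (hq : RowLineDet R' q) : RowLineDet (R + R') (p * q) := by
  classical
  obtain ⟨m, M, own, h1, h2, rfl⟩ := hp
  obtain ⟨m', M', own', h1', h2', rfl⟩ := hq
  rw [← Matrix.det_fromBlocks_zero₁₂ M 0 M']
  refine RowLineDet.of_fintype _ (Sum.elim own own') ?_ ?_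
  · rintro (i | i) (j | j) x hx
    · exact h1 i j x hx
    · simp at hx
    · simp at hx
    · exact h1' i j x hx
  · refine le_trans (le_of_eq ?_) (Nat.add_le_add h2 h2')
    rw [← Fintype.card_subtype, ← Fintype.card_subtype, ← Fintype.card_subtype,
      ← Fintype.card_sum]
    exact Fintype.card_congr (Equiv.subtypeSum)

theorem rowLineDet_det [Nontrivial K] :
    RowLineDet n (Matrix.of fun i j => (X (i, j) : MvPolynomial (Fin n × Fin n) K)).det := by
  refine ⟨n, _, fun i => some i, ?_, ?_, rfl⟩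
  · intro i j x hx
    rw [Matrix.of_apply, vars_X, Finset.mem_singleton] at hx
    rw [hx]
  · exact (Finset.card_filter_le _ _).trans (by simp)

/-- `p` is computed by a branching program: the sum over all paths from `s` to `t` of the products
of the labels of the edges, in an acyclic graph with any number of vertices at most `R` of which
have non-constant out-going edges; the labels of the edges leaving a vertex are arbitrary
polynomials in the variables of a single row of `X`. -/
def RowProgram (R : ℕ) (p : MvPolynomial (Fin n × Fin n) K) : Prop :=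
  ∃ (V : ℕ) (N : Matrix (Fin V) (Fin V) (MvPolynomial (Fin n × Fin n) K))
    (own : Fin V → Option (Fin n)) (s t : Fin V),
    (∀ i j, j ≤ i → N i j = 0) ∧ (∀ i j, ∀ x ∈ (N i j).vars, own i = some x.1) ∧
    (Finset.univ.filter fun i => own i ≠ none).card ≤ R ∧
    p = ∑ l ∈ Finset.range V, (N ^ l) s t

theorem RowProgram.rowLineDet {R : ℕ} {p : MvPolynomial (Fin n × Fin n) K}
    (h : RowProgram R p) : RowLineDet R p := by
  classical
  rcases subsingleton_or_nontrivial K with hK | hK
  · have : Subsingleton (MvPolynomial (Fin n × Fin n) K) := by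
      refine subsingleton_of_zero_eq_one ?_
      rw [← C_1, ← C_0, Subsingleton.elim (0 : K) 1]
    refine ⟨0, 0, fun i => none, fun i => i.elim0, by simp, Subsingleton.elim _ _⟩
  obtain ⟨V, N, own, s, t, hN, hM, hR, rfl⟩ := h
  have h1 : N ^ V = 0 := by
    have h2 : N.IsUpperTriangular := fun i j hij => hN i j (le_of_lt hij)
    have h3 := Matrix.aeval_self_charpoly N
    rw [Matrix.charpoly_of_isUpperTriangular N h2] at h3
    have h4 : ∀ i, N i i = 0 := fun i => hN i i le_rfl
    simpa [h4] using h3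
  have h2 : (1 - N).det = 1 := by
    have h3 : (1 - N).IsUpperTriangular := by
      intro i j hij
      have hij' : j < i := hij
      rw [Matrix.sub_apply, Matrix.one_apply_ne hij'.ne', hN i j hij'.le, sub_zero]
    rw [Matrix.det_of_isUpperTriangular h3]
    refine Finset.prod_eq_one fun i _ => ?_
    rw [Matrix.sub_apply, Matrix.one_apply_eq, hN i i le_rfl, sub_zero]
  have h3 : (1 - N) * ∑ l ∈ Finset.range V, N ^ l = 1 := by
    rw [mul_neg_geom_sum, h1, sub_zero]
  have h4 : ∑ l ∈ Finset.range V, N ^ l = (1 - N).adjugate := by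
    have h5 := Matrix.adjugate_mul (1 - N)
    rw [h2, one_smul] at h5
    calc ∑ l ∈ Finset.range V, N ^ l = ((1 - N).adjugate * (1 - N)) *
          ∑ l ∈ Finset.range V, N ^ l := by rw [h5, one_mul]
      _ = (1 - N).adjugate := by rw [mul_assoc, h3, mul_one]
  have h5 : ∑ l ∈ Finset.range V, (N ^ l) s t = ((1 - N).updateRow t (Pi.single s 1)).det := by
    rw [← Matrix.adjugate_apply, ← h4, Matrix.sum_apply]
  rw [h5]
  refine ⟨V, _, own, ?_, hR, rfl⟩
  intro i j x hx
  by_cases hi : i = t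
  · subst hi
    rw [Matrix.updateRow_self, Pi.single_apply] at hx
    split_ifs at hx <;> simp at hx
  · rw [Matrix.updateRow_ne hi, Matrix.sub_apply, Matrix.one_apply] at hx
    have hx' := vars_sub_subset (R := K) _ hx
    rcases Finset.mem_union.1 hx' with h6 | h6
    · split_ifs at h6 <;> simp at h6
    · exact hM i j x h6

/-- `p` is the determinant of a matrix `A + ∑ ρ, P ρ * L ρ` of any order with constant matrices
`A` and `P ρ`, where the entries of the `ρ`-th matrix `L ρ`, which has `r ρ` lines, are arbitrary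
polynomials in the variables of the `ρ`-th row of `X`, and the sum of the `r ρ` is at most `R`. -/
def TotalRankDet (R : ℕ) (p : MvPolynomial (Fin n × Fin n) K) : Prop :=
  ∃ (m : ℕ) (r : Fin n → ℕ) (A : Matrix (Fin m) (Fin m) K)
    (P : (ρ : Fin n) → Matrix (Fin m) (Fin (r ρ)) K)
    (L : (ρ : Fin n) → Matrix (Fin (r ρ)) (Fin m) (MvPolynomial (Fin n × Fin n) K)),
    (∀ ρ a b, ∀ x ∈ (L ρ a b).vars, x.1 = ρ) ∧ ∑ ρ, r ρ ≤ R ∧
    p = (Matrix.of fun a b => C (A a b) + ∑ ρ, ∑ c, C (P ρ a c) * L ρ c b).det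

theorem TotalRankDet.rowLineDet {R : ℕ} {p : MvPolynomial (Fin n × Fin n) K}
    (h : TotalRankDet R p) : RowLineDet R p := by
  classical
  obtain ⟨m, r, A, P, L, hL, hR, rfl⟩ := h
  let PP : Matrix (Fin m) (Σ ρ : Fin n, Fin (r ρ)) (MvPolynomial (Fin n × Fin n) K) :=
    Matrix.of fun a x => C (P x.1 a x.2)
  let LL : Matrix (Σ ρ : Fin n, Fin (r ρ)) (Fin m) (MvPolynomial (Fin n × Fin n) K) :=
    Matrix.of fun x b => -L x.1 x.2 b
  have h1 : (Matrix.of fun a b => C (A a b) + ∑ ρ, ∑ c, C (P ρ a c) * L ρ c b).det =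
      (Matrix.fromBlocks (A.map C) PP LL 1).det := by
    rw [Matrix.det_fromBlocks_one₂₂]
    congr 1
    ext a b
    rw [Matrix.sub_apply, Matrix.mul_apply, Fintype.sum_sigma, Matrix.of_apply, Matrix.map_apply]
    simp only [PP, LL, Matrix.of_apply, mul_neg, Finset.sum_neg_distrib, sub_neg_eq_add]
  rw [h1]
  refine RowLineDet.of_fintype _ (Sum.elim (fun _ => none) (fun x => some x.1)) ?_ ?_
  · rintro (i | i) (j | j) x hx
    · simp at hx
    · simp [PP] at hx
    · rw [Matrix.fromBlocks_apply₂₁] at hx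
      simp only [LL, Matrix.of_apply, vars_neg] at hx
      simp only [Sum.elim_inr]
      rw [hL _ _ _ x hx]
    · rw [Matrix.fromBlocks_apply₂₂, Matrix.one_apply] at hx
      split_ifs at hx <;> simp at hx
  · refine le_trans (le_of_eq ?_) hR
    have h2 : (Finset.univ.filter fun i : Fin m ⊕ (Σ ρ : Fin n, Fin (r ρ)) =>
        Sum.elim (fun _ => none) (fun x => some x.1) i ≠ none) =
        Finset.univ.map ⟨Sum.inr, Sum.inr_injective⟩ := by
      ext i
      rcases i with i | i <;> simp
    rw [h2, Finset.card_map, Finset.card_univ, Fintype.card_sigma]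
    simp

end

/-- The exponential form. -/
theorem final_arith {n s R D k : ℕ} (hD : 4 ≤ D) (hk : D * k ≤ n) (hR : 32 * R ^ 2 ≤ D * n ^ 2)
    (h : D ^ k * n.descFactorial (2 * k) ≤ s * (2 * R) ^ (2 * k)) : 2 ^ k ≤ s := by
  rcases Nat.eq_zero_or_pos k with rfl | hkpos
  · simpa using h
  have hn : 4 * k ≤ n := (Nat.mul_le_mul_right k hD).trans hk
  have h1 : (n + 1 - 2 * k) ^ (2 * k) ≤ n.descFactorial (2 * k) := Nat.pow_sub_le_descFactorial n (2 * k)
  have h2 : n ≤ 2 * (n + 1 - 2 * k) := by omega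
  have h3 : (D * n ^ 2) ^ k ≤ s * (16 * R ^ 2) ^ k := by
    calc (D * n ^ 2) ^ k = D ^ k * n ^ (2 * k) := by rw [mul_pow, ← pow_mul]
      _ ≤ D ^ k * (2 * (n + 1 - 2 * k)) ^ (2 * k) :=
        Nat.mul_le_mul_left _ (Nat.pow_le_pow_left h2 _)
      _ = 2 ^ (2 * k) * (D ^ k * (n + 1 - 2 * k) ^ (2 * k)) := by rw [mul_pow]; ring
      _ ≤ 2 ^ (2 * k) * (s * (2 * R) ^ (2 * k)) :=
        Nat.mul_le_mul_left _ ((Nat.mul_le_mul_left _ h1).trans h)
      _ = s * (16 * R ^ 2) ^ k := by
        rw [show (16 * R ^ 2) = (2 * (2 * R)) ^ 2 by ring, ← pow_mul, mul_pow 2 (2 * R)]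
        ring
  have h4 : 2 ^ k * (16 * R ^ 2) ^ k ≤ s * (16 * R ^ 2) ^ k := by
    refine le_trans ?_ h3
    rw [← mul_pow]
    exact Nat.pow_le_pow_left (by linarith) k
  rcases Nat.eq_zero_or_pos R with rfl | hRpos
  · exfalso
    have h5 : (D * n ^ 2) ^ k ≤ 0 := by
      refine h3.trans (le_of_eq ?_)
      rw [zero_pow (by norm_num), mul_zero, zero_pow hkpos.ne', mul_zero]
    have h6 : 0 < (D * n ^ 2) ^ k := by
      have : 0 < n := by omega
      positivity
    omega
  · exact Nat.le_of_mul_le_mul_right h4 (by positivity)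

/-- The exponential form with an explicit exponent. -/
theorem final_arith' {n s R : ℕ} (hR : n ≤ R)
    (h : ∀ D k : ℕ, Even D → D * k ≤ n →
      D ^ k * n.descFactorial (2 * k) ≤ s * (2 * R) ^ (2 * k)) :
    2 ^ (n ^ 3 / (34 * R ^ 2)) ≤ s := by
  rcases Nat.eq_zero_or_pos n with rfl | hn
  · have := h 2 0 even_two (by simp)
    simpa using this
  set q := 16 * R ^ 2 / n ^ 2 with hq
  have h1 : q * n ^ 2 ≤ 16 * R ^ 2 := Nat.div_mul_le_self _ _
  have h2 : 16 * R ^ 2 < (q + 1) * n ^ 2 := by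
    have h3 := Nat.lt_mul_div_succ (16 * R ^ 2) (show 0 < n ^ 2 by positivity)
    rw [← hq] at h3
    calc 16 * R ^ 2 < n ^ 2 * (q + 1) := h3
      _ = (q + 1) * n ^ 2 := mul_comm _ _
  have hnR : n ^ 2 ≤ R ^ 2 := Nat.pow_le_pow_left hR 2
  have hq16 : 16 ≤ q := by
    rw [hq, Nat.le_div_iff_mul_le (by positivity)]
    exact Nat.mul_le_mul_left 16 hnR
  set D := 2 * (q + 1) with hD
  have hDn : D * n ^ 2 ≤ 34 * R ^ 2 := by
    rw [hD]
    nlinarith
  have h4 : 2 ^ (n / D) ≤ s := final_arith (D := D) (k := n / D) (by omega) (Nat.mul_div_le _ _)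
    (by rw [hD]; nlinarith) (h D (n / D) (even_two_mul _) (Nat.mul_div_le _ _))
  refine le_trans (Nat.pow_le_pow_right (by norm_num) ?_) h4
  rw [Nat.le_div_iff_mul_le (by omega)]
  have h5 : n ^ 3 / (34 * R ^ 2) * D * n ^ 2 ≤ n * n ^ 2 := by
    calc n ^ 3 / (34 * R ^ 2) * D * n ^ 2 = n ^ 3 / (34 * R ^ 2) * (D * n ^ 2) := by ring
      _ ≤ n ^ 3 / (34 * R ^ 2) * (34 * R ^ 2) := Nat.mul_le_mul_left _ hDn
      _ ≤ n ^ 3 := Nat.div_mul_le_self _ _
      _ = n * n ^ 2 := by ring
  exact Nat.le_of_mul_le_mul_right h5 (by positivity)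

end Pool.Agent.W942.Ext
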