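import Pool.Agent.W942.CompAv
import Pool.Agent.W942.RowCor

/-!
# Sums of polynomial functions of determinants
-/

set_option autoImplicit false
set_option maxHeartbeats 1000000

namespace Pool.Agent.W942.Ext

open Finset MvPolynomial

universe u v w

/-- `p` is a polynomial, of degree at most `δ`, in any number of determinants each of which has at
most `L` lines, the lines of all these determinants together being at most `R` in number; every line
reads one row of `X` (see `RowLineDet`; constant lines are not counted). -/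
def DetFunction {K : Type u} [CommRing K] {n : ℕ} (δ L R : ℕ)
    (p : MvPolynomial (Fin n × Fin n) K) : Prop :=
  ∃ (t : ℕ) (q : Fin t → MvPolynomial (Fin n × Fin n) K) (l : Fin t → ℕ)
    (G : MvPolynomial (Fin t) K),
    (∀ j, RowLineDet (l j) (q j)) ∧ (∀ j, l j ≤ L) ∧ ∑ j, l j ≤ R ∧
    G.totalDegree ≤ δ ∧ p = aeval q G

section
variable {O : Type u} {K : Type v} {F : Type w} [CommRing O] [Field K] [Field F] {n : ℕ}

/-- The lower bound for the rank of the row-linear part of a polynomial representing the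
permanent. -/
theorem per_lower (ι : O →+* K) (hι : Function.Injective ι) (res : O →+* F)
    (hF : (2 : F) ≠ 0) {k h : ℕ} {ρ : Type*} [Fintype ρ] [DecidableEq ρ]
    (e : Fin n ≃ G.Idx h k ρ) (L : List (Fin n)) (hL : L.Nodup)
    (P : MvPolynomial (Fin n × Fin n) K) (hrep : PolyRepPer ι res P) (N : ℕ)
    (hup : HasRk (fun a a' : Fin k → G.Pos h => ext L (fun ij : Fin n × Fin n =>
      ((G.Ymat a a' (e ij.1) (e ij.2) : ℤ) : K)) P) N) : (2 * (h + 1)) ^ k ≤ N := by
  classical
  let x : (Fin k → G.Pos h) → (Fin k → G.Pos h) → Fin n × Fin n → K := fun a a' ij =>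
    ((G.Ymat a a' (e ij.1) (e ij.2) : ℤ) : K)
  obtain ⟨q, hq1, hq2⟩ := hrep
  have hex : ∀ a a' : Fin k → G.Pos h, ∃ g : O, ι g = ext L (x a a') P ∧
      res g = ((∏ b, G.mz (a b) (a' b) : ℤ) : F) := by
    intro a a'
    refine ⟨ext L (fun ij => ((G.Ymat a a' (e ij.1) (e ij.2) : ℤ) : O)) q, ?_, ?_⟩
    · rw [map_ext, hq1]
      congr 1
      funext ij
      simp only [x, map_intCast]
    · rw [map_ext, hq2, ext_permanent _ hL]
      have h1 : (Matrix.of fun i j => res (((G.Ymat a a' (e i) (e j) : ℤ) : O))) =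
          ((G.Ymat a a').submatrix e e).map (Int.castRingHom F) := by
        ext i j
        simp
      rw [h1, permanent_map', permanent_submatrix_equiv, G.permanent_Ymat]
      simp
  choose g hg1 hg2 using hex
  set MO : Matrix (Fin k → G.Pos h) (Fin k → G.Pos h) O := Matrix.of fun a c =>
    g a (fun b => ((c b).1, !(c b).2)) with hMO
  have hres : (MO.map res).det ≠ 0 := by
    have h1 : MO.map res = Matrix.diagonal
        (fun a => ((∏ b, G.mz (a b) ((a b).1, !(a b).2) : ℤ) : F)) := by
      ext a c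
      rw [Matrix.map_apply, Matrix.diagonal_apply]
      simp only [hMO, Matrix.of_apply, hg2]
      by_cases hac : a = c
      · subst hac; simp
      · rw [if_neg hac]
        obtain ⟨b, hb⟩ := Function.ne_iff.1 hac
        rw [Finset.prod_eq_zero (Finset.mem_univ b) (mzG_ne hb)]
        simp
    rw [h1, Matrix.det_diagonal]
    refine Finset.prod_ne_zero_iff.2 fun a _ => ?_
    rw [Int.cast_prod]
    exact Finset.prod_ne_zero_iff.2 fun b _ => mzG_self hF _
  have hdetO : MO.det ≠ 0 := by
    intro h
    apply hres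
    have h2 := RingHom.map_det res MO
    rw [h, map_zero] at h2
    exact h2.symm
  have hdetK : (MO.map ι).det ≠ 0 := by
    have h2 := RingHom.map_det ι MO
    have h3 : (ι.mapMatrix MO) = MO.map ι := rfl
    rw [h3] at h2
    rw [← h2]
    intro h
    exact hdetO (hι (by rw [h, map_zero]))
  have h1 := hup.lower (P := Fin k → G.Pos h) id (fun c b => ((c b).1, !(c b).2)) (MO.map ι)⁻¹
    (fun i j => by
      have h2 := Matrix.mul_nonsing_inv (MO.map ι) (isUnit_iff_ne_zero.2 hdetK)
      have h3 := congrFun (congrFun h2 i) j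
      rw [Matrix.mul_apply, Matrix.one_apply] at h3
      rw [← h3]
      refine Finset.sum_congr rfl fun l _ => ?_
      rw [Matrix.map_apply]
      show _ = ι (g i (fun b => ((l b).1, !(l b).2))) * _
      rw [hg1]
      rfl)
  have h4 : Fintype.card (Fin k → G.Pos h) = (2 * (h + 1)) ^ k := by
    rw [Fintype.card_fun, Fintype.card_prod]
    simp [mul_comm]
  rwa [h4] at h1

/-- The main inequality. -/
theorem comp_lower (ι : O →+* K) (hι : Function.Injective ι) (res : O →+* F)
    (hF : (2 : F) ≠ 0) {s k h : ℕ} (hk : 2 * (h + 1) * k ≤ n)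
    (p : Fin s → MvPolynomial (Fin n × Fin n) K) (δ L R : Fin s → ℕ)
    (hp : ∀ i, DetFunction (δ i) (L i) (R i) (p i))
    (hrep : PolyRepPer ι res (∑ i, p i)) :
    (2 * (h + 1)) ^ k * n.descFactorial (2 * k) ≤
      ∑ i, (min (δ i) k * (min (δ i) k + 1) * (2 * R i * max n (2 * L i))) ^ k := by
  classical
  choose t q l Gf hq hlL hlR hdeg hpq using hp
  choose m M own hM hcard hqM using hq
  -- the number of lines of a row
  let r : (i : Fin s) → Fin (t i) → Fin n → ℕ := fun i j ρ =>
    2 * (Finset.univ.filter fun a => own i j a = some ρ).card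
  have hr : ∀ i j, ∑ ρ, r i j ρ ≤ 2 * l i j := by
    intro i j
    simp only [r]
    rw [← Finset.mul_sum]
    refine Nat.mul_le_mul_left 2 (le_trans ?_ (hcard i j))
    rw [← Finset.card_biUnion]
    · refine Finset.card_le_card fun a ha => ?_
      obtain ⟨ρ, _, hρ⟩ := Finset.mem_biUnion.1 ha
      rw [Finset.mem_filter] at hρ ⊢
      refine ⟨Finset.mem_univ _, ?_⟩
      rw [hρ.2]
      simp
    · intro ρ _ ρ' _ hne
      show Disjoint _ _
      rw [Finset.disjoint_left]
      intro a ha ha'
      rw [Finset.mem_filter] at ha ha'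
      exact hne (Option.some_injective _ (ha.2.symm.trans ha'.2))
  have hkn : 2 * k ≤ n := by
    have h1 : 2 * k ≤ 2 * (h + 1) * k := by
      rw [mul_assoc]
      exact Nat.mul_le_mul_left 2 (Nat.le_mul_of_pos_left k (Nat.succ_pos h))
    exact h1.trans hk
  have hnpos : 0 < n ^ (2 * k) := by
    rcases Nat.eq_zero_or_pos k with h0 | h0
    · rw [h0]; simp
    · have : 0 < n := by omega
      positivity
  -- positions
  let P := Fin k × Bool
  let lU : List P := (List.finRange k).map fun b => (b, false)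
  let lV : List P := (List.finRange k).map fun b => (b, true)
  have hlU : lU.length = k := by simp [lU]
  have hlV : lV.length = k := by simp [lV]
  have hndU : lU.Nodup := (List.nodup_finRange k).map fun a b h => (Prod.ext_iff.1 h).1
  have hndV : lV.Nodup := (List.nodup_finRange k).map fun a b h => (Prod.ext_iff.1 h).1
  have hmU : ∀ a ∈ lU, a.2 = false := by
    intro a ha
    obtain ⟨b, _, rfl⟩ := List.mem_map.1 ha
    rfl
  have hmV : ∀ a ∈ lV, a.2 = true := by
    intro a ha
    obtain ⟨b, _, rfl⟩ := List.mem_map.1 ha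
    rfl
  have hnd : (lU ++ lV).Nodup := by
    refine List.nodup_append.2 ⟨hndU, hndV, ?_⟩
    intro a ha b hb hab
    have h1 := hmU a ha
    have h2 := hmV b hb
    rw [hab, h2] at h1
    exact absurd h1 (by simp)
  have hall : ∀ a : P, a ∈ lU ++ lV := by
    rintro ⟨b, _ | _⟩
    · exact List.mem_append_left _ (List.mem_map.2 ⟨b, List.mem_finRange b, rfl⟩)
    · exact List.mem_append_right _ (List.mem_map.2 ⟨b, List.mem_finRange b, rfl⟩)
  have hcardP : Fintype.card P = 2 * k := by
    rw [Fintype.card_prod, Fintype.card_fin, Fintype.card_bool, mul_comm]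
  -- the average
  let Φ : Fin s → (P → Fin n) → ℕ := fun i x =>
    Phi (fun j a => r i j (x a)) (min (δ i) k) lU lV
  have hav : ∀ i, ∑ x : P → Fin n, Φ i x ≤
      (min (δ i) k * (min (δ i) k + 1) * (2 * R i * max n (2 * L i))) ^ k := by
    intro i
    have h1 := Phi_av (P := P) (r i) (2 * R i) (max n (2 * L i))
      (by
        calc ∑ j, ∑ ρ, r i j ρ ≤ ∑ j, 2 * l i j := Finset.sum_le_sum fun j _ => hr i j
          _ = 2 * ∑ j, l i j := by rw [Finset.mul_sum]
          _ ≤ 2 * R i := Nat.mul_le_mul_left 2 (hlR i))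
      (fun j => (hr i j).trans ((Nat.mul_le_mul_left 2 (hlL i j)).trans (le_max_right _ _)))
      (le_max_left _ _) (min (δ i) k) lU lV hnd
    rw [hlU, hlV, hcardP, show k + k = 2 * k by ring] at h1
    have h2 := Nat.le_of_mul_le_mul_left h1 hnpos
    refine h2.trans (le_of_eq ?_)
    simp only [mul_pow]
  -- the choice of the rows
  obtain ⟨x, hx⟩ : ∃ x : P ↪ Fin n, n.descFactorial (2 * k) * ∑ i, Φ i x ≤
      ∑ i, (min (δ i) k * (min (δ i) k + 1) * (2 * R i * max n (2 * L i))) ^ k := by
    have hcardE : Fintype.card (P ↪ Fin n) = n.descFactorial (2 * k) := by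
      rw [Fintype.card_embedding_eq, Fintype.card_fin, hcardP]
    have hne : (Finset.univ : Finset (P ↪ Fin n)).Nonempty := by
      rw [← Finset.card_pos, Finset.card_univ, hcardE]
      exact Nat.descFactorial_pos.2 hkn
    by_contra hcon
    push Not at hcon
    have h1 := Finset.sum_lt_sum_of_nonempty hne (fun x _ => hcon x)
    rw [Finset.sum_const, Finset.card_univ, hcardE, smul_eq_mul, ← Finset.mul_sum] at h1
    have h2 : ∑ x : P ↪ Fin n, ∑ i, Φ i x ≤ ∑ x : P → Fin n, ∑ i, Φ i x := by
      have h3 : ∑ x : P ↪ Fin n, ∑ i, Φ i x =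
          ∑ x ∈ Finset.univ.map ⟨fun x : P ↪ Fin n => (x : P → Fin n), DFunLike.coe_injective⟩,
            ∑ i, Φ i x := by
        rw [Finset.sum_map]
        rfl
      rw [h3]
      exact Finset.sum_le_sum_of_subset (Finset.subset_univ _)
    rw [Finset.sum_comm (s := (Finset.univ : Finset (P → Fin n)))] at h2
    have h4 := h2.trans (Finset.sum_le_sum fun i _ => hav i)
    exact absurd (lt_of_lt_of_le h1 (Nat.mul_le_mul_left _ h4)) (lt_irrefl _)
  -- roles
  obtain ⟨e0⟩ : Nonempty (Fin n ≃ G.Idx h k (Fin (n - 2 * (h + 1) * k))) := by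
    rw [← Fintype.card_eq, Fintype.card_sum, Fintype.card_prod, Fintype.card_prod]
    simp only [Fintype.card_fin, Fintype.card_bool]
    have : k * ((h + 1) * 2) = 2 * (h + 1) * k := by ring
    omega
  obtain ⟨σ, hσ⟩ := Equiv.Perm.exists_extending_pair (fun a : P => x a)
    (fun a => e0.symm (Sum.inl (a.1, ((0 : Fin (h + 1)), a.2)))) x.injective
    (fun a b hab => by
      have h1 := e0.symm.injective hab
      simp only [Sum.inl.injEq, Prod.mk.injEq, true_and] at h1
      exact Prod.ext h1.1 h1.2)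
  let e : Fin n ≃ G.Idx h k (Fin (n - 2 * (h + 1) * k)) := σ.trans e0
  have he : ∀ a : P, e (x a) = Sum.inl (a.1, ((0 : Fin (h + 1)), a.2)) := by
    intro a
    simp only [e, Equiv.trans_apply]
    rw [hσ a, Equiv.apply_symm_apply]
  let S : Finset (Fin n) := Finset.univ.image fun a : P => x a
  let PU : Finset (Fin n) := Finset.univ.image fun b : Fin k => x (b, false)
  have hPS : PU ⊆ S := by
    intro ρ hρ
    obtain ⟨b, _, rfl⟩ := Finset.mem_image.1 hρ
    exact Finset.mem_image.2 ⟨(b, false), Finset.mem_univ _, rfl⟩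
  let y : (Fin k → G.Pos h) → (Fin k → G.Pos h) → Fin n × Fin n → K := fun a a' ij =>
    ((G.Ymat a a' (e ij.1) (e ij.2) : ℤ) : K)
  have hSx : ∀ ρ ∈ S, ∃ a, x a = ρ := by
    intro ρ hρ
    obtain ⟨a, _, ha⟩ := Finset.mem_image.1 hρ
    exact ⟨a, ha⟩
  have hyU : ∀ ρ ∈ S, ρ ∈ PU → ∀ (u v v' : Fin k → G.Pos h) (j : Fin n),
      y u v (ρ, j) = y u v' (ρ, j) := by
    intro ρ _ hρ u v v' j
    obtain ⟨b, _, rfl⟩ := Finset.mem_image.1 hρ
    simp only [y, he, G.Ymat, if_true]
    simp
  have hyV : ∀ ρ ∈ S, ρ ∉ PU → ∀ (u u' v : Fin k → G.Pos h) (j : Fin n),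
      y u v (ρ, j) = y u' v (ρ, j) := by
    intro ρ hS hρ u u' v j
    obtain ⟨⟨b, t⟩, rfl⟩ := hSx ρ hS
    cases t
    · exact absurd (Finset.mem_image.2 ⟨b, Finset.mem_univ _, rfl⟩) hρ
    · simp only [y, he, G.Ymat, if_true]
  have hyO : ∀ ρ ∉ S, ∀ (u u' v v' : Fin k → G.Pos h) (j : Fin n),
      y u v (ρ, j) = y u' v' (ρ, j) := by
    intro ρ hρ u u' v v' j
    simp only [y]
    congr 1
    rcases hei : e ρ with ⟨b, j0, t⟩ | z
    · by_cases hj : j0 = 0
      · subst hj
        have h1 : ρ = x (b, t) := e.injective (by rw [hei, he])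
        exact absurd (h1 ▸ Finset.mem_image.2 ⟨(b, t), Finset.mem_univ _, rfl⟩) hρ
      · simp only [G.Ymat, if_neg hj]
    · simp only [G.Ymat]
  set LL : List (Fin n) := (lU ++ lV).map x with hLL
  have hndL : LL.Nodup := hnd.map x.injective
  have hpt : (pt LL : Fin n → K) = pt S.toList := by
    funext ρ
    have h1 : ρ ∈ LL ↔ ρ ∈ S.toList := by
      rw [Finset.mem_toList, hLL, List.mem_map]
      constructor
      · rintro ⟨a, _, rfl⟩
        exact Finset.mem_image.2 ⟨a, Finset.mem_univ _, rfl⟩
      · intro h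
        obtain ⟨a, rfl⟩ := hSx ρ h
        exact ⟨a, hall a, rfl⟩
    simp only [pt, h1]
  -- the upper bound
  have hup : HasRk (fun a a' => ext LL (y a a') (∑ i, p i)) (∑ i, Φ i x) := by
    have h1 := HasRk.sum (K := K) (U := Fin k → G.Pos h) (V := Fin k → G.Pos h)
      (Finset.univ : Finset (Fin s))
      (M := fun i a a' => ext LL (y a a') (p i)) (r := fun i => Φ i x)
      (fun i _ => by
        have h2 := comp_rk x x.injective S PU hPS y hyU hyV hyO (q i) (m i) (M i) (own i)
          (hM i) (hqM i) (min (δ i) k) lU lV hnd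
          (by
            intro a ha
            obtain ⟨b, _, rfl⟩ := List.mem_map.1 ha
            exact Finset.mem_image.2 ⟨b, Finset.mem_univ _, rfl⟩)
          (by
            intro a ha
            refine ⟨Finset.mem_image.2 ⟨a, Finset.mem_univ _, rfl⟩, ?_⟩
            intro h3
            obtain ⟨b, _, hb⟩ := Finset.mem_image.1 h3
            have h4 := hmV a ha
            rw [← x.injective hb] at h4
            exact absurd h4 (by simp)) (Gf i)
          (by
            rcases le_total (δ i) k with h3 | h3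
            · left; rw [min_eq_left h3]; exact hdeg i
            · right; rw [min_eq_right h3, hlU])
        refine h2.congr fun a a' => ?_
        unfold ext
        rw [hpq i, lift_aeval, hpt])
    refine h1.congr fun a a' => ?_
    rw [ext_sum]
  have h1 := per_lower ι hι res hF e LL hndL (∑ i, p i) hrep _ hup
  calc (2 * (h + 1)) ^ k * n.descFactorial (2 * k)
      ≤ (∑ i, Φ i x) * n.descFactorial (2 * k) := Nat.mul_le_mul_right _ h1
    _ = n.descFactorial (2 * k) * ∑ i, Φ i x := mul_comm _ _
    _ ≤ _ := hx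

end

end Pool.Agent.W942.Ext
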