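import Pool.Agent.W942.AlgRk
import Pool.Agent.W942.FinalC

/-!
# Sums of algebraic functions of determinants and the permanent
-/

set_option autoImplicit false
set_option maxHeartbeats 1000000

namespace Pool.Agent.W942.Alg

open Finset MvPolynomial

universe u v

section
variable {K : Type u} [Field K] {n : ℕ}

/-- The matrix of variables with the rows in `S` replaced by those of `y`. -/
noncomputable def NS (y : Fin n × Fin n → K) (S : Finset (Fin n)) :
    Matrix (Fin n) (Fin n) (MvPolynomial (Fin n × Fin n) K) :=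
  Matrix.of fun i j => if i ∈ S then C (y (i, j)) else X (i, j)

theorem rd_perm (y : Fin n × Fin n → K) (S : Finset (Fin n)) (ρ : Fin n) (hρ : ρ ∉ S) :
    rd y ρ (NS y S).permanent = (NS y (insert ρ S)).permanent := by
  classical
  unfold Matrix.permanent
  rw [map_sum]
  refine Finset.sum_congr rfl fun σ _ => ?_
  have h1 : ∀ i, rd y ρ (NS y S (σ i) i) = if σ i = ρ then C (y (σ i, i)) else 0 := by
    intro i
    simp only [NS, Matrix.of_apply]
    by_cases hi : σ i ∈ S
    · have h2 : σ i ≠ ρ := fun h => hρ (h ▸ hi)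
      rw [if_pos hi, if_neg h2, rd_C]
    · rw [if_neg hi, rd_X]
  rw [Ext.deriv_prod, Finset.sum_eq_single (σ.symm ρ)]
  · rw [h1, Equiv.apply_symm_apply, if_pos rfl, ← Finset.prod_erase_mul _ _
      (Finset.mem_univ (σ.symm ρ))]
    refine congrArg₂ (· * ·) ?_ ?_
    · refine Finset.prod_congr rfl fun j hj => ?_
      have h2 : σ j ≠ ρ := fun h => (Finset.ne_of_mem_erase hj) (by rw [← h, Equiv.symm_apply_apply])
      simp only [NS, Matrix.of_apply, Finset.mem_insert, h2, false_or]
    · simp only [NS, Matrix.of_apply, Equiv.apply_symm_apply, Finset.mem_insert, true_or, if_true]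
  · intro i _ hi
    have h2 : σ i ≠ ρ := fun h => hi (by rw [← h, Equiv.symm_apply_apply])
    rw [h1, if_neg h2, mul_zero]
  · intro h
    exact absurd (Finset.mem_univ _) h

theorem dls_perm {P : Type*} (x : P → Fin n) (y : Fin n × Fin n → K) (l : List P)
    (hl : (l.map x).Nodup) : ∀ S : Finset (Fin n), (∀ p ∈ l, x p ∉ S) →
    ∃ S' : Finset (Fin n), (∀ i, i ∈ S' ↔ i ∈ S ∨ i ∈ l.map x) ∧
      dls (fun p => rd y (x p)) l (NS y S).permanent = (NS y S').permanent := by
  classical
  induction l with
  | nil => exact fun S _ => ⟨S, fun i => by simp, rfl⟩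
  | cons p l ih =>
    intro S hS
    rw [List.map_cons] at hl
    obtain ⟨hp, hl'⟩ := List.nodup_cons.1 hl
    obtain ⟨S', h1, h2⟩ := ih hl' (insert (x p) S) (by
      intro p' hp' h
      rcases Finset.mem_insert.1 h with h | h
      · exact hp (h ▸ List.mem_map.2 ⟨p', hp', rfl⟩)
      · exact hS p' (List.mem_cons_of_mem _ hp') h)
    refine ⟨S', fun i => ?_, ?_⟩
    · rw [h1, Finset.mem_insert, List.map_cons, List.mem_cons]
      tauto
    · rw [dls_cons, rd_perm y S (x p) (hS p (by simp)), h2]

theorem NS_empty (y : Fin n × Fin n → K) :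
    NS y ∅ = Matrix.of fun i j => (X (i, j) : MvPolynomial (Fin n × Fin n) K) := by
  ext i j : 2
  simp [NS]

theorem eval_NS (y y0 : Fin n × Fin n → K) (S : Finset (Fin n))
    (h : ∀ i ∉ S, ∀ j, y0 (i, j) = y (i, j)) :
    eval y0 (NS y S).permanent = (Matrix.of fun i j => y (i, j)).permanent := by
  unfold Matrix.permanent
  rw [map_sum]
  refine Finset.sum_congr rfl fun σ _ => ?_
  rw [map_prod]
  refine Finset.prod_congr rfl fun i _ => ?_
  simp only [NS, Matrix.of_apply]
  split_ifs with hi
  · rw [eval_C]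
  · rw [eval_X, h _ hi]

end

section
variable {K : Type u} {L : Type v} [Field K] [Field L] {n : ℕ} [Algebra K L]
  [Algebra (MvPolynomial (Fin n × Fin n) K) L] [IsScalarTower K (MvPolynomial (Fin n × Fin n) K) L]
  [IsFractionRing (MvPolynomial (Fin n × Fin n) K) L]

/-- The lower bound for the rank of the iterated derivatives of the permanent. -/
theorem per_lowerA (hF : (2 : K) ≠ 0) {k h : ℕ} {ρ : Type*} [Fintype ρ] [DecidableEq ρ]
    (e : Fin n ≃ G.Idx h k ρ) {P : Type*} (x : P → Fin n) (l : List P) (hl : (l.map x).Nodup)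
    (hconst : ∀ i, i ∉ l.map x → ∀ (a a' c c' : Fin k → G.Pos h) (j : Fin n),
      G.Ymat a a' (e i) (e j) = G.Ymat c c' (e i) (e j)) (N : ℕ)
    (hup : HasRk (fun a a' : Fin k → G.Pos h => algebraMap (MvPolynomial (Fin n × Fin n) K) L
      (dls (fun p => rd (fun ij : Fin n × Fin n => ((G.Ymat a a' (e ij.1) (e ij.2) : ℤ) : K)) (x p)) l
        (Matrix.of fun i j => (X (i, j) : MvPolynomial (Fin n × Fin n) K)).permanent)) N) :
    (2 * (h + 1)) ^ k ≤ N := by
  classical
  let y : (Fin k → G.Pos h) → (Fin k → G.Pos h) → Fin n × Fin n → K := fun a a' ij =>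
    ((G.Ymat a a' (e ij.1) (e ij.2) : ℤ) : K)
  let g : (Fin k → G.Pos h) → (Fin k → G.Pos h) → MvPolynomial (Fin n × Fin n) K := fun a a' =>
    dls (fun p => rd (y a a') (x p)) l
      (Matrix.of fun i j => (X (i, j) : MvPolynomial (Fin n × Fin n) K)).permanent
  let c0 : Fin k → G.Pos h := fun _ => ((0 : Fin (h + 1)), false)
  have hg : ∀ a a', eval (y c0 c0) (g a a') = ((∏ b, G.mz (a b) (a' b) : ℤ) : K) := by
    intro a a'
    obtain ⟨S', h1, h2⟩ := dls_perm x (y a a') l hl ∅ (fun p _ => Finset.notMem_empty _)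
    rw [NS_empty] at h2
    simp only [g]
    rw [h2, eval_NS]
    · have h3 : (Matrix.of fun i j => y a a' (i, j)) =
          ((G.Ymat a a').submatrix e e).map (Int.castRingHom K) := by
        ext i j
        simp [y]
      rw [h3, permanent_map', permanent_submatrix_equiv, G.permanent_Ymat]
      simp
    · intro i hi j
      have h3 : i ∉ l.map x := fun h4 => hi ((h1 i).2 (Or.inr h4))
      simp only [y]
      rw [hconst i h3 c0 c0 a a' j]
  set MA : Matrix (Fin k → G.Pos h) (Fin k → G.Pos h) (MvPolynomial (Fin n × Fin n) K) :=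
    Matrix.of fun a c => g a (fun b => ((c b).1, !(c b).2)) with hMA
  have hres : (MA.map (eval (y c0 c0))).det ≠ 0 := by
    have h1 : MA.map (eval (y c0 c0)) = Matrix.diagonal
        (fun a => ((∏ b, G.mz (a b) ((a b).1, !(a b).2) : ℤ) : K)) := by
      ext a c
      rw [Matrix.map_apply, Matrix.diagonal_apply]
      simp only [hMA, Matrix.of_apply, hg]
      by_cases hac : a = c
      · subst hac; simp
      · rw [if_neg hac]
        obtain ⟨b, hb⟩ := Function.ne_iff.1 hac
        rw [Finset.prod_eq_zero (Finset.mem_univ b) (mzG_ne hb)]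
        simp
    rw [h1, Matrix.det_diagonal]
    refine Finset.prod_ne_zero_iff.2 fun a _ => ?_
    rw [Int.cast_prod]
    exact Finset.prod_ne_zero_iff.2 fun b _ => mzG_self hF _
  have hdetA : MA.det ≠ 0 := by
    intro h
    apply hres
    have h2 := RingHom.map_det (eval (y c0 c0)) MA
    rw [h, map_zero] at h2
    exact h2.symm
  have hdetL : (MA.map (algebraMap (MvPolynomial (Fin n × Fin n) K) L)).det ≠ 0 := by
    have h2 := RingHom.map_det (algebraMap (MvPolynomial (Fin n × Fin n) K) L) MA
    have h3 : ((algebraMap (MvPolynomial (Fin n × Fin n) K) L).mapMatrix MA) =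
      MA.map (algebraMap (MvPolynomial (Fin n × Fin n) K) L) := rfl
    rw [h3] at h2
    rw [← h2]
    intro h
    exact hdetA (IsFractionRing.injective (MvPolynomial (Fin n × Fin n) K) L (by rw [h, map_zero]))
  have h1 := hup.lower (P := Fin k → G.Pos h) id (fun c b => ((c b).1, !(c b).2))
    (MA.map (algebraMap (MvPolynomial (Fin n × Fin n) K) L))⁻¹
    (fun i j => by
      have h2 := Matrix.mul_nonsing_inv (MA.map (algebraMap (MvPolynomial (Fin n × Fin n) K) L))
        (isUnit_iff_ne_zero.2 hdetL)
      have h3 := congrFun (congrFun h2 i) j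
      rw [Matrix.mul_apply, Matrix.one_apply] at h3
      rw [← h3]
      rfl)
  have h4 : Fintype.card (Fin k → G.Pos h) = (2 * (h + 1)) ^ k := by
    rw [Fintype.card_fun, Fintype.card_prod]
    simp [mul_comm]
  rwa [h4] at h1

end

section
variable {K : Type u} [Field K] {n : ℕ}

/-- `z` is a separable algebraic function of polynomials which are determinants each of which has at
most `l ≤ L` lines, the lines of all these determinants together being at most `R` in number; every
line reads one row of `X` (see `RowLineDet`; constant lines are not counted). In characteristic zero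
this means that `z` is algebraic over the field generated by these determinants. -/
def AlgFunction {K : Type u} [Field K] {n : ℕ} (L R : ℕ)
    (z : FractionRing (MvPolynomial (Fin n × Fin n) K)) : Prop :=
  ∃ (t : ℕ) (q : Fin t → MvPolynomial (Fin n × Fin n) K) (l : Fin t → ℕ),
    (∀ j, Ext.RowLineDet (l j) (q j)) ∧ (∀ j, l j ≤ L) ∧ ∑ j, l j ≤ R ∧
    IsSeparable (IntermediateField.adjoin K (Set.range fun j => algebraMap
      (MvPolynomial (Fin n × Fin n) K) (FractionRing (MvPolynomial (Fin n × Fin n) K)) (q j))) z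

/-- The main inequality. -/
theorem alg_lower (hF : (2 : K) ≠ 0) {s k h : ℕ} (hk : 2 * (h + 1) * k ≤ n)
    (z : Fin s → FractionRing (MvPolynomial (Fin n × Fin n) K)) (L R : Fin s → ℕ)
    (hz : ∀ i, AlgFunction (L i) (R i) (z i))
    (hsum : ∑ i, z i = algebraMap (MvPolynomial (Fin n × Fin n) K) _
      (Matrix.of fun i j => (X (i, j) : MvPolynomial (Fin n × Fin n) K)).permanent) :
    (2 * (h + 1)) ^ k * n.descFactorial (2 * k) ≤
      ∑ i, (k * (k + 1) * (2 * R i * max n (2 * L i))) ^ k := by
  classical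
  choose t q l hq hlL hlR hsep using hz
  choose m M own hM hcard hqM using hq
  -- the number of lines of a row
  let r : (i : Fin s) → Fin (t i) → Fin n → ℕ := fun i j ρ =>
    2 * (Finset.univ.filter fun a => own i j a = some ρ).card
  have hr : ∀ i j, ∑ ρ, r i j ρ ≤ 2 * l i j := by
    intro i j
    simp only [r]
    rw [← Finset.mul_sum]
    refine Nat.mul_le_mul_left 2 (le_trans ?_ (hcard i j))
    rw [← Finset.card_biUnion]
    · refine Finset.card_le_card fun a ha => ?_
      obtain ⟨ρ, _, hρ⟩ := Finset.mem_biUnion.1 ha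
      rw [Finset.mem_filter] at hρ ⊢
      refine ⟨Finset.mem_univ _, ?_⟩
      rw [hρ.2]
      simp
    · intro ρ _ ρ' _ hne
      show Disjoint _ _
      rw [Finset.disjoint_left]
      intro a ha ha'
      rw [Finset.mem_filter] at ha ha'
      exact hne (Option.some_injective _ (ha.2.symm.trans ha'.2))
  have hkn : 2 * k ≤ n := by
    have h1 : 2 * k ≤ 2 * (h + 1) * k := by
      rw [mul_assoc]
      exact Nat.mul_le_mul_left 2 (Nat.le_mul_of_pos_left k (Nat.succ_pos h))
    exact h1.trans hk
  have hnpos : 0 < n ^ (2 * k) := by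
    rcases Nat.eq_zero_or_pos k with h0 | h0
    · rw [h0]; simp
    · have : 0 < n := by omega
      positivity
  -- positions
  let P := Fin k × Bool
  let lU : List P := (List.finRange k).map fun b => (b, false)
  let lV : List P := (List.finRange k).map fun b => (b, true)
  have hlU : lU.length = k := by simp [lU]
  have hlV : lV.length = k := by simp [lV]
  have hndU : lU.Nodup := (List.nodup_finRange k).map fun a b h => (Prod.ext_iff.1 h).1
  have hndV : lV.Nodup := (List.nodup_finRange k).map fun a b h => (Prod.ext_iff.1 h).1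
  have hmU : ∀ a ∈ lU, a.2 = false := by
    intro a ha
    obtain ⟨b, _, rfl⟩ := List.mem_map.1 ha
    rfl
  have hmV : ∀ a ∈ lV, a.2 = true := by
    intro a ha
    obtain ⟨b, _, rfl⟩ := List.mem_map.1 ha
    rfl
  have hnd : (lU ++ lV).Nodup := by
    refine List.nodup_append.2 ⟨hndU, hndV, ?_⟩
    intro a ha b hb hab
    have h1 := hmU a ha
    have h2 := hmV b hb
    rw [hab, h2] at h1
    exact absurd h1 (by simp)
  have hall : ∀ a : P, a ∈ lU ++ lV := by
    rintro ⟨b, _ | _⟩
    · exact List.mem_append_left _ (List.mem_map.2 ⟨b, List.mem_finRange b, rfl⟩)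
    · exact List.mem_append_right _ (List.mem_map.2 ⟨b, List.mem_finRange b, rfl⟩)
  have hcardP : Fintype.card P = 2 * k := by
    rw [Fintype.card_prod, Fintype.card_fin, Fintype.card_bool, mul_comm]
  -- the average
  let Φ : Fin s → (P → Fin n) → ℕ := fun i x =>
    Ext.Phi (fun j a => r i j (x a)) (k) lU lV
  have hav : ∀ i, ∑ x : P → Fin n, Φ i x ≤
      (k * (k + 1) * (2 * R i * max n (2 * L i))) ^ k := by
    intro i
    have h1 := Ext.Phi_av (P := P) (r i) (2 * R i) (max n (2 * L i))
      (by
        calc ∑ j, ∑ ρ, r i j ρ ≤ ∑ j, 2 * l i j := Finset.sum_le_sum fun j _ => hr i j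
          _ = 2 * ∑ j, l i j := by rw [Finset.mul_sum]
          _ ≤ 2 * R i := Nat.mul_le_mul_left 2 (hlR i))
      (fun j => (hr i j).trans ((Nat.mul_le_mul_left 2 (hlL i j)).trans (le_max_right _ _)))
      (le_max_left _ _) (k) lU lV hnd
    rw [hlU, hlV, hcardP, show k + k = 2 * k by ring] at h1
    have h2 := Nat.le_of_mul_le_mul_left h1 hnpos
    refine h2.trans (le_of_eq ?_)
    simp only [mul_pow]
  -- the choice of the rows
  obtain ⟨x, hx⟩ : ∃ x : P ↪ Fin n, n.descFactorial (2 * k) * ∑ i, Φ i x ≤
      ∑ i, (k * (k + 1) * (2 * R i * max n (2 * L i))) ^ k := by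
    have hcardE : Fintype.card (P ↪ Fin n) = n.descFactorial (2 * k) := by
      rw [Fintype.card_embedding_eq, Fintype.card_fin, hcardP]
    have hne : (Finset.univ : Finset (P ↪ Fin n)).Nonempty := by
      rw [← Finset.card_pos, Finset.card_univ, hcardE]
      exact Nat.descFactorial_pos.2 hkn
    by_contra hcon
    push Not at hcon
    have h1 := Finset.sum_lt_sum_of_nonempty hne (fun x _ => hcon x)
    rw [Finset.sum_const, Finset.card_univ, hcardE, smul_eq_mul, ← Finset.mul_sum] at h1
    have h2 : ∑ x : P ↪ Fin n, ∑ i, Φ i x ≤ ∑ x : P → Fin n, ∑ i, Φ i x := by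
      have h3 : ∑ x : P ↪ Fin n, ∑ i, Φ i x =
          ∑ x ∈ Finset.univ.map ⟨fun x : P ↪ Fin n => (x : P → Fin n), DFunLike.coe_injective⟩,
            ∑ i, Φ i x := by
        rw [Finset.sum_map]
        rfl
      rw [h3]
      exact Finset.sum_le_sum_of_subset (Finset.subset_univ _)
    rw [Finset.sum_comm (s := (Finset.univ : Finset (P → Fin n)))] at h2
    have h4 := h2.trans (Finset.sum_le_sum fun i _ => hav i)
    exact absurd (lt_of_lt_of_le h1 (Nat.mul_le_mul_left _ h4)) (lt_irrefl _)
  -- roles
  obtain ⟨e0⟩ : Nonempty (Fin n ≃ G.Idx h k (Fin (n - 2 * (h + 1) * k))) := by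
    rw [← Fintype.card_eq, Fintype.card_sum, Fintype.card_prod, Fintype.card_prod]
    simp only [Fintype.card_fin, Fintype.card_bool]
    have : k * ((h + 1) * 2) = 2 * (h + 1) * k := by ring
    omega
  obtain ⟨σ, hσ⟩ := Equiv.Perm.exists_extending_pair (fun a : P => x a)
    (fun a => e0.symm (Sum.inl (a.1, ((0 : Fin (h + 1)), a.2)))) x.injective
    (fun a b hab => by
      have h1 := e0.symm.injective hab
      simp only [Sum.inl.injEq, Prod.mk.injEq, true_and] at h1
      exact Prod.ext h1.1 h1.2)
  let e : Fin n ≃ G.Idx h k (Fin (n - 2 * (h + 1) * k)) := σ.trans e0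
  have he : ∀ a : P, e (x a) = Sum.inl (a.1, ((0 : Fin (h + 1)), a.2)) := by
    intro a
    simp only [e, Equiv.trans_apply]
    rw [hσ a, Equiv.apply_symm_apply]
  let LF := FractionRing (MvPolynomial (Fin n × Fin n) K)
  let PU : Set P := {a | a.2 = false}
  let y0 : (Fin k → G.Pos h) → (Fin k → G.Pos h) → Fin n × Fin n → K := fun a a' ij =>
    ((G.Ymat a a' (e ij.1) (e ij.2) : ℤ) : K)
  let y : P → (Fin k → G.Pos h) → (Fin k → G.Pos h) → Fin n × Fin n → K := fun b a a' ij =>
    if ij.1 = x b then y0 a a' ij else 0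
  have hrd : ∀ b a a', rd (y b a a') (x b) = rd (y0 a a') (x b) := by
    intro b a a'
    refine rd_congr fun j => ?_
    simp only [y, if_true]
  have hyU : ∀ b ∈ PU, ∀ (u v v' : Fin k → G.Pos h), y b u v = y b u v' := by
    rintro ⟨b, s⟩ hb u v v'
    have hb' : s = false := hb
    subst hb'
    funext ij
    simp only [y]
    split_ifs with h1
    · simp only [y0, h1, he, G.Ymat, if_true]
      simp
    · rfl
  have hyV : ∀ b ∉ PU, ∀ (u u' v : Fin k → G.Pos h), y b u v = y b u' v := by
    rintro ⟨b, s⟩ hb u u' v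
    have hb' : s = true := by
      cases s
      · exact absurd rfl hb
      · rfl
    subst hb'
    funext ij
    simp only [y]
    split_ifs with h1
    · simp only [y0, h1, he, G.Ymat, if_true]
    · rfl
  have hndL : ((lU ++ lV).map x).Nodup := hnd.map x.injective
  -- the upper bound
  have hup : HasRk (fun a a' => algebraMap (MvPolynomial (Fin n × Fin n) K) LF
      (dls (fun p => rd (y0 a a') (x p)) (lU ++ lV)
        (Matrix.of fun i j => (X (i, j) : MvPolynomial (Fin n × Fin n) K)).permanent))
      (∑ i, Φ i x) := by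
    have h1 := HasRk.sum (K := LF) (U := Fin k → G.Pos h) (V := Fin k → G.Pos h)
      (Finset.univ : Finset (Fin s))
      (M := fun i a a' => dls (fun p => exD LF (rd (y p a a') (x p))) (lU ++ lV) (z i))
      (r := fun i => Φ i x)
      (fun i _ => alg_rk x x.injective PU y hyU hyV (q i) (m i) (M i) (own i) (hM i) (hqM i)
        k lU lV hnd hmU (fun a ha h3 => by
          have h4 := hmV a ha
          have h5 : a.2 = false := h3
          rw [h5] at h4
          exact absurd h4 (by simp)) (z i) (mem_separableClosure_iff.2 (hsep i)) hlU.le)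
    refine h1.congr fun a a' => ?_
    rw [← dls_sum, hsum, ← dls_exD]
    refine dls_congr _ _ _ (fun p _ => ?_) _
    rw [hrd]
  have h1 := per_lowerA hF e x (lU ++ lV) hndL (by
    intro i hi a a' c c' j
    rcases hei : e i with ⟨b, j0, t⟩ | z
    · by_cases hj : j0 = 0
      · subst hj
        have h1 : i = x (b, t) := e.injective (by rw [hei, he])
        exact absurd (List.mem_map.2 ⟨(b, t), hall _, h1.symm⟩) hi
      · simp only [G.Ymat, if_neg hj]
    · simp only [G.Ymat]) _ hup
  calc (2 * (h + 1)) ^ k * n.descFactorial (2 * k)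
      ≤ (∑ i, Φ i x) * n.descFactorial (2 * k) := Nat.mul_le_mul_right _ h1
    _ = n.descFactorial (2 * k) * ∑ i, Φ i x := mul_comm _ _
    _ ≤ _ := hx

end

end Pool.Agent.W942.Alg
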