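import Pool.Agent.W942.CompRk

/-!
# The average of the bound over all choices of rows
-/

set_option autoImplicit false
set_option maxHeartbeats 1000000

namespace Pool.Agent.W942.Ext

open Finset

theorem pow_add_pow_le_nat (a b m : ℕ) : a ^ (m + 1) + b ^ (m + 1) ≤ (a + b) ^ (m + 1) := by
  induction m with
  | zero => simp
  | succ m ih =>
    calc a ^ (m + 1 + 1) + b ^ (m + 1 + 1) ≤ (a + b) * (a ^ (m + 1) + b ^ (m + 1)) := by
          rw [pow_succ a (m + 1), pow_succ b (m + 1)]
          nlinarith [Nat.zero_le (a * b ^ (m + 1)), Nat.zero_le (b * a ^ (m + 1))]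
      _ ≤ (a + b) * (a + b) ^ (m + 1) := Nat.mul_le_mul_left _ ih
      _ = _ := by rw [pow_succ (a + b) (m + 1)]; ring

theorem sum_indep_one {P : Type*} [Fintype P] [DecidableEq P] {n : ℕ} (a : P)
    (f : (P → Fin n) → ℕ) (g : Fin n → ℕ)
    (hf : ∀ x x', (∀ p, p ≠ a → x p = x' p) → f x = f x') :
    n * ∑ x, f x * g (x a) = (∑ ρ, g ρ) * ∑ x, f x := by
  classical
  rcases Nat.eq_zero_or_pos n with rfl | hn
  · simp
  let e := Equiv.funSplitAt a (Fin n)
  let ρ0 : Fin n := ⟨0, hn⟩
  have h1 : ∀ z : Fin n × ({j // j ≠ a} → Fin n), f (e.symm z) = f (e.symm (ρ0, z.2)) := by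
    rintro ⟨ρ, z⟩
    refine hf _ _ fun p hp => ?_
    simp [e, Equiv.funSplitAt, Equiv.piSplitAt, hp]
  have h2 : ∀ z : Fin n × ({j // j ≠ a} → Fin n), (e.symm z) a = z.1 := by
    rintro ⟨ρ, z⟩
    simp [e, Equiv.funSplitAt, Equiv.piSplitAt]
  have h3 : ∑ x, f x * g (x a) = (∑ ρ, g ρ) * ∑ z, f (e.symm (ρ0, z)) := by
    rw [← e.symm.sum_comp, Fintype.sum_prod_type, Finset.sum_mul]
    refine Finset.sum_congr rfl fun ρ _ => ?_
    rw [Finset.mul_sum]
    refine Finset.sum_congr rfl fun z _ => ?_
    rw [h1, h2, mul_comm]
  have h4 : ∑ x, f x = n * ∑ z, f (e.symm (ρ0, z)) := by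
    rw [← e.symm.sum_comp, Fintype.sum_prod_type]
    simp only [h1]
    simp
  rw [h3, h4]
  ring

theorem sum_indep {P : Type*} [Fintype P] [DecidableEq P] {n : ℕ} (f : (P → Fin n) → ℕ)
    (g : Fin n → ℕ) (A : Finset P) (hf : ∀ x x', (∀ p, p ∉ A → x p = x' p) → f x = f x') :
    n ^ A.card * ∑ x, f x * ∏ a ∈ A, g (x a) = (∑ ρ, g ρ) ^ A.card * ∑ x, f x := by
  classical
  induction A using Finset.induction_on with
  | empty => simp
  | insert a A ha ih =>
    rw [Finset.card_insert_of_notMem ha]
    have h1 := sum_indep_one a (fun x => f x * ∏ b ∈ A, g (x b)) g (by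
      intro x x' h
      have h2 : f x = f x' := hf x x' fun p hp => h p fun h3 => hp (h3 ▸ Finset.mem_insert_self _ _)
      have h3 : ∏ b ∈ A, g (x b) = ∏ b ∈ A, g (x' b) := Finset.prod_congr rfl fun b hb => by
        rw [h b (fun h4 => ha (h4 ▸ hb))]
      rw [h2, h3])
    have h2 : ∀ x : P → Fin n, f x * ∏ b ∈ insert a A, g (x b) =
        f x * (∏ b ∈ A, g (x b)) * g (x a) := by
      intro x
      rw [Finset.prod_insert ha]
      ring
    simp only [h2]
    rw [pow_succ, mul_assoc, h1, mul_left_comm, ih (fun x x' h => hf x x' fun p hp =>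
      h p fun h3 => hp (Finset.mem_insert_of_mem h3))]
    ring

theorem Phi_congr {J P : Type*} [Fintype J] [DecidableEq P] (w w' : J → P → ℕ) (δ : ℕ) :
    ∀ lU lV : List P, (∀ j, ∀ p ∈ lU ++ lV, w j p = w' j p) → Phi w δ lU lV = Phi w' δ lU lV := by
  induction δ with
  | zero =>
    intro lU lV _
    rcases lU with _ | ⟨p, l⟩ <;> simp [Phi]
  | succ δ ih =>
    intro lU lV h
    rcases lU with _ | ⟨p, l⟩
    · simp [Phi]
    · simp only [Phi]
      refine Finset.sum_congr rfl fun B hB => Finset.sum_congr rfl fun C hC => ?_
      have hB' := Finset.mem_powerset.1 hB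
      have hC' := Finset.mem_powerset.1 hC
      rw [ih _ _ (fun j a ha => h j a ?_)]
      · congr 1
        refine Finset.sum_congr rfl fun j _ => ?_
        rw [h j p (by simp), Finset.prod_congr rfl (fun b hb => h j b ?_),
          Finset.prod_congr rfl (fun c hc => h j c ?_)]
        · exact List.mem_append_right _ (by simpa using hC' hc)
        · exact List.mem_append_left _ (List.mem_cons_of_mem _ (by simpa using hB' hb))
      · rcases List.mem_append.1 ha with h1 | h1
        · exact List.mem_append_left _ (List.mem_cons_of_mem _ (List.mem_of_mem_filter h1))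
        · exact List.mem_append_right _ (List.mem_of_mem_filter h1)

theorem length_filter_notMem {P : Type*} [DecidableEq P] (l : List P) (hl : l.Nodup)
    (B : Finset P) (hB : B ⊆ l.toFinset) : (l.filter (· ∉ B)).length = l.toFinset.card - B.card := by
  rw [← List.toFinset_card_of_nodup (hl.filter _), ← Finset.card_sdiff_of_subset hB]
  congr 1
  ext a
  simp

theorem Phi_av {J P : Type*} [Fintype J] [Fintype P] [DecidableEq P] {n : ℕ}
    (r : J → Fin n → ℕ) (T M : ℕ) (hT : ∑ j, ∑ ρ, r j ρ ≤ T) (hM : ∀ j, ∑ ρ, r j ρ ≤ M)
    (hn : n ≤ M) (δ : ℕ) : ∀ lU lV : List P, (lU ++ lV).Nodup →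
    n ^ (lU.length + lV.length) * ∑ x : P → Fin n, Phi (fun j p => r j (x p)) δ lU lV ≤
      n ^ Fintype.card P * (δ ^ lU.length * (δ + 1) ^ lV.length *
        (T ^ lU.length * M ^ lV.length)) := by
  classical
  have hbase : ∀ (δ : ℕ) (lV : List P),
      n ^ (([] : List P).length + lV.length) * ∑ x : P → Fin n, Phi (fun j p => r j (x p)) δ [] lV ≤
      n ^ Fintype.card P * (δ ^ ([] : List P).length * (δ + 1) ^ lV.length *
        (T ^ ([] : List P).length * M ^ lV.length)) := by
    intro δ lV
    have h1 : ∀ x : P → Fin n, Phi (fun j p => r j (x p)) δ [] lV = 1 := fun x => by simp [Phi]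
    simp only [h1, List.length_nil, zero_add, pow_zero, one_mul, Finset.sum_const,
      Finset.card_univ, Fintype.card_fun, Fintype.card_fin, smul_eq_mul, mul_one]
    rw [mul_comm]
    refine Nat.mul_le_mul_left _ ?_
    calc n ^ lV.length ≤ M ^ lV.length := Nat.pow_le_pow_left hn _
      _ ≤ (δ + 1) ^ lV.length * M ^ lV.length :=
        Nat.le_mul_of_pos_left _ (pow_pos (Nat.succ_pos δ) _)
  induction δ with
  | zero =>
    intro lU lV _
    rcases lU with _ | ⟨p, l⟩
    · exact hbase 0 lV
    · have h1 : ∀ x : P → Fin n, Phi (fun j p => r j (x p)) 0 (p :: l) lV = 0 := fun x => by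
        simp [Phi]
      simp only [h1, Finset.sum_const_zero, mul_zero]
      exact Nat.zero_le _
  | succ δ ih =>
    intro lU lV hnd
    rcases lU with _ | ⟨p, l⟩
    · exact hbase (δ + 1) lV
    · have hnd' : (p :: (l ++ lV)).Nodup := by simpa using hnd
      obtain ⟨hp, hnd2⟩ := List.nodup_cons.1 hnd'
      obtain ⟨hl, hlVn, hdis⟩ := List.nodup_append.1 hnd2
      set S : J → ℕ := fun j => ∑ ρ, r j ρ with hS
      set a := l.length with ha
      set b := lV.length with hb
      have hlc : l.toFinset.card = a := List.toFinset_card_of_nodup hl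
      have hlVc : lV.toFinset.card = b := List.toFinset_card_of_nodup hlVn
      -- each term
      have hterm : ∀ B ∈ l.toFinset.powerset, ∀ C ∈ lV.toFinset.powerset,
          n ^ (1 + a + b) * ∑ x : P → Fin n, (Phi (fun j p => r j (x p)) δ (l.filter (· ∉ B))
            (lV.filter (· ∉ C)) * ∑ j, r j (x p) * ((∏ c ∈ B, r j (x c)) * ∏ c ∈ C, r j (x c))) ≤
          n ^ Fintype.card P * (T ^ (1 + a) * M ^ b) * (δ ^ (a - B.card) *
            (δ + 1) ^ (b - C.card)) := by
        intro B hB C hC
        have hB' := Finset.mem_powerset.1 hB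
        have hC' := Finset.mem_powerset.1 hC
        have hBa : B.card ≤ a := hlc ▸ Finset.card_le_card hB'
        have hCb : C.card ≤ b := hlVc ▸ Finset.card_le_card hC'
        have hpB : p ∉ B := fun h => hp (List.mem_append_left _ (by simpa using hB' h))
        have hpC : p ∉ C := fun h => hp (List.mem_append_right _ (by simpa using hC' h))
        have hBC : Disjoint B C := by
          rw [Finset.disjoint_left]
          intro c hc hc'
          exact hdis c (by simpa using hB' hc) c (by simpa using hC' hc') rfl
        have hpBC : p ∉ B ∪ C := by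
          rw [Finset.mem_union]
          tauto
        have hcard : (insert p (B ∪ C)).card = 1 + B.card + C.card := by
          rw [Finset.card_insert_of_notMem hpBC, Finset.card_union_of_disjoint hBC]
          omega
        have hprod : ∀ (j : J) (x : P → Fin n), r j (x p) * ((∏ c ∈ B, r j (x c)) *
            ∏ c ∈ C, r j (x c)) = ∏ c ∈ insert p (B ∪ C), r j (x c) := by
          intro j x
          rw [Finset.prod_insert hpBC, Finset.prod_union hBC]
        set Q : (P → Fin n) → ℕ := fun x => Phi (fun j p => r j (x p)) δ (l.filter (· ∉ B))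
            (lV.filter (· ∉ C)) with hQ
        have hind : ∀ x x' : P → Fin n, (∀ c, c ∉ insert p (B ∪ C) → x c = x' c) → Q x = Q x' := by
          intro x x' h
          simp only [hQ]
          refine Phi_congr _ _ _ _ _ fun j c hc => ?_
          rw [h c ?_]
          intro h1
          rcases List.mem_append.1 hc with h2 | h2
          · obtain ⟨h3, h4⟩ := List.mem_filter.1 h2
            have h4' : c ∉ B := by simpa using h4
            rcases Finset.mem_insert.1 h1 with h5 | h5
            · exact hp (List.mem_append_left _ (h5 ▸ h3))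
            · rcases Finset.mem_union.1 h5 with h6 | h6
              · exact h4' h6
              · exact hdis c h3 c (by simpa using hC' h6) rfl
          · obtain ⟨h3, h4⟩ := List.mem_filter.1 h2
            have h4' : c ∉ C := by simpa using h4
            rcases Finset.mem_insert.1 h1 with h5 | h5
            · exact hp (List.mem_append_right _ (h5 ▸ h3))
            · rcases Finset.mem_union.1 h5 with h6 | h6
              · exact hdis c (by simpa using hB' h6) c h3 rfl
              · exact h4' h6
        have h1 : ∀ j, n ^ (1 + B.card + C.card) * ∑ x, Q x * ∏ c ∈ insert p (B ∪ C), r j (x c) =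
            (S j) ^ (1 + B.card + C.card) * ∑ x, Q x := by
          intro j
          have := sum_indep Q (r j) (insert p (B ∪ C)) hind
          rwa [hcard] at this
        have h2 : n ^ ((a - B.card) + (b - C.card)) * ∑ x, Q x ≤
            n ^ Fintype.card P * (δ ^ (a - B.card) * (δ + 1) ^ (b - C.card) *
              (T ^ (a - B.card) * M ^ (b - C.card))) := by
          have h3 := ih (l.filter (· ∉ B)) (lV.filter (· ∉ C)) (by
            refine List.nodup_append.2 ⟨hl.filter _, hlVn.filter _, ?_⟩
            intro a ha b hb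
            exact hdis a (List.mem_of_mem_filter ha) b (List.mem_of_mem_filter hb))
          rw [length_filter_notMem l hl B hB', length_filter_notMem lV hlVn C hC', hlc, hlVc] at h3
          exact h3
        have h3 : ∑ j, (S j) ^ (1 + B.card + C.card) ≤ T ^ (1 + B.card) * M ^ C.card := by
          calc ∑ j, (S j) ^ (1 + B.card + C.card) ≤ ∑ j, (S j) ^ (1 + B.card) * M ^ C.card := by
                refine Finset.sum_le_sum fun j _ => ?_
                rw [pow_add]
                exact Nat.mul_le_mul_left _ (Nat.pow_le_pow_left (hM j) _)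
            _ = (∑ j, (S j) ^ (1 + B.card)) * M ^ C.card := by rw [Finset.sum_mul]
            _ ≤ T ^ (1 + B.card) * M ^ C.card := by
                refine Nat.mul_le_mul_right _ ?_
                have h4 : ∀ s : Finset J, ∑ j ∈ s, (S j) ^ (1 + B.card) ≤
                    (∑ j ∈ s, S j) ^ (1 + B.card) := by
                  intro s
                  induction s using Finset.induction_on with
                  | empty => simp
                  | insert j s hj ihs =>
                    rw [Finset.sum_insert hj, Finset.sum_insert hj]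
                    calc (S j) ^ (1 + B.card) + ∑ x ∈ s, (S x) ^ (1 + B.card) ≤
                          (S j) ^ (1 + B.card) + (∑ x ∈ s, S x) ^ (1 + B.card) :=
                          Nat.add_le_add_left ihs _
                      _ ≤ _ := by rw [add_comm 1]; exact pow_add_pow_le_nat _ _ _
                exact (h4 Finset.univ).trans (Nat.pow_le_pow_left hT _)
        calc n ^ (1 + a + b) * ∑ x : P → Fin n, (Q x *
              ∑ j, r j (x p) * ((∏ c ∈ B, r j (x c)) * ∏ c ∈ C, r j (x c)))
            = n ^ (1 + a + b) * ∑ j, ∑ x, Q x * ∏ c ∈ insert p (B ∪ C), r j (x c) := by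
              rw [Finset.sum_comm]
              congr 1
              refine Finset.sum_congr rfl fun x _ => ?_
              rw [Finset.mul_sum]
              refine Finset.sum_congr rfl fun j _ => ?_
              rw [hprod]
          _ = ∑ j, n ^ ((a - B.card) + (b - C.card)) * (n ^ (1 + B.card + C.card) *
                ∑ x, Q x * ∏ c ∈ insert p (B ∪ C), r j (x c)) := by
              rw [Finset.mul_sum]
              refine Finset.sum_congr rfl fun j _ => ?_
              rw [← mul_assoc, ← pow_add]
              congr 2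
              omega
          _ = (∑ j, (S j) ^ (1 + B.card + C.card)) * (n ^ ((a - B.card) + (b - C.card)) *
                ∑ x, Q x) := by
              rw [Finset.sum_mul]
              refine Finset.sum_congr rfl fun j _ => ?_
              rw [h1]
              ring
          _ ≤ (T ^ (1 + B.card) * M ^ C.card) * (n ^ Fintype.card P * (δ ^ (a - B.card) *
                (δ + 1) ^ (b - C.card) * (T ^ (a - B.card) * M ^ (b - C.card)))) :=
              Nat.mul_le_mul h3 h2
          _ = n ^ Fintype.card P * ((T ^ (1 + B.card) * T ^ (a - B.card)) *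
                (M ^ C.card * M ^ (b - C.card))) * (δ ^ (a - B.card) * (δ + 1) ^ (b - C.card)) := by
              ring
          _ = _ := by
              rw [← pow_add, ← pow_add, show 1 + B.card + (a - B.card) = 1 + a by omega,
                show C.card + (b - C.card) = b by omega]
      -- the sum
      have hsum : n ^ (1 + a + b) * ∑ x : P → Fin n, Phi (fun j p => r j (x p)) (δ + 1) (p :: l) lV ≤
          n ^ Fintype.card P * (T ^ (1 + a) * M ^ b) * ((δ + 1) ^ a * (δ + 2) ^ b) := by
        simp only [Phi]
        rw [Finset.sum_comm, Finset.mul_sum]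
        have h1 : ∀ B ∈ l.toFinset.powerset, n ^ (1 + a + b) * ∑ x : P → Fin n,
            ∑ C ∈ lV.toFinset.powerset, (Phi (fun j p => r j (x p)) δ (l.filter (· ∉ B))
            (lV.filter (· ∉ C)) * ∑ j, r j (x p) * ((∏ c ∈ B, r j (x c)) * ∏ c ∈ C, r j (x c))) ≤
            ∑ C ∈ lV.toFinset.powerset, n ^ Fintype.card P * (T ^ (1 + a) * M ^ b) *
              (δ ^ (a - B.card) * (δ + 1) ^ (b - C.card)) := by
          intro B hB
          rw [Finset.sum_comm, Finset.mul_sum]
          exact Finset.sum_le_sum fun C hC => hterm B hB C hC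
        refine (Finset.sum_le_sum h1).trans (le_of_eq ?_)
        have h2 : ∀ (s : Finset P) (z : ℕ), ∑ B ∈ s.powerset, z ^ (s.card - B.card) =
            (1 + z) ^ s.card := by
          intro s z
          rw [← Finset.sum_pow_mul_eq_add_pow]
          simp
        have h3 := h2 l.toFinset δ
        have h4 := h2 lV.toFinset (δ + 1)
        rw [hlc] at h3
        rw [hlVc] at h4
        rw [show δ + 1 = 1 + δ by ring, ← h3, show δ + 2 = 1 + (δ + 1) by ring, ← h4,
          Finset.sum_mul_sum, Finset.mul_sum]
        refine Finset.sum_congr rfl fun B _ => ?_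
        rw [Finset.mul_sum]
        refine Finset.sum_congr rfl fun C _ => ?_
        rw [show 1 + δ = δ + 1 by ring]
      rw [List.length_cons, ← ha]
      calc n ^ (a + 1 + b) * ∑ x : P → Fin n, Phi (fun j p => r j (x p)) (δ + 1) (p :: l) lV
          = n ^ (1 + a + b) * ∑ x : P → Fin n, Phi (fun j p => r j (x p)) (δ + 1) (p :: l) lV := by
            rw [add_comm a 1]
        _ ≤ _ := hsum
        _ ≤ n ^ Fintype.card P * (T ^ (1 + a) * M ^ b) * ((δ + 1) ^ (a + 1) * (δ + 2) ^ b) := by
            refine Nat.mul_le_mul_left _ (Nat.mul_le_mul_right _ ?_)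
            exact Nat.pow_le_pow_right (Nat.succ_pos δ) (Nat.le_succ a)
        _ = _ := by
            rw [add_comm 1 a]
            ring

end Pool.Agent.W942.Ext
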