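import Pool.Agent.W942.AlgD
import Pool.Agent.W942.CompAv

/-!
# Algebraic functions of determinants: the rank of iterated derivatives
-/

set_option autoImplicit false
set_option maxHeartbeats 1000000

namespace Pool.Agent.W942.Alg

open Finset MvPolynomial

section
variable {K L : Type*} [Field K] [Field L] [Algebra K L]

/-- The chain rule for rational functions. -/
theorem partials_adjoin {ι : Type*} [Fintype ι] (q : ι → L) (z : L)
    (hz : z ∈ IntermediateField.adjoin K (Set.range q)) :
    ∃ w : ι → L, (∀ j, w j ∈ IntermediateField.adjoin K (Set.range q)) ∧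
      ∀ D : Derivation K L L, D z = ∑ j, w j * D (q j) := by
  classical
  induction hz using IntermediateField.adjoin_induction with
  | mem x hx =>
    obtain ⟨j, rfl⟩ := hx
    refine ⟨fun i => if i = j then 1 else 0, fun i => ?_, fun D => ?_⟩
    · simp only
      split_ifs
      · exact one_mem _
      · exact zero_mem _
    · simp
  | algebraMap x =>
    refine ⟨fun _ => 0, fun _ => zero_mem _, fun D => ?_⟩
    simp
  | add x y hx hy ihx ihy =>
    obtain ⟨w, h1, h2⟩ := ihx
    obtain ⟨w', h3, h4⟩ := ihy
    refine ⟨fun j => w j + w' j, fun j => add_mem (h1 j) (h3 j), fun D => ?_⟩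
    rw [map_add, h2, h4, ← Finset.sum_add_distrib]
    exact Finset.sum_congr rfl fun j _ => by ring
  | inv x hx ih =>
    obtain ⟨w, h1, h2⟩ := ih
    refine ⟨fun j => -(x⁻¹ ^ 2 * w j), fun j => neg_mem (mul_mem (pow_mem (inv_mem hx) 2) (h1 j)),
      fun D => ?_⟩
    rw [Derivation.leibniz_inv, h2, smul_eq_mul, Finset.mul_sum]
    exact Finset.sum_congr rfl fun j _ => by ring
  | mul x y hx hy ihx ihy =>
    obtain ⟨w, h1, h2⟩ := ihx
    obtain ⟨w', h3, h4⟩ := ihy
    refine ⟨fun j => x * w' j + y * w j, fun j => add_mem (mul_mem hx (h3 j)) (mul_mem hy (h1 j)),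
      fun D => ?_⟩
    rw [Derivation.leibniz, smul_eq_mul, smul_eq_mul, h2, h4, Finset.mul_sum, Finset.mul_sum,
      ← Finset.sum_add_distrib]
    exact Finset.sum_congr rfl fun j _ => by ring

/-- The chain rule for separable algebraic functions. -/
theorem partials {ι : Type*} [Fintype ι] (q : ι → L) (z : L)
    (hz : z ∈ separableClosure (IntermediateField.adjoin K (Set.range q)) L) :
    ∃ w : ι → L, (∀ j, w j ∈ separableClosure (IntermediateField.adjoin K (Set.range q)) L) ∧
      ∀ D : Derivation K L L, D z = ∑ j, w j * D (q j) := by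
  classical
  set E0 := IntermediateField.adjoin K (Set.range q) with hE0
  set E := separableClosure E0 L with hE
  have hpol : ∀ Q : Polynomial E0, ∃ w : ι → L, (∀ j, w j ∈ E) ∧ ∀ D : Derivation K L L,
      D (Polynomial.aeval z Q) = ∑ j, w j * D (q j) +
        Polynomial.aeval z (Polynomial.derivative Q) * D z := by
    intro Q
    induction Q using Polynomial.induction_on' with
    | add a b iha ihb =>
      obtain ⟨w, h1, h2⟩ := iha
      obtain ⟨w', h3, h4⟩ := ihb
      refine ⟨fun j => w j + w' j, fun j => add_mem (h1 j) (h3 j), fun D => ?_⟩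
      rw [map_add, map_add, h2, h4, Polynomial.derivative_add, map_add]
      have h5 : ∑ j, (w j + w' j) * D (q j) = ∑ j, w j * D (q j) + ∑ j, w' j * D (q j) := by
        rw [← Finset.sum_add_distrib]
        exact Finset.sum_congr rfl fun j _ => by ring
      rw [h5]
      ring
    | monomial m c =>
      obtain ⟨w, h1, h2⟩ := partials_adjoin q (c : L) c.2
      refine ⟨fun j => z ^ m * w j, fun j => mul_mem (pow_mem hz m)
        (E.algebraMap_mem ⟨w j, h1 j⟩), fun D => ?_⟩
      rw [Polynomial.aeval_monomial, Polynomial.derivative_monomial, Polynomial.aeval_monomial,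
        Derivation.leibniz, Derivation.leibniz_pow, smul_eq_mul, smul_eq_mul, smul_eq_mul,
        nsmul_eq_mul, map_mul, map_natCast]
      have h3 : D (algebraMap E0 L c) = ∑ j, w j * D (q j) := h2 D
      rw [h3, Finset.mul_sum]
      have h4 : ∑ j, z ^ m * w j * D (q j) = ∑ j, z ^ m * (w j * D (q j)) :=
        Finset.sum_congr rfl fun j _ => by ring
      rw [h4]
      ring
  have hsep : IsSeparable E0 z := mem_separableClosure_iff.1 hz
  obtain ⟨w, h1, h2⟩ := hpol (minpoly E0 z)
  have hne : Polynomial.aeval z (Polynomial.derivative (minpoly E0 z)) ≠ 0 :=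
    Polynomial.Separable.aeval_derivative_ne_zero hsep (minpoly.aeval E0 z)
  set d := Polynomial.aeval z (Polynomial.derivative (minpoly E0 z)) with hd
  have hdE : d ∈ E := by
    have h3 : d = ((Polynomial.aeval (⟨z, hz⟩ : E)
        (Polynomial.derivative (minpoly E0 z)) : E) : L) := by
      rw [hd]
      exact (Polynomial.aeval_algebraMap_apply L (⟨z, hz⟩ : E) _)
    rw [h3]
    exact SetLike.coe_mem _
  refine ⟨fun j => -(d⁻¹ * w j), fun j => neg_mem (mul_mem (inv_mem hdE) (h1 j)), fun D => ?_⟩
  have h3 := h2 D
  rw [minpoly.aeval, map_zero] at h3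
  have h4 : D z = -(d⁻¹ * ∑ j, w j * D (q j)) := by
    have h5 : d * D z = -∑ j, w j * D (q j) := by
      have := h3.symm
      linear_combination this
    field_simp
    linear_combination h5
  rw [h4, Finset.mul_sum, ← Finset.sum_neg_distrib]
  exact Finset.sum_congr rfl fun j _ => by ring

end

section
variable {K L U V P : Type*} [Field K] [Field L] {n : ℕ} [Algebra K L]
  [Algebra (MvPolynomial (Fin n × Fin n) K) L] [IsScalarTower K (MvPolynomial (Fin n × Fin n) K) L]
  [IsFractionRing (MvPolynomial (Fin n × Fin n) K) L] [DecidableEq P]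

variable (L) in
/-- The field of the separable algebraic functions of the `q j`. -/
noncomputable abbrev Ef {t : ℕ} (q : Fin t → MvPolynomial (Fin n × Fin n) K) :
    IntermediateField (IntermediateField.adjoin K (Set.range fun j =>
      algebraMap (MvPolynomial (Fin n × Fin n) K) L (q j))) L :=
  separableClosure (IntermediateField.adjoin K (Set.range fun j =>
    algebraMap (MvPolynomial (Fin n × Fin n) K) L (q j))) L

/-- The rank of iterated derivatives of a separable algebraic function of determinants. -/
theorem alg_rk (x : P → Fin n) (hx : Function.Injective x) (PU : Set P)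
    (y : P → U → V → Fin n × Fin n → K)
    (hyU : ∀ p ∈ PU, ∀ u v v', y p u v = y p u v') (hyV : ∀ p ∉ PU, ∀ u u' v, y p u v = y p u' v)
    {t : ℕ} (q : Fin t → MvPolynomial (Fin n × Fin n) K) (m : Fin t → ℕ)
    (M : (j : Fin t) → Matrix (Fin (m j)) (Fin (m j)) (MvPolynomial (Fin n × Fin n) K))
    (own : (j : Fin t) → Fin (m j) → Option (Fin n))
    (hM : ∀ j i i', ∀ x ∈ (M j i i').vars, own j i = some x.1) (hq : ∀ j, q j = (M j).det)
    (δ : ℕ) : ∀ (lU lV : List P), (lU ++ lV).Nodup → (∀ p ∈ lU, p ∈ PU) → (∀ p ∈ lV, p ∉ PU) →
      ∀ z ∈ Ef L q, lU.length ≤ δ →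
      HasRk (fun u v => dls (fun p => exD L (rd (y p u v) (x p))) (lU ++ lV) z)
        (Ext.Phi (fun j p => 2 * (Finset.univ.filter fun i => own j i = some (x p)).card)
          δ lU lV) := by
  classical
  -- no position of the first kind
  have hbase : ∀ (lV : List P) (δ : ℕ), (∀ p ∈ lV, p ∉ PU) → ∀ z : L,
      HasRk (fun u v => dls (fun p => exD L (rd (y p u v) (x p))) ([] ++ lV) z)
        (Ext.Phi (fun j p => 2 * (Finset.univ.filter fun i => own j i = some (x p)).card)
          δ [] lV) := by
    intro lV δ hlV z
    have h1 := HasRk.of_left (fun _ : U => ())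
      (M := fun u v => dls (fun p => exD L (rd (y p u v) (x p))) ([] ++ lV) z)
      (by
        intro u u' v _
        refine dls_congr _ _ _ (fun p hp => ?_) z
        rw [hyV p (hlV p (by simpa using hp)) u u' v])
    rw [Fintype.card_unit] at h1
    simpa [Ext.Phi] using h1
  induction δ with
  | zero =>
    intro lU lV hnd hlU hlV z hz hlen
    have h1 : lU = [] := List.length_eq_zero_iff.1 (by omega)
    subst h1
    exact hbase lV 0 hlV z
  | succ δ ih =>
    intro lU lV hnd hlU hlV z hz hlen
    rcases lU with _ | ⟨p, l⟩
    · exact hbase lV (δ + 1) hlV z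
    · have hnd' : (p :: (l ++ lV)).Nodup := by simpa using hnd
      obtain ⟨hp, hnd2⟩ := List.nodup_cons.1 hnd'
      obtain ⟨hl, hlVn, hdis⟩ := List.nodup_append.1 hnd2
      let w : Fin t → P → ℕ := fun j p =>
        2 * (Finset.univ.filter fun i => own j i = some (x p)).card
      let D : U → V → P → Derivation K L L := fun u v p => exD L (rd (y p u v) (x p))
      obtain ⟨ζ, hζ1, hζ2⟩ := partials (fun j =>
        algebraMap (MvPolynomial (Fin n × Fin n) K) L (q j)) z hz
      have hexp : ∀ u v, dls (D u v) ((p :: l) ++ lV) z =
          ∑ j, ∑ B ∈ l.toFinset.powerset, ∑ C ∈ lV.toFinset.powerset,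
            dls (D u v) (p :: (l.filter (· ∈ B) ++ lV.filter (· ∈ C)))
              (algebraMap (MvPolynomial (Fin n × Fin n) K) L (q j)) *
            dls (D u v) (l.filter (· ∉ B) ++ lV.filter (· ∉ C)) (ζ j) := by
        intro u v
        rw [List.cons_append, dls_cons, hζ2, dls_sum]
        refine Finset.sum_congr rfl fun j _ => ?_
        rw [mul_comm, dls_append, dls_mul _ l hl, dls_sum]
        refine Finset.sum_congr rfl fun B _ => ?_
        rw [dls_mul _ lV hlVn]
        refine Finset.sum_congr rfl fun C _ => ?_
        rw [dls_cons, dls_append, dls_append]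
      have hterm : ∀ j : Fin t, ∀ B ∈ l.toFinset.powerset, ∀ C ∈ lV.toFinset.powerset,
          HasRk (fun u v => dls (D u v) (p :: (l.filter (· ∈ B) ++ lV.filter (· ∈ C)))
              (algebraMap (MvPolynomial (Fin n × Fin n) K) L (q j)) *
            dls (D u v) (l.filter (· ∉ B) ++ lV.filter (· ∉ C)) (ζ j))
            ((w j p * ((∏ b ∈ B, w j b) * ∏ c ∈ C, w j c)) *
              Ext.Phi w δ (l.filter (· ∉ B)) (lV.filter (· ∉ C))) := by
        intro j B hB C hC
        have hB' := Finset.mem_powerset.1 hB
        have hC' := Finset.mem_powerset.1 hC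
        refine HasRk.mul ?_ ?_
        · have hndL : (p :: (l.filter (· ∈ B) ++ lV.filter (· ∈ C))).Nodup := by
            refine List.nodup_cons.2 ⟨fun h => hp ?_, ?_⟩
            · rcases List.mem_append.1 h with h | h
              · exact List.mem_append_left _ (List.mem_of_mem_filter h)
              · exact List.mem_append_right _ (List.mem_of_mem_filter h)
            · refine List.nodup_append.2 ⟨hl.filter _, hlVn.filter _, ?_⟩
              intro a ha b hb
              exact hdis a (List.mem_of_mem_filter ha) b (List.mem_of_mem_filter hb)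
          have h1 := rk_dls (L := L) (U := U) (V := V) (own j) x PU y hyU hyV
            (p :: (l.filter (· ∈ B) ++ lV.filter (· ∈ C))) (hndL.map hx) ∅ ∅
            (Finset.disjoint_empty_left _) (fun _ _ => M j)
            (fun i hi => absurd hi (Finset.notMem_empty i))
            (fun i hi => absurd hi (Finset.notMem_empty i))
            (fun i _ _ u u' v v' => rfl)
            (fun i p h => absurd h (by simp))
            (fun i p _ ho z u v i' => rd_zero _ _ _ fun a ha h2 => ho (by rw [hM j i i' a ha, h2]))
          rw [Finset.card_empty, zero_add, zero_add] at h1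
          refine (h1.congr fun u v => ?_).mono (le_of_eq ?_)
          · rw [hq j]
            exact dls_exD (fun p => rd (y p u v) (x p)) _ _
          · have h2 : ∀ L' : List P, 2 ^ L'.length * (L'.map fun p =>
                (Finset.univ.filter fun i => own j i = some (x p)).card).prod =
                (L'.map (w j)).prod := by
              intro L'
              induction L' with
              | nil => simp
              | cons a L' ihL =>
                simp only [List.map_cons, List.prod_cons, List.length_cons] at ihL ⊢
                rw [← ihL]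
                simp only [w]
                ring
            rw [h2, List.map_cons, List.prod_cons, List.map_append, List.prod_append,
              Ext.prod_filter_mem l hl B hB', Ext.prod_filter_mem lV hlVn C hC']
        · refine ih (l.filter (· ∉ B)) (lV.filter (· ∉ C)) ?_ ?_ ?_ (ζ j) (hζ1 j) ?_
          · refine List.nodup_append.2 ⟨hl.filter _, hlVn.filter _, ?_⟩
            intro a ha b hb
            exact hdis a (List.mem_of_mem_filter ha) b (List.mem_of_mem_filter hb)
          · intro a ha
            exact hlU a (List.mem_cons_of_mem _ (List.mem_of_mem_filter ha))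
          · intro a ha
            exact hlV a (List.mem_of_mem_filter ha)
          · refine (List.length_filter_le _ _).trans ?_
            simpa using hlen
      have h3 := HasRk.sum (Finset.univ : Finset (Fin t)) (fun j _ =>
        HasRk.sum l.toFinset.powerset (fun B hB =>
          HasRk.sum lV.toFinset.powerset (fun C hC => hterm j B hB C hC)))
      refine (h3.congr fun u v => hexp u v).mono (le_of_eq ?_)
      simp only [Ext.Phi]
      rw [Finset.sum_comm]
      refine Finset.sum_congr rfl fun B _ => ?_
      rw [Finset.sum_comm]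
      refine Finset.sum_congr rfl fun C _ => ?_
      rw [Finset.mul_sum]
      refine Finset.sum_congr rfl fun j _ => ?_
      simp only [w]
      ring

end

end Pool.Agent.W942.Alg
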