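import Pool.Agent.W942.NsFin

/-!
# Nested programs of determinants: corollaries
-/

set_option autoImplicit false
set_option maxHeartbeats 1000000

namespace Pool.Agent.W942.Ns

open Finset MvPolynomial Pool.Agent.W942.Alg

universe u

section
variable {K : Type u} [Field K] {n : ℕ}

theorem nest_main (hF : (2 : K) ≠ 0) {s : ℕ}
    (z : Fin s → FractionRing (MvPolynomial (Fin n × Fin n) K)) (R : Fin s → ℕ)
    (hz : ∀ i, DetProgram (R i) (z i))
    (hsum : ∑ i, z i = perF K n) (D k : ℕ) (hD : Even D) (hk : D * k ≤ n) :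
    D ^ k * n.descFactorial (2 * k) ≤ ∑ i, (16 * k ^ 4 * R i ^ 2) ^ k := by
  rcases Nat.eq_zero_or_pos k with h1 | h1
  · subst h1
    have := nest_lower (k := 0) (h := 0) hF (by omega) z R hz hsum
    simpa using this
  · rcases Nat.eq_zero_or_pos D with h0 | h0
    · rw [h0, zero_pow (by omega), zero_mul]
      exact Nat.zero_le _
    · obtain ⟨m, hm⟩ := hD
      obtain ⟨h, rfl⟩ : ∃ h, D = 2 * (h + 1) := ⟨m - 1, by omega⟩
      refine (nest_lower hF hk z R hz hsum).trans (le_of_eq ?_)
      rw [Finset.mul_sum]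
      refine Finset.sum_congr rfl fun i _ => ?_
      rw [pow_mul, pow_mul, ← mul_pow]
      congr 1
      ring

/-- One program. -/
theorem nest_one (hF : (2 : K) ≠ 0) {R : ℕ} (h : DetProgram R (perF K n)) :
    n * (n - 1) ^ 2 ≤ 16 * R ^ 2 := by
  obtain ⟨D, hD, hDn, hDn'⟩ : ∃ D, Even D ∧ D ≤ n ∧ n - 1 ≤ D := by
    rcases Nat.even_or_odd n with h1 | h1
    · exact ⟨n, h1, le_rfl, by omega⟩
    · exact ⟨n - 1, Nat.Odd.sub_odd h1 odd_one, by omega, le_rfl⟩
  have h1 := nest_main hF (s := 1) (fun _ => _) (fun _ => R) (fun _ => h)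
    (by simp) D 1 hD (by simpa using hDn)
  simp only [Finset.univ_unique, Fin.default_eq_zero, Finset.sum_const, Finset.card_singleton,
    smul_eq_mul, pow_one, mul_one, one_mul, one_pow] at h1
  have h2 : n.descFactorial 2 = n * (n - 1) := by
    rw [Nat.descFactorial_succ, Nat.descFactorial_one]
    ring
  rw [h2] at h1
  calc n * (n - 1) ^ 2 = (n - 1) * (n * (n - 1)) := by ring
    _ ≤ D * (n * (n - 1)) := Nat.mul_le_mul_right _ hDn'
    _ ≤ _ := h1

/-- The exponential form. -/
theorem final_arithN {n s k R : ℕ} (hn : 0 < n) (hR : 0 < R) (h256 : 256 * k ^ 5 * R ^ 2 ≤ n ^ 3)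
    (h : ∀ D k : ℕ, Even D → D * k ≤ n →
      D ^ k * n.descFactorial (2 * k) ≤ s * (16 * k ^ 4 * R ^ 2) ^ k) : 2 ^ k ≤ s := by
  rcases Nat.eq_zero_or_pos k with rfl | hk
  · have := h 2 0 even_two (by simp)
    simpa using this
  have hn4 : 4 * k ≤ n := by
    have h1 : (4 * k) ^ 3 ≤ n ^ 3 := by
      refine le_trans ?_ h256
      calc (4 * k) ^ 3 = 64 * k ^ 3 * 1 * 1 := by ring
        _ ≤ 64 * k ^ 3 * (4 * k ^ 2) * R ^ 2 := by
            refine Nat.mul_le_mul (Nat.mul_le_mul_left _ ?_) (Nat.one_le_pow _ _ hR)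
            have := Nat.one_le_pow 2 k hk
            omega
        _ = 256 * k ^ 5 * R ^ 2 := by ring
    exact (Nat.pow_le_pow_iff_left (by norm_num)).1 h1
  set D := 2 * (n / (2 * k)) with hD
  have hDk : D * k ≤ n := by
    calc D * k = 2 * k * (n / (2 * k)) := by rw [hD]; ring
      _ ≤ n := Nat.mul_div_le _ _
  have hDk2 : n ≤ 2 * k * D := by
    have h1 : n < 2 * k * (n / (2 * k)) + 2 * k := by
      have := Nat.lt_mul_div_succ n (show 0 < 2 * k by omega)
      rw [mul_add, mul_one] at this
      exact this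
    have h2 : 2 * k * D = 2 * (2 * k * (n / (2 * k))) := by rw [hD]; ring
    omega
  have h1 : (n + 1 - 2 * k) ^ (2 * k) ≤ n.descFactorial (2 * k) :=
    Nat.pow_sub_le_descFactorial n (2 * k)
  have h2 : n ≤ 2 * (n + 1 - 2 * k) := by omega
  have h3 : (n ^ 3) ^ k ≤ s * (128 * k ^ 5 * R ^ 2) ^ k := by
    calc (n ^ 3) ^ k = n ^ k * n ^ (2 * k) := by rw [← pow_mul, ← pow_add]; congr 1; ring
      _ ≤ (2 * k * D) ^ k * (2 * (n + 1 - 2 * k)) ^ (2 * k) :=
        Nat.mul_le_mul (Nat.pow_le_pow_left hDk2 _) (Nat.pow_le_pow_left h2 _)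
      _ = (8 * k) ^ k * (D ^ k * (n + 1 - 2 * k) ^ (2 * k)) := by
        rw [mul_pow (2 * k) D, mul_pow 2 (n + 1 - 2 * k), pow_mul 2 2 k,
          show (8 * k) ^ k = (2 * k) ^ k * (2 ^ 2) ^ k by rw [← mul_pow]; congr 1; ring]
        ring
      _ ≤ (8 * k) ^ k * (s * (16 * k ^ 4 * R ^ 2) ^ k) :=
        Nat.mul_le_mul_left _ ((Nat.mul_le_mul_left _ h1).trans (h D k (even_two_mul _) hDk))
      _ = s * (8 * k * (16 * k ^ 4 * R ^ 2)) ^ k := by rw [mul_pow (8 * k)]; ring
      _ = s * (128 * k ^ 5 * R ^ 2) ^ k := by congr 2; ring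
  have h4 : 2 ^ k * (128 * k ^ 5 * R ^ 2) ^ k ≤ s * (128 * k ^ 5 * R ^ 2) ^ k := by
    refine le_trans ?_ h3
    rw [← mul_pow]
    refine Nat.pow_le_pow_left (le_trans (le_of_eq ?_) h256) k
    ring
  exact Nat.le_of_mul_le_mul_right h4 (by positivity)

/-- The determinant. -/
theorem detProgram_det : DetProgram n (detF K n) := by
  classical
  refine ⟨0, fun _ => detF K n, fun _ => n, fun _ => Matrix.of fun i j =>
    algebraMap (MvPolynomial (Fin n × Fin n) K) _ (X (i, j)), fun _ i => some i, ?_, ?_, ?_, rfl⟩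
  · intro j i i'
    exact isSeparable_algebraMap (⟨_, IntermediateField.subset_adjoin K _
      (Or.inr ⟨i, i', rfl, rfl⟩)⟩ : IntermediateField.adjoin K (Avail _ j (some i)))
  · intro j
    unfold detF
    rw [RingHom.map_det]
    rfl
  · simp

/-- Every rational function. -/
theorem detProgram_all (z : FractionRing (MvPolynomial (Fin n × Fin n) K)) :
    DetProgram (n ^ 2) z := by
  classical
  let q : Fin (n * n + 1) → FractionRing (MvPolynomial (Fin n × Fin n) K) := fun j =>
    if h : j.val < n * n then algebraMap (MvPolynomial (Fin n × Fin n) K) _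
      (X (finProdFinEquiv.symm ⟨j.val, h⟩)) else z
  let own : Fin (n * n + 1) → Option (Fin n) := fun j =>
    if h : j.val < n * n then some (finProdFinEquiv.symm ⟨j.val, h⟩).1 else none
  refine ⟨n * n, q, fun _ => 1, fun j => Matrix.of fun _ _ => q j, fun j _ => own j, ?_, ?_, ?_, ?_⟩
  · intro j _ _
    show IsSeparable (IntermediateField.adjoin K (Avail q j (own j))) (q j)
    by_cases h : j.val < n * n
    · have h1 : q j ∈ Avail q j (own j) := by
        simp only [q, own, dif_pos h]
        exact Or.inr ⟨_, _, rfl, rfl⟩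
      exact isSeparable_algebraMap (⟨_, IntermediateField.subset_adjoin K _ h1⟩ :
        IntermediateField.adjoin K (Avail q j (own j)))
    · have hq : q j = z := by simp only [q, dif_neg h]
      rw [hq]
      have hX : ∀ x : Fin n × Fin n, algebraMap (MvPolynomial (Fin n × Fin n) K)
          (FractionRing (MvPolynomial (Fin n × Fin n) K)) (X x) ∈
            IntermediateField.adjoin K (Avail q j (own j)) := by
        intro x
        refine IntermediateField.subset_adjoin K _ (Or.inl
          ⟨⟨(finProdFinEquiv x).val, (finProdFinEquiv x).2.trans (Nat.lt_succ_self _)⟩, ?_, ?_⟩)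
        · show (finProdFinEquiv x).val < j.val
          have := (finProdFinEquiv x).2
          omega
        · simp only [q]
          rw [dif_pos (finProdFinEquiv x).2]
          show _ = algebraMap (MvPolynomial (Fin n × Fin n) K) _
            (X (finProdFinEquiv.symm (finProdFinEquiv x)))
          rw [Equiv.symm_apply_apply]
      have h1 : ∀ f : MvPolynomial (Fin n × Fin n) K, algebraMap (MvPolynomial (Fin n × Fin n) K)
          (FractionRing (MvPolynomial (Fin n × Fin n) K)) f ∈
            IntermediateField.adjoin K (Avail q j (own j)) := by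
        intro f
        induction f using MvPolynomial.induction_on with
        | C a =>
          rw [← MvPolynomial.algebraMap_eq, ← IsScalarTower.algebraMap_apply]
          exact IntermediateField.algebraMap_mem _ a
        | add p q hp hq => rw [map_add]; exact add_mem hp hq
        | mul_X p i hp =>
          rw [map_mul]
          exact mul_mem hp (hX i)
      have h2 : z ∈ IntermediateField.adjoin K (Avail q j (own j)) := by
        obtain ⟨a, b, _, rfl⟩ :=
          IsFractionRing.div_surjective (A := MvPolynomial (Fin n × Fin n) K) z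
        exact div_mem (h1 a) (h1 b)
      exact isSeparable_algebraMap (⟨z, h2⟩ : IntermediateField.adjoin K (Avail q j (own j)))
  · intro j
    simp
  · calc ∑ j, (Finset.univ.filter fun _ : Fin 1 => own j ≠ none).card
        ≤ ∑ j : Fin (n * n + 1), (if j.val < n * n then 1 else 0) := by
          refine Finset.sum_le_sum fun j _ => ?_
          by_cases h : j.val < n * n
          · rw [if_pos h]
            exact (Finset.card_filter_le _ _).trans (by simp)
          · rw [if_neg h]
            simp only [own, dif_neg h]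
            simp
      _ ≤ n ^ 2 := by
          rw [Fin.sum_univ_castSucc]
          simp [sq]
  · simp only [q]
    rw [dif_neg]
    simp

end

end Pool.Agent.W942.Ns
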