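import Pool.Agent.W942.NsAsm
import Pool.Agent.W942.AlgCor

/-!
# Nested programs of determinants and the permanent
-/

set_option autoImplicit false
set_option maxHeartbeats 1000000

namespace Pool.Agent.W942.Ns

open Finset MvPolynomial Pool.Agent.W942.Alg

universe u

section
variable {K : Type u} [Field K] {n : ℕ}

/-- What a line of the `j`-th determinant may use: the previous results and, if `o = some ρ`, the
variables of the row `ρ` of `X`. -/
def Avail {K : Type u} [Field K] {n t : ℕ} (q : Fin t → FractionRing (MvPolynomial (Fin n × Fin n) K))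
    (j : Fin t) (o : Option (Fin n)) : Set (FractionRing (MvPolynomial (Fin n × Fin n) K)) :=
  {z | (∃ k < j, z = q k) ∨ ∃ ρ c, o = some ρ ∧ z = algebraMap (MvPolynomial (Fin n × Fin n) K)
    (FractionRing (MvPolynomial (Fin n × Fin n) K)) (X (ρ, c))}

/-- `z` is the last result of a program `q 0, q 1, …` in which every result is the determinant of a
square matrix, of any order, every line of which is either free (its entries are separable algebraic
over the field generated by the previous results) or reads one row of `X` (its entries are separable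
algebraic over the field generated by the previous results and by the variables of this row); in all
determinants together at most `R` lines read a row. -/
def DetProgram {K : Type u} [Field K] {n : ℕ} (R : ℕ)
    (z : FractionRing (MvPolynomial (Fin n × Fin n) K)) : Prop :=
  ∃ (t : ℕ) (q : Fin (t + 1) → FractionRing (MvPolynomial (Fin n × Fin n) K))
    (m : Fin (t + 1) → ℕ)
    (M : (j : Fin (t + 1)) → Matrix (Fin (m j)) (Fin (m j))
      (FractionRing (MvPolynomial (Fin n × Fin n) K)))
    (own : (j : Fin (t + 1)) → Fin (m j) → Option (Fin n)),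
    (∀ j i i', IsSeparable (IntermediateField.adjoin K (Avail q j (own j i))) (M j i i')) ∧
    (∀ j, q j = (M j).det) ∧
    ∑ j, (Finset.univ.filter fun i => own j i ≠ none).card ≤ R ∧ q (Fin.last t) = z

/-- The main inequality. -/
theorem nest_lower (hF : (2 : K) ≠ 0) {s k h : ℕ} (hk : 2 * (h + 1) * k ≤ n)
    (z : Fin s → FractionRing (MvPolynomial (Fin n × Fin n) K)) (R : Fin s → ℕ)
    (hz : ∀ i, DetProgram (R i) (z i))
    (hsum : ∑ i, z i = algebraMap (MvPolynomial (Fin n × Fin n) K) _
      (Matrix.of fun i j => (X (i, j) : MvPolynomial (Fin n × Fin n) K)).permanent) :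
    (2 * (h + 1)) ^ k * n.descFactorial (2 * k) ≤
      ((2 * k) * (2 * k)) ^ (2 * k) * ∑ i, R i ^ (2 * k) := by
  classical
  choose t q m M own hM hqM hcard hout using hz
  -- the number of lines of a row
  let r : Fin s → Fin n → ℕ := fun i ρ =>
    (Finset.univ.filter fun x : (j : Fin (t i + 1)) × Fin (m i j) => own i x.1 x.2 = some ρ).card
  have hr : ∀ i, ∑ ρ, r i ρ ≤ R i := by
    intro i
    refine le_trans ?_ (hcard i)
    have h1 : ∑ j, (Finset.univ.filter fun a => own i j a ≠ none).card =
        (Finset.univ.filter fun x : (j : Fin (t i + 1)) × Fin (m i j) =>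
          own i x.1 x.2 ≠ none).card := by
      rw [← Finset.card_sigma]
      congr 1
      ext x
      simp
    rw [h1, ← Finset.card_biUnion]
    · refine Finset.card_le_card fun a ha => ?_
      obtain ⟨ρ, _, hρ⟩ := Finset.mem_biUnion.1 ha
      rw [Finset.mem_filter] at hρ ⊢
      refine ⟨Finset.mem_univ _, ?_⟩
      rw [hρ.2]
      simp
    · intro ρ _ ρ' _ hne
      show Disjoint _ _
      rw [Finset.disjoint_left]
      intro a ha ha'
      rw [Finset.mem_filter] at ha ha'
      exact hne (Option.some_injective _ (ha.2.symm.trans ha'.2))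
  have hkn : 2 * k ≤ n := by
    have h1 : 2 * k ≤ 2 * (h + 1) * k := by
      rw [mul_assoc]
      exact Nat.mul_le_mul_left 2 (Nat.le_mul_of_pos_left k (Nat.succ_pos h))
    exact h1.trans hk
  -- positions
  let P := Fin k × Bool
  let lU : List P := (List.finRange k).map fun b => (b, false)
  let lV : List P := (List.finRange k).map fun b => (b, true)
  have hndU : lU.Nodup := (List.nodup_finRange k).map fun a b h => (Prod.ext_iff.1 h).1
  have hndV : lV.Nodup := (List.nodup_finRange k).map fun a b h => (Prod.ext_iff.1 h).1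
  have hmU : ∀ a ∈ lU, a.2 = false := by
    intro a ha
    obtain ⟨b, _, rfl⟩ := List.mem_map.1 ha
    rfl
  have hmV : ∀ a ∈ lV, a.2 = true := by
    intro a ha
    obtain ⟨b, _, rfl⟩ := List.mem_map.1 ha
    rfl
  have hnd : (lU ++ lV).Nodup := by
    refine List.nodup_append.2 ⟨hndU, hndV, ?_⟩
    intro a ha b hb hab
    have h1 := hmU a ha
    have h2 := hmV b hb
    rw [hab, h2] at h1
    exact absurd h1 (by simp)
  have hall : ∀ a : P, a ∈ lU ++ lV := by
    rintro ⟨b, _ | _⟩
    · exact List.mem_append_left _ (List.mem_map.2 ⟨b, List.mem_finRange b, rfl⟩)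
    · exact List.mem_append_right _ (List.mem_map.2 ⟨b, List.mem_finRange b, rfl⟩)
  have hcardP : Fintype.card P = 2 * k := by
    rw [Fintype.card_prod, Fintype.card_fin, Fintype.card_bool, mul_comm]
  -- the choice of the rows
  obtain ⟨Tn, hTn, hsel⟩ := Ext.select_rows r R hr (2 * k) hkn
  obtain ⟨eT⟩ : Nonempty (P ≃ Tn) := by
    rw [← Fintype.card_eq, hcardP, Fintype.card_coe, hTn]
  let x : P ↪ Fin n := ⟨fun p => (eT p : Fin n), fun a b hab => eT.injective (Subtype.ext hab)⟩
  have hprod : ∀ i, ∏ p, r i (x p) = ∏ ρ ∈ Tn, r i ρ := by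
    intro i
    rw [← Finset.prod_coe_sort Tn (fun ρ => r i ρ), ← Equiv.prod_comp eT]
    rfl
  -- roles
  obtain ⟨e0⟩ : Nonempty (Fin n ≃ G.Idx h k (Fin (n - 2 * (h + 1) * k))) := by
    rw [← Fintype.card_eq, Fintype.card_sum, Fintype.card_prod, Fintype.card_prod]
    simp only [Fintype.card_fin, Fintype.card_bool]
    have : k * ((h + 1) * 2) = 2 * (h + 1) * k := by ring
    omega
  obtain ⟨σ, hσ⟩ := Equiv.Perm.exists_extending_pair (fun a : P => x a)
    (fun a => e0.symm (Sum.inl (a.1, ((0 : Fin (h + 1)), a.2)))) x.injective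
    (fun a b hab => by
      have h1 := e0.symm.injective hab
      simp only [Sum.inl.injEq, Prod.mk.injEq, true_and] at h1
      exact Prod.ext h1.1 h1.2)
  let e : Fin n ≃ G.Idx h k (Fin (n - 2 * (h + 1) * k)) := σ.trans e0
  have he : ∀ a : P, e (x a) = Sum.inl (a.1, ((0 : Fin (h + 1)), a.2)) := by
    intro a
    simp only [e, Equiv.trans_apply]
    rw [hσ a, Equiv.apply_symm_apply]
  let LF := FractionRing (MvPolynomial (Fin n × Fin n) K)
  let PU : Set P := {a | a.2 = false}
  let c0 : Fin k → G.Pos h := fun _ => ((0 : Fin (h + 1)), false)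
  let y0 : (Fin k → G.Pos h) → (Fin k → G.Pos h) → Fin n × Fin n → K := fun a a' ij =>
    ((G.Ymat a a' (e ij.1) (e ij.2) : ℤ) : K)
  let y : P → (Fin k → G.Pos h) → (Fin k → G.Pos h) → Fin n × Fin n → K := fun b a a' ij =>
    if ij.1 = x b then y0 a a' ij else 0
  have hrd : ∀ b a a', rd (y b a a') (x b) = rd (y0 a a') (x b) := by
    intro b a a'
    refine rd_congr fun j => ?_
    simp only [y, if_true]
  have hyU : ∀ b ∈ PU, ∀ (u v v' : Fin k → G.Pos h), y b u v = y b u v' := by
    rintro ⟨b, s⟩ hb u v v'
    have hb' : s = false := hb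
    subst hb'
    funext ij
    simp only [y]
    split_ifs with h1
    · simp only [y0, h1, he, G.Ymat, if_true]
      simp
    · rfl
  have hyV : ∀ b ∉ PU, ∀ (u u' v : Fin k → G.Pos h), y b u v = y b u' v := by
    rintro ⟨b, s⟩ hb u u' v
    have hb' : s = true := by
      cases s
      · exact absurd rfl hb
      · rfl
    subst hb'
    funext ij
    simp only [y]
    split_ifs with h1
    · simp only [y0, h1, he, G.Ymat, if_true]
    · rfl
  have hndL : ((lU ++ lV).map x).Nodup := hnd.map x.injective
  -- the expansion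
  obtain ⟨T, _, _, τ, Top, hτ, hTop⟩ := exists_trunc LF P
  let D : (Fin k → G.Pos h) → (Fin k → G.Pos h) → P → Derivation K LF LF := fun u v p =>
    exD LF (rd (y p u v) (x p))
  let φ : LF →+* ((Fin k → G.Pos h) → (Fin k → G.Pos h) → T) := Phi τ hτ D (lU ++ lV)
  have hφ : ∀ w, IsNilpotent (φ w - algebraMap LF _ w) := Phi_nilp τ hτ D (lU ++ lV)
  have hφK : ∀ a : K, φ (algebraMap K LF a) = algebraMap LF _ (algebraMap K LF a) := by
    intro a
    funext u v
    exact phi_const τ hτ (D u v) _ _ fun p _ => Derivation.map_algebraMap _ _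
  have hDX : ∀ u v p ρ c, D u v p (algebraMap (MvPolynomial (Fin n × Fin n) K) LF (X (ρ, c))) =
      algebraMap (MvPolynomial (Fin n × Fin n) K) LF
        (if ρ = x p then C (y p u v (ρ, c)) else 0) := by
    intro u v p ρ c
    simp only [D]
    rw [exD_algebraMap, rd_X]
  have hDC : ∀ u v p (a : K), D u v p (algebraMap (MvPolynomial (Fin n × Fin n) K) LF (C a)) = 0 := by
    intro u v p a
    simp only [D]
    rw [exD_algebraMap, rd_C, map_zero]
  have hφX : ∀ ρ c, (∀ p, ρ ≠ x p) → φ (algebraMap (MvPolynomial (Fin n × Fin n) K) LF (X (ρ, c))) =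
      algebraMap LF _ (algebraMap (MvPolynomial (Fin n × Fin n) K) LF (X (ρ, c))) := by
    intro ρ c hρ
    funext u v
    refine phi_const τ hτ (D u v) _ _ fun p _ => ?_
    rw [hDX, if_neg (hρ p), map_zero]
  have hφX' : ∀ p c, φ (algebraMap (MvPolynomial (Fin n × Fin n) K) LF (X (x p, c))) =
      algebraMap LF _ (algebraMap (MvPolynomial (Fin n × Fin n) K) LF (X (x p, c))) +
      (fun _ _ => τ p) * (fun u v => algebraMap LF T
        (algebraMap (MvPolynomial (Fin n × Fin n) K) LF (C (y p u v (x p, c))))) := by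
    intro p c
    funext u v
    have h1 := phi_linear τ hτ (D u v) (lU ++ lV)
      (algebraMap (MvPolynomial (Fin n × Fin n) K) LF (X (x p, c))) (fun p' _ p'' _ => by
        rw [hDX]
        split_ifs
        · exact hDC _ _ _ _
        · rw [map_zero, map_zero])
    refine h1.trans ?_
    rw [Pi.add_apply, Pi.add_apply, Pi.mul_apply, Pi.mul_apply]
    congr 1
    rw [← List.sum_toFinset _ hnd, Finset.sum_eq_single p]
    · rw [hDX, if_pos rfl]
    · intro p' _ hne
      rw [hDX, if_neg (fun h => hne (x.injective h).symm), map_zero, map_zero, mul_zero]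
    · intro h2
      exact absurd (List.mem_toFinset.2 (hall p)) h2
  let η : P → Fin n → (Fin k → G.Pos h) → (Fin k → G.Pos h) → LF := fun p c u v =>
    algebraMap (MvPolynomial (Fin n × Fin n) K) LF (C (y p u v (x p, c)))
  have hη : ∀ p d, (fun u v => algebraMap LF T (η p d u v)) ∈ side LF T PU p := by
    intro p d
    by_cases hp : p ∈ PU
    · refine Or.inl ⟨hp, fun u => η p d u c0, ?_⟩
      funext u v
      simp only [η]
      rw [hyU p hp u v c0]
    · refine Or.inr ⟨hp, fun v => η p d c0 v, ?_⟩
      funext u v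
      simp only [η]
      rw [hyV p hp u c0 v]
  -- the upper bound for one program
  have hone : ∀ i, HasRk (fun u v => dls (D u v) (lU ++ lV) (z i))
      ((∏ ρ ∈ Tn, r i ρ) * ((2 * k) * (2 * k)) ^ (2 * k)) := by
    intro i
    let sel : (j : Fin (t i + 1)) → Fin (m i j) → Option P := fun j a =>
      if h : ∃ p, own i j a = some (x p) then some h.choose else none
    have hsel1 : ∀ j a p, sel j a = some p ↔ own i j a = some (x p) := by
      intro j a p
      simp only [sel]
      constructor
      · intro h1
        by_cases h2 : ∃ p, own i j a = some (x p)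
        · rw [dif_pos h2] at h1
          have h3 := h2.choose_spec
          rwa [Option.some_injective _ h1] at h3
        · rw [dif_neg h2] at h1
          exact absurd h1 (by simp)
      · intro h1
        have h2 : ∃ p, own i j a = some (x p) := ⟨p, h1⟩
        rw [dif_pos h2]
        have h3 := h1.symm.trans h2.choose_spec
        exact congrArg some (x.injective (Option.some_injective _ h3)).symm
    have hprev : ∀ j (S : Subalgebra LF ((Fin k → G.Pos h) → (Fin k → G.Pos h) → T)),
        (∀ k' : {k' : Fin (t i + 1) // k' < j}, φ (q i k'.1) ∈ S) → ∀ o,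
        (∀ ρ c, o = some ρ → φ (algebraMap (MvPolynomial (Fin n × Fin n) K) LF (X (ρ, c))) ∈ S) →
        ∀ w, IsSeparable (IntermediateField.adjoin K (Avail (q i) j o)) w → φ w ∈ S := by
      intro j S hS o ho w hw
      refine sep_mem_of φ hφ S _ (fun w' hw' => adjoin_mem_of φ hφ S _ (fun a => ?_) ?_ w' hw') w hw
      · rw [hφK]
        exact S.algebraMap_mem _
      · rintro w'' (⟨k', hk', rfl⟩ | ⟨ρ, c, ho', rfl⟩)
        · exact hS ⟨k', hk'⟩
        · exact ho ρ c ho'
    have h1 := prog_rk τ hτ Top hTop PU φ hφ (q i) (M i) (hqM i) sel η hη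
      (fun j a ha i' => by
        refine hprev j (Algebra.adjoin LF (Set.range fun k' : {k' : Fin (t i + 1) // k' < j} =>
          φ (q i k'.1))) (fun k' => Algebra.subset_adjoin ⟨k', rfl⟩) (own i j a) ?_ _ (hM i j a i')
        intro ρ c ho
        rw [hφX ρ c]
        · exact Subalgebra.algebraMap_mem _ _
        · rintro p rfl
          rw [(hsel1 j a p).2 ho] at ha
          exact absurd ha (by simp))
      (fun j a p ha i' => by
        have h2 : φ (M i j a i') ∈ Algebra.adjoin LF
            ((Set.range fun k' : {k' : Fin (t i + 1) // k' < j} => φ (q i k'.1)) ∪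
              Set.range fun c => algebraMap LF _
                (algebraMap (MvPolynomial (Fin n × Fin n) K) LF (X (x p, c))) +
                (fun _ _ => τ p) * (fun u v => algebraMap LF T (η p c u v))) := by
          refine hprev j _ (fun k' => Algebra.subset_adjoin (Or.inl ⟨k', rfl⟩)) (own i j a) ?_ _
            (hM i j a i')
          intro ρ c ho
          have h3 : ρ = x p := Option.some_injective _ (ho.symm.trans ((hsel1 j a p).1 ha))
          rw [h3, hφX']
          exact Algebra.subset_adjoin (Or.inr ⟨c, rfl⟩)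
        exact adjoin_perturbed _ _ (by funext u v; exact hτ p) _ _ h2)
      (z i) (by
        rw [← hout i]
        exact Algebra.subset_adjoin ⟨_, rfl⟩)
    refine (h1.congr fun u v => ?_).mono (le_of_eq ?_)
    · exact (top_phi_all τ hτ (D u v) Top hTop (lU ++ lV) hnd hall (z i)).symm
    · rw [hcardP, ← hprod i]
      congr 1
      refine Finset.prod_congr rfl fun p _ => ?_
      simp only [r]
      congr 1
      ext w
      simp only [Finset.mem_filter, Finset.mem_univ, true_and]
      exact hsel1 w.1 w.2 p
  have hup : HasRk (fun a a' => algebraMap (MvPolynomial (Fin n × Fin n) K) LF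
      (dls (fun p => rd (y0 a a') (x p)) (lU ++ lV)
        (Matrix.of fun i j => (X (i, j) : MvPolynomial (Fin n × Fin n) K)).permanent))
      (∑ i, (∏ ρ ∈ Tn, r i ρ) * ((2 * k) * (2 * k)) ^ (2 * k)) := by
    have h1 := HasRk.sum (K := LF) (U := Fin k → G.Pos h) (V := Fin k → G.Pos h)
      (Finset.univ : Finset (Fin s)) (fun i _ => hone i)
    refine h1.congr fun a a' => ?_
    rw [← dls_sum, hsum, ← dls_exD]
    refine dls_congr _ _ _ (fun p _ => ?_) _
    rw [← hrd]
  have h1 := per_lowerA hF e x (lU ++ lV) hndL (by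
    intro i hi a a' c c' j
    rcases hei : e i with ⟨b, j0, t⟩ | z
    · by_cases hj : j0 = 0
      · subst hj
        have h1 : i = x (b, t) := e.injective (by rw [hei, he])
        exact absurd (List.mem_map.2 ⟨(b, t), hall _, h1.symm⟩) hi
      · simp only [G.Ymat, if_neg hj]
    · simp only [G.Ymat]) _ hup
  calc (2 * (h + 1)) ^ k * n.descFactorial (2 * k)
      ≤ (∑ i, (∏ ρ ∈ Tn, r i ρ) * ((2 * k) * (2 * k)) ^ (2 * k)) * n.descFactorial (2 * k) :=
        Nat.mul_le_mul_right _ h1
    _ = ((2 * k) * (2 * k)) ^ (2 * k) * ((∑ i, ∏ ρ ∈ Tn, r i ρ) * n.descFactorial (2 * k)) := by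
        rw [← Finset.sum_mul]
        ring
    _ ≤ _ := Nat.mul_le_mul_left _ hsel

end

end Pool.Agent.W942.Ns
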