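import Pool.Agent.W942.Rk

/-!
# Functions of small rank do not correlate with orthogonal matrices
-/

set_option autoImplicit false
set_option maxHeartbeats 1000000

namespace Pool.Agent.W942.Av

open Finset Pool.Agent.W942

variable {U V : Type*} [Fintype U] [Fintype V] [DecidableEq U]

/-- A function of rank at most `r` and a matrix `P` with orthogonal rows of square norm `α`. -/
theorem corr_sq {M P : U → V → ℝ} {r : ℕ} (hM : HasRk M r) {α : ℝ}
    (hP : ∀ u u', ∑ v, P u v * P u' v = if u = u' then α else 0) :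
    (∑ u, ∑ v, M u v * P u v) ^ 2 ≤ (r : ℝ) * α * ∑ u, ∑ v, M u v ^ 2 := by
  classical
  rcases isEmpty_or_nonempty U with hU | ⟨⟨u0⟩⟩
  · simp
  have hα : 0 ≤ α := by
    have h1 := hP u0 u0
    rw [if_pos rfl] at h1
    rw [← h1]
    exact Finset.sum_nonneg fun v _ => mul_self_nonneg _
  obtain ⟨f, g, hfg⟩ := hM
  -- the space spanned by the left factors
  let F : Fin r → EuclideanSpace ℝ U := fun i => WithLp.toLp 2 (f i)
  let W : Submodule ℝ (EuclideanSpace ℝ U) := Submodule.span ℝ (Set.range F)
  have hdim : Module.finrank ℝ W ≤ r := by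
    have := finrank_range_le_card (R := ℝ) F
    simpa [Set.finrank] using this
  let b := stdOrthonormalBasis ℝ W
  set d := Module.finrank ℝ W with hd
  set β : Fin d → U → ℝ := fun i u => (b i : EuclideanSpace ℝ U) u with hβ
  have hmem : ∀ v, (WithLp.toLp 2 (fun u => M u v) : EuclideanSpace ℝ U) ∈ W := by
    intro v
    have h1 : (WithLp.toLp 2 (fun u => M u v) : EuclideanSpace ℝ U) = ∑ i, g i v • F i := by
      ext u
      simp only [hfg, F, WithLp.ofLp_sum, WithLp.ofLp_smul, Finset.sum_apply, Pi.smul_apply,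
        smul_eq_mul]
      exact Finset.sum_congr rfl fun i _ => mul_comm _ _
    rw [h1]
    exact Submodule.sum_mem _ fun i _ => Submodule.smul_mem _ _
      (Submodule.subset_span (Set.mem_range_self i))
  set c : V → Fin d → ℝ := fun v i => b.repr ⟨_, hmem v⟩ i with hc
  have hMc : ∀ u v, M u v = ∑ i, c v i * β i u := by
    intro u v
    have h1 := b.sum_repr ⟨_, hmem v⟩
    have h2 := congrArg (fun x : W => (x : EuclideanSpace ℝ U) u) h1
    simp only [Submodule.coe_sum, Submodule.coe_smul, WithLp.ofLp_sum, WithLp.ofLp_smul,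
      Finset.sum_apply, Pi.smul_apply, smul_eq_mul] at h2
    rw [← h2]
  have hββ : ∀ i j, ∑ u, β i u * β j u = if i = j then 1 else 0 := by
    intro i j
    have h1 := (orthonormal_iff_ite.1 b.orthonormal) i j
    rw [Submodule.coe_inner, PiLp.inner_apply] at h1
    rw [← h1]
    refine Finset.sum_congr rfl fun u _ => ?_
    simp [hβ, mul_comm]
  have hM2 : ∑ u, ∑ v, M u v ^ 2 = ∑ x : V × Fin d, c x.1 x.2 ^ 2 := by
    rw [Finset.sum_comm, Fintype.sum_prod_type]
    refine Finset.sum_congr rfl fun v _ => ?_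
    have h1 : ∀ u, M u v ^ 2 = ∑ i, ∑ j, (c v i * c v j) * (β i u * β j u) := by
      intro u
      rw [hMc, sq, Finset.sum_mul_sum]
      exact Finset.sum_congr rfl fun i _ => Finset.sum_congr rfl fun j _ => by ring
    rw [Finset.sum_congr rfl fun u _ => h1 u, Finset.sum_comm]
    refine Finset.sum_congr rfl fun i _ => ?_
    rw [Finset.sum_comm]
    have h2 : ∀ j, ∑ u, (c v i * c v j) * (β i u * β j u) =
        (c v i * c v j) * (if i = j then 1 else 0) := by
      intro j
      rw [← Finset.mul_sum, hββ]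
    rw [Finset.sum_congr rfl fun j _ => h2 j]
    simp [sq]
  set q : V × Fin d → ℝ := fun x => ∑ u, β x.2 u * P u x.1 with hq
  have hMP : ∑ u, ∑ v, M u v * P u v = ∑ x : V × Fin d, c x.1 x.2 * q x := by
    rw [Finset.sum_comm, Fintype.sum_prod_type]
    refine Finset.sum_congr rfl fun v _ => ?_
    simp only [hMc, Finset.sum_mul, hq, Finset.mul_sum]
    rw [Finset.sum_comm]
    exact Finset.sum_congr rfl fun i _ => Finset.sum_congr rfl fun u _ => by ring
  have hq2 : ∑ x : V × Fin d, q x ^ 2 = α * d := by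
    rw [Fintype.sum_prod_type, Finset.sum_comm]
    have h1 : ∀ i : Fin d, ∑ v, q (v, i) ^ 2 = α := by
      intro i
      have h2 : ∀ v, q (v, i) ^ 2 = ∑ u, ∑ u', (β i u * β i u') * (P u v * P u' v) := by
        intro v
        simp only [hq]
        rw [sq, Finset.sum_mul_sum]
        exact Finset.sum_congr rfl fun u _ => Finset.sum_congr rfl fun u' _ => by ring
      rw [Finset.sum_congr rfl fun v _ => h2 v, Finset.sum_comm]
      have h3 : ∀ u, ∑ v, ∑ u', (β i u * β i u') * (P u v * P u' v) = α * (β i u * β i u) := by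
        intro u
        rw [Finset.sum_comm]
        have h4 : ∀ u', ∑ v, (β i u * β i u') * (P u v * P u' v) =
            (β i u * β i u') * (if u = u' then α else 0) := by
          intro u'
          rw [← Finset.mul_sum, hP]
        rw [Finset.sum_congr rfl fun u' _ => h4 u']
        simp
        ring
      rw [Finset.sum_congr rfl fun u _ => h3 u, ← Finset.mul_sum, hββ, if_pos rfl, mul_one]
    rw [Finset.sum_congr rfl fun i _ => h1 i]
    simp [mul_comm]
  rw [hMP, hM2]
  have hcs := Finset.sum_mul_sq_le_sq_mul_sq (Finset.univ : Finset (V × Fin d))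
    (fun x => c x.1 x.2) q
  rw [hq2] at hcs
  refine hcs.trans ?_
  have h1 : (d : ℝ) ≤ r := by exact_mod_cast hdim
  have h2 : 0 ≤ ∑ x : V × Fin d, c x.1 x.2 ^ 2 := Finset.sum_nonneg fun x _ => sq_nonneg _
  calc (∑ x : V × Fin d, c x.1 x.2 ^ 2) * (α * d) ≤ (∑ x : V × Fin d, c x.1 x.2 ^ 2) * (α * r) :=
        mul_le_mul_of_nonneg_left (mul_le_mul_of_nonneg_left h1 hα) h2
    _ = _ := by ring

end Pool.Agent.W942.Av
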