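import Pool.Agent.W942.Stats

/-!
# Balanced labels are not too rare
-/

set_option autoImplicit false

namespace Pool.Agent.W942

open Finset

/-- The terms of the binomial expansion of `(1 + 17) ^ (36 k)`. -/
def bt (k j : ℕ) : ℕ := (36 * k).choose j * 17 ^ (36 * k - j)

theorem bt_up (k j : ℕ) (hj : j < 2 * k) : bt k j ≤ bt k (j + 1) := by
  unfold bt
  have h1 := Nat.choose_succ_right_eq (36 * k) j
  have h2 : 36 * k - j = (36 * k - (j + 1)) + 1 := by omega
  have h3 : (j + 1) * 17 ≤ 36 * k - j := by omega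
  rw [show 17 ^ (36 * k - j) = 17 ^ (36 * k - (j + 1)) * 17 by rw [← pow_succ, ← h2]]
  have h4 : (36 * k).choose j * 17 * (j + 1) ≤ (36 * k).choose (j + 1) * (j + 1) := by
    rw [h1]
    calc (36 * k).choose j * 17 * (j + 1) = (36 * k).choose j * ((j + 1) * 17) := by ring
      _ ≤ _ := Nat.mul_le_mul_left _ h3
  have h5 : (36 * k).choose j * 17 ≤ (36 * k).choose (j + 1) :=
    Nat.le_of_mul_le_mul_right h4 (Nat.succ_pos j)
  calc (36 * k).choose j * (17 ^ (36 * k - (j + 1)) * 17)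
      = ((36 * k).choose j * 17) * 17 ^ (36 * k - (j + 1)) := by ring
    _ ≤ _ := Nat.mul_le_mul_right _ h5

theorem bt_down (k j : ℕ) (hj : 2 * k ≤ j) (hj' : j < 36 * k) : bt k (j + 1) ≤ bt k j := by
  unfold bt
  have h1 := Nat.choose_succ_right_eq (36 * k) j
  have h2 : 36 * k - j = (36 * k - (j + 1)) + 1 := by omega
  have h3 : 36 * k - j ≤ (j + 1) * 17 := by omega
  rw [show 17 ^ (36 * k - j) = 17 ^ (36 * k - (j + 1)) * 17 by rw [← pow_succ, ← h2]]
  have h4 : (36 * k).choose (j + 1) * (j + 1) ≤ (36 * k).choose j * 17 * (j + 1) := by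
    rw [h1]
    calc (36 * k).choose j * (36 * k - j) ≤ (36 * k).choose j * ((j + 1) * 17) :=
          Nat.mul_le_mul_left _ h3
      _ = _ := by ring
  have h5 : (36 * k).choose (j + 1) ≤ (36 * k).choose j * 17 :=
    Nat.le_of_mul_le_mul_right h4 (Nat.succ_pos j)
  calc (36 * k).choose (j + 1) * 17 ^ (36 * k - (j + 1))
      ≤ ((36 * k).choose j * 17) * 17 ^ (36 * k - (j + 1)) := Nat.mul_le_mul_right _ h5
    _ = _ := by ring

theorem bt_le (k j : ℕ) (hj : j ≤ 36 * k) : bt k j ≤ bt k (2 * k) := by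
  rcases le_total j (2 * k) with h | h
  · obtain ⟨d, hd⟩ := Nat.exists_eq_add_of_le h
    have : ∀ d j, 2 * k = j + d → bt k j ≤ bt k (2 * k) := by
      intro d
      induction d with
      | zero => intro j h; rw [h]; simp
      | succ d ih =>
        intro j h
        exact (bt_up k j (by omega)).trans (ih (j + 1) (by omega))
    exact this d j hd
  · obtain ⟨d, hd⟩ := Nat.exists_eq_add_of_le h
    have : ∀ d j, j = 2 * k + d → j ≤ 36 * k → bt k j ≤ bt k (2 * k) := by
      intro d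
      induction d with
      | zero => intro j h _; rw [h]; simp
      | succ d ih =>
        intro j h hj
        rw [h, ← Nat.add_assoc]
        exact (bt_down k (2 * k + d) (by omega) (by omega)).trans (ih (2 * k + d) rfl (by omega))
    exact this d j hd hj

theorem bt_max (k : ℕ) : 18 ^ (36 * k) ≤ (36 * k + 1) * bt k (2 * k) := by
  have h1 : (1 + 17) ^ (36 * k) = ∑ j ∈ Finset.range (36 * k + 1), bt k j := by
    rw [add_pow]
    refine Finset.sum_congr rfl fun j _ => ?_
    unfold bt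
    simp
    ring
  rw [show (18 : ℕ) = 1 + 17 by norm_num, h1]
  calc ∑ j ∈ Finset.range (36 * k + 1), bt k j
      ≤ ∑ _j ∈ Finset.range (36 * k + 1), bt k (2 * k) :=
        Finset.sum_le_sum fun j hj => bt_le k j (by have := Finset.mem_range.1 hj; omega)
    _ = _ := by rw [Finset.sum_const, Finset.card_range, smul_eq_mul]

variable {n : ℕ}

theorem ex_balanced (N : Finset (Fin n)) (k : ℕ) (hN : N.card = 36 * k) :
    1 / ((36 * k + 1) * (2 * k + 1) : ℝ) ≤
      ex (fun lam => if np N lam = k ∧ nm N lam = k then 1 else 0) := by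
  have h1 : ex (fun lam => if np N lam = k ∧ nm N lam = k then (1 : ℝ) else 0) =
      ex (fun lam => (fun m a => if m = 2 * k ∧ a = k then (1 : ℝ) else 0)
        (np N lam + nm N lam) (np N lam)) := by
    congr 1
    funext lam
    have : (np N lam = k ∧ nm N lam = k) ↔ (np N lam + nm N lam = 2 * k ∧ np N lam = k) := by
      omega
    by_cases h : np N lam = k ∧ nm N lam = k
    · simp only [if_pos h, if_pos (this.1 h)]
    · simp only [if_neg h, if_neg (fun h' => h (this.2 h'))]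
  rw [h1, ex_stats N (fun m a => if m = 2 * k ∧ a = k then (1 : ℝ) else 0), hN]
  have hin : ((2 * k + 1 : ℝ))⁻¹ ≤ bin (1 / 2) (2 * k)
      (fun a => if 2 * k = 2 * k ∧ a = k then (1 : ℝ) else 0) := by
    rw [bin_eq]
    have h2 : ((2 * k).choose k : ℝ) * (1 / 2) ^ k * (1 - 1 / 2) ^ (2 * k - k) *
        (if 2 * k = 2 * k ∧ k = k then (1 : ℝ) else 0) ≤ ∑ m ∈ Finset.range (2 * k + 1),
        ((2 * k).choose m : ℝ) * (1 / 2) ^ m * (1 - 1 / 2) ^ (2 * k - m) *
        (if 2 * k = 2 * k ∧ m = k then (1 : ℝ) else 0) :=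
      Finset.single_le_sum (f := fun m => ((2 * k).choose m : ℝ) * (1 / 2) ^ m *
        (1 - 1 / 2) ^ (2 * k - m) * (if 2 * k = 2 * k ∧ m = k then (1 : ℝ) else 0))
        (fun m _ => by
          show (0 : ℝ) ≤ ((2 * k).choose m : ℝ) * (1 / 2) ^ m * (1 - 1 / 2) ^ (2 * k - m) *
            (if 2 * k = 2 * k ∧ m = k then (1 : ℝ) else 0)
          split_ifs <;> norm_num <;> positivity) (Finset.mem_range.2 (by omega))
    refine le_trans ?_ h2
    rw [if_pos ⟨rfl, rfl⟩, mul_one, show (1 - 1 / 2 : ℝ) = 1 / 2 by norm_num, mul_assoc, ← pow_add,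
      show k + (2 * k - k) = 2 * k by omega]
    have h3 := Nat.four_pow_le_two_mul_add_one_mul_central_binom k
    have h4 : ((4 : ℝ)) ^ k ≤ (2 * k + 1) * ((2 * k).choose k : ℝ) := by
      have : ((4 ^ k : ℕ) : ℝ) ≤ (((2 * k + 1) * Nat.centralBinom k : ℕ) : ℝ) := by exact_mod_cast h3
      rw [Nat.centralBinom] at this
      push_cast at this
      exact this
    rw [pow_mul, show ((1 / 2 : ℝ)) ^ 2 = 1 / 4 by norm_num, one_div, inv_pow, ← div_eq_mul_inv,
      le_div_iff₀ (by positivity), inv_mul_le_iff₀ (by positivity)]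
    exact h4
  rw [bin_eq]
  have h2 : ((36 * k).choose (2 * k) : ℝ) * (1 / 18) ^ (2 * k) * (1 - 1 / 18) ^ (36 * k - 2 * k) *
      bin (1 / 2) (2 * k) (fun a => if 2 * k = 2 * k ∧ a = k then (1 : ℝ) else 0) ≤
      ∑ m ∈ Finset.range (36 * k + 1), ((36 * k).choose m : ℝ) * (1 / 18) ^ m *
        (1 - 1 / 18) ^ (36 * k - m) *
        bin (1 / 2) m (fun a => if m = 2 * k ∧ a = k then (1 : ℝ) else 0) :=
    Finset.single_le_sum (f := fun m => ((36 * k).choose m : ℝ) * (1 / 18) ^ m *
        (1 - 1 / 18) ^ (36 * k - m) *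
        bin (1 / 2) m (fun a => if m = 2 * k ∧ a = k then (1 : ℝ) else 0))
      (fun m _ => by
        have h5 : 0 ≤ bin (1 / 2) m (fun a => if m = 2 * k ∧ a = k then (1 : ℝ) else 0) := by
          have h6 : bin (1 / 2) m (fun _ => (0 : ℝ)) ≤
              bin (1 / 2) m (fun a => if m = 2 * k ∧ a = k then (1 : ℝ) else 0) :=
            bin_mono (by norm_num) (by norm_num) m fun a _ => by split_ifs <;> norm_num
          rwa [bin_const] at h6
        show (0 : ℝ) ≤ ((36 * k).choose m : ℝ) * (1 / 18) ^ m * (1 - 1 / 18) ^ (36 * k - m) * _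
        refine mul_nonneg ?_ h5
        have : (0 : ℝ) ≤ 1 - 1 / 18 := by norm_num
        positivity) (Finset.mem_range.2 (by omega))
  refine le_trans ?_ h2
  have h3 : ((36 * k + 1 : ℝ))⁻¹ ≤ ((36 * k).choose (2 * k) : ℝ) * (1 / 18) ^ (2 * k) *
      (1 - 1 / 18) ^ (36 * k - 2 * k) := by
    have h4 := bt_max k
    have h5 : ((18 : ℝ)) ^ (36 * k) ≤ (36 * k + 1) * (((36 * k).choose (2 * k) : ℝ) *
        17 ^ (36 * k - 2 * k)) := by
      have : ((18 ^ (36 * k) : ℕ) : ℝ) ≤ (((36 * k + 1) * bt k (2 * k) : ℕ) : ℝ) := by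
        exact_mod_cast h4
      unfold bt at this
      push_cast at this
      exact this
    have h6 : ((36 * k).choose (2 * k) : ℝ) * (1 / 18) ^ (2 * k) *
      (1 - 1 / 18) ^ (36 * k - 2 * k) = ((36 * k).choose (2 * k) : ℝ) * 17 ^ (36 * k - 2 * k) /
        18 ^ (36 * k) := by
      have h7 : (18 : ℝ) ^ (36 * k) = 18 ^ (2 * k) * 18 ^ (36 * k - 2 * k) := by
        rw [← pow_add]; congr 1; omega
      rw [show (1 - 1 / 18 : ℝ) = 17 / 18 by norm_num, div_pow, div_pow, one_pow, h7]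
      field_simp
    rw [h6, le_div_iff₀ (by positivity), inv_mul_le_iff₀ (by positivity)]
    exact h5
  rw [one_div, mul_inv]
  exact mul_le_mul h3 hin (by positivity) ((by positivity : (0 : ℝ) ≤ ((36 * k + 1 : ℝ))⁻¹).trans h3)

end Pool.Agent.W942
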