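import Pool.Agent.W942.AvP
import Pool.Agent.W942.AvC
import Pool.Agent.W942.Bal

/-!
# The permanent does not correlate with families of bounded average rank
-/

set_option autoImplicit false
set_option maxHeartbeats 1000000

namespace Pool.Agent.W942.Av

open Finset MvPolynomial Pool.Agent.W942

/-- The number of blocks. -/
def kk (n : ℕ) : ℕ := n / 36

/-- The rows in the blocks. -/
def NN (n : ℕ) : Finset (Fin n) := Finset.univ.filter fun i => i.1 < 36 * kk n

theorem card_NN (n : ℕ) : (NN n).card = 36 * kk n := by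
  have h : 36 * kk n ≤ n := Nat.mul_div_le n 36
  unfold NN
  rw [Fin.card_filter_val_lt]
  exact min_eq_right h

/-- Balanced labels. -/
abbrev Bal (n : ℕ) : Type :=
  {lam : Fin n → SignType // np (NN n) lam = kk n ∧ nm (NN n) lam = kk n}

/-- The sample space. -/
abbrev Smp (n : ℕ) : Type := Bal n × ((Fin (kk n) → Pos) × (Fin (kk n) → Pos))

/-- The roles of the rows. -/
noncomputable def roles {n : ℕ} (lam : Bal n) : Fin n ≃ Idx (kk n) {i // i ∉ NN n} :=
  (exists_roles (NN n) (card_NN n) lam.1 lam.2.1 lam.2.2).choose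

theorem roles_spec {n : ℕ} (lam : Bal n) (i : Fin n) :
    colB (roles lam i) = colA (NN n) lam.1 i :=
  (exists_roles (NN n) (card_NN n) lam.1 lam.2.1 lam.2.2).choose_spec i

/-- The test matrices. -/
noncomputable def tmat {n : ℕ} (w : Smp n) : Matrix (Fin n) (Fin n) ℤ :=
  (Zmat w.2.1 (hrow w.2.2)).submatrix (roles w.1) (roles w.1)

theorem tmat_entries {n : ℕ} (w : Smp n) (i j : Fin n) :
    tmat w i j = -1 ∨ tmat w i j = 0 ∨ tmat w i j = 1 :=
  Zmat_entries _ _ (fun b p => by
    rcases had_entries (w.2.2 b) (sw p) with h | h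
    · exact Or.inl h
    · exact Or.inr (Or.inr h)) _ _

theorem tmat_per {n : ℕ} (w : Smp n) :
    (tmat w).permanent = (Zmat (ρ := {i // i ∉ NN n}) w.2.1 (hrow w.2.2)).permanent :=
  permanent_submatrix_equiv _ _ _

theorem tmat_per_sq {n : ℕ} (w : Smp n) : (tmat w).permanent ^ 2 = (2 ^ (17 * kk n)) ^ 2 := by
  rw [tmat_per, permanent_Zmat_had_sq]

/-- The normalising constant. -/
noncomputable def Zc (n : ℕ) : ℝ := ∑ lam : Bal n, ∏ i, wt (lam.1 i)

theorem Zc_eq (n : ℕ) : Zc n =
    ex (fun lam => if np (NN n) lam = kk n ∧ nm (NN n) lam = kk n then 1 else 0) := by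
  classical
  unfold Zc ex
  rw [← Finset.sum_subtype (Finset.univ.filter fun lam : Fin n → SignType =>
    np (NN n) lam = kk n ∧ nm (NN n) lam = kk n) (fun x => by simp) (fun lam => ∏ i, wt (lam i)),
    Finset.sum_filter]
  refine Finset.sum_congr rfl fun lam _ => ?_
  by_cases h : np (NN n) lam = kk n ∧ nm (NN n) lam = kk n
  · beta_reduce
    rw [if_pos h, if_pos h, mul_one]
  · beta_reduce
    rw [if_neg h, if_neg h, mul_zero]

theorem Zc_lower (n : ℕ) : 1 / ((36 * kk n + 1) * (2 * kk n + 1) : ℝ) ≤ Zc n := by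
  rw [Zc_eq]
  exact ex_balanced (NN n) (kk n) (card_NN n)

theorem Zc_pos (n : ℕ) : 0 < Zc n := lt_of_lt_of_le (by positivity) (Zc_lower n)

/-- The probabilities. -/
noncomputable def mu {n : ℕ} (w : Smp n) : ℝ :=
  (∏ i, wt (w.1.1 i)) / (Zc n * (36 ^ kk n * 36 ^ kk n))

theorem card_pos (n : ℕ) : (Fintype.card (Fin (kk n) → Pos) : ℝ) = 36 ^ kk n := by
  rw [Fintype.card_fun, Fintype.card_prod]
  simp

theorem mu_nonneg {n : ℕ} (w : Smp n) : 0 ≤ mu w :=
  div_nonneg (Finset.prod_nonneg fun i _ => wt_nonneg _)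
    (mul_nonneg (Zc_pos n).le (by positivity))

theorem sum_smp {n : ℕ} (f : Smp n → ℝ) : ∑ w, mu w * f w =
    (∑ lam : Bal n, (∏ i, wt (lam.1 i)) * ∑ a, ∑ t, f (lam, (a, t))) /
      (Zc n * (36 ^ kk n * 36 ^ kk n)) := by
  rw [Fintype.sum_prod_type, Finset.sum_div]
  refine Finset.sum_congr rfl fun lam _ => ?_
  rw [Fintype.sum_prod_type, Finset.mul_sum, Finset.sum_div]
  refine Finset.sum_congr rfl fun a _ => ?_
  rw [Finset.mul_sum, Finset.sum_div]
  refine Finset.sum_congr rfl fun t _ => ?_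
  unfold mu
  ring

theorem mu_sum (n : ℕ) : ∑ w : Smp n, mu w = 1 := by
  have h := sum_smp (n := n) (fun _ => 1)
  simp only [mul_one] at h
  rw [h, ← Finset.sum_mul]
  have h1 : ∑ _a : Fin (kk n) → Pos, ∑ _t : Fin (kk n) → Pos, (1 : ℝ) =
      36 ^ kk n * 36 ^ kk n := by
    rw [Finset.sum_const, Finset.sum_const, Finset.card_univ, nsmul_eq_mul, nsmul_eq_mul, card_pos]
    ring
  rw [h1]
  have h3 := Zc_pos n
  exact div_self (mul_pos h3 (by positivity)).ne'

section
variable {n : ℕ} (p : MvPolynomial (Fin n × Fin n) ℝ)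

/-- The value of `p` at a test matrix. -/
noncomputable def vl (w : Smp n) : ℝ := eval (fun ij => (tmat w ij.1 ij.2 : ℝ)) p

/-- The values at the test matrices with given labels. -/
theorem vl_eq (lam : Bal n) : ∃ (o : (Fin n → Fin 36 → Fin n → ℝ) × (Fin n → Fin n → ℝ))
    (φ : (Fin (kk n) → Pos) → Fin n → Fin 36), ∀ a t,
      vl p (lam, (a, t)) = valP (NN n) p lam.1 o (φ a) (φ t) := by
  classical
  have posE : Fin 36 ≃ Pos := Fintype.equivOfCardEq (by simp)
  set e := roles lam with he'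
  have he := roles_spec lam
  rw [← he'] at he
  set w : Fin n → Fin 36 → Fin n → ℝ := fun i c j =>
    match e i with
    | Sum.inl (b, (_, s)) => if s then (match e j with
        | Sum.inl (b', p) => if b' = b then (had (posE c) (sw p) : ℝ) else 0
        | Sum.inr _ => 0) else (if e j = Sum.inl (b, posE c) then 1 else 0)
    | Sum.inr _ => 0 with hw
  set a0 : Fin (kk n) → Pos := fun _ => (0, false) with ha0
  set al : Fin n → Fin n → ℝ := fun i j => ((Zmat a0 (hrow a0) (e i) (e j) : ℤ) : ℝ) with hal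
  set uP : (Fin (kk n) → Pos) → Fin n → Fin 36 := fun a i =>
    match e i with
    | Sum.inl (b, _) => posE.symm (a b)
    | Sum.inr _ => 0 with huP
  refine ⟨(w, al), uP, fun a t => ?_⟩
  unfold vl valP
  congr 1
  have key : ∀ ij, (fun ij : Fin n × Fin n => (tmat (lam, (a, t)) ij.1 ij.2 : ℝ)) ij =
      pt (NN n) lam.1 w al (uP a) (uP t) ij := by
    rintro ⟨i, j⟩
    have hc := he i
    show ((Zmat a (hrow t) (e i) (e j) : ℤ) : ℝ) = _
    rcases hei : e i with ⟨b, j0, s⟩ | y
    · rw [hei] at hc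
      simp only [colB, colA] at hc
      have hiN : i ∈ NN n := by
        by_contra h
        rw [if_neg h] at hc
        exact absurd hc (by simp [colP])
      rw [if_pos hiN] at hc
      have hlam : lam.1 i = (if j0 = 0 then (if s then -1 else 1) else 0) :=
        (Option.some_injective _ hc).symm
      by_cases hj : j0 = 0
      · subst hj
        rw [if_pos rfl] at hlam
        cases s
        · rw [if_neg (by simp)] at hlam
          have h1 : pt (NN n) lam.1 w al (uP a) (uP t) (i, j) = w i (uP a i) j := by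
            unfold pt
            rw [if_pos ⟨hiN, hlam⟩]
          rw [h1]
          simp only [hw, huP, hei, Zmat, Equiv.apply_symm_apply]
          simp
        · rw [if_pos rfl] at hlam
          have h1 : pt (NN n) lam.1 w al (uP a) (uP t) (i, j) = w i (uP t i) j := by
            unfold pt
            rw [if_neg (by rintro ⟨_, h⟩; rw [hlam] at h; exact absurd h (by decide)),
              if_pos ⟨hiN, hlam⟩]
          rw [h1]
          simp only [hw, huP, hei, Zmat, Equiv.apply_symm_apply, if_true]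
          rcases hej : e j with ⟨b', q⟩ | y
          · simp only
            by_cases hb : b' = b
            · rw [if_pos hb, if_pos hb]
              rfl
            · rw [if_neg hb, if_neg hb]
              simp
          · simp
      · rw [if_neg hj] at hlam
        have h1 : pt (NN n) lam.1 w al (uP a) (uP t) (i, j) = al i j := by
          unfold pt
          rw [if_neg (by rintro ⟨_, h⟩; rw [hlam] at h; exact absurd h (by decide)),
            if_neg (by rintro ⟨_, h⟩; rw [hlam] at h; exact absurd h (by decide))]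
        rw [h1]
        simp only [hal, hei, Zmat]
        rw [if_neg hj, if_neg hj]
    · rw [hei] at hc
      simp only [colB, colA] at hc
      have hiN : i ∉ NN n := by
        intro h
        rw [if_pos h] at hc
        exact absurd hc (by simp)
      have h1 : pt (NN n) lam.1 w al (uP a) (uP t) (i, j) = al i j := by
        unfold pt
        rw [if_neg (by rintro ⟨h, _⟩; exact hiN h), if_neg (by rintro ⟨h, _⟩; exact hiN h)]
      rw [h1]
      simp only [hal, hei, Zmat]
  exact congrArg (fun x => eval x) (funext key)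

theorem per_gram (lam : Bal n) (a a' : Fin (kk n) → Pos) :
    ∑ t, ((tmat (lam, (a, t))).permanent : ℝ) * ((tmat (lam, (a', t))).permanent : ℝ) =
      if a = a' then ((2 : ℝ) ^ (17 * kk n)) ^ 2 * 36 ^ kk n else 0 := by
  have h := had_gram (ρ := {i // i ∉ NN n}) a a'
  have h2 : ((∑ t, (tmat (lam, (a, t))).permanent * (tmat (lam, (a', t))).permanent : ℤ) : ℝ) =
      ((if a = a' then (2 ^ (17 * kk n)) ^ 2 * 36 ^ kk n else 0 : ℤ) : ℝ) := by
    rw [← h]
    simp only [tmat_per]
  push_cast at h2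
  rw [h2]

/-- The estimate for given labels. -/
theorem corr_lam (lam : Bal n) {B : ℝ}
    (h : ∀ o, HasRkR (valP (NN n) p lam.1 o) (B * 6 ^ act (NN n) lam.1)) :
    (∑ a, ∑ t, vl p (lam, (a, t)) * ((tmat (lam, (a, t))).permanent : ℝ)) ^ 2 ≤
      (B * 36 ^ kk n) * (((2 : ℝ) ^ (17 * kk n)) ^ 2 * 36 ^ kk n) *
        ∑ a, ∑ t, vl p (lam, (a, t)) ^ 2 := by
  obtain ⟨o, φ, ho⟩ := vl_eq p lam
  obtain ⟨r, h1, h2⟩ := h o
  have hact : act (NN n) lam.1 = 2 * kk n := by
    unfold act
    rw [lam.2.1, lam.2.2]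
    ring
  rw [hact, pow_mul, show (6 : ℝ) ^ 2 = 36 by norm_num] at h2
  have h3 : HasRk (fun a t => vl p (lam, (a, t))) r := by
    obtain ⟨f, g, hfg⟩ := h1
    exact ⟨fun i a => f i (φ a), fun i t => g i (φ t), fun a t => (ho a t).trans (hfg _ _)⟩
  have h4 := corr_sq h3 (P := fun a t => ((tmat (lam, (a, t))).permanent : ℝ)) (per_gram lam)
  refine h4.trans ?_
  refine mul_le_mul_of_nonneg_right (mul_le_mul_of_nonneg_right h2 (by positivity)) ?_
  exact Finset.sum_nonneg fun a _ => Finset.sum_nonneg fun t _ => sq_nonneg _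

/-- The main estimate. -/
theorem corr_main {c : ℝ} (h : Bd (NN n) c (valP (NN n) p)) :
    (∑ w : Smp n, mu w * (vl p w * ((tmat w).permanent : ℝ))) ^ 2 ≤
      c * ((36 * kk n + 1) * (2 * kk n + 1)) * ((2 : ℝ) ^ (17 * kk n)) ^ 2 *
        ∑ w : Smp n, mu w * vl p w ^ 2 := by
  classical
  obtain ⟨B, _, h2, h3, h4⟩ := h
  rw [sum_smp, sum_smp]
  set A : ℝ := 36 ^ kk n with hA
  set Q : ℝ := ((2 : ℝ) ^ (17 * kk n)) ^ 2 with hQ
  set S : Bal n → ℝ := fun lam =>
    ∑ a, ∑ t, vl p (lam, (a, t)) * ((tmat (lam, (a, t))).permanent : ℝ) with hS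
  set T : Bal n → ℝ := fun lam => ∑ a, ∑ t, vl p (lam, (a, t)) ^ 2 with hT
  set W : Bal n → ℝ := fun lam => ∏ i, wt (lam.1 i) with hW
  have hW0 : ∀ lam, 0 ≤ W lam := fun lam => Finset.prod_nonneg fun i _ => wt_nonneg _
  have hT0 : ∀ lam, 0 ≤ T lam := fun lam => Finset.sum_nonneg fun a _ =>
    Finset.sum_nonneg fun t _ => sq_nonneg _
  have hA0 : 0 < A := by rw [hA]; positivity
  have hQ0 : 0 < Q := by rw [hQ]; positivity
  have hcs := Finset.sum_sq_le_sum_mul_sum_of_sq_le_mul (Finset.univ : Finset (Bal n))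
    (r := fun lam => W lam * S lam) (f := fun lam => W lam * B lam.1)
    (g := fun lam => W lam * (A * (Q * A) * T lam))
    (fun lam _ => mul_nonneg (hW0 lam) (h2 _))
    (fun lam _ => mul_nonneg (hW0 lam) (mul_nonneg (by positivity) (hT0 lam)))
    (fun lam _ => by
      have h5 := corr_lam p lam (h4 lam.1)
      have h6 : (W lam * S lam) ^ 2 = W lam ^ 2 * S lam ^ 2 := by ring
      rw [h6]
      calc W lam ^ 2 * S lam ^ 2 ≤ W lam ^ 2 * ((B lam.1 * A) * (Q * A) * T lam) :=
            mul_le_mul_of_nonneg_left h5 (sq_nonneg _)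
        _ = _ := by ring)
  have hB : ∑ lam : Bal n, W lam * B lam.1 ≤ c := by
    refine le_trans ?_ h3
    unfold ex
    rw [← Finset.sum_subtype (Finset.univ.filter fun lam : Fin n → SignType =>
      np (NN n) lam = kk n ∧ nm (NN n) lam = kk n) (fun x => by simp)
      (fun lam => (∏ i, wt (lam i)) * B lam)]
    exact Finset.sum_le_sum_of_subset_of_nonneg (Finset.filter_subset _ _) fun lam _ _ =>
      mul_nonneg (Finset.prod_nonneg fun i _ => wt_nonneg _) (h2 _)
  have hg : ∑ lam : Bal n, W lam * (A * (Q * A) * T lam) = A * (Q * A) * ∑ lam, W lam * T lam := by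
    rw [Finset.mul_sum]
    exact Finset.sum_congr rfl fun lam _ => by ring
  rw [hg] at hcs
  have hWT : 0 ≤ ∑ lam, W lam * T lam := Finset.sum_nonneg fun lam _ => mul_nonneg (hW0 lam) (hT0 lam)
  have hfin : (∑ lam, W lam * S lam) ^ 2 ≤ c * (A * (Q * A) * ∑ lam, W lam * T lam) :=
    hcs.trans (mul_le_mul_of_nonneg_right hB (by positivity))
  have hZ := Zc_pos n
  have hZl := Zc_lower n
  have hP : (0 : ℝ) < (36 * kk n + 1) * (2 * kk n + 1) := by positivity
  have hZ2 : 1 ≤ Zc n * ((36 * kk n + 1) * (2 * kk n + 1)) := by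
    rw [div_le_iff₀ hP] at hZl
    linarith
  have hc0 : 0 ≤ c := by
    refine le_trans ?_ hB
    exact Finset.sum_nonneg fun lam _ => mul_nonneg (hW0 lam) (h2 _)
  rw [div_pow, div_le_iff₀ (by positivity)]
  have h7 : c * ((36 * kk n + 1) * (2 * kk n + 1)) * Q * ((∑ lam, W lam * T lam) /
      (Zc n * (A * A))) * (Zc n * (A * A)) ^ 2 =
      (Zc n * ((36 * kk n + 1) * (2 * kk n + 1))) * (c * (A * (Q * A) * ∑ lam, W lam * T lam)) := by
    field_simp
  refine hfin.trans ?_
  refine le_trans (le_mul_of_one_le_left (by positivity) hZ2) (le_of_eq ?_)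
  exact h7.symm

/-- The trivial estimate. -/
theorem corr_triv : (∑ w : Smp n, mu w * (vl p w * ((tmat w).permanent : ℝ))) ^ 2 ≤
      ((2 : ℝ) ^ (17 * kk n)) ^ 2 * ∑ w : Smp n, mu w * vl p w ^ 2 := by
  have hcs := Finset.sum_sq_le_sum_mul_sum_of_sq_le_mul (Finset.univ : Finset (Smp n))
    (r := fun w => mu w * (vl p w * ((tmat w).permanent : ℝ)))
    (f := fun w => mu w * ((2 : ℝ) ^ (17 * kk n)) ^ 2)
    (g := fun w => mu w * vl p w ^ 2)
    (fun w _ => mul_nonneg (mu_nonneg w) (by positivity))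
    (fun w _ => mul_nonneg (mu_nonneg w) (sq_nonneg _))
    (fun w _ => by
      have h1 : ((tmat w).permanent : ℝ) ^ 2 = ((2 : ℝ) ^ (17 * kk n)) ^ 2 := by
        have := tmat_per_sq w
        exact_mod_cast this
      rw [← h1]
      exact le_of_eq (by ring))
  rw [← Finset.sum_mul, mu_sum, one_mul] at hcs
  exact hcs

end

end Pool.Agent.W942.Av
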