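import Pool.Agent.W942.PerC
import Pool.Agent.W942.Bal

/-!
# Row-disjoint formulas with determinant gates for the permanent: the lower bound
-/

set_option autoImplicit false

namespace Pool.Agent.W942

open Finset MvPolynomial

universe u v w

section
variable {O : Type u} {K : Type v} {F : Type w} [CommRing O] [Field K] [Field F] {n : ℕ}

/-- A family of bounded average rank which contains the permanent. -/
theorem Bd.per_lower (ι : O →+* K) (hι : Function.Injective ι) (res : O →+* F)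
    (hF : (2 : F) ≠ 0) {k : ℕ} (N : Finset (Fin n)) (hN : N.card = 36 * k)
    (p : MvPolynomial (Fin n × Fin n) K) (hrep : RepPer ι res p) {c : ℝ}
    (h : Bd N c (valP N p)) : 1 / ((36 * k + 1) * (2 * k + 1) : ℝ) ≤ c := by
  classical
  obtain ⟨B, _, h2, h3, h4⟩ := h
  refine (ex_balanced N k hN).trans (le_trans (ex_mono fun lam => ?_) h3)
  split_ifs with hb
  · -- the rank is at least `36 ^ k`
    obtain ⟨hp, hm⟩ := hb
    have hact : act N lam = 2 * k := by unfold act; omega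
    have hB : 0 ≤ B lam * 6 ^ act N lam := mul_nonneg (h2 lam) (by positivity)
    have h5 := per_rank_lower ι hι res hF N hN lam hp hm p hrep
      (r := ⌊B lam * 6 ^ act N lam⌋₊) (fun o => by
        obtain ⟨r, h6, h7⟩ := h4 lam o
        exact h6.mono (Nat.le_floor h7))
    have h6 : ((36 ^ k : ℕ) : ℝ) ≤ B lam * 6 ^ act N lam :=
      (Nat.cast_le.2 h5).trans (Nat.floor_le hB)
    rw [hact, pow_mul] at h6
    push_cast at h6
    norm_num at h6
    have h7 : (0 : ℝ) < 36 ^ k := by positivity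
    by_contra hlt
    push Not at hlt
    have := mul_lt_mul_of_pos_right hlt h7
    linarith
  · exact h2 lam

/-- The quantitative lower bound. -/
theorem formula_lower (ι : O →+* K) (hι : Function.Injective ι) (res : O →+* F)
    (hF : (2 : F) ≠ 0) {k : ℕ} (hk : 36 * k ≤ n) (t : ℕ) (ht : 1 ≤ t) (Φ : Formula K n)
    (hΦ : Φ.RowDisjoint t) (hrep : RepPer ι res Φ.poly) :
    1 / ((36 * k + 1) * (2 * k + 1) : ℝ) ≤ (Φ.size + 1) * (phi t)⁻¹ * phi (36 * k) := by
  classical
  obtain ⟨N, _, hN⟩ := Finset.exists_subset_card_eq (s := (Finset.univ : Finset (Fin n)))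
    (n := 36 * k) (by simpa using hk)
  refine Bd.per_lower ι hι res hF N hN Φ.poly hrep ?_
  have hph := phi_pos t
  have hph' := phi_pos (36 * k)
  have hk1 : 1 ≤ (phi t)⁻¹ := (one_le_inv₀ (phi_pos t)).2 (phi_le_one t)
  by_cases hne : (Φ.rows ∩ N).Nonempty
  · have h1 := (formula_bound N t ht Φ hΦ hne).lift_phi (by positivity) Finset.inter_subset_right hne
    rw [hN] at h1
    refine h1.mono ?_
    have h2 : 0 ≤ (phi t)⁻¹ * phi (36 * k) := by positivity
    nlinarith
  · have he : Φ.rows ∩ N = ∅ := Finset.not_nonempty_iff_eq_empty.1 hne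
    have h1 := Bd.const_phi (S := N) (he ▸ locF_val N Φ)
    rw [hN] at h1
    refine h1.mono ?_
    have h3 : (1 : ℝ) ≤ (Φ.size + 1) * (phi t)⁻¹ := by
      have : (0 : ℝ) ≤ Φ.size := Nat.cast_nonneg _
      nlinarith
    calc phi (36 * k) = 1 * phi (36 * k) := (one_mul _).symm
      _ ≤ _ := mul_le_mul_of_nonneg_right h3 hph'.le

end

section
variable {K : Type u} [CommRing K] {n : ℕ}

theorem Formula.RowDisjoint.mono {s t : ℕ} (hst : s ≤ t) {Φ : Formula K n}
    (h : Φ.RowDisjoint s) : Φ.RowDisjoint t := by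
  induction Φ with
  | const a => trivial
  | leaf p => exact le_trans h hst
  | add f g ihf ihg => exact ⟨ihf h.1, ihg h.2⟩
  | mul f g ihf ihg => exact ⟨ihf h.1, ihg h.2.1, h.2.2⟩
  | det m f ih => exact ⟨fun a b => ih a b (h.1 a b), h.2⟩

end

/-- The asymptotic form of the bound. -/
theorem asymptotic (δ : ℝ) (hδ : 0 < δ) (hδ1 : δ ≤ 1) (n : ℕ)
    (hn : Real.exp (100000 / δ) ≤ n) (t : ℕ) (ht : 1 ≤ t) (htn : (t : ℝ) ≤ (n : ℝ) ^ (1 - δ))
    (s : ℝ) (hs : 1 / ((36 * (n / 36 : ℕ) + 1) * (2 * (n / 36 : ℕ) + 1) : ℝ) ≤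
      (s + 1) * (phi t)⁻¹ * phi (36 * (n / 36))) :
    (n : ℝ) ^ (δ / 10000 * Real.log n) ≤ s := by
  have hcc : cc = 1 / 5000 := rfl
  have hd : (100000 : ℝ) ≤ 100000 / δ := by
    rw [le_div_iff₀ hδ]; linarith
  have hn0 : (100001 : ℝ) ≤ n := by
    have h1 := Real.add_one_le_exp (100000 / δ)
    linarith
  have hnpos : (0 : ℝ) < n := by linarith
  have hnN : 100001 ≤ n := by exact_mod_cast hn0
  set L := Real.log n with hL
  have hL1 : 100000 / δ ≤ L := by
    rw [hL, Real.le_log_iff_exp_le hnpos]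
    exact hn
  have hLpos : 100000 ≤ L := hd.trans hL1
  have hLδ : 100000 ≤ δ * L := by
    have := (div_le_iff₀ hδ).1 hL1
    linarith
  set k := n / 36 with hk
  have hk36 : 36 * k ≤ n := Nat.mul_div_le n 36
  have hk36' : n < 36 * k + 36 := by
    have := Nat.div_add_mod n 36
    have h2 := Nat.mod_lt n (show 36 > 0 by norm_num)
    omega
  have hkR : (n : ℝ) / 2 ≤ ((36 * k : ℕ) : ℝ) := by
    have : (n : ℝ) < ((36 * k : ℕ) : ℝ) + 36 := by exact_mod_cast hk36'
    linarith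
  -- logarithms
  have hlogt : Real.log t ≤ (1 - δ) * L := by
    have h1 : Real.log t ≤ Real.log ((n : ℝ) ^ (1 - δ)) :=
      Real.log_le_log (by exact_mod_cast ht) htn
    rwa [Real.log_rpow hnpos] at h1
  have hlogt0 : 0 ≤ Real.log t := Real.log_nonneg (by exact_mod_cast ht)
  have hlogk : L - 1 ≤ Real.log ((36 * k : ℕ) : ℝ) := by
    have h1 : Real.log ((n : ℝ) / 2) ≤ Real.log ((36 * k : ℕ) : ℝ) :=
      Real.log_le_log (by positivity) hkR
    rw [Real.log_div hnpos.ne' (by norm_num)] at h1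
    have := Real.log_two_lt_d9
    linarith
  have hsq1 : (Real.log t) ^ 2 ≤ (1 - δ) * L ^ 2 := by
    have h1 : (Real.log t) ^ 2 ≤ ((1 - δ) * L) ^ 2 := pow_le_pow_left₀ hlogt0 hlogt 2
    have h2 : ((1 - δ) * L) ^ 2 ≤ (1 - δ) * L ^ 2 := by
      have h3 : 0 ≤ δ * (1 - δ) * L ^ 2 := by
        have : 0 ≤ 1 - δ := by linarith
        positivity
      nlinarith
    linarith
  have hsq2 : L ^ 2 - 2 * L ≤ (Real.log ((36 * k : ℕ) : ℝ)) ^ 2 := by
    have h1 : (L - 1) ^ 2 ≤ (Real.log ((36 * k : ℕ) : ℝ)) ^ 2 :=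
      pow_le_pow_left₀ (by linarith) hlogk 2
    nlinarith
  -- the main inequality
  have hphit : (phi t)⁻¹ ≤ Real.exp (cc * ((1 - δ) * L ^ 2)) := by
    unfold phi
    rw [← Real.exp_neg, neg_neg, Real.exp_le_exp, hcc]
    linarith
  have hphik : phi (36 * k) ≤ Real.exp (-(cc * (L ^ 2 - 2 * L))) := by
    unfold phi
    rw [Real.exp_le_exp, hcc]
    linarith
  have hpoly : ((36 * k + 1) * (2 * k + 1) : ℝ) ≤ Real.exp (2 * L + 1) := by
    have h1 : (36 * k : ℝ) ≤ n := by exact_mod_cast hk36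
    have h2 : ((36 * k + 1) * (2 * k + 1) : ℝ) ≤ (2 * n) * n := by
      have hk0 : (0 : ℝ) ≤ k := Nat.cast_nonneg k
      apply mul_le_mul <;> linarith
    have h3 : Real.exp (2 * L) = (n : ℝ) * n := by
      rw [two_mul, Real.exp_add, hL, Real.exp_log hnpos]
    have h4 : (2 : ℝ) ≤ Real.exp 1 := by
      have := Real.add_one_le_exp (1 : ℝ); linarith
    rw [Real.exp_add, h3]
    nlinarith [mul_pos hnpos hnpos]
  have hpos : (0 : ℝ) < (36 * k + 1) * (2 * k + 1) := by positivity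
  have hs1 : 0 < s + 1 := by
    by_contra hneg
    push Not at hneg
    have h1 : (s + 1) * (phi t)⁻¹ * phi (36 * k) ≤ 0 := by
      have h2 : 0 < (phi t)⁻¹ := inv_pos.2 (phi_pos t)
      have h3 := phi_pos (36 * k)
      have h4 : 0 < (phi t)⁻¹ * phi (36 * k) := mul_pos h2 h3
      rw [mul_assoc]
      exact mul_nonpos_of_nonpos_of_nonneg hneg h4.le
    have h2 : (0 : ℝ) < 1 / ((36 * k + 1) * (2 * k + 1)) := by positivity
    linarith
  have h1 : Real.exp (-(2 * L + 1)) ≤ (s + 1) * Real.exp (cc * ((1 - δ) * L ^ 2)) *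
      Real.exp (-(cc * (L ^ 2 - 2 * L))) := by
    calc Real.exp (-(2 * L + 1)) = 1 / Real.exp (2 * L + 1) := by rw [Real.exp_neg, one_div]
      _ ≤ 1 / ((36 * k + 1) * (2 * k + 1)) := one_div_le_one_div_of_le hpos hpoly
      _ ≤ _ := hs
      _ ≤ (s + 1) * Real.exp (cc * ((1 - δ) * L ^ 2)) * phi (36 * k) := by
        have := phi_pos (36 * k)
        gcongr
      _ ≤ _ := by
        have h5 : 0 < (s + 1) * Real.exp (cc * ((1 - δ) * L ^ 2)) :=
          mul_pos hs1 (Real.exp_pos _)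
        gcongr
  have h2 : Real.exp (δ / 10000 * L ^ 2 + 1) ≤ s + 1 := by
    have h3 : Real.exp (-(2 * L + 1)) * Real.exp (cc * (L ^ 2 - 2 * L)) *
        Real.exp (-(cc * ((1 - δ) * L ^ 2))) ≤ s + 1 := by
      have h4 : (s + 1) = ((s + 1) * Real.exp (cc * ((1 - δ) * L ^ 2)) *
          Real.exp (-(cc * (L ^ 2 - 2 * L)))) * Real.exp (cc * (L ^ 2 - 2 * L)) *
          Real.exp (-(cc * ((1 - δ) * L ^ 2))) := by
        rw [Real.exp_neg, Real.exp_neg]
        have := Real.exp_pos (cc * ((1 - δ) * L ^ 2))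
        have := Real.exp_pos (cc * (L ^ 2 - 2 * L))
        field_simp
      rw [h4]
      gcongr
    refine le_trans ?_ h3
    rw [← Real.exp_add, ← Real.exp_add, Real.exp_le_exp, hcc]
    have h5 : 100000 * L ≤ δ * L ^ 2 := by
      have := mul_le_mul_of_nonneg_right hLδ (by linarith : (0 : ℝ) ≤ L)
      nlinarith
    nlinarith
  have h3 : (n : ℝ) ^ (δ / 10000 * L) = Real.exp (δ / 10000 * L ^ 2) := by
    rw [Real.rpow_def_of_pos hnpos, ← hL]
    congr 1; ring
  rw [h3]
  have h4 : (1 : ℝ) ≤ Real.exp (δ / 10000 * L ^ 2) := by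
    rw [← Real.exp_zero, Real.exp_le_exp]
    positivity
  rw [Real.exp_add] at h2
  have h5 : (2 : ℝ) ≤ Real.exp 1 := by
    have := Real.add_one_le_exp (1 : ℝ); linarith
  nlinarith

end Pool.Agent.W942
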