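import Pool.Agent.W942.Circ2

/-!
# Circuits of determinants of bounded depth: the lower bound for the permanent
-/

set_option autoImplicit false
set_option maxHeartbeats 1000000

namespace Pool.Agent.W942

open Finset MvPolynomial

universe u v w x

theorem rho_le (q h p : ℕ) (hq : 2 ≤ q) (k : ℕ) :
    rho q h p k + 2 * h ≤ q ^ k * (p + 2 * h) := by
  induction k with
  | zero => simp [rho]
  | succ k ih =>
    show q * (rho q h p k + h) + 2 * h ≤ _
    calc q * (rho q h p k + h) + 2 * h ≤ q * (rho q h p k + h) + q * h :=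
          Nat.add_le_add_left (Nat.mul_le_mul_right _ hq) _
      _ = q * (rho q h p k + 2 * h) := by ring
      _ ≤ q * (q ^ k * (p + 2 * h)) := Nat.mul_le_mul_left _ ih
      _ = _ := by ring

theorem pow_le_exp_neg {a b L : ℝ} (hb : 0 < b) (ha0 : 0 ≤ a) (ha : a ≤ 1 - 1 / b) (m : ℕ)
    (hm : b * L ≤ m) : a ^ m ≤ Real.exp (-L) := by
  have h1 : a ≤ Real.exp (-(1 / b)) := by
    have := Real.add_one_le_exp (-(1 / b)); linarith
  calc a ^ m ≤ (Real.exp (-(1 / b))) ^ m := pow_le_pow_left₀ ha0 h1 m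
    _ = Real.exp (-(m / b)) := by rw [← Real.exp_nat_mul]; congr 1; ring
    _ ≤ _ := by
      rw [Real.exp_le_exp, neg_le_neg_iff, le_div_iff₀ hb]
      linarith

theorem circuit_lower {O : Type u} {K : Type v} {F : Type w} [CommRing O] [Field K] [Field F]
    (ι : O →+* K) (hι : Function.Injective ι) (res : O →+* F) (hF : (2 : F) ≠ 0)
    {n s : ℕ} (k : ℕ) (D : DetCircuit K n s) (c : K) (d : Fin s → K)
    (hd : ∀ j, d j ≠ 0 → D.depth j ≤ k + 1)
    (hrep : RepPer ι res (C c + ∑ j, C (d j) * D.poly j)) :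
    Real.exp ((n : ℝ) ^ (1 / ((k : ℝ) + 1)) / 200) ≤ ((n : ℝ) + 1) ^ 2 * (s + 2) ^ (k + 1) := by
  classical
  set L : ℝ := (n : ℝ) ^ (1 / ((k : ℝ) + 1)) / 200 with hL
  have hs0 : (0 : ℝ) ≤ s := Nat.cast_nonneg s
  have hs2 : (2 : ℝ) ≤ ((s : ℝ) + 2) ^ (k + 1) := by
    have h1 : ((s : ℝ) + 2) ^ 1 ≤ ((s : ℝ) + 2) ^ (k + 1) :=
      pow_le_pow_right₀ (by linarith) (by omega)
    linarith
  rcases Nat.eq_zero_or_pos n with hn0 | hnpos
  · -- the trivial case `n = 0`
    have h1 : L = 0 := by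
      rw [hL, hn0, Nat.cast_zero, Real.zero_rpow (by positivity)]; simp
    rw [h1, Real.exp_zero, hn0, Nat.cast_zero]
    linarith
  have hn1 : (1 : ℝ) ≤ n := by exact_mod_cast hnpos
  by_cases hL1 : L < 1
  · -- the trivial case
    have h1 : Real.exp L ≤ Real.exp 1 := Real.exp_le_exp.2 hL1.le
    have h2 := Real.exp_one_lt_d9
    have h3 : (4 : ℝ) ≤ ((n : ℝ) + 1) ^ 2 := by nlinarith
    nlinarith
  push Not at hL1
  have hL0 : 0 ≤ L := by linarith
  -- `n = (200 L) ^ (k + 1)`
  have hnL : (n : ℝ) = 200 ^ (k + 1) * L ^ (k + 1) := by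
    have h1 : (200 * L) = (n : ℝ) ^ (1 / ((k : ℝ) + 1)) := by rw [hL]; ring
    rw [← mul_pow, h1, ← Real.rpow_natCast, ← Real.rpow_mul (by positivity)]
    have h2 : 1 / ((k : ℝ) + 1) * ((k + 1 : ℕ) : ℝ) = 1 := by
      push_cast; field_simp
    rw [h2, Real.rpow_one]
  have hn200 : (200 : ℝ) ≤ n := by
    rw [hnL]
    have h1 : (1 : ℝ) ≤ L ^ (k + 1) := one_le_pow₀ hL1
    have h2 : (200 : ℝ) ^ 1 ≤ 200 ^ (k + 1) := pow_le_pow_right₀ (by norm_num) (by omega)
    nlinarith
  set q : ℕ := ⌈162 * L⌉₊ with hq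
  set h : ℕ := ⌈22 * L⌉₊ with hh
  set p : ℕ := ⌈27 * L⌉₊ with hp
  have hq1 : 162 * L ≤ q := Nat.le_ceil _
  have hh1 : 22 * L ≤ h := Nat.le_ceil _
  have hp1 : 27 * L ≤ p := Nat.le_ceil _
  have hq2 : (q : ℝ) ≤ 163 * L := by
    have := (Nat.ceil_lt_add_one (show 0 ≤ 162 * L by positivity)).le
    linarith
  have hh2 : (h : ℝ) ≤ 23 * L := by
    have := (Nat.ceil_lt_add_one (show 0 ≤ 22 * L by positivity)).le
    linarith
  have hp2 : (p : ℝ) ≤ 28 * L := by
    have := (Nat.ceil_lt_add_one (show 0 ≤ 27 * L by positivity)).le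
    linarith
  have hqN : 2 ≤ q := by
    have : (2 : ℝ) ≤ q := by linarith
    exact_mod_cast this
  have hpN : 2 ≤ p := by
    have : (2 : ℝ) ≤ p := by linarith
    exact_mod_cast this
  have b1 : (161 / 162 : ℝ) ^ q ≤ Real.exp (-L) :=
    pow_le_exp_neg (b := 162) (by norm_num) (by norm_num) (by norm_num) q hq1
  have b2 : (103 / 108 : ℝ) ^ h ≤ Real.exp (-L) :=
    pow_le_exp_neg (b := 108 / 5) (by norm_num) (by norm_num) (by norm_num) h (by linarith)
  have b3 : (26 / 27 : ℝ) ^ p ≤ Real.exp (-L) :=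
    pow_le_exp_neg (b := 27) (by norm_num) (by norm_num) (by norm_num) p hp1
  -- there are enough rows
  have hrho : ((rho q h p k + h : ℕ) : ℝ) ≤ 37 / 100 * n := by
    have h1 := rho_le q h p hqN k
    have h2 : ((rho q h p k + h : ℕ) : ℝ) ≤ ((q ^ k * (p + 2 * h) : ℕ) : ℝ) := by
      exact_mod_cast (by omega : rho q h p k + h ≤ q ^ k * (p + 2 * h))
    refine h2.trans ?_
    push_cast
    have h3 : (q : ℝ) ^ k ≤ 200 ^ k * L ^ k := by
      rw [← mul_pow]
      exact pow_le_pow_left₀ (Nat.cast_nonneg q) (by linarith) k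
    have h4 : (p : ℝ) + 2 * h ≤ 74 * L := by linarith
    calc (q : ℝ) ^ k * ((p : ℝ) + 2 * h) ≤ (200 ^ k * L ^ k) * (74 * L) :=
          mul_le_mul h3 h4 (by positivity) (by positivity)
      _ = 37 / 100 * (200 ^ (k + 1) * L ^ (k + 1)) := by rw [pow_succ, pow_succ]; ring
      _ = 37 / 100 * n := by rw [← hnL]
  have hnN : 200 ≤ n := by exact_mod_cast hn200
  have hk36 : n < 36 * (n / 36) + 36 := by
    have := Nat.div_add_mod n 36
    have h2 := Nat.mod_lt n (show 36 > 0 by norm_num)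
    omega
  have hkle : 36 * (n / 36) ≤ n := Nat.mul_div_le n 36
  have henough : rho q h p k + h ≤ 36 * (n / 36) := by
    have h1 : (n : ℝ) < ((36 * (n / 36) : ℕ) : ℝ) + 36 := by exact_mod_cast hk36
    have h2 : ((rho q h p k + h : ℕ) : ℝ) ≤ ((36 * (n / 36) : ℕ) : ℝ) := by linarith
    exact_mod_cast h2
  obtain ⟨N, _, hN⟩ := Finset.exists_subset_card_eq (s := (Finset.univ : Finset (Fin n)))
    (n := 36 * (n / 36)) (by simpa using hkle)
  have hout := output_bound D N (Real.exp (-L)) (Real.exp_pos _) q h p b1 b2 b3 hpN (by omega) k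
    (by rw [hN]; exact henough) c d hd
  have hlow := Bd.per_lower ι hι res hF N hN _ hrep hout
  have hkn : ((n / 36 : ℕ) : ℝ) ≤ n := by exact_mod_cast Nat.div_le_self n 36
  have hkn' : 36 * ((n / 36 : ℕ) : ℝ) ≤ n := by exact_mod_cast hkle
  have hk0 : (0 : ℝ) ≤ ((n / 36 : ℕ) : ℝ) := Nat.cast_nonneg _
  have hpoly : ((36 * ((n / 36 : ℕ) : ℝ) + 1) * (2 * ((n / 36 : ℕ) : ℝ) + 1)) ≤
      ((n : ℝ) + 1) ^ 2 := by
    rw [sq]
    apply mul_le_mul <;> linarith
  have hpos : (0 : ℝ) < (36 * ((n / 36 : ℕ) : ℝ) + 1) * (2 * ((n / 36 : ℕ) : ℝ) + 1) := by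
    positivity
  rw [div_le_iff₀ hpos, Real.exp_neg] at hlow
  have hexp := Real.exp_pos L
  have h1 : Real.exp L ≤ ((s : ℝ) + 2) ^ (k + 1) *
      ((36 * ((n / 36 : ℕ) : ℝ) + 1) * (2 * ((n / 36 : ℕ) : ℝ) + 1)) := by
    have h2 := mul_le_mul_of_nonneg_left hlow hexp.le
    rw [mul_one] at h2
    refine h2.trans (le_of_eq ?_)
    field_simp
  refine h1.trans ?_
  rw [mul_comm]
  exact mul_le_mul_of_nonneg_right hpoly (by positivity)

/-- The determinant is a circuit of depth one. -/
theorem det_circuit (K : Type x) [CommRing K] [Nontrivial K] (n : ℕ) :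
    ∃ (D : DetCircuit K n (n * n + 1)) (i : Fin (n * n + 1)), D.depth i = 1 ∧
      D.poly i = (Matrix.of fun a b => X (a, b) : Matrix (Fin n) (Fin n)
        (MvPolynomial (Fin n × Fin n) K)).det := by
  classical
  obtain ⟨e⟩ : Nonempty (Fin n × Fin n ≃ Fin (n * n)) := ⟨finProdFinEquiv⟩
  let P : Fin (n * n + 1) → MvPolynomial (Fin n × Fin n) K := Fin.lastCases
    ((Matrix.of fun a b => X (a, b) : Matrix (Fin n) (Fin n)
        (MvPolynomial (Fin n × Fin n) K)).det) (fun j => X (e.symm j))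
  let R : Fin (n * n + 1) → Finset (Fin n) := Fin.lastCases Finset.univ
    (fun j => {(e.symm j).1})
  let dep : Fin (n * n + 1) → ℕ := Fin.lastCases 1 (fun _ => 0)
  refine ⟨⟨P, R, dep, fun i => ?_⟩, Fin.last _, ?_, ?_⟩
  · refine Fin.lastCases ?_ (fun j => ?_) i
    · refine Or.inr ⟨n, fun _ _ => 0, fun a b => Fin.lastCases 0
        (fun j => if e.symm j = (a, b) then 1 else 0), ?_, ?_, ?_, ?_⟩
      · intro a b j
        refine Fin.lastCases ?_ (fun j => ?_) j
        · intro h; simp at h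
        · intro _; simp [dep]
      · intro r
        simp only [R, Fin.lastCases_last, Finset.mem_univ, true_iff]
        refine ⟨r, r, (e (r, r)).castSucc, ?_, ?_⟩
        · simp
        · simp
      · intro a a' b b' j j'
        refine Fin.lastCases ?_ (fun j => ?_) j
        · intro _ h; simp at h
        · refine Fin.lastCases ?_ (fun j' => ?_) j'
          · intro _ _ h; simp at h
          · intro haa h h'
            simp only [Fin.lastCases_castSucc, ne_eq, ite_eq_right_iff, one_ne_zero, imp_false,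
              not_not] at h h'
            simp only [R, Fin.lastCases_castSucc, h, h', Finset.disjoint_singleton_left,
              Finset.mem_singleton]
            exact haa
      · simp only [P, Fin.lastCases_last]
        congr 1
        ext1 a b
        simp only [Matrix.of_apply, map_zero, zero_add]
        rw [Fin.sum_univ_castSucc]
        simp only [Fin.lastCases_castSucc, Fin.lastCases_last, map_zero, zero_mul, add_zero]
        rw [Finset.sum_eq_single (e (a, b))]
        · simp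
        · intro j _ hj
          rw [if_neg, map_zero, zero_mul]
          intro h
          apply hj
          rw [← h, Equiv.apply_symm_apply]
        · intro h; exact absurd (Finset.mem_univ _) h
    · refine Or.inl ⟨by simp [R], fun z hz => ?_⟩
      simp only [P, Fin.lastCases_castSucc] at hz
      rw [vars_X, Finset.mem_singleton] at hz
      simp only [R, Fin.lastCases_castSucc, hz, Finset.mem_singleton]
  · simp [dep]
  · simp [P]

end Pool.Agent.W942
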