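import Pool.Agent.W942.Net

/-!
# Sums of tree-structured networks: the lower bound
-/

set_option autoImplicit false
set_option maxHeartbeats 1000000

namespace Pool.Agent.W942

open Finset MvPolynomial

universe u v w

section
variable {K : Type u} [CommRing K] {n : ℕ}

theorem Net.Valid.mono {w w' z z' : ℕ} (hw : w ≤ w') (hz : z ≤ z') {m : ℕ} {Φ : Net K n m}
    (h : Φ.Valid w z) : Φ.Valid w' z' := by
  induction Φ with
  | leaf f => exact lt_of_lt_of_le h hz
  | node M c p N T ih =>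
    obtain ⟨h1, h2, h3, h4⟩ := h
    exact ⟨h1.trans hw, h2.trans hw, fun a => ih a (h3 a), h4⟩

end

section
variable {O : Type u} {K : Type v} {F : Type w} [CommRing O] [Field K] [Field F] {n : ℕ}

theorem exp_quarter : Real.exp (1 / 7 : ℝ) ≤ 7 / 6 := by
  have h := Real.add_one_le_exp (-(1 / 7) : ℝ)
  have h2 : Real.exp (-(1 / 7) : ℝ) * Real.exp (1 / 7) = 1 := by
    rw [← Real.exp_add]; simp
  have h3 := Real.exp_pos (1 / 7 : ℝ)
  nlinarith

/-- The bound for one network. -/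
theorem Net.bd {w z : ℕ} {q : ℕ} (hq : 1 ≤ q) (hw : w ≤ 2 ^ q) (hz : 10 ^ 6 * q ^ 2 ≤ z)
    (N : Finset (Fin n)) (Φ : Net K n 1) (hΦ : Φ.Valid w z) :
    Bd N (4 / 3 * Real.exp (1 / 8 - rh z * N.card)) (valP N (Φ.poly 0)) := by
  have hz6 : 10 ^ 6 ≤ z := by nlinarith
  have hz0 : (0 : ℝ) < z := by
    have : 0 < z := by omega
    exact_mod_cast this
  have hs := sqrt_z hz6
  have hth := th_pos hz6
  have hth1 := th_le hz6
  have hrh : 0 ≤ rh z := by unfold rh; positivity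
  have hrz : rh z * z = 1 / 8 := by unfold rh; field_simp
  have hrh1 : rh z ≤ 5 / 108 := by
    unfold rh
    rw [div_le_div_iff₀ (by positivity) (by norm_num)]
    have : ((10 ^ 6 : ℕ) : ℝ) ≤ z := by exact_mod_cast hz6
    push_cast at this
    linarith
  -- the width
  have hwθ : (w : ℝ) ^ th z * (w : ℝ) ^ th z ≤ Real.exp (rh z * z) := by
    have h1 : (w : ℝ) ^ th z ≤ Real.exp (1 / 16) := by
      have h2 : (w : ℝ) ≤ 2 ^ (q : ℝ) := by
        rw [Real.rpow_natCast]
        exact_mod_cast hw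
      refine (Real.rpow_le_rpow (Nat.cast_nonneg _) h2 hth.le).trans ?_
      rw [← Real.rpow_mul (by norm_num), Real.rpow_def_of_pos (by norm_num), Real.exp_le_exp]
      have h3 : (q : ℝ) * th z ≤ 81 / 1000 := by
        unfold th
        rw [mul_div_assoc', div_le_div_iff₀ (by linarith) (by norm_num)]
        have h4 : 1000 * (q : ℝ) ≤ Real.sqrt z := by
          refine Real.le_sqrt_of_sq_le ?_
          have : ((10 ^ 6 * q ^ 2 : ℕ) : ℝ) ≤ z := by exact_mod_cast hz
          push_cast at this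
          nlinarith
        linarith
      have h5 := Real.log_two_lt_d9
      have h6 : 0 ≤ Real.log 2 := Real.log_nonneg (by norm_num)
      have h7 : 0 ≤ (q : ℝ) * th z := by positivity
      nlinarith
    have h0 : 0 ≤ (w : ℝ) ^ th z := Real.rpow_nonneg (Nat.cast_nonneg _) _
    rw [hrz]
    calc (w : ℝ) ^ th z * (w : ℝ) ^ th z ≤ Real.exp (1 / 16) * Real.exp (1 / 16) :=
          mul_le_mul h1 h1 h0 (Real.exp_pos _).le
      _ = Real.exp (1 / 8) := by rw [← Real.exp_add]; norm_num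
  have hdec := Net.dec N hth hrh (by omega : 0 < z) hwθ (fun J hJ => frac_moment hz6 J hJ) Φ hΦ
  have h1 := (hdec.bd hth (by linarith) hrh 0 (Net.locF N Φ 0)).lift Finset.inter_subset_right
  refine h1.mono ?_
  rw [hrz, mul_assoc]
  refine mul_le_mul_of_nonneg_left ?_ (by norm_num)
  have h2 : (103 / 108 : ℝ) ≤ Real.exp (-rh z) := by
    have := Real.add_one_le_exp (-rh z)
    linarith
  have h3 : (103 / 108 : ℝ) ^ (N.card - (Φ.rows ∩ N).card) ≤
      Real.exp (-rh z) ^ (N.card - (Φ.rows ∩ N).card) :=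
    pow_le_pow_left₀ (by norm_num) h2 _
  refine (mul_le_mul_of_nonneg_left h3 (Real.exp_pos _).le).trans (le_of_eq ?_)
  rw [← Real.exp_nat_mul, ← Real.exp_add]
  congr 1
  have h4 : (Φ.rows ∩ N).card ≤ N.card := Finset.card_le_card Finset.inter_subset_right
  rw [Nat.cast_sub h4]
  ring

/-- The lower bound. -/
theorem net_lower (ι : O →+* K) (hι : Function.Injective ι) (res : O →+* F)
    (hF : (2 : F) ≠ 0) {w z q s : ℕ} (hq : 1 ≤ q) (hw : w ≤ 2 ^ q) (hz : 10 ^ 6 * q ^ 2 ≤ z)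
    (Φ : Fin s → Net K n 1) (hΦ : ∀ i, (Φ i).Valid w z)
    (hrep : RepPer ι res (∑ i, (Φ i).poly 0)) :
    Real.exp ((n : ℝ) / (8 * z)) ≤ 2 * ((n : ℝ) + 1) ^ 2 * s := by
  classical
  have hz6 : 10 ^ 6 ≤ z := by nlinarith
  have hz0 : (10 ^ 6 : ℝ) ≤ z := by exact_mod_cast hz6
  set k := n / 36 with hk
  have hk36 : 36 * k ≤ n := Nat.mul_div_le n 36
  have hk36' : n < 36 * k + 36 := by
    have := Nat.div_add_mod n 36
    have h2 := Nat.mod_lt n (show 36 > 0 by norm_num)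
    omega
  obtain ⟨N, _, hN⟩ := Finset.exists_subset_card_eq (s := (Finset.univ : Finset (Fin n)))
    (n := 36 * k) (by simpa using hk36)
  have h1 := Bd.sum Finset.univ fun i _ => Net.bd hq hw hz N (Φ i) (hΦ i)
  have h2 := Bd.per_lower ι hι res hF N hN _ hrep (h1.congr fun lam o u v => by
    simp [valP, map_sum])
  rw [Finset.sum_const, nsmul_eq_mul, Finset.card_univ, Fintype.card_fin, hN] at h2
  have hk0 : (0 : ℝ) ≤ k := Nat.cast_nonneg k
  have hkn : (36 * k : ℝ) ≤ n := by exact_mod_cast hk36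
  have hkn' : (n : ℝ) < 36 * k + 36 := by exact_mod_cast hk36'
  have hs0 : (0 : ℝ) ≤ s := Nat.cast_nonneg s
  have hpos : (0 : ℝ) < (36 * k + 1) * (2 * k + 1) := by positivity
  rw [div_le_iff₀ hpos] at h2
  have h3 : Real.exp (1 / 8 - rh z * ((36 * k : ℕ) : ℝ)) * Real.exp ((n : ℝ) / (8 * z)) ≤ 7 / 6 := by
    rw [← Real.exp_add]
    refine le_trans (Real.exp_le_exp.2 ?_) exp_quarter
    have h4 : rh z * ((36 * k : ℕ) : ℝ) = 36 * k / (8 * z) := by
      unfold rh; push_cast; field_simp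
    rw [h4]
    have h5 : (n : ℝ) / (8 * z) - 36 * k / (8 * z) ≤ 1 / 1000 := by
      rw [← sub_div, div_le_div_iff₀ (by linarith) (by norm_num)]
      linarith
    linarith
  have h4 : ((36 * k + 1) * (2 * k + 1) : ℝ) ≤ ((n : ℝ) + 1) ^ 2 := by
    have : (2 * k : ℝ) ≤ n := by linarith
    nlinarith
  have hE := Real.exp_pos ((n : ℝ) / (8 * z))
  calc Real.exp ((n : ℝ) / (8 * z)) = 1 * Real.exp ((n : ℝ) / (8 * z)) := (one_mul _).symm
    _ ≤ (s * (4 / 3 * Real.exp (1 / 8 - rh z * ((36 * k : ℕ) : ℝ))) *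
        ((36 * k + 1) * (2 * k + 1))) * Real.exp ((n : ℝ) / (8 * z)) :=
        mul_le_mul_of_nonneg_right h2 hE.le
    _ = (4 / 3 * (Real.exp (1 / 8 - rh z * ((36 * k : ℕ) : ℝ)) *
        Real.exp ((n : ℝ) / (8 * z)))) * (((36 * k + 1) * (2 * k + 1)) * s) := by ring
    _ ≤ (4 / 3 * (7 / 6)) * (((n : ℝ) + 1) ^ 2 * s) := by
        refine mul_le_mul (mul_le_mul_of_nonneg_left h3 (by norm_num))
          (mul_le_mul_of_nonneg_right h4 hs0) (by positivity) (by norm_num)
    _ ≤ _ := by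
        have : 0 ≤ ((n : ℝ) + 1) ^ 2 * s := by positivity
        linarith

/-- The cube root form of the lower bound. -/
theorem net_lower_cube (ι : O →+* K) (hι : Function.Injective ι) (res : O →+* F)
    (hF : (2 : F) ≠ 0) {w s : ℕ} (hw : 1 ≤ w)
    (Φ : Fin s → Net K n 1) (hΦ : ∀ i, (Φ i).Valid w (10 ^ 6))
    (hrep : RepPer ι res (∑ i, (Φ i).poly 0)) :
    Real.exp ((n : ℝ) ^ (1 / 3 : ℝ) / 300) ≤ 2 * ((n : ℝ) + 1) ^ 2 * (s * w) := by
  obtain ⟨q, hq, hwq, hqw⟩ : ∃ q : ℕ, 1 ≤ q ∧ w ≤ 2 ^ q ∧ 2 ^ q ≤ 2 * w := by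
    rcases Nat.lt_or_ge 1 w with h | h
    · refine ⟨Nat.clog 2 w, Nat.clog_pos (by norm_num) h, Nat.le_pow_clog (by norm_num) w, ?_⟩
      have h1 := Nat.pow_pred_clog_lt_self (b := 2) (by norm_num) h
      have h2 : Nat.clog 2 w = (Nat.clog 2 w).pred + 1 :=
        (Nat.succ_pred_eq_of_pos (Nat.clog_pos (by norm_num) h)).symm
      rw [h2, pow_succ]
      omega
    · exact ⟨1, le_rfl, by omega, by omega⟩
  have h1 := net_lower ι hι res hF hq hwq (z := 10 ^ 6 * q ^ 2) le_rfl Φ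
    (fun i => (hΦ i).mono le_rfl (by nlinarith)) hrep
  set x := (n : ℝ) ^ (1 / 3 : ℝ) with hx
  have hx0 : 0 ≤ x := by positivity
  have hx3 : x ^ 3 = n := by
    rw [hx, ← Real.rpow_natCast, ← Real.rpow_mul (Nat.cast_nonneg _)]
    norm_num
  have hq0 : (1 : ℝ) ≤ q := by exact_mod_cast hq
  have hw0 : (1 : ℝ) ≤ w := by exact_mod_cast hw
  have hs0 : (0 : ℝ) ≤ s := Nat.cast_nonneg s
  have hn1 : (1 : ℝ) ≤ ((n : ℝ) + 1) ^ 2 := by
    have : (0 : ℝ) ≤ n := Nat.cast_nonneg n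
    nlinarith
  have hA : (0 : ℝ) ≤ 2 * ((n : ℝ) + 1) ^ 2 * s := by positivity
  by_cases hcase : (q : ℝ) ≤ x / 180
  · have h2 : x / 300 ≤ (n : ℝ) / (8 * ((10 ^ 6 * q ^ 2 : ℕ) : ℝ)) := by
      push_cast
      rw [← hx3, div_le_div_iff₀ (by norm_num) (by positivity)]
      have h3 : (q : ℝ) ^ 2 ≤ (x / 180) ^ 2 := pow_le_pow_left₀ (by linarith) hcase 2
      have h4 : x * (8 * (10 ^ 6 * (q : ℝ) ^ 2)) ≤ x * (8 * (10 ^ 6 * (x / 180) ^ 2)) := by
        gcongr
      have h5 : x * (8 * (10 ^ 6 * (x / 180) ^ 2)) = x ^ 3 * (8 * 10 ^ 6 / 32400) := by ring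
      have h6 : 0 ≤ x ^ 3 := by positivity
      rw [h5] at h4
      nlinarith
    calc Real.exp (x / 300) ≤ Real.exp ((n : ℝ) / (8 * ((10 ^ 6 * q ^ 2 : ℕ) : ℝ))) :=
          Real.exp_le_exp.2 h2
      _ ≤ 2 * ((n : ℝ) + 1) ^ 2 * s := h1
      _ ≤ 2 * ((n : ℝ) + 1) ^ 2 * s * w := le_mul_of_one_le_right hA hw0
      _ = _ := by ring
  · push Not at hcase
    have hs1 : (1 : ℝ) ≤ s := by
      rcases Nat.eq_zero_or_pos s with h0 | h0
      · rw [h0] at h1
        have := Real.exp_pos ((n : ℝ) / (8 * ((10 ^ 6 * q ^ 2 : ℕ) : ℝ)))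
        simp only [Nat.cast_zero, mul_zero] at h1
        linarith
      · exact_mod_cast h0
    have h2 : Real.exp (x / 300) ≤ 2 ^ q := by
      have h3 : (2 : ℝ) ^ q = Real.exp (Real.log 2 * q) := by
        rw [← Real.rpow_natCast, Real.rpow_def_of_pos (by norm_num)]
      rw [h3, Real.exp_le_exp]
      have := Real.log_two_gt_d9
      nlinarith
    have h3 : (2 : ℝ) ^ q ≤ 2 * w := by exact_mod_cast hqw
    calc Real.exp (x / 300) ≤ 2 * w := h2.trans h3
      _ ≤ 2 * w * (((n : ℝ) + 1) ^ 2 * s) := by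
          refine le_mul_of_one_le_right (by linarith) ?_
          nlinarith
      _ = _ := by ring

end

/-- The determinant is computed by a network of width one. -/
theorem det_net (n : ℕ) (K : Type u) [CommRing K] : ∃ Φ : Net K n 1, Φ.Valid 1 2 ∧
    Φ.poly 0 = (Matrix.of fun a b => X (a, b) : Matrix (Fin n) (Fin n)
      (MvPolynomial (Fin n × Fin n) K)).det := by
  classical
  have hrows : ∀ a : Fin n, (Net.leaf (K := K) (n := n) (fun b : Fin n => X (a, b))).rows ⊆ {a} := by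
    intro a i hi
    simp only [Net.rows, Finset.mem_biUnion, Finset.mem_image] at hi
    obtain ⟨b, _, p, hp, rfl⟩ := hi
    have h1 := MvPolynomial.vars_def (X (a, b) : MvPolynomial (Fin n × Fin n) K)
    have h2 : p ∈ ({(a, b)} : Finset (Fin n × Fin n)) := by
      rcases subsingleton_or_nontrivial K with hK | hK
      · have : (X (a, b) : MvPolynomial (Fin n × Fin n) K) = 0 := Subsingleton.elim _ _
        rw [this, MvPolynomial.vars_0] at hp
        simp at hp
      · rwa [MvPolynomial.vars_X] at hp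
    rw [Finset.mem_singleton] at h2 ⊢
    rw [h2]
  refine ⟨Net.node n 1 (fun _ => n) (fun a => Net.leaf fun b => X (a, b))
    (fun _ _ _ b x => if x = b then 1 else 0), ⟨le_rfl, le_rfl, fun a => ?_, fun a a' h => ?_⟩, ?_⟩
  · show (Net.leaf (K := K) (n := n) (fun b : Fin n => X (a, b))).rows.card < 2
    have := Finset.card_le_card (hrows a)
    rw [Finset.card_singleton] at this
    omega
  · exact Finset.disjoint_of_subset_left (hrows a) (Finset.disjoint_of_subset_right (hrows a')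
      (by simpa using h))
  · simp only [Net.poly, Fin.sum_univ_one, Finset.univ_unique, Finset.sum_singleton]
    congr 1
    ext a b : 1
    simp only [Matrix.of_apply]
    rw [Finset.sum_eq_single b]
    · simp
    · intro x _ hx
      simp [hx]
    · intro h; exact absurd (Finset.mem_univ _) h

end Pool.Agent.W942
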