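import Pool.Agent.W942.AvF
import Pool.Agent.W942.FinalA
import Pool.Agent.W942.FinalB
import Pool.Agent.W942.FinalT

/-!
# Average-case bounds for the permanent: formulas, circuits and networks with determinants
-/

set_option autoImplicit false
set_option maxHeartbeats 1000000

namespace Pool.Agent.W942.Av

open Finset MvPolynomial Pool.Agent.W942

/-- For a random matrix, equal to `A w` with probability `μ w`, the square of the correlation of the
value of `p` and of the permanent is at most `ε`, and the mean square error of `p` as an approximation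
of the permanent is at least `1 - ε` times that of the zero polynomial. -/
def Uncorrelated {n : ℕ} {Ω : Type} [Fintype Ω] (μ : Ω → ℝ) (A : Ω → Matrix (Fin n) (Fin n) ℤ)
    (p : MvPolynomial (Fin n × Fin n) ℝ) (ε : ℝ) : Prop :=
  (∑ w, μ w * (eval (fun ij => (A w ij.1 ij.2 : ℝ)) p * ((A w).permanent : ℝ))) ^ 2 ≤
      ε * ((∑ w, μ w * (eval (fun ij => (A w ij.1 ij.2 : ℝ)) p) ^ 2) *
        ∑ w, μ w * ((A w).permanent : ℝ) ^ 2) ∧
    (1 - ε) * ∑ w, μ w * ((A w).permanent : ℝ) ^ 2 ≤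
      ∑ w, μ w * (eval (fun ij => (A w ij.1 ij.2 : ℝ)) p - ((A w).permanent : ℝ)) ^ 2

theorem uncorrelated_of {n : ℕ} {Ω : Type} [Fintype Ω] {μ : Ω → ℝ}
    {A : Ω → Matrix (Fin n) (Fin n) ℤ} {p : MvPolynomial (Fin n × Fin n) ℝ} {ε : ℝ}
    (hμ : ∀ w, 0 ≤ μ w) (hε : 0 ≤ ε)
    (h : (∑ w, μ w * (eval (fun ij => (A w ij.1 ij.2 : ℝ)) p * ((A w).permanent : ℝ))) ^ 2 ≤
      ε * ((∑ w, μ w * (eval (fun ij => (A w ij.1 ij.2 : ℝ)) p) ^ 2) *
        ∑ w, μ w * ((A w).permanent : ℝ) ^ 2)) : Uncorrelated μ A p ε := by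
  refine ⟨h, ?_⟩
  set X := ∑ w, μ w * (eval (fun ij => (A w ij.1 ij.2 : ℝ)) p * ((A w).permanent : ℝ)) with hX
  set Y := ∑ w, μ w * (eval (fun ij => (A w ij.1 ij.2 : ℝ)) p) ^ 2 with hY
  set Q := ∑ w, μ w * ((A w).permanent : ℝ) ^ 2 with hQ
  have hY0 : 0 ≤ Y := Finset.sum_nonneg fun w _ => mul_nonneg (hμ w) (sq_nonneg _)
  have hQ0 : 0 ≤ Q := Finset.sum_nonneg fun w _ => mul_nonneg (hμ w) (sq_nonneg _)
  have h1 : ∑ w, μ w * (eval (fun ij => (A w ij.1 ij.2 : ℝ)) p - ((A w).permanent : ℝ)) ^ 2 =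
      Y - 2 * X + Q := by
    rw [hX, hY, hQ, Finset.mul_sum, ← Finset.sum_sub_distrib, ← Finset.sum_add_distrib]
    exact Finset.sum_congr rfl fun w _ => by ring
  rw [h1]
  -- `2 X ≤ Y + ε Q`
  have h2 : 2 * X ≤ Y + ε * Q := by
    have h3 : X ^ 2 ≤ Y * (ε * Q) := h.trans (le_of_eq (by ring))
    have h4 : X ≤ |X| := le_abs_self X
    have h5 : (2 * |X|) ^ 2 ≤ (Y + ε * Q) ^ 2 := by
      rw [mul_pow, sq_abs]
      nlinarith [sq_nonneg (Y - ε * Q)]
    have h6 : 0 ≤ Y + ε * Q := by positivity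
    have h7 := abs_le_of_sq_le_sq' h5 h6
    linarith [h7.2]
  linarith

theorem Uncorrelated.mono {n : ℕ} {Ω : Type} [Fintype Ω] {μ : Ω → ℝ}
    {A : Ω → Matrix (Fin n) (Fin n) ℤ} {p : MvPolynomial (Fin n × Fin n) ℝ} {ε ε' : ℝ}
    (hμ : ∀ w, 0 ≤ μ w) (h : Uncorrelated μ A p ε) (hε : ε ≤ ε') : Uncorrelated μ A p ε' := by
  have hY0 : 0 ≤ ∑ w, μ w * (eval (fun ij => (A w ij.1 ij.2 : ℝ)) p) ^ 2 :=
    Finset.sum_nonneg fun w _ => mul_nonneg (hμ w) (sq_nonneg _)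
  have hQ0 : 0 ≤ ∑ w, μ w * ((A w).permanent : ℝ) ^ 2 :=
    Finset.sum_nonneg fun w _ => mul_nonneg (hμ w) (sq_nonneg _)
  refine ⟨h.1.trans (mul_le_mul_of_nonneg_right hε (by positivity)), le_trans ?_ h.2⟩
  exact mul_le_mul_of_nonneg_right (by linarith) hQ0

section
variable {n : ℕ}

theorem mu_per (n : ℕ) : ∑ w : Smp n, mu w * ((tmat w).permanent : ℝ) ^ 2 =
    ((2 : ℝ) ^ (17 * kk n)) ^ 2 := by
  have h1 : ∀ w : Smp n, ((tmat w).permanent : ℝ) ^ 2 = ((2 : ℝ) ^ (17 * kk n)) ^ 2 := by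
    intro w
    have := tmat_per_sq w
    exact_mod_cast this
  rw [Finset.sum_congr rfl fun w _ => by rw [h1 w], ← Finset.sum_mul, mu_sum, one_mul]

theorem unc_triv (p : MvPolynomial (Fin n × Fin n) ℝ) : Uncorrelated mu tmat p 1 := by
  refine uncorrelated_of mu_nonneg zero_le_one ?_
  rw [mu_per, one_mul, mul_comm]
  exact corr_triv p

theorem unc_main {p : MvPolynomial (Fin n × Fin n) ℝ} {c : ℝ} (h : Bd (NN n) c (valP (NN n) p)) :
    Uncorrelated mu tmat p (c * ((36 * kk n + 1) * (2 * kk n + 1))) := by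
  refine uncorrelated_of mu_nonneg (mul_nonneg h.nonneg (by positivity)) ?_
  rw [mu_per]
  refine (corr_main p h).trans (le_of_eq ?_)
  unfold vl
  ring

theorem kk_le (n : ℕ) : 36 * kk n ≤ n := Nat.mul_div_le n 36

theorem lt_kk (n : ℕ) : n < 36 * kk n + 36 := by
  unfold kk
  have := Nat.div_add_mod n 36
  have h2 := Nat.mod_lt n (show 36 > 0 by norm_num)
  omega

theorem poly_le (n : ℕ) : ((36 * kk n + 1) * (2 * kk n + 1) : ℝ) ≤ ((n : ℝ) + 1) ^ 2 := by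
  have h1 : (36 * kk n : ℝ) ≤ n := by exact_mod_cast kk_le n
  have h0 : (0 : ℝ) ≤ kk n := Nat.cast_nonneg _
  rw [sq]
  apply mul_le_mul <;> linarith

/-- Circuits of determinants. -/
theorem circuit_unc {s : ℕ} (k : ℕ) (D : DetCircuit ℝ n s) (c : ℝ) (d : Fin s → ℝ)
    (hd : ∀ j, d j ≠ 0 → D.depth j ≤ k + 1) :
    Uncorrelated mu tmat (C c + ∑ j, C (d j) * D.poly j)
      (((n : ℝ) + 1) ^ 2 * (s + 2) ^ (k + 1) *
        Real.exp (-((n : ℝ) ^ (1 / ((k : ℝ) + 1)) / 200))) := by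
  classical
  set L : ℝ := (n : ℝ) ^ (1 / ((k : ℝ) + 1)) / 200 with hL
  have hs0 : (0 : ℝ) ≤ s := Nat.cast_nonneg s
  have hs2 : (2 : ℝ) ≤ ((s : ℝ) + 2) ^ (k + 1) := by
    have h1 : ((s : ℝ) + 2) ^ 1 ≤ ((s : ℝ) + 2) ^ (k + 1) :=
      pow_le_pow_right₀ (by linarith) (by omega)
    linarith
  have hexpL := Real.exp_pos L
  have htriv : Real.exp L ≤ ((n : ℝ) + 1) ^ 2 * ((s : ℝ) + 2) ^ (k + 1) →
      Uncorrelated mu tmat (C c + ∑ j, C (d j) * D.poly j)
        (((n : ℝ) + 1) ^ 2 * (s + 2) ^ (k + 1) * Real.exp (-L)) := by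
    intro h
    refine (unc_triv _).mono mu_nonneg ?_
    rw [Real.exp_neg, ← div_eq_mul_inv, one_le_div hexpL]
    exact h
  rcases Nat.eq_zero_or_pos n with hn0 | hnpos
  · -- the trivial case `n = 0`
    apply htriv
    have h1 : L = 0 := by
      rw [hL, hn0, Nat.cast_zero, Real.zero_rpow (by positivity)]; simp
    rw [h1, Real.exp_zero, hn0, Nat.cast_zero]
    linarith
  have hn1 : (1 : ℝ) ≤ n := by exact_mod_cast hnpos
  by_cases hL1 : L < 1
  · -- the trivial case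
    apply htriv
    have h1 : Real.exp L ≤ Real.exp 1 := Real.exp_le_exp.2 hL1.le
    have h2 := Real.exp_one_lt_d9
    have h3 : (4 : ℝ) ≤ ((n : ℝ) + 1) ^ 2 := by nlinarith
    nlinarith
  push Not at hL1
  have hL0 : 0 ≤ L := by linarith
  -- `n = (200 L) ^ (k + 1)`
  have hnL : (n : ℝ) = 200 ^ (k + 1) * L ^ (k + 1) := by
    have h1 : (200 * L) = (n : ℝ) ^ (1 / ((k : ℝ) + 1)) := by rw [hL]; ring
    rw [← mul_pow, h1, ← Real.rpow_natCast, ← Real.rpow_mul (by positivity)]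
    have h2 : 1 / ((k : ℝ) + 1) * ((k + 1 : ℕ) : ℝ) = 1 := by
      push_cast; field_simp
    rw [h2, Real.rpow_one]
  have hn200 : (200 : ℝ) ≤ n := by
    rw [hnL]
    have h1 : (1 : ℝ) ≤ L ^ (k + 1) := one_le_pow₀ hL1
    have h2 : (200 : ℝ) ^ 1 ≤ 200 ^ (k + 1) := pow_le_pow_right₀ (by norm_num) (by omega)
    nlinarith
  set q : ℕ := ⌈162 * L⌉₊ with hq
  set h : ℕ := ⌈22 * L⌉₊ with hh
  set p : ℕ := ⌈27 * L⌉₊ with hp
  have hq1 : 162 * L ≤ q := Nat.le_ceil _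
  have hh1 : 22 * L ≤ h := Nat.le_ceil _
  have hp1 : 27 * L ≤ p := Nat.le_ceil _
  have hq2 : (q : ℝ) ≤ 163 * L := by
    have := (Nat.ceil_lt_add_one (show 0 ≤ 162 * L by positivity)).le
    linarith
  have hh2 : (h : ℝ) ≤ 23 * L := by
    have := (Nat.ceil_lt_add_one (show 0 ≤ 22 * L by positivity)).le
    linarith
  have hp2 : (p : ℝ) ≤ 28 * L := by
    have := (Nat.ceil_lt_add_one (show 0 ≤ 27 * L by positivity)).le
    linarith
  have hqN : 2 ≤ q := by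
    have : (2 : ℝ) ≤ q := by linarith
    exact_mod_cast this
  have hpN : 2 ≤ p := by
    have : (2 : ℝ) ≤ p := by linarith
    exact_mod_cast this
  have b1 : (161 / 162 : ℝ) ^ q ≤ Real.exp (-L) :=
    pow_le_exp_neg (b := 162) (by norm_num) (by norm_num) (by norm_num) q hq1
  have b2 : (103 / 108 : ℝ) ^ h ≤ Real.exp (-L) :=
    pow_le_exp_neg (b := 108 / 5) (by norm_num) (by norm_num) (by norm_num) h (by linarith)
  have b3 : (26 / 27 : ℝ) ^ p ≤ Real.exp (-L) :=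
    pow_le_exp_neg (b := 27) (by norm_num) (by norm_num) (by norm_num) p hp1
  -- there are enough rows
  have hrho : ((rho q h p k + h : ℕ) : ℝ) ≤ 37 / 100 * n := by
    have h1 := rho_le q h p hqN k
    have h2 : ((rho q h p k + h : ℕ) : ℝ) ≤ ((q ^ k * (p + 2 * h) : ℕ) : ℝ) := by
      exact_mod_cast (by omega : rho q h p k + h ≤ q ^ k * (p + 2 * h))
    refine h2.trans ?_
    push_cast
    have h3 : (q : ℝ) ^ k ≤ 200 ^ k * L ^ k := by
      rw [← mul_pow]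
      exact pow_le_pow_left₀ (Nat.cast_nonneg q) (by linarith) k
    have h4 : (p : ℝ) + 2 * h ≤ 74 * L := by linarith
    calc (q : ℝ) ^ k * ((p : ℝ) + 2 * h) ≤ (200 ^ k * L ^ k) * (74 * L) :=
          mul_le_mul h3 h4 (by positivity) (by positivity)
      _ = 37 / 100 * (200 ^ (k + 1) * L ^ (k + 1)) := by rw [pow_succ, pow_succ]; ring
      _ = 37 / 100 * n := by rw [← hnL]
  have hnN : 200 ≤ n := by exact_mod_cast hn200
  have henough : rho q h p k + h ≤ 36 * kk n := by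
    have h1 : (n : ℝ) < ((36 * kk n : ℕ) : ℝ) + 36 := by exact_mod_cast lt_kk n
    have h2 : ((rho q h p k + h : ℕ) : ℝ) ≤ ((36 * kk n : ℕ) : ℝ) := by linarith
    exact_mod_cast h2
  have hout := output_bound D (NN n) (Real.exp (-L)) (Real.exp_pos _) q h p b1 b2 b3 hpN (by omega) k
    (by rw [card_NN]; exact henough) c d hd
  refine (unc_main hout).mono mu_nonneg ?_
  have h1 := poly_le n
  have h2 : 0 ≤ ((s : ℝ) + 2) ^ (k + 1) * Real.exp (-L) := by positivity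
  calc ((s : ℝ) + 2) ^ (k + 1) * Real.exp (-L) * ((36 * kk n + 1) * (2 * kk n + 1)) ≤
      ((s : ℝ) + 2) ^ (k + 1) * Real.exp (-L) * ((n : ℝ) + 1) ^ 2 :=
        mul_le_mul_of_nonneg_left h1 h2
    _ = _ := by ring

/-- Sums of networks. -/
theorem net_unc {w z q s : ℕ} (hq : 1 ≤ q) (hw : w ≤ 2 ^ q) (hz : 10 ^ 6 * q ^ 2 ≤ z)
    (Φ : Fin s → Net ℝ n 1) (hΦ : ∀ i, (Φ i).Valid w z) :
    Uncorrelated mu tmat (∑ i, (Φ i).poly 0)
      (2 * ((n : ℝ) + 1) ^ 2 * s * Real.exp (-((n : ℝ) / (8 * z)))) := by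
  classical
  have hz6 : 10 ^ 6 ≤ z := by nlinarith
  have hz0 : (10 ^ 6 : ℝ) ≤ z := by exact_mod_cast hz6
  have h1 := Bd.sum Finset.univ fun i _ => Net.bd hq hw hz (NN n) (Φ i) (hΦ i)
  have h2 := unc_main (p := ∑ i, (Φ i).poly 0) (h1.congr fun lam o u v => by
    simp [valP, map_sum])
  rw [Finset.sum_const, nsmul_eq_mul, Finset.card_univ, Fintype.card_fin, card_NN] at h2
  refine h2.mono mu_nonneg ?_
  have hk0 : (0 : ℝ) ≤ kk n := Nat.cast_nonneg _
  have hkn : (36 * kk n : ℝ) ≤ n := by exact_mod_cast kk_le n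
  have hkn' : (n : ℝ) < 36 * kk n + 36 := by exact_mod_cast lt_kk n
  have hs0 : (0 : ℝ) ≤ s := Nat.cast_nonneg s
  have h3 : Real.exp (1 / 8 - rh z * ((36 * kk n : ℕ) : ℝ)) ≤
      7 / 6 * Real.exp (-((n : ℝ) / (8 * z))) := by
    rw [Real.exp_neg, ← div_eq_mul_inv, le_div_iff₀ (Real.exp_pos _), ← Real.exp_add]
    refine le_trans (Real.exp_le_exp.2 ?_) exp_quarter
    have h4 : rh z * ((36 * kk n : ℕ) : ℝ) = 36 * kk n / (8 * z) := by
      unfold rh; push_cast; field_simp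
    rw [h4]
    have h5 : (n : ℝ) / (8 * z) - 36 * kk n / (8 * z) ≤ 1 / 1000 := by
      rw [← sub_div, div_le_div_iff₀ (by linarith) (by norm_num)]
      linarith
    linarith
  have h4 := poly_le n
  have hE := Real.exp_pos (-((n : ℝ) / (8 * z)))
  calc (s : ℝ) * (4 / 3 * Real.exp (1 / 8 - rh z * ((36 * kk n : ℕ) : ℝ))) *
        ((36 * kk n + 1) * (2 * kk n + 1))
      ≤ (s : ℝ) * (4 / 3 * (7 / 6 * Real.exp (-((n : ℝ) / (8 * z))))) * ((n : ℝ) + 1) ^ 2 := by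
        refine mul_le_mul (mul_le_mul_of_nonneg_left (mul_le_mul_of_nonneg_left h3 (by norm_num))
          hs0) h4 (by positivity) (by positivity)
    _ ≤ _ := by
        have h6 : 0 ≤ (s : ℝ) * Real.exp (-((n : ℝ) / (8 * z))) * ((n : ℝ) + 1) ^ 2 := by positivity
        nlinarith

/-- The cube root form. -/
theorem net_unc_cube {w s : ℕ} (hw : 1 ≤ w)
    (Φ : Fin s → Net ℝ n 1) (hΦ : ∀ i, (Φ i).Valid w (10 ^ 6)) :
    Uncorrelated mu tmat (∑ i, (Φ i).poly 0)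
      (2 * ((n : ℝ) + 1) ^ 2 * (s * w) * Real.exp (-((n : ℝ) ^ (1 / 3 : ℝ) / 300))) := by
  obtain ⟨q, hq, hwq, hqw⟩ : ∃ q : ℕ, 1 ≤ q ∧ w ≤ 2 ^ q ∧ 2 ^ q ≤ 2 * w := by
    rcases Nat.lt_or_ge 1 w with h | h
    · refine ⟨Nat.clog 2 w, Nat.clog_pos (by norm_num) h, Nat.le_pow_clog (by norm_num) w, ?_⟩
      have h1 := Nat.pow_pred_clog_lt_self (b := 2) (by norm_num) h
      have h2 : Nat.clog 2 w = (Nat.clog 2 w).pred + 1 :=
        (Nat.succ_pred_eq_of_pos (Nat.clog_pos (by norm_num) h)).symm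
      rw [h2, pow_succ]
      omega
    · exact ⟨1, le_rfl, by omega, by omega⟩
  have h1 := net_unc (n := n) hq hwq (z := 10 ^ 6 * q ^ 2) le_rfl Φ
    (fun i => (hΦ i).mono le_rfl (by nlinarith))
  set x := (n : ℝ) ^ (1 / 3 : ℝ) with hx
  have hx0 : 0 ≤ x := by positivity
  have hx3 : x ^ 3 = n := by
    rw [hx, ← Real.rpow_natCast, ← Real.rpow_mul (Nat.cast_nonneg _)]
    norm_num
  have hq0 : (1 : ℝ) ≤ q := by exact_mod_cast hq
  have hw0 : (1 : ℝ) ≤ w := by exact_mod_cast hw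
  have hs0 : (0 : ℝ) ≤ s := Nat.cast_nonneg s
  have hn1 : (1 : ℝ) ≤ ((n : ℝ) + 1) ^ 2 := by
    have : (0 : ℝ) ≤ n := Nat.cast_nonneg n
    nlinarith
  have hA : (0 : ℝ) ≤ 2 * ((n : ℝ) + 1) ^ 2 * s := by positivity
  by_cases hcase : (q : ℝ) ≤ x / 180
  · refine h1.mono mu_nonneg ?_
    have h2 : x / 300 ≤ (n : ℝ) / (8 * ((10 ^ 6 * q ^ 2 : ℕ) : ℝ)) := by
      push_cast
      rw [← hx3, div_le_div_iff₀ (by norm_num) (by positivity)]
      have h3 : (q : ℝ) ^ 2 ≤ (x / 180) ^ 2 := pow_le_pow_left₀ (by linarith) hcase 2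
      have h4 : x * (8 * (10 ^ 6 * (q : ℝ) ^ 2)) ≤ x * (8 * (10 ^ 6 * (x / 180) ^ 2)) := by
        gcongr
      have h5 : x * (8 * (10 ^ 6 * (x / 180) ^ 2)) = x ^ 3 * (8 * 10 ^ 6 / 32400) := by ring
      have h6 : 0 ≤ x ^ 3 := by positivity
      rw [h5] at h4
      nlinarith
    have h7 : Real.exp (-((n : ℝ) / (8 * ((10 ^ 6 * q ^ 2 : ℕ) : ℝ)))) ≤ Real.exp (-(x / 300)) :=
      Real.exp_le_exp.2 (neg_le_neg h2)
    refine mul_le_mul ?_ h7 (Real.exp_pos _).le (by positivity)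
    calc 2 * ((n : ℝ) + 1) ^ 2 * s ≤ 2 * ((n : ℝ) + 1) ^ 2 * s * w := le_mul_of_one_le_right hA hw0
      _ = _ := by ring
  · push Not at hcase
    rcases Nat.eq_zero_or_pos s with h0 | h0
    · subst h0
      refine h1.mono mu_nonneg (le_of_eq ?_)
      simp
    · have hs1 : (1 : ℝ) ≤ s := by exact_mod_cast h0
      refine (unc_triv _).mono mu_nonneg ?_
      rw [Real.exp_neg, ← div_eq_mul_inv, one_le_div (Real.exp_pos _)]
      have h2 : Real.exp (x / 300) ≤ 2 ^ q := by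
        have h3 : (2 : ℝ) ^ q = Real.exp (Real.log 2 * q) := by
          rw [← Real.rpow_natCast, Real.rpow_def_of_pos (by norm_num)]
        rw [h3, Real.exp_le_exp]
        have := Real.log_two_gt_d9
        nlinarith
      have h3 : (2 : ℝ) ^ q ≤ 2 * w := by exact_mod_cast hqw
      calc Real.exp (x / 300) ≤ 2 * w := h2.trans h3
        _ ≤ 2 * w * (((n : ℝ) + 1) ^ 2 * s) := by
            refine le_mul_of_one_le_right (by linarith) ?_
            nlinarith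
        _ = _ := by ring

/-- Formulas with determinant gates. -/
theorem formula_unc (δ : ℝ) (hδ : 0 < δ) (hδ1 : δ ≤ 1)
    (hn : Real.exp (100000 / δ) ≤ n) (t : ℕ) (htn : (t : ℝ) ≤ (n : ℝ) ^ (1 - δ))
    (Φ : Formula ℝ n) (hΦ : Φ.RowDisjoint t) :
    Uncorrelated mu tmat Φ.poly ((Φ.size + 1) / (n : ℝ) ^ (δ / 10000 * Real.log n)) := by
  classical
  -- leaves with at least one row
  obtain ⟨t', ht', htn', hΦ'⟩ : ∃ t' : ℕ, 1 ≤ t' ∧ (t' : ℝ) ≤ (n : ℝ) ^ (1 - δ) ∧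
      Φ.RowDisjoint t' := by
    rcases Nat.eq_zero_or_pos t with h0 | h0
    · refine ⟨1, le_rfl, ?_, hΦ.mono (by omega)⟩
      have h1 : (1 : ℝ) ≤ n := by
        have h2 := Real.add_one_le_exp (100000 / δ)
        have h3 : 0 < 100000 / δ := by positivity
        linarith
      rw [Nat.cast_one]
      exact Real.one_le_rpow h1 (by linarith)
    · exact ⟨t, h0, htn, hΦ⟩
  have hph := phi_pos t'
  have hph' := phi_pos (36 * kk n)
  have hk1 : 1 ≤ (phi t')⁻¹ := (one_le_inv₀ (phi_pos t')).2 (phi_le_one t')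
  have hbd : Bd (NN n) ((Φ.size + 1) * (phi t')⁻¹ * phi (36 * kk n)) (valP (NN n) Φ.poly) := by
    by_cases hne : (Φ.rows ∩ NN n).Nonempty
    · have h1 := (formula_bound (NN n) t' ht' Φ hΦ' hne).lift_phi (by positivity)
        Finset.inter_subset_right hne
      rw [card_NN] at h1
      refine h1.mono ?_
      have h2 : 0 ≤ (phi t')⁻¹ * phi (36 * kk n) := by positivity
      nlinarith
    · have he : Φ.rows ∩ NN n = ∅ := Finset.not_nonempty_iff_eq_empty.1 hne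
      have h1 := Bd.const_phi (S := NN n) (he ▸ locF_val (NN n) Φ)
      rw [card_NN] at h1
      refine h1.mono ?_
      have h3 : (1 : ℝ) ≤ (Φ.size + 1) * (phi t')⁻¹ := by
        have : (0 : ℝ) ≤ Φ.size := Nat.cast_nonneg _
        nlinarith
      calc phi (36 * kk n) = 1 * phi (36 * kk n) := (one_mul _).symm
        _ ≤ _ := mul_le_mul_of_nonneg_right h3 hph'.le
  refine (unc_main hbd).mono mu_nonneg ?_
  set P : ℝ := (36 * kk n + 1) * (2 * kk n + 1) with hP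
  have hP0 : 0 < P := by rw [hP]; positivity
  set G : ℝ := (phi t')⁻¹ * phi (36 * kk n) with hG
  have hG0 : 0 < G := mul_pos (inv_pos.2 hph) hph'
  -- the threshold
  have h1 := asymptotic δ hδ hδ1 n hn t' ht' htn' (1 / (P * G) - 1) (by
    have h2 : (1 / (P * G) - 1 + 1) * (phi t')⁻¹ * phi (36 * (n / 36)) = 1 / P := by
      have h3 : (1 / (P * G) - 1 + 1) * (phi t')⁻¹ * phi (36 * (n / 36)) = 1 / (P * G) * G := by
        have h4 : phi (36 * (n / 36)) = phi (36 * kk n) := rfl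
        rw [h4, mul_assoc, hG]
        ring
      rw [h3]
      field_simp
    rw [h2]
    exact le_of_eq rfl)
  set E : ℝ := (n : ℝ) ^ (δ / 10000 * Real.log n) with hE
  have hn0 : (0 : ℝ) < n := lt_of_lt_of_le (Real.exp_pos _) hn
  have hE0 : 0 < E := Real.rpow_pos_of_pos hn0 _
  have h2 : E ≤ 1 / (P * G) := by linarith
  have hs0 : (0 : ℝ) ≤ Φ.size := Nat.cast_nonneg _
  have h3 : P * G ≤ 1 / E := by
    rw [le_div_iff₀ hE0]
    rw [le_div_iff₀ (mul_pos hP0 hG0)] at h2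
    linarith
  calc (Φ.size + 1) * (phi t')⁻¹ * phi (36 * kk n) * P = (Φ.size + 1) * (P * G) := by
        rw [hG]; ring
    _ ≤ (Φ.size + 1) * (1 / E) := mul_le_mul_of_nonneg_left h3 (by linarith)
    _ = _ := by ring

end

end Pool.Agent.W942.Av
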