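import Mathlib

/-!
# A Hadamard matrix of order 36
-/

set_option autoImplicit false

namespace Pool.Agent.W942.Av

open Finset

/-- Quadratic character modulo `17`. -/
def chi (a : ZMod 17) : ℤ :=
  if a = 0 then 0 else if a = 1 ∨ a = 2 ∨ a = 4 ∨ a = 8 ∨ a = 9 ∨ a = 13 ∨ a = 15 ∨ a = 16 then 1
  else -1

/-- Paley's conference matrix of order `18`. -/
def conf (i j : Fin 18) : ℤ :=
  if i = j then 0 else if i = 0 ∨ j = 0 then 1 else chi ((i.1 : ZMod 17) - (j.1 : ZMod 17))

/-- Paley's Hadamard matrix of order `36`, built from the conference matrix. -/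
def had (x y : Fin 18 × Bool) : ℤ :=
  let d : ℤ := if x.1 = y.1 then 1 else 0
  match x.2, y.2 with
  | false, false => conf x.1 y.1 + d
  | true, true => - conf x.1 y.1 - d
  | _, _ => conf x.1 y.1 - d

theorem had_entries : ∀ x y : Fin 18 × Bool, had x y = -1 ∨ had x y = 1 := by
  decide +kernel

theorem had_orth : ∀ x y : Fin 18 × Bool,
    ∑ t : Fin 18 × Bool, had t x * had t y = if x = y then 36 else 0 := by
  decide +kernel

end Pool.Agent.W942.Av
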