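import Pool.Agent.W942.PerC
import Pool.Agent.W942.AvH

/-!
# Matrices with entries `0, 1, -1` whose permanents form a Hadamard matrix
-/

set_option autoImplicit false
set_option maxHeartbeats 1000000

namespace Pool.Agent.W942.Av

open Finset Pool.Agent.W942

variable {k : ℕ} {ρ : Type*} [Fintype ρ] [DecidableEq ρ]

/-- As `Ymat`, but with arbitrary vectors `y b` in the place of the second unit rows. -/
def Zmat {k : ℕ} {ρ : Type*} [DecidableEq ρ] (a : Fin k → Pos) (y : Fin k → Pos → ℤ) :
    Matrix (Idx k ρ) (Idx k ρ) ℤ := fun x c =>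
  match x with
  | Sum.inr z => if c = Sum.inr z then 1 else 0
  | Sum.inl (b, (j, s)) =>
    if j = 0 then (if s then (match c with
        | Sum.inl (b', p) => if b' = b then y b p else 0
        | Sum.inr _ => 0) else (if c = Sum.inl (b, a b) then 1 else 0))
    else (if c = Sum.inl (b, (j, false)) ∨ c = Sum.inl (b, (j, true)) then 1
      else if c = Sum.inl (b, (0, false)) ∨ c = Sum.inl (b, (0, true)) then (if s then -1 else 1)
      else 0)

omit [Fintype ρ] in
theorem Zmat_entries (a : Fin k → Pos) (y : Fin k → Pos → ℤ)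
    (hy : ∀ b p, y b p = -1 ∨ y b p = 0 ∨ y b p = 1) (x c : Idx k ρ) :
    Zmat a y x c = -1 ∨ Zmat a y x c = 0 ∨ Zmat a y x c = 1 := by
  unfold Zmat
  rcases x with ⟨b, j, s⟩ | z
  · simp only
    by_cases hj : j = 0
    · rw [if_pos hj]
      cases s
      · simp only [Bool.false_eq_true, if_false]
        split_ifs <;> simp
      · simp only [if_true]
        rcases c with ⟨b', p⟩ | c
        · simp only
          split_ifs
          · exact hy b p
          · simp
        · simp
    · rw [if_neg hj]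
      split_ifs <;> simp
  · simp only
    split_ifs <;> simp

theorem Zmat_row_inr (a : Fin k → Pos) (y : Fin k → Pos → ℤ) (z : ρ) (d : Idx k ρ → Bool) :
    ∑ c, (Zmat a y (Sum.inr z) c : ℝ) * sg (d c) = sg (d (Sum.inr z)) := by
  simp [Zmat]

theorem Zmat_row_zero (a : Fin k → Pos) (y : Fin k → Pos → ℤ) (b : Fin k) (d : Idx k ρ → Bool) :
    ∑ c, (Zmat a y (Sum.inl (b, (0, false))) c : ℝ) * sg (d c) = sg (d (Sum.inl (b, a b))) := by
  simp only [Zmat, if_true, Bool.false_eq_true, if_false]
  simp only [Int.cast_ite, Int.cast_one, Int.cast_zero, ite_mul, one_mul, zero_mul]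
  rw [Finset.sum_ite_eq' Finset.univ]
  simp

theorem Zmat_row_one (a : Fin k → Pos) (y : Fin k → Pos → ℤ) (b : Fin k) (d : Idx k ρ → Bool) :
    ∑ c, (Zmat a y (Sum.inl (b, (0, true))) c : ℝ) * sg (d c) =
      ∑ p : Pos, (y b p : ℝ) * sg (d (Sum.inl (b, p))) := by
  rw [Fintype.sum_sum_type, Fintype.sum_prod_type]
  have h1 : ∑ z : ρ, (Zmat a y (Sum.inl (b, (0, true))) (Sum.inr z) : ℝ) * sg (d (Sum.inr z)) = 0 :=
    Finset.sum_eq_zero fun z _ => by simp [Zmat]
  rw [h1, add_zero, Finset.sum_eq_single b]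
  · refine Finset.sum_congr rfl fun p _ => ?_
    simp [Zmat]
  · intro b' _ hb
    refine Finset.sum_eq_zero fun p _ => ?_
    simp [Zmat, hb]
  · intro h; exact absurd (Finset.mem_univ _) h

theorem Zmat_row_pair (a : Fin k → Pos) (y : Fin k → Pos → ℤ) (b : Fin k) (j : Fin 18)
    (hj : j ≠ 0) (s : Bool) (d : Idx k ρ → Bool) :
    ∑ c, (Zmat a y (Sum.inl (b, (j, s))) c : ℝ) * sg (d c) =
      sg (d (Sum.inl (b, (j, false)))) + sg (d (Sum.inl (b, (j, true)))) +
      (if s then -1 else 1) * (sg (d (Sum.inl (b, (0, false)))) + sg (d (Sum.inl (b, (0, true))))) := by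
  rw [← Ymat_row_pair a a b j hj s d]
  refine Finset.sum_congr rfl fun c _ => ?_
  simp only [Zmat, Ymat, if_neg hj]

theorem permanent_Zmat (a : Fin k → Pos) (y : Fin k → Pos → ℤ) :
    (Zmat (ρ := ρ) a y).permanent = ∏ b, ∑ p : Pos, y b p * mz (a b) p := by
  have hreal : ((Zmat (ρ := ρ) a y).map (Int.castRingHom ℝ)).permanent =
      ∏ b, ∑ p : Pos, (y b p : ℝ) * (mz (a b) p : ℝ) := by
    rw [permanent_eq_es]
    have h1 : ∀ d : Idx k ρ → Bool, ∏ x, (sg (d x) * ∑ c, ((Zmat (ρ := ρ) a y).map
        (Int.castRingHom ℝ)) x c * sg (d c)) = ∏ b : Fin k, ∑ p : Pos, (y b p : ℝ) *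
          ∑ e : Bool, ∏ j, hv e j (a b) p
          (d (Sum.inl (b, (j, false)))) (d (Sum.inl (b, (j, true)))) := by
      intro d
      simp only [Matrix.map_apply, eq_intCast]
      rw [Fintype.prod_sum_type]
      have h2 : ∏ z : ρ, (sg (d (Sum.inr z)) * ∑ c, (Zmat (ρ := ρ) a y (Sum.inr z) c : ℝ) *
          sg (d c)) = 1 := by
        refine Finset.prod_eq_one fun z _ => ?_
        rw [Zmat_row_inr, sg_sq]
      rw [h2, mul_one, Fintype.prod_prod_type]
      refine Finset.prod_congr rfl fun b _ => ?_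
      rw [Fintype.prod_prod_type, ← Finset.mul_prod_erase _ _ (Finset.mem_univ (0 : Fin 18))]
      have h9 : ∏ j ∈ Finset.univ.erase (0 : Fin 18), ∏ s : Bool,
          (sg (d (Sum.inl (b, (j, s)))) * ∑ c, (Zmat a y (Sum.inl (b, (j, s))) c : ℝ) * sg (d c)) =
          ∏ j ∈ Finset.univ.erase (0 : Fin 18),
          (2 * (1 - (sg (d (Sum.inl (b, (0, false)))) * sg (d (Sum.inl (b, (0, true))))) *
            (sg (d (Sum.inl (b, (j, false)))) * sg (d (Sum.inl (b, (j, true))))))) := by
        refine Finset.prod_congr rfl fun j hj => ?_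
        rw [Fintype.prod_bool, Zmat_row_pair _ _ _ _ (Finset.ne_of_mem_erase hj),
          Zmat_row_pair _ _ _ _ (Finset.ne_of_mem_erase hj)]
        have e1 := sg_sq (d (Sum.inl (b, (j, false))))
        have e2 := sg_sq (d (Sum.inl (b, (j, true))))
        have e3 := sg_sq (d (Sum.inl (b, ((0 : Fin 18), false))))
        have e4 := sg_sq (d (Sum.inl (b, ((0 : Fin 18), true))))
        simp only [if_true]
        set x := sg (d (Sum.inl (b, (j, false))))
        set y := sg (d (Sum.inl (b, (j, true))))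
        set z := sg (d (Sum.inl (b, ((0 : Fin 18), false))))
        set w := sg (d (Sum.inl (b, ((0 : Fin 18), true))))
        have h5 : (y * (x + y + -1 * (z + w)) * (x * (x + y + 1 * (z + w)))) =
          x * y * (x * x + y * y + 2 * (x * y) - z * z - w * w - 2 * (z * w)) := by ring
        have h6 : (if (false = true) then (-1 : ℝ) else 1) = 1 := by simp
        rw [h6, h5, e1, e2, e3, e4]
        have h7 : x * y * (1 + 1 + 2 * (x * y) - 1 - 1 - 2 * (z * w)) =
          2 * ((x * x) * (y * y) - z * w * (x * y)) := by ring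
        rw [h7, e1, e2]
        ring
      rw [h9, Fintype.prod_bool, Zmat_row_zero, Zmat_row_one]
      have h10 : ∀ p : Pos, ∑ e : Bool, ∏ j, hv e j (a b) p
          (d (Sum.inl (b, (j, false)))) (d (Sum.inl (b, (j, true)))) =
          (sg (d (Sum.inl (b, (0, false)))) * sg (d (Sum.inl (b, (0, true))))) *
          ((sg (d (Sum.inl (b, a b)))) * (sg (d (Sum.inl (b, p))))) *
        ∏ j ∈ Finset.univ.erase (0 : Fin 18),
          (2 * (1 - (sg (d (Sum.inl (b, (0, false)))) * sg (d (Sum.inl (b, (0, true))))) *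
            (sg (d (Sum.inl (b, (j, false)))) * sg (d (Sum.inl (b, (j, true))))))) := fun p =>
        hv_zero_prod (a b) p (fun j s => d (Sum.inl (b, (j, s))))
      simp only [h10]
      rw [Finset.sum_congr rfl (fun p _ => show (y b p : ℝ) *
          ((sg (d (Sum.inl (b, (0, false)))) * sg (d (Sum.inl (b, (0, true))))) *
          ((sg (d (Sum.inl (b, a b)))) * (sg (d (Sum.inl (b, p))))) *
        ∏ j ∈ Finset.univ.erase (0 : Fin 18),
          (2 * (1 - (sg (d (Sum.inl (b, (0, false)))) * sg (d (Sum.inl (b, (0, true))))) *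
            (sg (d (Sum.inl (b, (j, false)))) * sg (d (Sum.inl (b, (j, true)))))))) =
          ((y b p : ℝ) * sg (d (Sum.inl (b, p)))) *
          ((sg (d (Sum.inl (b, (0, false)))) * sg (d (Sum.inl (b, (0, true))))) *
          (sg (d (Sum.inl (b, a b)))) *
        ∏ j ∈ Finset.univ.erase (0 : Fin 18),
          (2 * (1 - (sg (d (Sum.inl (b, (0, false)))) * sg (d (Sum.inl (b, (0, true))))) *
            (sg (d (Sum.inl (b, (j, false)))) * sg (d (Sum.inl (b, (j, true)))))))) from by ring),
        ← Finset.sum_mul]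
      ring
    simp only [h1]
    have h3 := es_prod (ι := Idx k ρ) (Finset.univ : Finset (Fin k))
      (fun b => Finset.univ.filter fun x : Idx k ρ => ∃ p, x = Sum.inl (b, p))
      (fun b _ b' _ hbb => by
        rw [Finset.disjoint_left]
        intro x hx hx'
        obtain ⟨p, hp⟩ := (Finset.mem_filter.1 hx).2
        obtain ⟨p', hp'⟩ := (Finset.mem_filter.1 hx').2
        rw [hp] at hp'
        exact hbb (congrArg Prod.fst (Sum.inl_injective hp')))
      (fun b d => ∑ p : Pos, (y b p : ℝ) * ∑ e : Bool, ∏ j, hv e j (a b) p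
          (d (Sum.inl (b, (j, false)))) (d (Sum.inl (b, (j, true)))))
      (fun b _ d d' h => by
        refine Finset.sum_congr rfl fun p _ => ?_
        congr 1
        refine Finset.sum_congr rfl fun e _ => Finset.prod_congr rfl fun j _ => ?_
        rw [h _ (Finset.mem_filter.2 ⟨Finset.mem_univ _, _, rfl⟩),
          h _ (Finset.mem_filter.2 ⟨Finset.mem_univ _, _, rfl⟩)])
    rw [h3]
    refine Finset.prod_congr rfl fun b _ => ?_
    rw [es_sum]
    refine Finset.sum_congr rfl fun p _ => ?_
    rw [es_const_mul, es_sum, ← mm_val]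
    congr 1
    refine Finset.sum_congr rfl fun e _ => ?_
    have h4 := es_prod (ι := Idx k ρ) (Finset.univ : Finset (Fin 18))
      (fun j => Finset.univ.filter fun x : Idx k ρ => ∃ s, x = Sum.inl (b, (j, s)))
      (fun j _ j' _ hjj => by
        rw [Finset.disjoint_left]
        intro x hx hx'
        obtain ⟨p, hp⟩ := (Finset.mem_filter.1 hx).2
        obtain ⟨p', hp'⟩ := (Finset.mem_filter.1 hx').2
        rw [hp] at hp'
        exact hjj (congrArg (fun z => z.2.1) (Sum.inl_injective hp')))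
      (fun j d => hv e j (a b) p (d (Sum.inl (b, (j, false)))) (d (Sum.inl (b, (j, true)))))
      (fun j _ d d' h => by
        have k1 := h (Sum.inl (b, (j, false))) (Finset.mem_filter.2 ⟨Finset.mem_univ _, _, rfl⟩)
        have k2 := h (Sum.inl (b, (j, true))) (Finset.mem_filter.2 ⟨Finset.mem_univ _, _, rfl⟩)
        simp only [k1, k2])
    rw [h4]
    refine Finset.prod_congr rfl fun j _ => ?_
    exact es_two (Sum.inl (b, (j, false)) : Idx k ρ) (Sum.inl (b, (j, true))) (by simp)
      (fun s t => hv e j (a b) p s t)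
  rw [permanent_map'] at hreal
  have h5 : ((Zmat (ρ := ρ) a y).permanent : ℝ) =
      ((∏ b, ∑ p : Pos, y b p * mz (a b) p : ℤ) : ℝ) := by
    push_cast
    rw [← hreal]
    rfl
  exact_mod_cast h5

/-- The sum over the partner only. -/
theorem sum_mz (z : Pos → ℤ) (q : Pos) : ∑ p : Pos, z p * mz q p = z (sw q) * mz q (sw q) := by
  refine Finset.sum_eq_single (sw q) (fun p _ hp => ?_) fun h => absurd (Finset.mem_univ _) h
  have h1 : mz q p = 0 := by
    have h2 : q ≠ sw p := by
      intro h
      apply hp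
      rw [h]
      unfold sw
      simp
    have h3 := mz_sw_ne h2
    have h4 : sw (sw p) = p := by unfold sw; simp
    rwa [h4] at h3
  rw [h1, mul_zero]

/-- The vectors of the second rows. -/
def hrow (t : Fin k → Pos) (b : Fin k) (p : Pos) : ℤ := had (t b) (sw p)

theorem permanent_Zmat_had (a t : Fin k → Pos) :
    (Zmat (ρ := ρ) a (hrow t)).permanent = ∏ b, had (t b) (a b) * mz (a b) (sw (a b)) := by
  rw [permanent_Zmat]
  refine Finset.prod_congr rfl fun b _ => ?_
  rw [sum_mz]
  have : sw (sw (a b)) = a b := by unfold sw; simp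
  rw [hrow, this]

theorem mz_sw_sq (p : Pos) : mz p (sw p) ^ 2 = (2 ^ 17) ^ 2 := by
  unfold mz sw
  have h2 : p.2 ≠ !p.2 := by cases p.2 <;> simp
  rw [if_pos ⟨rfl, h2⟩]
  split_ifs
  · rfl
  · rw [neg_sq]

theorem had_sq (x y : Pos) : had x y ^ 2 = 1 := by
  rcases had_entries x y with h | h <;> rw [h] <;> norm_num

theorem permanent_Zmat_had_sq (a t : Fin k → Pos) :
    (Zmat (ρ := ρ) a (hrow t)).permanent ^ 2 = (2 ^ (17 * k)) ^ 2 := by
  rw [permanent_Zmat_had, ← Finset.prod_pow]
  rw [Finset.prod_congr rfl fun b _ => by rw [mul_pow, had_sq, mz_sw_sq, one_mul]]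
  rw [Finset.prod_const, Finset.card_univ, Fintype.card_fin, ← pow_mul, ← pow_mul, ← pow_mul]
  congr 1
  ring

/-- The rows of the matrix of permanents are orthogonal. -/
theorem had_gram (a a' : Fin k → Pos) :
    ∑ t : Fin k → Pos, (Zmat (ρ := ρ) a (hrow t)).permanent * (Zmat (ρ := ρ) a' (hrow t)).permanent =
      if a = a' then (2 ^ (17 * k)) ^ 2 * 36 ^ k else 0 := by
  simp only [permanent_Zmat_had]
  have h1 : ∀ t : Fin k → Pos, (∏ b, had (t b) (a b) * mz (a b) (sw (a b))) *
      ∏ b, had (t b) (a' b) * mz (a' b) (sw (a' b)) =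
      (∏ b, mz (a b) (sw (a b)) * mz (a' b) (sw (a' b))) *
        ∏ b, had (t b) (a b) * had (t b) (a' b) := by
    intro t
    rw [← Finset.prod_mul_distrib, ← Finset.prod_mul_distrib]
    exact Finset.prod_congr rfl fun b _ => by ring
  rw [Finset.sum_congr rfl fun t _ => h1 t, ← Finset.mul_sum]
  have h2 : ∑ t : Fin k → Pos, ∏ b, had (t b) (a b) * had (t b) (a' b) =
      ∏ b, ∑ x : Pos, had x (a b) * had x (a' b) := by
    rw [Finset.prod_univ_sum, Fintype.piFinset_univ]
  rw [h2, Finset.prod_congr rfl fun b _ => had_orth (a b) (a' b)]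
  by_cases h : a = a'
  · subst h
    rw [if_pos rfl]
    simp only [if_true]
    rw [Finset.prod_congr rfl fun b _ => by rw [← sq, mz_sw_sq]]
    rw [Finset.prod_const, Finset.prod_const, Finset.card_univ, Fintype.card_fin, ← pow_mul,
      ← pow_mul, ← pow_mul]
    congr 2
    ring
  · rw [if_neg h]
    obtain ⟨b, hb⟩ := Function.ne_iff.1 h
    exact mul_eq_zero_of_right _ (Finset.prod_eq_zero (Finset.mem_univ b) (if_neg hb))

end Pool.Agent.W942.Av
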