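import Mathlib

/-!
# Binomial averages
-/

set_option autoImplicit false

namespace Pool.Agent.W942

open Finset

/-- The average of `h m` for a binomially distributed `m` with parameters `t`, `p`. -/
noncomputable def bin (p : ℝ) : ℕ → (ℕ → ℝ) → ℝ
  | 0, h => h 0
  | t + 1, h => (1 - p) * bin p t h + p * bin p t (fun m => h (m + 1))

theorem bin_mono {p : ℝ} (h0 : 0 ≤ p) (h1 : p ≤ 1) (t : ℕ) {h h' : ℕ → ℝ}
    (hh : ∀ m ≤ t, h m ≤ h' m) : bin p t h ≤ bin p t h' := by
  induction t generalizing h h' with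
  | zero => exact hh 0 le_rfl
  | succ t ih =>
    exact add_le_add (mul_le_mul_of_nonneg_left (ih fun m hm => hh m (by omega)) (by linarith))
      (mul_le_mul_of_nonneg_left (ih fun m hm => hh _ (by omega)) h0)

theorem bin_add (p : ℝ) (t : ℕ) (h h' : ℕ → ℝ) :
    bin p t (fun m => h m + h' m) = bin p t h + bin p t h' := by
  induction t generalizing h h' with
  | zero => rfl
  | succ t ih =>
    simp only [bin]
    rw [ih, ih (fun m => h (m + 1)) (fun m => h' (m + 1))]
    ring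

theorem bin_mul (p : ℝ) (t : ℕ) (c : ℝ) (h : ℕ → ℝ) :
    bin p t (fun m => c * h m) = c * bin p t h := by
  induction t generalizing h with
  | zero => rfl
  | succ t ih =>
    simp only [bin]
    rw [ih, ih (fun m => h (m + 1))]
    ring

theorem bin_const (p : ℝ) (t : ℕ) (c : ℝ) : bin p t (fun _ => c) = c := by
  induction t with
  | zero => rfl
  | succ t ih => simp only [bin, ih]; ring

theorem bin_eq (p : ℝ) (t : ℕ) (h : ℕ → ℝ) :
    bin p t h = ∑ m ∈ Finset.range (t + 1), (t.choose m : ℝ) * p ^ m * (1 - p) ^ (t - m) * h m := by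
  induction t generalizing h with
  | zero => simp [bin]
  | succ t ih =>
    simp only [bin]
    rw [ih, ih (fun m => h (m + 1)), Finset.sum_range_succ' _ (t + 1)]
    have h1 : ∑ m ∈ Finset.range (t + 1), ((t + 1).choose (m + 1) : ℝ) * p ^ (m + 1) *
        (1 - p) ^ (t + 1 - (m + 1)) * h (m + 1) =
        p * ∑ m ∈ Finset.range (t + 1), (t.choose m : ℝ) * p ^ m * (1 - p) ^ (t - m) * h (m + 1) +
        ∑ m ∈ Finset.range (t + 1), (t.choose (m + 1) : ℝ) * p ^ (m + 1) *
        (1 - p) ^ (t - m) * h (m + 1) := by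
      rw [Finset.mul_sum, ← Finset.sum_add_distrib]
      refine Finset.sum_congr rfl fun m hm => ?_
      rw [Nat.choose_succ_succ, Nat.add_sub_add_right]
      push_cast
      ring
    have h3 : ∑ m ∈ Finset.range (t + 1), (t.choose (m + 1) : ℝ) * p ^ (m + 1) *
        (1 - p) ^ (t - m) * h (m + 1) = ∑ m ∈ Finset.range t, (t.choose (m + 1) : ℝ) * p ^ (m + 1) *
        (1 - p) ^ (t - m) * h (m + 1) := by
      rw [Finset.sum_range_succ, Nat.choose_succ_self]
      simp
    rw [h1, h3, Finset.sum_range_succ' _ t]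
    have h2 : (1 - p) * (∑ k ∈ Finset.range t, (t.choose (k + 1) : ℝ) * p ^ (k + 1) *
        (1 - p) ^ (t - (k + 1)) * h (k + 1)) = ∑ m ∈ Finset.range t, (t.choose (m + 1) : ℝ) *
        p ^ (m + 1) * (1 - p) ^ (t - m) * h (m + 1) := by
      rw [Finset.mul_sum]
      refine Finset.sum_congr rfl fun m hm => ?_
      have : t - m = (t - (m + 1)) + 1 := by have := Finset.mem_range.1 hm; omega
      rw [this, pow_succ]
      ring
    rw [mul_add, h2]
    simp only [Nat.choose_zero_right,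
      pow_zero, Nat.sub_zero, Nat.cast_one, one_mul, mul_one, pow_succ]
    ring

theorem bin_zero_event (p : ℝ) (t : ℕ) :
    bin p t (fun m => if m = 0 then 1 else 0) = (1 - p) ^ t := by
  induction t with
  | zero => simp [bin]
  | succ t ih =>
    simp only [bin, ih, Nat.succ_ne_zero, if_false, bin_const]
    rw [pow_succ]; ring

theorem bin_half_reflect (m : ℕ) (h : ℕ → ℝ) :
    bin (1 / 2) m h = bin (1 / 2) m (fun a => h (m - a)) := by
  rw [bin_eq, bin_eq, ← Finset.sum_range_reflect]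
  refine Finset.sum_congr rfl fun a ha => ?_
  have h1 : a ≤ m := by have := Finset.mem_range.1 ha; omega
  have h2 : m + 1 - 1 - a = m - a := by omega
  rw [h2, Nat.choose_symm h1]
  have h3 : ∀ x y : ℕ, x + y = m → (1 / 2 : ℝ) ^ x * (1 - 1 / 2) ^ y = (1 / 2) ^ m := by
    intro x y hxy
    rw [show (1 - 1 / 2 : ℝ) = 1 / 2 by norm_num, ← pow_add, hxy]
  have h4 := h3 (m - a) (m - (m - a)) (by omega)
  have h5 := h3 a (m - a) (by omega)
  calc _ = (m.choose a : ℝ) * ((1 / 2 : ℝ) ^ (m - a) * (1 - 1 / 2) ^ (m - (m - a))) *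
        h (m - a) := by ring
    _ = (m.choose a : ℝ) * ((1 / 2 : ℝ) ^ a * (1 - 1 / 2) ^ (m - a)) * h (m - a) := by
        rw [h4, h5]
    _ = _ := by ring

/-- An even number of fair coins is balanced with probability at most `1/2`. -/
theorem bin_balanced_le (m : ℕ) (hm : m ≠ 0) :
    bin (1 / 2) m (fun a => if 2 * a = m then 1 else 0) ≤ 1 / 2 := by
  obtain ⟨m, rfl⟩ := Nat.exists_eq_succ_of_ne_zero hm
  simp only [bin, Nat.succ_eq_add_one]
  have h1 : bin (1 / 2) m (fun a => (if 2 * a = m + 1 then (1 : ℝ) else 0) +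
      if 2 * (a + 1) = m + 1 then 1 else 0) ≤ bin (1 / 2) m (fun _ => 1) := by
    refine bin_mono (by norm_num) (by norm_num) m fun a _ => ?_
    split_ifs with h2 h3
    · omega
    · norm_num
    · norm_num
    · norm_num
  rw [bin_const, bin_add] at h1
  linarith

theorem central_sq (h : ℕ) :
    (Nat.centralBinom h : ℝ) ^ 2 * (2 * h + 1) ≤ (4 : ℝ) ^ (2 * h) := by
  induction h with
  | zero => simp
  | succ h ih =>
    have h1 := Nat.succ_mul_centralBinom_succ h
    have h2 : ((h : ℝ) + 1) * (Nat.centralBinom (h + 1) : ℝ) =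
        2 * (2 * h + 1) * (Nat.centralBinom h : ℝ) := by exact_mod_cast h1
    have h3 : (0 : ℝ) < (h + 1 : ℝ) ^ 2 := by positivity
    have h4 : ((h : ℝ) + 1) ^ 2 * ((Nat.centralBinom (h + 1) : ℝ) ^ 2 * (2 * (h + 1 : ℕ) + 1)) ≤
        ((h : ℝ) + 1) ^ 2 * (4 : ℝ) ^ (2 * (h + 1)) := by
      calc _ = (((h : ℝ) + 1) * (Nat.centralBinom (h + 1) : ℝ)) ^ 2 * (2 * h + 3) := by
            push_cast; ring
        _ = ((Nat.centralBinom h : ℝ) ^ 2 * (2 * h + 1)) * (4 * (2 * h + 1) * (2 * h + 3)) := by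
            rw [h2]; ring
        _ ≤ (4 : ℝ) ^ (2 * h) * (4 * (2 * h + 1) * (2 * h + 3)) :=
            mul_le_mul_of_nonneg_right ih (by positivity)
        _ ≤ (4 : ℝ) ^ (2 * h) * (16 * ((h : ℝ) + 1) ^ 2) := by
            refine mul_le_mul_of_nonneg_left ?_ (by positivity)
            nlinarith
        _ = _ := by rw [mul_add, pow_add]; ring
    exact le_of_mul_le_mul_left h4 h3

theorem choose_half_sq (m : ℕ) :
    (m.choose (m / 2) : ℝ) ^ 2 * (m + 1) ≤ (4 : ℝ) ^ m := by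
  rcases Nat.even_or_odd' m with ⟨h, rfl | rfl⟩
  · have h1 := central_sq h
    have h2 : 2 * h / 2 = h := by omega
    rw [h2, ← Nat.centralBinom_eq_two_mul_choose]
    push_cast
    exact h1
  · have h1 := central_sq (h + 1)
    have h2 : (2 * h + 1) / 2 = h := by omega
    have h3 : Nat.centralBinom (h + 1) = 2 * (2 * h + 1).choose h := by
      rw [Nat.centralBinom_eq_two_mul_choose, show 2 * (h + 1) = (2 * h + 1) + 1 by ring,
        Nat.choose_succ_succ, Nat.choose_symm_half]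
      ring
    rw [h3] at h1
    rw [h2]
    push_cast at h1 ⊢
    have h4 : (4 : ℝ) ^ (2 * (h + 1)) = 4 * 4 ^ (2 * h + 1) := by
      rw [show 2 * (h + 1) = (2 * h + 1) + 1 by ring, pow_succ]; ring
    rw [h4] at h1
    nlinarith [sq_nonneg ((2 * h + 1).choose h : ℝ)]

theorem choose_le_div (m a : ℕ) :
    (m.choose a : ℝ) * (1 / 2) ^ m ≤ 1 / Real.sqrt (m + 1) := by
  have h1 : (m.choose a : ℝ) ≤ (m.choose (m / 2) : ℝ) := by
    exact_mod_cast Nat.choose_le_middle a m
  have h2 := choose_half_sq m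
  have h3 : (0 : ℝ) < m + 1 := by positivity
  have h4 : (m.choose (m / 2) : ℝ) * Real.sqrt (m + 1) ≤ 2 ^ m := by
    have h5 : ((m.choose (m / 2) : ℝ) * Real.sqrt (m + 1)) ^ 2 ≤ ((2 : ℝ) ^ m) ^ 2 := by
      rw [mul_pow, Real.sq_sqrt h3.le, ← pow_mul, mul_comm m 2, pow_mul]
      norm_num
      exact h2
    exact (pow_le_pow_iff_left₀ (by positivity) (by positivity) (by norm_num)).1 h5
  rw [le_div_iff₀ (Real.sqrt_pos.2 h3)]
  calc (m.choose a : ℝ) * (1 / 2) ^ m * Real.sqrt (m + 1)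
      ≤ (m.choose (m / 2) : ℝ) * (1 / 2) ^ m * Real.sqrt (m + 1) := by gcongr
    _ = ((m.choose (m / 2) : ℝ) * Real.sqrt (m + 1)) * (1 / 2) ^ m := by ring
    _ ≤ 2 ^ m * (1 / 2) ^ m := by gcongr
    _ = 1 := by rw [← mul_pow]; norm_num

/-- `E (1 / (m + 1)) ≤ 1 / ((t + 1) p)` -/
theorem bin_inv_le {p : ℝ} (h0 : 0 < p) (h1 : p ≤ 1) (t : ℕ) :
    bin p t (fun m => 1 / ((m : ℝ) + 1)) ≤ 1 / ((t + 1) * p) := by
  have h2 := bin_eq p (t + 1) (fun _ => 1)
  rw [bin_const, Finset.sum_range_succ' _ (t + 1)] at h2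
  have h3 : ∑ m ∈ Finset.range (t + 1), ((t + 1).choose (m + 1) : ℝ) * p ^ (m + 1) *
      (1 - p) ^ (t + 1 - (m + 1)) * 1 ≤ 1 := by
    have : (0 : ℝ) ≤ ((t + 1).choose 0 : ℝ) * p ^ 0 * (1 - p) ^ (t + 1 - 0) * 1 := by
      have : (0 : ℝ) ≤ 1 - p := by linarith
      positivity
    refine le_trans (le_add_of_nonneg_right this) h2.symm.le
  have h4 : bin p t (fun m => 1 / ((m : ℝ) + 1)) * ((t + 1) * p) =
      ∑ m ∈ Finset.range (t + 1), ((t + 1).choose (m + 1) : ℝ) * p ^ (m + 1) *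
      (1 - p) ^ (t + 1 - (m + 1)) * 1 := by
    rw [bin_eq, Finset.sum_mul]
    refine Finset.sum_congr rfl fun m hm => ?_
    have h5 : ((t : ℝ) + 1) * (t.choose m : ℝ) = ((t + 1).choose (m + 1) : ℝ) * (m + 1) := by
      exact_mod_cast Nat.add_one_mul_choose_eq t m
    have h6 : (m : ℝ) + 1 ≠ 0 := by positivity
    rw [Nat.add_sub_add_right]
    field_simp
    rw [pow_succ]
    linear_combination (p ^ m * p * (1 - p) ^ (t - m)) * h5
  rw [le_div_iff₀ (by positivity), h4]
  exact h3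

theorem bin_inv_sqrt_le {p : ℝ} (h0 : 0 < p) (h1 : p ≤ 1) (t : ℕ) :
    bin p t (fun m => 1 / Real.sqrt (m + 1)) ≤ 1 / Real.sqrt ((t + 1) * p) := by
  set y : ℝ := 1 / Real.sqrt ((t + 1) * p) with hy
  have hpos : (0 : ℝ) < (t + 1) * p := by positivity
  have hy0 : 0 < y := by positivity
  have hyy : y * y = 1 / ((t + 1) * p) := by
    rw [hy, div_mul_div_comm, Real.mul_self_sqrt hpos.le, one_mul]
  have h2 : bin p t (fun m => 1 / Real.sqrt (m + 1)) ≤
      bin p t (fun m => (1 / (2 * y)) * (1 / ((m : ℝ) + 1)) + y / 2) := by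
    refine bin_mono h0.le h1 t fun m _ => ?_
    have hm : (0 : ℝ) < (m : ℝ) + 1 := by positivity
    set x : ℝ := 1 / Real.sqrt (m + 1) with hx
    have hxx : x * x = 1 / ((m : ℝ) + 1) := by
      rw [hx, div_mul_div_comm, Real.mul_self_sqrt hm.le, one_mul]
    rw [← hxx]
    have h3 : 1 / (2 * y) * (x * x) + y / 2 - x = (x - y) ^ 2 / (2 * y) := by
      field_simp; ring
    have h4 : 0 ≤ (x - y) ^ 2 / (2 * y) := by positivity
    linarith
  refine h2.trans ?_
  rw [bin_add, bin_mul, bin_const]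
  have h5 := bin_inv_le h0 h1 t
  rw [← hyy] at h5
  have h6 : 1 / (2 * y) * bin p t (fun m => 1 / ((m : ℝ) + 1)) ≤ 1 / (2 * y) * (y * y) :=
    mul_le_mul_of_nonneg_left h5 (by positivity)
  have h7 : 1 / (2 * y) * (y * y) = y / 2 := by field_simp
  linarith

end Pool.Agent.W942
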