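import Mathlib

/-!
# Independent random labels

Every row gets the label `+` or `-` with probability `1/36` each and `0` with probability `17/18`.
-/

set_option autoImplicit false

namespace Pool.Agent.W942

open Finset

/-- The probabilities of the three labels. -/
noncomputable def wt (x : SignType) : ℝ := if x = 0 then 17 / 18 else 1 / 36

theorem wt_nonneg (x : SignType) : 0 ≤ wt x := by
  unfold wt; split_ifs <;> norm_num

theorem wt_sum : ∑ x, wt x = 1 := by
  have : (Finset.univ : Finset SignType) = {0, -1, 1} := rfl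
  rw [this]
  rw [Finset.sum_insert (by decide), Finset.sum_insert (by decide), Finset.sum_singleton]
  simp [wt]
  norm_num

variable {n : ℕ}

/-- Expectation. -/
noncomputable def ex (F : (Fin n → SignType) → ℝ) : ℝ := ∑ lam, (∏ i, wt (lam i)) * F lam

/-- `F` depends on the labels of the rows in `R` only. -/
def Dep (R : Finset (Fin n)) (F : (Fin n → SignType) → ℝ) : Prop :=
  ∀ lam mu, (∀ i ∈ R, lam i = mu i) → F lam = F mu

theorem Dep.mono {R S : Finset (Fin n)} {F : (Fin n → SignType) → ℝ} (h : Dep R F) (hRS : R ⊆ S) :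
    Dep S F := fun lam mu hl => h lam mu fun i hi => hl i (hRS hi)

theorem Dep.const (R : Finset (Fin n)) (c : ℝ) : Dep R (fun _ => c) := fun _ _ _ => rfl

theorem Dep.add {R : Finset (Fin n)} {F G : (Fin n → SignType) → ℝ} (hF : Dep R F) (hG : Dep R G) :
    Dep R (fun lam => F lam + G lam) := fun lam mu h => by
  show F lam + G lam = F mu + G mu
  rw [hF lam mu h, hG lam mu h]

theorem Dep.mul {R : Finset (Fin n)} {F G : (Fin n → SignType) → ℝ} (hF : Dep R F) (hG : Dep R G) :
    Dep R (fun lam => F lam * G lam) := fun lam mu h => by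
  show F lam * G lam = F mu * G mu
  rw [hF lam mu h, hG lam mu h]

theorem Dep.sum {ι : Type*} (s : Finset ι) {R : Finset (Fin n)} {F : ι → (Fin n → SignType) → ℝ}
    (h : ∀ i ∈ s, Dep R (F i)) : Dep R (fun lam => ∑ i ∈ s, F i lam) := fun lam mu hl =>
  Finset.sum_congr rfl fun i hi => h i hi lam mu hl

theorem Dep.prod {ι : Type*} (s : Finset ι) {R : Finset (Fin n)} {F : ι → (Fin n → SignType) → ℝ}
    (h : ∀ i ∈ s, Dep R (F i)) : Dep R (fun lam => ∏ i ∈ s, F i lam) := fun lam mu hl =>
  Finset.prod_congr rfl fun i hi => h i hi lam mu hl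

theorem ex_mono {F G : (Fin n → SignType) → ℝ} (h : ∀ lam, F lam ≤ G lam) : ex F ≤ ex G :=
  Finset.sum_le_sum fun lam _ =>
    mul_le_mul_of_nonneg_left (h lam) (Finset.prod_nonneg fun _ _ => wt_nonneg _)

theorem ex_nonneg {F : (Fin n → SignType) → ℝ} (h : ∀ lam, 0 ≤ F lam) : 0 ≤ ex F :=
  Finset.sum_nonneg fun lam _ =>
    mul_nonneg (Finset.prod_nonneg fun _ _ => wt_nonneg _) (h lam)

theorem ex_add (F G : (Fin n → SignType) → ℝ) : ex (fun lam => F lam + G lam) = ex F + ex G := by
  simp [ex, mul_add, Finset.sum_add_distrib]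

theorem ex_sum {ι : Type*} (s : Finset ι) (F : ι → (Fin n → SignType) → ℝ) :
    ex (fun lam => ∑ i ∈ s, F i lam) = ∑ i ∈ s, ex (F i) := by
  simp only [ex, Finset.mul_sum]
  exact Finset.sum_comm

theorem ex_const_mul (c : ℝ) (F : (Fin n → SignType) → ℝ) :
    ex (fun lam => c * F lam) = c * ex F := by
  simp only [ex, Finset.mul_sum]
  exact Finset.sum_congr rfl fun _ _ => by ring

theorem ex_mul_const (c : ℝ) (F : (Fin n → SignType) → ℝ) :
    ex (fun lam => F lam * c) = ex F * c := by
  simp only [ex, Finset.sum_mul]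
  exact Finset.sum_congr rfl fun _ _ => by ring

theorem sum_prod_wt (ι : Type*) [Fintype ι] [DecidableEq ι] :
    ∑ lam : ι → SignType, ∏ i, wt (lam i) = 1 := by
  have := (Finset.prod_univ_sum (fun _ : ι => (Finset.univ : Finset SignType))
    (fun _ x => wt x)).symm
  rw [Fintype.piFinset_univ] at this
  rw [this]
  simp [wt_sum]

theorem ex_const (c : ℝ) : ex (n := n) (fun _ => c) = c := by
  simp only [ex, ← Finset.sum_mul]
  rw [sum_prod_wt, one_mul]

/-- Functions of disjoint sets of rows are independent. -/
theorem ex_mul {R S : Finset (Fin n)} (hRS : Disjoint R S) {F G : (Fin n → SignType) → ℝ}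
    (hF : Dep R F) (hG : Dep S G) : ex (fun lam => F lam * G lam) = ex F * ex G := by
  classical
  obtain ⟨p, hp⟩ : ∃ p : Fin n → Prop, ∀ i, p i ↔ i ∈ R := ⟨_, fun i => Iff.rfl⟩
  let e := Equiv.piEquivPiSubtypeProd p (fun _ => SignType)
  have hw : ∀ x y, ∏ i, wt (e.symm (x, y) i) = (∏ i, wt (x i)) * ∏ i, wt (y i) := by
    intro x y
    rw [← Fintype.prod_subtype_mul_prod_subtype p]
    congr 1
    · refine Finset.prod_congr rfl fun i _ => ?_
      congr 1
      have : e (e.symm (x, y)) = (x, y) := e.apply_symm_apply _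
      exact congrFun (congrArg Prod.fst this) i
    · refine Finset.prod_congr rfl fun i _ => ?_
      congr 1
      have : e (e.symm (x, y)) = (x, y) := e.apply_symm_apply _
      exact congrFun (congrArg Prod.snd this) i
  have hx : ∀ x y i, i ∈ R → ∀ y', e.symm (x, y) i = e.symm (x, y') i := by
    intro x y i hi y'
    have h1 : e (e.symm (x, y)) = (x, y) := e.apply_symm_apply _
    have h2 : e (e.symm (x, y')) = (x, y') := e.apply_symm_apply _
    exact (congrFun (congrArg Prod.fst h1) ⟨i, (hp i).2 hi⟩).trans
      (congrFun (congrArg Prod.fst h2) ⟨i, (hp i).2 hi⟩).symm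
  have hy : ∀ x y i, i ∉ R → ∀ x', e.symm (x, y) i = e.symm (x', y) i := by
    intro x y i hi x'
    have h1 : e (e.symm (x, y)) = (x, y) := e.apply_symm_apply _
    have h2 : e (e.symm (x', y)) = (x', y) := e.apply_symm_apply _
    exact (congrFun (congrArg Prod.snd h1) ⟨i, fun h => hi ((hp i).1 h)⟩).trans
      (congrFun (congrArg Prod.snd h2) ⟨i, fun h => hi ((hp i).1 h)⟩).symm
  have hF' : ∀ x y, F (e.symm (x, y)) = F (e.symm (x, fun _ => 0)) := fun x y =>
    hF _ _ fun i hi => hx x y i hi _
  have hG' : ∀ x y, G (e.symm (x, y)) = G (e.symm (fun _ => 0, y)) := fun x y =>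
    hG _ _ fun i hi => hy x y i (fun h => Finset.disjoint_left.1 hRS h hi) _
  have key : ∀ H : (Fin n → SignType) → ℝ, ex H = ∑ x, ∑ y,
      ((∏ i, wt (x i)) * ∏ i, wt (y i)) * H (e.symm (x, y)) := by
    intro H
    rw [ex, ← e.symm.sum_comp, Fintype.sum_prod_type]
    exact Finset.sum_congr rfl fun x _ => Finset.sum_congr rfl fun y _ => by rw [hw]
  have h1 : ex F = ∑ x : ((i : {i // p i}) → SignType), (∏ i, wt (x i)) *
      F (e.symm (x, fun _ => 0)) := by
    rw [key]
    refine Finset.sum_congr rfl fun x _ => ?_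
    calc _ = ∑ y : ((i : {i // ¬ p i}) → SignType),
        (∏ i, wt (y i)) * ((∏ i, wt (x i)) * F (e.symm (x, fun _ => 0))) :=
          Finset.sum_congr rfl fun y _ => by rw [hF']; ring
      _ = _ := by rw [← Finset.sum_mul, sum_prod_wt, one_mul]
  have h2 : ex G = ∑ y : ((i : {i // ¬ p i}) → SignType), (∏ i, wt (y i)) *
      G (e.symm (fun _ => 0, y)) := by
    rw [key, Finset.sum_comm]
    refine Finset.sum_congr rfl fun y _ => ?_
    calc _ = ∑ x : ((i : {i // p i}) → SignType),
        (∏ i, wt (x i)) * ((∏ i, wt (y i)) * G (e.symm (fun _ => 0, y))) :=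
          Finset.sum_congr rfl fun x _ => by rw [hG']; ring
      _ = _ := by rw [← Finset.sum_mul, sum_prod_wt, one_mul]
  rw [h1, h2, key, Finset.sum_mul_sum]
  refine Finset.sum_congr rfl fun x _ => Finset.sum_congr rfl fun y _ => ?_
  rw [hF', hG']
  ring

theorem ex_prod {ι : Type*} [DecidableEq ι] (s : Finset ι) (R : ι → Finset (Fin n))
    (hR : ∀ i ∈ s, ∀ j ∈ s, i ≠ j → Disjoint (R i) (R j)) (F : ι → (Fin n → SignType) → ℝ)
    (hF : ∀ i ∈ s, Dep (R i) (F i)) :
    ex (fun lam => ∏ i ∈ s, F i lam) = ∏ i ∈ s, ex (F i) := by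
  induction s using Finset.induction_on with
  | empty => simp [ex_const]
  | insert a s ha ih =>
    rw [Finset.prod_insert ha, ← ih (fun i hi j hj => hR i (Finset.mem_insert_of_mem hi) j
      (Finset.mem_insert_of_mem hj)) (fun i hi => hF i (Finset.mem_insert_of_mem hi))]
    have h1 : Disjoint (R a) (s.biUnion R) := by
      rw [Finset.disjoint_biUnion_right]
      intro i hi
      exact hR a (Finset.mem_insert_self a s) i (Finset.mem_insert_of_mem hi)
        (fun h => ha (h ▸ hi))
    rw [← ex_mul h1 (hF a (Finset.mem_insert_self a s))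
      (Dep.prod s fun i hi => (hF i (Finset.mem_insert_of_mem hi)).mono
        (Finset.subset_biUnion_of_mem R hi))]
    congr 1
    funext lam
    rw [Finset.prod_insert ha]

/-- Conditioning on the label of one row. -/
theorem ex_update (r : Fin n) (F : (Fin n → SignType) → ℝ) :
    ex F = 17 / 18 * ex (fun lam => F (Function.update lam r 0)) +
      1 / 36 * ex (fun lam => F (Function.update lam r 1)) +
      1 / 36 * ex (fun lam => F (Function.update lam r (-1))) := by
  have hone : ∀ x : SignType, ex (n := n) (fun lam => if lam r = x then 1 else 0) = wt x := by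
    intro x
    have h1 : ∀ x : SignType, ex (n := n) (fun lam => if lam r = x then 1 else 0) =
        ∑ lam : Fin n → SignType, ∏ i, (wt (lam i) * if i = r then (if lam i = x then 1 else 0)
          else 1) := by
      intro x
      refine Finset.sum_congr rfl fun lam _ => ?_
      rw [Finset.prod_mul_distrib]
      congr 1
      rw [Finset.prod_eq_single r]
      · simp
      · intro i _ hi; simp [hi]
      · intro h; exact absurd (Finset.mem_univ _) h
    rw [h1]
    have h2 := (Finset.prod_univ_sum (fun _ : Fin n => (Finset.univ : Finset SignType))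
      (fun i y => wt y * if i = r then (if y = x then 1 else 0) else 1)).symm
    rw [Fintype.piFinset_univ] at h2
    rw [h2, Finset.prod_eq_single r]
    · simp
    · intro i _ hi
      simp [hi, wt_sum]
    · intro h; exact absurd (Finset.mem_univ _) h
  have hsplit : ∀ lam : Fin n → SignType, F lam =
      ∑ x : SignType, (if lam r = x then 1 else 0) * F (Function.update lam r x) := by
    intro lam
    rw [Finset.sum_eq_single (lam r)]
    · simp
    · intro x _ hx; simp [Ne.symm hx]
    · intro h; exact absurd (Finset.mem_univ _) h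
  have h3 : ex F = ∑ x : SignType, wt x * ex (fun lam => F (Function.update lam r x)) := by
    calc ex F = ex (fun lam => ∑ x : SignType, (if lam r = x then 1 else 0) *
          F (Function.update lam r x)) := by
            congr 1; funext lam; exact hsplit lam
      _ = _ := by
        rw [ex_sum]
        refine Finset.sum_congr rfl fun x _ => ?_
        rw [← hone x]
        refine ex_mul (R := {r}) (S := Finset.univ.erase r) (by simp) ?_ ?_
        · intro lam mu h
          simp only
          rw [h r (Finset.mem_singleton_self r)]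
        · intro lam mu h
          simp only
          congr 1
          funext i
          by_cases hi : i = r
          · subst hi; simp
          · simp [Function.update_of_ne hi, h i (Finset.mem_erase.2 ⟨hi, Finset.mem_univ _⟩)]
  rw [h3]
  have : (Finset.univ : Finset SignType) = {0, 1, -1} := by decide
  rw [this, Finset.sum_insert (by decide), Finset.sum_insert (by decide), Finset.sum_singleton]
  simp only [wt, if_true]
  rw [if_neg (by decide), if_neg (by decide)]
  ring

end Pool.Agent.W942
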