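import Pool.Agent.W942.Bin
import Pool.Agent.W942.Expect

/-!
# The numbers of `+` and `-` labels in a set of rows
-/

set_option autoImplicit false

namespace Pool.Agent.W942

open Finset

variable {n : ℕ}

/-- The number of rows in `R` with label `+`. -/
def np (R : Finset (Fin n)) (lam : Fin n → SignType) : ℕ := (R.filter fun i => lam i = 1).card

/-- The number of rows in `R` with label `-`. -/
def nm (R : Finset (Fin n)) (lam : Fin n → SignType) : ℕ := (R.filter fun i => lam i = -1).card

theorem np_congr {R : Finset (Fin n)} {lam mu : Fin n → SignType} (h : ∀ i ∈ R, lam i = mu i) :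
    np R lam = np R mu := by
  unfold np
  congr 1
  exact Finset.filter_congr fun i hi => by rw [h i hi]

theorem nm_congr {R : Finset (Fin n)} {lam mu : Fin n → SignType} (h : ∀ i ∈ R, lam i = mu i) :
    nm R lam = nm R mu := by
  unfold nm
  congr 1
  exact Finset.filter_congr fun i hi => by rw [h i hi]

theorem np_insert {R : Finset (Fin n)} {r : Fin n} (hr : r ∉ R) (lam : Fin n → SignType)
    (x : SignType) : np (insert r R) (Function.update lam r x) =
      np R lam + if x = 1 then 1 else 0 := by
  have h1 : np R (Function.update lam r x) = np R lam := np_congr fun i hi =>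
    Function.update_of_ne (by rintro rfl; exact hr hi) _ _
  rw [← h1]
  unfold np
  rw [Finset.filter_insert]
  simp only [Function.update_self]
  split_ifs with h
  · rw [Finset.card_insert_of_notMem fun h => hr (Finset.mem_filter.1 h).1]
  · simp

theorem nm_insert {R : Finset (Fin n)} {r : Fin n} (hr : r ∉ R) (lam : Fin n → SignType)
    (x : SignType) : nm (insert r R) (Function.update lam r x) =
      nm R lam + if x = -1 then 1 else 0 := by
  have h1 : nm R (Function.update lam r x) = nm R lam := nm_congr fun i hi =>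
    Function.update_of_ne (by rintro rfl; exact hr hi) _ _
  rw [← h1]
  unfold nm
  rw [Finset.filter_insert]
  simp only [Function.update_self]
  split_ifs with h
  · rw [Finset.card_insert_of_notMem fun h => hr (Finset.mem_filter.1 h).1]
  · simp

theorem ex_stats (R : Finset (Fin n)) (f : ℕ → ℕ → ℝ) :
    ex (fun lam => f (np R lam + nm R lam) (np R lam)) =
      bin (1 / 18) R.card (fun m => bin (1 / 2) m (fun a => f m a)) := by
  classical
  induction R using Finset.induction_on generalizing f with
  | empty => simp [np, nm, bin, ex_const]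
  | insert r R hr ih =>
    rw [ex_update r, Finset.card_insert_of_notMem hr]
    simp only [np_insert hr, nm_insert hr, bin]
    rw [if_neg (show ¬ (0 : SignType) = 1 by decide), if_neg (show ¬ (0 : SignType) = -1 by decide),
      if_neg (show ¬ (1 : SignType) = -1 by decide), if_neg (show ¬ (-1 : SignType) = 1 by decide)]
    simp only [add_zero, if_true]
    have i1 := ih f
    have i2 := ih (fun m a => f (m + 1) (a + 1))
    have i3 := ih (fun m a => f (m + 1) a)
    have j2 : ex (fun lam => f (np R lam + 1 + nm R lam) (np R lam + 1)) =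
        ex (fun lam => f (np R lam + nm R lam + 1) (np R lam + 1)) := by
      congr 1; funext lam; rw [Nat.add_right_comm]
    have j3 : ex (fun lam => f (np R lam + (nm R lam + 1)) (np R lam)) =
        ex (fun lam => f (np R lam + nm R lam + 1) (np R lam)) := by
      congr 1
    rw [j2, j3, i1, i2, i3]
    have k1 : bin (1 / 18) R.card (fun m => (1 - 1 / 2) * bin (1 / 2) m (fun a => f (m + 1) a) +
        1 / 2 * bin (1 / 2) m fun a => f (m + 1) (a + 1)) =
        (1 - 1 / 2) * bin (1 / 18) R.card (fun m => bin (1 / 2) m (fun a => f (m + 1) a)) +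
        1 / 2 * bin (1 / 18) R.card (fun m => bin (1 / 2) m fun a => f (m + 1) (a + 1)) := by
      rw [bin_add, bin_mul, bin_mul]
    rw [k1]
    ring

/-- The cost factor of a block of rows with `m` labels `±`, `a` of which are `+`. -/
noncomputable def om (m a : ℕ) : ℝ :=
  if m = 0 then 1 else if m ≤ 2 * a then 4 / 3 * (1 / 6) ^ (Int.natAbs (2 * a - m))
    else 4 * (1 / 6) ^ (Int.natAbs (2 * a - m))

theorem om_nonneg (m a : ℕ) : 0 ≤ om m a := by
  unfold om; split_ifs <;> positivity

theorem om_ge (m a : ℕ) : (1 / 6 : ℝ) ^ (Int.natAbs (2 * a - m)) ≤ om m a := by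
  unfold om
  have h1 : (0 : ℝ) ≤ (1 / 6) ^ (Int.natAbs (2 * a - m)) := by positivity
  split_ifs with h h'
  · exact pow_le_one₀ (by norm_num) (by norm_num)
  · linarith
  · linarith

theorem om_le (m a : ℕ) (ha : a ≤ m) : om m a ≤ 4 * (1 / 6) ^ (Int.natAbs (2 * a - m)) := by
  unfold om
  have h1 : (0 : ℝ) ≤ (1 / 6) ^ (Int.natAbs (2 * a - m)) := by positivity
  split_ifs with h h'
  · subst h
    have : a = 0 := by omega
    subst this
    norm_num
  · linarith
  · linarith

theorem sum_pow_abs (m : ℕ) :
    ∑ a ∈ Finset.range (m + 1), (1 / 6 : ℝ) ^ (Int.natAbs (2 * a - m)) ≤ 2 - (1 / 6) ^ m := by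
  induction m using Nat.strong_induction_on with
  | _ m ih =>
    match m, ih with
    | 0, _ => norm_num
    | 1, _ =>
      rw [Finset.sum_range_succ, Finset.sum_range_succ]
      norm_num
    | m + 2, ih =>
      have h1 := ih m (by omega)
      rw [Finset.sum_range_succ, Finset.sum_range_succ']
      have h2 : ∑ k ∈ Finset.range (m + 1), (1 / 6 : ℝ) ^ (Int.natAbs (2 * ((k + 1 : ℕ) : ℤ) -
          ((m + 2 : ℕ) : ℤ))) = ∑ a ∈ Finset.range (m + 1), (1 / 6 : ℝ) ^ (Int.natAbs (2 * a - m)) := by
        refine Finset.sum_congr rfl fun k _ => ?_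
        congr 2
        push_cast; ring
      rw [h2]
      have h3 : Int.natAbs (2 * ((0 : ℕ) : ℤ) - ((m + 2 : ℕ) : ℤ)) = m + 2 := by omega
      have h4 : Int.natAbs (2 * ((m + 2 : ℕ) : ℤ) - ((m + 2 : ℕ) : ℤ)) = m + 2 := by omega
      rw [h3, h4]
      have h5 : (1 / 6 : ℝ) ^ (m + 2) = (1 / 6) ^ m * (1 / 36) := by rw [pow_add]; norm_num
      rw [h5]
      have h6 : (0 : ℝ) < (1 / 6) ^ m := by positivity
      linarith

theorem om_inner2 (m : ℕ) : bin (1 / 2) m (om m) ≤ 8 * (1 / Real.sqrt (m + 1)) := by
  rw [bin_eq]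
  have h0 : (0 : ℝ) ≤ 1 / Real.sqrt (m + 1) := by positivity
  calc ∑ a ∈ Finset.range (m + 1), (m.choose a : ℝ) * (1 / 2) ^ a * (1 - 1 / 2) ^ (m - a) * om m a
      ≤ ∑ a ∈ Finset.range (m + 1), (1 / Real.sqrt (m + 1)) *
          (4 * (1 / 6 : ℝ) ^ (Int.natAbs (2 * a - m))) := by
        refine Finset.sum_le_sum fun a ha => ?_
        have ha' : a ≤ m := by have := Finset.mem_range.1 ha; omega
        have h1 : (m.choose a : ℝ) * (1 / 2) ^ a * (1 - 1 / 2) ^ (m - a) =
            (m.choose a : ℝ) * (1 / 2) ^ m := by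
          rw [mul_assoc, show (1 - 1 / 2 : ℝ) = 1 / 2 by norm_num, ← pow_add,
            Nat.add_sub_cancel' ha']
        rw [h1]
        exact mul_le_mul (choose_le_div m a) (om_le m a ha') (om_nonneg _ _) h0
    _ = (1 / Real.sqrt (m + 1)) * (4 * ∑ a ∈ Finset.range (m + 1),
          (1 / 6 : ℝ) ^ (Int.natAbs (2 * a - m))) := by
        rw [Finset.mul_sum, Finset.mul_sum]
    _ ≤ (1 / Real.sqrt (m + 1)) * (4 * 2) := by
        have h2 := sum_pow_abs m
        have h3 : (0 : ℝ) ≤ (1 / 6) ^ m := by positivity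
        refine mul_le_mul_of_nonneg_left ?_ h0
        linarith
    _ = _ := by ring

theorem om_inner1 (m : ℕ) (hm : m ≠ 0) : bin (1 / 2) m (om m) ≤ 8 / 9 := by
  set z := bin (1 / 2) m (fun a => if 2 * a = m then (1 : ℝ) else 0) with hz
  set s := bin (1 / 2) m (fun a => if m < 2 * a then (1 : ℝ) else 0) with hs
  set s' := bin (1 / 2) m (fun a => if 2 * a < m then (1 : ℝ) else 0) with hs'
  have h1 : bin (1 / 2) m (om m) ≤ bin (1 / 2) m (fun a => (4 / 3 * (if 2 * a = m then (1 : ℝ) else 0) +
      2 / 9 * (if m < 2 * a then (1 : ℝ) else 0)) + 2 / 3 * (if 2 * a < m then (1 : ℝ) else 0)) := by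
    refine bin_mono (by norm_num) (by norm_num) m fun a ha => ?_
    unfold om
    rw [if_neg hm]
    rcases lt_trichotomy (2 * a) m with h | h | h
    · have h2 : 1 ≤ Int.natAbs (2 * a - m) := by omega
      have h3 : (1 / 6 : ℝ) ^ (Int.natAbs (2 * a - m)) ≤ (1 / 6) ^ 1 :=
        pow_le_pow_of_le_one (by norm_num) (by norm_num) h2
      rw [if_neg (by omega), if_neg (by omega), if_neg (by omega), if_pos h]
      linarith
    · rw [if_pos (by omega), if_pos h, if_neg (by omega), if_neg (by omega)]
      have : Int.natAbs (2 * a - m) = 0 := by omega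
      rw [this]; norm_num
    · have h2 : 1 ≤ Int.natAbs (2 * a - m) := by omega
      have h3 : (1 / 6 : ℝ) ^ (Int.natAbs (2 * a - m)) ≤ (1 / 6) ^ 1 :=
        pow_le_pow_of_le_one (by norm_num) (by norm_num) h2
      rw [if_pos (by omega), if_neg (by omega), if_pos h, if_neg (by omega)]
      linarith
  rw [bin_add, bin_add, bin_mul, bin_mul, bin_mul, ← hz, ← hs, ← hs'] at h1
  have h4 : s' = s := by
    rw [hs', bin_half_reflect, hs]
    refine le_antisymm (bin_mono (by norm_num) (by norm_num) m fun a ha => ?_)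
      (bin_mono (by norm_num) (by norm_num) m fun a ha => ?_)
    · by_cases h : m < 2 * a
      · rw [if_pos h]; split_ifs <;> norm_num
      · rw [if_neg h, if_neg (by omega)]
    · by_cases h : m < 2 * a
      · rw [if_pos h, if_pos (by omega)]
      · rw [if_neg h]; split_ifs <;> norm_num
  have h5 : z + s + s' = 1 := by
    rw [hz, hs, hs', ← bin_add, ← bin_add]
    calc _ = bin (1 / 2) m (fun _ => (1 : ℝ)) := by
          congr 1; funext a
          rcases lt_trichotomy (2 * a) m with h | h | h
          · rw [if_neg (by omega), if_neg (by omega), if_pos h]; norm_num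
          · rw [if_pos h, if_neg (by omega), if_neg (by omega)]; norm_num
          · rw [if_neg (by omega), if_pos h, if_neg (by omega)]; norm_num
      _ = 1 := bin_const _ _ _
  have h6 : z ≤ 1 / 2 := bin_balanced_le m hm
  linarith

/-- The expected cost factor of a block with `t` rows. -/
noncomputable def psi (t : ℕ) : ℝ := bin (1 / 18) t (fun m => bin (1 / 2) m (om m))

theorem psi_zero : psi 0 = 1 := by simp [psi, bin, om]

theorem psi_le_one (t : ℕ) (ht : t ≠ 0) : psi t ≤ 161 / 162 := by
  have h1 : psi t ≤ bin (1 / 18) t (fun m => 8 / 9 + 1 / 9 * (if m = 0 then 1 else 0)) := by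
    refine bin_mono (by norm_num) (by norm_num) t fun m _ => ?_
    by_cases hm : m = 0
    · subst hm; simp [bin, om]; norm_num
    · rw [if_neg hm]; have := om_inner1 m hm; linarith
  rw [bin_add, bin_const, bin_mul, bin_zero_event] at h1
  have h2 : (1 - 1 / 18 : ℝ) ^ t ≤ (1 - 1 / 18) ^ 1 :=
    pow_le_pow_of_le_one (by norm_num) (by norm_num) (by omega)
  norm_num at h2 h1 ⊢
  linarith

theorem psi_le_sqrt (t : ℕ) : psi t ≤ 34 / Real.sqrt (t + 1) := by
  have h1 : psi t ≤ bin (1 / 18) t (fun m => 8 * (1 / Real.sqrt (m + 1))) :=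
    bin_mono (by norm_num) (by norm_num) t fun m _ => om_inner2 m
  rw [bin_mul] at h1
  have h2 := bin_inv_sqrt_le (p := 1 / 18) (by norm_num) (by norm_num) t
  have h3 : (0 : ℝ) < t + 1 := by positivity
  have h4 : 8 * (1 / Real.sqrt ((t + 1) * (1 / 18))) ≤ 34 / Real.sqrt (t + 1) := by
    rw [Real.sqrt_mul h3.le, mul_one_div, div_le_div_iff₀ (by positivity) (by positivity)]
    have h5 : 8 ≤ 34 * Real.sqrt (1 / 18) := by
      have : (8 / 34 : ℝ) ≤ Real.sqrt (1 / 18) := Real.le_sqrt_of_sq_le (by norm_num)
      linarith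
    have h6 := Real.sqrt_nonneg ((t : ℝ) + 1)
    nlinarith
  linarith

theorem psi_nonneg (t : ℕ) : 0 ≤ psi t := by
  have h : bin (1 / 18) t (fun _ => (0 : ℝ)) ≤ psi t := by
    refine bin_mono (by norm_num) (by norm_num) t fun m _ => ?_
    have h : bin (1 / 2) m (fun _ => (0 : ℝ)) ≤ bin (1 / 2) m (om m) :=
      bin_mono (by norm_num) (by norm_num) m fun a _ => om_nonneg m a
    rwa [bin_const] at h
  rwa [bin_const] at h

/-- The cost factor of the block `R`. -/
noncomputable def omg (R : Finset (Fin n)) (lam : Fin n → SignType) : ℝ :=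
  om (np R lam + nm R lam) (np R lam)

theorem ex_omg (R : Finset (Fin n)) : ex (omg R) = psi R.card := ex_stats R om

theorem omg_dep (R : Finset (Fin n)) : Dep R (omg R) := fun lam mu h => by
  unfold omg
  rw [np_congr h, nm_congr h]

theorem omg_nonneg (R : Finset (Fin n)) (lam : Fin n → SignType) : 0 ≤ omg R lam := om_nonneg _ _

/-- The cost factor `6 ^ (- number of labels ±)`. -/
noncomputable def sml (R : Finset (Fin n)) (lam : Fin n → SignType) : ℝ :=
  (1 / 6) ^ (np R lam + nm R lam)

theorem sml_dep (R : Finset (Fin n)) : Dep R (sml R) := fun lam mu h => by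
  unfold sml
  rw [np_congr h, nm_congr h]

theorem sml_nonneg (R : Finset (Fin n)) (lam : Fin n → SignType) : 0 ≤ sml R lam := by
  unfold sml; positivity

theorem bin_pow (p x : ℝ) (t : ℕ) : bin p t (fun m => x ^ m) = (1 - p + p * x) ^ t := by
  induction t with
  | zero => simp [bin]
  | succ t ih =>
    simp only [bin, pow_succ]
    have h : bin p t (fun m => x ^ m * x) = x * bin p t (fun m => x ^ m) := by
      rw [← bin_mul]; congr 1; funext m; ring
    rw [h, ih]; ring

theorem ex_sml (R : Finset (Fin n)) : ex (sml R) = (103 / 108) ^ R.card := by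
  have h := ex_stats R (fun m _ => (1 / 6 : ℝ) ^ m)
  simp only [bin_const] at h
  rw [bin_pow] at h
  unfold sml
  rw [h]
  norm_num

end Pool.Agent.W942
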