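import Pool.Agent.W942.DetRk
import Pool.Agent.W942.Stats

/-!
# The rank of a determinant of which every row depends on its own block of labelled rows
-/

set_option autoImplicit false

namespace Pool.Agent.W942

open Finset

variable {K : Type*} [Field K] {n : ℕ}

/-- `M u v` depends only on the `u r` with `r ∈ Q`, `lam r = 1` and the `v r` with `r ∈ Q`,
`lam r = -1`. -/
def Loc {T : Type*} (Q : Finset (Fin n)) (lam : Fin n → SignType)
    (M : (Fin n → Fin 36) → (Fin n → Fin 36) → T) : Prop :=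
  ∀ u u' v v', (∀ r ∈ Q, lam r = 1 → u r = u' r) → (∀ r ∈ Q, lam r = -1 → v r = v' r) →
    M u v = M u' v'

theorem Loc.mono {T : Type*} {Q Q' : Finset (Fin n)} {lam : Fin n → SignType}
    {M : (Fin n → Fin 36) → (Fin n → Fin 36) → T} (h : Loc Q lam M) (hQ : Q ⊆ Q') :
    Loc Q' lam M := fun u u' v v' h1 h2 => h u u' v v' (fun r hr => h1 r (hQ hr))
      (fun r hr => h2 r (hQ hr))

theorem Loc.rk_np {Q : Finset (Fin n)} {lam : Fin n → SignType}
    {M : (Fin n → Fin 36) → (Fin n → Fin 36) → K} (h : Loc Q lam M) :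
    HasRk M (36 ^ (np Q lam)) := by
  have h1 := HasRk.of_left (P := {r // r ∈ Q.filter fun i => lam i = 1} → Fin 36)
    (fun u r => u r) (M := M) (fun u u' v huu' => h u u' v v
      (fun r hr hl => congrFun huu' ⟨r, Finset.mem_filter.2 ⟨hr, hl⟩⟩) (fun _ _ _ => rfl))
  have h2 : Fintype.card ({r // r ∈ Q.filter fun i => lam i = 1} → Fin 36) = 36 ^ np Q lam := by
    rw [Fintype.card_fun, Fintype.card_fin, Fintype.card_coe]; rfl
  rwa [h2] at h1

theorem Loc.rk_nm {Q : Finset (Fin n)} {lam : Fin n → SignType}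
    {M : (Fin n → Fin 36) → (Fin n → Fin 36) → K} (h : Loc Q lam M) :
    HasRk M (36 ^ (nm Q lam)) := by
  have h1 := HasRk.of_right (P := {r // r ∈ Q.filter fun i => lam i = -1} → Fin 36)
    (fun v r => v r) (M := M) (fun u v v' hvv' => h u u v v' (fun _ _ _ => rfl)
      (fun r hr hl => congrFun hvv' ⟨r, Finset.mem_filter.2 ⟨hr, hl⟩⟩))
  have h2 : Fintype.card ({r // r ∈ Q.filter fun i => lam i = -1} → Fin 36) = 36 ^ nm Q lam := by
    rw [Fintype.card_fun, Fintype.card_fin, Fintype.card_coe]; rfl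
  rwa [h2] at h1

/-- The rank bound which holds for every function. -/
theorem Loc.rk {Q : Finset (Fin n)} {lam : Fin n → SignType}
    {M : (Fin n → Fin 36) → (Fin n → Fin 36) → K} (h : Loc Q lam M) :
    HasRkR M (omg Q lam * 6 ^ (np Q lam + nm Q lam)) := by
  have h1 : ∀ k : ℕ, ((36 ^ k : ℕ) : ℝ) = 6 ^ (2 * k) := by
    intro k; push_cast; rw [pow_mul]; norm_num
  have h2 := om_ge (np Q lam + nm Q lam) (np Q lam)
  have h3 : ∀ k : ℕ, k + k = np Q lam + nm Q lam -
      Int.natAbs (2 * (np Q lam : ℤ) - ((np Q lam + nm Q lam : ℕ) : ℤ)) →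
      ((36 ^ k : ℕ) : ℝ) ≤ omg Q lam * 6 ^ (np Q lam + nm Q lam) := by
    intro k hk
    rw [h1]
    have h4 : 2 * k + Int.natAbs (2 * (np Q lam : ℤ) - ((np Q lam + nm Q lam : ℕ) : ℤ)) =
      np Q lam + nm Q lam := by omega
    rw [← h4]
    calc (6 : ℝ) ^ (2 * k) = (1 / 6 : ℝ) ^ (Int.natAbs (2 * (np Q lam : ℤ) -
          ((np Q lam + nm Q lam : ℕ) : ℤ))) * 6 ^ (2 * k + Int.natAbs (2 * (np Q lam : ℤ) -
          ((np Q lam + nm Q lam : ℕ) : ℤ))) := by
          rw [pow_add, one_div, inv_pow, mul_comm ((6 : ℝ) ^ (2 * k)), inv_mul_cancel_left₀]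
          positivity
      _ ≤ _ := mul_le_mul_of_nonneg_right h2 (by positivity)
  rcases le_total (nm Q lam) (np Q lam) with h5 | h5
  · exact ⟨_, h.rk_nm, h3 _ (by omega)⟩
  · exact ⟨_, h.rk_np, h3 _ (by omega)⟩

theorem Loc.rk_one {lam : Fin n → SignType}
    {M : (Fin n → Fin 36) → (Fin n → Fin 36) → K} (h : Loc ∅ lam M) : HasRk M 1 := by
  have := h.rk_np
  simpa [np] using this

/-- The rank of a determinant whose `i`-th row depends on the block `Q i` only. -/
theorem det_block_rk {m : ℕ} (Q : Fin m → Finset (Fin n)) (lam : Fin n → SignType)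
    (E : (Fin n → Fin 36) → (Fin n → Fin 36) → Matrix (Fin m) (Fin m) K)
    (hE : ∀ i, Loc (Q i) lam (fun u v => E u v i)) :
    HasRkR (fun u v => (E u v).det)
      (∏ i, (omg (Q i) lam * 6 ^ (np (Q i) lam + nm (Q i) lam))) := by
  classical
  set A : Finset (Fin m) := Finset.univ.filter fun i => nm (Q i) lam ≤ np (Q i) lam ∧
    np (Q i) lam + nm (Q i) lam ≠ 0 with hA
  set B : Finset (Fin m) := Finset.univ.filter fun i => np (Q i) lam < nm (Q i) lam with hB
  set S : Finset (Fin n) := B.biUnion fun i => (Q i).filter fun r => lam r = 1 with hS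
  set T : Finset (Fin n) := A.biUnion fun i => (Q i).filter fun r => lam r = -1 with hT
  let sub : (S : Finset (Fin n)) → ({r // r ∈ S} → Fin 36) → (Fin n → Fin 36) → Fin n → Fin 36 :=
    fun S p u r => if h : r ∈ S then p ⟨r, h⟩ else u r
  have hAB : Disjoint A B := by
    rw [Finset.disjoint_left]
    intro i hi hi'
    have h1 := (Finset.mem_filter.1 hi).2
    have h2 := (Finset.mem_filter.1 hi').2
    omega
  have hcell : HasRk (fun u v => (E u v).det)
      (Fintype.card ({r // r ∈ S} → Fin 36) * Fintype.card ({r // r ∈ T} → Fin 36) *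
        (A.card + B.card).choose A.card) := by
    refine HasRk.cells (fun (u : Fin n → Fin 36) (r : {r // r ∈ S}) => u r)
      (fun (v : Fin n → Fin 36) (r : {r // r ∈ T}) => v r)
      (fun p q u v => (E (sub S p u) (sub T q v)).det) (fun p q => ?_) (fun u v => ?_)
    · refine det_rk A B hAB _ ?_ ?_ ?_
      · intro i hi u v v'
        refine hE i _ _ _ _ (fun _ _ _ => rfl) (fun r hr hl => ?_)
        have hrT : r ∈ T := Finset.mem_biUnion.2 ⟨i, hi, Finset.mem_filter.2 ⟨hr, hl⟩⟩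
        simp only [sub, hrT, dif_pos]
      · intro i hi u u' v
        refine hE i _ _ _ _ (fun r hr hl => ?_) (fun _ _ _ => rfl)
        have hrS : r ∈ S := Finset.mem_biUnion.2 ⟨i, hi, Finset.mem_filter.2 ⟨hr, hl⟩⟩
        simp only [sub, hrS, dif_pos]
      · intro i hi hi' u u' v v'
        have h1 : np (Q i) lam = 0 ∧ nm (Q i) lam = 0 := by
          have h2 : ¬ (nm (Q i) lam ≤ np (Q i) lam ∧ np (Q i) lam + nm (Q i) lam ≠ 0) :=
            fun h => hi (Finset.mem_filter.2 ⟨Finset.mem_univ _, h⟩)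
          have h3 : ¬ (np (Q i) lam < nm (Q i) lam) :=
            fun h => hi' (Finset.mem_filter.2 ⟨Finset.mem_univ _, h⟩)
          omega
        refine hE i _ _ _ _ (fun r hr hl => ?_) (fun r hr hl => ?_)
        · have h4 := Finset.card_eq_zero.1 h1.1
          exact absurd (h4 ▸ Finset.mem_filter.2 ⟨hr, hl⟩ : r ∈ (∅ : Finset (Fin n))) (by simp)
        · have h4 := Finset.card_eq_zero.1 h1.2
          exact absurd (h4 ▸ Finset.mem_filter.2 ⟨hr, hl⟩ : r ∈ (∅ : Finset (Fin n))) (by simp)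
    · have h5 : sub S (fun r => u r) u = u := by
        funext r
        simp only [sub]
        split_ifs <;> rfl
      have h6 : sub T (fun r => v r) v = v := by
        funext r
        simp only [sub]
        split_ifs <;> rfl
      simp only [h5, h6]
  refine ⟨_, hcell, ?_⟩
  have hSc : S.card ≤ ∑ i ∈ B, np (Q i) lam := Finset.card_biUnion_le
  have hTc : T.card ≤ ∑ i ∈ A, nm (Q i) lam := Finset.card_biUnion_le
  have hcard : ∀ S : Finset (Fin n), Fintype.card ({r // r ∈ S} → Fin 36) = 36 ^ S.card := by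
    intro S
    rw [Fintype.card_fun, Fintype.card_fin, Fintype.card_coe]
  have h6 : ∀ a b : ℕ, b ≤ a → om (a + b) a * (6 : ℝ) ^ (a + b) =
      (if a + b = 0 then 1 else 4 / 3 * (36 : ℝ) ^ b) := by
    intro a b hab
    unfold om
    by_cases h0 : a + b = 0
    · rw [if_pos h0, if_pos h0, h0]; norm_num
    · rw [if_neg h0, if_neg h0, if_pos (by omega)]
      have h1 : Int.natAbs (2 * (a : ℤ) - ((a + b : ℕ) : ℤ)) = a - b := by omega
      rw [h1]
      have h2 : (6 : ℝ) ^ (a + b) = 6 ^ (a - b) * 36 ^ b := by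
        rw [show (36 : ℝ) = 6 ^ 2 by norm_num, ← pow_mul, ← pow_add]
        congr 1; omega
      rw [h2, one_div, inv_pow]
      field_simp
  have h6' : ∀ a b : ℕ, a < b → om (a + b) a * (6 : ℝ) ^ (a + b) = 4 * (36 : ℝ) ^ a := by
    intro a b hab
    unfold om
    rw [if_neg (by omega), if_neg (by omega)]
    have h1 : Int.natAbs (2 * (a : ℤ) - ((a + b : ℕ) : ℤ)) = b - a := by omega
    rw [h1]
    have h2 : (6 : ℝ) ^ (a + b) = 6 ^ (b - a) * 36 ^ a := by
      rw [show (36 : ℝ) = 6 ^ 2 by norm_num, ← pow_mul, ← pow_add]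
      congr 1; omega
    rw [h2, one_div, inv_pow]
    field_simp
  have h7 : (∏ i, (omg (Q i) lam * 6 ^ (np (Q i) lam + nm (Q i) lam)) : ℝ) =
      (∏ i ∈ A, (4 / 3 * (36 : ℝ) ^ (nm (Q i) lam))) * ∏ i ∈ B, (4 * (36 : ℝ) ^ (np (Q i) lam)) := by
    have h8 : ∀ i ∈ A, 4 / 3 * (36 : ℝ) ^ (nm (Q i) lam) =
        omg (Q i) lam * 6 ^ (np (Q i) lam + nm (Q i) lam) := by
      intro i hi
      have h1 := (Finset.mem_filter.1 hi).2
      unfold omg
      rw [h6 _ _ h1.1, if_neg h1.2]
    have h9 : ∀ i ∈ B, 4 * (36 : ℝ) ^ (np (Q i) lam) =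
        omg (Q i) lam * 6 ^ (np (Q i) lam + nm (Q i) lam) := by
      intro i hi
      have h1 := (Finset.mem_filter.1 hi).2
      unfold omg
      rw [h6' _ _ h1]
    rw [Finset.prod_congr rfl h8, Finset.prod_congr rfl h9, ← Finset.prod_union hAB]
    symm
    refine Finset.prod_subset (Finset.subset_univ _) fun i _ hi => ?_
    have h2 : ¬ (nm (Q i) lam ≤ np (Q i) lam ∧ np (Q i) lam + nm (Q i) lam ≠ 0) :=
      fun h => hi (Finset.mem_union_left _ (Finset.mem_filter.2 ⟨Finset.mem_univ _, h⟩))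
    have h3 : ¬ (np (Q i) lam < nm (Q i) lam) :=
      fun h => hi (Finset.mem_union_right _ (Finset.mem_filter.2 ⟨Finset.mem_univ _, h⟩))
    unfold omg
    rw [h6 _ _ (by omega), if_pos (by omega)]
  rw [h7, Finset.prod_mul_distrib, Finset.prod_mul_distrib, Finset.prod_const, Finset.prod_const,
    Finset.prod_pow_eq_pow_sum, Finset.prod_pow_eq_pow_sum, hcard, hcard]
  push_cast
  have h10 := choose_le_weights A.card B.card
  have h11 : (36 : ℝ) ^ S.card ≤ 36 ^ (∑ i ∈ B, np (Q i) lam) :=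
    pow_le_pow_right₀ (by norm_num) hSc
  have h12 : (36 : ℝ) ^ T.card ≤ 36 ^ (∑ i ∈ A, nm (Q i) lam) :=
    pow_le_pow_right₀ (by norm_num) hTc
  calc (36 : ℝ) ^ S.card * 36 ^ T.card * ((A.card + B.card).choose A.card : ℝ)
      ≤ 36 ^ (∑ i ∈ B, np (Q i) lam) * 36 ^ (∑ i ∈ A, nm (Q i) lam) *
        ((4 / 3 : ℝ) ^ A.card * 4 ^ B.card) := by gcongr
    _ = _ := by ring

end Pool.Agent.W942
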