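import Mathlib

/-!
# The bracket polynomials
-/

set_option autoImplicit false

namespace Pool.Agent.W942

open Finset

/-- The bracket values of the intervals `[i, i + l)` of rows: `1` for the empty interval, `x i 0`
for the interval `{i}`, and for `l ≥ 2` the sum of `w i 0 l` times the inner product of the first
and the last row (first `m` entries) times the value of the interior, and of `w i a l` times the
product of the values of the first `a` rows and of the last `l - a` rows, for `0 < a < l`. -/
def br {R : Type*} [CommSemiring R] (m : ℕ) (x : ℕ → ℕ → R) (w : ℕ → ℕ → ℕ → R) : ℕ → ℕ → R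
  | _, 0 => 1
  | i, 1 => x i 0
  | i, (l + 2) => w i 0 (l + 2) * ((∑ c ∈ range m, x i c * x (i + l + 1) c) * br m x w (i + 1) l) +
      ∑ a : Fin (l + 1), w i (a + 1) (l + 2) *
        (br m x w i (a + 1) * br m x w (i + a + 1) (l + 1 - a))
termination_by _ l => l

section
variable {R S : Type*} [CommSemiring R] [CommSemiring S]

theorem br_zero (m : ℕ) (x : ℕ → ℕ → R) (w : ℕ → ℕ → ℕ → R) (i : ℕ) : br m x w i 0 = 1 := by
  rw [br]

theorem br_one (m : ℕ) (x : ℕ → ℕ → R) (w : ℕ → ℕ → ℕ → R) (i : ℕ) : br m x w i 1 = x i 0 := by
  rw [br]

theorem br_succ (m : ℕ) (x : ℕ → ℕ → R) (w : ℕ → ℕ → ℕ → R) (i l : ℕ) :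
    br m x w i (l + 2) = w i 0 (l + 2) *
        ((∑ c ∈ range m, x i c * x (i + l + 1) c) * br m x w (i + 1) l) +
      ∑ a : Fin (l + 1), w i (a + 1) (l + 2) *
        (br m x w i (a + 1) * br m x w (i + a + 1) (l + 1 - a)) := by
  rw [br]

/-- The value of an interval depends on its rows only. -/
theorem br_congr (m : ℕ) (x y : ℕ → ℕ → R) (w z : ℕ → ℕ → ℕ → R) (l : ℕ) : ∀ i,
    (∀ j c, i ≤ j → j < i + l → x j c = y j c) →
    (∀ j a b, i ≤ j → j + b ≤ i + l → a ≤ b → w j a b = z j a b) →
    br m x w i l = br m y z i l := by
  induction l using Nat.strong_induction_on with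
  | _ l ih =>
    intro i hx hw
    match l with
    | 0 => rw [br_zero, br_zero]
    | 1 => rw [br_one, br_one, hx i 0 le_rfl (by omega)]
    | l + 2 =>
      rw [br_succ, br_succ, hw i 0 (l + 2) le_rfl le_rfl (by omega)]
      refine congrArg₂ (· + ·) (congrArg₂ (· * ·) rfl (congrArg₂ (· * ·) ?_ ?_)) ?_
      · refine Finset.sum_congr rfl fun c _ => ?_
        rw [hx i c le_rfl (by omega), hx (i + l + 1) c (by omega) (by omega)]
      · exact ih l (by omega) (i + 1) (fun j c h1 h2 => hx j c (by omega) (by omega))
          fun j a b h1 h2 h3 => hw j a b (by omega) (by omega) h3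
      · refine Finset.sum_congr rfl fun a _ => ?_
        have ha := a.2
        rw [hw i (a + 1) (l + 2) le_rfl le_rfl (by omega),
          ih (a + 1) (by omega) i (fun j c h1 h2 => hx j c (by omega) (by omega))
            (fun j b d h1 h2 h3 => hw j b d (by omega) (by omega) h3),
          ih (l + 1 - a) (by omega) (i + a + 1) (fun j c h1 h2 => hx j c (by omega) (by omega))
            (fun j b d h1 h2 h3 => hw j b d (by omega) (by omega) h3)]

theorem map_br (f : R →+* S) (m : ℕ) (x : ℕ → ℕ → R) (w : ℕ → ℕ → ℕ → R) (l : ℕ) : ∀ i,
    f (br m x w i l) = br m (fun i c => f (x i c)) (fun i a b => f (w i a b)) i l := by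
  induction l using Nat.strong_induction_on with
  | _ l ih =>
    intro i
    match l with
    | 0 => rw [br_zero, br_zero, map_one]
    | 1 => rw [br_one, br_one]
    | l + 2 =>
      rw [br_succ, br_succ, map_add, map_mul, map_mul, map_sum, map_sum, ih l (by omega)]
      simp only [map_mul]
      refine congrArg₂ (· + ·) rfl ?_
      refine Finset.sum_congr rfl fun a _ => ?_
      have ha := a.2
      rw [ih (a + 1) (by omega), ih (l + 1 - a) (by omega)]

end

/-- The excess of plus signs over minus signs. -/
def bal (s : ℕ → ℤ) (i l : ℕ) : ℤ := ∑ a ∈ range l, s (i + a)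

theorem bal_zero (s : ℕ → ℤ) (i : ℕ) : bal s i 0 = 0 := by simp [bal]

theorem bal_succ (s : ℕ → ℤ) (i l : ℕ) : bal s i (l + 1) = bal s i l + s (i + l) := by
  rw [bal, Finset.sum_range_succ, bal]

theorem bal_add (s : ℕ → ℤ) (i a b : ℕ) : bal s i (a + b) = bal s i a + bal s (i + a) b := by
  rw [bal, Finset.sum_range_add]
  simp only [bal, add_assoc]

open Classical in
/-- A splitting of the interval. -/
noncomputable def ch (s : ℕ → ℤ) (i l : ℕ) : ℕ :=
  if h : ∃ a, 0 < a ∧ a < l ∧ bal s i a = 0 then h.choose else 0

theorem ch_pos {s : ℕ → ℤ} {i l : ℕ} (h : ch s i l ≠ 0) :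
    0 < ch s i l ∧ ch s i l < l ∧ bal s i (ch s i l) = 0 := by
  unfold ch at h ⊢
  split_ifs at h ⊢ with h1
  · exact h1.choose_spec
  · exact absurd rfl h

theorem ch_zero {s : ℕ → ℤ} {i l : ℕ} (h : ch s i l = 0) (a : ℕ) (h0 : 0 < a) (hl : a < l) :
    bal s i a ≠ 0 := by
  intro h2
  unfold ch at h
  have h1 : ∃ a, 0 < a ∧ a < l ∧ bal s i a = 0 := ⟨a, h0, hl, h2⟩
  rw [dif_pos h1] at h
  have := h1.choose_spec.1
  omega

/-- The coefficients. -/
noncomputable def wch (s : ℕ → ℤ) (i a l : ℕ) : ℤ := if a = ch s i l then 1 else 0

/-- The rows: unit vectors. -/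
def rowv (s : ℕ → ℤ) (u v : ℕ → ℕ) (i c : ℕ) : ℤ :=
  if s i = 1 then (if c = u i then 1 else 0) else
    if s i = -1 then (if c = v i then 1 else 0) else (if c = 0 then 1 else 0)

theorem rowv_plus {s : ℕ → ℤ} {i : ℕ} (h : s i = 1) (u v : ℕ → ℕ) (c : ℕ) :
    rowv s u v i c = if c = u i then 1 else 0 := by
  unfold rowv
  rw [if_pos h]

theorem rowv_minus {s : ℕ → ℤ} {i : ℕ} (h : s i = -1) (u v : ℕ → ℕ) (c : ℕ) :
    rowv s u v i c = if c = v i then 1 else 0 := by
  unfold rowv
  rw [if_neg (by omega), if_pos h]

theorem rowv_congr {s : ℕ → ℤ} {i : ℕ} (u v v' : ℕ → ℕ) (h : v i = v' i) (c : ℕ) :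
    rowv s u v i c = rowv s u v' i c := by
  unfold rowv
  rw [h]

theorem rowv_inner {m : ℕ} {a b : ℕ} (ha : a < m) :
    ∑ c ∈ range m, (if c = a then (1 : ℤ) else 0) * (if c = b then 1 else 0) =
      if a = b then 1 else 0 := by
  rw [Finset.sum_eq_single a]
  · simp
  · intro c _ hc
    rw [if_neg hc, zero_mul]
  · intro h
    exact absurd (Finset.mem_range.2 ha) h

theorem same_sign {s : ℕ → ℤ} (hs : ∀ i, s i = 1 ∨ s i = -1 ∨ s i = 0) {i l : ℕ}
    (h : ∀ a, 0 < a → a < l → bal s i a ≠ 0) (h1 : s i = 1) (a : ℕ) (ha : 0 < a) (hl : a < l) :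
    1 ≤ bal s i a := by
  induction a with
  | zero => omega
  | succ a ih =>
    rcases Nat.eq_zero_or_pos a with h0 | h0
    · subst h0
      rw [bal_succ, bal_zero, add_zero, h1]
      norm_num
    · have h2 := ih h0 (by omega)
      have h3 := h (a + 1) (by omega) hl
      rw [bal_succ] at h3 ⊢
      rcases hs (i + a) with h4 | h4 | h4 <;> omega

theorem bal_neg (s : ℕ → ℤ) (i l : ℕ) : bal (fun j => -s j) i l = -bal s i l := by
  simp [bal]

/-- The last row of an interval which cannot be split. -/
theorem last_sign {s : ℕ → ℤ} (hs : ∀ i, s i = 1 ∨ s i = -1 ∨ s i = 0) {i l : ℕ}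
    (h : ∀ a, 0 < a → a < l + 2 → bal s i a ≠ 0) (hb : bal s i (l + 2) = 0) :
    ((s i = 1 ∧ s (i + l + 1) = -1) ∨ (s i = -1 ∧ s (i + l + 1) = 1)) ∧ bal s (i + 1) l = 0 := by
  have h1 : bal s i 1 ≠ 0 := h 1 (by omega) (by omega)
  have h2 : bal s i (l + 2) = bal s i (l + 1) + s (i + l + 1) := bal_succ s i (l + 1)
  have h3 : bal s i (l + 1) = s i + bal s (i + 1) l := by
    rw [add_comm l 1, bal_add]
    simp [bal]
  have h4 : bal s i 1 = s i := by simp [bal]
  rw [h4] at h1
  rcases hs i with h5 | h5 | h5
  · have h6 := same_sign hs h h5 (l + 1) (by omega) (by omega)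
    rcases hs (i + l + 1) with h7 | h7 | h7
    · omega
    · exact ⟨Or.inl ⟨h5, h7⟩, by omega⟩
    · omega
  · have hs' : ∀ i, (fun j => -s j) i = 1 ∨ (fun j => -s j) i = -1 ∨ (fun j => -s j) i = 0 := by
      intro i
      rcases hs i with h | h | h <;> simp [h]
    have h6 := same_sign hs' (i := i) (l := l + 2) (fun a ha hl h0 => h a ha hl (by
      rw [bal_neg] at h0; omega)) (by simp [h5]) (l + 1) (by omega) (by omega)
    rw [bal_neg] at h6
    rcases hs (i + l + 1) with h7 | h7 | h7
    · exact ⟨Or.inr ⟨h5, h7⟩, by omega⟩
    · omega
    · omega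
  · exact absurd h5 h1

/-- Balanced intervals: a matching of the minus rows with the plus rows. -/
theorem br_match {m : ℕ} (s : ℕ → ℤ)
    (hs : ∀ i, s i = 1 ∨ s i = -1 ∨ s i = 0) (l : ℕ) : ∀ i, bal s i l = 0 →
    ∃ μ : ℕ → ℕ, (∀ j, i ≤ j → j < i + l → s j = -1 → i ≤ μ j ∧ μ j < i + l ∧ s (μ j) = 1) ∧
      ∀ u u' : ℕ → ℕ, (∀ j, u j < m) → (∀ j, u' j < m) →
      br m (rowv s u (fun j => u' (μ j))) (wch s) i l =
        ∏ a ∈ (Ico i (i + l)).filter (fun a => s a = 1), if u a = u' a then 1 else 0 := by
  induction l using Nat.strong_induction_on with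
  | _ l ih =>
    intro i hb
    match l with
    | 0 =>
      refine ⟨id, fun j h1 h2 _ => by omega, fun u u' _ _ => ?_⟩
      rw [br_zero]; simp
    | 1 =>
      have h1 : s i = 0 := by simpa [bal] using hb
      refine ⟨id, fun j h1 h2 h3 => ?_, fun u u' _ _ => ?_⟩
      · have : j = i := by omega
        subst this
        omega
      · rw [br_one]
        have h2 : (Ico i (i + 1)).filter (fun a => s a = 1) = ∅ := by
          rw [Finset.filter_eq_empty_iff]
          intro a ha
          have : a = i := by
            have := Finset.mem_Ico.1 ha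
            omega
          subst this
          omega
        rw [h2, Finset.prod_empty]
        unfold rowv
        rw [if_neg (by omega), if_neg (by omega), if_pos rfl]
    | l + 2 =>
      by_cases hc : ch s i (l + 2) = 0
      · -- the first and the last row are matched
        obtain ⟨hsg, hbl⟩ := last_sign hs (ch_zero hc) hb
        obtain ⟨μ, hμ, hμ2⟩ := ih l (by omega) (i + 1) hbl
        refine ⟨fun j => if j = i then i + l + 1 else if j = i + l + 1 then i else μ j, ?_, ?_⟩
        · intro j h1 h2 h3
          simp only
          split_ifs with h4 h5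
          · subst h4
            refine ⟨by omega, by omega, ?_⟩
            rcases hsg with h | h <;> omega
          · subst h5
            refine ⟨by omega, by omega, ?_⟩
            rcases hsg with h | h <;> omega
          · obtain ⟨a1, a2, a3⟩ := hμ j (by omega) (by omega) h3
            exact ⟨by omega, by omega, a3⟩
        · intro u u' hu hu'
          rw [br_succ]
          have h1 : ∑ a : Fin (l + 1), wch s i (a + 1) (l + 2) *
              (br m (rowv s u fun j => u' (if j = i then i + l + 1 else
                if j = i + l + 1 then i else μ j)) (wch s) i (a + 1) *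
              br m (rowv s u fun j => u' (if j = i then i + l + 1 else
                if j = i + l + 1 then i else μ j)) (wch s) (i + a + 1) (l + 1 - a)) = 0 := by
            refine Finset.sum_eq_zero fun a _ => ?_
            unfold wch
            rw [if_neg (by omega), zero_mul]
          rw [h1, add_zero]
          have h2 : wch s i 0 (l + 2) = 1 := by
            unfold wch
            rw [if_pos hc.symm]
          rw [h2, one_mul]
          have h3 : br m (rowv s u fun j => u' (if j = i then i + l + 1 else
              if j = i + l + 1 then i else μ j)) (wch s) (i + 1) l =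
              br m (rowv s u fun j => u' (μ j)) (wch s) (i + 1) l := by
            refine br_congr _ _ _ _ _ _ _ (fun j c h4 h5 => ?_) (fun _ _ _ _ _ _ => rfl)
            refine rowv_congr _ _ _ ?_ _
            rw [if_neg (show ¬ j = i by omega), if_neg (show ¬ j = i + l + 1 by omega)]
          rw [h3, hμ2 u u' hu hu']
          rcases hsg with ⟨h4, h5⟩ | ⟨h4, h5⟩
          · have h6 : ∑ c ∈ range m, rowv s u (fun j => u' (if j = i then i + l + 1 else
                if j = i + l + 1 then i else μ j)) i c * rowv s u (fun j => u' (if j = i then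
                i + l + 1 else if j = i + l + 1 then i else μ j)) (i + l + 1) c =
                if u i = u' i then 1 else 0 := by
              rw [← rowv_inner (hu i)]
              refine Finset.sum_congr rfl fun c _ => ?_
              rw [rowv_plus h4, rowv_minus h5, if_neg (show ¬ i + l + 1 = i by omega), if_pos rfl]
            rw [h6]
            have h7 : (Ico i (i + (l + 2))).filter (fun a => s a = 1) =
                insert i ((Ico (i + 1) (i + 1 + l)).filter (fun a => s a = 1)) := by
              ext a
              simp only [Finset.mem_filter, Finset.mem_Ico, Finset.mem_insert]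
              constructor
              · rintro ⟨⟨b1, b2⟩, b3⟩
                by_cases hai : a = i
                · exact Or.inl hai
                · refine Or.inr ⟨⟨by omega, ?_⟩, b3⟩
                  by_contra hlt
                  have : a = i + l + 1 := by omega
                  subst this
                  omega
              · rintro (b1 | ⟨⟨b1, b2⟩, b3⟩)
                · subst b1
                  exact ⟨⟨le_rfl, by omega⟩, h4⟩
                · exact ⟨⟨by omega, by omega⟩, b3⟩
            rw [h7, Finset.prod_insert]
            simp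
          · have h6 : ∑ c ∈ range m, rowv s u (fun j => u' (if j = i then i + l + 1 else
                if j = i + l + 1 then i else μ j)) i c * rowv s u (fun j => u' (if j = i then
                i + l + 1 else if j = i + l + 1 then i else μ j)) (i + l + 1) c =
                if u (i + l + 1) = u' (i + l + 1) then 1 else 0 := by
              rw [← rowv_inner (hu (i + l + 1))]
              refine Finset.sum_congr rfl fun c _ => ?_
              rw [rowv_minus h4, rowv_plus h5, if_pos rfl, mul_comm]
            rw [h6]
            have h7 : (Ico i (i + (l + 2))).filter (fun a => s a = 1) =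
                insert (i + l + 1) ((Ico (i + 1) (i + 1 + l)).filter (fun a => s a = 1)) := by
              ext a
              simp only [Finset.mem_filter, Finset.mem_Ico, Finset.mem_insert]
              constructor
              · rintro ⟨⟨b1, b2⟩, b3⟩
                by_cases hai : a = i + l + 1
                · exact Or.inl hai
                · refine Or.inr ⟨⟨?_, by omega⟩, b3⟩
                  by_contra hlt
                  have : a = i := by omega
                  subst this
                  omega
              · rintro (b1 | ⟨⟨b1, b2⟩, b3⟩)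
                · subst b1
                  exact ⟨⟨by omega, by omega⟩, h5⟩
                · exact ⟨⟨by omega, by omega⟩, b3⟩
            rw [h7, Finset.prod_insert (fun h => by
              have := Finset.mem_Ico.1 (Finset.mem_filter.1 h).1
              omega)]
      · -- a splitting
        obtain ⟨h0, hl, hba⟩ := ch_pos hc
        set a := ch s i (l + 2) with ha
        have hb2 : bal s (i + a) (l + 2 - a) = 0 := by
          have h1 := bal_add s i a (l + 2 - a)
          rw [show a + (l + 2 - a) = l + 2 by omega] at h1
          omega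
        obtain ⟨μ1, hμ1, hμ1'⟩ := ih a (by omega) i hba
        obtain ⟨μ2, hμ2, hμ2'⟩ := ih (l + 2 - a) (by omega) (i + a) hb2
        refine ⟨fun j => if j < i + a then μ1 j else μ2 j, ?_, ?_⟩
        · intro j h1 h2 h3
          simp only
          split_ifs with h4
          · obtain ⟨a1, a2, a3⟩ := hμ1 j h1 h4 h3
            exact ⟨by omega, by omega, a3⟩
          · obtain ⟨a1, a2, a3⟩ := hμ2 j (by omega) (by omega) h3
            exact ⟨by omega, by omega, a3⟩
        · intro u u' hu hu'
          rw [br_succ]
          have h2 : wch s i 0 (l + 2) = 0 := by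
            unfold wch
            rw [if_neg (by omega)]
          rw [h2, zero_mul, zero_add, Finset.sum_eq_single (⟨a - 1, by omega⟩ : Fin (l + 1))]
          · have h3 : wch s i (a - 1 + 1) (l + 2) = 1 := by
              unfold wch
              rw [if_pos (by omega)]
            simp only
            rw [h3, one_mul, show a - 1 + 1 = a by omega, show i + (a - 1) + 1 = i + a by omega,
              show l + 1 - (a - 1) = l + 2 - a by omega]
            have h4 : br m (rowv s u fun j => u' (if j < i + a then μ1 j else μ2 j)) (wch s) i a =
                br m (rowv s u fun j => u' (μ1 j)) (wch s) i a := by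
              refine br_congr _ _ _ _ _ _ _ (fun j c h4 h5 => ?_) (fun _ _ _ _ _ _ => rfl)
              refine rowv_congr _ _ _ ?_ _
              rw [if_pos h5]
            have h5 : br m (rowv s u fun j => u' (if j < i + a then μ1 j else μ2 j)) (wch s)
                (i + a) (l + 2 - a) =
                br m (rowv s u fun j => u' (μ2 j)) (wch s) (i + a) (l + 2 - a) := by
              refine br_congr _ _ _ _ _ _ _ (fun j c h4 h5 => ?_) (fun _ _ _ _ _ _ => rfl)
              refine rowv_congr _ _ _ ?_ _
              rw [if_neg (show ¬ j < i + a by omega)]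
            rw [h4, h5, hμ1' u u' hu hu', hμ2' u u' hu hu', ← Finset.prod_union]
            · refine Finset.prod_congr ?_ fun _ _ => rfl
              rw [← Finset.filter_union]
              congr 1
              rw [Finset.Ico_union_Ico_eq_Ico (by omega) (by omega)]
              congr 1
              omega
            · rw [Finset.disjoint_left]
              intro b hb1 hb2
              have h6 := Finset.mem_Ico.1 (Finset.mem_filter.1 hb1).1
              have h7 := Finset.mem_Ico.1 (Finset.mem_filter.1 hb2).1
              omega
          · intro b _ hb'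
            have h3 : wch s i ((b : ℕ) + 1) (l + 2) = 0 := by
              unfold wch
              rw [if_neg]
              intro h4
              apply hb'
              apply Fin.ext
              simp only
              omega
            rw [h3, zero_mul]
          · intro h
            exact absurd (Finset.mem_univ _) h

end Pool.Agent.W942
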