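import Pool.Agent.W942.FinalT

/-!
# Products of matrices are networks
-/

set_option autoImplicit false
set_option maxHeartbeats 1000000

namespace Pool.Agent.W942

open Finset MvPolynomial

universe u

section
variable {K : Type u} [CommRing K] {n : ℕ}

/-- A row vector times a matrix. -/
theorem Net.vecMul {w z m : ℕ} (hm : m ≤ w) (col : Fin m → Fin w) (Φ : Net K n w)
    (hΦ : Φ.Valid w z) (A : Matrix (Fin w) (Fin w) (MvPolynomial (Fin n × Fin n) K))
    (B : Finset (Fin n)) (hB : B.card < z) (hA : ∀ i j, ∀ v ∈ (A i j).vars, v.1 ∈ B)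
    (hd : Disjoint Φ.rows B) :
    ∃ Ψ : Net K n m, Ψ.Valid w z ∧ Ψ.rows ⊆ Φ.rows ∪ B ∧
      ∀ o, Ψ.poly o = ∑ j, Φ.poly j * A j (col o) := by
  classical
  let p : Fin 2 → ℕ := Fin.cons w (fun _ => w * w)
  let L : Net K n (w * w) := Net.leaf fun x =>
    A (finProdFinEquiv.symm x).1 (finProdFinEquiv.symm x).2
  have hL : L.rows ⊆ B := by
    intro i hi
    simp only [L, Net.rows, Finset.mem_biUnion, Finset.mem_image] at hi
    obtain ⟨x, _, v, hv, rfl⟩ := hi
    exact hA _ _ v hv
  let N : (a : Fin 2) → Net K n (p a) := Fin.cases Φ (fun _ => L)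
  let T : Fin m → Fin w → (a : Fin 2) → Fin 2 → Fin (p a) → K := fun o j =>
    Fin.cases (fun b (x : Fin w) => if b = 0 ∧ x = j then 1 else 0)
      (fun _ b (x : Fin (w * w)) => if b = 1 ∧ x = finProdFinEquiv (j, col o) then 1 else 0)
  have hN0 : N 0 = Φ := rfl
  have hN1 : N 1 = L := rfl
  refine ⟨Net.node 2 w p N T, ⟨hm, le_rfl, ?_, ?_⟩, ?_, fun o => ?_⟩
  · intro a
    refine Fin.cases ?_ (fun a => ?_) a
    · exact hΦ
    · exact lt_of_le_of_lt (Finset.card_le_card hL) hB
  · have h01 : Disjoint (N 0).rows (N 1).rows := Finset.disjoint_of_subset_right hL hd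
    intro a a' h
    fin_cases a <;> fin_cases a'
    · exact absurd rfl h
    · exact h01
    · exact h01.symm
    · exact absurd rfl h
  · intro i hi
    simp only [Net.rows, Finset.mem_biUnion, Finset.mem_univ, true_and, Fin.exists_fin_two] at hi
    rcases hi with h | h
    · exact Finset.mem_union_left _ h
    · exact Finset.mem_union_right _ (hL h)
  · simp only [Net.poly]
    refine Finset.sum_congr rfl fun j _ => ?_
    rw [Matrix.det_fin_two]
    simp only [Matrix.of_apply]
    have h00 : ∑ x, C (T o j 0 0 x) * (N 0).poly x = Φ.poly j := by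
      show ∑ x : Fin w, C (if (0 : Fin 2) = 0 ∧ x = j then (1 : K) else 0) * Φ.poly x = _
      rw [Finset.sum_eq_single j]
      · simp
      · intro x _ hx; simp [hx]
      · intro h; exact absurd (Finset.mem_univ _) h
    have h01 : ∑ x, C (T o j 0 1 x) * (N 0).poly x = 0 := by
      show ∑ x : Fin w, C (if (1 : Fin 2) = 0 ∧ x = j then (1 : K) else 0) * Φ.poly x = _
      simp
    have h11 : ∑ x, C (T o j 1 1 x) * (N 1).poly x = A j (col o) := by
      show ∑ x : Fin (w * w), C (if (1 : Fin 2) = 1 ∧ x = finProdFinEquiv (j, col o)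
        then (1 : K) else 0) * A (finProdFinEquiv.symm x).1 (finProdFinEquiv.symm x).2 = _
      rw [Finset.sum_eq_single (finProdFinEquiv (j, col o))]
      · rw [Equiv.symm_apply_apply]; simp
      · intro x _ hx; simp [hx]
      · intro h; exact absurd (Finset.mem_univ _) h
    rw [h00, h01, h11, zero_mul, sub_zero]

/-- Products of matrices with disjoint sets of rows. -/
theorem Net.ofProd {w z : ℕ} (hw : 1 ≤ w) (hz : 1 ≤ z) {r : ℕ} (B : Fin r → Finset (Fin n))
    (A : Fin r → Matrix (Fin w) (Fin w) (MvPolynomial (Fin n × Fin n) K))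
    (hB : ∀ t t', t ≠ t' → Disjoint (B t) (B t')) (hBz : ∀ t, (B t).card < z)
    (hA : ∀ t i j, ∀ v ∈ (A t i j).vars, v.1 ∈ B t) (i : Fin w) :
    ∃ Φ : Net K n w, Φ.Valid w z ∧ Φ.rows ⊆ Finset.univ.biUnion B ∧
      ∀ j, Φ.poly j = (List.ofFn A).prod i j := by
  classical
  induction r with
  | zero =>
    have hr : (Net.leaf (K := K) (n := n) (fun j : Fin w => C (if i = j then 1 else 0))).rows = ∅ := by
      ext x
      simp only [Net.rows, MvPolynomial.vars_C, Finset.image_empty, Finset.mem_biUnion,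
        Finset.notMem_empty, and_false, exists_false]
    refine ⟨Net.leaf fun j => C (if i = j then 1 else 0), ?_, ?_, fun j => ?_⟩
    · show (Net.leaf (K := K) (n := n) (fun j : Fin w => C (if i = j then 1 else 0))).rows.card < z
      rw [hr, Finset.card_empty]; omega
    · rw [hr]; exact Finset.empty_subset _
    · simp only [Net.poly, List.ofFn_zero, List.prod_nil, Matrix.one_apply]
      split_ifs <;> simp
  | succ r ih =>
    obtain ⟨Φ, h1, h2, h3⟩ := ih (fun t => B t.castSucc) (fun t => A t.castSucc)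
      (fun t t' h => hB _ _ (fun h' => h (Fin.castSucc_injective _ h'))) (fun t => hBz _)
      (fun t => hA _)
    have hd : Disjoint Φ.rows (B (Fin.last r)) := by
      refine Finset.disjoint_of_subset_left h2 ?_
      rw [Finset.disjoint_biUnion_left]
      intro t _
      exact hB _ _ (Fin.castSucc_lt_last t).ne
    obtain ⟨Ψ, k1, k2, k3⟩ := Net.vecMul le_rfl id Φ h1 (A (Fin.last r)) (B (Fin.last r))
      (hBz _) (hA _) hd
    refine ⟨Ψ, k1, ?_, fun j => ?_⟩
    · refine k2.trans (Finset.union_subset (h2.trans ?_) ?_)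
      · intro x hx
        obtain ⟨t, _, ht⟩ := Finset.mem_biUnion.1 hx
        exact Finset.mem_biUnion.2 ⟨t.castSucc, Finset.mem_univ _, ht⟩
      · exact Finset.subset_biUnion_of_mem B (Finset.mem_univ _)
    · rw [k3, List.ofFn_succ', List.concat_eq_append, List.prod_append, List.prod_singleton,
        Matrix.mul_apply]
      exact Finset.sum_congr rfl fun x _ => by rw [h3]; rfl

theorem Net.ofProd_entry {w z : ℕ} (hw : 1 ≤ w) (hz : 1 ≤ z) {r : ℕ} (B : Fin r → Finset (Fin n))
    (A : Fin r → Matrix (Fin w) (Fin w) (MvPolynomial (Fin n × Fin n) K))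
    (hB : ∀ t t', t ≠ t' → Disjoint (B t) (B t')) (hBz : ∀ t, (B t).card < z)
    (hA : ∀ t i j, ∀ v ∈ (A t i j).vars, v.1 ∈ B t) (i j : Fin w) :
    ∃ Φ : Net K n 1, Φ.Valid w z ∧ Φ.poly 0 = (List.ofFn A).prod i j := by
  obtain ⟨Φ, h1, _, h3⟩ := Net.ofProd hw hz B A hB hBz hA i
  obtain ⟨Ψ, k1, _, k3⟩ := Net.vecMul (z := z) hw (fun _ : Fin 1 => j) Φ h1 1 ∅
    (by rw [Finset.card_empty]; omega) (fun a b v hv => by
      rw [Matrix.one_apply] at hv
      split_ifs at hv
      · simp at hv
      · simp at hv) (by simp)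
  refine ⟨Ψ, k1, ?_⟩
  rw [k3, Finset.sum_eq_single j]
  · rw [h3, Matrix.one_apply_eq, mul_one]
  · intro x _ hx
    rw [Matrix.one_apply_ne hx, mul_zero]
  · intro h; exact absurd (Finset.mem_univ _) h

end

end Pool.Agent.W942
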