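import Pool.Agent.W942.BrUp
import Pool.Agent.W942.FinalB
import Pool.Agent.W942.NetMul

/-!
# Bracket polynomials: lower bounds
-/

set_option autoImplicit false
set_option maxHeartbeats 1000000

namespace Pool.Agent.W942

open Finset MvPolynomial

universe u v w x

section
variable {k₀ : Type x} {O : Type u} {K : Type v} {F : Type w} [Field k₀] [CommRing O] [Field K]
  [Field F] [Algebra k₀ F] {n : ℕ}

/-- The quantitative lower bound. -/
theorem br_formula_lower (ι : O →+* K) (hι : Function.Injective ι) (res : O →+* F)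
    (ω : Wv n → F) (hω : AlgebraicIndependent k₀ ω) (h36 : 36 ≤ n) {k : ℕ} (hk : 36 * k ≤ n) (t : ℕ) (ht : 1 ≤ t) (Φ : Formula K n)
    (hΦ : Φ.RowDisjoint t) (hrep : RepBr ι res ω Φ.poly) :
    1 / ((36 * k + 1) * (2 * k + 1) : ℝ) ≤ (Φ.size + 1) * (phi t)⁻¹ * phi (36 * k) := by
  classical
  obtain ⟨N, _, hN⟩ := Finset.exists_subset_card_eq (s := (Finset.univ : Finset (Fin n)))
    (n := 36 * k) (by simpa using hk)
  refine Bd.br_lower ι hι res ω hω h36 N hN Φ.poly hrep ?_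
  have hph := phi_pos t
  have hph' := phi_pos (36 * k)
  have hk1 : 1 ≤ (phi t)⁻¹ := (one_le_inv₀ (phi_pos t)).2 (phi_le_one t)
  by_cases hne : (Φ.rows ∩ N).Nonempty
  · have h1 := (formula_bound N t ht Φ hΦ hne).lift_phi (by positivity) Finset.inter_subset_right hne
    rw [hN] at h1
    refine h1.mono ?_
    have h2 : 0 ≤ (phi t)⁻¹ * phi (36 * k) := by positivity
    nlinarith
  · have he : Φ.rows ∩ N = ∅ := Finset.not_nonempty_iff_eq_empty.1 hne
    have h1 := Bd.const_phi (S := N) (he ▸ locF_val N Φ)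
    rw [hN] at h1
    refine h1.mono ?_
    have h3 : (1 : ℝ) ≤ (Φ.size + 1) * (phi t)⁻¹ := by
      have : (0 : ℝ) ≤ Φ.size := Nat.cast_nonneg _
      nlinarith
    calc phi (36 * k) = 1 * phi (36 * k) := (one_mul _).symm
      _ ≤ _ := mul_le_mul_of_nonneg_right h3 hph'.le


theorem br_circuit_lower (ι : O →+* K) (hι : Function.Injective ι) (res : O →+* F)
    (ω : Wv n → F) (hω : AlgebraicIndependent k₀ ω) (h36 : 36 ≤ n)
    {s : ℕ} (k : ℕ) (D : DetCircuit K n s) (c : K) (d : Fin s → K)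
    (hd : ∀ j, d j ≠ 0 → D.depth j ≤ k + 1)
    (hrep : RepBr ι res ω (C c + ∑ j, C (d j) * D.poly j)) :
    Real.exp ((n : ℝ) ^ (1 / ((k : ℝ) + 1)) / 200) ≤ ((n : ℝ) + 1) ^ 2 * (s + 2) ^ (k + 1) := by
  classical
  set L : ℝ := (n : ℝ) ^ (1 / ((k : ℝ) + 1)) / 200 with hL
  have hs0 : (0 : ℝ) ≤ s := Nat.cast_nonneg s
  have hs2 : (2 : ℝ) ≤ ((s : ℝ) + 2) ^ (k + 1) := by
    have h1 : ((s : ℝ) + 2) ^ 1 ≤ ((s : ℝ) + 2) ^ (k + 1) :=
      pow_le_pow_right₀ (by linarith) (by omega)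
    linarith
  rcases Nat.eq_zero_or_pos n with hn0 | hnpos
  · -- the trivial case `n = 0`
    have h1 : L = 0 := by
      rw [hL, hn0, Nat.cast_zero, Real.zero_rpow (by positivity)]; simp
    rw [h1, Real.exp_zero, hn0, Nat.cast_zero]
    linarith
  have hn1 : (1 : ℝ) ≤ n := by exact_mod_cast hnpos
  by_cases hL1 : L < 1
  · -- the trivial case
    have h1 : Real.exp L ≤ Real.exp 1 := Real.exp_le_exp.2 hL1.le
    have h2 := Real.exp_one_lt_d9
    have h3 : (4 : ℝ) ≤ ((n : ℝ) + 1) ^ 2 := by nlinarith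
    nlinarith
  push Not at hL1
  have hL0 : 0 ≤ L := by linarith
  -- `n = (200 L) ^ (k + 1)`
  have hnL : (n : ℝ) = 200 ^ (k + 1) * L ^ (k + 1) := by
    have h1 : (200 * L) = (n : ℝ) ^ (1 / ((k : ℝ) + 1)) := by rw [hL]; ring
    rw [← mul_pow, h1, ← Real.rpow_natCast, ← Real.rpow_mul (by positivity)]
    have h2 : 1 / ((k : ℝ) + 1) * ((k + 1 : ℕ) : ℝ) = 1 := by
      push_cast; field_simp
    rw [h2, Real.rpow_one]
  have hn200 : (200 : ℝ) ≤ n := by
    rw [hnL]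
    have h1 : (1 : ℝ) ≤ L ^ (k + 1) := one_le_pow₀ hL1
    have h2 : (200 : ℝ) ^ 1 ≤ 200 ^ (k + 1) := pow_le_pow_right₀ (by norm_num) (by omega)
    nlinarith
  set q : ℕ := ⌈162 * L⌉₊ with hq
  set h : ℕ := ⌈22 * L⌉₊ with hh
  set p : ℕ := ⌈27 * L⌉₊ with hp
  have hq1 : 162 * L ≤ q := Nat.le_ceil _
  have hh1 : 22 * L ≤ h := Nat.le_ceil _
  have hp1 : 27 * L ≤ p := Nat.le_ceil _
  have hq2 : (q : ℝ) ≤ 163 * L := by
    have := (Nat.ceil_lt_add_one (show 0 ≤ 162 * L by positivity)).le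
    linarith
  have hh2 : (h : ℝ) ≤ 23 * L := by
    have := (Nat.ceil_lt_add_one (show 0 ≤ 22 * L by positivity)).le
    linarith
  have hp2 : (p : ℝ) ≤ 28 * L := by
    have := (Nat.ceil_lt_add_one (show 0 ≤ 27 * L by positivity)).le
    linarith
  have hqN : 2 ≤ q := by
    have : (2 : ℝ) ≤ q := by linarith
    exact_mod_cast this
  have hpN : 2 ≤ p := by
    have : (2 : ℝ) ≤ p := by linarith
    exact_mod_cast this
  have b1 : (161 / 162 : ℝ) ^ q ≤ Real.exp (-L) :=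
    pow_le_exp_neg (b := 162) (by norm_num) (by norm_num) (by norm_num) q hq1
  have b2 : (103 / 108 : ℝ) ^ h ≤ Real.exp (-L) :=
    pow_le_exp_neg (b := 108 / 5) (by norm_num) (by norm_num) (by norm_num) h (by linarith)
  have b3 : (26 / 27 : ℝ) ^ p ≤ Real.exp (-L) :=
    pow_le_exp_neg (b := 27) (by norm_num) (by norm_num) (by norm_num) p hp1
  -- there are enough rows
  have hrho : ((rho q h p k + h : ℕ) : ℝ) ≤ 37 / 100 * n := by
    have h1 := rho_le q h p hqN k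
    have h2 : ((rho q h p k + h : ℕ) : ℝ) ≤ ((q ^ k * (p + 2 * h) : ℕ) : ℝ) := by
      exact_mod_cast (by omega : rho q h p k + h ≤ q ^ k * (p + 2 * h))
    refine h2.trans ?_
    push_cast
    have h3 : (q : ℝ) ^ k ≤ 200 ^ k * L ^ k := by
      rw [← mul_pow]
      exact pow_le_pow_left₀ (Nat.cast_nonneg q) (by linarith) k
    have h4 : (p : ℝ) + 2 * h ≤ 74 * L := by linarith
    calc (q : ℝ) ^ k * ((p : ℝ) + 2 * h) ≤ (200 ^ k * L ^ k) * (74 * L) :=
          mul_le_mul h3 h4 (by positivity) (by positivity)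
      _ = 37 / 100 * (200 ^ (k + 1) * L ^ (k + 1)) := by rw [pow_succ, pow_succ]; ring
      _ = 37 / 100 * n := by rw [← hnL]
  have hnN : 200 ≤ n := by exact_mod_cast hn200
  have hk36 : n < 36 * (n / 36) + 36 := by
    have := Nat.div_add_mod n 36
    have h2 := Nat.mod_lt n (show 36 > 0 by norm_num)
    omega
  have hkle : 36 * (n / 36) ≤ n := Nat.mul_div_le n 36
  have henough : rho q h p k + h ≤ 36 * (n / 36) := by
    have h1 : (n : ℝ) < ((36 * (n / 36) : ℕ) : ℝ) + 36 := by exact_mod_cast hk36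
    have h2 : ((rho q h p k + h : ℕ) : ℝ) ≤ ((36 * (n / 36) : ℕ) : ℝ) := by linarith
    exact_mod_cast h2
  obtain ⟨N, _, hN⟩ := Finset.exists_subset_card_eq (s := (Finset.univ : Finset (Fin n)))
    (n := 36 * (n / 36)) (by simpa using hkle)
  have hout := output_bound D N (Real.exp (-L)) (Real.exp_pos _) q h p b1 b2 b3 hpN (by omega) k
    (by rw [hN]; exact henough) c d hd
  have hlow := Bd.br_lower ι hι res ω hω h36 N hN _ hrep hout
  have hkn : ((n / 36 : ℕ) : ℝ) ≤ n := by exact_mod_cast Nat.div_le_self n 36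
  have hkn' : 36 * ((n / 36 : ℕ) : ℝ) ≤ n := by exact_mod_cast hkle
  have hk0 : (0 : ℝ) ≤ ((n / 36 : ℕ) : ℝ) := Nat.cast_nonneg _
  have hpoly : ((36 * ((n / 36 : ℕ) : ℝ) + 1) * (2 * ((n / 36 : ℕ) : ℝ) + 1)) ≤
      ((n : ℝ) + 1) ^ 2 := by
    rw [sq]
    apply mul_le_mul <;> linarith
  have hpos : (0 : ℝ) < (36 * ((n / 36 : ℕ) : ℝ) + 1) * (2 * ((n / 36 : ℕ) : ℝ) + 1) := by
    positivity
  rw [div_le_iff₀ hpos, Real.exp_neg] at hlow
  have hexp := Real.exp_pos L
  have h1 : Real.exp L ≤ ((s : ℝ) + 2) ^ (k + 1) *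
      ((36 * ((n / 36 : ℕ) : ℝ) + 1) * (2 * ((n / 36 : ℕ) : ℝ) + 1)) := by
    have h2 := mul_le_mul_of_nonneg_left hlow hexp.le
    rw [mul_one] at h2
    refine h2.trans (le_of_eq ?_)
    field_simp
  refine h1.trans ?_
  rw [mul_comm]
  exact mul_le_mul_of_nonneg_right hpoly (by positivity)


/-- The lower bound. -/
theorem br_net_lower (ι : O →+* K) (hι : Function.Injective ι) (res : O →+* F)
    (ω : Wv n → F) (hω : AlgebraicIndependent k₀ ω) (h36 : 36 ≤ n) {w z q s : ℕ} (hq : 1 ≤ q) (hw : w ≤ 2 ^ q) (hz : 10 ^ 6 * q ^ 2 ≤ z)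
    (Φ : Fin s → Net K n 1) (hΦ : ∀ i, (Φ i).Valid w z)
    (hrep : RepBr ι res ω (∑ i, (Φ i).poly 0)) :
    Real.exp ((n : ℝ) / (8 * z)) ≤ 2 * ((n : ℝ) + 1) ^ 2 * s := by
  classical
  have hz6 : 10 ^ 6 ≤ z := by nlinarith
  have hz0 : (10 ^ 6 : ℝ) ≤ z := by exact_mod_cast hz6
  set k := n / 36 with hk
  have hk36 : 36 * k ≤ n := Nat.mul_div_le n 36
  have hk36' : n < 36 * k + 36 := by
    have := Nat.div_add_mod n 36
    have h2 := Nat.mod_lt n (show 36 > 0 by norm_num)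
    omega
  obtain ⟨N, _, hN⟩ := Finset.exists_subset_card_eq (s := (Finset.univ : Finset (Fin n)))
    (n := 36 * k) (by simpa using hk36)
  have h1 := Bd.sum Finset.univ fun i _ => Net.bd hq hw hz N (Φ i) (hΦ i)
  have h2 := Bd.br_lower ι hι res ω hω h36 N hN _ hrep (h1.congr fun lam o u v => by
    simp [valP, map_sum])
  rw [Finset.sum_const, nsmul_eq_mul, Finset.card_univ, Fintype.card_fin, hN] at h2
  have hk0 : (0 : ℝ) ≤ k := Nat.cast_nonneg k
  have hkn : (36 * k : ℝ) ≤ n := by exact_mod_cast hk36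
  have hkn' : (n : ℝ) < 36 * k + 36 := by exact_mod_cast hk36'
  have hs0 : (0 : ℝ) ≤ s := Nat.cast_nonneg s
  have hpos : (0 : ℝ) < (36 * k + 1) * (2 * k + 1) := by positivity
  rw [div_le_iff₀ hpos] at h2
  have h3 : Real.exp (1 / 8 - rh z * ((36 * k : ℕ) : ℝ)) * Real.exp ((n : ℝ) / (8 * z)) ≤ 7 / 6 := by
    rw [← Real.exp_add]
    refine le_trans (Real.exp_le_exp.2 ?_) exp_quarter
    have h4 : rh z * ((36 * k : ℕ) : ℝ) = 36 * k / (8 * z) := by
      unfold rh; push_cast; field_simp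
    rw [h4]
    have h5 : (n : ℝ) / (8 * z) - 36 * k / (8 * z) ≤ 1 / 1000 := by
      rw [← sub_div, div_le_div_iff₀ (by linarith) (by norm_num)]
      linarith
    linarith
  have h4 : ((36 * k + 1) * (2 * k + 1) : ℝ) ≤ ((n : ℝ) + 1) ^ 2 := by
    have : (2 * k : ℝ) ≤ n := by linarith
    nlinarith
  have hE := Real.exp_pos ((n : ℝ) / (8 * z))
  calc Real.exp ((n : ℝ) / (8 * z)) = 1 * Real.exp ((n : ℝ) / (8 * z)) := (one_mul _).symm
    _ ≤ (s * (4 / 3 * Real.exp (1 / 8 - rh z * ((36 * k : ℕ) : ℝ))) *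
        ((36 * k + 1) * (2 * k + 1))) * Real.exp ((n : ℝ) / (8 * z)) :=
        mul_le_mul_of_nonneg_right h2 hE.le
    _ = (4 / 3 * (Real.exp (1 / 8 - rh z * ((36 * k : ℕ) : ℝ)) *
        Real.exp ((n : ℝ) / (8 * z)))) * (((36 * k + 1) * (2 * k + 1)) * s) := by ring
    _ ≤ (4 / 3 * (7 / 6)) * (((n : ℝ) + 1) ^ 2 * s) := by
        refine mul_le_mul (mul_le_mul_of_nonneg_left h3 (by norm_num))
          (mul_le_mul_of_nonneg_right h4 hs0) (by positivity) (by norm_num)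
    _ ≤ _ := by
        have : 0 ≤ ((n : ℝ) + 1) ^ 2 * s := by positivity
        linarith

/-- The cube root form of the lower bound. -/
theorem br_net_lower_cube (ι : O →+* K) (hι : Function.Injective ι) (res : O →+* F)
    (ω : Wv n → F) (hω : AlgebraicIndependent k₀ ω) (h36 : 36 ≤ n) {w s : ℕ} (hw : 1 ≤ w)
    (Φ : Fin s → Net K n 1) (hΦ : ∀ i, (Φ i).Valid w (10 ^ 6))
    (hrep : RepBr ι res ω (∑ i, (Φ i).poly 0)) :
    Real.exp ((n : ℝ) ^ (1 / 3 : ℝ) / 300) ≤ 2 * ((n : ℝ) + 1) ^ 2 * (s * w) := by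
  obtain ⟨q, hq, hwq, hqw⟩ : ∃ q : ℕ, 1 ≤ q ∧ w ≤ 2 ^ q ∧ 2 ^ q ≤ 2 * w := by
    rcases Nat.lt_or_ge 1 w with h | h
    · refine ⟨Nat.clog 2 w, Nat.clog_pos (by norm_num) h, Nat.le_pow_clog (by norm_num) w, ?_⟩
      have h1 := Nat.pow_pred_clog_lt_self (b := 2) (by norm_num) h
      have h2 : Nat.clog 2 w = (Nat.clog 2 w).pred + 1 :=
        (Nat.succ_pred_eq_of_pos (Nat.clog_pos (by norm_num) h)).symm
      rw [h2, pow_succ]
      omega
    · exact ⟨1, le_rfl, by omega, by omega⟩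
  have h1 := br_net_lower ι hι res ω hω h36 hq hwq (z := 10 ^ 6 * q ^ 2) le_rfl Φ
    (fun i => (hΦ i).mono le_rfl (by nlinarith)) hrep
  set x := (n : ℝ) ^ (1 / 3 : ℝ) with hx
  have hx0 : 0 ≤ x := by positivity
  have hx3 : x ^ 3 = n := by
    rw [hx, ← Real.rpow_natCast, ← Real.rpow_mul (Nat.cast_nonneg _)]
    norm_num
  have hq0 : (1 : ℝ) ≤ q := by exact_mod_cast hq
  have hw0 : (1 : ℝ) ≤ w := by exact_mod_cast hw
  have hs0 : (0 : ℝ) ≤ s := Nat.cast_nonneg s
  have hn1 : (1 : ℝ) ≤ ((n : ℝ) + 1) ^ 2 := by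
    have : (0 : ℝ) ≤ n := Nat.cast_nonneg n
    nlinarith
  have hA : (0 : ℝ) ≤ 2 * ((n : ℝ) + 1) ^ 2 * s := by positivity
  by_cases hcase : (q : ℝ) ≤ x / 180
  · have h2 : x / 300 ≤ (n : ℝ) / (8 * ((10 ^ 6 * q ^ 2 : ℕ) : ℝ)) := by
      push_cast
      rw [← hx3, div_le_div_iff₀ (by norm_num) (by positivity)]
      have h3 : (q : ℝ) ^ 2 ≤ (x / 180) ^ 2 := pow_le_pow_left₀ (by linarith) hcase 2
      have h4 : x * (8 * (10 ^ 6 * (q : ℝ) ^ 2)) ≤ x * (8 * (10 ^ 6 * (x / 180) ^ 2)) := by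
        gcongr
      have h5 : x * (8 * (10 ^ 6 * (x / 180) ^ 2)) = x ^ 3 * (8 * 10 ^ 6 / 32400) := by ring
      have h6 : 0 ≤ x ^ 3 := by positivity
      rw [h5] at h4
      nlinarith
    calc Real.exp (x / 300) ≤ Real.exp ((n : ℝ) / (8 * ((10 ^ 6 * q ^ 2 : ℕ) : ℝ))) :=
          Real.exp_le_exp.2 h2
      _ ≤ 2 * ((n : ℝ) + 1) ^ 2 * s := h1
      _ ≤ 2 * ((n : ℝ) + 1) ^ 2 * s * w := le_mul_of_one_le_right hA hw0
      _ = _ := by ring
  · push Not at hcase
    have hs1 : (1 : ℝ) ≤ s := by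
      rcases Nat.eq_zero_or_pos s with h0 | h0
      · rw [h0] at h1
        have := Real.exp_pos ((n : ℝ) / (8 * ((10 ^ 6 * q ^ 2 : ℕ) : ℝ)))
        simp only [Nat.cast_zero, mul_zero] at h1
        linarith
      · exact_mod_cast h0
    have h2 : Real.exp (x / 300) ≤ 2 ^ q := by
      have h3 : (2 : ℝ) ^ q = Real.exp (Real.log 2 * q) := by
        rw [← Real.rpow_natCast, Real.rpow_def_of_pos (by norm_num)]
      rw [h3, Real.exp_le_exp]
      have := Real.log_two_gt_d9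
      nlinarith
    have h3 : (2 : ℝ) ^ q ≤ 2 * w := by exact_mod_cast hqw
    calc Real.exp (x / 300) ≤ 2 * w := h2.trans h3
      _ ≤ 2 * w * (((n : ℝ) + 1) ^ 2 * s) := by
          refine le_mul_of_one_le_right (by linarith) ?_
          nlinarith
      _ = _ := by ring


end

/-- The polynomial `p` over the field `K` represents the bracket polynomial with algebraically
independent values `ω` of the auxiliary variables, exactly or approximately: for every `n × n`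
matrix `A` with entries `0, 1` the value `p(A)` is `ι g` for some `g : O` for which `res g` is the
value of the bracket polynomial at `A` and `ω`. -/
def Represents (k₀ : Type x) {K : Type v} [Field k₀] [Field K] (n : ℕ)
    (p : MvPolynomial (Fin n × Fin n) K) : Prop :=
  ∃ (O : Type u) (F : Type w) (_ : CommRing O) (_ : Field F) (_ : Algebra k₀ F) (ι : O →+* K)
    (res : O →+* F) (ω : Wv n → F), Function.Injective ι ∧ AlgebraicIndependent k₀ ω ∧
      RepBr ι res ω p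

/-- The bracket polynomial with the values `ω` of the auxiliary variables. -/
theorem repBr_self {k₀ : Type x} {F : Type w} [Field k₀] [Field F] [Algebra k₀ F] (n : ℕ)
    (ω : Wv n → F) : RepBr (RingHom.id F) (RingHom.id F) ω
      (aeval (Sum.elim (fun ij => X ij) (fun t => C (ω t))) (bracketPoly k₀ n)) := by
  intro A _
  refine ⟨eval (fun ij => (A ij.1 ij.2 : F))
    (aeval (Sum.elim (fun ij => X ij) (fun t => C (ω t))) (bracketPoly k₀ n)), rfl, ?_⟩
  rw [RingHom.id_apply]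
  have h1 := map_bracket (aeval (Sum.elim (fun ij => (X ij : MvPolynomial (Fin n × Fin n) F))
    (fun t => C (ω t))) : MvPolynomial ((Fin n × Fin n) ⊕ Wv n) k₀ →ₐ[k₀] _).toRingHom n
    (fun ij => X (Sum.inl ij)) (fun t => X (Sum.inr t))
  simp only [AlgHom.toRingHom_eq_coe, RingHom.coe_coe, aeval_X, Sum.elim_inl, Sum.elim_inr] at h1
  unfold bracketPoly
  rw [h1, map_bracket (eval fun ij : Fin n × Fin n => (A ij.1 ij.2 : F))]
  congr 1
  · funext ij
    rw [eval_X]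
  · funext t
    rw [eval_C]

theorem represents_self (k₀ : Type x) (K : Type v) [Field k₀] [Field K] [Algebra k₀ K] (n : ℕ)
    (ω : Wv n → K) (hω : AlgebraicIndependent k₀ ω) : Represents.{v, v, v, x} k₀ n
      (aeval (Sum.elim (fun ij => X ij) (fun t => C (ω t))) (bracketPoly k₀ n) :
        MvPolynomial (Fin n × Fin n) K) :=
  ⟨K, K, inferInstance, inferInstance, inferInstance, RingHom.id K, RingHom.id K, ω,
    Function.injective_id, hω, repBr_self n ω⟩

/-- Values of the auxiliary variables in the field of rational functions. -/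
theorem algInd_frac (k₀ : Type x) [Field k₀] (n : ℕ) : AlgebraicIndependent k₀
    (fun t : Wv n => (algebraMap (MvPolynomial (Wv n) k₀)
      (FractionRing (MvPolynomial (Wv n) k₀)) (X t))) := by
  have h := (MvPolynomial.algebraicIndependent_X (Wv n) k₀).map' (f := IsScalarTower.toAlgHom k₀
    (MvPolynomial (Wv n) k₀) (FractionRing (MvPolynomial (Wv n) k₀)))
    (IsFractionRing.injective _ _)
  exact h

end Pool.Agent.W942
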