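import Pool.Agent.W942.Br
import Pool.Agent.W942.FinalA

/-!
# Bracket polynomials: rank lower bounds
-/

set_option autoImplicit false
set_option maxHeartbeats 1000000

namespace Pool.Agent.W942

open Finset MvPolynomial

universe u v w x

/-- The index set of the auxiliary variables. -/
abbrev Wv (n : ℕ) : Type := Fin (n + 1) × Fin (n + 1) × Fin (n + 1)

/-- The bracket value of all the `n` rows of an `n × n` matrix `x`, with the auxiliary values `w`. -/
def bracket {R : Type*} [CommSemiring R] (n : ℕ) (x : Fin n × Fin n → R) (w : Wv n → R) : R :=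
  br n (fun i c => if h : i < n ∧ c < n then x (⟨i, h.1⟩, ⟨c, h.2⟩) else 0)
    (fun i a l => w (Fin.ofNat (n + 1) i, Fin.ofNat (n + 1) a, Fin.ofNat (n + 1) l)) 0 n

theorem map_bracket {R S : Type*} [CommSemiring R] [CommSemiring S] (f : R →+* S) (n : ℕ)
    (x : Fin n × Fin n → R) (w : Wv n → R) :
    f (bracket n x w) = bracket n (fun ij => f (x ij)) (fun t => f (w t)) := by
  unfold bracket
  rw [map_br]
  congr 1
  funext i c
  split_ifs
  · rfl
  · rw [map_zero]

/-- The matrices: unit vectors `u i` in the plus rows, `v i` in the minus rows and the first unit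
vector in the other rows. -/
def rowF {n : ℕ} (s : Fin n → SignType) (u v : Fin n → Fin n) (ic : Fin n × Fin n) : ℤ :=
  if s ic.1 = 1 then (if ic.2 = u ic.1 then 1 else 0) else
    if s ic.1 = -1 then (if ic.2 = v ic.1 then 1 else 0) else (if (ic.2 : ℕ) = 0 then 1 else 0)

theorem rowF_entries {n : ℕ} (s : Fin n → SignType) (u v : Fin n → Fin n) (ic : Fin n × Fin n) :
    rowF s u v ic = 0 ∨ rowF s u v ic = 1 := by
  unfold rowF
  split_ifs <;> simp

theorem bracket_match {n : ℕ} (hn : 0 < n) (s : Fin n → SignType)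
    (hs : (univ.filter fun i => s i = 1).card = (univ.filter fun i => s i = -1).card) :
    ∃ (μ : Fin n → Fin n) (w : Wv n → ℤ), (∀ j, s j = -1 → s (μ j) = 1) ∧
      ∀ u u' : Fin n → Fin n, bracket n (rowF s u fun j => u' (μ j)) w =
        ∏ a ∈ univ.filter (fun i => s i = 1), if u a = u' a then 1 else 0 := by
  classical
  let s' : ℕ → ℤ := fun i => if h : i < n then ((s ⟨i, h⟩ : SignType) : ℤ) else 0
  have h1 : ∀ σ : SignType, ((σ : ℤ) = 1 ↔ σ = 1) ∧ ((σ : ℤ) = -1 ↔ σ = -1) := by decide
  have h2 : ∀ σ : SignType, (σ : ℤ) = 1 ∨ (σ : ℤ) = -1 ∨ (σ : ℤ) = 0 := by decide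
  have h2' : ∀ i, s' i = 1 ∨ s' i = -1 ∨ s' i = 0 := by
    intro i
    simp only [s']
    split_ifs with h
    · exact h2 _
    · exact Or.inr (Or.inr rfl)
  have hs1 : ∀ i : Fin n, s' i = ((s i : SignType) : ℤ) := by
    intro i
    simp only [s', i.2, dif_pos, Fin.eta]
  have hb : bal s' 0 n = 0 := by
    have h3 : bal s' 0 n = ∑ i : Fin n, ((s i : SignType) : ℤ) := by
      rw [bal, Finset.sum_range]
      refine Finset.sum_congr rfl fun i _ => ?_
      rw [zero_add, hs1]
    have h4 : ∀ σ : SignType, (σ : ℤ) = (if σ = 1 then 1 else 0) - (if σ = -1 then 1 else 0) := by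
      decide
    rw [h3, Finset.sum_congr rfl fun i _ => h4 (s i), Finset.sum_sub_distrib,
      Finset.sum_boole, Finset.sum_boole, hs, sub_self]
  obtain ⟨μ0, hμ1, hμ2⟩ := br_match (m := n) s' h2' n 0 hb
  let μ : Fin n → Fin n := fun j => if h : μ0 j < n then ⟨μ0 j, h⟩ else j
  have hμ : ∀ j : Fin n, s j = -1 → (μ j : ℕ) = μ0 j := by
    intro j hj
    have h3 := hμ1 j (Nat.zero_le _) (by simp [j.2]) (by rw [hs1]; exact ((h1 _).2).2 hj)
    have h4 : μ0 j < n := by simpa using h3.2.1
    simp only [μ, dif_pos h4]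
  refine ⟨μ, fun t => wch s' t.1 t.2.1 t.2.2, ?_, ?_⟩
  · intro j hj
    have h3 := hμ1 j (Nat.zero_le _) (by simp [j.2]) (by rw [hs1]; exact ((h1 _).2).2 hj)
    have h4 := h3.2.2
    rw [← hμ j hj, hs1] at h4
    exact ((h1 _).1).1 h4
  · intro u u'
    let U : ℕ → ℕ := fun j => if h : j < n then (u ⟨j, h⟩ : ℕ) else 0
    let U' : ℕ → ℕ := fun j => if h : j < n then (u' ⟨j, h⟩ : ℕ) else 0
    have hU1 : ∀ j, U j < n := by
      intro j
      simp only [U]
      split_ifs
      · exact Fin.is_lt _
      · exact hn
    have hU1' : ∀ j, U' j < n := by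
      intro j
      simp only [U']
      split_ifs
      · exact Fin.is_lt _
      · exact hn
    have hU : ∀ j : Fin n, U j = u j := fun j => by simp only [U, j.2, dif_pos, Fin.eta]
    have hU' : ∀ j : Fin n, U' j = u' j := fun j => by simp only [U', j.2, dif_pos, Fin.eta]
    have h5 : bracket n (rowF s u fun j => u' (μ j)) (fun t : Wv n => wch s' t.1 t.2.1 t.2.2) =
        br n (rowv s' U fun j => U' (μ0 j)) (wch s') 0 n := by
      unfold bracket
      refine br_congr _ _ _ _ _ _ _ (fun j c hj0 hj => ?_) (fun j a b hj hb hab => ?_)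
      · have hjn : j < n := by omega
        by_cases hc : c < n
        · rw [dif_pos ⟨hjn, hc⟩]
          have h6 : s' j = ((s ⟨j, hjn⟩ : SignType) : ℤ) := hs1 ⟨j, hjn⟩
          unfold rowF
          by_cases hp : s ⟨j, hjn⟩ = 1
          · rw [rowv_plus (by rw [h6]; exact ((h1 _).1).2 hp), if_pos hp]
            simp only [Fin.ext_iff]
            rw [← hU ⟨j, hjn⟩]
          · by_cases hm : s ⟨j, hjn⟩ = -1
            · rw [rowv_minus (by rw [h6]; exact ((h1 _).2).2 hm), if_neg hp, if_pos hm]
              simp only [Fin.ext_iff]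
              rw [← hU', hμ _ hm]
            · have h7 : ¬ s' j = 1 := by
                rw [h6]; exact fun h => hp (((h1 _).1).1 h)
              have h8 : ¬ s' j = -1 := by
                rw [h6]; exact fun h => hm (((h1 _).2).1 h)
              rw [if_neg hp, if_neg hm]
              unfold rowv
              rw [if_neg h7, if_neg h8]
        · rw [dif_neg (fun h => hc h.2)]
          unfold rowv
          have h7 := hU1 j
          have h8 := hU1' (μ0 j)
          simp only
          split_ifs <;> first | rfl | omega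
      · have h6 : ∀ z : ℕ, z ≤ n → ((Fin.ofNat (n + 1) z : Fin (n + 1)) : ℕ) = z := by
          intro z hz
          rw [Fin.val_ofNat, Nat.mod_eq_of_lt (by omega)]
        simp only
        rw [h6 j (by omega), h6 a (by omega), h6 b (by omega)]
    rw [h5, hμ2 U U' hU1 hU1', zero_add, Finset.prod_filter, Finset.prod_filter,
      ← Finset.range_eq_Ico, Finset.prod_range]
    refine Finset.prod_congr rfl fun i _ => ?_
    rw [hs1, hU, hU']
    simp only [(h1 _).1, Fin.ext_iff]

section
variable {k : Type x} {O : Type u} {K : Type v} {F : Type w} [Field k] [CommRing O] [Field K]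
  [Field F] [Algebra k F] {n : ℕ}

/-- On matrices with entries `0, 1`, the values of `p` lie in the ring `O` and reduce to the
values of the bracket polynomial. -/
def RepBr (ι : O →+* K) (res : O →+* F) (ω : Wv n → F) (p : MvPolynomial (Fin n × Fin n) K) :
    Prop :=
  ∀ A : Matrix (Fin n) (Fin n) ℤ, (∀ i j, A i j = 0 ∨ A i j = 1) →
    ∃ g : O, ι g = eval (fun ij => (A ij.1 ij.2 : K)) p ∧
      res g = bracket n (fun ij => (A ij.1 ij.2 : F)) ω

theorem bracket_rank (ι : O →+* K) (hι : Function.Injective ι) (res : O →+* F)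
    (ω : Wv n → F) (hω : AlgebraicIndependent k ω)
    (p : MvPolynomial (Fin n × Fin n) K) (hrep : RepBr ι res ω p) (hn : 0 < n)
    (s : Fin n → SignType)
    (hs : (univ.filter fun i => s i = 1).card = (univ.filter fun i => s i = -1).card)
    {D : ℕ} (hD0 : 0 < D) (hD : D ≤ n) {U V : Type*} (M : U → V → K) (r : ℕ) (hM : HasRk M r)
    (a : (Fin n → Fin D) → U) (b : (Fin n → Fin D) → V)
    (hval : ∀ u v : Fin n → Fin D, M (a u) (b v) = eval (fun ij => ((rowF s
      (fun i => Fin.castLE hD (u i)) (fun i => Fin.castLE hD (v i)) ij : ℤ) : K)) p) :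
    D ^ (univ.filter fun i => s i = 1).card ≤ r := by
  classical
  obtain ⟨μ, w, hμ, hw⟩ := bracket_match hn s hs
  let P := {i : Fin n // s i = 1} → Fin D
  let ex : P → Fin n → Fin D := fun f i => if h : s i = 1 then f ⟨i, h⟩ else ⟨0, hD0⟩
  let cst : (Fin n → Fin D) → Fin n → Fin n := fun u i => Fin.castLE hD (u i)
  let A : P → P → Matrix (Fin n) (Fin n) ℤ := fun f f' =>
    Matrix.of fun i j => rowF s (cst (ex f)) (fun j => cst (ex f') (μ j)) (i, j)
  have hg : ∀ f f' : P, ∃ g : O, ι g = M (a (ex f)) (b (fun j => ex f' (μ j))) ∧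
      res g = bracket n (fun ij => (A f f' ij.1 ij.2 : F)) ω := by
    intro f f'
    obtain ⟨g, h1, h2⟩ := hrep (A f f') (fun i j =>
      rowF_entries s (cst (ex f)) (fun j => cst (ex f') (μ j)) (i, j))
    refine ⟨g, ?_, h2⟩
    rw [h1, hval]
    rfl
  choose g hg1 hg2 using hg
  -- the polynomial in the auxiliary variables
  let B : Matrix P P (MvPolynomial (Wv n) k) := Matrix.of fun f f' =>
    bracket n (fun ij => ((A f f' ij.1 ij.2 : ℤ) : MvPolynomial (Wv n) k)) X
  have hBdet : B.det ≠ 0 := by
    intro h
    have h1 : ((eval fun t => ((w t : ℤ) : k)).mapMatrix B) = 1 := by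
      ext f f'
      rw [RingHom.mapMatrix_apply, Matrix.map_apply, Matrix.one_apply]
      simp only [B, Matrix.of_apply]
      rw [map_bracket]
      have h2 : bracket n (fun ij => (eval fun t => ((w t : ℤ) : k))
          ((A f f' ij.1 ij.2 : ℤ) : MvPolynomial (Wv n) k))
          (fun t => (eval fun t => ((w t : ℤ) : k)) (X t)) =
          (Int.castRingHom k) (bracket n (fun ij => A f f' ij.1 ij.2) w) := by
        rw [map_bracket]
        congr 1
        · funext ij
          rw [map_intCast]
          rfl
        · funext t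
          rw [eval_X]
          rfl
      rw [h2]
      have h3 : bracket n (fun ij => A f f' ij.1 ij.2) w =
          ∏ i ∈ univ.filter (fun i => s i = 1), if cst (ex f) i = cst (ex f') i then 1 else 0 :=
        hw (cst (ex f)) (cst (ex f'))
      rw [h3]
      by_cases hff : f = f'
      · subst hff
        simp
      · obtain ⟨i, hi⟩ := Function.ne_iff.1 hff
        rw [Finset.prod_eq_zero (i := i.1), map_zero, if_neg hff]
        · exact Finset.mem_filter.2 ⟨Finset.mem_univ _, i.2⟩
        · rw [if_neg]
          intro h4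
          apply hi
          have h5 := Fin.castLE_injective hD h4
          simp only [ex, dif_pos i.2] at h5
          exact h5
    have h2 := RingHom.map_det (eval fun t => ((w t : ℤ) : k)) B
    rw [h1, h, map_zero, Matrix.det_one] at h2
    exact zero_ne_one h2
  let MO : Matrix P P O := Matrix.of g
  have hres : (MO.map res).det ≠ 0 := by
    have h1 : MO.map res = (aeval ω : MvPolynomial (Wv n) k →ₐ[k] F).toRingHom.mapMatrix B := by
      ext f f'
      rw [RingHom.mapMatrix_apply, Matrix.map_apply, Matrix.map_apply]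
      simp only [MO, B, Matrix.of_apply]
      rw [hg2, map_bracket]
      congr 1
      · funext ij
        simp
      · funext t
        simp
    rw [h1, ← RingHom.map_det]
    intro h2
    have h3 : (aeval ω : MvPolynomial (Wv n) k →ₐ[k] F) B.det = 0 := h2
    exact hBdet (hω (by rw [h3, map_zero]))
  have hdetO : MO.det ≠ 0 := by
    intro h
    apply hres
    have h2 := RingHom.map_det res MO
    rw [h, map_zero] at h2
    exact h2.symm
  have hdetK : (MO.map ι).det ≠ 0 := by
    have h2 := RingHom.map_det ι MO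
    have h3 : (ι.mapMatrix MO) = MO.map ι := rfl
    rw [h3] at h2
    rw [← h2]
    intro h
    exact hdetO (hι (by rw [h, map_zero]))
  have h1 := hM.lower (P := P) (fun f => a (ex f)) (fun f' => b (fun j => ex f' (μ j)))
    (MO.map ι)⁻¹ (fun i j => by
      have h2 := Matrix.mul_nonsing_inv (MO.map ι) (isUnit_iff_ne_zero.2 hdetK)
      have h3 := congrFun (congrFun h2 i) j
      rw [Matrix.mul_apply, Matrix.one_apply] at h3
      rw [← h3]
      refine Finset.sum_congr rfl fun l _ => ?_
      rw [Matrix.map_apply, ← hg1]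
      rfl)
  have h4 : Fintype.card P = D ^ (univ.filter fun i => s i = 1).card := by
    simp only [P, Fintype.card_fun, Fintype.card_fin]
    congr 1
    rw [Fintype.card_subtype]
  rwa [h4] at h1

/-- The rank of the values of a polynomial representing the bracket polynomial. -/
theorem br_rank_lower (ι : O →+* K) (hι : Function.Injective ι) (res : O →+* F)
    (ω : Wv n → F) (hω : AlgebraicIndependent k ω) (h36 : 36 ≤ n) {k' : ℕ} (N : Finset (Fin n))
    (lam : Fin n → SignType) (hp : np N lam = k') (hm : nm N lam = k')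
    (p : MvPolynomial (Fin n × Fin n) K) (hrep : RepBr ι res ω p) {r : ℕ}
    (hr : ∀ o, HasRk (valP N p lam o) r) : 36 ^ k' ≤ r := by
  classical
  let s : Fin n → SignType := fun i => if i ∈ N then lam i else 0
  have h1 : (univ.filter fun i => s i = 1) = N.filter fun i => lam i = 1 := by
    ext i
    simp only [s, Finset.mem_filter, Finset.mem_univ, true_and]
    by_cases hi : i ∈ N
    · simp [hi]
    · simp [hi]
  have h2 : (univ.filter fun i => s i = -1) = N.filter fun i => lam i = -1 := by
    ext i
    simp only [s, Finset.mem_filter, Finset.mem_univ, true_and]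
    by_cases hi : i ∈ N
    · simp [hi]
    · simp [hi]
  have hs : (univ.filter fun i => s i = 1).card = (univ.filter fun i => s i = -1).card := by
    rw [h1, h2]
    exact hp.trans hm.symm
  have hcard : (univ.filter fun i => s i = 1).card = k' := by
    rw [h1]
    exact hp
  have hmain := bracket_rank ι hι res ω hω p hrep (by omega) s hs (D := 36) (by norm_num) h36
    (valP N p lam (fun _ c j => if (j : ℕ) = (c : ℕ) then 1 else 0,
      fun _ j => if (j : ℕ) = 0 then 1 else 0)) r (hr _) id id (by
      intro u v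
      unfold valP
      congr 1
      refine congrArg eval ?_
      funext ij
      simp only [id, pt, rowF, s]
      by_cases hi : ij.1 ∈ N
      · by_cases hl1 : lam ij.1 = 1
        · rw [if_pos ⟨hi, hl1⟩, if_pos hi, if_pos hl1]
          simp [Fin.ext_iff]
        · by_cases hl2 : lam ij.1 = -1
          · rw [if_neg (fun h => hl1 h.2), if_pos ⟨hi, hl2⟩, if_pos hi, if_neg hl1, if_pos hl2]
            simp [Fin.ext_iff]
          · rw [if_neg (fun h => hl1 h.2), if_neg (fun h => hl2 h.2), if_pos hi, if_neg hl1,
              if_neg hl2]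
            simp
      · rw [if_neg (fun h => hi h.1), if_neg (fun h => hi h.1), if_neg hi]
        simp)
  rwa [hcard] at hmain

/-- A family of bounded average rank which contains the bracket polynomial. -/
theorem Bd.br_lower (ι : O →+* K) (hι : Function.Injective ι) (res : O →+* F)
    (ω : Wv n → F) (hω : AlgebraicIndependent k ω) (h36 : 36 ≤ n) {k' : ℕ} (N : Finset (Fin n))
    (hN : N.card = 36 * k') (p : MvPolynomial (Fin n × Fin n) K) (hrep : RepBr ι res ω p) {c : ℝ}
    (h : Bd N c (valP N p)) : 1 / ((36 * k' + 1) * (2 * k' + 1) : ℝ) ≤ c := by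
  classical
  obtain ⟨B, _, h2, h3, h4⟩ := h
  refine (ex_balanced N k' hN).trans (le_trans (ex_mono fun lam => ?_) h3)
  split_ifs with hb
  · obtain ⟨hp, hm⟩ := hb
    have hact : act N lam = 2 * k' := by unfold act; omega
    have hB : 0 ≤ B lam * 6 ^ act N lam := mul_nonneg (h2 lam) (by positivity)
    have h5 := br_rank_lower ι hι res ω hω h36 N lam hp hm p hrep
      (r := ⌊B lam * 6 ^ act N lam⌋₊) (fun o => by
        obtain ⟨r, h6, h7⟩ := h4 lam o
        exact h6.mono (Nat.le_floor h7))
    have h6 : ((36 ^ k' : ℕ) : ℝ) ≤ B lam * 6 ^ act N lam :=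
      (Nat.cast_le.2 h5).trans (Nat.floor_le hB)
    rw [hact, pow_mul] at h6
    push_cast at h6
    norm_num at h6
    have h7 : (0 : ℝ) < 36 ^ k' := by positivity
    by_contra hlt
    push Not at hlt
    have := mul_lt_mul_of_pos_right hlt h7
    linarith
  · exact h2 lam

end

end Pool.Agent.W942
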