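import Pool.Agent.W942.BrLow

/-!
# Bracket polynomials: small set-multilinear circuits
-/

set_option autoImplicit false
set_option maxHeartbeats 1000000

namespace Pool.Agent.W942

open Finset MvPolynomial

universe u

section
variable {k : Type u} [CommRing k] {n : ℕ}

/-- The polynomials `p` and `q` have no row of `X` in common. -/
def NoCommonRow (p q : MvPolynomial ((Fin n × Fin n) ⊕ Wv n) k) : Prop :=
  ∀ i j j', Sum.inl (i, j) ∈ p.vars → Sum.inl (i, j') ∉ q.vars

/-- Row-disjoint straight-line programs, the last instruction first: every entry is a constant, a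
variable, a sum of two later entries or a product of two later entries which have no row of `X` in
common. -/
inductive RowProgram (k : Type u) [CommRing k] (n : ℕ) :
    List (MvPolynomial ((Fin n × Fin n) ⊕ Wv n) k) → Prop
  | nil : RowProgram k n []
  | const {l : List (MvPolynomial ((Fin n × Fin n) ⊕ Wv n) k)} (a : k) (hl : RowProgram k n l) :
      RowProgram k n (C a :: l)
  | var {l : List (MvPolynomial ((Fin n × Fin n) ⊕ Wv n) k)} (i : (Fin n × Fin n) ⊕ Wv n)
      (hl : RowProgram k n l) : RowProgram k n (X i :: l)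
  | add {l : List (MvPolynomial ((Fin n × Fin n) ⊕ Wv n) k)}
      {p q : MvPolynomial ((Fin n × Fin n) ⊕ Wv n) k} (hl : RowProgram k n l) (hp : p ∈ l)
      (hq : q ∈ l) : RowProgram k n ((p + q) :: l)
  | mul {l : List (MvPolynomial ((Fin n × Fin n) ⊕ Wv n) k)}
      {p q : MvPolynomial ((Fin n × Fin n) ⊕ Wv n) k} (hl : RowProgram k n l) (hp : p ∈ l)
      (hq : q ∈ l) (hpq : NoCommonRow p q) : RowProgram k n ((p * q) :: l)

/-- The bracket polynomial. -/
noncomputable def bracketPoly (k : Type u) [CommRing k] (n : ℕ) :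
    MvPolynomial ((Fin n × Fin n) ⊕ Wv n) k :=
  bracket n (fun ij => X (Sum.inl ij)) (fun t => X (Sum.inr t))

variable (k n) in
/-- The variables in rows. -/
noncomputable def xx (i c : ℕ) : MvPolynomial ((Fin n × Fin n) ⊕ Wv n) k :=
  if h : i < n ∧ c < n then X (Sum.inl (⟨i, h.1⟩, ⟨c, h.2⟩)) else 0

variable (k n) in
/-- The auxiliary variables. -/
noncomputable def ww (i a l : ℕ) : MvPolynomial ((Fin n × Fin n) ⊕ Wv n) k :=
  X (Sum.inr (Fin.ofNat (n + 1) i, Fin.ofNat (n + 1) a, Fin.ofNat (n + 1) l))

/-- The rows of `p` are in `[a, b)`. -/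
def RowsIn (p : MvPolynomial ((Fin n × Fin n) ⊕ Wv n) k) (a b : ℕ) : Prop :=
  ∀ i j, Sum.inl (i, j) ∈ p.vars → a ≤ (i : ℕ) ∧ (i : ℕ) < b

theorem RowsIn.mono {p : MvPolynomial ((Fin n × Fin n) ⊕ Wv n) k} {a b c d : ℕ}
    (h : RowsIn p a b) (h1 : c ≤ a) (h2 : b ≤ d) : RowsIn p c d := fun i j hij =>
  ⟨h1.trans (h i j hij).1, lt_of_lt_of_le (h i j hij).2 h2⟩

theorem RowsIn.add {p q : MvPolynomial ((Fin n × Fin n) ⊕ Wv n) k} {a b : ℕ}
    (hp : RowsIn p a b) (hq : RowsIn q a b) : RowsIn (p + q) a b := by
  classical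
  intro i j hij
  rcases Finset.mem_union.1 (vars_add_subset p q hij) with h | h
  · exact hp i j h
  · exact hq i j h

theorem RowsIn.mul {p q : MvPolynomial ((Fin n × Fin n) ⊕ Wv n) k} {a b : ℕ}
    (hp : RowsIn p a b) (hq : RowsIn q a b) : RowsIn (p * q) a b := by
  classical
  intro i j hij
  rcases Finset.mem_union.1 (vars_mul p q hij) with h | h
  · exact hp i j h
  · exact hq i j h

theorem RowsIn.zero (a b : ℕ) : RowsIn (0 : MvPolynomial ((Fin n × Fin n) ⊕ Wv n) k) a b := by
  intro i j hij
  simp at hij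

theorem RowsIn.const (r : k) (a b : ℕ) :
    RowsIn (C r : MvPolynomial ((Fin n × Fin n) ⊕ Wv n) k) a b := by
  intro i j hij
  simp at hij

theorem RowsIn.sum {ι : Type*} (s : Finset ι) {p : ι → MvPolynomial ((Fin n × Fin n) ⊕ Wv n) k}
    {a b : ℕ} (h : ∀ i ∈ s, RowsIn (p i) a b) : RowsIn (∑ i ∈ s, p i) a b := by
  classical
  induction s using Finset.induction_on with
  | empty => rw [Finset.sum_empty]; exact RowsIn.zero a b
  | insert j s hj ih =>
    rw [Finset.sum_insert hj]
    exact (h j (Finset.mem_insert_self _ _)).add (ih fun i hi => h i (Finset.mem_insert_of_mem hi))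

theorem rowsIn_xx (i c : ℕ) : RowsIn (xx k n i c) i (i + 1) := by
  unfold xx
  split_ifs with h
  · intro i' j' hij
    rcases subsingleton_or_nontrivial k with hk | hk
    · have h0 : (X (Sum.inl (⟨i, h.1⟩, ⟨c, h.2⟩)) : MvPolynomial ((Fin n × Fin n) ⊕ Wv n) k) = 0 := by
        ext m
        exact Subsingleton.elim _ _
      rw [h0] at hij
      simp at hij
    · rw [vars_X, Finset.mem_singleton] at hij
      have h1 := (Prod.ext_iff.1 (Sum.inl_injective hij)).1
      simp only at h1
      rw [h1]
      simp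
  · exact RowsIn.zero _ _

theorem rowsIn_ww (i c l a b : ℕ) : RowsIn (ww k n i c l) a b := by
  unfold ww
  intro i' j' hij
  rcases subsingleton_or_nontrivial k with hk | hk
  · have h0 : (X (Sum.inr (Fin.ofNat (n + 1) i, Fin.ofNat (n + 1) c, Fin.ofNat (n + 1) l)) :
        MvPolynomial ((Fin n × Fin n) ⊕ Wv n) k) = 0 := by
      ext m
      exact Subsingleton.elim _ _
    rw [h0] at hij
    simp at hij
  · rw [vars_X, Finset.mem_singleton] at hij
    exact absurd hij (by simp)

theorem rowsIn_br (l : ℕ) : ∀ i, RowsIn (br n (xx k n) (ww k n) i l) i (i + l) := by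
  induction l using Nat.strong_induction_on with
  | _ l ih =>
    intro i
    match l with
    | 0 =>
      rw [br_zero, ← C_1]
      exact RowsIn.const _ _ _
    | 1 =>
      rw [br_one]
      exact rowsIn_xx i 0
    | l + 2 =>
      rw [br_succ]
      refine RowsIn.add ((rowsIn_ww _ _ _ _ _).mul (RowsIn.mul (RowsIn.sum _ fun c _ => ?_)
        ((ih l (by omega) (i + 1)).mono (by omega) (by omega)))) (RowsIn.sum _ fun a _ => ?_)
      · exact ((rowsIn_xx i c).mono (by omega) (by omega)).mul
          ((rowsIn_xx (i + l + 1) c).mono (by omega) (by omega))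
      · have ha := a.2
        exact (rowsIn_ww _ _ _ _ _).mul (((ih (a + 1) (by omega) i).mono (by omega) (by omega)).mul
          ((ih (l + 1 - a) (by omega) (i + a + 1)).mono (by omega) (by omega)))

theorem RowsIn.noCommon {p q : MvPolynomial ((Fin n × Fin n) ⊕ Wv n) k} {a b c d : ℕ}
    (hp : RowsIn p a b) (hq : RowsIn q c d) (h : b ≤ c) : NoCommonRow p q := by
  intro i j j' h1 h2
  have h3 := hp i j h1
  have h4 := hq i j' h2
  omega

theorem noCommon_ww (i a l : ℕ) (q : MvPolynomial ((Fin n × Fin n) ⊕ Wv n) k) :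
    NoCommonRow (ww k n i a l) q := by
  intro i' j j' h1 _
  have := rowsIn_ww (k := k) i a l 0 0 i' j h1
  omega

/-- A sum of products. -/
theorem RowProgram.sum2 {l : List (MvPolynomial ((Fin n × Fin n) ⊕ Wv n) k)}
    (hl : RowProgram k n l) {ι : Type*} (T : Finset ι)
    (p q : ι → MvPolynomial ((Fin n × Fin n) ⊕ Wv n) k)
    (hT : ∀ t ∈ T, p t ∈ l ∧ q t ∈ l ∧ NoCommonRow (p t) (q t)) :
    ∃ l', RowProgram k n (l' ++ l) ∧ (∑ t ∈ T, p t * q t) ∈ l' ++ l ∧
      l'.length ≤ 2 * T.card + 1 := by
  classical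
  induction T using Finset.induction_on with
  | empty =>
    refine ⟨[C 0], RowProgram.const 0 hl, ?_, by simp⟩
    simp
  | insert t T ht ih =>
    obtain ⟨l', h1, h2, h3⟩ := ih fun t' ht' => hT t' (Finset.mem_insert_of_mem ht')
    obtain ⟨h4, h5, h6⟩ := hT t (Finset.mem_insert_self _ _)
    refine ⟨(p t * q t + ∑ t ∈ T, p t * q t) :: (p t * q t) :: l', ?_, ?_, ?_⟩
    · exact RowProgram.add (RowProgram.mul h1 (List.mem_append_right _ h4)
        (List.mem_append_right _ h5) h6) (by simp) (List.mem_cons_of_mem _ h2)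
    · rw [Finset.sum_insert ht]
      simp
    · rw [Finset.card_insert_of_notMem ht]
      simp only [List.length_cons]
      omega

/-- A sum of products of three factors. -/
theorem RowProgram.sum3 {l : List (MvPolynomial ((Fin n × Fin n) ⊕ Wv n) k)}
    (hl : RowProgram k n l) {ι : Type*} (T : Finset ι)
    (p q r : ι → MvPolynomial ((Fin n × Fin n) ⊕ Wv n) k)
    (hT : ∀ t ∈ T, p t ∈ l ∧ q t ∈ l ∧ r t ∈ l ∧ NoCommonRow (q t) (r t) ∧
      NoCommonRow (p t) (q t * r t)) :
    ∃ l', RowProgram k n (l' ++ l) ∧ (∑ t ∈ T, p t * (q t * r t)) ∈ l' ++ l ∧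
      l'.length ≤ 3 * T.card + 1 := by
  classical
  induction T using Finset.induction_on with
  | empty =>
    refine ⟨[C 0], RowProgram.const 0 hl, ?_, by simp⟩
    simp
  | insert t T ht ih =>
    obtain ⟨l', h1, h2, h3⟩ := ih fun t' ht' => hT t' (Finset.mem_insert_of_mem ht')
    obtain ⟨h4, h5, h6, h7, h8⟩ := hT t (Finset.mem_insert_self _ _)
    refine ⟨(p t * (q t * r t) + ∑ t ∈ T, p t * (q t * r t)) :: (p t * (q t * r t)) ::
      (q t * r t) :: l', ?_, ?_, ?_⟩
    · exact RowProgram.add (RowProgram.mul (RowProgram.mul h1 (List.mem_append_right _ h5)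
        (List.mem_append_right _ h6) h7) (List.mem_cons_of_mem _ (List.mem_append_right _ h4))
        (by simp) h8) (by simp) (List.mem_cons_of_mem _ (List.mem_cons_of_mem _ h2))
    · rw [Finset.sum_insert ht]
      simp
    · rw [Finset.card_insert_of_notMem ht]
      simp only [List.length_cons]
      omega

/-- One interval. -/
theorem RowProgram.step {l : List (MvPolynomial ((Fin n × Fin n) ⊕ Wv n) k)}
    (hl : RowProgram k n l) (hx : ∀ i c, i < n → c < n → xx k n i c ∈ l)
    (hw : ∀ i a b, ww k n i a b ∈ l) (L i : ℕ) (hi : i + (L + 2) ≤ n)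
    (hbr : ∀ j b, b < L + 2 → j + b ≤ n → br n (xx k n) (ww k n) j b ∈ l) :
    ∃ l', RowProgram k n (l' ++ l) ∧ br n (xx k n) (ww k n) i (L + 2) ∈ l' ++ l ∧
      l'.length ≤ 5 * n + 2 := by
  classical
  obtain ⟨l1, h1, h2, h3⟩ := hl.sum2 (range n) (fun c => xx k n i c)
    (fun c => xx k n (i + L + 1) c) (fun c hc => ⟨hx i c (by omega) (Finset.mem_range.1 hc),
      hx (i + L + 1) c (by omega) (Finset.mem_range.1 hc),
      (rowsIn_xx i c).noCommon (rowsIn_xx (i + L + 1) c) (by omega)⟩)
  rw [Finset.card_range] at h3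
  set ip := ∑ c ∈ range n, xx k n i c * xx k n (i + L + 1) c with hip
  have h4 : RowProgram k n ((ip * br n (xx k n) (ww k n) (i + 1) L) :: (l1 ++ l)) := by
    refine RowProgram.mul h1 h2 (List.mem_append_right _ (hbr (i + 1) L (by omega) (by omega))) ?_
    intro i' j j' hp hq
    have h5 := rowsIn_br (k := k) (n := n) L (i + 1) i' j' hq
    have h6 : ∃ c, Sum.inl (i', j) ∈ (xx k n i c * xx k n (i + L + 1) c).vars := by
      by_contra hcon
      push Not at hcon
      have h7 := vars_sum_subset (range n) (fun c => xx k n i c * xx k n (i + L + 1) c) hp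
      obtain ⟨c, _, hc⟩ := Finset.mem_biUnion.1 h7
      exact hcon c hc
    obtain ⟨c, hc⟩ := h6
    rcases Finset.mem_union.1 (vars_mul _ _ hc) with h7 | h7
    · have := rowsIn_xx (k := k) i c i' j h7
      omega
    · have := rowsIn_xx (k := k) (i + L + 1) c i' j h7
      omega
  have h5 : RowProgram k n ((ww k n i 0 (L + 2) * (ip * br n (xx k n) (ww k n) (i + 1) L)) ::
      (ip * br n (xx k n) (ww k n) (i + 1) L) :: (l1 ++ l)) :=
    RowProgram.mul h4 (List.mem_cons_of_mem _ (List.mem_append_right _ (hw _ _ _))) (by simp)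
      (noCommon_ww _ _ _ _)
  set l2 : List (MvPolynomial ((Fin n × Fin n) ⊕ Wv n) k) :=
    (ww k n i 0 (L + 2) * (ip * br n (xx k n) (ww k n) (i + 1) L)) ::
      (ip * br n (xx k n) (ww k n) (i + 1) L) :: (l1 ++ l) with hl2
  have hsub : ∀ p ∈ l, p ∈ l2 := fun p hp => by
    rw [hl2]
    exact List.mem_cons_of_mem _ (List.mem_cons_of_mem _ (List.mem_append_right _ hp))
  obtain ⟨l3, h6, h7, h8⟩ := h5.sum3 (Finset.univ : Finset (Fin (L + 1)))
    (fun a => ww k n i (a + 1) (L + 2)) (fun a => br n (xx k n) (ww k n) i (a + 1))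
    (fun a => br n (xx k n) (ww k n) (i + a + 1) (L + 1 - a))
    (fun a _ => by
      have ha := a.2
      exact ⟨hsub _ (hw _ _ _), hsub _ (hbr i (a + 1) (by omega) (by omega)),
        hsub _ (hbr (i + a + 1) (L + 1 - a) (by omega) (by omega)),
        (rowsIn_br (a + 1) i).noCommon (rowsIn_br (L + 1 - a) (i + a + 1)) (by omega),
        noCommon_ww _ _ _ _⟩)
  rw [Finset.card_univ, Fintype.card_fin] at h8
  refine ⟨br n (xx k n) (ww k n) i (L + 2) :: (l3 ++
    ((ww k n i 0 (L + 2) * (ip * br n (xx k n) (ww k n) (i + 1) L)) ::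
      (ip * br n (xx k n) (ww k n) (i + 1) L) :: l1)), ?_, by simp, ?_⟩
  · have h9 := RowProgram.add h6 (List.mem_append_right l3 (show ww k n i 0 (L + 2) *
      (ip * br n (xx k n) (ww k n) (i + 1) L) ∈ l2 by rw [hl2]; simp)) h7
    rw [← br_succ] at h9
    have h10 : (br n (xx k n) (ww k n) i (L + 2) :: (l3 ++
        ((ww k n i 0 (L + 2) * (ip * br n (xx k n) (ww k n) (i + 1) L)) ::
        (ip * br n (xx k n) (ww k n) (i + 1) L) :: l1))) ++ l =
        br n (xx k n) (ww k n) i (L + 2) :: (l3 ++ l2) := by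
      rw [hl2]
      simp
    rw [h10]
    exact h9
  · simp only [List.length_cons, List.length_append]
    omega

/-- All intervals of length at most `L`. -/
theorem RowProgram.all {l : List (MvPolynomial ((Fin n × Fin n) ⊕ Wv n) k)}
    (hl : RowProgram k n l) (hx : ∀ i c, i < n → c < n → xx k n i c ∈ l)
    (hw : ∀ i a b, ww k n i a b ∈ l) (h1 : (1 : MvPolynomial ((Fin n × Fin n) ⊕ Wv n) k) ∈ l)
    (L : ℕ) : ∃ l', RowProgram k n (l' ++ l) ∧
      (∀ j b, b ≤ L → j + b ≤ n → br n (xx k n) (ww k n) j b ∈ l' ++ l) ∧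
      l'.length ≤ L * (n * (5 * n + 2)) := by
  induction L with
  | zero =>
    refine ⟨[], by simpa using hl, fun j b hb _ => ?_, by simp⟩
    have : b = 0 := by omega
    subst this
    rw [br_zero]
    simpa using h1
  | succ L ih =>
    obtain ⟨l', h2, h3, h4⟩ := ih
    rcases Nat.eq_zero_or_pos L with h0 | h0
    · subst h0
      refine ⟨l', h2, fun j b hb hj => ?_, h4.trans (by simp)⟩
      rcases Nat.eq_zero_or_pos b with hb0 | hb0
      · exact h3 j b (by omega) hj
      · have : b = 1 := by omega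
        subst this
        rw [br_one]
        exact List.mem_append_right _ (hx j 0 (by omega) (by omega))
    · obtain ⟨M, rfl⟩ : ∃ M, L = M + 1 := ⟨L - 1, by omega⟩
      -- the intervals of length `M + 2` with left end less than `t`
      have hstep : ∀ t, t ≤ n → ∃ l'', RowProgram k n (l'' ++ (l' ++ l)) ∧
          (∀ j, j < t → j + (M + 2) ≤ n → br n (xx k n) (ww k n) j (M + 2) ∈ l'' ++ (l' ++ l)) ∧
          l''.length ≤ t * (5 * n + 2) := by
        intro t
        induction t with
        | zero => exact fun _ => ⟨[], by simpa using h2, fun j hj => by omega, by simp⟩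
        | succ t iht =>
          intro ht
          obtain ⟨l1, h5, h6, h7⟩ := iht (by omega)
          by_cases htn : t + (M + 2) ≤ n
          · obtain ⟨l2, h8, h9, h10⟩ := h5.step
              (fun i c hi hc => List.mem_append_right _ (List.mem_append_right _ (hx i c hi hc)))
              (fun i a b => List.mem_append_right _ (List.mem_append_right _ (hw i a b))) M t htn
              (fun j b hb hj => List.mem_append_right _ (h3 j b (by omega) hj))
            refine ⟨l2 ++ l1, by rw [List.append_assoc]; exact h8, fun j hj hjn => ?_, ?_⟩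
            · rw [List.append_assoc]
              rcases Nat.lt_succ_iff_lt_or_eq.1 hj with h11 | h11
              · exact List.mem_append_right _ (h6 j h11 hjn)
              · subst h11
                exact h9
            · rw [List.length_append, Nat.succ_mul]
              omega
          · refine ⟨l1, h5, fun j hj hjn => ?_, h7.trans (Nat.mul_le_mul_right _ (by omega))⟩
            exact h6 j (by omega) hjn
      obtain ⟨l'', h5, h6, h7⟩ := hstep n le_rfl
      refine ⟨l'' ++ l', by rw [List.append_assoc]; exact h5, fun j b hb hj => ?_, ?_⟩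
      · rw [List.append_assoc]
        by_cases hbM : b ≤ M + 1
        · exact List.mem_append_right _ (h3 j b hbM hj)
        · have : b = M + 2 := by omega
          subst this
          exact h6 j (by omega) hj
      · rw [List.length_append, Nat.succ_mul]
        omega

theorem RowProgram.vars (T : List ((Fin n × Fin n) ⊕ Wv n)) :
    RowProgram k n (T.map fun i => (X i : MvPolynomial ((Fin n × Fin n) ⊕ Wv n) k)) := by
  induction T with
  | nil => exact RowProgram.nil
  | cons a T ih => exact RowProgram.var a ih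

theorem totalDegree_xx (i c : ℕ) : (xx k n i c).totalDegree ≤ 1 := by
  unfold xx
  split_ifs
  · rcases subsingleton_or_nontrivial k with hk | hk
    · rw [Subsingleton.elim (X _ : MvPolynomial ((Fin n × Fin n) ⊕ Wv n) k) 0, totalDegree_zero]
      exact Nat.zero_le _
    · rw [totalDegree_X]
  · rw [totalDegree_zero]
    exact Nat.zero_le _

theorem totalDegree_ww (i a l : ℕ) : (ww k n i a l).totalDegree ≤ 1 := by
  unfold ww
  rcases subsingleton_or_nontrivial k with hk | hk
  · rw [Subsingleton.elim (X _ : MvPolynomial ((Fin n × Fin n) ⊕ Wv n) k) 0, totalDegree_zero]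
    exact Nat.zero_le _
  · rw [totalDegree_X]

theorem totalDegree_br (l : ℕ) : ∀ i, (br n (xx k n) (ww k n) i l).totalDegree + 1 ≤ 2 * l ∨
    (l = 0 ∧ (br n (xx k n) (ww k n) i l).totalDegree = 0) := by
  induction l using Nat.strong_induction_on with
  | _ l ih =>
    intro i
    match l with
    | 0 =>
      right
      rw [br_zero, totalDegree_one]
      exact ⟨rfl, rfl⟩
    | 1 =>
      left
      rw [br_one]
      have := totalDegree_xx (k := k) (n := n) i 0
      omega
    | l + 2 =>
      left
      rw [br_succ]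
      have h1 : (ww k n i 0 (l + 2) * ((∑ c ∈ range n, xx k n i c * xx k n (i + l + 1) c) *
          br n (xx k n) (ww k n) (i + 1) l)).totalDegree ≤ 2 * l + 3 := by
        refine (totalDegree_mul _ _).trans ?_
        have h2 := totalDegree_ww (k := k) (n := n) i 0 (l + 2)
        have h3 : (∑ c ∈ range n, xx k n i c * xx k n (i + l + 1) c).totalDegree ≤ 2 := by
          refine totalDegree_finsetSum_le fun c _ => (totalDegree_mul _ _).trans ?_
          have h4 := totalDegree_xx (k := k) (n := n) i c
          have h5 := totalDegree_xx (k := k) (n := n) (i + l + 1) c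
          omega
        have h6 := totalDegree_mul (∑ c ∈ range n, xx k n i c * xx k n (i + l + 1) c)
          (br n (xx k n) (ww k n) (i + 1) l)
        rcases ih l (by omega) (i + 1) with h7 | ⟨h7, h8⟩ <;> omega
      have h2 : (∑ a : Fin (l + 1), ww k n i (a + 1) (l + 2) *
          (br n (xx k n) (ww k n) i (a + 1) *
            br n (xx k n) (ww k n) (i + a + 1) (l + 1 - a))).totalDegree ≤ 2 * l + 3 := by
        refine totalDegree_finsetSum_le fun a _ => (totalDegree_mul _ _).trans ?_
        have ha := a.2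
        have h3 := totalDegree_ww (k := k) (n := n) i (a + 1) (l + 2)
        have h4 := totalDegree_mul (br n (xx k n) (ww k n) i (a + 1))
          (br n (xx k n) (ww k n) (i + a + 1) (l + 1 - a))
        rcases ih (a + 1) (by omega) i with h5 | ⟨h5, _⟩
        · rcases ih (l + 1 - a) (by omega) (i + a + 1) with h6 | ⟨h6, _⟩ <;> omega
        · omega
      have h3 := totalDegree_add (ww k n i 0 (l + 2) *
        ((∑ c ∈ range n, xx k n i c * xx k n (i + l + 1) c) *
          br n (xx k n) (ww k n) (i + 1) l)) (∑ a : Fin (l + 1), ww k n i (a + 1) (l + 2) *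
          (br n (xx k n) (ww k n) i (a + 1) * br n (xx k n) (ww k n) (i + a + 1) (l + 1 - a)))
      have h4 := max_le h1 h2
      omega

/-- The degree of the bracket polynomial is at most `2 n`. -/
theorem totalDegree_bracketPoly : (bracketPoly k n).totalDegree ≤ 2 * n := by
  have h : bracketPoly k n = br n (xx k n) (ww k n) 0 n := rfl
  rw [h]
  rcases totalDegree_br (k := k) (n := n) n 0 with h1 | ⟨h1, h2⟩ <;> omega

/-- The bracket polynomial has a row-disjoint program of length at most `6 (n + 1) ^ 3`. -/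
theorem bracket_upper : ∃ l, RowProgram k n l ∧ bracketPoly k n ∈ l ∧
    l.length ≤ 6 * (n + 1) ^ 3 := by
  classical
  set V : List (MvPolynomial ((Fin n × Fin n) ⊕ Wv n) k) :=
    ((Finset.univ : Finset ((Fin n × Fin n) ⊕ Wv n)).toList).map fun i => X i with hV
  have h1 : RowProgram k n (C 1 :: V) := RowProgram.const 1 (RowProgram.vars _)
  have h2 : ∀ i, (X i : MvPolynomial ((Fin n × Fin n) ⊕ Wv n) k) ∈ C 1 :: V := fun i =>
    List.mem_cons_of_mem _ (List.mem_map.2 ⟨i, by simp, rfl⟩)
  obtain ⟨l', h3, h4, h5⟩ := h1.all (fun i c hi hc => by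
      unfold xx
      rw [dif_pos ⟨hi, hc⟩]
      exact h2 _) (fun i a b => h2 _) (by rw [← C_1]; simp) n
  refine ⟨l' ++ (C 1 :: V), h3, h4 0 n le_rfl (by omega), ?_⟩
  rw [List.length_append, List.length_cons, hV, List.length_map, Finset.length_toList,
    Finset.card_univ, Fintype.card_sum, Fintype.card_prod, Fintype.card_prod, Fintype.card_prod,
    Fintype.card_fin, Fintype.card_fin]
  nlinarith [h5]

end

end Pool.Agent.W942
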