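import Pool.Agent.W942.Stats

/-!
# The function `exp (-c log² t)`
-/

set_option autoImplicit false

namespace Pool.Agent.W942

open Finset Real

/-- The constant in the exponent. -/
noncomputable def cc : ℝ := 1 / 5000

/-- `exp (-c log² t)` -/
noncomputable def phi (t : ℕ) : ℝ := Real.exp (-(cc * (Real.log t) ^ 2))

theorem phi_pos (t : ℕ) : 0 < phi t := Real.exp_pos _

theorem phi_one : phi 1 = 1 := by simp [phi]

theorem logsq_step (u : ℕ) (hu : 1 ≤ u) :
    (Real.log ((u + 1 : ℕ) : ℝ)) ^ 2 - (Real.log u) ^ 2 ≤ 2 := by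
  have hu' : (1 : ℝ) ≤ u := by exact_mod_cast hu
  have h0 : (0 : ℝ) < u := by linarith
  have h1 : Real.log ((u + 1 : ℕ) : ℝ) - Real.log u ≤ 1 / u := by
    rw [← Real.log_div (by positivity) h0.ne']
    have : ((u + 1 : ℕ) : ℝ) / u = 1 + 1 / u := by push_cast; field_simp
    rw [this]
    have := Real.log_le_sub_one_of_pos (show (0 : ℝ) < 1 + 1 / u by positivity)
    linarith
  have h2 : Real.log ((u + 1 : ℕ) : ℝ) ≤ u := by
    have := Real.log_le_sub_one_of_pos (show (0 : ℝ) < ((u + 1 : ℕ) : ℝ) by positivity)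
    push_cast at this ⊢
    linarith
  have h3 : Real.log u ≤ Real.log ((u + 1 : ℕ) : ℝ) :=
    Real.log_le_log h0 (by push_cast; linarith)
  have h4 : 0 ≤ Real.log u := Real.log_nonneg hu'
  calc (Real.log ((u + 1 : ℕ) : ℝ)) ^ 2 - (Real.log u) ^ 2
      = (Real.log ((u + 1 : ℕ) : ℝ) - Real.log u) * (Real.log ((u + 1 : ℕ) : ℝ) + Real.log u) := by
        ring
    _ ≤ (1 / u) * (u + u) := by
        refine mul_le_mul h1 (by linarith) (by linarith) (by positivity)
    _ = 2 := by field_simp; ring

theorem logsq_diff (u t : ℕ) (hu : 1 ≤ u) :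
    (Real.log ((u + t : ℕ) : ℝ)) ^ 2 - (Real.log u) ^ 2 ≤ 2 * t := by
  induction t with
  | zero => simp
  | succ t ih =>
    have h1 := logsq_step (u + t) (by omega)
    rw [show u + (t + 1) = u + t + 1 by ring]
    push_cast at *
    linarith

theorem phi_weaken (u t : ℕ) (hu : 1 ≤ u) : phi u * (103 / 108) ^ t ≤ phi (u + t) := by
  unfold phi
  have h1 := logsq_diff u t hu
  have h2 : (103 / 108 : ℝ) ^ t ≤ Real.exp (-(5 / 108 * t)) := by
    have h3 : (103 / 108 : ℝ) ≤ Real.exp (-(5 / 108)) := by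
      have := Real.add_one_le_exp (-(5 / 108 : ℝ))
      linarith
    calc (103 / 108 : ℝ) ^ t ≤ (Real.exp (-(5 / 108))) ^ t := by
          exact pow_le_pow_left₀ (by norm_num) h3 t
      _ = _ := by rw [← Real.exp_nat_mul]; congr 1; ring
  calc Real.exp (-(cc * (Real.log u) ^ 2)) * (103 / 108) ^ t
      ≤ Real.exp (-(cc * (Real.log u) ^ 2)) * Real.exp (-(5 / 108 * t)) := by gcongr
    _ = Real.exp (-(cc * (Real.log u) ^ 2) + -(5 / 108 * t)) := by rw [Real.exp_add]
    _ ≤ _ := by
      rw [Real.exp_le_exp]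
      have ht : (0 : ℝ) ≤ t := Nat.cast_nonneg t
      unfold cc
      nlinarith

theorem phi_mul_psi (u t : ℕ) (ht : 1 ≤ t) (htu : t ≤ u) : phi u * psi t ≤ phi (u + t) := by
  have ht' : (1 : ℝ) ≤ t := by exact_mod_cast ht
  have htu' : (t : ℝ) ≤ u := by exact_mod_cast htu
  have hu0 : (0 : ℝ) < u := by linarith
  have ht0 : (0 : ℝ) < t := by linarith
  set L : ℝ := Real.log (t + 1) with hL
  have hL0 : 0 ≤ L := Real.log_nonneg (by linarith)
  -- the difference of the squares
  have hD : (Real.log ((u + t : ℕ) : ℝ)) ^ 2 - (Real.log u) ^ 2 ≤ 2 * (L + 2) := by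
    have h1 : Real.log ((u + t : ℕ) : ℝ) - Real.log u ≤ t / u := by
      rw [← Real.log_div (by positivity) hu0.ne']
      have : ((u + t : ℕ) : ℝ) / u = 1 + t / u := by push_cast; field_simp
      rw [this]
      have := Real.log_le_sub_one_of_pos (show (0 : ℝ) < 1 + t / u by positivity)
      linarith
    have h0 : 0 ≤ Real.log ((u + t : ℕ) : ℝ) - Real.log u := by
      have := Real.log_le_log hu0 (show (u : ℝ) ≤ ((u + t : ℕ) : ℝ) by push_cast; linarith)
      linarith
    have h2 : Real.log ((u + t : ℕ) : ℝ) ≤ Real.log (2 * u) :=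
      Real.log_le_log (by positivity) (by push_cast; linarith)
    have h2' : Real.log u ≤ Real.log (2 * u) := Real.log_le_log hu0 (by linarith)
    have h3 : Real.log (2 * u) ≤ Real.log (2 * t) + u / t := by
      have h4 : Real.log (2 * u) = Real.log (2 * t) + Real.log (u / t) := by
        rw [← Real.log_mul (by positivity) (by positivity)]
        congr 1
        field_simp
      have h5 := Real.log_le_sub_one_of_pos (show (0 : ℝ) < u / t by positivity)
      rw [h4]; linarith
    have h6 : 0 ≤ Real.log (2 * t) := Real.log_nonneg (by linarith)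
    have h7 : Real.log (2 * t) ≤ 1 + L := by
      have h8 : Real.log (2 * t) ≤ Real.log (2 * (t + 1)) :=
        Real.log_le_log (by positivity) (by linarith)
      rw [Real.log_mul (show (2 : ℝ) ≠ 0 by norm_num) (show (t : ℝ) + 1 ≠ 0 by positivity),
        ← hL] at h8
      have := Real.log_two_lt_d9
      linarith
    have h9 : (t : ℝ) / u ≤ 1 := by rw [div_le_one hu0]; exact htu'
    calc (Real.log ((u + t : ℕ) : ℝ)) ^ 2 - (Real.log u) ^ 2
        = (Real.log ((u + t : ℕ) : ℝ) - Real.log u) *
          (Real.log ((u + t : ℕ) : ℝ) + Real.log u) := by ring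
      _ ≤ (Real.log ((u + t : ℕ) : ℝ) - Real.log u) * (2 * (Real.log (2 * t) + u / t)) :=
          mul_le_mul_of_nonneg_left (by linarith) h0
      _ ≤ (t / u) * (2 * (Real.log (2 * t) + u / t)) :=
          mul_le_mul_of_nonneg_right h1 (by positivity)
      _ = 2 * ((t / u) * Real.log (2 * t)) + 2 := by field_simp
      _ ≤ 2 * (1 * Real.log (2 * t)) + 2 := by
          have := mul_le_mul_of_nonneg_right h9 h6
          linarith
      _ ≤ 2 * (L + 2) := by linarith
  -- the bound for `psi`
  have hpsi : psi t ≤ Real.exp (-(cc * (2 * (L + 2)))) := by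
    by_cases hc : L ≤ 11
    · have h1 := psi_le_one t (by omega)
      have h2 := Real.add_one_le_exp (-(cc * (2 * (L + 2))))
      have h3 : cc * (2 * (L + 2)) ≤ 26 / 5000 := by unfold cc; linarith
      have h4 : (161 / 162 : ℝ) ≤ 1 - 26 / 5000 := by norm_num
      linarith
    · push Not at hc
      have h1 := psi_le_sqrt t
      have h2 : Real.sqrt ((t : ℝ) + 1) = Real.exp (L / 2) := by
        rw [hL, ← Real.exp_log (show (0 : ℝ) < t + 1 by positivity), Real.exp_log (by positivity),
          Real.sqrt_eq_iff_mul_self_eq (by positivity) (by positivity), ← Real.exp_add,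
          add_halves, Real.exp_log (by positivity)]
      rw [h2] at h1
      have h3 : (34 : ℝ) ≤ Real.exp 4 := by
        have h4 : (2.7182818283 : ℝ) < Real.exp 1 := Real.exp_one_gt_d9
        have h5 : Real.exp 4 = (Real.exp 1) ^ 4 := by rw [← Real.exp_nat_mul]; norm_num
        rw [h5]
        calc (34 : ℝ) ≤ (2.7182818283 : ℝ) ^ 4 := by norm_num
          _ ≤ _ := by gcongr
      refine h1.trans ?_
      rw [div_le_iff₀ (Real.exp_pos _), ← Real.exp_add]
      refine h3.trans (Real.exp_le_exp.2 ?_)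
      unfold cc
      linarith
  unfold phi
  calc Real.exp (-(cc * (Real.log u) ^ 2)) * psi t
      ≤ Real.exp (-(cc * (Real.log u) ^ 2)) * Real.exp (-(cc * (2 * (L + 2)))) := by gcongr
    _ = Real.exp (-(cc * (Real.log u) ^ 2) + -(cc * (2 * (L + 2)))) := by rw [Real.exp_add]
    _ ≤ _ := by
      rw [Real.exp_le_exp]
      unfold cc
      linarith

theorem psi_le_of_any (t : ℕ) : psi t ≤ 1 := by
  by_cases ht : t = 0
  · rw [ht, psi_zero]
  · have := psi_le_one t ht
    linarith

/-- The inequality used at products and determinants: `t a` is the largest number. -/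
theorem phi_prod {ι : Type*} [DecidableEq ι] (s : Finset ι) (u : ℕ) (t : ι → ℕ)
    (ht : ∀ i ∈ s, t i ≤ u) : phi u * ∏ i ∈ s, psi (t i) ≤ phi (u + ∑ i ∈ s, t i) := by
  induction s using Finset.induction_on with
  | empty => simp
  | insert a s ha ih =>
    rw [Finset.prod_insert ha, Finset.sum_insert ha]
    have h1 := ih fun i hi => ht i (Finset.mem_insert_of_mem hi)
    have h2 : t a ≤ u := ht a (Finset.mem_insert_self a s)
    have h3 : phi u * (psi (t a) * ∏ i ∈ s, psi (t i)) =
        (phi u * ∏ i ∈ s, psi (t i)) * psi (t a) := by ring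
    rw [h3]
    refine (mul_le_mul_of_nonneg_right h1 (psi_nonneg _)).trans ?_
    by_cases h4 : t a = 0
    · rw [h4, psi_zero, mul_one, zero_add]
    · have h5 := phi_mul_psi (u + ∑ i ∈ s, t i) (t a) (by omega) (by omega)
      rw [show u + (t a + ∑ i ∈ s, t i) = u + ∑ i ∈ s, t i + t a by ring]
      exact h5

end Pool.Agent.W942
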