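import Pool.Agent.W942.Fam
import Pool.Agent.W942.Phi

/-!
# Row-disjoint formulas with determinant gates
-/

set_option autoImplicit false

namespace Pool.Agent.W942

open Finset MvPolynomial

universe u

/-- Formulas over the polynomials in the entries of an `n × n` matrix of variables: constants,
leaves carrying a polynomial, sums, products, and determinants of matrices of formulas. -/
inductive Formula (K : Type u) [CommRing K] (n : ℕ) : Type u
  | const (a : K)
  | leaf (p : MvPolynomial (Fin n × Fin n) K)
  | add (f g : Formula K n)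
  | mul (f g : Formula K n)
  | det (m : ℕ) (f : Fin m → Fin m → Formula K n)

namespace Formula

variable {K : Type u} [CommRing K] {n : ℕ}

/-- The polynomial computed by a formula. -/
noncomputable def poly : Formula K n → MvPolynomial (Fin n × Fin n) K
  | const a => C a
  | leaf p => p
  | add f g => poly f + poly g
  | mul f g => poly f * poly g
  | det _ f => (Matrix.of fun a b => poly (f a b)).det

/-- The number of leaves and gates; constants are free. -/
def size : Formula K n → ℕ
  | const _ => 0
  | leaf _ => 1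
  | add f g => size f + size g + 1
  | mul f g => size f + size g + 1
  | det m f => (∑ a : Fin m, ∑ b : Fin m, size (f a b)) + 1

/-- The rows of the matrix of variables occurring in a formula. -/
noncomputable def rows : Formula K n → Finset (Fin n)
  | const _ => ∅
  | leaf p => p.vars.image Prod.fst
  | add f g => rows f ∪ rows g
  | mul f g => rows f ∪ rows g
  | det m f => (Finset.univ : Finset (Fin m)).biUnion fun a =>
      (Finset.univ : Finset (Fin m)).biUnion fun b => rows (f a b)

/-- Every leaf has at most `t` rows, the factors of a product have disjoint sets of rows, and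
entries in different rows of the matrix of a determinant have disjoint sets of rows. -/
def RowDisjoint (t : ℕ) : Formula K n → Prop
  | const _ => True
  | leaf p => (p.vars.image Prod.fst).card ≤ t
  | add f g => RowDisjoint t f ∧ RowDisjoint t g
  | mul f g => RowDisjoint t f ∧ RowDisjoint t g ∧ Disjoint (rows f) (rows g)
  | det m f => (∀ a b : Fin m, RowDisjoint t (f a b)) ∧
      ∀ a a' b b' : Fin m, a ≠ a' → Disjoint (rows (f a b)) (rows (f a' b'))

theorem eval_congr (x y : Fin n × Fin n → K) (Φ : Formula K n)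
    (h : ∀ i ∈ Φ.rows, ∀ j, x (i, j) = y (i, j)) : eval x Φ.poly = eval y Φ.poly := by
  induction Φ with
  | const a => simp [poly]
  | leaf p =>
    refine MvPolynomial.hom_congr_vars (f₁ := eval x) (f₂ := eval y) ?_ (fun i hi _ => ?_) rfl
    · ext r; simp
    · rw [eval_X, eval_X]
      exact h i.1 (Finset.mem_image.2 ⟨i, hi, rfl⟩) i.2
  | add f g ihf ihg =>
    simp only [poly, map_add]
    rw [ihf fun i hi => h i (Finset.mem_union_left _ hi),
      ihg fun i hi => h i (Finset.mem_union_right _ hi)]
  | mul f g ihf ihg =>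
    simp only [poly, map_mul]
    rw [ihf fun i hi => h i (Finset.mem_union_left _ hi),
      ihg fun i hi => h i (Finset.mem_union_right _ hi)]
  | det m f ih =>
    simp only [poly]
    rw [RingHom.map_det, RingHom.map_det]
    congr 1
    ext a b
    simp only [RingHom.mapMatrix_apply, Matrix.map_apply, Matrix.of_apply]
    exact ih a b fun i hi => h i (Finset.mem_biUnion.2 ⟨a, Finset.mem_univ _,
      Finset.mem_biUnion.2 ⟨b, Finset.mem_univ _, hi⟩⟩)

end Formula

section
variable {K : Type u} [Field K] {n : ℕ}

/-- The matrix of values: rows in `N` with label `+` are given by `u`, rows in `N` with label `-`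
are given by `v`, the other rows are constant. -/
def pt (N : Finset (Fin n)) (lam : Fin n → SignType) (w : Fin n → Fin 36 → Fin n → K)
    (al : Fin n → Fin n → K) (u v : Fin n → Fin 36) : Fin n × Fin n → K := fun ij =>
  if ij.1 ∈ N ∧ lam ij.1 = 1 then w ij.1 (u ij.1) ij.2
  else if ij.1 ∈ N ∧ lam ij.1 = -1 then w ij.1 (v ij.1) ij.2 else al ij.1 ij.2

/-- The values of a polynomial. -/
noncomputable def valP (N : Finset (Fin n)) (p : MvPolynomial (Fin n × Fin n) K) :
    Fam K n ((Fin n → Fin 36 → Fin n → K) × (Fin n → Fin n → K)) :=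
  fun lam o u v => eval (pt N lam o.1 o.2 u v) p

theorem pt_congr (N R : Finset (Fin n)) (lam : Fin n → SignType) (w : Fin n → Fin 36 → Fin n → K)
    (al : Fin n → Fin n → K) (u u' v v' : Fin n → Fin 36)
    (hu : ∀ r ∈ R ∩ N, lam r = 1 → u r = u' r) (hv : ∀ r ∈ R ∩ N, lam r = -1 → v r = v' r)
    (i : Fin n) (hi : i ∈ R) (j : Fin n) :
    pt N lam w al u v (i, j) = pt N lam w al u' v' (i, j) := by
  unfold pt
  by_cases h1 : i ∈ N ∧ lam i = 1
  · rw [if_pos h1, if_pos h1, hu i (Finset.mem_inter.2 ⟨hi, h1.1⟩) h1.2]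
  · by_cases h2 : i ∈ N ∧ lam i = -1
    · rw [if_neg h1, if_neg h1, if_pos h2, if_pos h2, hv i (Finset.mem_inter.2 ⟨hi, h2.1⟩) h2.2]
    · rw [if_neg h1, if_neg h1, if_neg h2, if_neg h2]

theorem locF_val (N : Finset (Fin n)) (Φ : Formula K n) : LocF (Φ.rows ∩ N) (valP N Φ.poly) :=
  fun lam o u u' v v' hu hv => Formula.eval_congr _ _ Φ fun i hi j =>
    pt_congr N Φ.rows lam o.1 o.2 u u' v v' hu hv i hi j

theorem phi_anti {s t : ℕ} (hs : 1 ≤ s) (hst : s ≤ t) : phi t ≤ phi s := by
  unfold phi
  have hs' : (1 : ℝ) ≤ s := by exact_mod_cast hs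
  have hst' : (s : ℝ) ≤ t := by exact_mod_cast hst
  have h1 : Real.log s ≤ Real.log t := Real.log_le_log (by linarith) hst'
  have h0 : 0 ≤ Real.log s := Real.log_nonneg hs'
  rw [Real.exp_le_exp]
  have h2 : (Real.log s) ^ 2 ≤ (Real.log t) ^ 2 := pow_le_pow_left₀ h0 h1 2
  unfold cc
  linarith

theorem phi_le_one (t : ℕ) : phi t ≤ 1 := by
  unfold phi
  rw [Real.exp_le_one_iff]
  have : 0 ≤ (Real.log t) ^ 2 := sq_nonneg _
  unfold cc
  linarith

theorem pow_le_phi (t : ℕ) : (103 / 108 : ℝ) ^ t ≤ phi t := by
  rcases Nat.eq_zero_or_pos t with h | h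
  · subst h; simp [phi]
  · have h1 := phi_weaken 1 t le_rfl
    rw [phi_one, one_mul] at h1
    exact h1.trans (phi_anti h (by omega))

theorem Bd.lift_phi {Om : Type*} {R S : Finset (Fin n)} {s : ℝ} (hs : 0 ≤ s) {F : Fam K n Om}
    (h : Bd R (s * phi R.card) F) (hRS : R ⊆ S) (hR : R.Nonempty) : Bd S (s * phi S.card) F := by
  refine (h.lift hRS).mono ?_
  have h1 := phi_weaken R.card (S.card - R.card) (Finset.card_pos.2 hR)
  rw [Nat.add_sub_cancel' (Finset.card_le_card hRS)] at h1
  rw [mul_assoc]
  exact mul_le_mul_of_nonneg_left h1 hs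

theorem Bd.const_phi {Om : Type*} {S : Finset (Fin n)} {F : Fam K n Om} (h : LocF ∅ F) :
    Bd S (phi S.card) F := by
  refine ((Bd.const h).lift (Finset.empty_subset S)).mono ?_
  rw [Finset.card_empty, Nat.sub_zero, one_mul]
  exact pow_le_phi _

theorem Bd.of_empty {Om : Type*} {R : Finset (Fin n)} {F : Fam K n Om} (h : LocF R F)
    (hR : R = ∅) : LocF ∅ F := hR ▸ h

/-- The main estimate. -/
theorem formula_bound (N : Finset (Fin n)) (t : ℕ) (ht : 1 ≤ t) (Φ : Formula K n)
    (hΦ : Φ.RowDisjoint t) (hne : (Φ.rows ∩ N).Nonempty) :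
    Bd (Φ.rows ∩ N) (Φ.size * (phi t)⁻¹ * phi (Φ.rows ∩ N).card) (valP N Φ.poly) := by
  classical
  have hk : 1 ≤ (phi t)⁻¹ := (one_le_inv₀ (phi_pos t)).2 (phi_le_one t)
  have hk0 : 0 ≤ (phi t)⁻¹ := by linarith
  induction Φ with
  | const a => simp [Formula.rows] at hne
  | leaf p =>
    refine (Bd.loc (locF_val N (Formula.leaf p))).mono ?_
    refine (psi_le_of_any _).trans ?_
    have h1 : phi t ≤ phi ((Formula.leaf p).rows ∩ N).card :=
      phi_anti (Finset.card_pos.2 hne) ((Finset.card_le_card Finset.inter_subset_left).trans hΦ)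
    simp only [Formula.size, Nat.cast_one, one_mul]
    rw [← div_eq_inv_mul, one_le_div (phi_pos t)]
    exact h1
  | add f g ihf ihg =>
    obtain ⟨hf, hg⟩ := hΦ
    have hsub1 : f.rows ∩ N ⊆ (f.add g).rows ∩ N :=
      Finset.inter_subset_inter_right Finset.subset_union_left
    have hsub2 : g.rows ∩ N ⊆ (f.add g).rows ∩ N :=
      Finset.inter_subset_inter_right Finset.subset_union_right
    have hval : ∀ lam o u v, valP N (f.add g).poly lam o u v =
        valP N f.poly lam o u v + valP N g.poly lam o u v := by
      intro lam o u v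
      simp [valP, Formula.poly]
    have hph := phi_pos ((f.add g).rows ∩ N).card
    set ph := phi ((f.add g).rows ∩ N).card with hph'
    have hsz : (((f.add g).size : ℕ) : ℝ) = f.size + g.size + 1 := by
      simp [Formula.size]
    have hfc : (0 : ℝ) ≤ f.size := Nat.cast_nonneg _
    have hgc : (0 : ℝ) ≤ g.size := Nat.cast_nonneg _
    have key : ∀ (f : Formula K n), (f.rows ∩ N ⊆ (Formula.add f g).rows ∩ N) → True := fun _ _ =>
      trivial
    by_cases h1 : (f.rows ∩ N).Nonempty
    · have b1 := (ihf hf h1).lift_phi (by positivity) hsub1 h1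
      by_cases h2 : (g.rows ∩ N).Nonempty
      · have b2 := (ihg hg h2).lift_phi (by positivity) hsub2 h2
        refine ((b1.add b2).mono ?_).congr hval
        rw [hsz]
        have h3 : 0 ≤ (phi t)⁻¹ * ph := by positivity
        linarith
      · have hge : g.rows ∩ N = ∅ := Finset.not_nonempty_iff_eq_empty.1 h2
        have b2 := Bd.const_phi (S := (f.add g).rows ∩ N) (hge ▸ locF_val N g)
        refine ((b1.add b2).mono ?_).congr hval
        rw [hsz]
        have h3 : 0 ≤ (g.size : ℝ) * (phi t)⁻¹ * ph := by positivity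
        have h4 : ph ≤ (phi t)⁻¹ * ph := le_mul_of_one_le_left hph.le hk
        linarith
    · have hfe : f.rows ∩ N = ∅ := Finset.not_nonempty_iff_eq_empty.1 h1
      have h2 : (g.rows ∩ N).Nonempty := by
        rw [Formula.rows, Finset.union_inter_distrib_right, hfe, Finset.empty_union] at hne
        exact hne
      have b1 := Bd.const_phi (S := (f.add g).rows ∩ N) (hfe ▸ locF_val N f)
      have b2 := (ihg hg h2).lift_phi (by positivity) hsub2 h2
      refine ((b1.add b2).mono ?_).congr hval
      rw [hsz]
      have h3 : 0 ≤ (f.size : ℝ) * (phi t)⁻¹ * ph := by positivity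
      have h4 : ph ≤ (phi t)⁻¹ * ph := le_mul_of_one_le_left hph.le hk
      linarith
  | mul f g ihf ihg =>
    obtain ⟨hf, hg, hd⟩ := hΦ
    have hd' : Disjoint (f.rows ∩ N) (g.rows ∩ N) :=
      hd.mono Finset.inter_subset_left Finset.inter_subset_left
    have hu : (f.mul g).rows ∩ N = (f.rows ∩ N) ∪ (g.rows ∩ N) := by
      rw [Formula.rows, Finset.union_inter_distrib_right]
    have hval : ∀ lam o u v, valP N (f.mul g).poly lam o u v =
        valP N f.poly lam o u v * valP N g.poly lam o u v := by
      intro lam o u v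
      simp [valP, Formula.poly]
    have hval' : ∀ lam o u v, valP N (f.mul g).poly lam o u v =
        valP N g.poly lam o u v * valP N f.poly lam o u v := by
      intro lam o u v
      rw [hval, mul_comm]
    have hsz : (((f.mul g).size : ℕ) : ℝ) = f.size + g.size + 1 := by
      simp [Formula.size]
    have hfc : (0 : ℝ) ≤ f.size := Nat.cast_nonneg _
    have hgc : (0 : ℝ) ≤ g.size := Nat.cast_nonneg _
    have hcard : ((f.mul g).rows ∩ N).card = (f.rows ∩ N).card + (g.rows ∩ N).card := by
      rw [hu, Finset.card_union_of_disjoint hd']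
    have hcase : ∀ (a b : Formula K n) (_ : ∀ lam o u v, valP N (f.mul g).poly lam o u v =
        valP N a.poly lam o u v * valP N b.poly lam o u v)
        (_ : Disjoint (a.rows ∩ N) (b.rows ∩ N))
        (_ : (f.mul g).rows ∩ N = (a.rows ∩ N) ∪ (b.rows ∩ N))
        (_ : (((f.mul g).size : ℕ) : ℝ) = a.size + b.size + 1)
        (_ : (a.rows ∩ N).Nonempty)
        (_ : Bd (a.rows ∩ N) (a.size * (phi t)⁻¹ * phi (a.rows ∩ N).card) (valP N a.poly))
        (_ : (b.rows ∩ N).card ≤ (a.rows ∩ N).card),
        Bd ((f.mul g).rows ∩ N) ((f.mul g).size * (phi t)⁻¹ * phi ((f.mul g).rows ∩ N).card)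
          (valP N (f.mul g).poly) := by
      intro a b hv hdab huab hszab hane ba hle
      have h1 := (ba.mul_loc (locF_val N b) hdab).congr hv
      rw [huab]
      refine h1.mono ?_
      rw [Finset.card_union_of_disjoint hdab, hszab]
      have h2 : phi (a.rows ∩ N).card * psi (b.rows ∩ N).card ≤
          phi ((a.rows ∩ N).card + (b.rows ∩ N).card) := by
        have := phi_prod (ι := Unit) {()} (a.rows ∩ N).card (fun _ => (b.rows ∩ N).card)
          (fun _ _ => hle)
        simpa using this
      have h3 : (0 : ℝ) ≤ a.size * (phi t)⁻¹ := by positivity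
      have h4 : (0 : ℝ) ≤ ((b.size : ℝ) + 1) * (phi t)⁻¹ *
          phi ((a.rows ∩ N).card + (b.rows ∩ N).card) := by
        have := phi_pos ((a.rows ∩ N).card + (b.rows ∩ N).card)
        positivity
      calc _ = a.size * (phi t)⁻¹ * (phi (a.rows ∩ N).card * psi (b.rows ∩ N).card) := by ring
        _ ≤ a.size * (phi t)⁻¹ * phi ((a.rows ∩ N).card + (b.rows ∩ N).card) :=
          mul_le_mul_of_nonneg_left h2 h3
        _ ≤ _ := by linarith
    rcases le_total (g.rows ∩ N).card (f.rows ∩ N).card with hle | hle
    · have hfne : (f.rows ∩ N).Nonempty := by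
        rw [← Finset.card_pos] at hne ⊢
        omega
      exact hcase f g hval hd' hu hsz hfne (ihf hf hfne) hle
    · have hgne : (g.rows ∩ N).Nonempty := by
        rw [← Finset.card_pos] at hne ⊢
        omega
      exact hcase g f hval' hd'.symm (by rw [hu, Finset.union_comm]) (by rw [hsz]; ring) hgne
        (ihg hg hgne) hle
  | det m f ih =>
    obtain ⟨hf, hd⟩ := hΦ
    -- the rows of `X` in row `a` of the matrix
    set R : Fin m → Finset (Fin n) := fun a =>
      ((Finset.univ : Finset (Fin m)).biUnion fun b => (f a b).rows) ∩ N with hRdef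
    have hu : (Formula.det m f).rows ∩ N = Finset.univ.biUnion R := by
      rw [Formula.rows, Finset.biUnion_inter]
    have hsubR : ∀ a b, (f a b).rows ∩ N ⊆ R a := fun a b =>
      Finset.inter_subset_inter_right (Finset.subset_biUnion_of_mem (fun b => (f a b).rows)
        (Finset.mem_univ b))
    have hRd : ∀ a a', a ≠ a' → Disjoint (R a) (R a') := by
      intro a a' haa
      refine Disjoint.mono Finset.inter_subset_left Finset.inter_subset_left ?_
      rw [Finset.disjoint_biUnion_left]
      intro b _
      rw [Finset.disjoint_biUnion_right]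
      intro b' _
      exact hd a a' b b' haa
    have hE : ∀ a b, LocF (R a) (valP N (f a b).poly) := fun a b =>
      (locF_val N (f a b)).mono (hsubR a b)
    have hval : ∀ lam o u v, valP N (Formula.det m f).poly lam o u v =
        (Matrix.of fun a b => valP N (f a b).poly lam o u v).det := by
      intro lam o u v
      unfold valP
      simp only [Formula.poly]
      rw [RingHom.map_det]
      congr 1
    -- the largest block
    have hm : (Finset.univ : Finset (Fin m)).Nonempty := by
      rw [hu] at hne
      obtain ⟨i, hi⟩ := hne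
      obtain ⟨a, ha, _⟩ := Finset.mem_biUnion.1 hi
      exact ⟨a, ha⟩
    obtain ⟨l, _, hl⟩ := Finset.exists_max_image Finset.univ (fun a => (R a).card) hm
    have hRl : (R l).Nonempty := by
      rw [hu] at hne
      obtain ⟨i, hi⟩ := hne
      obtain ⟨a, ha, hia⟩ := Finset.mem_biUnion.1 hi
      have h1 := hl a ha
      rw [← Finset.card_pos]
      exact lt_of_lt_of_le (Finset.card_pos.2 ⟨i, hia⟩) h1
    set s : Finset (Fin m) := Finset.univ.filter fun b => ((f l b).rows ∩ N).Nonempty with hsdef
    have hmain := Bd.det R hRd (fun a b => valP N (f a b).poly) hE l s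
      (fun b => (f l b).size * (phi t)⁻¹ * phi (R l).card)
      (fun b hb => by
        have hb' := (Finset.mem_filter.1 hb).2
        exact (ih l b (hf l b) hb').lift_phi (by positivity) (hsubR l b) hb')
      (fun b hb => by
        have hb' : ¬ ((f l b).rows ∩ N).Nonempty := fun h =>
          hb (Finset.mem_filter.2 ⟨Finset.mem_univ _, h⟩)
        have hbe : (f l b).rows ∩ N = ∅ := Finset.not_nonempty_iff_eq_empty.1 hb'
        exact hbe ▸ locF_val N (f l b))
    rw [hu]
    refine (hmain.mono ?_).congr hval
    have hcard : (Finset.univ.biUnion R).card = (R l).card +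
        ∑ a ∈ Finset.univ.erase l, (R a).card := by
      rw [Finset.card_biUnion fun a _ b _ hab => hRd a b hab,
        ← Finset.add_sum_erase _ _ (Finset.mem_univ l)]
    have h1 := phi_prod (Finset.univ.erase l) (R l).card (fun a => (R a).card)
      (fun a _ => hl a (Finset.mem_univ a))
    rw [hcard]
    have h2 : (0 : ℝ) ≤ ∏ a ∈ Finset.univ.erase l, psi (R a).card :=
      Finset.prod_nonneg fun a _ => psi_nonneg _
    have h3 := pow_le_phi (R l).card
    have hphl := phi_pos (R l).card
    have h4 : (103 / 108 : ℝ) ^ (R l).card + ∑ b ∈ s, ((f l b).size * (phi t)⁻¹ *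
        phi (R l).card : ℝ) ≤ (Formula.det m f).size * (phi t)⁻¹ * phi (R l).card := by
      have h5 : ∑ b ∈ s, ((f l b).size : ℝ) ≤ ∑ a : Fin m, ∑ b : Fin m, ((f a b).size : ℝ) := by
        calc ∑ b ∈ s, ((f l b).size : ℝ) ≤ ∑ b : Fin m, ((f l b).size : ℝ) :=
              Finset.sum_le_sum_of_subset_of_nonneg (Finset.subset_univ s)
                fun _ _ _ => Nat.cast_nonneg _
          _ ≤ _ := Finset.single_le_sum (f := fun a => ∑ b : Fin m, ((f a b).size : ℝ))
            (fun a _ => Finset.sum_nonneg fun _ _ => Nat.cast_nonneg _) (Finset.mem_univ l)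
      have hsz : (((Formula.det m f).size : ℕ) : ℝ) =
          (∑ a : Fin m, ∑ b : Fin m, ((f a b).size : ℝ)) + 1 := by
        simp [Formula.size]
      rw [hsz, ← Finset.sum_mul, ← Finset.sum_mul, add_mul, add_mul, one_mul]
      have h6 : phi (R l).card ≤ (phi t)⁻¹ * phi (R l).card := le_mul_of_one_le_left hphl.le hk
      have h7 := mul_le_mul_of_nonneg_right h5 (show 0 ≤ (phi t)⁻¹ * phi (R l).card by positivity)
      rw [← mul_assoc, ← mul_assoc] at h7
      linarith
    calc _ ≤ ((Formula.det m f).size * (phi t)⁻¹ * phi (R l).card) *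
          ∏ a ∈ Finset.univ.erase l, psi (R a).card := mul_le_mul_of_nonneg_right h4 h2
      _ = ((Formula.det m f).size * (phi t)⁻¹) * (phi (R l).card *
          ∏ a ∈ Finset.univ.erase l, psi (R a).card) := by ring
      _ ≤ _ := mul_le_mul_of_nonneg_left h1 (by positivity)

end

end Pool.Agent.W942
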