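import Pool.Agent.W942.Fam2
import Pool.Agent.W942.Form

/-!
# Circuits of determinants of bounded depth
-/

set_option autoImplicit false
set_option maxHeartbeats 1000000

namespace Pool.Agent.W942

open Finset MvPolynomial

universe u

/-- A circuit with `s` nodes over the entries of an `n × n` matrix `X` of variables. Every node `i`
carries a polynomial, a set of rows of `X` and a number (its depth), and

* either it is a leaf: an arbitrary polynomial in the variables of at most one row of `X`;
* or it is a determinant gate: its polynomial is the determinant of a square matrix (of any order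
  `m`) the entries of which are linear combinations of `1` and of the polynomials of nodes of
  smaller depth, such that the nodes used in two different rows of the matrix have disjoint sets of
  rows of `X`; its set of rows is the union of the sets of rows of the nodes used.
-/
structure DetCircuit (K : Type u) [CommRing K] (n s : ℕ) where
  poly : Fin s → MvPolynomial (Fin n × Fin n) K
  rows : Fin s → Finset (Fin n)
  depth : Fin s → ℕ
  gate : ∀ i, ((rows i).card ≤ 1 ∧ ∀ x ∈ (poly i).vars, x.1 ∈ rows i) ∨
    ∃ (m : ℕ) (c : Fin m → Fin m → K) (d : Fin m → Fin m → Fin s → K),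
      (∀ a b j, d a b j ≠ 0 → depth j < depth i) ∧
      (∀ r, r ∈ rows i ↔ ∃ a b j, d a b j ≠ 0 ∧ r ∈ rows j) ∧
      (∀ a a' b b' j j', a ≠ a' → d a b j ≠ 0 → d a' b' j' ≠ 0 → Disjoint (rows j) (rows j')) ∧
      poly i = (Matrix.of fun a b => C (c a b) + ∑ j, C (d a b j) * poly j).det

section
variable {K : Type u} [Field K] {n s : ℕ}

/-- The rows used in row `a` of the matrix of a gate. -/
noncomputable def blk (D : DetCircuit K n s) (N : Finset (Fin n)) {m : ℕ}
    (d : Fin m → Fin m → Fin s → K) (a : Fin m) : Finset (Fin n) := by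
  classical
  exact N.filter fun r => ∃ b j, d a b j ≠ 0 ∧ r ∈ D.rows j

theorem mem_blk (D : DetCircuit K n s) (N : Finset (Fin n)) {m : ℕ}
    (d : Fin m → Fin m → Fin s → K) (a : Fin m) (r : Fin n) :
    r ∈ blk D N d a ↔ r ∈ N ∧ ∃ b j, d a b j ≠ 0 ∧ r ∈ D.rows j := by
  classical
  unfold blk
  exact Finset.mem_filter

theorem rows_subset_blk (D : DetCircuit K n s) (N : Finset (Fin n)) {m : ℕ}
    (d : Fin m → Fin m → Fin s → K) (a b : Fin m) (j : Fin s) (h : d a b j ≠ 0) :
    D.rows j ∩ N ⊆ blk D N d a := by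
  intro r hr
  obtain ⟨h1, h2⟩ := Finset.mem_inter.1 hr
  exact (mem_blk D N d a r).2 ⟨h2, b, j, h, h1⟩

theorem blk_disjoint (D : DetCircuit K n s) (N : Finset (Fin n)) {m : ℕ}
    (d : Fin m → Fin m → Fin s → K)
    (hd : ∀ a a' b b' j j', a ≠ a' → d a b j ≠ 0 → d a' b' j' ≠ 0 →
      Disjoint (D.rows j) (D.rows j')) (a a' : Fin m) (haa : a ≠ a') :
    Disjoint (blk D N d a) (blk D N d a') := by
  rw [Finset.disjoint_left]
  intro r hr hr'
  obtain ⟨_, b, j, h1, h2⟩ := (mem_blk D N d a r).1 hr
  obtain ⟨_, b', j', h1', h2'⟩ := (mem_blk D N d a' r).1 hr'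
  exact Finset.disjoint_left.1 (hd a a' b b' j j' haa h1 h1') h2 h2'

theorem biUnion_blk [DecidableEq (Fin n)] (D : DetCircuit K n s) (N : Finset (Fin n)) {m : ℕ}
    (d : Fin m → Fin m → Fin s → K) (i : Fin s)
    (hi : ∀ r, r ∈ D.rows i ↔ ∃ a b j, d a b j ≠ 0 ∧ r ∈ D.rows j) :
    (Finset.univ : Finset (Fin m)).biUnion (blk D N d) = D.rows i ∩ N := by
  ext r
  rw [Finset.mem_biUnion, Finset.mem_inter, hi]
  constructor
  · rintro ⟨a, _, ha⟩
    obtain ⟨h1, b, j, h2, h3⟩ := (mem_blk D N d a r).1 ha
    exact ⟨⟨a, b, j, h2, h3⟩, h1⟩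
  · rintro ⟨⟨a, b, j, h2, h3⟩, h1⟩
    exact ⟨a, Finset.mem_univ _, (mem_blk D N d a r).2 ⟨h1, b, j, h2, h3⟩⟩

/-- The values at a node depend on its rows only. -/
theorem DetCircuit.eval_congr (D : DetCircuit K n s) (x y : Fin n × Fin n → K) :
    ∀ (k : ℕ) (i : Fin s), D.depth i ≤ k → (∀ r ∈ D.rows i, ∀ j, x (r, j) = y (r, j)) →
      eval x (D.poly i) = eval y (D.poly i) := by
  intro k
  induction k using Nat.strong_induction_on with
  | _ k ih =>
    intro i hik h
    rcases D.gate i with ⟨_, hl⟩ | ⟨m, c, d, h1, h2, h3, h4⟩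
    · refine MvPolynomial.hom_congr_vars (f₁ := eval x) (f₂ := eval y) ?_ (fun z hz _ => ?_) rfl
      · ext r; simp
      · rw [eval_X, eval_X]
        exact h z.1 (hl z hz) z.2
    · rw [h4, RingHom.map_det, RingHom.map_det]
      congr 1
      ext a b
      simp only [RingHom.mapMatrix_apply, Matrix.map_apply, Matrix.of_apply, map_add, map_sum,
        map_mul, eval_C]
      congr 1
      refine Finset.sum_congr rfl fun j _ => ?_
      by_cases hj : d a b j = 0
      · rw [hj, zero_mul, zero_mul]
      · congr 1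
        exact ih (D.depth j) (lt_of_lt_of_le (h1 a b j hj) hik) j le_rfl fun r hr =>
          h r ((h2 r).2 ⟨a, b, j, hj, hr⟩)

theorem DetCircuit.locF (D : DetCircuit K n s) (N : Finset (Fin n)) (i : Fin s) :
    LocF (D.rows i ∩ N) (valP N (D.poly i)) :=
  fun lam o u u' v v' hu hv => D.eval_congr _ _ (D.depth i) i le_rfl fun r hr j =>
    pt_congr N (D.rows i) lam o.1 o.2 u u' v v' hu hv r hr j

theorem valP_gate (D : DetCircuit K n s) (N : Finset (Fin n)) {m : ℕ} (c : Fin m → Fin m → K)
    (d : Fin m → Fin m → Fin s → K) (p : MvPolynomial (Fin n × Fin n) K)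
    (hp : p = (Matrix.of fun a b => C (c a b) + ∑ j, C (d a b j) * D.poly j).det) :
    ∀ lam o u v, valP N p lam o u v =
      (Matrix.of fun a b => c a b + ∑ j, d a b j * valP N (D.poly j) lam o u v).det := by
  intro lam o u v
  unfold valP
  rw [hp, RingHom.map_det]
  congr 1
  ext a b
  simp only [RingHom.mapMatrix_apply, Matrix.map_apply, Matrix.of_apply, map_add, map_sum,
    map_mul, eval_C]

theorem locF_entry (D : DetCircuit K n s) (N : Finset (Fin n)) {m : ℕ} (c : Fin m → Fin m → K)
    (d : Fin m → Fin m → Fin s → K) (a b : Fin m) :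
    LocF (blk D N d a) (fun lam o u v => c a b + ∑ j, d a b j * valP N (D.poly j) lam o u v) := by
  intro lam o u u' v v' hu hv
  beta_reduce
  congr 1
  refine Finset.sum_congr rfl fun j _ => ?_
  by_cases hj : d a b j = 0
  · rw [hj, zero_mul, zero_mul]
  · congr 1
    exact (D.locF N j).mono (rows_subset_blk D N d a b j hj) lam o u u' v v' hu hv

/-- Gates of depth one. -/
theorem gate_one (D : DetCircuit K n s) (N : Finset (Fin n)) {m : ℕ} (c : Fin m → Fin m → K)
    (d : Fin m → Fin m → Fin s → K)
    (hd : ∀ a a' b b' j j', a ≠ a' → d a b j ≠ 0 → d a' b' j' ≠ 0 →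
      Disjoint (D.rows j) (D.rows j'))
    (hone : ∀ a b j, d a b j ≠ 0 → (D.rows j).card ≤ 1) :
    Bd ((Finset.univ : Finset (Fin m)).biUnion (blk D N d))
      ((26 / 27) ^ ((Finset.univ : Finset (Fin m)).biUnion (blk D N d)).card)
      (fun lam o u v => (Matrix.of fun a b => c a b + ∑ j, d a b j *
        valP N (D.poly j) lam o u v).det) := by
  classical
  set R := (Finset.univ : Finset (Fin m)).biUnion (blk D N d) with hR
  refine ⟨sm3 R, sm3_dep R, fun lam => by unfold sm3; positivity, (ex_sm3 R).le, fun lam o => ?_⟩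
  -- the rows with a label `+`, with a label `-`
  set A : Finset (Fin m) := Finset.univ.filter fun a => ∃ r ∈ blk D N d a, lam r = 1 with hA
  set B : Finset (Fin m) := Finset.univ.filter fun a => ∃ r ∈ blk D N d a, lam r = -1 with hB
  let pl : Fin s → Prop := fun j => ∃ r ∈ D.rows j ∩ N, lam r = 1
  let u0 : Fin n → Fin 36 := fun _ => 0
  let F : Fin m → (Fin n → Fin 36) → Fin m → K := fun a u b =>
    ∑ j, if pl j then d a b j * valP N (D.poly j) lam o u u0 else 0
  let G : Fin m → (Fin n → Fin 36) → Fin m → K := fun a v b =>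
    c a b + ∑ j, if pl j then 0 else d a b j * valP N (D.poly j) lam o u0 v
  have hFG : ∀ u v, (Matrix.of fun a b => c a b + ∑ j, d a b j *
        valP N (D.poly j) lam o u v) = (Matrix.of fun a b => F a u b + G a v b) := by
    intro u v
    ext a b
    simp only [Matrix.of_apply, F, G]
    rw [add_left_comm]
    congr 1
    rw [← Finset.sum_add_distrib]
    refine Finset.sum_congr rfl fun j _ => ?_
    by_cases hj : d a b j = 0
    · simp [hj]
    · by_cases hp : pl j
      · rw [if_pos hp, if_pos hp, add_zero]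
        congr 1
        refine D.locF N j lam o u u v u0 (fun _ _ _ => rfl) fun r hr hl => ?_
        obtain ⟨r', hr', hl'⟩ := hp
        have h1 : r = r' := by
          have h2 := Finset.card_le_one.1 (hone a b j hj)
          exact h2 r (Finset.mem_inter.1 hr).1 r' (Finset.mem_inter.1 hr').1
        rw [h1, hl'] at hl
        exact absurd hl (by decide)
      · rw [if_neg hp, if_neg hp, zero_add]
        congr 1
        refine D.locF N j lam o u u0 v v (fun r hr hl => ?_) (fun _ _ _ => rfl)
        exact absurd ⟨r, hr, hl⟩ hp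
  have hrk := det_affine_rk A B F G (fun a ha u u' => by
      funext b
      refine Finset.sum_congr rfl fun j _ => ?_
      by_cases hp : pl j
      · rw [if_pos hp, if_pos hp]
        by_cases hj : d a b j = 0
        · rw [hj, zero_mul, zero_mul]
        · obtain ⟨r, hr, hl⟩ := hp
          exact absurd (Finset.mem_filter.2 ⟨Finset.mem_univ _, r,
            rows_subset_blk D N d a b j hj hr, hl⟩) ha
      · rw [if_neg hp, if_neg hp]) (fun a ha v v' => by
      funext b
      simp only [G]
      congr 1
      refine Finset.sum_congr rfl fun j _ => ?_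
      by_cases hp : pl j
      · rw [if_pos hp, if_pos hp]
      · rw [if_neg hp, if_neg hp]
        by_cases hj : d a b j = 0
        · rw [hj, zero_mul, zero_mul]
        · congr 1
          refine D.locF N j lam o u0 u0 v v' (fun _ _ _ => rfl) fun r hr hl => ?_
          exact absurd (Finset.mem_filter.2 ⟨Finset.mem_univ _, r,
            rows_subset_blk D N d a b j hj hr, hl⟩) ha)
  refine ⟨_, hrk.congr fun u v => congrArg Matrix.det (hFG u v), ?_⟩
  -- counting
  have hAc : A.card ≤ np R lam := by
    have h1 : A.card = ∑ a : Fin m, if (∃ r ∈ blk D N d a, lam r = 1) then 1 else 0 := by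
      rw [hA, Finset.card_filter]
    rw [h1, hR]
    unfold np
    rw [Finset.filter_biUnion, Finset.card_biUnion]
    · refine Finset.sum_le_sum fun a _ => ?_
      split_ifs with h
      · obtain ⟨r, hr, hl⟩ := h
        exact Finset.card_pos.2 ⟨r, Finset.mem_filter.2 ⟨hr, hl⟩⟩
      · exact Nat.zero_le _
    · intro a _ a' _ haa
      exact Finset.disjoint_filter_filter (blk_disjoint D N d hd a a' haa)
  have hBc : B.card ≤ nm R lam := by
    have h1 : B.card = ∑ a : Fin m, if (∃ r ∈ blk D N d a, lam r = -1) then 1 else 0 := by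
      rw [hB, Finset.card_filter]
    rw [h1, hR]
    unfold nm
    rw [Finset.filter_biUnion, Finset.card_biUnion]
    · refine Finset.sum_le_sum fun a _ => ?_
      split_ifs with h
      · obtain ⟨r, hr, hl⟩ := h
        exact Finset.card_pos.2 ⟨r, Finset.mem_filter.2 ⟨hr, hl⟩⟩
      · exact Nat.zero_le _
    · intro a _ a' _ haa
      exact Finset.disjoint_filter_filter (blk_disjoint D N d hd a a' haa)
  have h5 : sm3 R lam * 6 ^ act R lam = 2 ^ act R lam := by
    unfold sm3
    rw [← mul_pow]; norm_num
  rw [h5]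
  push_cast
  exact pow_le_pow_right₀ (by norm_num) (by unfold act; omega)

end

end Pool.Agent.W942
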