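import Pool.Agent.W942.PerB
import Pool.Agent.W942.Form

/-!
# The rank of the permanent for balanced labels
-/

set_option autoImplicit false
set_option maxHeartbeats 400000

namespace Pool.Agent.W942

open Finset MvPolynomial

theorem exists_equiv_of_color {A B C : Type*} [Finite A] [Finite B] (f : A → C) (g : B → C)
    (h : ∀ c, Nat.card {a // f a = c} = Nat.card {b // g b = c}) :
    ∃ e : A ≃ B, ∀ a, g (e a) = f a := by
  have e1 : ∀ c, {a // f a = c} ≃ {b // g b = c} := fun c => (Finite.card_eq.1 (h c)).some
  refine ⟨(Equiv.sigmaFiberEquiv f).symm.trans ((Equiv.sigmaCongrRight e1).trans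
    (Equiv.sigmaFiberEquiv g)), fun a => ?_⟩
  exact (e1 (f a) ⟨a, rfl⟩).2

/-- The colour of a position. -/
def colP (p : Pos) : Option SignType := some (if p.1 = 0 then (if p.2 then -1 else 1) else 0)

/-- The colour of a role. -/
def colB {k : ℕ} {ρ : Type*} : Idx k ρ → Option SignType
  | Sum.inr _ => none
  | Sum.inl (_, p) => colP p

/-- The colour of a row. -/
def colA {n : ℕ} (N : Finset (Fin n)) (lam : Fin n → SignType) : Fin n → Option SignType :=
  fun i => if i ∈ N then some (lam i) else none

theorem card_colB {k : ℕ} {ρ : Type*} [Fintype ρ] (c : Option SignType) :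
    Nat.card {x : Idx k ρ // colB x = c} =
      k * (Finset.univ.filter fun p => colP p = c).card + (if none = c then Fintype.card ρ else 0) := by
  rw [Nat.card_eq_fintype_card, Fintype.card_subtype, Finset.card_filter, Fintype.sum_sum_type,
    Fintype.sum_prod_type]
  congr 1
  · have h : ∀ b : Fin k, (∑ p : Pos, if colB (Sum.inl (b, p) : Idx k ρ) = c then 1 else 0) =
        (Finset.univ.filter fun p => colP p = c).card := by
      intro b
      rw [Finset.card_filter]
      simp only [colB]
      rfl
    rw [Finset.sum_congr rfl fun b _ => h b, Finset.sum_const, Finset.card_univ, Fintype.card_fin,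
      smul_eq_mul]
  · by_cases hc : none = c
    · subst hc
      simp [colB]
    · simp [colB, hc]

theorem exists_roles {n k : ℕ} (N : Finset (Fin n)) (hN : N.card = 36 * k)
    (lam : Fin n → SignType) (hp : np N lam = k) (hm : nm N lam = k) :
    ∃ e : Fin n ≃ Idx k {i // i ∉ N}, ∀ i, colB (e i) = colA N lam i := by
  classical
  refine exists_equiv_of_color _ _ fun c => ?_
  rw [card_colB, Nat.card_eq_fintype_card, Fintype.card_subtype]
  have h1 : (Finset.univ.filter fun a => colA N lam a = some 1).card = k := by
    rw [← hp]
    unfold np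
    congr 1
    ext i
    simp [colA]
  have h2 : (Finset.univ.filter fun a => colA N lam a = some (-1)).card = k := by
    rw [← hm]
    unfold nm
    congr 1
    ext i
    simp [colA]
  have h3 : (Finset.univ.filter fun a => colA N lam a = some 0).card = 34 * k := by
    have h4 : (Finset.univ.filter fun a => colA N lam a = some 0) =
        N.filter fun i => lam i = 0 := by
      ext i
      simp [colA]
    rw [h4]
    have h5 : (N.filter fun i => lam i = 0).card + (N.filter fun i => lam i = 1).card +
        (N.filter fun i => lam i = -1).card = N.card := by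
      rw [Finset.card_filter, Finset.card_filter, Finset.card_filter, ← Finset.sum_add_distrib,
        ← Finset.sum_add_distrib, Finset.card_eq_sum_ones]
      refine Finset.sum_congr rfl fun i _ => ?_
      generalize lam i = x
      revert x
      decide
    have h6 : (N.filter fun i => lam i = 1).card = k := hp
    have h7 : (N.filter fun i => lam i = -1).card = k := hm
    omega
  rcases c with _ | c
  · have h4 : (Finset.univ.filter fun a => colA N lam a = none) =
        Finset.univ.filter fun a => a ∉ N := by
      ext i
      simp [colA]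
    have h5 : (Finset.univ.filter fun p => colP p = none).card = 0 := by decide
    rw [h4, ← Fintype.card_subtype, h5]
    simp
  · have hs : ∀ c : SignType, (Finset.univ.filter fun p => colP p = some c).card =
        if c = 0 then 34 else 1 := by decide
    rw [hs, if_neg (show ¬ (none = some c) by simp), add_zero]
    rcases SignType.trichotomy c with h | h | h
    · subst h; rw [h2]; simp
    · subst h; rw [h3]; simp [mul_comm]
    · subst h; rw [h1]; simp

section
variable {O K F : Type*} [CommRing O] [Field K] [Field F] {n : ℕ}

/-- On matrices with entries `0, 1, -1`, the values of `p` lie in the ring `O` and reduce to the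
values of the permanent. -/
def RepPer (ι : O →+* K) (res : O →+* F) (p : MvPolynomial (Fin n × Fin n) K) : Prop :=
  ∀ A : Matrix (Fin n) (Fin n) ℤ, (∀ i j, A i j = -1 ∨ A i j = 0 ∨ A i j = 1) →
    ∃ g : O, ι g = eval (fun ij => (A ij.1 ij.2 : K)) p ∧ res g = (A.permanent : F)

/-- The partner of a position. -/
def sw (p : Pos) : Pos := (p.1, !p.2)

theorem mz_sw_ne {p q : Pos} (h : p ≠ q) : mz p (sw q) = 0 := by
  unfold mz sw
  rw [if_neg]
  rintro ⟨h1, h2⟩
  apply h
  refine Prod.ext h1 ?_
  simp only at h2
  revert h2
  cases p.2 <;> cases q.2 <;> simp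

theorem mz_sw_self (hF : (2 : F) ≠ 0) (p : Pos) : (mz p (sw p) : F) ≠ 0 := by
  have h : (131072 : F) ≠ 0 := by
    have h1 := pow_ne_zero 17 hF
    norm_num at h1
    exact h1
  unfold mz sw
  have h2 : p.2 ≠ !p.2 := by cases p.2 <;> simp
  rw [if_pos ⟨rfl, h2⟩]
  split_ifs
  · push_cast; exact h
  · push_cast; exact neg_ne_zero.2 h

theorem per_rank_lower (ι : O →+* K) (hι : Function.Injective ι) (res : O →+* F)
    (hF : (2 : F) ≠ 0) {k : ℕ} (N : Finset (Fin n)) (hN : N.card = 36 * k)
    (lam : Fin n → SignType) (hp : np N lam = k) (hm : nm N lam = k)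
    (p : MvPolynomial (Fin n × Fin n) K) (hrep : RepPer ι res p) {r : ℕ}
    (hr : ∀ o, HasRk (valP N p lam o) r) : 36 ^ k ≤ r := by
  classical
  obtain ⟨e, he⟩ := exists_roles N hN lam hp hm
  have posE : Fin 36 ≃ Pos := Fintype.equivOfCardEq (by simp)
  set w : Fin n → Fin 36 → Fin n → K := fun i c j =>
    match e i with
    | Sum.inl (b, _) => if e j = Sum.inl (b, posE c) then 1 else 0
    | Sum.inr _ => 0 with hw
  set a0 : Fin k → Pos := fun _ => (0, false) with ha0
  set al : Fin n → Fin n → K := fun i j => ((Ymat a0 a0 (e i) (e j) : ℤ) : K) with hal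
  set uP : (Fin k → Pos) → Fin n → Fin 36 := fun a i =>
    match e i with
    | Sum.inl (b, _) => posE.symm (a b)
    | Sum.inr _ => 0 with huP
  have hpt : ∀ a a' ij, pt N lam w al (uP a) (uP a') ij =
      ((((Ymat a a').submatrix e e) ij.1 ij.2 : ℤ) : K) := by
    rintro a a' ⟨i, j⟩
    have hc := he i
    simp only [Matrix.submatrix_apply]
    rcases hei : e i with ⟨b, j0, s⟩ | y
    · rw [hei] at hc
      simp only [colB, colA] at hc
      have hiN : i ∈ N := by
        by_contra h
        rw [if_neg h] at hc
        exact absurd hc (by simp [colP])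
      rw [if_pos hiN] at hc
      have hlam : lam i = (if j0 = 0 then (if s then -1 else 1) else 0) :=
        (Option.some_injective _ hc).symm
      by_cases hj : j0 = 0
      · subst hj
        rw [if_pos rfl] at hlam
        cases s
        · rw [if_neg (by simp)] at hlam
          have h1 : pt N lam w al (uP a) (uP a') (i, j) = w i (uP a i) j := by
            unfold pt
            rw [if_pos ⟨hiN, hlam⟩]
          rw [h1]
          simp only [hw, huP, hei, Ymat, Equiv.apply_symm_apply]
          simp
        · rw [if_pos rfl] at hlam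
          have h1 : pt N lam w al (uP a) (uP a') (i, j) = w i (uP a' i) j := by
            unfold pt
            rw [if_neg (by rintro ⟨_, h⟩; rw [hlam] at h; exact absurd h (by decide)),
              if_pos ⟨hiN, hlam⟩]
          rw [h1]
          simp only [hw, huP, hei, Ymat, Equiv.apply_symm_apply]
          simp
      · rw [if_neg hj] at hlam
        have h1 : pt N lam w al (uP a) (uP a') (i, j) = al i j := by
          unfold pt
          rw [if_neg (by rintro ⟨_, h⟩; rw [hlam] at h; exact absurd h (by decide)),
            if_neg (by rintro ⟨_, h⟩; rw [hlam] at h; exact absurd h (by decide))]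
        rw [h1]
        simp only [hal, hei, Ymat]
        rw [if_neg hj, if_neg hj]
    · rw [hei] at hc
      simp only [colB, colA] at hc
      have hiN : i ∉ N := by
        intro h
        rw [if_pos h] at hc
        exact absurd hc (by simp)
      have h1 : pt N lam w al (uP a) (uP a') (i, j) = al i j := by
        unfold pt
        rw [if_neg (by rintro ⟨h, _⟩; exact hiN h), if_neg (by rintro ⟨h, _⟩; exact hiN h)]
      rw [h1]
      simp only [hal, hei, Ymat]
  have hex : ∀ a a' : Fin k → Pos, ∃ g : O, ι g = valP N p lam (w, al) (uP a) (uP a') ∧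
      res g = ((∏ b, mz (a b) (a' b) : ℤ) : F) := by
    intro a a'
    obtain ⟨g, h1, h2⟩ := hrep ((Ymat a a').submatrix e e) (fun i j => Ymat_entries a a' _ _)
    refine ⟨g, ?_, ?_⟩
    · rw [h1]
      unfold valP
      congr 1
      rw [show (pt N lam w al (uP a) (uP a')) = (fun ij => ((((Ymat a a').submatrix e e)
        ij.1 ij.2 : ℤ) : K)) from funext (hpt a a')]
    · rw [h2, permanent_submatrix_equiv, permanent_Ymat]
  choose g hg1 hg2 using hex
  set MO : Matrix (Fin k → Pos) (Fin k → Pos) O := Matrix.of fun a c => g a (fun b => sw (c b))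
    with hMO
  have hres : (MO.map res).det ≠ 0 := by
    have h1 : MO.map res = Matrix.diagonal (fun a => ((∏ b, mz (a b) (sw (a b)) : ℤ) : F)) := by
      ext a c
      rw [Matrix.map_apply, Matrix.diagonal_apply]
      simp only [hMO, Matrix.of_apply, hg2]
      by_cases hac : a = c
      · subst hac; simp
      · rw [if_neg hac]
        obtain ⟨b, hb⟩ := Function.ne_iff.1 hac
        rw [Finset.prod_eq_zero (Finset.mem_univ b) (mz_sw_ne hb)]
        simp
    rw [h1, Matrix.det_diagonal]
    refine Finset.prod_ne_zero_iff.2 fun a _ => ?_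
    rw [Int.cast_prod]
    exact Finset.prod_ne_zero_iff.2 fun b _ => mz_sw_self hF _
  have hdetO : MO.det ≠ 0 := by
    intro h
    apply hres
    have h2 := RingHom.map_det res MO
    rw [h, map_zero] at h2
    exact h2.symm
  have hdetK : (MO.map ι).det ≠ 0 := by
    have h2 := RingHom.map_det ι MO
    have h3 : (ι.mapMatrix MO) = MO.map ι := rfl
    rw [h3] at h2
    rw [← h2]
    intro h
    exact hdetO (hι (by rw [h, map_zero]))
  have h1 := (hr (w, al)).lower (P := Fin k → Pos) uP (fun c => uP (fun b => sw (c b))) (MO.map ι)⁻¹
    (fun i j => by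
      have h2 := Matrix.mul_nonsing_inv (MO.map ι) (isUnit_iff_ne_zero.2 hdetK)
      have h3 := congrFun (congrFun h2 i) j
      rw [Matrix.mul_apply, Matrix.one_apply] at h3
      rw [← h3]
      refine Finset.sum_congr rfl fun l _ => ?_
      rw [Matrix.map_apply, ← hg1]
      rfl)
  have h4 : Fintype.card (Fin k → Pos) = 36 ^ k := by
    rw [Fintype.card_fun, Fintype.card_prod]
    simp
  rwa [h4] at h1

end

end Pool.Agent.W942
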