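import Pool.Agent.W942.Circ
import Pool.Agent.W942.PerC
import Pool.Agent.W942.Bal
import Pool.Agent.W942.FinalA

/-!
# Circuits of determinants of bounded depth: the estimate at every node
-/

set_option autoImplicit false
set_option maxHeartbeats 1000000

namespace Pool.Agent.W942

open Finset MvPolynomial

universe u v w

/-- The thresholds. -/
def rho (q h p : ℕ) : ℕ → ℕ
  | 0 => p
  | d + 1 => q * (rho q h p d + h)

theorem prod_psi_le {ι : Type*} [DecidableEq ι] (s : Finset ι) (t : ι → ℕ) :
    ∏ a ∈ s, psi (t a) ≤ 1 :=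
  Finset.prod_le_one (fun a _ => psi_nonneg _) fun a _ => psi_le_of_any _

theorem prod_psi_le_pow {ι : Type*} [DecidableEq ι] (s : Finset ι) (t : ι → ℕ) :
    ∏ a ∈ s, psi (t a) ≤ (161 / 162) ^ (s.filter fun a => t a ≠ 0).card := by
  rw [← Finset.prod_filter_mul_prod_filter_not s (fun a => t a ≠ 0)]
  have h1 : ∏ a ∈ s.filter (fun a => t a ≠ 0), psi (t a) ≤
      (161 / 162) ^ (s.filter fun a => t a ≠ 0).card := by
    rw [← Finset.prod_const]
    exact Finset.prod_le_prod (fun a _ => psi_nonneg _) fun a ha =>
      psi_le_one _ (Finset.mem_filter.1 ha).2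
  have h2 := prod_psi_le (s.filter fun a => ¬ t a ≠ 0) t
  have h3 : (0 : ℝ) ≤ ∏ a ∈ s.filter (fun a => ¬ t a ≠ 0), psi (t a) :=
    Finset.prod_nonneg fun a _ => psi_nonneg _
  calc _ ≤ (161 / 162 : ℝ) ^ (s.filter fun a => t a ≠ 0).card * 1 :=
        mul_le_mul h1 h2 h3 (by positivity)
    _ = _ := mul_one _

section
variable {K : Type u} [Field K] {n s : ℕ}

theorem node_bound (D : DetCircuit K n s) (N : Finset (Fin n)) (e : ℝ) (he0 : 0 < e)
    (q h p : ℕ) (hq : (161 / 162 : ℝ) ^ q ≤ e) (hh : (103 / 108 : ℝ) ^ h ≤ e)
    (hp : (26 / 27 : ℝ) ^ p ≤ e) (hp2 : 2 ≤ p) (hq1 : 1 ≤ q) :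
    ∀ (k : ℕ) (i : Fin s), D.depth i ≤ k + 1 → rho q h p k ≤ (D.rows i ∩ N).card →
      Bd (D.rows i ∩ N) ((s + 2 : ℝ) ^ k * e) (valP N (D.poly i)) := by
  classical
  have hrho : ∀ k, 2 ≤ rho q h p k := by
    intro k
    induction k with
    | zero => exact hp2
    | succ k ih =>
      show 2 ≤ q * (rho q h p k + h)
      calc 2 ≤ 1 * (rho q h p k + h) := by omega
        _ ≤ _ := Nat.mul_le_mul_right _ hq1
  intro k
  induction k with
  | zero =>
    intro i hik hcard
    rcases D.gate i with ⟨hl, _⟩ | ⟨m, c, d, h1, h2, h3, h4⟩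
    · have h5 : (D.rows i ∩ N).card ≤ (D.rows i).card := Finset.card_le_card Finset.inter_subset_left
      have h6 := hrho 0
      omega
    · have hone : ∀ a b j, d a b j ≠ 0 → (D.rows j).card ≤ 1 := by
        intro a b j hj
        have h5 := h1 a b j hj
        have h6 : D.depth j = 0 := by omega
        rcases D.gate j with ⟨hl, _⟩ | ⟨m', c', d', h1', h2', h3', h4'⟩
        · exact hl
        · have h7 : D.rows j = ∅ := by
            rw [Finset.eq_empty_iff_forall_notMem]
            intro r hr
            obtain ⟨a', b', j', h8, _⟩ := (h2' r).1 hr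
            have := h1' a' b' j' h8
            omega
          rw [h7]; simp
      have h5 := (gate_one D N c d h3 hone).congr (valP_gate D N c d (D.poly i) h4)
      rw [biUnion_blk D N d i h2] at h5
      refine h5.mono ?_
      rw [pow_zero, one_mul]
      refine le_trans ?_ hp
      exact pow_le_pow_of_le_one (by norm_num) (by norm_num) hcard
  | succ k ih =>
    intro i hik hcard
    have hs1 : (1 : ℝ) ≤ (s + 2 : ℝ) := by
      have : (0 : ℝ) ≤ s := Nat.cast_nonneg s
      linarith
    have hpk : (1 : ℝ) ≤ (s + 2 : ℝ) ^ k := one_le_pow₀ hs1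
    have hpk1 : (1 : ℝ) ≤ (s + 2 : ℝ) ^ (k + 1) := one_le_pow₀ hs1
    rcases D.gate i with ⟨hl, _⟩ | ⟨m, c, d, h1, h2, h3, h4⟩
    · have h5 : (D.rows i ∩ N).card ≤ (D.rows i).card := Finset.card_le_card Finset.inter_subset_left
      have h6 := hrho (k + 1)
      omega
    · have hRd := blk_disjoint D N d h3
      have hE := locF_entry D N c d
      have hcardU : ((Finset.univ : Finset (Fin m)).biUnion (blk D N d)).card =
          ∑ a, (blk D N d a).card :=
        Finset.card_biUnion fun a _ b _ hab => hRd a b hab
      rw [← biUnion_blk D N d i h2] at hcard ⊢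
      by_cases hmany : q ≤ ((Finset.univ : Finset (Fin m)).filter
          fun a => (blk D N d a).card ≠ 0).card
      · -- many blocks
        refine ((Bd.det_triv (blk D N d) hRd _ hE).congr (valP_gate D N c d (D.poly i) h4)).mono ?_
        calc ∏ a, psi (blk D N d a).card ≤ (161 / 162) ^ ((Finset.univ : Finset (Fin m)).filter
              fun a => (blk D N d a).card ≠ 0).card := prod_psi_le_pow _ _
          _ ≤ (161 / 162) ^ q := pow_le_pow_of_le_one (by norm_num) (by norm_num) hmany
          _ ≤ e := hq
          _ = 1 * e := (one_mul e).symm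
          _ ≤ (s + 2 : ℝ) ^ (k + 1) * e := mul_le_mul_of_nonneg_right hpk1 he0.le
      · -- a large block
        have hex : ∃ l, rho q h p k + h ≤ (blk D N d l).card := by
          by_contra hcon
          push Not at hcon
          have h5 : ∑ a, (blk D N d a).card ≤ ((Finset.univ : Finset (Fin m)).filter
              fun a => (blk D N d a).card ≠ 0).card * (rho q h p k + h) := by
            rw [← Finset.sum_filter_ne_zero, ← smul_eq_mul, ← Finset.sum_const]
            exact Finset.sum_le_sum fun a _ => (hcon a).le
          have h6 : ((Finset.univ : Finset (Fin m)).filter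
              fun a => (blk D N d a).card ≠ 0).card * (rho q h p k + h) <
              q * (rho q h p k + h) := by
            refine Nat.mul_lt_mul_of_pos_right (not_le.1 hmany) ?_
            have := hrho k
            omega
          have h7 : q * (rho q h p k + h) ≤ ∑ a, (blk D N d a).card := by
            rw [← hcardU]; exact hcard
          omega
        obtain ⟨l, hl⟩ := hex
        set J : Finset (Fin s) := Finset.univ.filter fun j =>
          (∃ b, d l b j ≠ 0) ∧ (D.rows j ∩ N).Nonempty with hJ
        have hsig : (103 / 108 : ℝ) ^ (blk D N d l).card ≤ e :=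
          (pow_le_pow_of_le_one (by norm_num) (by norm_num) (by omega)).trans hh
        have hmain := Bd.det_lin (blk D N d) hRd
          (fun a b lam o u v => c a b + ∑ j, d a b j * valP N (D.poly j) lam o u v) hE l J
          (fun j => valP N (D.poly j)) (fun j b => d l b j)
          (fun b lam o u v => c l b + ∑ j ∈ Finset.univ.filter (fun j => j ∉ J),
            d l b j * valP N (D.poly j) lam o u v)
          (fun _ => (s + 2 : ℝ) ^ k * e) ?_ ?_ ?_
        · refine (hmain.congr (valP_gate D N c d (D.poly i) h4)).mono ?_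
          have h5 := prod_psi_le (Finset.univ.erase l) fun a => (blk D N d a).card
          have h6 : (0 : ℝ) ≤ ∏ a ∈ Finset.univ.erase l, psi (blk D N d a).card :=
            Finset.prod_nonneg fun a _ => psi_nonneg _
          have h7 : (J.card : ℝ) ≤ s := by
            have : J.card ≤ (Finset.univ : Finset (Fin s)).card := Finset.card_le_univ _
            rw [Finset.card_univ, Fintype.card_fin] at this
            exact_mod_cast this
          have h8 : (103 / 108 : ℝ) ^ (blk D N d l).card + ∑ _j ∈ J, (s + 2 : ℝ) ^ k * e ≤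
              (s + 2 : ℝ) ^ (k + 1) * e := by
            rw [Finset.sum_const, nsmul_eq_mul]
            have h9 : 0 ≤ (s + 2 : ℝ) ^ k * e := by positivity
            have h10 := mul_le_mul_of_nonneg_right h7 h9
            have h11 : e ≤ (s + 2 : ℝ) ^ k * e := le_mul_of_one_le_left he0.le hpk
            have h12 : (s + 2 : ℝ) ^ (k + 1) * e = s * ((s + 2 : ℝ) ^ k * e) +
                2 * ((s + 2 : ℝ) ^ k * e) := by rw [pow_succ]; ring
            rw [h12]
            linarith
          calc _ ≤ ((s + 2 : ℝ) ^ (k + 1) * e) * ∏ a ∈ Finset.univ.erase l,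
                psi (blk D N d a).card := mul_le_mul_of_nonneg_right h8 h6
            _ ≤ ((s + 2 : ℝ) ^ (k + 1) * e) * 1 := mul_le_mul_of_nonneg_left h5 (by positivity)
            _ = _ := mul_one _
        · intro j hj
          obtain ⟨_, ⟨b, hb⟩, hne⟩ := Finset.mem_filter.1 hj
          have hsub := rows_subset_blk D N d l b j hb
          by_cases hbig : rho q h p k ≤ (D.rows j ∩ N).card
          · have h5 := h1 l b j hb
            refine ((ih j (by omega) hbig).lift hsub).mono ?_
            refine mul_le_of_le_one_right (by positivity) ?_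
            exact pow_le_one₀ (by norm_num) (by norm_num)
          · refine ((Bd.loc (D.locF N j)).lift hsub).mono ?_
            have h5 : (103 / 108 : ℝ) ^ ((blk D N d l).card - (D.rows j ∩ N).card) ≤ e :=
              (pow_le_pow_of_le_one (by norm_num) (by norm_num) (by omega)).trans hh
            calc psi (D.rows j ∩ N).card *
                  (103 / 108 : ℝ) ^ ((blk D N d l).card - (D.rows j ∩ N).card)
                ≤ 1 * e := mul_le_mul (psi_le_of_any _) h5 (by positivity) zero_le_one
              _ ≤ (s + 2 : ℝ) ^ k * e := mul_le_mul_of_nonneg_right hpk he0.le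
        · intro b lam o u u' v v' _ _
          beta_reduce
          congr 1
          refine Finset.sum_congr rfl fun j hj => ?_
          by_cases hdj : d l b j = 0
          · rw [hdj, zero_mul, zero_mul]
          · congr 1
            have hj' := (Finset.mem_filter.1 hj).2
            have hemp : D.rows j ∩ N = ∅ := by
              rw [← Finset.not_nonempty_iff_eq_empty]
              intro hne
              exact hj' (Finset.mem_filter.2 ⟨Finset.mem_univ _, ⟨b, hdj⟩, hne⟩)
            refine D.locF N j lam o u u' v v' ?_ ?_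
            · rw [hemp]; simp
            · rw [hemp]; simp
        · intro b lam o u v
          beta_reduce
          rw [add_assoc]
          congr 1
          have h5 : J = Finset.univ.filter (fun j => j ∈ J) := by ext j; simp
          have h6 : ∑ j ∈ J, valP N (D.poly j) lam o u v * d l b j =
              ∑ j ∈ Finset.univ.filter (fun j => j ∈ J), d l b j * valP N (D.poly j) lam o u v := by
            rw [← h5]
            exact Finset.sum_congr rfl fun j _ => mul_comm _ _
          rw [h6, add_comm]
          exact (Finset.sum_filter_add_sum_filter_not Finset.univ (fun j => j ∈ J)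
            (fun j => d l b j * valP N (D.poly j) lam o u v)).symm

/-- The estimate for the output. -/
theorem output_bound (D : DetCircuit K n s) (N : Finset (Fin n)) (e : ℝ) (he0 : 0 < e)
    (q h p : ℕ) (hq : (161 / 162 : ℝ) ^ q ≤ e) (hh : (103 / 108 : ℝ) ^ h ≤ e)
    (hp : (26 / 27 : ℝ) ^ p ≤ e) (hp2 : 2 ≤ p) (hq1 : 1 ≤ q) (k : ℕ)
    (hN : rho q h p k + h ≤ N.card) (c : K) (d : Fin s → K)
    (hd : ∀ j, d j ≠ 0 → D.depth j ≤ k + 1) :
    Bd N ((s + 2 : ℝ) ^ (k + 1) * e) (valP N (C c + ∑ j, C (d j) * D.poly j)) := by
  classical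
  have hs1 : (1 : ℝ) ≤ (s + 2 : ℝ) := by
    have : (0 : ℝ) ≤ s := Nat.cast_nonneg s
    linarith
  have hpk : (1 : ℝ) ≤ (s + 2 : ℝ) ^ k := one_le_pow₀ hs1
  have h0 : Bd N e (fun _ _ _ _ => c : Fam K n ((Fin n → Fin 36 → Fin n → K) ×
      (Fin n → Fin n → K))) := by
    have h1 : LocF (∅ : Finset (Fin n)) (fun _ _ _ _ => c : Fam K n
        ((Fin n → Fin 36 → Fin n → K) × (Fin n → Fin n → K))) := fun _ _ _ _ _ _ _ _ => rfl
    refine ((Bd.const h1).lift (Finset.empty_subset N)).mono ?_
    rw [one_mul, Finset.card_empty, Nat.sub_zero]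
    exact (pow_le_pow_of_le_one (by norm_num) (by norm_num) (by omega)).trans hh
  have h1 : ∀ j ∈ (Finset.univ : Finset (Fin s)), Bd N ((s + 2 : ℝ) ^ k * e)
      (fun lam o u v => d j * valP N (D.poly j) lam o u v) := by
    intro j _
    by_cases hj : d j = 0
    · refine ((Bd.zero N).congr fun lam o u v => by rw [hj, zero_mul]).mono (by positivity)
    · have hb : Bd N ((s + 2 : ℝ) ^ k * e) (valP N (D.poly j)) := by
        by_cases hbig : rho q h p k ≤ (D.rows j ∩ N).card
        · refine ((node_bound D N e he0 q h p hq hh hp hp2 hq1 k j (hd j hj) hbig).lift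
            Finset.inter_subset_right).mono ?_
          refine mul_le_of_le_one_right (by positivity) ?_
          exact pow_le_one₀ (by norm_num) (by norm_num)
        · refine ((Bd.loc (D.locF N j)).lift Finset.inter_subset_right).mono ?_
          have h5 : (103 / 108 : ℝ) ^ (N.card - (D.rows j ∩ N).card) ≤ e :=
            (pow_le_pow_of_le_one (by norm_num) (by norm_num) (by omega)).trans hh
          calc psi (D.rows j ∩ N).card * (103 / 108 : ℝ) ^ (N.card - (D.rows j ∩ N).card)
              ≤ 1 * e := mul_le_mul (psi_le_of_any _) h5 (by positivity) zero_le_one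
            _ ≤ (s + 2 : ℝ) ^ k * e := mul_le_mul_of_nonneg_right hpk he0.le
      have hconst : LocF (∅ : Finset (Fin n)) (fun _ _ _ _ => d j : Fam K n
        ((Fin n → Fin 36 → Fin n → K) × (Fin n → Fin n → K))) := fun _ _ _ _ _ _ _ _ => rfl
      exact (hb.mul_const hconst).congr fun lam o u v => mul_comm _ _
  have h2 := (h0.add (Bd.sum Finset.univ h1)).congr (G := valP N (C c + ∑ j, C (d j) * D.poly j))
    (fun lam o u v => by simp [valP])
  refine h2.mono ?_
  rw [Finset.sum_const, Finset.card_univ, Fintype.card_fin, nsmul_eq_mul, pow_succ]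
  have h3 : e ≤ (s + 2 : ℝ) ^ k * e := le_mul_of_one_le_left he0.le hpk
  have h4 : 0 ≤ (s + 2 : ℝ) ^ k * e := by positivity
  linarith

end

end Pool.Agent.W942
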