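import Pool.Agent.W942.FinalR

/-!
# Polynomial functions of polynomials with row-linear parts of small rank
-/

set_option autoImplicit false
set_option maxHeartbeats 1000000

namespace Pool.Agent.W942.Ext

open Finset MvPolynomial

section
variable {R : Type*} [CommRing R] {n : ℕ}

theorem dl_append (l₁ l₂ : List (Fin n)) (p : MvPolynomial (Fin n) R) :
    dl (l₁ ++ l₂) p = dl l₂ (dl l₁ p) := by
  induction l₁ generalizing p with
  | nil => rfl
  | cons i l ih => rw [List.cons_append, dl_cons, dl_cons, ih]

/-- The product rule for iterated derivatives. -/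
theorem dl_mul {P : Type*} [DecidableEq P] (x : P → Fin n) (l : List P) (hl : l.Nodup)
    (f g : MvPolynomial (Fin n) R) :
    dl (l.map x) (f * g) = ∑ B ∈ l.toFinset.powerset,
      dl ((l.filter (· ∈ B)).map x) f * dl ((l.filter (· ∉ B)).map x) g := by
  induction l generalizing f g with
  | nil => simp [dl_nil]
  | cons i l ih =>
    obtain ⟨hi, hl'⟩ := List.nodup_cons.1 hl
    have hi' : i ∉ l.toFinset := by simpa using hi
    rw [List.map_cons, dl_cons, pderiv_mul, map_add, ih hl', ih hl', List.toFinset_cons,
      Finset.sum_powerset_insert hi', add_comm]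
    refine congrArg₂ (· + ·) ?_ ?_
    · refine Finset.sum_congr rfl fun B hB => ?_
      have hiB : i ∉ B := fun h => hi' (Finset.mem_powerset.1 hB h)
      rw [List.filter_cons_of_neg (by simpa using hiB), List.filter_cons_of_pos (by simpa using hiB),
        List.map_cons, dl_cons]
    · refine Finset.sum_congr rfl fun B hB => ?_
      have hiB : i ∉ B := fun h => hi' (Finset.mem_powerset.1 hB h)
      rw [List.filter_cons_of_pos (by simp), List.filter_cons_of_neg (by simp),
        List.map_cons, dl_cons]
      have h1 : l.filter (· ∈ insert i B) = l.filter (· ∈ B) := by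
        refine List.filter_congr fun a ha => ?_
        have : a ≠ i := fun h => hi (h ▸ ha)
        simp [this]
      have h2 : l.filter (· ∉ insert i B) = l.filter (· ∉ B) := by
        refine List.filter_congr fun a ha => ?_
        have : a ≠ i := fun h => hi (h ▸ ha)
        simp [this]
      rw [h1, h2]

/-- The chain rule. -/
theorem pderiv_aeval {t : ℕ} (F : Fin t → MvPolynomial (Fin n) R) (ρ : Fin n)
    (G : MvPolynomial (Fin t) R) :
    pderiv ρ (aeval F G) = ∑ j, pderiv ρ (F j) * aeval F (pderiv j G) := by
  induction G using MvPolynomial.induction_on with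
  | C a => simp
  | add p q hp hq =>
    rw [map_add, map_add, hp, hq, ← Finset.sum_add_distrib]
    refine Finset.sum_congr rfl fun j _ => ?_
    rw [map_add, map_add, mul_add]
  | mul_X p i hp =>
    rw [map_mul, aeval_X, pderiv_mul, hp, Finset.sum_mul]
    have h1 : ∀ j, pderiv ρ (F j) * aeval F (pderiv j (p * X i)) =
        pderiv ρ (F j) * aeval F (pderiv j p) * F i +
          (if j = i then aeval F p * pderiv ρ (F i) else 0) := by
      intro j
      rw [pderiv_mul, map_add, map_mul, map_mul, aeval_X]
      by_cases hj : j = i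
      · subst hj
        rw [pderiv_X_self, map_one, if_pos rfl]
        ring
      · rw [pderiv_X_of_ne (Ne.symm hj), map_zero, if_neg hj]
        ring
    rw [Finset.sum_congr rfl fun j _ => h1 j, Finset.sum_add_distrib]
    simp

theorem lift_aeval (y : Fin n × Fin n → R) {t : ℕ}
    (q : Fin t → MvPolynomial (Fin n × Fin n) R) (G : MvPolynomial (Fin t) R) :
    lift y (aeval q G) = aeval (fun j => lift y (q j)) G := by
  have h : (lift y).comp (aeval q : MvPolynomial (Fin t) R →ₐ[R] _).toRingHom =
      (aeval (fun j => lift y (q j)) : MvPolynomial (Fin t) R →ₐ[R] _).toRingHom := by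
    refine MvPolynomial.ringHom_ext (fun r => ?_) (fun j => ?_)
    · simp only [AlgHom.toRingHom_eq_coe, RingHom.comp_apply, RingHom.coe_coe, aeval_C,
        MvPolynomial.algebraMap_eq, lift_C]
    · simp only [AlgHom.toRingHom_eq_coe, RingHom.comp_apply, RingHom.coe_coe, aeval_X]
  exact congrArg (fun f => f G) h

/-- Set the variables in `A` to zero. -/
noncomputable def zero (A : Finset (Fin n)) : MvPolynomial (Fin n) R →+* MvPolynomial (Fin n) R :=
  eval₂Hom C (fun i => if i ∈ A then 0 else X i)

theorem zero_X (A : Finset (Fin n)) (i : Fin n) :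
    zero A (X i : MvPolynomial (Fin n) R) = if i ∈ A then 0 else X i := by
  simp [zero]

theorem zero_C (A : Finset (Fin n)) (a : R) :
    zero A (C a : MvPolynomial (Fin n) R) = C a := by
  simp [zero]

theorem zero_pderiv (A : Finset (Fin n)) (i : Fin n) (hi : i ∉ A) (p : MvPolynomial (Fin n) R) :
    zero A (pderiv i p) = pderiv i (zero A p) := by
  induction p using MvPolynomial.induction_on with
  | C a => rw [zero_C, pderiv_C, map_zero]
  | add p q hp hq => rw [map_add, map_add, map_add, map_add, hp, hq]
  | mul_X p j hp =>
    rw [pderiv_mul, map_add, map_mul, map_mul, map_mul, pderiv_mul, hp, zero_X]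
    refine congrArg₂ (· + ·) rfl (congrArg₂ (· * ·) rfl ?_)
    by_cases hj : j = i
    · subst hj
      rw [if_neg hi, pderiv_X_self, map_one]
    · rw [pderiv_X_of_ne hj, map_zero]
      split_ifs
      · rw [map_zero]
      · rw [pderiv_X_of_ne hj]

theorem zero_dl (A : Finset (Fin n)) (l : List (Fin n)) (hl : ∀ i ∈ l, i ∉ A)
    (p : MvPolynomial (Fin n) R) : zero A (dl l p) = dl l (zero A p) := by
  induction l generalizing p with
  | nil => rfl
  | cons i l ih =>
    rw [dl_cons, dl_cons, ih (fun j hj => hl j (List.mem_cons_of_mem _ hj)),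
      zero_pderiv A i (hl i (by simp))]

theorem eval_zero (A : Finset (Fin n)) (t : Fin n → R) (ht : ∀ i ∈ A, t i = 0)
    (p : MvPolynomial (Fin n) R) : eval t (zero A p) = eval t p := by
  have h : (eval t).comp (zero A) = eval t := by
    refine MvPolynomial.ringHom_ext (fun r => ?_) (fun j => ?_)
    · simp only [RingHom.comp_apply, zero_C]
    · simp only [RingHom.comp_apply, zero_X]
      split_ifs with hj
      · rw [map_zero, eval_X, ht j hj]
      · rfl
  exact congrArg (fun f => f p) h

theorem zero_lift (A : Finset (Fin n)) (y y' : Fin n × Fin n → R)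
    (hy : ∀ ρ ∉ A, ∀ j, y (ρ, j) = y' (ρ, j)) (p : MvPolynomial (Fin n × Fin n) R) :
    zero A (lift y p) = zero A (lift y' p) := by
  have h : (zero A).comp (lift y) = (zero A).comp (lift y') := by
    refine MvPolynomial.ringHom_ext (fun r => ?_) (fun ij => ?_)
    · simp only [RingHom.comp_apply, lift_C]
    · simp only [RingHom.comp_apply, lift_X, map_mul, zero_C, zero_X]
      by_cases hj : ij.1 ∈ A
      · rw [if_pos hj, mul_zero, mul_zero]
      · rw [if_neg hj, show ij = (ij.1, ij.2) from rfl, hy ij.1 hj ij.2]
  exact congrArg (fun f => f p) h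

end

end Pool.Agent.W942.Ext
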