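import Pool.Agent.W942.Comp

/-!
# The rank of the row-linear part of a polynomial function of determinants
-/

set_option autoImplicit false
set_option maxHeartbeats 1000000

namespace Pool.Agent.W942.Ext

open Finset MvPolynomial

/-- The bound for the rank: in each step the first position `p` of `l` is attached to some `j`,
together with a set `B` of further positions of `l` and a set `C` of positions of `lV`. -/
def Phi {J P : Type*} [Fintype J] [DecidableEq P] (w : J → P → ℕ) : ℕ → List P → List P → ℕ
  | _, [], _ => 1
  | 0, _ :: _, _ => 0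
  | δ + 1, p :: l, lV => ∑ B ∈ l.toFinset.powerset, ∑ C ∈ lV.toFinset.powerset,
      Phi w δ (l.filter (· ∉ B)) (lV.filter (· ∉ C)) *
        ∑ j, w j p * ((∏ b ∈ B, w j b) * ∏ c ∈ C, w j c)

section
variable {K U V : Type*} [Field K] {n : ℕ}

/-- The rank of derivatives of a determinant. -/
theorem det_dl_rk (S PU : Finset (Fin n)) (y : U → V → Fin n × Fin n → K)
    (hU : ∀ ρ ∈ S, ρ ∈ PU → ∀ u v v' j, y u v (ρ, j) = y u v' (ρ, j))
    (hV : ∀ ρ ∈ S, ρ ∉ PU → ∀ u u' v j, y u v (ρ, j) = y u' v (ρ, j))
    (hO : ∀ ρ ∉ S, ∀ u u' v v' j, y u v (ρ, j) = y u' v' (ρ, j))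
    {m : ℕ} (M : Matrix (Fin m) (Fin m) (MvPolynomial (Fin n × Fin n) K))
    (own : Fin m → Option (Fin n)) (hM : ∀ i j, ∀ x ∈ (M i j).vars, own i = some x.1)
    (L : List (Fin n)) (hL : L.Nodup) (hLS : ∀ ρ ∈ L, ρ ∈ S) :
    HasRk (fun u v => eval (pt S.toList) (dl L (lift (y u v) M.det)))
      (2 ^ L.length * (L.map fun ρ => (Finset.univ.filter fun i => own i = some ρ).card).prod) := by
  classical
  have h1 := rk_dl own PU (pt S.toList) L hL ∅ ∅ (Finset.disjoint_empty_left _)
    (fun u v => M.map (lift (y u v)))
    (fun i hi => absurd hi (Finset.notMem_empty i)) (fun i hi => absurd hi (Finset.notMem_empty i))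
    (fun i _ _ u u' v v' j => by
      rw [Matrix.map_apply, Matrix.map_apply, eval_lift, eval_lift]
      refine eval_congr' _ _ _ fun x hx => ?_
      by_cases hS : x.1 ∈ S
      · rw [pt, if_pos (Finset.mem_toList.2 hS), mul_zero, mul_zero]
      · rw [show x = (x.1, x.2) from rfl, hO x.1 hS u u' v v' x.2])
    (fun i ρ h => absurd h (by simp))
    (fun i ρ hρ ho hP u v v' => by
      funext j
      rw [Matrix.map_apply, Matrix.map_apply]
      refine lift_congr _ _ _ fun x hx => ?_
      have h2 : x.1 = ρ := Option.some_injective _ ((hM i j x hx).symm.trans ho)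
      rw [show x = (x.1, x.2) from rfl, h2]
      exact hU ρ (hLS ρ hρ) hP u v v' x.2)
    (fun i ρ hρ ho hP u u' v => by
      funext j
      rw [Matrix.map_apply, Matrix.map_apply]
      refine lift_congr _ _ _ fun x hx => ?_
      have h2 : x.1 = ρ := Option.some_injective _ ((hM i j x hx).symm.trans ho)
      rw [show x = (x.1, x.2) from rfl, h2]
      exact hV ρ (hLS ρ hρ) hP u u' v x.2)
    (fun i ρ hρ ho u v j => by
      rw [Matrix.map_apply]
      refine pderiv_lift_zero _ _ _ fun x hx h2 => ho ?_
      rw [hM i j x hx, h2])
  rw [Finset.card_empty, zero_add, zero_add] at h1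
  refine h1.congr fun u v => ?_
  rw [RingHom.map_det]
  rfl

theorem totalDegree_pderiv_le' {σ R : Type*} [CommRing R] (i : σ) (p : MvPolynomial σ R) :
    (pderiv i p).totalDegree ≤ p.totalDegree - 1 := by
  classical
  refine Finset.sup_le fun m hm => ?_
  rw [mem_support_iff, coeff_pderiv] at hm
  have h1 : m + Finsupp.single i 1 ∈ p.support := by
    rw [mem_support_iff]
    intro h
    rw [h, zero_mul] at hm
    exact hm rfl
  have h2 := le_totalDegree h1
  rw [Finsupp.sum_add_index' (fun _ => rfl) (fun _ _ _ => rfl), Finsupp.sum_single_index rfl] at h2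
  omega

theorem prod_filter_mem {P : Type*} [DecidableEq P] (l : List P) (hl : l.Nodup) (B : Finset P)
    (hB : B ⊆ l.toFinset) (f : P → ℕ) : ((l.filter (· ∈ B)).map f).prod = ∏ b ∈ B, f b := by
  have h1 : (l.filter (· ∈ B)).toFinset = B := by
    ext a
    simp only [List.mem_toFinset, List.mem_filter, decide_eq_true_eq]
    exact ⟨fun h => h.2, fun h => ⟨by simpa using hB h, h⟩⟩
  rw [← List.prod_toFinset f (hl.filter _), h1]

/-- The rank of derivatives of a polynomial function of determinants. -/
theorem comp_rk {P : Type*} [DecidableEq P] (x : P → Fin n) (hx : Function.Injective x)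
    (S PU : Finset (Fin n)) (hPS : PU ⊆ S) (y : U → V → Fin n × Fin n → K)
    (hU : ∀ ρ ∈ S, ρ ∈ PU → ∀ u v v' j, y u v (ρ, j) = y u v' (ρ, j))
    (hV : ∀ ρ ∈ S, ρ ∉ PU → ∀ u u' v j, y u v (ρ, j) = y u' v (ρ, j))
    (hO : ∀ ρ ∉ S, ∀ u u' v v' j, y u v (ρ, j) = y u' v' (ρ, j))
    {t : ℕ} (q : Fin t → MvPolynomial (Fin n × Fin n) K) (m : Fin t → ℕ)
    (M : (j : Fin t) → Matrix (Fin (m j)) (Fin (m j)) (MvPolynomial (Fin n × Fin n) K))
    (own : (j : Fin t) → Fin (m j) → Option (Fin n))
    (hM : ∀ j i i', ∀ x ∈ (M j i i').vars, own j i = some x.1) (hq : ∀ j, q j = (M j).det)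
    (δ : ℕ) : ∀ (lU lV : List P), (lU ++ lV).Nodup → (∀ p ∈ lU, x p ∈ PU) →
      (∀ p ∈ lV, x p ∈ S ∧ x p ∉ PU) → ∀ G : MvPolynomial (Fin t) K,
      (G.totalDegree ≤ δ ∨ lU.length ≤ δ) →
      HasRk (fun u v => eval (pt S.toList) (dl ((lU ++ lV).map x)
        (aeval (fun j => lift (y u v) (q j)) G)))
        (Phi (fun j p => 2 * (Finset.univ.filter fun i => own j i = some (x p)).card) δ lU lV) := by
  classical
  -- no position of the first kind
  have hbase : ∀ (lV : List P) (δ : ℕ), (∀ p ∈ lV, x p ∈ S ∧ x p ∉ PU) →
      ∀ G : MvPolynomial (Fin t) K, HasRk (fun u v => eval (pt S.toList) (dl (([] ++ lV).map x)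
        (aeval (fun j => lift (y u v) (q j)) G)))
        (Phi (fun j p => 2 * (Finset.univ.filter fun i => own j i = some (x p)).card) δ [] lV) := by
    intro lV δ hlV G
    have h1 := HasRk.of_left (fun _ : U => ()) (M := fun u v => eval (pt S.toList)
        (dl (([] ++ lV).map x) (aeval (fun j => lift (y u v) (q j)) G)))
      (by
        intro u u' v _
        have h2 : ∀ u, eval (pt S.toList) (dl (([] ++ lV).map x)
            (aeval (fun j => lift (y u v) (q j)) G)) =
            eval (pt S.toList) (dl (([] ++ lV).map x) (zero PU (lift (y u v) (aeval q G)))) := by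
          intro u
          rw [← lift_aeval, ← zero_dl, eval_zero]
          · intro i hi
            rw [pt, if_pos (Finset.mem_toList.2 (hPS hi))]
          · intro i hi
            rw [List.nil_append, List.mem_map] at hi
            obtain ⟨p, hp, rfl⟩ := hi
            exact (hlV p hp).2
        simp only [h2]
        rw [zero_lift PU (y u v) (y u' v)]
        intro ρ hρ j
        by_cases hS : ρ ∈ S
        · exact hV ρ hS hρ u u' v j
        · exact hO ρ hS u u' v v j)
    rw [Fintype.card_unit] at h1
    simpa [Phi] using h1
  induction δ with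
  | zero =>
    intro lU lV hnd hlU hlV G hG
    rcases lU with _ | ⟨p, l⟩
    · exact hbase lV 0 hlV G
    · have h1 : G.totalDegree = 0 := by
        rcases hG with h | h
        · omega
        · simp at h
      obtain ⟨c, rfl⟩ : ∃ c, G = C c := ⟨_, totalDegree_eq_zero_iff_eq_C.1 h1⟩
      refine (HasRk.zero.congr fun u v => ?_).mono (Nat.zero_le _)
      rw [aeval_C, List.cons_append, List.map_cons, dl_cons, MvPolynomial.algebraMap_eq, pderiv_C,
        map_zero, map_zero]
  | succ δ ih =>
    intro lU lV hnd hlU hlV G hG
    rcases lU with _ | ⟨p, l⟩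
    · exact hbase lV (δ + 1) hlV G
    · -- expand
      have hnd' : (p :: (l ++ lV)).Nodup := by simpa using hnd
      obtain ⟨hp, hnd2⟩ := List.nodup_cons.1 hnd'
      obtain ⟨hl, hlVn, hdis⟩ := List.nodup_append.1 hnd2
      let w : Fin t → P → ℕ := fun j p =>
        2 * (Finset.univ.filter fun i => own j i = some (x p)).card
      have hexp : ∀ u v, eval (pt S.toList) (dl (((p :: l) ++ lV).map x)
          (aeval (fun j => lift (y u v) (q j)) G)) =
          ∑ j, ∑ B ∈ l.toFinset.powerset, ∑ C ∈ lV.toFinset.powerset,
            eval (pt S.toList) (dl ((p :: (l.filter (· ∈ B) ++ lV.filter (· ∈ C))).map x)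
              (lift (y u v) (q j))) *
            eval (pt S.toList) (dl ((l.filter (· ∉ B) ++ lV.filter (· ∉ C)).map x)
              (aeval (fun j => lift (y u v) (q j)) (pderiv j G))) := by
        intro u v
        rw [List.cons_append, List.map_cons, dl_cons, pderiv_aeval, map_sum, map_sum]
        refine Finset.sum_congr rfl fun j _ => ?_
        rw [List.map_append, dl_append, dl_mul x l hl, map_sum, map_sum]
        refine Finset.sum_congr rfl fun B _ => ?_
        rw [dl_mul x lV hlVn, map_sum]
        refine Finset.sum_congr rfl fun C _ => ?_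
        rw [map_mul, List.map_cons, dl_cons, List.map_append, dl_append, List.map_append, dl_append]
      have hterm : ∀ j : Fin t, ∀ B ∈ l.toFinset.powerset, ∀ C ∈ lV.toFinset.powerset,
          HasRk (fun u v => eval (pt S.toList) (dl ((p :: (l.filter (· ∈ B) ++
              lV.filter (· ∈ C))).map x) (lift (y u v) (q j))) *
            eval (pt S.toList) (dl ((l.filter (· ∉ B) ++ lV.filter (· ∉ C)).map x)
              (aeval (fun j => lift (y u v) (q j)) (pderiv j G))))
            ((w j p * ((∏ b ∈ B, w j b) * ∏ c ∈ C, w j c)) *
              Phi w δ (l.filter (· ∉ B)) (lV.filter (· ∉ C))) := by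
        intro j B hB C hC
        have hB' := Finset.mem_powerset.1 hB
        have hC' := Finset.mem_powerset.1 hC
        refine HasRk.mul ?_ ?_
        · have hndL : (p :: (l.filter (· ∈ B) ++ lV.filter (· ∈ C))).Nodup := by
            refine List.nodup_cons.2 ⟨fun h => hp ?_, ?_⟩
            · rcases List.mem_append.1 h with h | h
              · exact List.mem_append_left _ (List.mem_of_mem_filter h)
              · exact List.mem_append_right _ (List.mem_of_mem_filter h)
            · refine List.nodup_append.2 ⟨hl.filter _, hlVn.filter _, ?_⟩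
              intro a ha b hb
              exact hdis a (List.mem_of_mem_filter ha) b (List.mem_of_mem_filter hb)
          have h1 := det_dl_rk S PU y hU hV hO (M j) (own j) (hM j)
            ((p :: (l.filter (· ∈ B) ++ lV.filter (· ∈ C))).map x) (hndL.map hx)
            (by
              intro ρ hρ
              obtain ⟨a, ha, rfl⟩ := List.mem_map.1 hρ
              rcases List.mem_cons.1 ha with ha | ha
              · rw [ha]; exact hPS (hlU p (by simp))
              · rcases List.mem_append.1 ha with ha | ha
                · exact hPS (hlU a (List.mem_cons_of_mem _ (List.mem_of_mem_filter ha)))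
                · exact (hlV a (List.mem_of_mem_filter ha)).1)
          rw [hq j]
          refine h1.mono (le_of_eq ?_)
          have h2 : ∀ L : List P, 2 ^ (L.map x).length * ((L.map x).map fun ρ =>
              (Finset.univ.filter fun i => own j i = some ρ).card).prod = (L.map (w j)).prod := by
            intro L
            induction L with
            | nil => simp
            | cons a L ihL =>
              simp only [List.map_cons, List.prod_cons, List.length_cons] at ihL ⊢
              rw [← ihL]
              simp only [w]
              ring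
          rw [h2, List.map_cons, List.prod_cons, List.map_append, List.prod_append,
            prod_filter_mem l hl B hB', prod_filter_mem lV hlVn C hC']
        · refine ih (l.filter (· ∉ B)) (lV.filter (· ∉ C)) ?_ ?_ ?_ (pderiv j G) ?_
          · refine List.nodup_append.2 ⟨hl.filter _, hlVn.filter _, ?_⟩
            intro a ha b hb
            exact hdis a (List.mem_of_mem_filter ha) b (List.mem_of_mem_filter hb)
          · intro a ha
            exact hlU a (List.mem_cons_of_mem _ (List.mem_of_mem_filter ha))
          · intro a ha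
            exact hlV a (List.mem_of_mem_filter ha)
          · rcases hG with h | h
            · left
              have h3 := totalDegree_pderiv_le' j G
              omega
            · right
              refine (List.length_filter_le _ _).trans ?_
              simpa using h
      have h3 := HasRk.sum (Finset.univ : Finset (Fin t)) (fun j _ =>
        HasRk.sum l.toFinset.powerset (fun B hB =>
          HasRk.sum lV.toFinset.powerset (fun C hC => hterm j B hB C hC)))
      refine (h3.congr fun u v => hexp u v).mono (le_of_eq ?_)
      simp only [Phi]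
      rw [Finset.sum_comm]
      refine Finset.sum_congr rfl fun B _ => ?_
      rw [Finset.sum_comm]
      refine Finset.sum_congr rfl fun C _ => ?_
      rw [Finset.mul_sum]
      refine Finset.sum_congr rfl fun j _ => ?_
      simp only [w]
      ring

end

end Pool.Agent.W942.Ext
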