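import Pool.Agent.W942.Om2

/-!
# Decompositions of vectors of families
-/

set_option autoImplicit false
set_option maxHeartbeats 1000000

namespace Pool.Agent.W942

open Finset

variable {K : Type*} [Field K] {n : ℕ} {Om : Type*}

theorem HasRkR.one {U V : Type*} : HasRkR (fun (_ : U) (_ : V) => (1 : K)) 1 :=
  ⟨1, HasRk.one_of_mul (fun _ => 1) (fun _ => 1) (fun _ _ => by simp), by simp⟩

theorem HasRkR.prod {U V : Type*} {ι : Type*} (s : Finset ι) {M : ι → U → V → K} {ρ : ι → ℝ}
    (h : ∀ i ∈ s, HasRkR (M i) (ρ i)) :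
    HasRkR (fun u v => ∏ i ∈ s, M i u v) (∏ i ∈ s, ρ i) := by
  classical
  induction s using Finset.induction_on with
  | empty => simpa using HasRkR.one
  | insert a s ha ih =>
    have h1 := (h a (Finset.mem_insert_self a s)).mul
      (ih fun i hi => h i (Finset.mem_insert_of_mem hi))
    rw [Finset.prod_insert ha]
    exact h1.congr fun u v => by rw [Finset.prod_insert ha]

/-- The expansion of a determinant whose rows are sums. -/
theorem det_expand {M : ℕ} {ι : Fin M → Type} [∀ a, Fintype (ι a)] (A : (a : Fin M) → ι a → K)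
    (B : (a : Fin M) → ι a → Fin M → K) :
    (Matrix.of fun a b => ∑ i, A a i * B a i b).det =
      ∑ τ : (a : Fin M) → ι a, (∏ a, A a (τ a)) * (Matrix.of fun a b => B a (τ a) b).det := by
  classical
  have h1 := (Matrix.detRowAlternating (R := K) (n := Fin M)).toMultilinearMap.map_sum
    (fun a (i : ι a) => A a i • B a i)
  have h2 : (fun a => ∑ i, A a i • B a i : Fin M → Fin M → K) =
      (Matrix.of fun a b => ∑ i, A a i * B a i b : Fin M → Fin M → K) := by
    funext a b
    simp [Finset.sum_apply]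
  rw [h2] at h1
  refine h1.trans (Finset.sum_congr rfl fun τ _ => ?_)
  exact (Matrix.detRowAlternating (R := K) (n := Fin M)).toMultilinearMap.map_smul_univ
    (fun a => A a (τ a)) (fun a => B a (τ a))

/-- The families `F o` are sums of products `X i * Q o i`, in which `Q o i` depends on a set `J` of
fewer than `z` rows, and the moment of order `θ` of the ranks of the `X i`, which depend on the set
`S` of the other rows, is small. -/
def Dec (θ ρ : ℝ) (z : ℕ) (R : Finset (Fin n)) {m : ℕ} (F : Fin m → Fam K n Om) : Prop :=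
  ∃ (S J : Finset (Fin n)) (ι : Type) (_ : Fintype ι) (X : ι → Fam K n Om)
    (Q : Fin m → ι → Fam K n Om) (β : (Fin n → SignType) → ℝ),
    Disjoint S J ∧ S ∪ J = R ∧ J.card < z ∧ (∀ o i, LocF J (Q o i)) ∧ Dep S β ∧
    (∀ lam, 0 ≤ β lam) ∧ (∀ i lam o, HasRkR (X i lam o) (β lam * 6 ^ act S lam)) ∧
    (Fintype.card ι : ℝ) ^ θ * ex (fun lam => β lam ^ θ) ≤ Real.exp (-(ρ * S.card)) ∧
    ∀ o lam om u v, F o lam om u v = ∑ i, X i lam om u v * Q o i lam om u v

/-- Small blocks. -/
theorem Dec.leaf {θ ρ : ℝ} {z : ℕ} {R : Finset (Fin n)} (hR : R.card < z) {m : ℕ}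
    (F : Fin m → Fam K n Om) (hF : ∀ o, LocF R (F o)) : Dec θ ρ z R F := by
  refine ⟨∅, R, Unit, inferInstance, fun _ _ _ _ _ => 1, fun o _ => F o, fun _ => 1, by simp,
    by simp, hR, fun o _ => hF o, Dep.const _ _, fun _ => zero_le_one, fun _ lam o => ?_, ?_,
    fun o lam om u v => by simp⟩
  · rw [act_empty, pow_zero, mul_one]
    exact HasRkR.one
  · simp [ex_const]

/-- The bound which follows from a decomposition. -/
theorem Dec.bd {θ ρ : ℝ} (hθ0 : 0 < θ) (hθ1 : θ ≤ 1) (hρ : 0 ≤ ρ) {z : ℕ} {R : Finset (Fin n)}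
    {m : ℕ} {F : Fin m → Fam K n Om} (h : Dec θ ρ z R F) (o : Fin m) (hF : LocF R (F o)) :
    Bd R (4 / 3 * Real.exp (ρ * z - ρ * R.card)) (F o) := by
  obtain ⟨S, J, ι, _, X, Q, β, hd, hu, hJ, hQ, hβ, hβ0, hX, hm, he⟩ := h
  have hSR : S ⊆ R := hu ▸ Finset.subset_union_left
  have hNβ : ∀ lam, 0 ≤ (Fintype.card ι : ℝ) * β lam := fun lam =>
    mul_nonneg (Nat.cast_nonneg _) (hβ0 lam)
  refine ⟨fun lam => 4 / 3 * ((Fintype.card ι : ℝ) ^ θ * β lam ^ θ), ?_, fun lam => ?_, ?_,
    fun lam om => ?_⟩
  · intro lam mu hl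
    simp only
    rw [hβ lam mu fun i hi => hl i (hSR hi)]
  · have := Real.rpow_nonneg (hβ0 lam) θ
    positivity
  · rw [ex_const_mul, ex_const_mul]
    refine mul_le_mul_of_nonneg_left (hm.trans ?_) (by norm_num)
    rw [Real.exp_le_exp]
    have h1 : R.card = S.card + J.card := by rw [← hu, Finset.card_union_of_disjoint hd]
    have h2 : (R.card : ℝ) ≤ S.card + z := by
      rw [h1]; push_cast
      have : (J.card : ℝ) ≤ z := by exact_mod_cast hJ.le
      linarith
    have := mul_le_mul_of_nonneg_left h2 hρ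
    linarith
  · beta_reduce
    rw [← Real.mul_rpow (Nat.cast_nonneg _) (hβ0 lam)]
    set x : ℝ := (Fintype.card ι : ℝ) * β lam with hx
    have hx0 : 0 ≤ x := hNβ lam
    have hactR : act R lam = act S lam + act J lam := by rw [← hu, act_union hd]
    have h6 : (0 : ℝ) < 6 ^ act R lam := by positivity
    rcases le_total x 1 with hx1 | hx1
    · -- the decomposition
      have hxθ : x ≤ x ^ θ := by
        rcases hx0.eq_or_lt with h0 | h0
        · rw [← h0]; exact Real.rpow_nonneg le_rfl _
        · calc x = x ^ (1 : ℝ) := (Real.rpow_one x).symm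
            _ ≤ x ^ θ := Real.rpow_le_rpow_of_exponent_ge h0 hx1 hθ1
      have h1 : HasRkR (F o lam om) (∑ _i : ι, (β lam * 6 ^ act S lam) *
          (omg J lam * 6 ^ act J lam)) := by
        refine (HasRkR.sum Finset.univ fun i _ => (hX i lam om).mul (hQ o i lam om).rk).congr ?_
        intro u v
        exact he o lam om u v
      refine h1.mono ?_
      rw [Finset.sum_const, nsmul_eq_mul, Finset.card_univ, hactR, pow_add]
      calc (Fintype.card ι : ℝ) * (β lam * 6 ^ act S lam * (omg J lam * 6 ^ act J lam))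
          = x * omg J lam * (6 ^ act S lam * 6 ^ act J lam) := by rw [hx]; ring
        _ ≤ 4 / 3 * x ^ θ * (6 ^ act S lam * 6 ^ act J lam) := by
          refine mul_le_mul_of_nonneg_right ?_ (by positivity)
          have := omg_le_43 J lam
          have := omg_nonneg J lam
          nlinarith
    · -- the trivial bound
      have hxθ : 1 ≤ x ^ θ := Real.one_le_rpow hx1 hθ0.le
      have h1 : HasRkR (F o lam om) (omg R lam * 6 ^ act R lam) := (hF lam om).rk
      refine h1.mono (mul_le_mul_of_nonneg_right ?_ h6.le)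
      have := omg_le_43 R lam
      linarith

/-- Nodes. -/
theorem Dec.node {θ ρ : ℝ} (hθ0 : 0 < θ) (hρ : 0 ≤ ρ) {z w : ℕ}
    (hw : (w : ℝ) ^ θ * (w : ℝ) ^ θ ≤ Real.exp (ρ * z))
    (hη : ∀ J : Finset (Fin n), J.card < z →
      ex (fun lam => omg J lam ^ θ) ≤ Real.exp (-(2 * ρ * J.card)))
    {M m c : ℕ} (R : Fin M → Finset (Fin n)) (hR : ∀ a a', a ≠ a' → Disjoint (R a) (R a'))
    (p : Fin M → ℕ) (G : (a : Fin M) → Fin (p a) → Fam K n Om) (hG : ∀ a, Dec θ ρ z (R a) (G a))
    (T : Fin m → Fin c → (a b : Fin M) → Fin (p a) → K) (hm : m ≤ w) (hc : c ≤ w) (hz : 0 < z) :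
    Dec θ ρ z (Finset.univ.biUnion R) (fun o lam om u v =>
      ∑ j, (Matrix.of fun a b => ∑ x, T o j a b x * G a x lam om u v).det) := by
  classical
  unfold Dec at hG
  choose S J ι inst X Q β hd hu hJ hQ hβ hβ0 hX hmom he using hG
  have hSR : ∀ a, S a ⊆ R a := fun a => hu a ▸ Finset.subset_union_left
  have hJR : ∀ a, J a ⊆ R a := fun a => hu a ▸ Finset.subset_union_right
  have hSS : ∀ a a', a ≠ a' → Disjoint (S a) (S a') := fun a a' h =>
    (hR a a' h).mono (hSR a) (hSR a')
  have hJJ : ∀ a a', a ≠ a' → Disjoint (J a) (J a') := fun a a' h =>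
    (hR a a' h).mono (hJR a) (hJR a')
  -- the coefficients of the expansion
  set D : Fin m → ((a : Fin M) → ι a) → Fam K n Om := fun o τ lam om u v =>
    ∑ j, (Matrix.of fun a b => ∑ x, T o j a b x * Q a x (τ a) lam om u v).det with hD
  have hexp : ∀ o lam om u v, (∑ j, (Matrix.of fun a b =>
      ∑ x, T o j a b x * G a x lam om u v).det) =
      ∑ τ : (a : Fin M) → ι a, (∏ a, X a (τ a) lam om u v) * D o τ lam om u v := by
    intro o lam om u v
    have h1 : ∀ j : Fin c, (Matrix.of fun a b => ∑ x, T o j a b x * G a x lam om u v).det =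
        ∑ τ : (a : Fin M) → ι a, (∏ a, X a (τ a) lam om u v) *
          (Matrix.of fun a b => ∑ x, T o j a b x * Q a x (τ a) lam om u v).det := by
      intro j
      rw [← det_expand (fun a i => X a i lam om u v)
        (fun a i b => ∑ x, T o j a b x * Q a x i lam om u v)]
      congr 1
      ext a b
      simp only [Matrix.of_apply]
      calc ∑ x, T o j a b x * G a x lam om u v
          = ∑ x, ∑ i, X a i lam om u v * (T o j a b x * Q a x i lam om u v) := by
            refine Finset.sum_congr rfl fun x _ => ?_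
            rw [he a, Finset.mul_sum]
            exact Finset.sum_congr rfl fun i _ => by ring
        _ = _ := by
            rw [Finset.sum_comm]
            exact Finset.sum_congr rfl fun i _ => by rw [Finset.mul_sum]
    rw [Finset.sum_congr rfl fun j _ => h1 j, Finset.sum_comm]
    refine Finset.sum_congr rfl fun τ _ => ?_
    rw [hD, Finset.mul_sum]
  -- ranks
  set SS := Finset.univ.biUnion S with hSSdef
  set JJ := Finset.univ.biUnion J with hJJdef
  have hSJ : Disjoint SS JJ := by
    rw [hSSdef, Finset.disjoint_biUnion_left]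
    intro a _
    rw [hJJdef, Finset.disjoint_biUnion_right]
    intro b _
    by_cases hab : a = b
    · subst hab; exact hd a
    · exact (hR a b hab).mono (hSR a) (hJR b)
  have hSJu : SS ∪ JJ = Finset.univ.biUnion R := by
    rw [hSSdef, hJJdef]
    ext i
    simp only [Finset.mem_union, Finset.mem_biUnion, Finset.mem_univ, true_and]
    constructor
    · rintro (⟨a, ha⟩ | ⟨a, ha⟩)
      · exact ⟨a, hSR a ha⟩
      · exact ⟨a, hJR a ha⟩
    · rintro ⟨a, ha⟩
      rw [← hu a] at ha
      rcases Finset.mem_union.1 ha with h | h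
      · exact Or.inl ⟨a, h⟩
      · exact Or.inr ⟨a, h⟩
  have hScard : SS.card = ∑ a, (S a).card := Finset.card_biUnion fun a _ b _ hab => hSS a b hab
  have hJcard : JJ.card = ∑ a, (J a).card := Finset.card_biUnion fun a _ b _ hab => hJJ a b hab
  have hXrk : ∀ (τ : (a : Fin M) → ι a) lam om, HasRkR
      (fun u v => ∏ a, X a (τ a) lam om u v) ((∏ a, β a lam) * 6 ^ act SS lam) := by
    intro τ lam om
    refine (HasRkR.prod Finset.univ fun a _ => hX a (τ a) lam om).mono (le_of_eq ?_)
    rw [Finset.prod_mul_distrib, Finset.prod_pow_eq_pow_sum, hSSdef,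
      act_biUnion _ _ fun a _ b _ hab => hSS a b hab]
  have hDrk : ∀ o (τ : (a : Fin M) → ι a) lam om, HasRkR
      (fun u v => D o τ lam om u v) (w * (∏ a, omg (J a) lam) * 6 ^ act JJ lam) := by
    intro o τ lam om
    have h1 : ∀ j : Fin c, HasRkR (fun u v => (Matrix.of fun a b =>
        ∑ x, T o j a b x * Q a x (τ a) lam om u v).det)
        ((∏ a, omg (J a) lam) * 6 ^ act JJ lam) := by
      intro j
      have h2 := det_block_rk J lam (fun u v => (Matrix.of fun a b =>
        ∑ x, T o j a b x * Q a x (τ a) lam om u v))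
        (fun a u u' v v' hu' hv' => by
          funext b
          simp only [Matrix.of_apply]
          refine Finset.sum_congr rfl fun x _ => ?_
          rw [hQ a x (τ a) lam om u u' v v' hu' hv'])
      refine h2.mono (le_of_eq ?_)
      rw [Finset.prod_mul_distrib, Finset.prod_pow_eq_pow_sum, hJJdef,
        act_biUnion _ _ fun a _ b _ hab => hJJ a b hab]
      rfl
    refine (HasRkR.sum Finset.univ fun j _ => h1 j).mono ?_
    rw [Finset.sum_const, nsmul_eq_mul, Finset.card_univ, Fintype.card_fin, mul_assoc]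
    have h3 : 0 ≤ (∏ a, omg (J a) lam) * 6 ^ act JJ lam :=
      mul_nonneg (Finset.prod_nonneg fun a _ => omg_nonneg _ _) (by positivity)
    refine mul_le_mul_of_nonneg_right ?_ h3
    exact_mod_cast hc
  have hDloc : ∀ o τ, LocF JJ (D o τ) := by
    intro o τ lam om u u' v v' hu' hv'
    simp only [hD]
    refine Finset.sum_congr rfl fun j _ => ?_
    congr 1
    ext a b
    simp only [Matrix.of_apply]
    refine Finset.sum_congr rfl fun x _ => ?_
    have hsub : J a ⊆ JJ := Finset.subset_biUnion_of_mem J (Finset.mem_univ a)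
    rw [hQ a x (τ a) lam om u u' v v' (fun r hr => hu' r (hsub hr)) (fun r hr => hv' r (hsub hr))]
  -- moments
  have hβprod : Dep SS (fun lam => ∏ a, β a lam) := Dep.prod _ fun a _ => (hβ a).mono
    (Finset.subset_biUnion_of_mem S (Finset.mem_univ a))
  have hβp0 : ∀ lam, 0 ≤ ∏ a, β a lam := fun lam => Finset.prod_nonneg fun a _ => hβ0 a lam
  have hβdep : ∀ a, Dep (S a) (fun lam => β a lam ^ θ) := fun a lam mu h => by
    simp only
    rw [hβ a lam mu h]
  have hodep : ∀ a, Dep (J a) (fun lam => omg (J a) lam ^ θ) := fun a lam mu h => by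
    simp only
    rw [omg_dep (J a) lam mu h]
  have hexS : ex (fun lam => ∏ a, β a lam ^ θ) = ∏ a, ex (fun lam => β a lam ^ θ) :=
    ex_prod _ S (fun a _ b _ hab => hSS a b hab) _ fun a _ => hβdep a
  have hexJ : ex (fun lam => ∏ a, omg (J a) lam ^ θ) = ∏ a, ex (fun lam => omg (J a) lam ^ θ) :=
    ex_prod _ J (fun a _ b _ hab => hJJ a b hab) _ fun a _ => hodep a
  have hcardι : ((Fintype.card ((a : Fin M) → ι a) : ℕ) : ℝ) ^ θ =
      ∏ a, (Fintype.card (ι a) : ℝ) ^ θ := by
    rw [Fintype.card_pi]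
    push_cast
    rw [Real.finset_prod_rpow _ _ fun a _ => Nat.cast_nonneg _]
  have hmomS : ((Fintype.card ((a : Fin M) → ι a) : ℕ) : ℝ) ^ θ *
      ∏ a, ex (fun lam => β a lam ^ θ) ≤ Real.exp (-(ρ * SS.card)) := by
    rw [hcardι, ← Finset.prod_mul_distrib]
    calc ∏ a, ((Fintype.card (ι a) : ℝ) ^ θ * ex (fun lam => β a lam ^ θ))
        ≤ ∏ a, Real.exp (-(ρ * (S a).card)) := by
          refine Finset.prod_le_prod (fun a _ => ?_) fun a _ => hmom a
          exact mul_nonneg (Real.rpow_nonneg (Nat.cast_nonneg _) _)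
            (ex_nonneg fun lam => Real.rpow_nonneg (hβ0 a lam) _)
      _ = Real.exp (-(ρ * SS.card)) := by
          rw [← Real.exp_sum, hScard]
          congr 1
          push_cast
          rw [Finset.mul_sum, Finset.sum_neg_distrib]
  by_cases hcase : JJ.card < z
  · -- keep
    refine ⟨SS, JJ, (a : Fin M) → ι a, inferInstance, fun τ lam om u v => ∏ a, X a (τ a) lam om u v,
      D, fun lam => ∏ a, β a lam, hSJ, hSJu, hcase, hDloc, hβprod, hβp0, hXrk, ?_, hexp⟩
    have h1 : ex (fun lam => (∏ a, β a lam) ^ θ) = ∏ a, ex (fun lam => β a lam ^ θ) := by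
      rw [← hexS]
      congr 1
      funext lam
      exact (Real.finset_prod_rpow _ _ (fun a _ => hβ0 a lam) _).symm
    rw [h1]
    exact hmomS
  · -- cut
    push Not at hcase
    refine ⟨SS ∪ JJ, ∅, ((a : Fin M) → ι a) × Fin m, inferInstance,
      fun τ lam om u v => (∏ a, X a (τ.1 a) lam om u v) * D τ.2 τ.1 lam om u v,
      fun o τ _ _ _ _ => if τ.2 = o then 1 else 0,
      fun lam => (∏ a, β a lam) * (w * ∏ a, omg (J a) lam), by simp, by simpa using hSJu,
      by simpa using hz, fun o τ lam om u u' v v' _ _ => rfl, ?_, fun lam => ?_,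
      fun τ lam om => ?_, ?_, fun o lam om u v => ?_⟩
    · refine (hβprod.mono Finset.subset_union_left).mul ?_
      refine (Dep.const _ _).mul ((Dep.prod _ fun a _ => (omg_dep (J a)).mono ?_))
      exact (Finset.subset_biUnion_of_mem J (Finset.mem_univ a)).trans Finset.subset_union_right
    · exact mul_nonneg (hβp0 lam) (mul_nonneg (Nat.cast_nonneg _)
        (Finset.prod_nonneg fun a _ => omg_nonneg _ _))
    · refine ((hXrk τ.1 lam om).mul (hDrk τ.2 τ.1 lam om)).mono (le_of_eq ?_)
      rw [act_union hSJ, pow_add]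
      ring
    · have h1 : ex (fun lam => ((∏ a, β a lam) * (w * ∏ a, omg (J a) lam)) ^ θ) =
          (∏ a, ex (fun lam => β a lam ^ θ)) * ((w : ℝ) ^ θ *
            ∏ a, ex (fun lam => omg (J a) lam ^ θ)) := by
        have h2 : ∀ lam : Fin n → SignType, ((∏ a, β a lam) * (w * ∏ a, omg (J a) lam)) ^ θ =
            (∏ a, β a lam ^ θ) * ((w : ℝ) ^ θ * ∏ a, omg (J a) lam ^ θ) := by
          intro lam
          have h3 : 0 ≤ ∏ a, omg (J a) lam := Finset.prod_nonneg fun a _ => omg_nonneg _ _
          rw [Real.mul_rpow (hβp0 lam) (mul_nonneg (Nat.cast_nonneg _) h3),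
            Real.mul_rpow (Nat.cast_nonneg _) h3,
            Real.finset_prod_rpow _ _ (fun a _ => hβ0 a lam),
            Real.finset_prod_rpow _ _ (fun a _ => omg_nonneg (J a) lam)]
        simp only [h2]
        rw [ex_mul hSJ (Dep.prod _ fun a _ => (hβdep a).mono
            (Finset.subset_biUnion_of_mem S (Finset.mem_univ a)))
          ((Dep.const _ _).mul (Dep.prod _ fun a _ => (hodep a).mono
            (Finset.subset_biUnion_of_mem J (Finset.mem_univ a)))), hexS, ex_const_mul, hexJ]
      rw [h1, Fintype.card_prod, Fintype.card_fin]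
      push_cast
      rw [Real.mul_rpow (Nat.cast_nonneg _) (Nat.cast_nonneg _)]
      have h4 : ∏ a, ex (fun lam => omg (J a) lam ^ θ) ≤ Real.exp (-(2 * ρ * JJ.card)) := by
        calc ∏ a, ex (fun lam => omg (J a) lam ^ θ)
            ≤ ∏ a, Real.exp (-(2 * ρ * (J a).card)) :=
              Finset.prod_le_prod (fun a _ => ex_nonneg fun lam =>
                Real.rpow_nonneg (omg_nonneg _ _) _) fun a _ => hη (J a) (hJ a)
          _ = Real.exp (-(2 * ρ * JJ.card)) := by
              rw [← Real.exp_sum, hJcard]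
              congr 1
              push_cast
              rw [Finset.mul_sum, Finset.sum_neg_distrib]
      have h5 : (m : ℝ) ^ θ ≤ (w : ℝ) ^ θ :=
        Real.rpow_le_rpow (Nat.cast_nonneg _) (by exact_mod_cast hm) hθ0.le
      have hw0 : 0 ≤ (w : ℝ) ^ θ := Real.rpow_nonneg (Nat.cast_nonneg _) _
      have hm0 : 0 ≤ (m : ℝ) ^ θ := Real.rpow_nonneg (Nat.cast_nonneg _) _
      have h6 : 0 ≤ ∏ a, ex (fun lam => omg (J a) lam ^ θ) :=
        Finset.prod_nonneg fun a _ => ex_nonneg fun lam => Real.rpow_nonneg (omg_nonneg _ _) _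
      have h7 : 0 ≤ ((Fintype.card ((a : Fin M) → ι a) : ℕ) : ℝ) ^ θ *
          ∏ a, ex (fun lam => β a lam ^ θ) :=
        mul_nonneg (Real.rpow_nonneg (Nat.cast_nonneg _) _)
          (Finset.prod_nonneg fun a _ => ex_nonneg fun lam => Real.rpow_nonneg (hβ0 a lam) _)
      calc _ = (((Fintype.card ((a : Fin M) → ι a) : ℕ) : ℝ) ^ θ *
            ∏ a, ex (fun lam => β a lam ^ θ)) * (((m : ℝ) ^ θ * (w : ℝ) ^ θ) *
            ∏ a, ex (fun lam => omg (J a) lam ^ θ)) := by ring
        _ ≤ Real.exp (-(ρ * SS.card)) * (Real.exp (ρ * z) * Real.exp (-(2 * ρ * JJ.card))) := by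
            refine mul_le_mul hmomS ?_ (by positivity) (Real.exp_pos _).le
            refine mul_le_mul ?_ h4 h6 (Real.exp_pos _).le
            exact (mul_le_mul_of_nonneg_right h5 hw0).trans hw
        _ ≤ Real.exp (-(ρ * (SS ∪ JJ).card)) := by
            rw [← Real.exp_add, ← Real.exp_add, Real.exp_le_exp,
              Finset.card_union_of_disjoint hSJ]
            push_cast
            have h8 : (z : ℝ) ≤ JJ.card := by exact_mod_cast hcase
            have := mul_le_mul_of_nonneg_left h8 hρ
            linarith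
    · beta_reduce
      rw [hexp o lam om u v, Fintype.sum_prod_type]
      refine Finset.sum_congr rfl fun τ _ => ?_
      rw [Finset.sum_eq_single o]
      · simp
      · intro o' _ ho'
        simp [ho']
      · intro h; exact absurd (Finset.mem_univ _) h

end Pool.Agent.W942
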