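import Pool.Agent.W942.Rk

/-!
# The rank of a determinant some rows of which depend on `u`, some on `v`, the others on nothing
-/

set_option autoImplicit false

namespace Pool.Agent.W942

open Finset Matrix

variable {K : Type*} [Field K] {U V : Type*}

/-- Keep the entries with row in `A` in the columns of `T`, the other entries in the others. -/
def splitM {g : ℕ} (A T : Finset (Fin g)) (E : Matrix (Fin g) (Fin g) K) :
    Matrix (Fin g) (Fin g) K :=
  fun i j => if j ∈ T then (if i ∈ A then E i j else 0) else (if i ∈ A then 0 else E i j)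

theorem det_split {g : ℕ} (A : Finset (Fin g)) (E : Matrix (Fin g) (Fin g) K) :
    E.det = ∑ T : Finset (Fin g), (splitM A T E).det := by
  have h1 := (Matrix.detRowAlternating (R := K) (n := Fin g)).toMultilinearMap.map_add_univ
    (fun j i => if i ∈ A then E i j else 0) (fun j i => if i ∈ A then 0 else E i j)
  have h2 : Eᵀ = ((fun j i => if i ∈ A then E i j else 0) +
      (fun j i => if i ∈ A then 0 else E i j) : Fin g → Fin g → K) := by
    funext j i
    simp only [Matrix.transpose_apply, Pi.add_apply]
    by_cases hi : i ∈ A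
    · simp only [hi, if_true, add_zero]
    · simp only [hi, if_false, zero_add]
  rw [← Matrix.det_transpose, h2]
  refine h1.trans (Finset.sum_congr rfl fun T _ => ?_)
  rw [← Matrix.det_transpose (splitM A T E)]
  change Matrix.det _ = _
  congr 1
  funext j i
  by_cases hj : j ∈ T
  · simp only [Finset.piecewise, Matrix.transpose_apply, splitM, hj, if_true]
  · simp only [Finset.piecewise, Matrix.transpose_apply, splitM, hj, if_false]

theorem det_splitM_zero {g : ℕ} (A T : Finset (Fin g)) (E : Matrix (Fin g) (Fin g) K)
    (hT : T.card ≠ A.card) : (splitM A T E).det = 0 := by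
  rw [Matrix.det_apply]
  refine Finset.sum_eq_zero fun σ _ => ?_
  have : ∃ j, (j ∈ T ∧ σ j ∉ A) ∨ (j ∉ T ∧ σ j ∈ A) := by
    by_contra hcon
    push Not at hcon
    apply hT
    have h3 : T.map σ.toEmbedding = A := by
      ext i
      simp only [Finset.mem_map, Equiv.coe_toEmbedding]
      constructor
      · rintro ⟨j, hj, rfl⟩
        exact (hcon j).1 hj
      · intro hi
        refine ⟨σ.symm i, ?_, by simp⟩
        by_contra hj
        exact (hcon _).2 hj (by simpa using hi)
    rw [← h3, Finset.card_map]
  obtain ⟨j, hj⟩ := this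
  rw [Finset.prod_eq_zero (Finset.mem_univ j)]
  · exact smul_zero _
  · rcases hj with ⟨h4, h5⟩ | ⟨h4, h5⟩
    · simp only [splitM, h4, h5, if_true, if_false]
    · simp only [splitM, h4, h5, if_true, if_false]

theorem exists_perm {g : ℕ} (A T : Finset (Fin g)) (hT : T.card = A.card) :
    ∃ σ : Equiv.Perm (Fin g), ∀ j, σ j ∈ A ↔ j ∈ T := by
  have e1 : {j // j ∈ T} ≃ {i // i ∈ A} := Fintype.equivOfCardEq (by simp [hT])
  have e2 : {j // ¬ j ∈ T} ≃ {i // ¬ i ∈ A} := Fintype.equivOfCardEq (by
    rw [Fintype.card_subtype_compl, Fintype.card_subtype_compl]; simp [hT])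
  refine ⟨Equiv.subtypeCongr e1 e2, fun j => ?_⟩
  by_cases hj : j ∈ T
  · have : (Equiv.subtypeCongr e1 e2) j = (e1 ⟨j, hj⟩ : Fin g) := by
      simp [Equiv.subtypeCongr, Equiv.sumCompl, hj]
    rw [this]
    simp [hj]
  · have : (Equiv.subtypeCongr e1 e2) j = (e2 ⟨j, hj⟩ : Fin g) := by
      simp [Equiv.subtypeCongr, Equiv.sumCompl, hj]
    rw [this]
    exact iff_of_false (e2 ⟨j, hj⟩).2 hj

theorem det_perm' {g : ℕ} (σ : Equiv.Perm (Fin g)) (M : Matrix (Fin g) (Fin g) K) :
    M.det = ((Equiv.Perm.sign σ : ℤ) : K) * (M.submatrix σ id).det := by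
  rw [Matrix.det_permute, ← mul_assoc, ← Int.cast_mul, Int.units_coe_mul_self]
  simp

theorem det_splitM_perm {g : ℕ} (A T : Finset (Fin g)) (σ : Equiv.Perm (Fin g))
    (p : Fin g → Prop) [DecidablePred p] (hp : ∀ j, p j ↔ j ∈ T)
    (hσ : ∀ j, σ j ∈ A ↔ j ∈ T) (E : Matrix (Fin g) (Fin g) K) :
    ((splitM A T E).submatrix σ id).det =
      (Matrix.of fun (i j : {j // p j}) => E (σ i) j).det *
        (Matrix.of fun (i j : {j // ¬ p j}) => E (σ i) j).det := by
  rw [Matrix.twoBlockTriangular_det _ p]
  · have h1 : ((splitM A T E).submatrix σ id).toSquareBlockProp p =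
        Matrix.of fun (i j : {j // p j}) => E (σ i) j := by
      funext i j
      have h3 := (hσ i).2 ((hp i).1 i.2)
      have h4 := (hp j).1 j.2
      simp only [Matrix.toSquareBlockProp, Matrix.toBlock_apply, Matrix.submatrix_apply, splitM,
        Matrix.of_apply, id, h3, h4, if_true]
    have h2 : (((splitM A T E).submatrix σ id).toSquareBlockProp fun i => ¬ p i) =
        Matrix.of fun (i j : {j // ¬ p j}) => E (σ i) j := by
      funext i j
      have h3 : σ i ∉ A := fun h => i.2 ((hp i).2 ((hσ i).1 h))
      have h4 : (j : Fin g) ∉ T := fun h => j.2 ((hp j).2 h)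
      simp only [Matrix.toSquareBlockProp, Matrix.toBlock_apply, Matrix.submatrix_apply, splitM,
        Matrix.of_apply, id, h3, h4, if_false]
    rw [h1, h2]
  · intro i hi j hj
    have h3 : σ i ∉ A := fun h => hi ((hp i).2 ((hσ i).1 h))
    have h4 := (hp j).1 hj
    simp only [Matrix.submatrix_apply, splitM, id, h3, h4, if_true, if_false]

/-- Rows of the first kind (`A`) depend on `u` only, the others on `v` only. -/
theorem det_rk_two {g : ℕ} (A : Finset (Fin g)) (E : U → V → Matrix (Fin g) (Fin g) K)
    (hA : ∀ i ∈ A, ∀ u v v', E u v i = E u v' i) (hB : ∀ i ∉ A, ∀ u u' v, E u v i = E u' v i) :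
    HasRk (fun u v => (E u v).det) (g.choose A.card) := by
  classical
  have hprod : ∀ T : Finset (Fin g), T.card = A.card →
      HasRk (fun u v => (splitM A T (E u v)).det) 1 := by
    intro T hT
    obtain ⟨σ, hσ⟩ := exists_perm A T hT
    obtain ⟨p, hp⟩ : ∃ p : Fin g → Prop, ∀ j, p j ↔ j ∈ T := ⟨_, fun j => Iff.rfl⟩
    have h7 : ∀ E : Matrix (Fin g) (Fin g) K, (splitM A T E).det =
        ((Equiv.Perm.sign σ : ℤ) : K) * ((Matrix.of fun (i j : {j // p j}) =>
          E (σ i) j).det * (Matrix.of fun (i j : {j // ¬ p j}) => E (σ i) j).det) := by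
      intro E
      rw [det_perm' σ, det_splitM_perm A T σ p hp hσ]
    by_cases hU : Nonempty U
    · by_cases hV : Nonempty V
      · obtain ⟨u0⟩ := hU
        obtain ⟨v0⟩ := hV
        have hX : ∀ u v, (Matrix.of fun (i j : {j // p j}) => E u v (σ i) j) =
            (Matrix.of fun (i j : {j // p j}) => E u v0 (σ i) j) := by
          intro u v
          funext i j
          exact congrFun (hA _ ((hσ _).2 ((hp _).1 i.2)) u v v0) _
        have hY : ∀ u v, (Matrix.of fun (i j : {j // ¬ p j}) => E u v (σ i) j) =
            (Matrix.of fun (i j : {j // ¬ p j}) => E u0 v (σ i) j) := by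
          intro u v
          funext i j
          exact congrFun (hB _ (fun h => i.2 ((hp _).2 ((hσ _).1 h))) u u0 v) _
        refine HasRk.one_of_mul
          (fun u => ((Equiv.Perm.sign σ : ℤ) : K) *
            (Matrix.of fun (i j : {j // p j}) => E u v0 (σ i) j).det)
          (fun v => (Matrix.of fun (i j : {j // ¬ p j}) => E u0 v (σ i) j).det)
          (fun u v => ?_)
        rw [h7, hX u v, hY u v, mul_assoc]
      · exact HasRk.one_of_mul (fun _ => 0) (fun _ => 0) (fun u v => (hV ⟨v⟩).elim)
    · exact HasRk.one_of_mul (fun _ => 0) (fun _ => 0) (fun u v => (hU ⟨u⟩).elim)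
  have h8 : HasRk (fun u v => ∑ T ∈ Finset.univ.powersetCard A.card,
      (splitM A T (E u v)).det)
      (∑ _T ∈ (Finset.univ : Finset (Fin g)).powersetCard A.card, 1) :=
    HasRk.sum _ fun T hT => hprod T (Finset.mem_powersetCard.1 hT).2
  have h9 : (∑ _T ∈ (Finset.univ : Finset (Fin g)).powersetCard A.card, 1) = g.choose A.card := by
    simp
  rw [h9] at h8
  refine h8.congr fun u v => ?_
  rw [det_split A]
  symm
  refine Finset.sum_subset (Finset.subset_univ _) fun T _ hT => det_splitM_zero A T _ fun h => hT ?_
  exact Finset.mem_powersetCard.2 ⟨Finset.subset_univ _, h⟩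

/-- Rows in `A` depend on `u` only, rows in `B` on `v` only, the others are constant. -/
theorem det_rk {m : ℕ} (A B : Finset (Fin m)) (hAB : Disjoint A B)
    (E : U → V → Matrix (Fin m) (Fin m) K)
    (hA : ∀ i ∈ A, ∀ u v v', E u v i = E u v' i) (hB : ∀ i ∈ B, ∀ u u' v, E u v i = E u' v i)
    (hC : ∀ i ∉ A, i ∉ B → ∀ u u' v v', E u v i = E u' v' i) :
    HasRk (fun u v => (E u v).det) ((A.card + B.card).choose A.card) := by
  classical
  induction m with
  | zero =>
    have hA0 : A = ∅ := by ext i; exact i.elim0
    have hB0 : B = ∅ := by ext i; exact i.elim0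
    subst hA0 hB0
    exact (HasRk.one_of_mul (fun _ => 1) (fun _ => 1) (fun u v => by simp))
  | succ m ih =>
    by_cases hall : ∀ i, i ∉ A → i ∈ B
    · have h1 := det_rk_two A E hA (fun i hi => hB i (hall i hi))
      have h2 : A.card + B.card = m + 1 := by
        have h3 : A ∪ B = Finset.univ := by
          ext i
          by_cases hi : i ∈ A <;> simp [hi]
          exact hall i hi
        rw [← Finset.card_union_of_disjoint hAB, h3]; simp
      rw [h2]
      exact h1
    · push Not at hall
      obtain ⟨l, hlA, hlB⟩ := hall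
      by_cases hU : Nonempty U
      swap
      · exact (HasRk.of_fintype (ι := Fin 0) (fun i => i.elim0) (fun i => i.elim0)
          (fun u v => (hU ⟨u⟩).elim)).mono (by simp)
      by_cases hV : Nonempty V
      swap
      · exact (HasRk.of_fintype (ι := Fin 0) (fun i => i.elim0) (fun i => i.elim0)
          (fun u v => (hV ⟨v⟩).elim)).mono (by simp)
      obtain ⟨u0⟩ := hU
      obtain ⟨v0⟩ := hV
      set z : Fin (m + 1) → K := E u0 v0 l with hz
      have hzl : ∀ u v, E u v l = z := fun u v => hC l hlA hlB u u0 v v0
      by_cases hz0 : ∀ j, z j = 0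
      · refine (HasRk.zero.mono (Nat.zero_le _)).congr fun u v => ?_
        exact Matrix.det_eq_zero_of_row_eq_zero l fun j => by rw [hzl, hz0]
      · push Not at hz0
        obtain ⟨j0, hj0⟩ := hz0
        -- eliminate the column `j0`
        let E' : U → V → Matrix (Fin (m + 1)) (Fin (m + 1)) K := fun u v => Matrix.of fun i j =>
          if i = l then z j else E u v i j - E u v i j0 / z j0 * z j
        have hdet : ∀ u v, (E u v).det = (E' u v).det := by
          intro u v
          refine Matrix.det_eq_of_forall_row_eq_smul_add_const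
            (fun i => if i = l then 0 else E u v i j0 / z j0) l (by simp) fun i j => ?_
          by_cases hi : i = l
          · subst hi
            simp [E', hzl]
          · simp [E', hi]
        have hcol : ∀ u v i, i ≠ l → E' u v i j0 = 0 := by
          intro u v i hi
          simp only [E', Matrix.of_apply, hi, if_false]
          field_simp
          ring
        have hexp : ∀ u v, (E' u v).det = (-1) ^ (l + j0 : ℕ) * z j0 *
            ((E' u v).submatrix l.succAbove j0.succAbove).det := by
          intro u v
          rw [Matrix.det_succ_column _ j0, Finset.sum_eq_single l]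
          · simp [E']
          · intro i _ hi
            simp [hcol u v i hi]
          · simp
        let A' : Finset (Fin m) := Finset.univ.filter fun i => l.succAbove i ∈ A
        let B' : Finset (Fin m) := Finset.univ.filter fun i => l.succAbove i ∈ B
        have hcard : ∀ S : Finset (Fin (m + 1)), l ∉ S →
            (Finset.univ.filter fun i => l.succAbove i ∈ S).card = S.card := by
          intro S hS
          have : S = (Finset.univ.filter fun i => l.succAbove i ∈ S).map
              ⟨l.succAbove, Fin.succAbove_right_injective⟩ := by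
            ext i
            simp only [Finset.mem_map, Finset.mem_filter, Finset.mem_univ, true_and,
              Function.Embedding.coeFn_mk]
            constructor
            · intro hi
              have hne : i ≠ l := fun h => hS (h ▸ hi)
              obtain ⟨i', rfl⟩ := Fin.exists_succAbove_eq hne
              exact ⟨i', hi, rfl⟩
            · rintro ⟨i', hi', rfl⟩
              exact hi'
          conv_rhs => rw [this]
          rw [Finset.card_map]
        have hA' : A'.card = A.card := hcard A hlA
        have hB' : B'.card = B.card := hcard B hlB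
        have hAB' : Disjoint A' B' := by
          rw [Finset.disjoint_left] at hAB ⊢
          intro i hi hi'
          exact hAB (Finset.mem_filter.1 hi).2 (Finset.mem_filter.1 hi').2
        have hrow : ∀ (i : Fin m) (u u' : U) (v v' : V), E u v (l.succAbove i) = E u' v' (l.succAbove i) →
            (E' u v).submatrix l.succAbove j0.succAbove i =
            (E' u' v').submatrix l.succAbove j0.succAbove i := by
          intro i u u' v v' h
          ext j
          simp only [E', Matrix.submatrix_apply, Matrix.of_apply, Fin.succAbove_ne, if_false, h]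
        have h4 := ih A' B' hAB' (fun u v => (E' u v).submatrix l.succAbove j0.succAbove)
          (fun i hi u v v' => hrow i u u v v' (hA _ (Finset.mem_filter.1 hi).2 u v v'))
          (fun i hi u u' v => hrow i u u' v v (hB _ (Finset.mem_filter.1 hi).2 u u' v))
          (fun i hi hi' u u' v v' => hrow i u u' v v' (hC _
            (fun h => hi (Finset.mem_filter.2 ⟨Finset.mem_univ _, h⟩))
            (fun h => hi' (Finset.mem_filter.2 ⟨Finset.mem_univ _, h⟩)) u u' v v'))
        rw [hA', hB'] at h4
        have h5 := (HasRk.one_of_mul (M := fun (_ : U) (_ : V) => (-1) ^ (l + j0 : ℕ) * z j0)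
          (fun _ => (-1) ^ (l + j0 : ℕ) * z j0) (fun _ => 1) (fun u v => by simp)).mul h4
        rw [one_mul] at h5
        exact h5.congr fun u v => by rw [hdet, hexp]

theorem choose_le_weights (a b : ℕ) :
    ((a + b).choose a : ℝ) ≤ (4 / 3 : ℝ) ^ a * 4 ^ b := by
  have h1 : ((3 / 4 : ℝ) + 1 / 4) ^ (a + b) = 1 := by norm_num
  rw [add_pow] at h1
  have h2 : (3 / 4 : ℝ) ^ a * (1 / 4) ^ (a + b - a) * ((a + b).choose a : ℝ) ≤ 1 := by
    refine le_trans ?_ h1.le
    have ha : a ∈ Finset.range (a + b + 1) := Finset.mem_range.2 (by omega)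
    exact Finset.single_le_sum (f := fun m => (3 / 4 : ℝ) ^ m * (1 / 4) ^ (a + b - m) *
      ((a + b).choose m : ℝ)) (fun i _ => by positivity) ha
  rw [Nat.add_sub_cancel_left] at h2
  have h3 : (3 / 4 : ℝ) ^ a * (1 / 4) ^ b * ((4 / 3 : ℝ) ^ a * 4 ^ b) = 1 := by
    rw [mul_mul_mul_comm, ← mul_pow, ← mul_pow]; norm_num
  have h4 : (0 : ℝ) < (3 / 4 : ℝ) ^ a * (1 / 4) ^ b := by positivity
  nlinarith [mul_le_mul_of_nonneg_left h2 (show (0 : ℝ) ≤ (4 / 3 : ℝ) ^ a * 4 ^ b by positivity)]

end Pool.Agent.W942
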