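import Mathlib

/-!
# Extraction of the part of a polynomial which is linear in given rows of variables
-/

set_option autoImplicit false
set_option maxHeartbeats 1000000

namespace Pool.Agent.W942.Ext

open Finset MvPolynomial

/-- The product rule for finite products. -/
theorem deriv_prod {R A ι : Type*} [CommRing R] [CommRing A] [Algebra R A] [DecidableEq ι]
    (D : Derivation R A A) (s : Finset ι) (f : ι → A) :
    D (∏ i ∈ s, f i) = ∑ i ∈ s, (∏ j ∈ s.erase i, f j) * D (f i) := by
  induction s using Finset.induction_on with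
  | empty => simp
  | insert a s ha ih =>
    rw [Finset.prod_insert ha, Derivation.leibniz, ih, Finset.sum_insert ha,
      Finset.erase_insert ha, smul_eq_mul, smul_eq_mul, Finset.mul_sum, add_comm]
    congr 1
    refine Finset.sum_congr rfl fun i hi => ?_
    have hia : i ≠ a := fun h => ha (h ▸ hi)
    rw [Finset.erase_insert_of_ne hia.symm, Finset.prod_insert (fun h => ha (Finset.mem_of_mem_erase h)),
      mul_assoc]

/-- The derivative of a determinant. -/
theorem deriv_det {R A ι : Type*} [CommRing R] [CommRing A] [Algebra R A] [DecidableEq ι]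
    [Fintype ι] (D : Derivation R A A) (M : Matrix ι ι A) :
    D M.det = ∑ i, (M.updateRow i (fun j => D (M i j))).det := by
  rw [← Matrix.det_transpose M, Matrix.det_apply]
  have h1 : ∀ i, (M.updateRow i (fun j => D (M i j))).det = ∑ σ : Equiv.Perm ι,
      Equiv.Perm.sign σ • ((∏ j ∈ Finset.univ.erase i, M j (σ j)) * D (M i (σ i))) := by
    intro i
    rw [← Matrix.det_transpose, Matrix.det_apply]
    refine Finset.sum_congr rfl fun σ _ => ?_
    congr 1
    rw [← Finset.mul_prod_erase _ _ (Finset.mem_univ i), mul_comm]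
    congr 1
    · refine Finset.prod_congr rfl fun j hj => ?_
      rw [Matrix.transpose_apply, Matrix.updateRow_ne (Finset.ne_of_mem_erase hj)]
    · rw [Matrix.transpose_apply, Matrix.updateRow_self]
  simp only [h1]
  rw [Finset.sum_comm, map_sum]
  refine Finset.sum_congr rfl fun σ _ => ?_
  rw [← Finset.smul_sum]
  have h2 : D (∏ i, M.transpose (σ i) i) = ∑ i, (∏ j ∈ Finset.univ.erase i, M j (σ j)) *
      D (M i (σ i)) := by
    rw [deriv_prod]
    rfl
  rw [← h2]
  rcases Int.units_eq_one_or (Equiv.Perm.sign σ) with h | h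
  · rw [h, one_smul, one_smul]
  · rw [h, Units.neg_smul, Units.neg_smul, one_smul, one_smul, map_neg]

section
variable {R : Type*} [CommRing R] {n : ℕ}

/-- Give the variables of `X` the values `y`, multiplied by the variable belonging to the row. -/
noncomputable def lift (y : Fin n × Fin n → R) :
    MvPolynomial (Fin n × Fin n) R →+* MvPolynomial (Fin n) R :=
  eval₂Hom C (fun ij => C (y ij) * X ij.1)

theorem lift_X (y : Fin n × Fin n → R) (ij : Fin n × Fin n) :
    lift y (X ij) = C (y ij) * X ij.1 := by
  simp [lift]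

theorem lift_C (y : Fin n × Fin n → R) (a : R) : lift y (C a) = C a := by
  simp [lift]

/-- Iterated partial derivatives. -/
noncomputable def dl : List (Fin n) → MvPolynomial (Fin n) R →ₗ[R] MvPolynomial (Fin n) R
  | [] => LinearMap.id
  | i :: l => (dl l).comp ((pderiv i : Derivation R (MvPolynomial (Fin n) R) _) :
      MvPolynomial (Fin n) R →ₗ[R] MvPolynomial (Fin n) R)

theorem dl_nil (p : MvPolynomial (Fin n) R) : dl [] p = p := rfl

theorem dl_cons (i : Fin n) (l : List (Fin n)) (p : MvPolynomial (Fin n) R) :
    dl (i :: l) p = dl l (pderiv i p) := rfl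

/-- The point at which the derivatives are evaluated. -/
def pt (l : List (Fin n)) : Fin n → R := fun i => if i ∈ l then 0 else 1

/-- The part of `p` which is linear in each of the rows in `l`, at `y`. -/
noncomputable def ext (l : List (Fin n)) (y : Fin n × Fin n → R)
    (p : MvPolynomial (Fin n × Fin n) R) : R :=
  eval (pt l) (dl l (lift y p))

theorem ext_sum {ι : Type*} (s : Finset ι) (l : List (Fin n)) (y : Fin n × Fin n → R)
    (p : ι → MvPolynomial (Fin n × Fin n) R) :
    ext l y (∑ i ∈ s, p i) = ∑ i ∈ s, ext l y (p i) := by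
  simp only [ext, map_sum]

theorem ext_C_mul (l : List (Fin n)) (y : Fin n × Fin n → R) (c : R)
    (p : MvPolynomial (Fin n × Fin n) R) : ext l y (C c * p) = c * ext l y p := by
  simp only [ext]
  rw [map_mul, lift_C, C_mul', map_smul, smul_eval]

end

section
variable {R S : Type*} [CommRing R] [CommRing S] {n : ℕ} (φ : R →+* S)

theorem map_lift (y : Fin n × Fin n → R) (p : MvPolynomial (Fin n × Fin n) R) :
    map φ (lift y p) = lift (fun ij => φ (y ij)) (map φ p) := by
  have h : ((map φ : MvPolynomial (Fin n) R →+* MvPolynomial (Fin n) S).comp (lift y)) =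
      (lift (fun ij => φ (y ij))).comp (map φ) := by
    refine MvPolynomial.ringHom_ext (fun r => ?_) (fun ij => ?_)
    · simp only [RingHom.comp_apply, lift_C, map_C]
    · simp only [RingHom.comp_apply, lift_X, map_X, map_mul, map_C]
  exact congrArg (fun f => f p) h

theorem map_dl (l : List (Fin n)) (p : MvPolynomial (Fin n) R) :
    map φ (dl l p) = dl l (map φ p) := by
  induction l generalizing p with
  | nil => rfl
  | cons i l ih => rw [dl_cons, dl_cons, ih, pderiv_map]

theorem map_ext (l : List (Fin n)) (y : Fin n × Fin n → R)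
    (p : MvPolynomial (Fin n × Fin n) R) :
    φ (ext l y p) = ext l (fun ij => φ (y ij)) (map φ p) := by
  unfold ext
  rw [← map_lift, ← map_dl, eval_map]
  have h1 := MvPolynomial.eval₂_comp_left φ (RingHom.id R) (pt l) (dl l (lift y p))
  have h2 : (φ ∘ (pt l : Fin n → R)) = pt l := by
    funext i
    simp only [Function.comp_apply, pt]
    split_ifs <;> simp
  rw [h2, RingHom.comp_id] at h1
  exact h1

end

section
variable {R : Type*} [CommRing R] {n : ℕ}

theorem pderiv_prod_X (S : Finset (Fin n)) (i : Fin n) (hi : i ∈ S) :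
    pderiv i (∏ j ∈ S, (X j : MvPolynomial (Fin n) R)) = ∏ j ∈ S.erase i, X j := by
  rw [deriv_prod, Finset.sum_eq_single i]
  · rw [pderiv_X_self, mul_one]
  · intro j _ hj
    rw [pderiv_X_of_ne hj, mul_zero]
  · intro h
    exact absurd hi h

theorem eval_dl_prod (l : List (Fin n)) (hl : l.Nodup) (t : Fin n → R) (c : R)
    (S : Finset (Fin n)) (hS : ∀ i ∈ l, i ∈ S) :
    eval t (dl l (C c * ∏ j ∈ S, X j)) = c * ∏ j ∈ S.filter (fun j => j ∉ l), t j := by
  induction l generalizing S with
  | nil => simp [dl_nil]
  | cons i l ih =>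
    rw [dl_cons, pderiv_C_mul, pderiv_prod_X S i (hS i (by simp)), ih (List.nodup_cons.1 hl).2]
    · congr 1
      refine Finset.prod_congr ?_ fun _ _ => rfl
      ext j
      simp only [Finset.mem_filter, Finset.mem_erase, List.mem_cons, not_or]
      tauto
    · intro j hj
      refine Finset.mem_erase.2 ⟨?_, hS j (List.mem_cons_of_mem _ hj)⟩
      rintro rfl
      exact (List.nodup_cons.1 hl).1 hj

theorem ext_permanent (l : List (Fin n)) (hl : l.Nodup) (y : Fin n × Fin n → R) :
    ext l y (Matrix.of fun i j => (X (i, j) : MvPolynomial (Fin n × Fin n) R)).permanent =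
      (Matrix.of fun i j => y (i, j)).permanent := by
  have h1 : lift y (Matrix.of fun i j => (X (i, j) : MvPolynomial (Fin n × Fin n) R)).permanent =
      C (Matrix.of fun i j => y (i, j)).permanent * ∏ j ∈ (Finset.univ : Finset (Fin n)), X j := by
    unfold Matrix.permanent
    rw [map_sum, map_sum, Finset.sum_mul]
    refine Finset.sum_congr rfl fun σ _ => ?_
    rw [map_prod, map_prod, ← Equiv.prod_comp σ (fun j => (X j : MvPolynomial (Fin n) R)),
      ← Finset.prod_mul_distrib]
    refine Finset.prod_congr rfl fun i _ => ?_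
    rw [Matrix.of_apply, Matrix.of_apply, lift_X]
  unfold ext
  rw [h1, eval_dl_prod l hl _ _ _ (fun i _ => Finset.mem_univ i), Finset.prod_eq_one, mul_one]
  intro j hj
  rw [pt, if_neg (Finset.mem_filter.1 hj).2]

end

end Pool.Agent.W942.Ext
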