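import Pool.Agent.W942.Block

/-!
# Families of functions with an average rank bound
-/

set_option autoImplicit false

namespace Pool.Agent.W942

open Finset

variable {K : Type*} [Field K] {n : ℕ} {Om : Type*}

/-- The number of labels `±` in `R`. -/
def act (R : Finset (Fin n)) (lam : Fin n → SignType) : ℕ := np R lam + nm R lam

/-- A family of functions of `u` and `v`, one for every choice of labels (and of something else). -/
abbrev Fam (K : Type*) (n : ℕ) (Om : Type*) : Type _ :=
  (Fin n → SignType) → Om → (Fin n → Fin 36) → (Fin n → Fin 36) → K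

/-- The family depends on the rows in `R` only. -/
def LocF (R : Finset (Fin n)) (F : Fam K n Om) : Prop := ∀ lam o, Loc R lam (F lam o)

/-- The rank is at most `6 ^ act` times a random variable of expectation at most `c` which depends
on the labels in `R` only. -/
def Bd (R : Finset (Fin n)) (c : ℝ) (F : Fam K n Om) : Prop :=
  ∃ B : (Fin n → SignType) → ℝ, Dep R B ∧ (∀ lam, 0 ≤ B lam) ∧ ex B ≤ c ∧
    ∀ lam o, HasRkR (F lam o) (B lam * 6 ^ act R lam)

theorem LocF.mono {R S : Finset (Fin n)} {F : Fam K n Om} (h : LocF R F) (hRS : R ⊆ S) :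
    LocF S F := fun lam o => (h lam o).mono hRS

theorem np_union {R S : Finset (Fin n)} (h : Disjoint R S) (lam : Fin n → SignType) :
    np (R ∪ S) lam = np R lam + np S lam := by
  unfold np
  rw [Finset.filter_union, Finset.card_union_of_disjoint]
  exact Finset.disjoint_filter_filter h

theorem nm_union {R S : Finset (Fin n)} (h : Disjoint R S) (lam : Fin n → SignType) :
    nm (R ∪ S) lam = nm R lam + nm S lam := by
  unfold nm
  rw [Finset.filter_union, Finset.card_union_of_disjoint]
  exact Finset.disjoint_filter_filter h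

theorem act_union {R S : Finset (Fin n)} (h : Disjoint R S) (lam : Fin n → SignType) :
    act (R ∪ S) lam = act R lam + act S lam := by
  unfold act
  rw [np_union h, nm_union h]; ring

theorem act_empty (lam : Fin n → SignType) : act (∅ : Finset (Fin n)) lam = 0 := by
  simp [act, np, nm]

theorem act_biUnion {ι : Type*} [DecidableEq ι] (s : Finset ι) (R : ι → Finset (Fin n))
    (hR : ∀ i ∈ s, ∀ j ∈ s, i ≠ j → Disjoint (R i) (R j)) (lam : Fin n → SignType) :
    act (s.biUnion R) lam = ∑ i ∈ s, act (R i) lam := by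
  induction s using Finset.induction_on with
  | empty => simp [act_empty]
  | insert a s ha ih =>
    have h1 : Disjoint (R a) (s.biUnion R) := by
      rw [Finset.disjoint_biUnion_right]
      intro i hi
      exact hR a (Finset.mem_insert_self a s) i (Finset.mem_insert_of_mem hi)
        (fun h => ha (h ▸ hi))
    rw [Finset.biUnion_insert, act_union h1, Finset.sum_insert ha,
      ih fun i hi j hj => hR i (Finset.mem_insert_of_mem hi) j (Finset.mem_insert_of_mem hj)]

theorem omg_empty (lam : Fin n → SignType) : omg (∅ : Finset (Fin n)) lam = 1 := by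
  simp [omg, om, np, nm]

theorem Bd.nonneg {R : Finset (Fin n)} {c : ℝ} {F : Fam K n Om} (h : Bd R c F) : 0 ≤ c := by
  obtain ⟨B, _, h2, h3, _⟩ := h
  exact (ex_nonneg h2).trans h3

theorem Bd.mono {R : Finset (Fin n)} {c d : ℝ} {F : Fam K n Om} (h : Bd R c F) (hcd : c ≤ d) :
    Bd R d F := by
  obtain ⟨B, h1, h2, h3, h4⟩ := h
  exact ⟨B, h1, h2, h3.trans hcd, h4⟩

theorem Bd.congr {R : Finset (Fin n)} {c : ℝ} {F G : Fam K n Om} (h : Bd R c F)
    (he : ∀ lam o u v, G lam o u v = F lam o u v) : Bd R c G := by
  obtain ⟨B, h1, h2, h3, h4⟩ := h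
  exact ⟨B, h1, h2, h3, fun lam o => (h4 lam o).congr (he lam o)⟩

/-- Enlarging the set of rows. -/
theorem Bd.lift {R S : Finset (Fin n)} {c : ℝ} {F : Fam K n Om} (h : Bd R c F) (hRS : R ⊆ S) :
    Bd S (c * (103 / 108) ^ (S.card - R.card)) F := by
  obtain ⟨B, h1, h2, h3, h4⟩ := h
  have hd : Disjoint R (S \ R) := Finset.disjoint_sdiff
  have hu : R ∪ (S \ R) = S := Finset.union_sdiff_of_subset hRS
  refine ⟨fun lam => B lam * sml (S \ R) lam, (h1.mono hRS).mul
    ((sml_dep _).mono Finset.sdiff_subset), fun lam => mul_nonneg (h2 lam) (sml_nonneg _ _), ?_,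
    fun lam o => (h4 lam o).mono ?_⟩
  · rw [ex_mul hd h1 (sml_dep _), ex_sml, Finset.card_sdiff_of_subset hRS]
    exact mul_le_mul_of_nonneg_right h3 (by positivity)
  · have h5 : act S lam = act R lam + act (S \ R) lam := by rw [← act_union hd, hu]
    rw [h5, pow_add]
    have h6 : sml (S \ R) lam * 6 ^ act (S \ R) lam = 1 := by
      unfold sml
      change (1 / 6 : ℝ) ^ act (S \ R) lam * 6 ^ act (S \ R) lam = 1
      rw [← mul_pow]; norm_num
    calc B lam * 6 ^ act R lam = B lam * 6 ^ act R lam * (sml (S \ R) lam *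
          6 ^ act (S \ R) lam) := by rw [h6, mul_one]
      _ = _ := by ring
      _ ≤ _ := le_rfl

theorem Bd.const {F : Fam K n Om} (h : LocF ∅ F) : Bd ∅ 1 F :=
  ⟨fun _ => 1, Dep.const _ _, fun _ => zero_le_one, (ex_const 1).le, fun lam o => by
    obtain hr := (h lam o).rk_one
    rw [act_empty, pow_zero, mul_one]
    exact ⟨1, hr, by simp⟩⟩

theorem Bd.loc {R : Finset (Fin n)} {F : Fam K n Om} (h : LocF R F) : Bd R (psi R.card) F :=
  ⟨omg R, omg_dep R, omg_nonneg R, (ex_omg R).le, fun lam o => (h lam o).rk⟩

theorem Bd.add {R : Finset (Fin n)} {c d : ℝ} {F G : Fam K n Om} (hF : Bd R c F) (hG : Bd R d G) :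
    Bd R (c + d) (fun lam o u v => F lam o u v + G lam o u v) := by
  obtain ⟨B, h1, h2, h3, h4⟩ := hF
  obtain ⟨C, k1, k2, k3, k4⟩ := hG
  refine ⟨fun lam => B lam + C lam, h1.add k1, fun lam => add_nonneg (h2 lam) (k2 lam), ?_,
    fun lam o => ?_⟩
  · rw [ex_add]; exact add_le_add h3 k3
  · rw [add_mul]; exact (h4 lam o).add (k4 lam o)

theorem Bd.zero (R : Finset (Fin n)) : Bd R 0 (fun _ _ _ _ => 0 : Fam K n Om) :=
  ⟨fun _ => 0, Dep.const _ _, fun _ => le_rfl, (ex_const 0).le, fun lam o => by
    rw [zero_mul]; exact HasRkR.zero⟩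

theorem Bd.sum {ι : Type*} (s : Finset ι) {R : Finset (Fin n)} {c : ι → ℝ} {F : ι → Fam K n Om}
    (h : ∀ i ∈ s, Bd R (c i) (F i)) :
    Bd R (∑ i ∈ s, c i) (fun lam o u v => ∑ i ∈ s, F i lam o u v) := by
  classical
  induction s using Finset.induction_on with
  | empty => simpa using Bd.zero R
  | insert a s ha ih =>
    have h1 := (h a (Finset.mem_insert_self a s)).add
      (ih fun i hi => h i (Finset.mem_insert_of_mem hi))
    rw [Finset.sum_insert ha]
    exact h1.congr fun lam o u v => by rw [Finset.sum_insert ha]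

/-- Multiplying with a family of other rows. -/
theorem Bd.mul_loc {R S : Finset (Fin n)} {c : ℝ} {F G : Fam K n Om} (hF : Bd R c F)
    (hG : LocF S G) (hRS : Disjoint R S) :
    Bd (R ∪ S) (c * psi S.card) (fun lam o u v => F lam o u v * G lam o u v) := by
  obtain ⟨B, h1, h2, h3, h4⟩ := hF
  refine ⟨fun lam => B lam * omg S lam, (h1.mono Finset.subset_union_left).mul
    ((omg_dep S).mono Finset.subset_union_right), fun lam => mul_nonneg (h2 lam) (omg_nonneg _ _),
    ?_, fun lam o => ?_⟩
  · rw [ex_mul hRS h1 (omg_dep _), ex_omg]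
    exact mul_le_mul_of_nonneg_right h3 (psi_nonneg _)
  · have h5 := (h4 lam o).mul (hG lam o).rk
    refine h5.mono (le_of_eq ?_)
    rw [act_union hRS, pow_add]
    unfold act
    ring

/-- Multiplying with a family which depends on nothing. -/
theorem Bd.mul_const {R : Finset (Fin n)} {c : ℝ} {F G : Fam K n Om} (hF : Bd R c F)
    (hG : LocF ∅ G) : Bd R c (fun lam o u v => F lam o u v * G lam o u v) := by
  have h := hF.mul_loc hG (by simp)
  simpa [psi_zero] using h

/-- The main estimate for a determinant: `l` is a row, the entries of that row outside `s` are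
constants. -/
theorem Bd.det {m : ℕ} (R : Fin m → Finset (Fin n))
    (hR : ∀ a a', a ≠ a' → Disjoint (R a) (R a')) (E : Fin m → Fin m → Fam K n Om)
    (hE : ∀ a b, LocF (R a) (E a b)) (l : Fin m) (s : Finset (Fin m)) (c : Fin m → ℝ)
    (hs : ∀ b ∈ s, Bd (R l) (c b) (E l b)) (hs' : ∀ b ∉ s, LocF ∅ (E l b)) :
    Bd (Finset.univ.biUnion R)
      (((103 / 108) ^ (R l).card + ∑ b ∈ s, c b) * ∏ a ∈ Finset.univ.erase l, psi (R a).card)
      (fun lam o u v => (Matrix.of fun a b => E a b lam o u v).det) := by
  classical
  -- the product of the cost factors of the other rows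
  set W : (Fin n → SignType) → ℝ := fun lam => ∏ a ∈ Finset.univ.erase l, omg (R a) lam with hW
  set RW : Finset (Fin n) := (Finset.univ.erase l).biUnion R with hRW
  have hWdep : Dep RW W := Dep.prod _ fun a ha => (omg_dep (R a)).mono
    (Finset.subset_biUnion_of_mem R ha)
  have hWex : ex W = ∏ a ∈ Finset.univ.erase l, psi (R a).card := by
    rw [hW, ex_prod _ R (fun a _ b _ hab => hR a b hab) _ fun a _ => omg_dep (R a)]
    exact Finset.prod_congr rfl fun a _ => ex_omg (R a)
  have hW0 : ∀ lam, 0 ≤ W lam := fun lam => Finset.prod_nonneg fun a _ => omg_nonneg _ _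
  have hdis : Disjoint (R l) RW := by
    rw [Finset.disjoint_biUnion_right]
    intro i hi
    exact hR l i (Finset.ne_of_mem_erase hi).symm
  have huni : R l ∪ RW = Finset.univ.biUnion R := by
    rw [hRW, ← Finset.biUnion_insert, Finset.insert_erase (Finset.mem_univ l)]
  -- the rank of a determinant whose row `l` is constant
  have hconst : ∀ (lam : Fin n → SignType) (o : Om) (z : Fin m → K), HasRkR
      (fun u v => ((Matrix.of fun a b => E a b lam o u v).updateRow l z).det)
      (W lam * 6 ^ act RW lam) := by
    intro lam o z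
    have h1 := det_block_rk (fun a => if a = l then ∅ else R a) lam
      (fun u v => (Matrix.of fun a b => E a b lam o u v).updateRow l z) (fun a => ?_)
    · refine h1.mono (le_of_eq ?_)
      rw [← Finset.mul_prod_erase _ _ (Finset.mem_univ l), if_pos rfl, omg_empty]
      have h2 : np (∅ : Finset (Fin n)) lam + nm (∅ : Finset (Fin n)) lam = 0 := act_empty lam
      rw [h2, pow_zero, mul_one, one_mul]
      rw [hRW, act_biUnion _ _ fun a _ b _ hab => hR a b hab]
      rw [← Finset.prod_pow_eq_pow_sum, hW, ← Finset.prod_mul_distrib]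
      refine Finset.prod_congr rfl fun a ha => ?_
      rw [if_neg (Finset.ne_of_mem_erase ha)]
      rfl
    · by_cases hal : a = l
      · subst hal
        intro u u' v v' _ _
        beta_reduce
        rw [Matrix.updateRow_self, Matrix.updateRow_self]
      · intro u u' v v' hu hv
        rw [if_neg hal] at hu hv
        funext b
        beta_reduce
        rw [Matrix.updateRow_ne hal, Matrix.updateRow_ne hal]
        exact hE a b lam o u u' v v' hu hv
  -- the expansion
  have hexp : ∀ (lam : Fin n → SignType) (o : Om) u v, ((Matrix.of fun a b => E a b lam o u v)).det =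
      ((Matrix.of fun a b => E a b lam o u v).updateRow l
        (fun b => if b ∈ s then 0 else E l b lam o (fun _ => 0) (fun _ => 0))).det +
      ∑ b ∈ s, E l b lam o u v * ((Matrix.of fun a b => E a b lam o u v).updateRow l
        (Pi.single b 1)).det := by
    intro lam o u v
    set M : Matrix (Fin m) (Fin m) K := Matrix.of fun a b => E a b lam o u v with hM
    have h1 : M l = (fun b => if b ∈ s then 0 else E l b lam o (fun _ => 0) (fun _ => 0)) +
        ∑ b ∈ s, E l b lam o u v • (Pi.single b 1 : Fin m → K) := by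
      funext b
      rw [Pi.add_apply, Finset.sum_apply]
      by_cases hb : b ∈ s
      · rw [if_pos hb, zero_add, Finset.sum_eq_single b]
        · simp [hM]
        · intro b' _ hb'
          simp [Ne.symm hb']
        · intro h; exact absurd hb h
      · rw [if_neg hb, Finset.sum_eq_zero, add_zero]
        · exact hs' b hb lam o _ _ _ _ (by simp) (by simp)
        · intro b' hb'
          have : b ≠ b' := fun h => hb (h ▸ hb')
          simp [this]
    conv_lhs => rw [← Matrix.updateRow_eq_self M l, h1]
    rw [Matrix.det_updateRow_add]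
    congr 1
    have h2 : ∀ (t : Finset (Fin m)), (M.updateRow l (∑ b ∈ t, E l b lam o u v •
        (Pi.single b 1 : Fin m → K))).det =
        ∑ b ∈ t, E l b lam o u v * (M.updateRow l (Pi.single b 1)).det := by
      intro t
      induction t using Finset.induction_on with
      | empty =>
        rw [Finset.sum_empty, Finset.sum_empty]
        exact Matrix.det_eq_zero_of_row_eq_zero l fun j => by rw [Matrix.updateRow_self]; rfl
      | insert a t ha ih =>
        rw [Finset.sum_insert ha, Finset.sum_insert ha, Matrix.det_updateRow_add,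
          Matrix.det_updateRow_smul, ih]
    exact h2 s
  choose! B hB1 hB2 hB3 hB4 using hs
  refine ⟨fun lam => (sml (R l) lam + ∑ b ∈ s, B b lam) * W lam, ?_, fun lam => ?_, ?_,
    fun lam o => ?_⟩
  · rw [← huni]
    exact ((((sml_dep _).add (Dep.sum s fun b hb => hB1 b hb))).mono Finset.subset_union_left).mul
      (hWdep.mono Finset.subset_union_right)
  · exact mul_nonneg (add_nonneg (sml_nonneg _ _) (Finset.sum_nonneg fun b hb => hB2 b hb lam))
      (hW0 lam)
  · rw [ex_mul hdis ((sml_dep _).add (Dep.sum s fun b hb => hB1 b hb)) hWdep, hWex, ex_add, ex_sml,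
      ex_sum]
    refine mul_le_mul_of_nonneg_right ?_ (Finset.prod_nonneg fun a _ => psi_nonneg _)
    exact add_le_add le_rfl (Finset.sum_le_sum fun b hb => hB3 b hb)
  · have h1 := (hconst lam o (fun b => if b ∈ s then 0 else E l b lam o (fun _ => 0)
      (fun _ => 0))).add (HasRkR.sum s fun b hb => (hB4 b hb lam o).mul
        (hconst lam o (Pi.single b 1)))
    have h2 : act (Finset.univ.biUnion R) lam = act (R l) lam + act RW lam := by
      rw [← act_union hdis, huni]
    have h6 : sml (R l) lam * 6 ^ act (R l) lam = 1 := by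
      unfold sml
      change (1 / 6 : ℝ) ^ act (R l) lam * 6 ^ act (R l) lam = 1
      rw [← mul_pow]; norm_num
    refine (h1.mono (le_of_eq ?_)).congr fun u v => hexp lam o u v
    show _ = ((sml (R l) lam + ∑ b ∈ s, B b lam) * W lam) * _
    rw [h2, pow_add, add_mul, add_mul, Finset.sum_mul, Finset.sum_mul]
    congr 1
    · calc W lam * 6 ^ act RW lam = (sml (R l) lam * 6 ^ act (R l) lam) * (W lam *
          6 ^ act RW lam) := by rw [h6, one_mul]
        _ = _ := by ring
    · refine Finset.sum_congr rfl fun b _ => ?_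
      ring

end Pool.Agent.W942
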