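import Pool.Agent.W942.Fam

/-!
# More estimates for determinants
-/

set_option autoImplicit false
set_option maxHeartbeats 1000000

namespace Pool.Agent.W942

open Finset

variable {K : Type*} [Field K] {n : ℕ} {Om : Type*}

/-- The trivial estimate for a determinant. -/
theorem Bd.det_triv {m : ℕ} (R : Fin m → Finset (Fin n))
    (hR : ∀ a a', a ≠ a' → Disjoint (R a) (R a')) (E : Fin m → Fin m → Fam K n Om)
    (hE : ∀ a b, LocF (R a) (E a b)) :
    Bd (Finset.univ.biUnion R) (∏ a, psi (R a).card)
      (fun lam o u v => (Matrix.of fun a b => E a b lam o u v).det) := by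
  classical
  refine ⟨fun lam => ∏ a, omg (R a) lam, Dep.prod _ fun a ha => (omg_dep (R a)).mono
    (Finset.subset_biUnion_of_mem R ha), fun lam => Finset.prod_nonneg fun a _ => omg_nonneg _ _,
    ?_, fun lam o => ?_⟩
  · rw [ex_prod _ R (fun a _ b _ hab => hR a b hab) _ fun a _ => omg_dep (R a)]
    exact (Finset.prod_congr rfl fun a _ => ex_omg (R a)).le
  · have h1 := det_block_rk R lam (fun u v => (Matrix.of fun a b => E a b lam o u v))
      (fun a u u' v v' hu hv => by
        funext b
        exact hE a b lam o u u' v v' hu hv)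
    refine h1.mono (le_of_eq ?_)
    rw [act_biUnion _ _ fun a _ b _ hab => hR a b hab, ← Finset.prod_pow_eq_pow_sum,
      ← Finset.prod_mul_distrib]
    rfl

/-- The main estimate for a determinant, expanded along the row `l`, the entries of which are
linear combinations of the families `G j`, `j ∈ J`, and of constants. -/
theorem Bd.det_lin {m : ℕ} (R : Fin m → Finset (Fin n))
    (hR : ∀ a a', a ≠ a' → Disjoint (R a) (R a')) (E : Fin m → Fin m → Fam K n Om)
    (hE : ∀ a b, LocF (R a) (E a b)) (l : Fin m) {κ : Type*} [DecidableEq κ] (J : Finset κ)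
    (G : κ → Fam K n Om) (dl : κ → Fin m → K) (H : Fin m → Fam K n Om) (c : κ → ℝ)
    (hG : ∀ j ∈ J, Bd (R l) (c j) (G j)) (hH : ∀ b, LocF ∅ (H b))
    (hEl : ∀ b lam o u v, E l b lam o u v = H b lam o u v + ∑ j ∈ J, G j lam o u v * dl j b) :
    Bd (Finset.univ.biUnion R)
      (((103 / 108) ^ (R l).card + ∑ j ∈ J, c j) * ∏ a ∈ Finset.univ.erase l, psi (R a).card)
      (fun lam o u v => (Matrix.of fun a b => E a b lam o u v).det) := by
  classical
  -- the product of the cost factors of the other rows
  set W : (Fin n → SignType) → ℝ := fun lam => ∏ a ∈ Finset.univ.erase l, omg (R a) lam with hW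
  set RW : Finset (Fin n) := (Finset.univ.erase l).biUnion R with hRW
  have hWdep : Dep RW W := Dep.prod _ fun a ha => (omg_dep (R a)).mono
    (Finset.subset_biUnion_of_mem R ha)
  have hWex : ex W = ∏ a ∈ Finset.univ.erase l, psi (R a).card := by
    rw [hW, ex_prod _ R (fun a _ b _ hab => hR a b hab) _ fun a _ => omg_dep (R a)]
    exact Finset.prod_congr rfl fun a _ => ex_omg (R a)
  have hW0 : ∀ lam, 0 ≤ W lam := fun lam => Finset.prod_nonneg fun a _ => omg_nonneg _ _
  have hdis : Disjoint (R l) RW := by
    rw [Finset.disjoint_biUnion_right]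
    intro i hi
    exact hR l i (Finset.ne_of_mem_erase hi).symm
  have huni : R l ∪ RW = Finset.univ.biUnion R := by
    rw [hRW, ← Finset.biUnion_insert, Finset.insert_erase (Finset.mem_univ l)]
  -- the rank of a determinant whose row `l` is constant
  have hconst : ∀ (lam : Fin n → SignType) (o : Om) (z : Fin m → K), HasRkR
      (fun u v => ((Matrix.of fun a b => E a b lam o u v).updateRow l z).det)
      (W lam * 6 ^ act RW lam) := by
    intro lam o z
    have h1 := det_block_rk (fun a => if a = l then ∅ else R a) lam
      (fun u v => (Matrix.of fun a b => E a b lam o u v).updateRow l z) (fun a => ?_)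
    · refine h1.mono (le_of_eq ?_)
      rw [← Finset.mul_prod_erase _ _ (Finset.mem_univ l), if_pos rfl, omg_empty]
      have h2 : np (∅ : Finset (Fin n)) lam + nm (∅ : Finset (Fin n)) lam = 0 := act_empty lam
      rw [h2, pow_zero, mul_one, one_mul]
      rw [hRW, act_biUnion _ _ fun a _ b _ hab => hR a b hab]
      rw [← Finset.prod_pow_eq_pow_sum, hW, ← Finset.prod_mul_distrib]
      refine Finset.prod_congr rfl fun a ha => ?_
      rw [if_neg (Finset.ne_of_mem_erase ha)]
      rfl
    · by_cases hal : a = l
      · subst hal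
        intro u u' v v' _ _
        beta_reduce
        rw [Matrix.updateRow_self, Matrix.updateRow_self]
      · intro u u' v v' hu hv
        rw [if_neg hal] at hu hv
        funext b
        beta_reduce
        rw [Matrix.updateRow_ne hal, Matrix.updateRow_ne hal]
        exact hE a b lam o u u' v v' hu hv
  -- the expansion
  have hexp : ∀ (lam : Fin n → SignType) (o : Om) u v, ((Matrix.of fun a b => E a b lam o u v)).det =
      ((Matrix.of fun a b => E a b lam o u v).updateRow l
        (fun b => H b lam o (fun _ => 0) (fun _ => 0))).det +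
      ∑ j ∈ J, G j lam o u v * ((Matrix.of fun a b => E a b lam o u v).updateRow l (dl j)).det := by
    intro lam o u v
    set M : Matrix (Fin m) (Fin m) K := Matrix.of fun a b => E a b lam o u v with hM
    have h1 : M l = (fun b => H b lam o (fun _ => 0) (fun _ => 0)) +
        ∑ j ∈ J, G j lam o u v • (dl j) := by
      funext b
      rw [Pi.add_apply, Finset.sum_apply]
      simp only [hM, Matrix.of_apply, hEl, Pi.smul_apply, smul_eq_mul]
      congr 1
      exact hH b lam o _ _ _ _ (by simp) (by simp)
    conv_lhs => rw [← Matrix.updateRow_eq_self M l, h1]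
    rw [Matrix.det_updateRow_add]
    congr 1
    have h2 : ∀ (t : Finset κ), (M.updateRow l (∑ j ∈ t, G j lam o u v • dl j)).det =
        ∑ j ∈ t, G j lam o u v * (M.updateRow l (dl j)).det := by
      intro t
      induction t using Finset.induction_on with
      | empty =>
        rw [Finset.sum_empty, Finset.sum_empty]
        exact Matrix.det_eq_zero_of_row_eq_zero l fun j => by rw [Matrix.updateRow_self]; rfl
      | insert a t ha ih =>
        rw [Finset.sum_insert ha, Finset.sum_insert ha, Matrix.det_updateRow_add,
          Matrix.det_updateRow_smul, ih]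
    exact h2 J
  choose! B hB1 hB2 hB3 hB4 using hG
  refine ⟨fun lam => (sml (R l) lam + ∑ b ∈ J, B b lam) * W lam, ?_, fun lam => ?_, ?_,
    fun lam o => ?_⟩
  · rw [← huni]
    exact ((((sml_dep _).add (Dep.sum J fun b hb => hB1 b hb))).mono Finset.subset_union_left).mul
      (hWdep.mono Finset.subset_union_right)
  · exact mul_nonneg (add_nonneg (sml_nonneg _ _) (Finset.sum_nonneg fun b hb => hB2 b hb lam))
      (hW0 lam)
  · rw [ex_mul hdis ((sml_dep _).add (Dep.sum J fun b hb => hB1 b hb)) hWdep, hWex, ex_add, ex_sml,
      ex_sum]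
    refine mul_le_mul_of_nonneg_right ?_ (Finset.prod_nonneg fun a _ => psi_nonneg _)
    exact add_le_add le_rfl (Finset.sum_le_sum fun b hb => hB3 b hb)
  · have h1 := (hconst lam o (fun b => H b lam o (fun _ => 0) (fun _ => 0))).add
      (HasRkR.sum J fun b hb => (hB4 b hb lam o).mul (hconst lam o (dl b)))
    have h2 : act (Finset.univ.biUnion R) lam = act (R l) lam + act RW lam := by
      rw [← act_union hdis, huni]
    have h6 : sml (R l) lam * 6 ^ act (R l) lam = 1 := by
      unfold sml
      change (1 / 6 : ℝ) ^ act (R l) lam * 6 ^ act (R l) lam = 1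
      rw [← mul_pow]; norm_num
    refine (h1.mono (le_of_eq ?_)).congr fun u v => hexp lam o u v
    show _ = ((sml (R l) lam + ∑ b ∈ J, B b lam) * W lam) * _
    rw [h2, pow_add, add_mul, add_mul, Finset.sum_mul, Finset.sum_mul]
    congr 1
    · calc W lam * 6 ^ act RW lam = (sml (R l) lam * 6 ^ act (R l) lam) * (W lam *
          6 ^ act RW lam) := by rw [h6, one_mul]
        _ = _ := by ring
    · refine Finset.sum_congr rfl fun b _ => ?_
      ring

/-- A determinant each row of which is a sum of a function of `u` and a function of `v`. -/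
theorem det_affine_rk {U V : Type*} {m : ℕ} (A B : Finset (Fin m)) (F : Fin m → U → Fin m → K)
    (G : Fin m → V → Fin m → K) (hF : ∀ a ∉ A, ∀ u u', F a u = F a u')
    (hG : ∀ a ∉ B, ∀ v v', G a v = G a v') :
    HasRk (fun u v => (Matrix.of fun a b => F a u b + G a v b).det) (2 ^ (A.card + B.card)) := by
  classical
  set Xs : Finset (Fin m) := A ∩ B with hXs
  -- the matrix in which the rows `a ∈ T` are `F a u`, the rows `a ∈ Xs \ T` are `G a v`
  let M : Finset (Fin m) → U → V → Matrix (Fin m) (Fin m) K := fun T u v => Matrix.of fun a b =>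
    if a ∈ T then F a u b else if a ∈ Xs then G a v b else F a u b + G a v b
  have hexp : ∀ u v, (Matrix.of fun a b => F a u b + G a v b).det =
      ∑ T ∈ Xs.powerset, (M T u v).det := by
    intro u v
    have h1 := (Matrix.detRowAlternating (R := K) (n := Fin m)).toMultilinearMap.map_piecewise_add
      (fun a => F a u) (fun a => if a ∈ Xs then G a v else F a u + G a v) Xs
    have h2 : (Xs.piecewise ((fun a => F a u) + fun a => if a ∈ Xs then G a v else F a u + G a v)
        fun a => if a ∈ Xs then G a v else F a u + G a v) =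
        (Matrix.of fun a b => F a u b + G a v b : Fin m → Fin m → K) := by
      funext a b
      by_cases ha : a ∈ Xs
      · simp only [Finset.piecewise, ha, if_true, Pi.add_apply, Matrix.of_apply]
      · simp only [Finset.piecewise, ha, if_false, Pi.add_apply, Matrix.of_apply]
    rw [h2] at h1
    refine h1.trans (Finset.sum_congr rfl fun T _ => ?_)
    change Matrix.det _ = _
    congr 1
    funext a b
    by_cases haT : a ∈ T
    · simp only [Finset.piecewise, M, haT, if_true, Matrix.of_apply]
    · by_cases ha : a ∈ Xs
      · simp only [Finset.piecewise, M, haT, ha, if_false, if_true, Matrix.of_apply]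
      · simp only [Finset.piecewise, M, haT, ha, if_false, Matrix.of_apply, Pi.add_apply]
  have hM : ∀ T ∈ Xs.powerset, HasRk (fun u v => (M T u v).det) (2 ^ (A ∪ B).card) := by
    intro T hT
    have hTX := Finset.mem_powerset.1 hT
    have hdisj : Disjoint ((A \ B) ∪ T) ((B \ A) ∪ (Xs \ T)) := by
      rw [Finset.disjoint_left]
      intro a ha hb
      rcases Finset.mem_union.1 ha with h1 | h1
      · rcases Finset.mem_union.1 hb with h2 | h2
        · exact (Finset.mem_sdiff.1 h2).2 (Finset.mem_sdiff.1 h1).1
        · exact (Finset.mem_sdiff.1 h1).2 (Finset.mem_inter.1 (Finset.mem_sdiff.1 h2).1).2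
      · rcases Finset.mem_union.1 hb with h2 | h2
        · exact (Finset.mem_sdiff.1 h2).2 (Finset.mem_inter.1 (hTX h1)).1
        · exact (Finset.mem_sdiff.1 h2).2 h1
    have hcard : ((A \ B) ∪ T).card + ((B \ A) ∪ (Xs \ T)).card ≤ (A ∪ B).card := by
      rw [← Finset.card_union_of_disjoint hdisj]
      refine Finset.card_le_card fun a ha => ?_
      rcases Finset.mem_union.1 ha with h | h <;> rcases Finset.mem_union.1 h with h | h
      · exact Finset.mem_union_left _ (Finset.mem_sdiff.1 h).1
      · exact Finset.mem_union_left _ (Finset.mem_inter.1 (hTX h)).1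
      · exact Finset.mem_union_right _ (Finset.mem_sdiff.1 h).1
      · exact Finset.mem_union_left _ (Finset.mem_inter.1 (Finset.mem_sdiff.1 h).1).1
    have h1 := det_rk ((A \ B) ∪ T) ((B \ A) ∪ (Xs \ T)) hdisj (fun u v => M T u v) ?_ ?_ ?_
    · refine h1.mono ((Nat.choose_le_two_pow _ _).trans (Nat.pow_le_pow_right (by norm_num) hcard))
    · intro a ha u v v'
      funext b
      rcases Finset.mem_union.1 ha with h | h
      · obtain ⟨h2, h3⟩ := Finset.mem_sdiff.1 h
        have haX : a ∉ Xs := fun h => h3 (Finset.mem_inter.1 h).2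
        have haT : a ∉ T := fun h => haX (hTX h)
        simp only [M, Matrix.of_apply, haT, haX, if_false]
        rw [hG a h3 v v']
      · simp only [M, Matrix.of_apply, h, if_true]
    · intro a ha u u' v
      funext b
      rcases Finset.mem_union.1 ha with h | h
      · obtain ⟨h2, h3⟩ := Finset.mem_sdiff.1 h
        have haX : a ∉ Xs := fun h => h3 (Finset.mem_inter.1 h).1
        have haT : a ∉ T := fun h => haX (hTX h)
        simp only [M, Matrix.of_apply, haT, haX, if_false]
        rw [hF a h3 u u']
      · obtain ⟨h2, h3⟩ := Finset.mem_sdiff.1 h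
        simp only [M, Matrix.of_apply, h2, h3, if_false, if_true]
    · intro a ha hb u u' v v'
      funext b
      have haT : a ∉ T := fun h => ha (Finset.mem_union_right _ h)
      have haX : a ∉ Xs := fun h => hb (Finset.mem_union_right _ (Finset.mem_sdiff.2 ⟨h, haT⟩))
      have haA : a ∉ A := fun h => by
        by_cases h2 : a ∈ B
        · exact haX (Finset.mem_inter.2 ⟨h, h2⟩)
        · exact ha (Finset.mem_union_left _ (Finset.mem_sdiff.2 ⟨h, h2⟩))
      have haB : a ∉ B := fun h => hb (Finset.mem_union_left _ (Finset.mem_sdiff.2 ⟨h, haA⟩))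
      simp only [M, Matrix.of_apply, haT, haX, if_false]
      rw [hF a haA u u', hG a haB v v']
  have h3 := HasRk.sum Xs.powerset hM
  have h4 : ∑ _T ∈ Xs.powerset, 2 ^ (A ∪ B).card = 2 ^ (A.card + B.card) := by
    rw [Finset.sum_const, Finset.card_powerset, smul_eq_mul, ← pow_add]
    congr 1
    have := Finset.card_union_add_card_inter A B
    rw [← hXs] at this
    omega
  rw [h4] at h3
  exact h3.congr fun u v => hexp u v

/-- The cost factor `3 ^ (- act)`. -/
noncomputable def sm3 (R : Finset (Fin n)) (lam : Fin n → SignType) : ℝ := (1 / 3) ^ act R lam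

theorem sm3_dep (R : Finset (Fin n)) : Dep R (sm3 R) := fun lam mu h => by
  unfold sm3 act
  rw [np_congr h, nm_congr h]

theorem ex_sm3 (R : Finset (Fin n)) : ex (sm3 R) = (26 / 27) ^ R.card := by
  have h := ex_stats R (fun m _ => (1 / 3 : ℝ) ^ m)
  simp only [bin_const] at h
  rw [bin_pow] at h
  unfold sm3 act
  rw [h]
  norm_num

end Pool.Agent.W942
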