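import Pool.Agent.W942.TaF

/-!
Arithmetic formulas of arbitrary depth with monomial leaves: tropical value, slopes, and the
variation of the logarithm of the absolute version.
-/

open Finset

namespace Pool.Agent.W942.Fb

open Pool.Agent.W942.Ta

/-- formulas with leaves `c exp (e u)`, `c ≠ 0` -/
inductive Fm : Type
  | leaf (c : ℝ) (hc : c ≠ 0) (e : ℝ) : Fm
  | add (a b : Fm) : Fm
  | mul (a b : Fm) : Fm

namespace Fm

/-- value -/
noncomputable def val : Fm → ℝ → ℝ
  | leaf c _ e, u => c * Real.exp (e * u)
  | add a b, u => val a u + val b u
  | mul a b, u => val a u * val b u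

/-- absolute version -/
noncomputable def wt : Fm → ℝ → ℝ
  | leaf c _ e, u => |c| * Real.exp (e * u)
  | add a b, u => wt a u + wt b u
  | mul a b, u => wt a u * wt b u

/-- number of leaves -/
def sz : Fm → ℕ
  | leaf _ _ _ => 1
  | add a b => sz a + sz b
  | mul a b => sz a + sz b

/-- tropical value -/
noncomputable def T : Fm → ℝ → ℝ
  | leaf c _ e, u => Real.log |c| + e * u
  | add a b, u => max (T a u) (T b u)
  | mul a b, u => T a u + T b u

open Classical in
/-- slope of the tropical value -/
noncomputable def sl : Fm → ℝ → ℝ
  | leaf _ _ e, _ => e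
  | add a b, u => if T b u ≤ T a u then sl a u else sl b u
  | mul a b, u => sl a u + sl b u

theorem sz_pos (G : Fm) : 1 ≤ sz G := by
  induction G with
  | leaf => simp [sz]
  | add a b iha ihb => simp only [sz]; omega
  | mul a b iha ihb => simp only [sz]; omega

theorem conv (G : Fm) : ∀ {u v : ℝ}, u ≤ v →
    sl G u * (v - u) ≤ T G v - T G u ∧ T G v - T G u ≤ sl G v * (v - u) := by
  induction G with
  | leaf c hc e =>
    intro u v _
    simp only [sl, T]
    constructor <;> linarith [mul_sub e v u]
  | add a b iha ihb =>
    intro u v h
    obtain ⟨a1, a2⟩ := iha h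
    obtain ⟨b1, b2⟩ := ihb h
    simp only [sl, T]
    constructor
    · split_ifs with hc
      · rw [max_eq_left hc]
        have := le_max_left (T a v) (T b v)
        linarith
      · push Not at hc
        rw [max_eq_right hc.le]
        have := le_max_right (T a v) (T b v)
        linarith
    · split_ifs with hc
      · rw [max_eq_left hc]
        have := le_max_left (T a u) (T b u)
        linarith
      · push Not at hc
        rw [max_eq_right hc.le]
        have := le_max_right (T a u) (T b u)
        linarith
  | mul a b iha ihb =>
    intro u v h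
    obtain ⟨a1, a2⟩ := iha h
    obtain ⟨b1, b2⟩ := ihb h
    simp only [sl, T]
    constructor <;> linarith [add_mul (sl a u) (sl b u) (v - u), add_mul (sl a v) (sl b v) (v - u)]

theorem sl_mono (G : Fm) {u v : ℝ} (h : u ≤ v) : sl G u ≤ sl G v := by
  rcases eq_or_lt_of_le h with rfl | hlt
  · exact le_rfl
  · obtain ⟨h1, h2⟩ := conv G h
    exact le_of_mul_le_mul_right (h1.trans h2) (by linarith)

end Fm

/-! ### changes of finite sequences -/

open Classical in
/-- number of changes over the first `N` steps -/
noncomputable def ch (N : ℕ) (s : ℕ → ℝ) : ℕ := ((range N).filter fun r => s r ≠ s (r + 1)).card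

open Classical in
/-- number of values at the times `0, …, N` -/
noncomputable def nv (N : ℕ) (s : ℕ → ℝ) : ℕ := ((range (N + 1)).image s).card

theorem nv_le_ch (N : ℕ) (s : ℕ → ℝ) : nv N s ≤ ch N s + 1 := by
  classical
  unfold nv ch
  induction N with
  | zero => simp
  | succ N ih =>
    rw [range_add_one (n := N + 1), image_insert, range_add_one (n := N), filter_insert]
    split_ifs with h
    · have e1 : (insert N ((range N).filter fun r => s r ≠ s (r + 1))).card =
          ((range N).filter fun r => s r ≠ s (r + 1)).card + 1 := card_insert_of_notMem (by simp)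
      rw [e1]
      have := card_insert_le (s (N + 1)) ((insert N (range N)).image s)
      rw [range_add_one] at ih
      omega
    · push Not at h
      rw [insert_eq_of_mem]
      · rw [range_add_one] at ih
        exact ih
      · rw [← h]
        exact mem_image_of_mem s (mem_insert_self _ _)

theorem ch_le_nv (N : ℕ) (s : ℕ → ℝ) (hs : ∀ r < N, s r ≤ s (r + 1)) : ch N s + 1 ≤ nv N s := by
  classical
  unfold nv ch
  induction N with
  | zero => simp
  | succ N ih =>
    have ih' := ih fun r hr => hs r (by omega)
    rw [range_add_one (n := N + 1), image_insert, range_add_one (n := N), filter_insert]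
    rw [range_add_one] at ih'
    split_ifs with h
    · have e1 : (insert N ((range N).filter fun r => s r ≠ s (r + 1))).card =
          ((range N).filter fun r => s r ≠ s (r + 1)).card + 1 := card_insert_of_notMem (by simp)
      rw [e1, card_insert_of_notMem]
      · omega
      · intro hmem
        obtain ⟨q, hq, he⟩ := mem_image.mp hmem
        rw [← range_add_one] at hq
        have hq' := mem_range.mp hq
        have hm : ∀ i j, i ≤ j → j ≤ N + 1 → s i ≤ s j := by
          intro i j hij
          induction hij with
          | refl => intro _; exact le_rfl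
          | step h ih => intro hj; exact (ih (by omega)).trans (hs _ (by omega))
        have h1 := hm q N (by omega) (by omega)
        have h2 := hs N (by omega)
        exact h (le_antisymm h2 (by rw [← he]; exact h1))
    · exact ih'.trans (card_le_card (subset_insert _ _))

theorem ch_add (N : ℕ) (s t : ℕ → ℝ) : ch N (fun r => s r + t r) ≤ ch N s + ch N t := by
  classical
  unfold ch
  rw [← card_union_add_card_inter]
  refine le_trans (card_le_card ?_) (Nat.le_add_right _ _)
  intro r hr
  obtain ⟨h1, h2⟩ := mem_filter.mp hr
  rw [mem_union, mem_filter, mem_filter]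
  by_contra hcon
  push Not at hcon
  apply h2
  simp only
  rw [hcon.1 h1, hcon.2 h1]

theorem nv_sl (G : Fm) (N : ℕ) {U : ℕ → ℝ} (hU : Monotone U) :
    nv N (fun r => G.sl (U r)) ≤ G.sz := by
  classical
  induction G with
  | leaf c hc e =>
    refine (nv_le_ch _ _).trans ?_
    unfold ch
    simp [Fm.sl, Fm.sz]
  | add a b iha ihb =>
    simp only [Fm.sz]
    refine le_trans ?_ (add_le_add iha ihb)
    unfold nv
    refine le_trans (card_le_card ?_) (card_union_le _ _)
    intro y hy
    obtain ⟨r, hr, rfl⟩ := mem_image.mp hy
    rw [mem_union]
    simp only [Fm.sl]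
    split_ifs
    · exact Or.inl (mem_image_of_mem (fun r => a.sl (U r)) hr)
    · exact Or.inr (mem_image_of_mem (fun r => b.sl (U r)) hr)
  | mul a b iha ihb =>
    have h1 := ch_le_nv N (fun r => a.sl (U r)) fun r _ => a.sl_mono (hU (Nat.le_succ r))
    have h2 := ch_le_nv N (fun r => b.sl (U r)) fun r _ => b.sl_mono (hU (Nat.le_succ r))
    have h3 := nv_le_ch N (fun r => (Fm.mul a b).sl (U r))
    have h4 := ch_add N (fun r => a.sl (U r)) (fun r => b.sl (U r))
    simp only [Fm.sl, Fm.sz] at h3 h4 ⊢
    omega

theorem ch_sl (G : Fm) (N : ℕ) {U : ℕ → ℝ} (hU : Monotone U) :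
    ch N (fun r => G.sl (U r)) + 1 ≤ G.sz :=
  (ch_le_nv N (fun r => G.sl (U r)) fun r _ => G.sl_mono (hU (Nat.le_succ r))).trans
    (nv_sl G N hU)

/-! ### variation of a bounded sequence with few changes of direction -/

theorem vr_dir (N : ℕ) (h g : ℕ → ℝ) (R : ℝ) (d : ℕ → Bool) (hR : ∀ r ≤ N, |h r| ≤ R)
    (hst : ∀ r < N, |h (r + 1) - h r| ≤
      (if d r = true then h (r + 1) - h r else h r - h (r + 1)) + g r) :
    vr N h ≤ 2 * R * ((((range (N - 1)).filter fun r => d r ≠ d (r + 1)).card : ℝ) + 1) +
      ∑ r ∈ range N, g r := by
  have hR0 : 0 ≤ R := (abs_nonneg _).trans (hR 0 (Nat.zero_le _))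
  rcases Nat.eq_zero_or_pos N with rfl | hN
  · simp [vr]
    exact hR0
  have key : ∀ n, n < N → vr (n + 1) h ≤
      2 * R * (((range n).filter fun r => d r ≠ d (r + 1)).card : ℝ) + ∑ r ∈ range (n + 1), g r +
        R + (if d n = true then h (n + 1) else - h (n + 1)) := by
    intro n
    induction n with
    | zero =>
      intro h0
      rw [vr_succ]
      have s0 := hst 0 h0
      have r0 := abs_le.mp (hR 0 (Nat.zero_le _))
      simp only [vr, range_zero, sum_empty, filter_empty, card_empty, Nat.cast_zero, zero_add,
        range_one, sum_singleton] at *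
      split_ifs at s0 ⊢ with hd
      · linarith [r0.1, r0.2]
      · linarith [r0.1, r0.2]
    | succ n ih =>
      intro hn
      have ih' := ih (by omega)
      rw [vr_succ (n + 1), sum_range_succ g (n + 1)]
      have st := hst (n + 1) hn
      have rn := abs_le.mp (hR (n + 1) (by omega))
      rw [range_add_one, filter_insert]
      by_cases hc : d n ≠ d (n + 1)
      · rw [if_pos hc, card_insert_of_notMem (by simp)]
        push_cast
        rw [← range_add_one]
        by_cases hd : d (n + 1) = true
        · have hd' : d n = false := by
            cases hdn : d n with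
            | false => rfl
            | true => exact absurd (hdn.trans hd.symm) hc
          rw [if_pos hd] at st ⊢
          rw [if_neg (by simp [hd'])] at ih'
          linarith [rn.1, rn.2]
        · have hd' : d n = true := by
            cases hdn : d n with
            | true => rfl
            | false =>
              have h'' : d (n+1) = false := by simpa using hd
              exact absurd (hdn.trans h''.symm) hc
          rw [if_neg hd] at st ⊢
          rw [if_pos hd'] at ih'
          linarith [rn.1, rn.2]
      · rw [if_neg hc]
        have hc' : d n = d (n+1) := not_not.mp hc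
        rw [hc'] at ih'
        rw [← range_add_one]
        by_cases hd : d (n + 1) = true
        · rw [if_pos hd] at st ih' ⊢
          linarith
        · rw [if_neg hd] at st ih' ⊢
          linarith
  have hk := key (N - 1) (by omega)
  rw [Nat.sub_add_cancel hN] at hk
  have rN := abs_le.mp (hR N le_rfl)
  split_ifs at hk <;> linarith [rN.1, rN.2]

end Pool.Agent.W942.Fb
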