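import Pool.Agent.W942.Fb1

/-!
Variation of the error term, of the shares and of the normalized value of a formula.
-/

open Finset

namespace Pool.Agent.W942.Fb

open Pool.Agent.W942.Ta

/-! ### log-sum-exp -/

noncomputable def phi (a b z : ℝ) : ℝ :=
  Real.log (Real.exp (a + min 0 z) + Real.exp (b + min 0 (-z)))

/-! ### error terms -/

namespace Fm

theorem wt_pos (G : Fm) (u : ℝ) : 0 < wt G u := by
  induction G with
  | leaf c hc e =>
    simp only [wt]
    have := abs_pos.mpr hc
    positivity
  | add a b iha ihb => simp only [wt]; linarith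
  | mul a b iha ihb => simp only [wt]; exact mul_pos iha ihb

theorem abs_val_le (G : Fm) (u : ℝ) : |val G u| ≤ wt G u := by
  induction G with
  | leaf c hc e =>
    simp only [wt, val]
    rw [abs_mul, abs_of_pos (Real.exp_pos _)]
  | add a b iha ihb => simp only [wt, val]; exact (abs_add_le _ _).trans (add_le_add iha ihb)
  | mul a b iha ihb =>
    simp only [wt, val]
    rw [abs_mul]
    exact mul_le_mul iha ihb (abs_nonneg _) (wt_pos a u).le

/-- error term -/
noncomputable def E (G : Fm) (u : ℝ) : ℝ := Real.log (wt G u) - T G u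

theorem E_leaf (c : ℝ) (hc : c ≠ 0) (e u : ℝ) : E (leaf c hc e) u = 0 := by
  unfold E
  simp only [wt, T]
  rw [Real.log_mul (abs_pos.mpr hc).ne' (Real.exp_pos _).ne', Real.log_exp]
  ring

theorem E_mul (a b : Fm) (u : ℝ) : E (mul a b) u = E a u + E b u := by
  unfold E
  simp only [wt, T]
  rw [Real.log_mul (wt_pos a u).ne' (wt_pos b u).ne']
  ring

theorem E_add (a b : Fm) (u : ℝ) : E (add a b) u = phi (E a u) (E b u) (T a u - T b u) := by
  have e1 : min 0 (T a u - T b u) = T a u - max (T a u) (T b u) := by
    rcases le_total (T a u) (T b u) with h | h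
    · rw [min_eq_right (by linarith), max_eq_right h]
    · rw [min_eq_left (by linarith), max_eq_left h]; ring
  have e2 : min 0 (-(T a u - T b u)) = T b u - max (T a u) (T b u) := by
    rcases le_total (T a u) (T b u) with h | h
    · rw [min_eq_left (by linarith), max_eq_right h]; ring
    · rw [min_eq_right (by linarith), max_eq_left h]; ring
  unfold phi
  rw [e1, e2]
  unfold E
  simp only [wt, T]
  set M := max (T a u) (T b u)
  have hA : Real.exp (Real.log (wt a u) - T a u + (T a u - M)) = wt a u * Real.exp (-M) := by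
    rw [← Real.exp_log (wt_pos a u), ← Real.exp_add, Real.log_exp]
    ring_nf
  have hB : Real.exp (Real.log (wt b u) - T b u + (T b u - M)) = wt b u * Real.exp (-M) := by
    rw [← Real.exp_log (wt_pos b u), ← Real.exp_add, Real.log_exp]
    ring_nf
  rw [hA, hB, ← add_mul, Real.log_mul (by linarith [wt_pos a u, wt_pos b u])
    (Real.exp_pos _).ne', Real.log_exp]
  ring

theorem E_bounds (G : Fm) (u : ℝ) : 0 ≤ E G u ∧ E G u ≤ (sz G : ℝ) - 1 := by
  induction G with
  | leaf c hc e => rw [E_leaf]; simp [sz]
  | mul a b iha ihb =>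
    rw [E_mul]
    simp only [sz]
    push_cast
    constructor <;> linarith [iha.1, iha.2, ihb.1, ihb.2]
  | add a b iha ihb =>
    rw [E_add]
    simp only [sz]
    push_cast
    set A := E a u
    set B := E b u
    set z := T a u - T b u
    have ha1 : (1:ℝ) ≤ sz a := by exact_mod_cast sz_pos a
    have hb1 : (1:ℝ) ≤ sz b := by exact_mod_cast sz_pos b
    constructor
    · unfold phi
      apply Real.log_nonneg
      rcases le_total 0 z with h | h
      · rw [min_eq_left h, add_zero]
        have := Real.one_le_exp iha.1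
        have := Real.exp_pos (B + min 0 (-z))
        linarith
      · rw [min_eq_left (by linarith : 0 ≤ -z), add_zero]
        have := Real.one_le_exp ihb.1
        have := Real.exp_pos (A + min 0 z)
        linarith
    · set m : ℝ := (sz a : ℝ) + sz b - 2 with hm
      have hA : Real.exp (A + min 0 z) ≤ Real.exp m :=
        Real.exp_le_exp.mpr (by linarith [min_le_left 0 z, iha.2])
      have hB : Real.exp (B + min 0 (-z)) ≤ Real.exp m :=
        Real.exp_le_exp.mpr (by linarith [min_le_left 0 (-z), ihb.2])
      unfold phi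
      have h2 : Real.exp (A + min 0 z) + Real.exp (B + min 0 (-z)) ≤ Real.exp (m + 1) := by
        have e0 : Real.exp (m + 1) = Real.exp m * Real.exp 1 := Real.exp_add _ _
        rw [e0]
        have := Real.add_one_le_exp (1:ℝ)
        have := Real.exp_pos m
        nlinarith
      calc _ ≤ Real.log (Real.exp (m + 1)) := Real.log_le_log (by positivity) h2
        _ = _ := by rw [Real.log_exp, hm]; ring

end Fm

/-! ### directions -/

open Classical in
/-- predicted direction of `T a - T b` -/
noncomputable def dir (a b : Fm) (U : ℕ → ℝ) (r : ℕ) : Bool := decide (b.sl (U r) ≤ a.sl (U r))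

/-- the steps at which a slope changes -/
def bad (a b : Fm) (U : ℕ → ℝ) (r : ℕ) : Prop :=
  a.sl (U r) ≠ a.sl (U (r + 1)) ∨ b.sl (U r) ≠ b.sl (U (r + 1))

theorem dir_changes (a b : Fm) (N : ℕ) (U : ℕ → ℝ) :
    (((range (N - 1)).filter fun r => dir a b U r ≠ dir a b U (r + 1)).card) ≤
      ch N (fun r => a.sl (U r)) + ch N (fun r => b.sl (U r)) := by
  classical
  unfold ch
  rw [← card_union_add_card_inter]
  refine le_trans (card_le_card ?_) (Nat.le_add_right _ _)
  intro r hr
  obtain ⟨h1, h2⟩ := mem_filter.mp hr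
  have h1' : r ∈ range N := mem_range.mpr (by have := mem_range.mp h1; omega)
  rw [mem_union, mem_filter, mem_filter]
  by_contra hcon
  push Not at hcon
  apply h2
  unfold dir
  rw [hcon.1 h1', hcon.2 h1']

open Classical in
theorem bad_card (a b : Fm) (N : ℕ) (U : ℕ → ℝ) :
    ((range N).filter fun r => bad a b U r).card ≤
      ch N (fun r => a.sl (U r)) + ch N (fun r => b.sl (U r)) := by
  unfold ch
  rw [← card_union_add_card_inter]
  refine le_trans (card_le_card ?_) (Nat.le_add_right _ _)
  intro r hr
  obtain ⟨h1, h2⟩ := mem_filter.mp hr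
  rw [mem_union, mem_filter, mem_filter]
  rcases h2 with h | h
  · exact Or.inl ⟨h1, h⟩
  · exact Or.inr ⟨h1, h⟩

theorem T_step (G : Fm) {u v : ℝ} (h : u ≤ v) (hs : G.sl u = G.sl v) :
    G.T v - G.T u = G.sl u * (v - u) := by
  obtain ⟨h1, h2⟩ := G.conv h
  rw [← hs] at h2
  exact le_antisymm h2 h1

theorem good_step (a b : Fm) {U : ℕ → ℝ} (hU : Monotone U) (r : ℕ) (hb : ¬ bad a b U r) :
    if dir a b U r = true then a.T (U r) - b.T (U r) ≤ a.T (U (r + 1)) - b.T (U (r + 1))
      else a.T (U (r + 1)) - b.T (U (r + 1)) ≤ a.T (U r) - b.T (U r) := by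
  unfold bad at hb
  push Not at hb
  have hle := hU (Nat.le_succ r)
  have ha' := T_step a hle hb.1
  have hb' := T_step b hle hb.2
  unfold dir
  have hd : 0 ≤ U (r + 1) - U r := by linarith [hU (Nat.le_succ r)]
  by_cases h : b.sl (U r) ≤ a.sl (U r)
  · rw [if_pos (by simpa using h)]
    nlinarith [mul_nonneg (sub_nonneg.mpr h) hd]
  · rw [if_neg (by simpa using h)]
    push Not at h
    nlinarith [mul_nonneg (sub_nonneg.mpr h.le) hd]

theorem changes_bound (a b : Fm) (N : ℕ) {U : ℕ → ℝ} (hU : Monotone U) :
    ((ch N (fun r => a.sl (U r)) + ch N (fun r => b.sl (U r)) : ℕ) : ℝ) ≤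
      (a.sz : ℝ) + b.sz - 2 := by
  have h1 := ch_sl a N hU
  have h2 := ch_sl b N hU
  have h3 : ch N (fun r => a.sl (U r)) + ch N (fun r => b.sl (U r)) + 2 ≤ a.sz + b.sz := by omega
  have h4 : ((ch N (fun r => a.sl (U r)) + ch N (fun r => b.sl (U r)) + 2 : ℕ) : ℝ) ≤
      ((a.sz + b.sz : ℕ) : ℝ) := by exact_mod_cast h3
  push_cast at h4 ⊢
  linarith

open Classical in
theorem sum_bad (a b : Fm) (N : ℕ) (U : ℕ → ℝ) (c : ℝ) :
    ∑ r ∈ range N, (if bad a b U r then c else 0) =
      c * ((range N).filter fun r => bad a b U r).card := by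
  rw [← sum_filter, sum_const, nsmul_eq_mul, mul_comm]


/-! ### the mean exponent -/

theorem lse_lower {x y x' y' : ℝ} (hx : 0 < x) (hy : 0 < y) (hx' : 0 < x') (hy' : 0 < y') :
    x / (x + y) * (Real.log x' - Real.log x) + (1 - x / (x + y)) * (Real.log y' - Real.log y) ≤
      Real.log (x' + y') - Real.log (x + y) := by
  have hc := strictConcaveOn_log_Ioi.concaveOn
  have h1 : 0 < x / (x + y) := by positivity
  have h2 : 1 - x / (x + y) = y / (x + y) := by field_simp; ring
  have h3 : 0 < y / (x + y) := by positivity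
  have key := hc.2 (x := x' / x) (y := y' / y) (div_pos hx' hx) (div_pos hy' hy) h1.le h3.le
    (by field_simp)
  simp only [smul_eq_mul] at key
  rw [Real.log_div hx'.ne' hx.ne', Real.log_div hy'.ne' hy.ne'] at key
  have e : x / (x + y) * (x' / x) + y / (x + y) * (y' / y) = (x' + y') / (x + y) := by
    field_simp
  rw [e, Real.log_div (by positivity) (by positivity)] at key
  rw [h2]
  exact key

namespace Fm

/-- share of the first summand -/
noncomputable def sh (a b : Fm) (u : ℝ) : ℝ := wt a u / (wt a u + wt b u)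

theorem sh_mem (a b : Fm) (u : ℝ) : 0 ≤ sh a b u ∧ sh a b u ≤ 1 := by
  have ha := wt_pos a u
  have hb := wt_pos b u
  unfold sh
  refine ⟨by positivity, ?_⟩
  rw [div_le_one (by positivity)]
  linarith

/-- mean exponent -/
noncomputable def mu : Fm → ℝ → ℝ
  | leaf _ _ e, _ => e
  | add a b, u => sh a b u * mu a u + (1 - sh a b u) * mu b u
  | mul a b, u => mu a u + mu b u

theorem conv_wt (G : Fm) : ∀ {u v : ℝ}, u ≤ v →
    mu G u * (v - u) ≤ Real.log (wt G v) - Real.log (wt G u) ∧
      Real.log (wt G v) - Real.log (wt G u) ≤ mu G v * (v - u) := by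
  induction G with
  | leaf c hc e =>
    intro u v _
    simp only [mu, wt]
    have hc' := (abs_pos.mpr hc).ne'
    rw [Real.log_mul hc' (Real.exp_pos _).ne', Real.log_mul hc' (Real.exp_pos _).ne',
      Real.log_exp, Real.log_exp]
    constructor <;> linarith [mul_sub e v u]
  | add a b iha ihb =>
    intro u v h
    obtain ⟨a1, a2⟩ := iha h
    obtain ⟨b1, b2⟩ := ihb h
    simp only [mu, wt]
    have k1 := lse_lower (wt_pos a u) (wt_pos b u) (wt_pos a v) (wt_pos b v)
    have k2 := lse_lower (wt_pos a v) (wt_pos b v) (wt_pos a u) (wt_pos b u)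
    have m1 := a.sh_mem b u
    have m2 := a.sh_mem b v
    have f1 : wt a u / (wt a u + wt b u) = sh a b u := rfl
    have f2 : wt a v / (wt a v + wt b v) = sh a b v := rfl
    rw [f1] at k1
    rw [f2] at k2
    constructor
    · have g1 := mul_le_mul_of_nonneg_left a1 m1.1
      have g2 := mul_le_mul_of_nonneg_left b1 (by linarith [m1.2] : 0 ≤ 1 - sh a b u)
      nlinarith
    · have g1 := mul_le_mul_of_nonneg_left a2 m2.1
      have g2 := mul_le_mul_of_nonneg_left b2 (by linarith [m2.2] : 0 ≤ 1 - sh a b v)
      nlinarith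
  | mul a b iha ihb =>
    intro u v h
    obtain ⟨a1, a2⟩ := iha h
    obtain ⟨b1, b2⟩ := ihb h
    simp only [mu, wt]
    rw [Real.log_mul (wt_pos a v).ne' (wt_pos b v).ne', Real.log_mul (wt_pos a u).ne'
      (wt_pos b u).ne']
    constructor <;> nlinarith

theorem mu_mono (G : Fm) {u v : ℝ} (h : u ≤ v) : mu G u ≤ mu G v := by
  rcases eq_or_lt_of_le h with rfl | hlt
  · exact le_rfl
  · obtain ⟨h1, h2⟩ := conv_wt G h
    exact le_of_mul_le_mul_right (h1.trans h2) (by linarith)

end Fm

/-! ### up and down changes of a Boolean sequence -/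

theorem ft_tf (N : ℕ) (d : ℕ → Bool) :
    ((range N).filter fun r => d r = false ∧ d (r + 1) = true).card + (if d 0 = true then 1 else 0)
      = ((range N).filter fun r => d r = true ∧ d (r + 1) = false).card +
        (if d N = true then 1 else 0) := by
  induction N with
  | zero => simp
  | succ N ih =>
    rw [range_add_one, filter_insert, filter_insert]
    cases h1 : d N <;> cases h2 : d (N + 1) <;> simp [h1, h2] at ih ⊢ <;> omega

/-- **variation of the error term** -/
theorem vr_E (G : Fm) (N : ℕ) {U : ℕ → ℝ} (hU : Monotone U) :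
    vr N (fun r => G.E (U r)) ≤ 6 * (G.sz : ℝ) * ((G.sz : ℝ) - 1) := by
  classical
  set M : ℝ := ((G.sz : ℕ) : ℝ) - 1 with hM
  have hM0 : 0 ≤ M := by
    have : (1:ℝ) ≤ ((G.sz : ℕ) : ℝ) := by exact_mod_cast G.sz_pos
    linarith
  set d : ℕ → Bool := fun r => decide (G.sl (U r) ≤ G.mu (U r)) with hd
  set bd : ℕ → Prop := fun r => G.sl (U r) ≠ G.sl (U (r + 1)) ∨ (d r = false ∧ d (r + 1) = true)
    with hbd
  have h := vr_dir N (fun r => G.E (U r) - M / 2) (fun r => if bd r then 2 * M else 0) (M / 2) d
    (fun r _ => by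
      have := G.E_bounds (U r)
      rw [abs_le]
      constructor <;> linarith [this.1, this.2]) (by
      intro r _
      have p1 := G.E_bounds (U r)
      have p2 := G.E_bounds (U (r + 1))
      have hle : U r ≤ U (r + 1) := hU (Nat.le_succ r)
      have hD : 0 ≤ U (r + 1) - U r := by linarith
      by_cases hb : bd r
      · rw [if_pos hb, abs_le]
        split_ifs <;> constructor <;> linarith [p1.1, p1.2, p2.1, p2.2]
      · rw [if_neg hb, add_zero]
        rw [hbd] at hb
        simp only at hb
        push Not at hb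
        obtain ⟨hb1, hb2⟩ := hb
        have ht := T_step G hle hb1
        obtain ⟨c1, c2⟩ := G.conv_wt hle
        have eE : G.E (U (r + 1)) - G.E (U r) = (Real.log (G.wt (U (r + 1))) -
          Real.log (G.wt (U r))) - (G.T (U (r + 1)) - G.T (U r)) := by
          unfold Fm.E; ring
        split_ifs with hdr
        · have hm : G.sl (U r) ≤ G.mu (U r) := by
            rw [hd] at hdr
            simpa using hdr
          have := mul_le_mul_of_nonneg_right hm hD
          rw [abs_of_nonneg (by linarith)]
        · have hdr' : d r = false := by simpa using hdr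
          have h2 := hb2 hdr'
          have hm : G.mu (U (r + 1)) ≤ G.sl (U r) := by
            have h3 : d (r + 1) = false := by simpa using h2
            rw [hd] at h3
            have h4 : G.mu (U (r + 1)) < G.sl (U (r + 1)) := by simpa using h3
            rw [hb1]
            exact h4.le
          have := mul_le_mul_of_nonneg_right hm hD
          rw [abs_of_nonpos (by linarith)]
          linarith)
  have hv : vr N (fun r => G.E (U r) - M / 2) = vr N (fun r => G.E (U r)) := by
    unfold vr
    refine sum_congr rfl fun r _ => ?_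
    congr 1
    ring
  rw [hv] at h
  refine h.trans ?_
  -- counting
  have htf : ((range N).filter fun r => d r = true ∧ d (r + 1) = false).card ≤
      ch N (fun r => G.sl (U r)) := by
    unfold ch
    refine card_le_card ?_
    intro r hr
    obtain ⟨h1, h2, h3⟩ := mem_filter.mp hr
    refine mem_filter.mpr ⟨h1, fun he => ?_⟩
    rw [hd] at h2 h3
    have h2' : G.sl (U r) ≤ G.mu (U r) := by simpa using h2
    have h3' : G.mu (U (r + 1)) < G.sl (U (r + 1)) := by simpa using h3
    have h4 := G.mu_mono (hU (Nat.le_succ r))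
    simp only at he
    rw [← he] at h3'
    exact absurd (h2'.trans h4) (not_le.mpr h3')
  have hft := ft_tf N d
  have hft' : ((range N).filter fun r => d r = false ∧ d (r + 1) = true).card ≤
      ch N (fun r => G.sl (U r)) + 1 := by
    have : (if d N = true then 1 else 0) ≤ 1 := by split_ifs <;> omega
    omega
  have hch : (((range (N - 1)).filter fun r => d r ≠ d (r + 1)).card) ≤
      2 * ch N (fun r => G.sl (U r)) + 1 := by
    have : ((range (N - 1)).filter fun r => d r ≠ d (r + 1)) ⊆
        ((range N).filter fun r => d r = true ∧ d (r + 1) = false) ∪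
          ((range N).filter fun r => d r = false ∧ d (r + 1) = true) := by
      intro r hr
      obtain ⟨h1, h2⟩ := mem_filter.mp hr
      have h1' : r ∈ range N := mem_range.mpr (by have := mem_range.mp h1; omega)
      rw [mem_union, mem_filter, mem_filter]
      have h2' : d r ≠ d (r + 1) := h2
      rcases Bool.eq_false_or_eq_true (d r) with e1 | e1 <;>
        rcases Bool.eq_false_or_eq_true (d (r + 1)) with e2 | e2
      · exact absurd (e1.trans e2.symm) h2'
      · exact Or.inl ⟨h1', e1, e2⟩
      · exact Or.inr ⟨h1', e1, e2⟩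
      · exact absurd (e1.trans e2.symm) h2'
    have := (card_le_card this).trans (card_union_le _ _)
    omega
  have hbc : ((range N).filter fun r => bd r).card ≤ 2 * ch N (fun r => G.sl (U r)) + 1 := by
    have : ((range N).filter fun r => bd r) ⊆
        ((range N).filter fun r => G.sl (U r) ≠ G.sl (U (r + 1))) ∪
          ((range N).filter fun r => d r = false ∧ d (r + 1) = true) := by
      intro r hr
      obtain ⟨h1, h2⟩ := mem_filter.mp hr
      rw [mem_union, mem_filter, mem_filter]
      rcases h2 with h | h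
      · exact Or.inl ⟨h1, h⟩
      · exact Or.inr ⟨h1, h⟩
    have h3 := (card_le_card this).trans (card_union_le _ _)
    have h4 : ((range N).filter fun r => G.sl (U r) ≠ G.sl (U (r + 1))).card =
      ch N (fun r => G.sl (U r)) := rfl
    omega
  have hsum : ∑ r ∈ range N, (if bd r then 2 * M else 0) =
      2 * M * ((range N).filter fun r => bd r).card := by
    rw [← sum_filter, sum_const, nsmul_eq_mul, mul_comm]
  rw [hsum]
  have hc := ch_sl G N hU
  have c1 : (((range (N - 1)).filter fun r => d r ≠ d (r + 1)).card : ℝ) ≤ 2 * M + 1 := by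
    have : (((range (N - 1)).filter fun r => d r ≠ d (r + 1)).card) + 1 ≤ 2 * G.sz := by omega
    have h' : ((((range (N - 1)).filter fun r => d r ≠ d (r + 1)).card + 1 : ℕ) : ℝ) ≤
      ((2 * G.sz : ℕ) : ℝ) := by exact_mod_cast this
    push_cast at h'
    rw [hM]
    linarith
  have c2 : (((range N).filter fun r => bd r).card : ℝ) ≤ 2 * M + 1 := by
    have : ((range N).filter fun r => bd r).card + 1 ≤ 2 * G.sz := by omega
    have h' : ((((range N).filter fun r => bd r).card + 1 : ℕ) : ℝ) ≤
      ((2 * G.sz : ℕ) : ℝ) := by exact_mod_cast this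
    push_cast at h'
    rw [hM]
    linarith
  have hs : ((G.sz : ℕ) : ℝ) = M + 1 := by rw [hM]; ring
  rw [hs]
  nlinarith [mul_le_mul_of_nonneg_left c1 hM0, mul_le_mul_of_nonneg_left c2 hM0]

end Pool.Agent.W942.Fb
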