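import Pool.Agent.W942.Fb2

/-!
Variation of the normalized value of a formula of arbitrary depth.
-/

open Finset

namespace Pool.Agent.W942.Fb

open Pool.Agent.W942.Ta

namespace Fm

theorem sh_eq (a b : Fm) (u : ℝ) : sh a b u = sg ((T a u - T b u) + (E a u - E b u)) := by
  have ha := wt_pos a u
  have hb := wt_pos b u
  unfold sh sg E
  have : -(T a u - T b u + (Real.log (wt a u) - T a u - (Real.log (wt b u) - T b u))) =
      Real.log (wt b u) - Real.log (wt a u) := by ring
  rw [this, Real.exp_sub, Real.exp_log ha, Real.exp_log hb]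
  field_simp

/-- normalized value -/
noncomputable def rt (G : Fm) (u : ℝ) : ℝ := val G u / wt G u

theorem abs_rt_le (G : Fm) (u : ℝ) : |rt G u| ≤ 1 := by
  unfold rt
  rw [abs_div, abs_of_pos (wt_pos G u), div_le_one (wt_pos G u)]
  exact abs_val_le G u

theorem rt_mul (a b : Fm) (u : ℝ) : rt (mul a b) u = rt a u * rt b u := by
  unfold rt
  simp only [val, wt]
  rw [mul_div_mul_comm]

theorem rt_add (a b : Fm) (u : ℝ) :
    rt (add a b) u = sh a b u * rt a u + (1 - sh a b u) * rt b u := by
  have ha := wt_pos a u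
  have hb := wt_pos b u
  unfold rt sh
  simp only [val, wt]
  field_simp
  ring

end Fm

theorem sg_abs (x y : ℝ) : |sg y - sg x| ≤ |y - x| / 4 := by
  rcases le_total x y with h | h
  · rw [abs_of_nonneg (by linarith [sg_mono h]), abs_of_nonneg (by linarith)]
    exact sg_lip h
  · rw [abs_of_nonpos (by linarith [sg_mono h]), abs_of_nonpos (by linarith)]
    linarith [sg_lip h]

/-- variation of the share -/
theorem vr_sh (a b : Fm) (N : ℕ) {U : ℕ → ℝ} (hU : Monotone U) :
    vr N (fun r => a.sh b (U r)) ≤ 3 * ((a.sz : ℝ) + b.sz) ^ 2 := by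
  classical
  have h := vr_dir N (fun r => a.sh b (U r) - 1 / 2)
    (fun r => (|a.E (U (r + 1)) - a.E (U r)| + |b.E (U (r + 1)) - b.E (U r)|) / 2 +
      if bad a b U r then 2 else 0) (1 / 2) (dir a b U)
    (fun r _ => by
      have := a.sh_mem b (U r)
      rw [abs_le]
      constructor <;> linarith [this.1, this.2]) (by
      intro r _
      have p1 := a.sh_mem b (U r)
      have p2 := a.sh_mem b (U (r + 1))
      have n1 := abs_nonneg (a.E (U (r + 1)) - a.E (U r))
      have n2 := abs_nonneg (b.E (U (r + 1)) - b.E (U r))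
      by_cases hb : bad a b U r
      · rw [if_pos hb, abs_le]
        split_ifs <;> constructor <;> linarith [p1.1, p1.2, p2.1, p2.2]
      · rw [if_neg hb, add_zero]
        have hg := good_step a b hU r hb
        rw [Fm.sh_eq, Fm.sh_eq]
        set z := a.T (U r) - b.T (U r)
        set z' := a.T (U (r + 1)) - b.T (U (r + 1))
        set e := a.E (U r) - b.E (U r) with he
        set e' := a.E (U (r + 1)) - b.E (U (r + 1)) with he'
        have q := sg_abs (z' + e) (z' + e')
        have q2 : |z' + e' - (z' + e)| ≤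
            |a.E (U (r + 1)) - a.E (U r)| + |b.E (U (r + 1)) - b.E (U r)| := by
          have : z' + e' - (z' + e) =
            (a.E (U (r + 1)) - a.E (U r)) + -(b.E (U (r + 1)) - b.E (U r)) := by
            rw [he, he']; ring
          rw [this]
          refine (abs_add_le _ _).trans ?_
          rw [abs_neg]
        have q3 := abs_le.mp q
        split_ifs at hg ⊢ with hd
        · have m := sg_mono (add_le_add_left hg e)
          rw [abs_le]
          constructor <;> linarith [q3.1, q3.2]
        · have m := sg_mono (add_le_add_left hg e)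
          rw [abs_le]
          constructor <;> linarith [q3.1, q3.2])
  have hv : vr N (fun r => a.sh b (U r) - 1 / 2) = vr N (fun r => a.sh b (U r)) := by
    unfold vr
    refine sum_congr rfl fun r _ => ?_
    simp only
    congr 1
    ring
  rw [hv] at h
  refine h.trans ?_
  rw [sum_add_distrib, sum_bad]
  have h1 := dir_changes a b N U
  have h2 := bad_card a b N U
  have h3 := changes_bound a b N hU
  have h1' : (((range (N - 1)).filter fun r => dir a b U r ≠ dir a b U (r + 1)).card : ℝ) ≤
      (a.sz : ℝ) + b.sz - 2 := le_trans (by exact_mod_cast h1) h3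
  have h2' : (((range N).filter fun r => bad a b U r).card : ℝ) ≤
      (a.sz : ℝ) + b.sz - 2 := le_trans (by exact_mod_cast h2) h3
  have h4 := vr_E a N hU
  have h5 := vr_E b N hU
  have h6 : ∑ r ∈ range N, (|a.E (U (r + 1)) - a.E (U r)| + |b.E (U (r + 1)) - b.E (U r)|) / 2 =
      (vr N (fun r => a.E (U r)) + vr N (fun r => b.E (U r))) / 2 := by
    unfold vr
    rw [← sum_add_distrib, sum_div]
  rw [h6]
  have ha1 : (1:ℝ) ≤ a.sz := by exact_mod_cast a.sz_pos
  have hb1 : (1:ℝ) ≤ b.sz := by exact_mod_cast b.sz_pos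
  set A : ℝ := ((a.sz : ℕ) : ℝ)
  set B : ℝ := ((b.sz : ℕ) : ℝ)
  nlinarith [mul_nonneg (by linarith : (0:ℝ) ≤ A) (by linarith : (0:ℝ) ≤ B)]

/-- maximal number of additions on a path from the root to a leaf -/
def Fm.ad : Fm → ℕ
  | .leaf _ _ _ => 0
  | .add a b => max (Fm.ad a) (Fm.ad b) + 1
  | .mul a b => max (Fm.ad a) (Fm.ad b)

/-- **variation of the normalized value** -/
theorem vr_rt (G : Fm) (N : ℕ) {U : ℕ → ℝ} (hU : Monotone U) :
    vr N (fun r => G.rt (U r)) ≤ 6 * (G.ad : ℝ) * (G.sz : ℝ) ^ 2 := by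
  induction G with
  | leaf c hc e =>
    have : vr N (fun r => (Fm.leaf c hc e).rt (U r)) = 0 := by
      unfold vr
      refine sum_eq_zero fun r _ => ?_
      have h : ∀ u, (Fm.leaf c hc e).rt u = c / |c| := by
        intro u
        unfold Fm.rt
        simp only [Fm.val, Fm.wt]
        rw [mul_div_mul_right _ _ (Real.exp_pos _).ne']
      simp only
      rw [h, h]
      simp
    rw [this]
    simp [Fm.sz]
  | mul a b iha ihb =>
    have ha1 : (1:ℝ) ≤ a.sz := by exact_mod_cast a.sz_pos
    have hb1 : (1:ℝ) ≤ b.sz := by exact_mod_cast b.sz_pos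
    have h1 : vr N (fun r => (Fm.mul a b).rt (U r)) ≤
        vr N (fun r => a.rt (U r)) + vr N (fun r => b.rt (U r)) := by
      unfold vr
      rw [← sum_add_distrib]
      refine sum_le_sum fun r _ => ?_
      simp only
      rw [Fm.rt_mul, Fm.rt_mul]
      have : a.rt (U (r + 1)) * b.rt (U (r + 1)) - a.rt (U r) * b.rt (U r) =
        (a.rt (U (r + 1)) - a.rt (U r)) * b.rt (U (r + 1)) +
          a.rt (U r) * (b.rt (U (r + 1)) - b.rt (U r)) := by ring
      rw [this]
      refine (abs_add_le _ _).trans (add_le_add ?_ ?_)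
      · rw [abs_mul]
        exact mul_le_of_le_one_right (abs_nonneg _) (b.abs_rt_le _)
      · rw [abs_mul]
        exact mul_le_of_le_one_left (abs_nonneg _) (a.abs_rt_le _)
    refine h1.trans ((add_le_add iha ihb).trans ?_)
    simp only [Fm.sz, Fm.ad]
    push_cast
    set A : ℝ := ((a.sz : ℕ) : ℝ)
    set B : ℝ := ((b.sz : ℕ) : ℝ)
    set D : ℝ := max ((a.ad : ℕ) : ℝ) ((b.ad : ℕ) : ℝ) with hD
    have d1 : ((a.ad : ℕ) : ℝ) ≤ D := le_max_left _ _
    have d2 : ((b.ad : ℕ) : ℝ) ≤ D := le_max_right _ _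
    have d0 : 0 ≤ D := (Nat.cast_nonneg _).trans d1
    have e1 := mul_le_mul_of_nonneg_right d1 (sq_nonneg A)
    have e2 := mul_le_mul_of_nonneg_right d2 (sq_nonneg B)
    have e3 : 0 ≤ D * (A * B) := mul_nonneg d0 (mul_nonneg (by linarith) (by linarith))
    nlinarith
  | add a b iha ihb =>
    have ha1 : (1:ℝ) ≤ a.sz := by exact_mod_cast a.sz_pos
    have hb1 : (1:ℝ) ≤ b.sz := by exact_mod_cast b.sz_pos
    have h1 : vr N (fun r => (Fm.add a b).rt (U r)) ≤
        vr N (fun r => a.rt (U r)) + vr N (fun r => b.rt (U r)) +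
          2 * vr N (fun r => a.sh b (U r)) := by
      unfold vr
      rw [mul_sum, ← sum_add_distrib, ← sum_add_distrib]
      refine sum_le_sum fun r _ => ?_
      simp only
      rw [Fm.rt_add, Fm.rt_add]
      set p := a.sh b (U r)
      set p' := a.sh b (U (r + 1))
      have hp' := a.sh_mem b (U (r + 1))
      have : p' * a.rt (U (r + 1)) + (1 - p') * b.rt (U (r + 1)) -
          (p * a.rt (U r) + (1 - p) * b.rt (U r)) =
        (p' * (a.rt (U (r + 1)) - a.rt (U r)) + (1 - p') * (b.rt (U (r + 1)) - b.rt (U r))) +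
          (p' - p) * (a.rt (U r) - b.rt (U r)) := by ring
      rw [this]
      refine (abs_add_le _ _).trans (add_le_add ((abs_add_le _ _).trans (add_le_add ?_ ?_)) ?_)
      · rw [abs_mul, abs_of_nonneg hp'.1]
        exact mul_le_of_le_one_left (abs_nonneg _) hp'.2
      · rw [abs_mul, abs_of_nonneg (by linarith [hp'.2] : 0 ≤ 1 - p')]
        exact mul_le_of_le_one_left (abs_nonneg _) (by linarith [hp'.1])
      · rw [abs_mul]
        have h2 : |a.rt (U r) - b.rt (U r)| ≤ 2 := by
          have i1 := abs_le.mp (a.abs_rt_le (U r))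
          have i2 := abs_le.mp (b.abs_rt_le (U r))
          rw [abs_le]
          constructor <;> linarith [i1.1, i1.2, i2.1, i2.2]
        have := mul_le_mul_of_nonneg_left h2 (abs_nonneg (p' - p))
        linarith
    have h2 := vr_sh a b N hU
    refine h1.trans ((add_le_add (add_le_add iha ihb) (mul_le_mul_of_nonneg_left h2
      (by norm_num : (0:ℝ) ≤ 2))).trans ?_)
    simp only [Fm.sz, Fm.ad]
    push_cast
    set A : ℝ := ((a.sz : ℕ) : ℝ)
    set B : ℝ := ((b.sz : ℕ) : ℝ)
    set D : ℝ := max ((a.ad : ℕ) : ℝ) ((b.ad : ℕ) : ℝ) with hD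
    have d1 : ((a.ad : ℕ) : ℝ) ≤ D := le_max_left _ _
    have d2 : ((b.ad : ℕ) : ℝ) ≤ D := le_max_right _ _
    have d0 : 0 ≤ D := (Nat.cast_nonneg _).trans d1
    have e1 := mul_le_mul_of_nonneg_right d1 (sq_nonneg A)
    have e2 := mul_le_mul_of_nonneg_right d2 (sq_nonneg B)
    have e3 : 0 ≤ D * (A * B) := mul_nonneg d0 (mul_nonneg (by linarith) (by linarith))
    nlinarith

end Pool.Agent.W942.Fb
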