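import Pool.Agent.W942.RowDet

/-!
# Sums of determinants with few lines, every line of which reads one row of the variables
-/

set_option autoImplicit false
set_option maxHeartbeats 1000000

namespace Pool.Agent.W942.Ext

open Finset MvPolynomial

universe u v w

/-- `p` is the determinant of a matrix of polynomials (of any order) with at most `R` non-constant
lines, each of which reads a single row of `X`: `own i = some ρ` if the `i`-th line may contain
the variables of the `ρ`-th row of `X`, and `own i = none` if the `i`-th line is constant. -/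
def RowLineDet {K : Type u} [CommRing K] {n : ℕ} (R : ℕ)
    (p : MvPolynomial (Fin n × Fin n) K) : Prop :=
  ∃ (m : ℕ) (M : Matrix (Fin m) (Fin m) (MvPolynomial (Fin n × Fin n) K))
    (own : Fin m → Option (Fin n)),
    (∀ i j, ∀ x ∈ (M i j).vars, own i = some x.1) ∧
    (Finset.univ.filter fun i => own i ≠ none).card ≤ R ∧ p = M.det

/-- `P` represents the permanent: `P` comes from a polynomial `q` over `O` which the ring map
`res` turns into the permanent of the matrix of variables. -/
def PolyRepPer {O : Type u} {K : Type v} {F : Type w} [CommRing O] [CommRing K] [CommRing F]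
    (ι : O →+* K) (res : O →+* F) {n : ℕ} (P : MvPolynomial (Fin n × Fin n) K) : Prop :=
  ∃ q : MvPolynomial (Fin n × Fin n) O, map ι q = P ∧
    map res q = (Matrix.of fun i j => (X (i, j) : MvPolynomial (Fin n × Fin n) F)).permanent

section
variable {K : Type u} [Field K] {n : ℕ}

theorem pderiv_lift_zero (y : Fin n × Fin n → K) (ρ : Fin n)
    (q : MvPolynomial (Fin n × Fin n) K) (hq : ∀ x ∈ q.vars, x.1 ≠ ρ) :
    pderiv ρ (lift y q) = 0 := by
  have h1 : q ∈ supported K {x : Fin n × Fin n | x.1 ≠ ρ} := by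
    rw [mem_supported]
    intro x hx
    exact hq x hx
  rw [supported_eq_adjoin_X] at h1
  refine Algebra.adjoin_induction (p := fun q _ => pderiv ρ (lift y q) = 0) ?_ ?_ ?_ ?_ h1
  · rintro _ ⟨x, hx, rfl⟩
    rw [lift_X, pderiv_C_mul, pderiv_X_of_ne hx, mul_zero]
  · intro r
    rw [MvPolynomial.algebraMap_eq, lift_C, pderiv_C]
  · intro a b _ _ ha hb
    rw [map_add, map_add, ha, hb, add_zero]
  · intro a b _ _ ha hb
    rw [map_mul, pderiv_mul, ha, hb, zero_mul, mul_zero, add_zero]

theorem lift_congr (y y' : Fin n × Fin n → K) (q : MvPolynomial (Fin n × Fin n) K)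
    (h : ∀ x ∈ q.vars, y x = y' x) : lift y q = lift y' q := by
  refine MvPolynomial.hom_congr_vars (f₁ := lift y) (f₂ := lift y') ?_ (fun x hx _ => ?_) rfl
  · ext r; simp only [RingHom.comp_apply, lift_C]
  · rw [lift_X, lift_X, h x hx]

theorem eval_lift (t : Fin n → K) (y : Fin n × Fin n → K) (q : MvPolynomial (Fin n × Fin n) K) :
    eval t (lift y q) = eval (fun x => y x * t x.1) q := by
  have h : (eval t).comp (lift y) = eval (fun x => y x * t x.1) := by
    refine MvPolynomial.ringHom_ext (fun r => ?_) (fun ij => ?_)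
    · simp only [RingHom.comp_apply, lift_C, eval_C]
    · simp only [RingHom.comp_apply, lift_X, eval_X, map_mul, eval_C]
  exact congrArg (fun f => f q) h

theorem eval_congr' (y y' : Fin n × Fin n → K) (q : MvPolynomial (Fin n × Fin n) K)
    (h : ∀ x ∈ q.vars, y x = y' x) : eval y q = eval y' q := by
  refine MvPolynomial.hom_congr_vars (f₁ := eval y) (f₂ := eval y') ?_ (fun x hx _ => ?_) rfl
  · ext r; simp
  · rw [eval_X, eval_X, h x hx]

/-- The rank of the part of a determinant which is linear in given rows. -/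
theorem det_ext_rk {U V : Type*} (S PU : Finset (Fin n)) (y : U → V → Fin n × Fin n → K)
    (hU : ∀ ρ ∈ S, ρ ∈ PU → ∀ u v v' j, y u v (ρ, j) = y u v' (ρ, j))
    (hV : ∀ ρ ∈ S, ρ ∉ PU → ∀ u u' v j, y u v (ρ, j) = y u' v (ρ, j))
    (hO : ∀ ρ ∉ S, ∀ u u' v v' j, y u v (ρ, j) = y u' v' (ρ, j))
    {m : ℕ} (M : Matrix (Fin m) (Fin m) (MvPolynomial (Fin n × Fin n) K))
    (own : Fin m → Option (Fin n)) (hM : ∀ i j, ∀ x ∈ (M i j).vars, own i = some x.1) :
    HasRk (fun u v => ext S.toList (y u v) M.det)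
      (2 ^ S.card * ∏ ρ ∈ S, (Finset.univ.filter fun i => own i = some ρ).card) := by
  classical
  have h1 := rk_dl own PU (pt S.toList) S.toList S.nodup_toList ∅ ∅ (Finset.disjoint_empty_left _)
    (fun u v => M.map (lift (y u v)))
    (fun i hi => absurd hi (Finset.notMem_empty i)) (fun i hi => absurd hi (Finset.notMem_empty i))
    (fun i _ _ u u' v v' j => by
      rw [Matrix.map_apply, Matrix.map_apply, eval_lift, eval_lift]
      refine eval_congr' _ _ _ fun x hx => ?_
      by_cases hS : x.1 ∈ S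
      · rw [pt, if_pos (Finset.mem_toList.2 hS), mul_zero, mul_zero]
      · rw [show x = (x.1, x.2) from rfl, hO x.1 hS u u' v v' x.2])
    (fun i ρ h => absurd h (by simp))
    (fun i ρ hρ ho hP u v v' => by
      funext j
      rw [Matrix.map_apply, Matrix.map_apply]
      refine lift_congr _ _ _ fun x hx => ?_
      have h2 : x.1 = ρ := Option.some_injective _ ((hM i j x hx).symm.trans ho)
      rw [show x = (x.1, x.2) from rfl, h2]
      exact hU ρ (Finset.mem_toList.1 hρ) hP u v v' x.2)
    (fun i ρ hρ ho hP u u' v => by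
      funext j
      rw [Matrix.map_apply, Matrix.map_apply]
      refine lift_congr _ _ _ fun x hx => ?_
      have h2 : x.1 = ρ := Option.some_injective _ ((hM i j x hx).symm.trans ho)
      rw [show x = (x.1, x.2) from rfl, h2]
      exact hV ρ (Finset.mem_toList.1 hρ) hP u u' v x.2)
    (fun i ρ hρ ho u v j => by
      rw [Matrix.map_apply]
      refine pderiv_lift_zero _ _ _ fun x hx h2 => ho ?_
      rw [hM i j x hx, h2])
  rw [Finset.prod_map_toList, Finset.card_empty, Finset.length_toList, zero_add, zero_add] at h1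
  refine h1.congr fun u v => ?_
  unfold ext
  rw [RingHom.map_det]
  rfl

end

/-- Selection of rows to which few lines belong. -/
theorem select_rows_aux {n s : ℕ} (r : Fin s → Fin n → ℕ) (R : Fin s → ℕ)
    (hr : ∀ i, ∑ ρ, r i ρ ≤ R i) (m : ℕ) (hm : m ≤ n) (j : ℕ) (hj : j ≤ m) :
    ∃ T : Finset (Fin n), T.card = j ∧
    (∑ i, (∏ ρ ∈ T, r i ρ) * R i ^ (m - j)) * n.descFactorial j ≤ ∑ i, R i ^ m := by
  classical
  induction j with
  | zero => exact ⟨∅, by simp, by simp⟩
  | succ j ih =>
    obtain ⟨T, hT, h1⟩ := ih (by omega)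
    -- the unused rows
    have hc : (Finset.univ \ T).card = n - j := by
      rw [Finset.card_univ_sdiff, Fintype.card_fin, hT]
    have h2 : ∃ t ∈ Finset.univ \ T, (n - j) * ∑ i, (∏ ρ ∈ insert t T, r i ρ) * R i ^ (m - (j + 1)) ≤
        ∑ i, (∏ ρ ∈ T, r i ρ) * R i ^ (m - j) := by
      by_contra hcon
      push Not at hcon
      have hne : (Finset.univ \ T).Nonempty := by
        rw [← Finset.card_pos, hc]
        omega
      have h3 := Finset.sum_lt_sum_of_nonempty hne hcon
      rw [Finset.sum_const, hc, smul_eq_mul, ← Finset.mul_sum] at h3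
      have h4 : ∑ t ∈ Finset.univ \ T, ∑ i, (∏ ρ ∈ insert t T, r i ρ) * R i ^ (m - (j + 1)) ≤
          ∑ i, (∏ ρ ∈ T, r i ρ) * R i ^ (m - j) := by
        rw [Finset.sum_comm]
        refine Finset.sum_le_sum fun i _ => ?_
        have h5 : ∀ t ∈ Finset.univ \ T, (∏ ρ ∈ insert t T, r i ρ) * R i ^ (m - (j + 1)) =
            r i t * ((∏ ρ ∈ T, r i ρ) * R i ^ (m - (j + 1))) := by
          intro t ht
          rw [Finset.prod_insert (Finset.mem_sdiff.1 ht).2, mul_assoc]
        rw [Finset.sum_congr rfl h5, ← Finset.sum_mul]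
        have h6 : ∑ t ∈ Finset.univ \ T, r i t ≤ R i :=
          (Finset.sum_le_sum_of_subset (Finset.sdiff_subset)).trans (hr i)
        calc _ ≤ R i * ((∏ ρ ∈ T, r i ρ) * R i ^ (m - (j + 1))) := Nat.mul_le_mul_right _ h6
          _ = (∏ ρ ∈ T, r i ρ) * R i ^ (m - j) := by
            rw [show m - j = m - (j + 1) + 1 by omega, pow_succ]
            ring
      exact absurd (lt_of_lt_of_le h3 (Nat.mul_le_mul_left _ h4)) (lt_irrefl _)
    obtain ⟨t, ht, h3⟩ := h2
    refine ⟨insert t T, ?_, ?_⟩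
    · rw [Finset.card_insert_of_notMem (Finset.mem_sdiff.1 ht).2, hT]
    · refine le_trans ?_ h1
      rw [Nat.descFactorial_succ]
      calc _ = ((n - j) * ∑ i, (∏ ρ ∈ insert t T, r i ρ) * R i ^ (m - (j + 1))) *
            n.descFactorial j := by ring
        _ ≤ _ := Nat.mul_le_mul_right _ h3

theorem select_rows {n s : ℕ} (r : Fin s → Fin n → ℕ) (R : Fin s → ℕ)
    (hr : ∀ i, ∑ ρ, r i ρ ≤ R i) (m : ℕ) (hm : m ≤ n) : ∃ T : Finset (Fin n), T.card = m ∧
    (∑ i, ∏ ρ ∈ T, r i ρ) * n.descFactorial m ≤ ∑ i, R i ^ m := by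
  obtain ⟨T, h1, h2⟩ := select_rows_aux r R hr m hm m le_rfl
  refine ⟨T, h1, ?_⟩
  simpa using h2

section
variable {O : Type u} {K : Type v} {F : Type w} [CommRing O] [Field K] [Field F] {n : ℕ}

theorem rowLine_lower (ι : O →+* K) (hι : Function.Injective ι) (res : O →+* F)
    (hF : (2 : F) ≠ 0) {s k h : ℕ} (hk : 2 * (h + 1) * k ≤ n)
    (p : Fin s → MvPolynomial (Fin n × Fin n) K) (R : Fin s → ℕ)
    (hp : ∀ i, RowLineDet (R i) (p i)) (c : Fin s → K)
    (hrep : PolyRepPer ι res (∑ i, C (c i) * p i)) :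
    (2 * (h + 1)) ^ k * n.descFactorial (2 * k) ≤ ∑ i, (2 * R i) ^ (2 * k) := by
  classical
  choose m M own hM hR hpM using hp
  -- the number of lines of a row
  let r : Fin s → Fin n → ℕ := fun i ρ => (Finset.univ.filter fun a => own i a = some ρ).card
  have hr : ∀ i, ∑ ρ, r i ρ ≤ R i := by
    intro i
    refine le_trans ?_ (hR i)
    rw [← Finset.card_biUnion]
    · refine Finset.card_le_card fun a ha => ?_
      obtain ⟨ρ, _, hρ⟩ := Finset.mem_biUnion.1 ha
      rw [Finset.mem_filter] at hρ ⊢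
      refine ⟨Finset.mem_univ _, ?_⟩
      rw [hρ.2]
      simp
    · intro ρ _ ρ' _ hne
      show Disjoint _ _
      rw [Finset.disjoint_left]
      intro a ha ha'
      rw [Finset.mem_filter] at ha ha'
      exact hne (Option.some_injective _ (ha.2.symm.trans ha'.2))
  have hkn : 2 * k ≤ n := by
    have h1 : 2 * k ≤ 2 * (h + 1) * k := by
      rw [mul_assoc]
      exact Nat.mul_le_mul_left 2 (Nat.le_mul_of_pos_left k (Nat.succ_pos h))
    exact h1.trans hk
  obtain ⟨S, hS, hsel⟩ := select_rows r R hr (2 * k) hkn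
  -- roles
  obtain ⟨e0⟩ : Nonempty (Fin n ≃ G.Idx h k (Fin (n - 2 * (h + 1) * k))) := by
    rw [← Fintype.card_eq, Fintype.card_sum, Fintype.card_prod, Fintype.card_prod]
    simp only [Fintype.card_fin, Fintype.card_bool]
    have : k * ((h + 1) * 2) = 2 * (h + 1) * k := by ring
    omega
  obtain ⟨eS⟩ : Nonempty (Fin k × Bool ≃ S) := by
    rw [← Fintype.card_eq, Fintype.card_prod, Fintype.card_fin, Fintype.card_bool,
      Fintype.card_coe, hS, mul_comm]
  obtain ⟨σ, hσ⟩ := Equiv.Perm.exists_extending_pair (fun x : Fin k × Bool => (eS x : Fin n))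
    (fun x => e0.symm (Sum.inl (x.1, ((0 : Fin (h + 1)), x.2))))
    (Subtype.val_injective.comp eS.injective)
    (fun x y hxy => by
      have h1 := e0.symm.injective hxy
      simp only [Sum.inl.injEq, Prod.mk.injEq, true_and] at h1
      exact Prod.ext h1.1 h1.2)
  let e : Fin n ≃ G.Idx h k (Fin (n - 2 * (h + 1) * k)) := σ.trans e0
  have he : ∀ x : Fin k × Bool, e (eS x) = Sum.inl (x.1, ((0 : Fin (h + 1)), x.2)) := by
    intro x
    simp only [e, Equiv.trans_apply]
    rw [hσ x, Equiv.apply_symm_apply]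
  let PU : Finset (Fin n) := Finset.univ.image fun b : Fin k => (eS (b, false) : Fin n)
  let x : (Fin k → G.Pos h) → (Fin k → G.Pos h) → Fin n × Fin n → K := fun a a' ij =>
    ((G.Ymat a a' (e ij.1) (e ij.2) : ℤ) : K)
  -- the rows
  have hSx : ∀ ρ ∈ S, ∃ x, (eS x : Fin n) = ρ := by
    intro ρ hρ
    exact ⟨eS.symm ⟨ρ, hρ⟩, by rw [Equiv.apply_symm_apply]⟩
  have hxU : ∀ ρ ∈ S, ρ ∈ PU → ∀ (u v v' : Fin k → G.Pos h) (j : Fin n),
      x u v (ρ, j) = x u v' (ρ, j) := by
    intro ρ _ hρ u v v' j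
    obtain ⟨b, _, rfl⟩ := Finset.mem_image.1 hρ
    simp only [x, he, G.Ymat, if_true]
    simp
  have hxV : ∀ ρ ∈ S, ρ ∉ PU → ∀ (u u' v : Fin k → G.Pos h) (j : Fin n),
      x u v (ρ, j) = x u' v (ρ, j) := by
    intro ρ hS hρ u u' v j
    obtain ⟨⟨b, t⟩, rfl⟩ := hSx ρ hS
    cases t
    · exact absurd (Finset.mem_image.2 ⟨b, Finset.mem_univ _, rfl⟩) hρ
    · simp only [x, he, G.Ymat, if_true]
  have hxO : ∀ ρ ∉ S, ∀ (u u' v v' : Fin k → G.Pos h) (j : Fin n),
      x u v (ρ, j) = x u' v' (ρ, j) := by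
    intro ρ hρ u u' v v' j
    simp only [x]
    congr 1
    rcases hei : e ρ with ⟨b, j0, t⟩ | y
    · by_cases hj : j0 = 0
      · subst hj
        have h1 : ρ = eS (b, t) := e.injective (by rw [hei, he])
        exact absurd (h1 ▸ (eS (b, t)).2) hρ
      · simp only [G.Ymat, if_neg hj]
    · simp only [G.Ymat]
  set P := ∑ i, C (c i) * p i with hP
  obtain ⟨q, hq1, hq2⟩ := hrep
  -- the upper bound
  have hup : HasRk (fun a a' => ext S.toList (x a a') P)
      (∑ i, 1 * (2 ^ S.card * ∏ ρ ∈ S, r i ρ)) := by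
    have h1 := HasRk.sum (K := K) (U := Fin k → G.Pos h) (V := Fin k → G.Pos h)
      (Finset.univ : Finset (Fin s))
      (M := fun i a a' => c i * ext S.toList (x a a') (p i))
      (r := fun i => 1 * (2 ^ S.card * ∏ ρ ∈ S, r i ρ))
      (fun i _ => (HasRk.one_of_mul (fun _ => c i) (fun _ => 1) (fun _ _ => by simp)).mul
        (by
          have h2 := det_ext_rk S PU x hxU hxV hxO (M i) (own i) (hM i)
          rw [hpM i]
          exact h2))
    refine h1.congr fun a a' => ?_
    rw [hP, ext_sum]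
    refine Finset.sum_congr rfl fun i _ => ?_
    rw [ext_C_mul]
  -- the values of the permanent
  have hex : ∀ a a' : Fin k → G.Pos h, ∃ g : O, ι g = ext S.toList (x a a') P ∧
      res g = ((∏ b, G.mz (a b) (a' b) : ℤ) : F) := by
    intro a a'
    refine ⟨ext S.toList (fun ij => ((G.Ymat a a' (e ij.1) (e ij.2) : ℤ) : O)) q, ?_, ?_⟩
    · rw [map_ext, hq1]
      congr 1
      funext ij
      simp only [x, map_intCast]
    · rw [map_ext, hq2, ext_permanent _ S.nodup_toList]
      have h1 : (Matrix.of fun i j => res (((G.Ymat a a' (e i) (e j) : ℤ) : O))) =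
          ((G.Ymat a a').submatrix e e).map (Int.castRingHom F) := by
        ext i j
        simp
      rw [h1, permanent_map', permanent_submatrix_equiv, G.permanent_Ymat]
      simp
  choose g hg1 hg2 using hex
  set MO : Matrix (Fin k → G.Pos h) (Fin k → G.Pos h) O := Matrix.of fun a c =>
    g a (fun b => ((c b).1, !(c b).2)) with hMO
  have hres : (MO.map res).det ≠ 0 := by
    have h1 : MO.map res = Matrix.diagonal
        (fun a => ((∏ b, G.mz (a b) ((a b).1, !(a b).2) : ℤ) : F)) := by
      ext a c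
      rw [Matrix.map_apply, Matrix.diagonal_apply]
      simp only [hMO, Matrix.of_apply, hg2]
      by_cases hac : a = c
      · subst hac; simp
      · rw [if_neg hac]
        obtain ⟨b, hb⟩ := Function.ne_iff.1 hac
        rw [Finset.prod_eq_zero (Finset.mem_univ b) (mzG_ne hb)]
        simp
    rw [h1, Matrix.det_diagonal]
    refine Finset.prod_ne_zero_iff.2 fun a _ => ?_
    rw [Int.cast_prod]
    exact Finset.prod_ne_zero_iff.2 fun b _ => mzG_self hF _
  have hdetO : MO.det ≠ 0 := by
    intro h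
    apply hres
    have h2 := RingHom.map_det res MO
    rw [h, map_zero] at h2
    exact h2.symm
  have hdetK : (MO.map ι).det ≠ 0 := by
    have h2 := RingHom.map_det ι MO
    have h3 : (ι.mapMatrix MO) = MO.map ι := rfl
    rw [h3] at h2
    rw [← h2]
    intro h
    exact hdetO (hι (by rw [h, map_zero]))
  have h1 := hup.lower (P := Fin k → G.Pos h) id (fun c b => ((c b).1, !(c b).2)) (MO.map ι)⁻¹
    (fun i j => by
      have h2 := Matrix.mul_nonsing_inv (MO.map ι) (isUnit_iff_ne_zero.2 hdetK)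
      have h3 := congrFun (congrFun h2 i) j
      rw [Matrix.mul_apply, Matrix.one_apply] at h3
      rw [← h3]
      refine Finset.sum_congr rfl fun l _ => ?_
      rw [Matrix.map_apply]
      show _ = ι (g i (fun b => ((l b).1, !(l b).2))) * _
      rw [hg1]
      rfl)
  have h4 : Fintype.card (Fin k → G.Pos h) = (2 * (h + 1)) ^ k := by
    rw [Fintype.card_fun, Fintype.card_prod]
    simp [mul_comm]
  rw [h4] at h1
  calc (2 * (h + 1)) ^ k * n.descFactorial (2 * k)
      ≤ (∑ i, 1 * (2 ^ S.card * ∏ ρ ∈ S, r i ρ)) * n.descFactorial (2 * k) :=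
        Nat.mul_le_mul_right _ h1
    _ = 2 ^ (2 * k) * ((∑ i, ∏ ρ ∈ S, r i ρ) * n.descFactorial (2 * k)) := by
        rw [hS]
        simp only [one_mul]
        rw [← Finset.mul_sum]
        ring
    _ ≤ 2 ^ (2 * k) * ∑ i, R i ^ (2 * k) := Nat.mul_le_mul_left _ hsel
    _ = ∑ i, (2 * R i) ^ (2 * k) := by
        rw [Finset.mul_sum]
        refine Finset.sum_congr rfl fun i _ => ?_
        rw [mul_pow]

end

end Pool.Agent.W942.Ext
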