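import Mathlib

/-!
# Glynn's formula for the permanent, over the reals
-/

set_option autoImplicit false

namespace Pool.Agent.W942

open Finset

variable {ι : Type*} [Fintype ι] [DecidableEq ι]

/-- The sign. -/
noncomputable def sg (b : Bool) : ℝ := if b then 1 else -1

theorem sg_sq (b : Bool) : sg b * sg b = 1 := by
  cases b <;> simp [sg]

/-- Expectation over independent fair signs. -/
noncomputable def es (F : (ι → Bool) → ℝ) : ℝ := ∑ d, (∏ _i : ι, (1 / 2 : ℝ)) * F d

/-- `F` depends on the signs in `R` only. -/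
def DepS (R : Finset ι) (F : (ι → Bool) → ℝ) : Prop :=
  ∀ d e, (∀ i ∈ R, d i = e i) → F d = F e

theorem DepS.mono {R S : Finset ι} {F : (ι → Bool) → ℝ} (h : DepS R F) (hRS : R ⊆ S) :
    DepS S F := fun lam mu hl => h lam mu fun i hi => hl i (hRS hi)

theorem DepS.prod {κ : Type*} (s : Finset κ) {R : Finset ι} {F : κ → (ι → Bool) → ℝ}
    (h : ∀ i ∈ s, DepS R (F i)) : DepS R (fun lam => ∏ i ∈ s, F i lam) := fun lam mu hl =>
  Finset.prod_congr rfl fun i hi => h i hi lam mu hl

theorem es_sum {κ : Type*} (s : Finset κ) (F : κ → (ι → Bool) → ℝ) :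
    es (fun lam => ∑ i ∈ s, F i lam) = ∑ i ∈ s, es (F i) := by
  simp only [es, Finset.mul_sum]
  exact Finset.sum_comm

theorem es_add (F G : (ι → Bool) → ℝ) : es (fun lam => F lam + G lam) = es F + es G := by
  simp [es, mul_add, Finset.sum_add_distrib]

theorem es_const_mul (c : ℝ) (F : (ι → Bool) → ℝ) : es (fun lam => c * F lam) = c * es F := by
  simp only [es, Finset.mul_sum]
  exact Finset.sum_congr rfl fun _ _ => by ring

theorem sum_prod_half (κ : Type*) [Fintype κ] [DecidableEq κ] :
    ∑ _d : κ → Bool, ∏ _i : κ, (1 / 2 : ℝ) = 1 := by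
  have := (Finset.prod_univ_sum (fun _ : κ => (Finset.univ : Finset Bool))
    (fun _ _ => (1 / 2 : ℝ))).symm
  rw [Fintype.piFinset_univ] at this
  rw [this]
  simp

theorem es_const (c : ℝ) : es (fun _ : ι → Bool => c) = c := by
  simp only [es, ← Finset.sum_mul]
  rw [sum_prod_half, one_mul]

/-- Functions of disjoint sets of signs are independent. -/
theorem es_mul {R S : Finset ι} (hRS : Disjoint R S) {F G : (ι → Bool) → ℝ}
    (hF : DepS R F) (hG : DepS S G) : es (fun lam => F lam * G lam) = es F * es G := by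
  classical
  obtain ⟨p, hp⟩ : ∃ p : ι → Prop, ∀ i, p i ↔ i ∈ R := ⟨_, fun i => Iff.rfl⟩
  let e := Equiv.piEquivPiSubtypeProd p (fun _ => Bool)
  have hw : (∏ _i : ι, (1 / 2 : ℝ)) = (∏ _i : {i // p i}, (1 / 2 : ℝ)) *
      ∏ _i : {i // ¬ p i}, (1 / 2 : ℝ) := by
    rw [← Fintype.prod_subtype_mul_prod_subtype p]
  have hx : ∀ x y i, i ∈ R → ∀ y', e.symm (x, y) i = e.symm (x, y') i := by
    intro x y i hi y'
    have h1 : e (e.symm (x, y)) = (x, y) := e.apply_symm_apply _
    have h2 : e (e.symm (x, y')) = (x, y') := e.apply_symm_apply _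
    exact (congrFun (congrArg Prod.fst h1) ⟨i, (hp i).2 hi⟩).trans
      (congrFun (congrArg Prod.fst h2) ⟨i, (hp i).2 hi⟩).symm
  have hy : ∀ x y i, i ∉ R → ∀ x', e.symm (x, y) i = e.symm (x', y) i := by
    intro x y i hi x'
    have h1 : e (e.symm (x, y)) = (x, y) := e.apply_symm_apply _
    have h2 : e (e.symm (x', y)) = (x', y) := e.apply_symm_apply _
    exact (congrFun (congrArg Prod.snd h1) ⟨i, fun h => hi ((hp i).1 h)⟩).trans
      (congrFun (congrArg Prod.snd h2) ⟨i, fun h => hi ((hp i).1 h)⟩).symm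
  have hF' : ∀ x y, F (e.symm (x, y)) = F (e.symm (x, fun _ => true)) := fun x y =>
    hF _ _ fun i hi => hx x y i hi _
  have hG' : ∀ x y, G (e.symm (x, y)) = G (e.symm (fun _ => true, y)) := fun x y =>
    hG _ _ fun i hi => hy x y i (fun h => Finset.disjoint_left.1 hRS h hi) _
  have key : ∀ H : (ι → Bool) → ℝ, es H = ∑ x, ∑ y,
      ((∏ _i : {i // p i}, (1 / 2 : ℝ)) * ∏ _i : {i // ¬ p i}, (1 / 2 : ℝ)) * H (e.symm (x, y)) := by
    intro H
    rw [es, ← e.symm.sum_comp, Fintype.sum_prod_type]
    exact Finset.sum_congr rfl fun x _ => Finset.sum_congr rfl fun y _ => by rw [hw]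
  have h1 : es F = ∑ x : ((i : {i // p i}) → Bool), (∏ _i : {i // p i}, (1 / 2 : ℝ)) *
      F (e.symm (x, fun _ => true)) := by
    rw [key]
    refine Finset.sum_congr rfl fun x _ => ?_
    calc _ = ∑ y : ((i : {i // ¬ p i}) → Bool),
        (∏ _i : {i // ¬ p i}, (1 / 2 : ℝ)) * ((∏ _i : {i // p i}, (1 / 2 : ℝ)) *
          F (e.symm (x, fun _ => true))) :=
          Finset.sum_congr rfl fun y _ => by rw [hF']; ring
      _ = _ := by rw [← Finset.sum_mul, sum_prod_half, one_mul]
  have h2 : es G = ∑ y : ((i : {i // ¬ p i}) → Bool), (∏ _i : {i // ¬ p i}, (1 / 2 : ℝ)) *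
      G (e.symm (fun _ => true, y)) := by
    rw [key, Finset.sum_comm]
    refine Finset.sum_congr rfl fun y _ => ?_
    calc _ = ∑ x : ((i : {i // p i}) → Bool),
        (∏ _i : {i // p i}, (1 / 2 : ℝ)) * ((∏ _i : {i // ¬ p i}, (1 / 2 : ℝ)) *
          G (e.symm (fun _ => true, y))) :=
          Finset.sum_congr rfl fun x _ => by rw [hG']; ring
      _ = _ := by rw [← Finset.sum_mul, sum_prod_half, one_mul]
  rw [h1, h2, key, Finset.sum_mul_sum]
  refine Finset.sum_congr rfl fun x _ => Finset.sum_congr rfl fun y _ => ?_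
  rw [hF', hG']
  ring

theorem es_prod {κ : Type*} [DecidableEq κ] (s : Finset κ) (R : κ → Finset ι)
    (hR : ∀ i ∈ s, ∀ j ∈ s, i ≠ j → Disjoint (R i) (R j)) (F : κ → (ι → Bool) → ℝ)
    (hF : ∀ i ∈ s, DepS (R i) (F i)) :
    es (fun lam => ∏ i ∈ s, F i lam) = ∏ i ∈ s, es (F i) := by
  induction s using Finset.induction_on with
  | empty => simp [es_const]
  | insert a s ha ih =>
    rw [Finset.prod_insert ha, ← ih (fun i hi j hj => hR i (Finset.mem_insert_of_mem hi) j
      (Finset.mem_insert_of_mem hj)) (fun i hi => hF i (Finset.mem_insert_of_mem hi))]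
    have h1 : Disjoint (R a) (s.biUnion R) := by
      rw [Finset.disjoint_biUnion_right]
      intro i hi
      exact hR a (Finset.mem_insert_self a s) i (Finset.mem_insert_of_mem hi)
        (fun h => ha (h ▸ hi))
    rw [← es_mul h1 (hF a (Finset.mem_insert_self a s))
      (DepS.prod s fun i hi => (hF i (Finset.mem_insert_of_mem hi)).mono
        (Finset.subset_biUnion_of_mem R hi))]
    congr 1
    funext lam
    rw [Finset.prod_insert ha]

/-- One sign. -/
theorem es_one (x : ι) (g : Bool → ℝ) : es (fun d => g (d x)) = (g true + g false) / 2 := by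
  have h1 : es (fun d : ι → Bool => g (d x)) =
      ∑ d : ι → Bool, ∏ i, (1 / 2 * if i = x then g (d i) else 1) := by
    refine Finset.sum_congr rfl fun d _ => ?_
    rw [Finset.prod_mul_distrib]
    congr 1
    rw [Finset.prod_eq_single x]
    · simp
    · intro i _ hi; simp [hi]
    · intro h; exact absurd (Finset.mem_univ _) h
  rw [h1]
  have h2 := (Finset.prod_univ_sum (fun _ : ι => (Finset.univ : Finset Bool))
    (fun i y => (1 / 2 : ℝ) * if i = x then g y else 1)).symm
  rw [Fintype.piFinset_univ] at h2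
  rw [h2, Finset.prod_eq_single x]
  · simp; ring
  · intro i _ hi
    simp [hi]
  · intro h; exact absurd (Finset.mem_univ _) h

/-- Two signs. -/
theorem es_two (x y : ι) (hxy : x ≠ y) (g : Bool → Bool → ℝ) :
    es (fun d => g (d x) (d y)) = (g true true + g true false + g false true + g false false) / 4 := by
  have h1 : ∀ d : ι → Bool, g (d x) (d y) = ∑ a : Bool, (if d x = a then 1 else 0) * g a (d y) := by
    intro d
    cases d x <;> simp
  simp only [h1]
  rw [es_sum]
  have h2 : ∀ a : Bool, es (fun d : ι → Bool => (if d x = a then 1 else 0) * g a (d y)) =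
      1 / 2 * ((g a true + g a false) / 2) := by
    intro a
    rw [es_mul (R := {x}) (S := {y}) (by simpa using hxy)
      (fun d e h => by simp only [h x (Finset.mem_singleton_self x)])
      (fun d e h => by simp only [h y (Finset.mem_singleton_self y)])]
    rw [es_one x (fun b => if b = a then 1 else 0), es_one y (fun b => g a b)]
    cases a <;> simp
  rw [Finset.sum_congr rfl fun a _ => h2 a, Fintype.sum_bool]
  ring

/-- Glynn's formula. -/
theorem permanent_eq_es (M : Matrix ι ι ℝ) :
    M.permanent = es (fun d => ∏ x, (sg (d x) * ∑ c, M x c * sg (d c))) := by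
  have h1 : ∀ d : ι → Bool, ∏ x, (sg (d x) * ∑ c, M x c * sg (d c)) =
      ∑ f : ι → ι, (∏ x, M x (f x)) * ((∏ x, sg (d x)) * ∏ x, sg (d (f x))) := by
    intro d
    rw [Finset.prod_mul_distrib, Finset.prod_univ_sum, Fintype.piFinset_univ, Finset.mul_sum]
    refine Finset.sum_congr rfl fun f _ => ?_
    rw [Finset.prod_mul_distrib]
    ring
  simp only [h1]
  rw [es_sum]
  have h2 : ∀ f : ι → ι, es (fun d => (∏ x, M x (f x)) * ((∏ x, sg (d x)) * ∏ x, sg (d (f x)))) =
      if Function.Bijective f then ∏ x, M x (f x) else 0 := by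
    intro f
    rw [es_const_mul]
    split_ifs with hf
    · have h3 : ∀ d : ι → Bool, (∏ x, sg (d x)) * ∏ x, sg (d (f x)) = 1 := by
        intro d
        have h4 : ∏ x, sg (d (f x)) = ∏ x, sg (d x) :=
          Fintype.prod_bijective f hf _ _ fun x => rfl
        rw [h4, ← Finset.prod_mul_distrib]
        exact Finset.prod_eq_one fun x _ => sg_sq _
      simp only [h3]
      rw [es_const, mul_one]
    · have h5 : ¬ Function.Surjective f := fun h =>
        hf (Finite.surjective_iff_bijective.1 h)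
      rw [Function.Surjective] at h5
      push Not at h5
      obtain ⟨y, hy⟩ := h5
      have h6 : ∀ d : ι → Bool, (∏ x, sg (d x)) * ∏ x, sg (d (f x)) =
          sg (d y) * ((∏ x ∈ Finset.univ.erase y, sg (d x)) * ∏ x, sg (d (f x))) := by
        intro d
        rw [← Finset.mul_prod_erase _ _ (Finset.mem_univ y), mul_assoc]
      simp only [h6]
      rw [es_mul (R := {y}) (S := Finset.univ.erase y) (by simp)
        (fun d e h => by simp only [h y (Finset.mem_singleton_self y)]) (fun d e h => ?_)]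
      · rw [es_one y (fun b => sg b)]
        simp [sg]
      · have h7 : ∏ x ∈ Finset.univ.erase y, sg (d x) = ∏ x ∈ Finset.univ.erase y, sg (e x) :=
          Finset.prod_congr rfl fun x hx => by rw [h x hx]
        have h8 : ∏ x, sg (d (f x)) = ∏ x, sg (e (f x)) :=
          Finset.prod_congr rfl fun x _ => by
            rw [h (f x) (Finset.mem_erase.2 ⟨hy x, Finset.mem_univ _⟩)]
        rw [h7, h8]
  rw [Finset.sum_congr rfl fun f _ => h2 f, ← Finset.sum_filter, ← Matrix.permanent_transpose,
    Matrix.permanent]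
  simp only [Matrix.transpose_apply]
  refine Finset.sum_bij (fun σ _ => ⇑σ) ?_ ?_ ?_ ?_
  · intro σ _
    exact Finset.mem_filter.2 ⟨Finset.mem_univ _, σ.bijective⟩
  · intro σ _ τ _ h
    exact DFunLike.coe_injective h
  · intro f hf
    exact ⟨Equiv.ofBijective f (Finset.mem_filter.1 hf).2, Finset.mem_univ _, rfl⟩
  · intro σ _
    rfl

end Pool.Agent.W942
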