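import Pool.Agent.W942.Dec
import Pool.Agent.W942.FinalA

/-!
# Tree-structured networks
-/

set_option autoImplicit false
set_option maxHeartbeats 1000000

namespace Pool.Agent.W942

open Finset MvPolynomial

universe u

/-- Networks over the entries of an `n × n` matrix of variables, with `m` outputs. A leaf carries
`m` polynomials. A node has `M` subnetworks, the `a`-th one with `p a` outputs, and each of its `m`
outputs is the sum of `c` determinants of `M × M` matrices, the `a`-th row of which consists of
linear combinations, with the coefficients `T`, of the outputs of the `a`-th subnetwork. -/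
inductive Net (K : Type u) [CommRing K] (n : ℕ) : ℕ → Type u
  | leaf {m : ℕ} (f : Fin m → MvPolynomial (Fin n × Fin n) K) : Net K n m
  | node {m : ℕ} (M c : ℕ) (p : Fin M → ℕ) (N : (a : Fin M) → Net K n (p a))
      (T : Fin m → Fin c → (a : Fin M) → Fin M → Fin (p a) → K) : Net K n m

namespace Net

variable {K : Type u} [CommRing K] {n : ℕ}

/-- The polynomials at the outputs. -/
noncomputable def poly : {m : ℕ} → Net K n m → Fin m → MvPolynomial (Fin n × Fin n) K
  | _, leaf f => f
  | _, node _ _ _ N T => fun o =>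
      ∑ j, (Matrix.of fun a b => ∑ x, C (T o j a b x) * poly (N a) x).det

/-- The rows of the matrix of variables occurring in the leaves. -/
noncomputable def rows : {m : ℕ} → Net K n m → Finset (Fin n)
  | _, leaf f => Finset.univ.biUnion fun o => (f o).vars.image Prod.fst
  | _, node _ _ _ N _ => Finset.univ.biUnion fun a => rows (N a)

/-- Every leaf has fewer than `z` rows, every node has at most `w` outputs, each of which is a sum
of at most `w` determinants, and different subnetworks of a node have disjoint sets of rows. -/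
def Valid (w z : ℕ) : {m : ℕ} → Net K n m → Prop
  | _, leaf f => (rows (leaf f)).card < z
  | m, node _ c _ N _ => m ≤ w ∧ c ≤ w ∧ (∀ a, Valid w z (N a)) ∧
      ∀ a a', a ≠ a' → Disjoint (rows (N a)) (rows (N a'))

theorem eval_congr (x y : Fin n × Fin n → K) {m : ℕ} (Φ : Net K n m)
    (h : ∀ i ∈ Φ.rows, ∀ j, x (i, j) = y (i, j)) (o : Fin m) :
    eval x (Φ.poly o) = eval y (Φ.poly o) := by
  induction Φ with
  | leaf f =>
    simp only [poly]
    refine MvPolynomial.hom_congr_vars (f₁ := eval x) (f₂ := eval y) ?_ (fun i hi _ => ?_) rfl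
    · ext r; simp
    · rw [eval_X, eval_X]
      exact h i.1 (Finset.mem_biUnion.2 ⟨o, Finset.mem_univ _, Finset.mem_image.2 ⟨i, hi, rfl⟩⟩) i.2
  | node M c p N T ih =>
    simp only [poly, map_sum]
    refine Finset.sum_congr rfl fun j _ => ?_
    rw [RingHom.map_det, RingHom.map_det]
    congr 1
    ext a b
    simp only [RingHom.mapMatrix_apply, Matrix.map_apply, Matrix.of_apply, map_sum, map_mul]
    refine Finset.sum_congr rfl fun q _ => ?_
    rw [ih a (fun i hi => h i (Finset.mem_biUnion.2 ⟨a, Finset.mem_univ _, hi⟩)) q]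
    simp

end Net

section
variable {K : Type u} [Field K] {n : ℕ}

theorem Net.locF (N : Finset (Fin n)) {m : ℕ} (Φ : Net K n m) (o : Fin m) :
    LocF (Φ.rows ∩ N) (valP N (Φ.poly o)) :=
  fun lam p u u' v v' hu hv => Net.eval_congr _ _ Φ (fun i hi j =>
    pt_congr N Φ.rows lam p.1 p.2 u u' v v' hu hv i hi j) o

/-- Networks have decompositions. -/
theorem Net.dec (N : Finset (Fin n)) {θ ρ : ℝ} (hθ0 : 0 < θ) (hρ : 0 ≤ ρ) {z w : ℕ} (hz : 0 < z)
    (hw : (w : ℝ) ^ θ * (w : ℝ) ^ θ ≤ Real.exp (ρ * z))
    (hη : ∀ J : Finset (Fin n), J.card < z →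
      ex (fun lam => omg J lam ^ θ) ≤ Real.exp (-(2 * ρ * J.card)))
    {m : ℕ} (Φ : Net K n m) (hΦ : Φ.Valid w z) :
    Dec θ ρ z (Φ.rows ∩ N) (fun o => valP N (Φ.poly o)) := by
  induction Φ with
  | leaf f =>
    refine Dec.leaf (lt_of_le_of_lt (Finset.card_le_card Finset.inter_subset_left) hΦ) _
      fun o => ?_
    exact Net.locF N (Net.leaf f) o
  | node M c p Ns T ih =>
    obtain ⟨h1, h2, h3, h4⟩ := hΦ
    have h5 := Dec.node hθ0 hρ hw hη (fun a => (Ns a).rows ∩ N)
      (fun a a' h => (h4 a a' h).mono Finset.inter_subset_left Finset.inter_subset_left) p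
      (fun a x => valP N ((Ns a).poly x)) (fun a => ih a (h3 a)) T h1 h2 hz
    have h6 : (Net.node M c p Ns T).rows ∩ N =
        Finset.univ.biUnion fun a => (Ns a).rows ∩ N := by
      rw [Net.rows, Finset.biUnion_inter]
    rw [h6]
    have h7 : (fun o => valP N ((Net.node M c p Ns T).poly o)) = (fun o lam om u v =>
        ∑ j, (Matrix.of fun a b => ∑ x, T o j a b x * valP N ((Ns a).poly x) lam om u v).det) := by
      funext o lam om u v
      unfold valP
      simp only [Net.poly, map_sum]
      refine Finset.sum_congr rfl fun j _ => ?_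
      rw [RingHom.map_det]
      congr 1
      ext a b
      simp
    rw [h7]
    exact h5

end

end Pool.Agent.W942
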