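import Pool.Agent.W942.NsMu

/-!
# Nested programs of determinants: all transversals together
-/

set_option autoImplicit false
set_option maxHeartbeats 1000000

namespace Pool.Agent.W942.Ns

open Finset MvPolynomial

section
variable {F ι T U V P : Type*} [Field F] [Fintype ι] [CommRing T] [Algebra F T] [Fintype P]
  [DecidableEq P] {t : ℕ} {m : Fin t → ℕ}

theorem aeval_pi {σ : Type*} (f : σ → U → V → T) (g : MvPolynomial σ F) (u : U) (v : V) :
    aeval f g u v = aeval (fun k => f k u v) g := by
  have h := comp_aeval (R := F) (σ := σ) (S₁ := U → V → T) f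
    (((Pi.evalAlgHom F (fun _ : V => T) v).comp (Pi.evalAlgHom F (fun _ : U => V → T) u)))
  exact congrArg (fun ψ => ψ g) h

theorem prog_rk [Nonempty U] [Nonempty V] (τ : P → T) (hτ : ∀ p, τ p * τ p = 0) (Top : T →ₗ[F] F)
    (hTop : ∀ e : P → ℕ, Top (∏ p, τ p ^ e p) = if ∀ p, e p = 1 then 1 else 0) (PU : Set P)
    (φ : F →+* (U → V → T)) (hφ : ∀ x, IsNilpotent (φ x - algebraMap F (U → V → T) x))
    (q : Fin t → F) (M : (j : Fin t) → Matrix (Fin (m j)) (Fin (m j)) F)
    (hqM : ∀ j, q j = (M j).det) (sel : (j : Fin t) → Fin (m j) → Option P)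
    (η : P → ι → U → V → F) (hη : ∀ p d, (fun u v => algebraMap F T (η p d u v)) ∈ side F T PU p)
    (hfree : ∀ j i, sel j i = none → ∀ i',
      φ (M j i i') ∈ Algebra.adjoin F (Set.range fun k : {k : Fin t // k < j} => φ (q k.1)))
    (hsel : ∀ j i p, sel j i = some p → ∀ i',
      ∃ a ∈ Algebra.adjoin F (Set.range fun k : {k : Fin t // k < j} => φ (q k.1)),
      ∃ b : ι → U → V → T, (∀ d, b d ∈ Algebra.adjoin F
        (Set.range fun k : {k : Fin t // k < j} => φ (q k.1))) ∧
        φ (M j i i') = a + (fun _ _ => τ p) * ∑ d, (fun u v => algebraMap F T (η p d u v)) * b d)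
    (z : F) (hz : φ z ∈ Algebra.adjoin F (Set.range fun k => φ (q k))) :
    HasRk (fun u v => Top (φ z u v))
      ((∏ p, (Finset.univ.filter fun x : (j : Fin t) × Fin (m j) => sel x.1 x.2 = some p).card) *
        (Fintype.card P * Fintype.card P) ^ Fintype.card P) := by
  classical
  -- scalars of the lines
  let sO : Option P → T := fun o => o.elim 0 τ
  let eO : Option P → ι → U → V → F := fun o => o.elim 0 η
  have hpoly : ∀ j i i', ∃ (a : MvPolynomial {k : Fin t // k < j} F)
      (b : ι → MvPolynomial {k : Fin t // k < j} F), ∀ u v, φ (M j i i') u v =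
        aeval (fun k : {k : Fin t // k < j} => φ (q k.1) u v) a +
          sO (sel j i) * ∑ d, algebraMap F T (eO (sel j i) d u v) *
            aeval (fun k : {k : Fin t // k < j} => φ (q k.1) u v) (b d) := by
    intro j i i'
    rcases hs : sel j i with _ | p
    · have h1 := hfree j i hs i'
      rw [Algebra.adjoin_range_eq_range_aeval] at h1
      obtain ⟨a, ha⟩ := h1
      refine ⟨a, fun _ => 0, fun u v => ?_⟩
      have h2 : φ (M j i i') u v = aeval (fun k : {k : Fin t // k < j} => φ (q k.1)) a u v :=
        (congrFun (congrFun ha u) v).symm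
      rw [h2, aeval_pi]
      simp [sO]
    · obtain ⟨a, ha, b, hb, hab⟩ := hsel j i p hs i'
      rw [Algebra.adjoin_range_eq_range_aeval] at ha
      simp only [Algebra.adjoin_range_eq_range_aeval] at hb
      obtain ⟨a', ha'⟩ := ha
      choose b' hb' using hb
      refine ⟨a', b', fun u v => ?_⟩
      have h2 : a u v = aeval (fun k : {k : Fin t // k < j} => φ (q k.1)) a' u v :=
        (congrFun (congrFun ha' u) v).symm
      have h3 : ∀ d, b d u v = aeval (fun k : {k : Fin t // k < j} => φ (q k.1)) (b' d) u v :=
        fun d => (congrFun (congrFun (hb' d) u) v).symm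
      rw [hab, Pi.add_apply, Pi.add_apply, h2, aeval_pi, Pi.mul_apply, Pi.mul_apply,
        Finset.sum_apply, Finset.sum_apply]
      congr 2
      refine Finset.sum_congr rfl fun d _ => ?_
      rw [Pi.mul_apply, Pi.mul_apply, h3, aeval_pi]
      rfl
  choose α β hαβ using hpoly
  -- residues
  have hT : Nontrivial T := by
    refine ⟨1, 0, fun h => ?_⟩
    have h1 := hTop fun _ => 1
    rw [if_pos fun _ => rfl, show ∏ p, τ p ^ 1 = (0 : T) by
      rw [← mul_one (∏ p, τ p ^ 1), h, mul_zero], map_zero] at h1
    exact one_ne_zero h1.symm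
  let mk : (U → V → T) →ₐ[F] ((U → V → T) ⧸ nilradical (U → V → T)) := Ideal.Quotient.mkₐ F _
  have hnt : Nontrivial ((U → V → T) ⧸ nilradical (U → V → T)) := by
    refine Ideal.Quotient.nontrivial_iff.2 fun h => ?_
    have h1 : (1 : U → V → T) ∈ nilradical (U → V → T) := by rw [h]; exact Submodule.mem_top
    obtain ⟨N, hN⟩ := mem_nilradical.1 h1
    rw [one_pow] at hN
    exact one_ne_zero hN
  have hmkφ : ∀ x, mk (φ x) = algebraMap F _ x := by
    intro x
    have h1 : mk (φ x - algebraMap F (U → V → T) x) = 0 :=
      Ideal.Quotient.eq_zero_iff_mem.2 (mem_nilradical.2 (hφ x))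
    rw [map_sub, AlgHom.commutes, sub_eq_zero] at h1
    exact h1
  have hres : ∀ j i i', aeval (fun k : {k : Fin t // k < j} => q k.1) (α j i i') = M j i i' := by
    intro j i i'
    have h1 : φ (M j i i') = aeval (fun k : {k : Fin t // k < j} => φ (q k.1)) (α j i i') +
        (fun _ _ => sO (sel j i)) * (fun u v => ∑ d, algebraMap F T (eO (sel j i) d u v) *
            aeval (fun k : {k : Fin t // k < j} => φ (q k.1) u v) (β j i i' d)) := by
      funext u v
      rw [hαβ, Pi.add_apply, Pi.add_apply, aeval_pi]
      rfl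
    have h2 : mk (fun _ _ => sO (sel j i)) = 0 := by
      refine Ideal.Quotient.eq_zero_iff_mem.2 (mem_nilradical.2 ⟨2, ?_⟩)
      funext u v
      rw [sq]
      show sO (sel j i) * sO (sel j i) = 0
      rcases sel j i with _ | p
      · exact mul_zero _
      · exact hτ p
    have h3 := congrArg mk h1
    rw [hmkφ, map_add, map_mul, h2, zero_mul, add_zero, ← AlgHom.comp_apply, comp_aeval] at h3
    have h4 : (fun k : {k : Fin t // k < j} => mk (φ (q k.1))) =
        fun k : {k : Fin t // k < j} => algebraMap F ((U → V → T) ⧸ nilradical (U → V → T)) (q k.1) :=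
      funext fun k => hmkφ _
    have h5 : aeval (fun k : {k : Fin t // k < j} =>
        algebraMap F ((U → V → T) ⧸ nilradical (U → V → T)) (q k.1)) (α j i i') =
        algebraMap F _ (aeval (fun k : {k : Fin t // k < j} => q k.1) (α j i i')) :=
      aeval_algebraMap_apply _ _ _
    rw [h4, h5] at h3
    exact (RingHom.injective _ h3).symm
  have hq' : ∀ j, q j ≠ 0 → (Matrix.of fun i i' =>
      aeval (fun k : {k : Fin t // k < j} => q k.1) (α j i i')).det = q j := by
    intro j _
    rw [hqM j]
    congr 1
    ext i i'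
    rw [Matrix.of_apply, hres]
  -- the lines at the selected positions
  let Λ := {x : (j : Fin t) × Fin (m j) // (sel x.1 x.2).isSome}
  let pos : Λ → P := fun l => (sel l.1.1 l.1.2).get l.2
  have hpos : ∀ l : Λ, sel l.1.1 l.1.2 = some (pos l) := fun l => (Option.some_get l.2).symm
  let Z : U → V → Fin t → MvPolynomial Λ F := fun u v => Qs q α β
    (fun j i => if h : (sel j i).isSome then X (⟨⟨j, i⟩, h⟩ : Λ) else 0)
    (fun j i d => algebraMap F (MvPolynomial Λ F) (eO (sel j i) d u v))
  have hmapZ : ∀ (w : Λ → T) u v j, aeval w (Z u v j) = Qs q α β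
      (fun j i => if h : (sel j i).isSome then w (⟨⟨j, i⟩, h⟩ : Λ) else 0)
      (fun j i d => algebraMap F T (eO (sel j i) d u v)) j := by
    intro w u v j
    simp only [Z]
    rw [Qs_map q α β (aeval w)]
    congr 1
    · funext j i
      split_ifs
      · rw [aeval_X]
      · rw [map_zero]
    · funext j i d
      rw [AlgHom.commutes]
  have hfull : ∀ u v j, φ (q j) u v = aeval (fun l => τ (pos l)) (Z u v j) := by
    intro u v j
    rw [hmapZ]
    induction j using fin_strong with
    | _ j ih =>
      by_cases hj : q j = 0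
      · rw [hj, map_zero, Qs_zero q α β _ _ j hj]
        rfl
      · rw [Qs_eq q α β _ _ j hj, hqM j, RingHom.map_det]
        have h1 : (φ.mapMatrix (M j)).det u v =
            ((φ.mapMatrix (M j)).map fun f => f u v).det := by
          have h2 := RingHom.map_det ((Pi.evalRingHom (fun _ : V => T) v).comp
            (Pi.evalRingHom (fun _ : U => V → T) u)) (φ.mapMatrix (M j))
          exact h2
        rw [h1]
        congr 1
        refine Matrix.ext fun i i' => ?_
        rw [Matrix.map_apply, RingHom.mapMatrix_apply, Matrix.map_apply, hαβ, Matrix.of_apply]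
        have h3 : (fun k : {k : Fin t // k < j} => φ (q k.1) u v) =
            fun k : {k : Fin t // k < j} => Qs q α β
              (fun j i => if h : (sel j i).isSome then τ (pos (⟨⟨j, i⟩, h⟩ : Λ)) else 0)
              (fun j i d => algebraMap F T (eO (sel j i) d u v)) k.1 :=
          funext fun k => ih k.1 k.2
        rw [h3]
        congr 2
        by_cases h : (sel j i).isSome
        · rw [dif_pos h]
          have h4 := hpos (⟨⟨j, i⟩, h⟩ : Λ)
          simp only at h4
          rw [h4]
          rfl
        · rw [dif_neg h]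
          rw [Option.not_isSome_iff_eq_none] at h
          rw [h]
          rfl
  -- the output
  rw [Algebra.adjoin_range_eq_range_aeval] at hz
  obtain ⟨G, hG⟩ := hz
  have hexp : ∀ u v, Top (φ z u v) = ∑ μ ∈ Fintype.piFinset (fun p =>
      Finset.univ.filter fun l : Λ => pos l = p),
      Top (aeval (fun l => if μ (pos l) = l then τ (pos l) else 0) (aeval (Z u v) G)) := by
    intro u v
    rw [← transversal_sum τ Top hTop pos]
    congr 1
    have h1 : φ z u v = aeval (fun k => φ (q k)) G u v := (congrFun (congrFun hG u) v).symm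
    rw [h1, aeval_pi, ← AlgHom.comp_apply, comp_aeval]
    congr 2
    funext k
    exact hfull u v k
  have hterm : ∀ μ ∈ Fintype.piFinset (fun p => Finset.univ.filter fun l : Λ => pos l = p),
      HasRk (fun u v => Top (aeval (fun l => if μ (pos l) = l then τ (pos l) else 0)
        (aeval (Z u v) G))) ((Fintype.card P * Fintype.card P) ^ Fintype.card P) := by
    intro μ hμ
    have hμ' : ∀ p, pos (μ p) = p := fun p =>
      (Finset.mem_filter.1 (Fintype.mem_piFinset.1 hμ p)).2
    have h1 := mu_rk (U := U) (V := V) τ hτ Top (fun S hS => by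
        rw [top_prod τ Top hTop S, if_neg hS]) PU q α β hq' (fun p => (μ p).1)
      (fun j i _ _ => ∑ p, if (μ p).1 = ⟨j, i⟩ then τ p else 0)
      (fun j i u v => Finset.sum_congr rfl fun p _ => by split_ifs <;> rfl)
      (fun j i d u v => algebraMap F T (eO (sel j i) d u v))
      (fun p d => by
        have h2 := hpos (μ p)
        rw [hμ' p] at h2
        have h3 : (fun u v => algebraMap F T (eO (sel (μ p).1.1 (μ p).1.2) d u v)) =
            fun u v => algebraMap F T (η p d u v) := by
          funext u v
          rw [h2]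
          rfl
        rw [h3]
        exact hη p d) G
    refine h1.congr fun u v => ?_
    congr 1
    rw [aeval_pi, ← AlgHom.comp_apply, comp_aeval]
    congr 2
    funext k
    rw [hmapZ]
    have h4 := Qs_map q α β ((Pi.evalAlgHom F (fun _ : V => T) v).comp
      (Pi.evalAlgHom F (fun _ : U => V → T) u))
      (fun j i (_ : U) (_ : V) => ∑ p, if (μ p).1 = ⟨j, i⟩ then τ p else 0)
      (fun j i d u v => algebraMap F T (eO (sel j i) d u v)) k
    refine Eq.trans ?_ h4.symm
    congr 1
    funext j i
    show _ = ∑ p, if (μ p).1 = ⟨j, i⟩ then τ p else 0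
    by_cases h : (sel j i).isSome
    · rw [dif_pos h]
      set l : Λ := ⟨⟨j, i⟩, h⟩ with hl
      rw [Finset.sum_eq_single (pos l)]
      · refine if_congr ?_ rfl rfl
        exact ⟨fun h => by rw [h], fun h => Subtype.ext h⟩
      · intro p _ hne
        rw [if_neg]
        intro h5
        have h6 : μ p = l := Subtype.ext h5
        exact hne (by rw [← h6, hμ'])
      · intro h5
        exact absurd (Finset.mem_univ _) h5
    · rw [dif_neg h]
      symm
      refine Finset.sum_eq_zero fun p _ => ?_
      rw [if_neg]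
      intro h5
      apply h
      have h6 := (μ p).2
      rw [h5] at h6
      exact h6
  have hsum := HasRk.sum _ hterm
  refine (hsum.congr fun u v => hexp u v).mono (le_of_eq ?_)
  rw [Finset.sum_const, smul_eq_mul, Fintype.card_piFinset]
  congr 1
  refine Finset.prod_congr rfl fun p _ => ?_
  refine Finset.card_bij (fun l _ => l.1) ?_ ?_ ?_
  · intro l hl
    rw [Finset.mem_filter]
    refine ⟨Finset.mem_univ _, ?_⟩
    rw [hpos l, (Finset.mem_filter.1 hl).2]
  · intro a _ b _ hab
    exact Subtype.ext hab
  · intro x hx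
    have h1 := (Finset.mem_filter.1 hx).2
    refine ⟨⟨x, by rw [h1]; rfl⟩, ?_, rfl⟩
    rw [Finset.mem_filter]
    refine ⟨Finset.mem_univ _, ?_⟩
    have h2 := hpos ⟨x, by rw [h1]; rfl⟩
    exact Option.some_injective _ (h2.symm.trans h1)

end

end Pool.Agent.W942.Ns
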