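import Mathlib

/-!
# Separable algebraic elements and ring homomorphisms which are the identity up to nilpotents
-/

set_option autoImplicit false
set_option maxHeartbeats 1000000

namespace Pool.Agent.W942.Ns

open Polynomial

section
variable {F A : Type*} [Field F] [CommRing A] [Algebra F A]

/-- Elements of a subalgebra which are nonzero constants up to nilpotents have their inverse in it. -/
theorem isUnit_of_nil (B : Subalgebra F A) (b : B) (r : F) (hr : r ≠ 0)
    (hb : IsNilpotent ((b : A) - algebraMap F A r)) : IsUnit b := by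
  have h1 : IsNilpotent (b - algebraMap F B r) := by
    obtain ⟨n, hn⟩ := hb
    refine ⟨n, Subtype.ext ?_⟩
    simpa using hn
  have h2 : IsUnit (algebraMap F B r) := (IsUnit.mk0 r hr).map _
  have h3 := h1.isUnit_add_left_of_commute h2 (Commute.all _ _)
  rwa [add_sub_cancel] at h3

variable (φ : F →+* A) (hφ : ∀ x, IsNilpotent (φ x - algebraMap F A x))
include hφ

theorem inv_mem_of (B : Subalgebra F A) (x : F) (hx : φ x ∈ B) : φ x⁻¹ ∈ B := by
  by_cases h0 : x = 0
  · rw [h0, inv_zero, map_zero]
    exact zero_mem _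
  · obtain ⟨c, hc⟩ := (isUnit_of_nil B ⟨φ x, hx⟩ x h0 (hφ x)).exists_right_inv
    have h1 : φ x * (c : A) = 1 := congrArg Subtype.val hc
    have h2 : φ x⁻¹ = (c : A) := by
      calc φ x⁻¹ = φ x⁻¹ * (φ x * (c : A)) := by rw [h1, mul_one]
        _ = φ (x⁻¹ * x) * (c : A) := by rw [map_mul, mul_assoc]
        _ = (c : A) := by rw [inv_mul_cancel₀ h0, map_one, one_mul]
    rw [h2]
    exact c.2

theorem adjoin_mem_of {K : Type*} [Field K] [Algebra K F] (B : Subalgebra F A) (S : Set F)
    (hK : ∀ a : K, φ (algebraMap K F a) ∈ B) (hS : ∀ x ∈ S, φ x ∈ B) (z : F)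
    (hz : z ∈ IntermediateField.adjoin K S) : φ z ∈ B := by
  induction hz using IntermediateField.adjoin_induction with
  | mem x hx => exact hS x hx
  | algebraMap x => exact hK x
  | add x y _ _ hx hy => rw [map_add]; exact add_mem hx hy
  | inv x _ hx => exact inv_mem_of φ hφ B x hx
  | mul x y _ _ hx hy => rw [map_mul]; exact mul_mem hx hy

theorem sep_mem_of {K : Type*} [Field K] [Algebra K F] (B : Subalgebra F A)
    (E : IntermediateField K F) (hE : ∀ x ∈ E, φ x ∈ B) (z : F) (hz : IsSeparable E z) :
    φ z ∈ B := by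
  -- modulo nilpotents
  let mk := Ideal.Quotient.mk (nilradical A)
  have hmk : mk.comp φ = mk.comp (algebraMap F A) := by
    ext x
    rw [RingHom.comp_apply, RingHom.comp_apply, ← sub_eq_zero, ← map_sub]
    exact Ideal.Quotient.eq_zero_iff_mem.2 (mem_nilradical.2 (hφ x))
  let ψ : E →+* B := (φ.comp (algebraMap E F)).codRestrict B.toSubring (fun x => hE x x.2)
  have hψ : ∀ x : E, ((ψ x : B) : A) = φ (x : F) := fun x => rfl
  set p := minpoly E z with hp
  -- evaluation in `A` of the polynomials with coefficients in `B`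
  have hcoe : ∀ (q : E[X]) (b : B), (((q.map ψ).eval b : B) : A) =
      q.eval₂ (φ.comp (algebraMap E F)) (b : A) := by
    intro q b
    rw [eval_map]
    have h1 := Polynomial.hom_eval₂ q ψ (B.val : B →ₐ[F] A).toRingHom b
    exact h1
  have hres : ∀ q : E[X], IsNilpotent (q.eval₂ (φ.comp (algebraMap E F)) (algebraMap F A z) -
      algebraMap F A (aeval z q)) := by
    intro q
    rw [← mem_nilradical, ← Ideal.Quotient.eq_zero_iff_mem, map_sub, sub_eq_zero]
    have h1 := Polynomial.hom_eval₂ q (φ.comp (algebraMap E F)) mk (algebraMap F A z)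
    have h2 := Polynomial.hom_eval₂ q (algebraMap E F) (mk.comp (algebraMap F A)) z
    rw [← RingHom.comp_assoc, hmk] at h1
    exact h1.trans h2.symm
  have hroot : IsNilpotent (aeval (algebraMap F B z) (p.map ψ)) := by
    have h1 := hres p
    rw [minpoly.aeval, map_zero, sub_zero] at h1
    obtain ⟨n, hn⟩ := h1
    refine ⟨n, Subtype.ext ?_⟩
    have h2 : ((aeval (algebraMap F B z) (p.map ψ) : B) : A) =
        p.eval₂ (φ.comp (algebraMap E F)) (algebraMap F A z) := by
      rw [coe_aeval_eq_eval]
      exact hcoe p _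
    rw [SubmonoidClass.coe_pow, h2, hn]
    rfl
  have hder : IsUnit (aeval (algebraMap F B z) (derivative (p.map ψ))) := by
    have hne : aeval z (derivative p) ≠ 0 :=
      Separable.aeval_derivative_ne_zero hz (minpoly.aeval E z)
    refine isUnit_of_nil B _ (aeval z (derivative p)) hne ?_
    rw [derivative_map, coe_aeval_eq_eval, hcoe]
    exact hres (derivative p)
  obtain ⟨r, ⟨hr1, hr2⟩, _⟩ := existsUnique_nilpotent_sub_and_aeval_eq_zero hroot hder
  -- uniqueness in `A`
  have hA1 : aeval (algebraMap F A z) (p.map (φ.comp (algebraMap E F))) =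
      ((aeval (algebraMap F B z) (p.map ψ) : B) : A) := by
    rw [coe_aeval_eq_eval, coe_aeval_eq_eval, hcoe, eval_map]
    rfl
  have hrootA : IsNilpotent (aeval (algebraMap F A z) (p.map (φ.comp (algebraMap E F)))) := by
    rw [hA1]
    exact hroot.map (B.val : B →ₐ[F] A)
  have hA2 : aeval (algebraMap F A z) (derivative (p.map (φ.comp (algebraMap E F)))) =
      ((aeval (algebraMap F B z) (derivative (p.map ψ)) : B) : A) := by
    rw [derivative_map, derivative_map, coe_aeval_eq_eval, coe_aeval_eq_eval, hcoe, eval_map]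
    rfl
  have hderA : IsUnit (aeval (algebraMap F A z)
      (derivative (p.map (φ.comp (algebraMap E F))))) := by
    rw [hA2]
    exact hder.map (B.val : B →ₐ[F] A)
  obtain ⟨r', _, huniq⟩ := existsUnique_nilpotent_sub_and_aeval_eq_zero hrootA hderA
  have e1 : φ z = r' := by
    refine huniq _ ⟨?_, ?_⟩
    · rw [← neg_sub]
      exact (hφ z).neg
    · rw [coe_aeval_eq_eval, eval_map]
      have h1 := Polynomial.hom_eval₂ p (algebraMap E F) φ z
      rw [← h1]
      have h2 : p.eval₂ (algebraMap E F) z = 0 := minpoly.aeval E z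
      rw [h2, map_zero]
  have e2 : (r : A) = r' := by
    refine huniq _ ⟨?_, ?_⟩
    · exact hr1.map (B.val : B →ₐ[F] A)
    · rw [coe_aeval_eq_eval, eval_map]
      rw [coe_aeval_eq_eval] at hr2
      rw [← hcoe, hr2]
      rfl
  rw [e1, ← e2]
  exact r.2

end

end Pool.Agent.W942.Ns
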