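import Pool.Agent.W942.NsProg

/-!
# Nested programs of determinants in which one line is perturbed for each position
-/

set_option autoImplicit false
set_option maxHeartbeats 1000000

namespace Pool.Agent.W942.Ns

open Finset MvPolynomial

theorem row_zero {R m n k : Type*} [CommRing R] [Fintype n] (M : Matrix m n R) (N : Matrix n k R)
    (p : m) (h : ∀ i, M p i = 0) (c : k) : (M * N) p c = 0 := by
  rw [Matrix.mul_apply]
  exact Finset.sum_eq_zero fun i _ => by rw [h, zero_mul]

section
variable {F ι T U V P : Type*} [Field F] [Fintype ι] [CommRing T] [Algebra F T] [Fintype P]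
  [DecidableEq P] {t : ℕ} {m : Fin t → ℕ}

theorem mu_rk (τ : P → T) (hτ : ∀ p, τ p * τ p = 0) (Top : T →ₗ[F] F)
    (hTop : ∀ S : Finset P, S ≠ Finset.univ → Top (∏ a ∈ S, τ a) = 0) (PU : Set P)
    (q : Fin t → F)
    (α : (j : Fin t) → Fin (m j) → Fin (m j) → MvPolynomial {k : Fin t // k < j} F)
    (β : (j : Fin t) → Fin (m j) → Fin (m j) → ι → MvPolynomial {k : Fin t // k < j} F)
    (hq : ∀ j, q j ≠ 0 → (Matrix.of fun i i' =>
      aeval (fun k : {k : Fin t // k < j} => q k.1) (α j i i')).det = q j)
    (μ : P → (j : Fin t) × Fin (m j)) (s : (j : Fin t) → Fin (m j) → U → V → T)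
    (hs : ∀ j i u v, s j i u v = ∑ p, haveI := Classical.dec (μ p = ⟨j, i⟩)
      if μ p = ⟨j, i⟩ then τ p else 0)
    (e : (j : Fin t) → Fin (m j) → ι → U → V → T)
    (he : ∀ p d, e (μ p).1 (μ p).2 d ∈ side F T PU p) (G : MvPolynomial (Fin t) F) :
    HasRk (fun u v => Top (aeval (Qs q α β s e) G u v))
      ((Fintype.card P * Fintype.card P) ^ Fintype.card P) := by
  classical
  set Q := Qs q α β s e with hQ
  let mk : (U → V → T) →ₐ[F] ((U → V → T) ⧸ nilradical (U → V → T)) :=
    Ideal.Quotient.mkₐ F _
  let τA : P → U → V → T := fun p _ _ => τ p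
  have hτA : ∀ p, τA p * τA p = 0 := by
    intro p
    funext u v
    exact hτ p
  have hsA : ∀ j i, s j i = ∑ p, if μ p = ⟨j, i⟩ then τA p else 0 := by
    intro j i
    funext u v
    rw [hs, Finset.sum_apply, Finset.sum_apply]
    refine Finset.sum_congr rfl fun p _ => ?_
    split_ifs
    · rfl
    · rfl
  have hmks : ∀ j i, mk (s j i) = 0 := by
    intro j i
    refine Ideal.Quotient.eq_zero_iff_mem.2 ?_
    rw [hsA]
    refine sum_mem fun p _ => ?_
    split_ifs
    · exact mem_nilradical.2 ⟨2, by rw [sq]; exact hτA p⟩
    · exact zero_mem _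
  have hmkae : ∀ j, (∀ k < j, mk (Q k) = algebraMap F _ (q k)) →
      ∀ g : MvPolynomial {k : Fin t // k < j} F,
        mk (aeval (fun k : {k : Fin t // k < j} => Q k.1) g) =
          algebraMap F _ (aeval (fun k : {k : Fin t // k < j} => q k.1) g) := by
    intro j ih g
    rw [← AlgHom.comp_apply, comp_aeval, ← aeval_algebraMap_apply]
    congr 2
    funext k
    exact ih k.1 k.2
  have hdetq : ∀ j, q j ≠ 0 → (∀ k < j, mk (Q k) = algebraMap F _ (q k)) →
      (Matrix.of fun i i' => mk (aeval (fun k : {k : Fin t // k < j} => Q k.1) (α j i i'))).det =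
        algebraMap F _ (q j) := by
    intro j hj ih
    rw [← hq j hj, RingHom.map_det]
    congr 1
    ext i i'
    rw [Matrix.of_apply, hmkae j ih]
    rfl
  have hmkQ : ∀ j, mk (Q j) = algebraMap F _ (q j) := by
    intro j
    induction j using fin_strong with
    | _ j ih =>
      by_cases hj : q j = 0
      · rw [hQ, Qs_zero q α β s e j hj, hj, map_zero, map_zero]
      · rw [hQ, Qs_eq q α β s e j hj, AlgHom.map_det, ← hdetq j hj ih]
        congr 1
        ext i i'
        rw [AlgHom.mapMatrix_apply, Matrix.map_apply, Matrix.of_apply, Matrix.of_apply, map_add,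
          map_mul, hmks, zero_mul, add_zero]
  -- the matrices without perturbation
  let Am : (j : Fin t) → Matrix (Fin (m j)) (Fin (m j)) (U → V → T) := fun j =>
    Matrix.of fun i i' => aeval (fun k : {k : Fin t // k < j} => Q k.1) (α j i i')
  let B : Fin t → Subalgebra F (U → V → T) := fun j =>
    Algebra.adjoin F (Set.range fun k : {k : Fin t // k < j} => Q k.1)
  have hB : ∀ j (g : MvPolynomial {k : Fin t // k < j} F),
      aeval (fun k : {k : Fin t // k < j} => Q k.1) g ∈ B j := by
    intro j g
    simp only [B]
    rw [Algebra.adjoin_range_eq_range_aeval]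
    exact ⟨g, rfl⟩
  have hAdet : ∀ j, q j ≠ 0 → IsNilpotent ((Am j).det - algebraMap F (U → V → T) (q j)) := by
    intro j hj
    refine mem_nilradical.1 (Ideal.Quotient.eq_zero_iff_mem.1 ?_)
    have h1 : mk ((Am j).det - algebraMap F (U → V → T) (q j)) = 0 := by
      rw [map_sub, AlgHom.map_det, AlgHom.commutes, sub_eq_zero, ← hdetq j hj (fun k _ => hmkQ k)]
      congr 1
    exact h1
  have hV : ∀ j, ∃ W : Matrix (Fin (m j)) (Fin (m j)) (U → V → T),
      (∀ i i', W i i' ∈ B j) ∧ (q j ≠ 0 → Am j * W = 1) := by
    intro j
    by_cases hj : q j = 0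
    · exact ⟨0, fun _ _ => zero_mem _, fun h => absurd hj h⟩
    · let A' : Matrix (Fin (m j)) (Fin (m j)) (B j) := Matrix.of fun i i' => ⟨Am j i i', hB j _⟩
      have hA' : A'.map (B j).val = Am j := by
        ext i i' : 2
        rfl
      have hu : IsUnit A'.det := by
        refine isUnit_of_nil (B j) A'.det (q j) hj ?_
        have h1 : ((A'.det : B j) : U → V → T) = (Am j).det := by
          have h2 := AlgHom.map_det (B j).val A'
          rw [AlgHom.mapMatrix_apply, hA'] at h2
          exact h2
        rw [h1]
        exact hAdet j hj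
      refine ⟨A'⁻¹.map (B j).val, fun i i' => (A'⁻¹ i i').2, fun _ => ?_⟩
      have h1 := Matrix.mul_nonsing_inv A' hu
      have h2 := congrArg (fun M : Matrix (Fin (m j)) (Fin (m j)) (B j) => M.map (B j).val) h1
      rw [Matrix.map_mul, hA', Matrix.map_one _ (map_zero _) (map_one _)] at h2
      exact h2
  choose Vm hVm hVA using hV
  let E : (j : Fin t) → Matrix (Fin (m j)) P (U → V → T) := fun j =>
    Matrix.of fun i p => if μ p = ⟨j, i⟩ then 1 else 0
  let Cm : (j : Fin t) → Matrix (Fin (m j)) (Fin (m j)) (U → V → T) := fun j =>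
    Matrix.of fun i i' => ∑ d, e j i d * aeval (fun k : {k : Fin t // k < j} => Q k.1) (β j i i' d)
  let gm : (j : Fin t) → Matrix P P (U → V → T) := fun j => (E j).transpose * Cm j * Vm j * E j
  let g : P × P → U → V → T := fun x => gm (μ x.1).1 x.1 x.2
  let y : P × P → U → V → T := fun x u v => τ x.1 * g x u v
  let lev : P × P → ℕ := fun x => (μ x.1).1.val
  have hgm0 : ∀ j p p', (μ p).1 ≠ j → gm j p p' = 0 := by
    intro j p p' h
    refine row_zero _ _ _ (fun i => row_zero _ _ _ (fun i => row_zero _ _ _ (fun i => ?_) i) i) p'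
    rw [Matrix.transpose_apply]
    simp only [E, Matrix.of_apply]
    rw [if_neg]
    intro h1
    exact h (by rw [h1])
  have hBle : ∀ j, (∀ k < j, Q k ∈ Algebra.adjoin F (y '' {x | lev x ≤ k.val})) →
      B j ≤ Algebra.adjoin F (y '' {x | lev x < j.val}) := by
    intro j ih
    refine Algebra.adjoin_le ?_
    rintro _ ⟨k, rfl⟩
    refine Algebra.adjoin_mono (Set.image_mono fun x hx => ?_) (ih k.1 k.2)
    exact lt_of_le_of_lt hx k.2
  have hQmem : ∀ j, Q j ∈ Algebra.adjoin F (y '' {x | lev x ≤ j.val}) := by
    intro j
    induction j using fin_strong with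
    | _ j ih =>
      by_cases hj : q j = 0
      · rw [hQ, Qs_zero q α β s e j hj]
        exact zero_mem _
      · have hB1 := hBle j ih
        have hB2 : Algebra.adjoin F (y '' {x | lev x < j.val}) ≤
            Algebra.adjoin F (y '' {x | lev x ≤ j.val}) :=
          Algebra.adjoin_mono (Set.image_mono fun x (hx : lev x < j.val) =>
            (le_of_lt hx : lev x ≤ j.val))
        have hdet : Q j = (Am j).det * (1 + Matrix.diagonal τA * gm j).det := by
          rw [← det_aux (Am j) (Vm j) (Cm j) (E j) τA (hVA j hj), hQ, Qs_eq q α β s e j hj]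
          congr 1
          refine Matrix.ext fun i i' => ?_
          rw [Matrix.add_apply, Matrix.of_apply]
          congr 1
          have h1 : E j * Matrix.diagonal τA * (E j).transpose = Matrix.diagonal (s j) := by
            refine Matrix.ext fun a b => ?_
            rw [Matrix.mul_apply, Matrix.diagonal_apply]
            have h2 : ∀ p, (E j * Matrix.diagonal τA) a p * (E j).transpose p b =
                if a = b then (if μ p = ⟨j, a⟩ then τA p else 0) else 0 := by
              intro p
              rw [Matrix.mul_diagonal, Matrix.transpose_apply]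
              simp only [E, Matrix.of_apply]
              by_cases hab : a = b
              · subst hab
                rw [if_pos rfl]
                split_ifs
                · rw [one_mul, mul_one]
                · rw [zero_mul, zero_mul]
              · rw [if_neg hab]
                by_cases h3 : μ p = ⟨j, a⟩
                · have h4 : μ p ≠ ⟨j, b⟩ := by
                    rw [h3]
                    intro h5
                    rw [Sigma.mk.injEq] at h5
                    exact hab (eq_of_heq h5.2)
                  rw [if_neg h4, mul_zero]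
                · rw [if_neg h3, zero_mul, zero_mul]
            rw [Finset.sum_congr rfl fun p _ => h2 p]
            by_cases hab : a = b
            · rw [if_pos hab, hsA]
              refine Finset.sum_congr rfl fun p _ => ?_
              rw [if_pos hab]
            · rw [if_neg hab]
              refine Finset.sum_eq_zero fun p _ => ?_
              rw [if_neg hab]
          rw [h1, Matrix.diagonal_mul]
          rfl
        rw [hdet]
        refine mul_mem (det_mem _ _ fun i i' => hB2 (hB1 (hB j _))) (det_mem _ _ fun p p' => ?_)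
        rw [Matrix.add_apply, Matrix.one_apply, Matrix.diagonal_mul]
        refine add_mem ?_ ?_
        · split_ifs
          · exact one_mem _
          · exact zero_mem _
        · by_cases hpj : (μ p).1 = j
          · have h1 : τA p * gm j p p' = y (p, p') := by
              rw [← hpj]
              rfl
            rw [h1]
            refine Algebra.subset_adjoin ⟨(p, p'), ?_, rfl⟩
            show (μ p).1.val ≤ j.val
            rw [hpj]
          · rw [hgm0 j p p' hpj, mul_zero]
            exact zero_mem _
  have hgmem : ∀ x : P × P, g x ∈ Algebra.adjoin F (side F T PU x.1 ∪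
      y '' {x' | x' ∈ (Finset.univ : Finset (P × P)) ∧ lev x' < lev x}) := by
    rintro ⟨p, p'⟩
    have hB1 := hBle (μ p).1 fun k _ => hQmem k
    have hB2 : Algebra.adjoin F (y '' {x | lev x < (μ p).1.val}) ≤ Algebra.adjoin F
        (side F T PU p ∪ y '' {x' | x' ∈ (Finset.univ : Finset (P × P)) ∧ lev x' < lev (p, p')}) := by
      refine Algebra.adjoin_mono (Set.subset_union_of_subset_right (Set.image_mono ?_) _)
      intro x hx
      exact ⟨Finset.mem_univ _, hx⟩
    have hBm : ∀ b ∈ B (μ p).1, b ∈ Algebra.adjoin F
        (side F T PU p ∪ y '' {x' | x' ∈ (Finset.univ : Finset (P × P)) ∧ lev x' < lev (p, p')}) :=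
      fun b hb => hB2 (hB1 hb)
    simp only [g, gm]
    rw [Matrix.mul_apply]
    refine sum_mem fun i _ => mul_mem ?_ ?_
    · rw [Matrix.mul_apply]
      refine sum_mem fun i' _ => mul_mem ?_ (hBm _ (hVm _ _ _))
      rw [Matrix.mul_apply]
      refine sum_mem fun i'' _ => ?_
      rw [Matrix.transpose_apply]
      simp only [E, Cm, Matrix.of_apply]
      split_ifs with h
      · rw [one_mul]
        refine sum_mem fun d _ => mul_mem ?_ (hBm _ (hB _ _))
        have h1 := he p d
        refine Algebra.subset_adjoin (Or.inl ?_)
        have h2 : (μ p).2 = i'' := by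
          have h3 := h
          rw [Sigma.ext_iff] at h3
          exact eq_of_heq h3.2
        rw [← h2]
        exact h1
      · rw [zero_mul]
        exact zero_mem _
    · simp only [E, Matrix.of_apply]
      split_ifs
      · exact one_mem _
      · exact zero_mem _
  have hfin := tower_rk τ hτ Top hTop PU (fun x : P × P => x.1) lev y g (fun i u v => rfl) _
    Finset.univ rfl (fun x _ => hgmem x) ∅ (aeval Q G) (fun _ => 0) (by
      have h1 : aeval Q G ∈ Algebra.adjoin F (Set.range Q) := by
        rw [Algebra.adjoin_range_eq_range_aeval]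
        exact ⟨G, rfl⟩
      refine Algebra.adjoin_le ?_ h1
      rintro _ ⟨j, rfl⟩
      exact Algebra.adjoin_mono (Set.image_mono fun x _ => Finset.mem_univ x) (hQmem j))
    (fun a ha => absurd ha (Finset.notMem_empty a))
  refine (hfin.congr fun u v => ?_).mono (le_of_eq ?_)
  · rw [Finset.prod_empty, Finset.prod_empty, one_mul, mul_one]
  · rw [Finset.sdiff_empty]
    have h1 : ∀ p : P, (Finset.univ.filter fun x : P × P => x.1 = p).card = Fintype.card P := by
      intro p
      have h2 : (Finset.univ.filter fun x : P × P => x.1 = p) =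
          Finset.univ.map ⟨fun p' : P => (p, p'), fun a b hab => (Prod.ext_iff.1 hab).2⟩ := by
        ext x
        simp only [Finset.mem_filter, Finset.mem_univ, true_and, Finset.mem_map,
          Function.Embedding.coeFn_mk]
        constructor
        · intro h
          exact ⟨x.2, Prod.ext h.symm rfl⟩
        · rintro ⟨a, rfl⟩
          rfl
      rw [h2, Finset.card_map, Finset.card_univ]
    rw [Finset.prod_congr rfl fun p _ => by rw [h1 p], Finset.prod_const, Finset.card_univ]

end

end Pool.Agent.W942.Ns
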