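import Pool.Agent.W942.AlgD
import Pool.Agent.W942.NsH

/-!
# Taylor expansion along derivations with parameters of square zero
-/

set_option autoImplicit false
set_option maxHeartbeats 1000000

namespace Pool.Agent.W942.Ns

open Finset

section
variable {K F T P : Type*} [Field K] [Field F] [Algebra K F] [CommRing T] [Algebra F T]

/-- The ring homomorphism `z ↦ z + ∑ τ p * D p z + …`. -/
noncomputable def phi (τ : P → T) (hτ : ∀ p, τ p * τ p = 0) (D : P → Derivation K F F) :
    List P → F →+* T
  | [] => algebraMap F T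
  | p :: l =>
    { toFun := fun z => phi τ hτ D l z + τ p * phi τ hτ D l (D p z)
      map_one' := by
        rw [map_one, Derivation.map_one_eq_zero, map_zero, mul_zero, add_zero]
      map_mul' := by
        intro x y
        rw [Derivation.leibniz, smul_eq_mul, smul_eq_mul, map_add, map_mul, map_mul, map_mul]
        linear_combination (-(phi τ hτ D l (D p x)) * phi τ hτ D l (D p y)) * hτ p
      map_zero' := by
        rw [map_zero, map_zero, map_zero, mul_zero, add_zero]
      map_add' := by
        intro x y
        rw [map_add, map_add, map_add]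
        ring }

variable (τ : P → T) (hτ : ∀ p, τ p * τ p = 0) (D : P → Derivation K F F)

theorem phi_nil (z : F) : phi τ hτ D [] z = algebraMap F T z := rfl

theorem phi_cons (p : P) (l : List P) (z : F) :
    phi τ hτ D (p :: l) z = phi τ hτ D l z + τ p * phi τ hτ D l (D p z) := rfl

theorem phi_const (l : List P) (z : F) (h : ∀ p ∈ l, D p z = 0) :
    phi τ hτ D l z = algebraMap F T z := by
  induction l with
  | nil => rfl
  | cons p l ih =>
    rw [phi_cons, ih (fun p hp => h p (List.mem_cons_of_mem _ hp)), h p (by simp), map_zero,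
      mul_zero, add_zero]

theorem phi_linear (l : List P) (z : F) (h : ∀ p ∈ l, ∀ p' ∈ l, D p' (D p z) = 0) :
    phi τ hτ D l z = algebraMap F T z + (l.map fun p => τ p * algebraMap F T (D p z)).sum := by
  induction l with
  | nil => simp [phi_nil]
  | cons p l ih =>
    rw [phi_cons, ih (fun p hp p' hp' => h p (List.mem_cons_of_mem _ hp) p'
      (List.mem_cons_of_mem _ hp')), phi_const τ hτ D l (D p z) (fun p' hp' => h p (by simp) p'
      (List.mem_cons_of_mem _ hp')), List.map_cons, List.sum_cons]
    ring

theorem top_prod [Fintype P] [DecidableEq P] (Top : T →ₗ[F] F)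
    (hTop : ∀ e : P → ℕ, Top (∏ p, τ p ^ e p) = if ∀ p, e p = 1 then 1 else 0) (S : Finset P) :
    Top (∏ a ∈ S, τ a) = if S = Finset.univ then 1 else 0 := by
  have h1 : ∏ a ∈ S, τ a = ∏ p, τ p ^ (if p ∈ S then 1 else 0) := by
    rw [← Finset.prod_subset (Finset.subset_univ S)]
    · refine Finset.prod_congr rfl fun a ha => ?_
      rw [if_pos ha, pow_one]
    · intro a _ ha
      rw [if_neg ha, pow_zero]
  rw [h1, hTop]
  refine if_congr ?_ rfl rfl
  constructor
  · intro h
    ext a
    simp only [Finset.mem_univ, iff_true]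
    have := h a
    by_contra hc
    rw [if_neg hc] at this
    exact absurd this (by norm_num)
  · intro h p
    rw [h, if_pos (Finset.mem_univ p)]

theorem top_phi [Fintype P] [DecidableEq P] (Top : T →ₗ[F] F)
    (hTop : ∀ e : P → ℕ, Top (∏ p, τ p ^ e p) = if ∀ p, e p = 1 then 1 else 0) (l : List P)
    (hl : l.Nodup) : ∀ (R : Finset P), (∀ p ∈ l, p ∉ R) → ∀ z : F,
      Top ((∏ a ∈ R, τ a) * phi τ hτ D l z) =
        if R ∪ l.toFinset = Finset.univ then Alg.dls D l z else 0 := by
  induction l with
  | nil =>
    intro R _ z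
    rw [phi_nil, mul_comm, ← Algebra.smul_def, map_smul, top_prod τ Top hTop]
    simp only [List.toFinset_nil, Finset.union_empty, smul_eq_mul, mul_ite, mul_one, mul_zero]
    rfl
  | cons p l ih =>
    intro R hR z
    obtain ⟨hp, hl'⟩ := List.nodup_cons.1 hl
    have hpR : p ∉ R := hR p (by simp)
    rw [phi_cons, mul_add, map_add, ih hl' R (fun a ha => hR a (List.mem_cons_of_mem _ ha)), if_neg]
    · have h1 : (∏ a ∈ R, τ a) * (τ p * phi τ hτ D l (D p z)) =
          (∏ a ∈ insert p R, τ a) * phi τ hτ D l (D p z) := by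
        rw [Finset.prod_insert hpR]
        ring
      rw [h1, ih hl' (insert p R) (fun a ha h => by
        rcases Finset.mem_insert.1 h with h | h
        · exact hp (h ▸ ha)
        · exact hR a (List.mem_cons_of_mem _ ha) h), zero_add, List.toFinset_cons,
        Finset.insert_union, Finset.union_insert]
      rfl
    · intro h
      have h1 : p ∈ R ∪ l.toFinset := h ▸ Finset.mem_univ p
      rcases Finset.mem_union.1 h1 with h2 | h2
      · exact hpR h2
      · exact hp (List.mem_toFinset.1 h2)

theorem top_phi_all [Fintype P] [DecidableEq P] (Top : T →ₗ[F] F)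
    (hTop : ∀ e : P → ℕ, Top (∏ p, τ p ^ e p) = if ∀ p, e p = 1 then 1 else 0) (l : List P)
    (hl : l.Nodup) (hall : ∀ p, p ∈ l) (z : F) : Top (phi τ hτ D l z) = Alg.dls D l z := by
  have h1 := top_phi τ hτ D Top hTop l hl ∅ (fun _ _ => Finset.notMem_empty _) z
  rw [Finset.prod_empty, one_mul, if_pos] at h1
  · exact h1
  · ext a
    simp [hall a]

end

section
variable {K F T P U V : Type*} [Field K] [Field F] [Algebra K F] [CommRing T] [Algebra F T]

/-- All expansions together. -/
noncomputable def Phi (τ : P → T) (hτ : ∀ p, τ p * τ p = 0) (D : U → V → P → Derivation K F F)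
    (l : List P) : F →+* (U → V → T) :=
  Pi.ringHom fun u => Pi.ringHom fun v => phi τ hτ (D u v) l

variable (τ : P → T) (hτ : ∀ p, τ p * τ p = 0) (D : U → V → P → Derivation K F F)

theorem Phi_apply (l : List P) (z : F) (u : U) (v : V) :
    Phi τ hτ D l z u v = phi τ hτ (D u v) l z := rfl

theorem Phi_nilp (l : List P) (z : F) :
    IsNilpotent (Phi τ hτ D l z - algebraMap F (U → V → T) z) := by
  induction l with
  | nil =>
    have h : Phi τ hτ D [] z - algebraMap F (U → V → T) z = 0 := by
      funext u v
      rw [Pi.sub_apply, Pi.sub_apply, Phi_apply, phi_nil, Pi.algebraMap_apply, Pi.algebraMap_apply,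
        sub_self]
      rfl
    rw [h]
    exact IsNilpotent.zero
  | cons p l ih =>
    have h : Phi τ hτ D (p :: l) z - algebraMap F (U → V → T) z =
        (Phi τ hτ D l z - algebraMap F (U → V → T) z) +
          (fun u v => τ p * phi τ hτ (D u v) l (D u v p z)) := by
      funext u v
      simp only [Pi.sub_apply, Pi.add_apply, Phi_apply, phi_cons]
      ring
    rw [h]
    refine Commute.isNilpotent_add (Commute.all _ _) ih ⟨2, ?_⟩
    funext u v
    simp only [Pi.pow_apply, Pi.zero_apply]
    linear_combination (phi τ hτ (D u v) l (D u v p z)) ^ 2 * hτ p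

end

section
variable {F A : Type*} [CommRing F] [CommRing A] [Algebra F A]

/-- Elements of an algebra generated by elements and by perturbed constants. -/
theorem adjoin_perturbed {ι : Type*} [Fintype ι] [DecidableEq ι] (Q : Set A) (τ : A)
    (hτ : τ * τ = 0) (η : ι → A) (a : ι → F) {x : A}
    (hx : x ∈ Algebra.adjoin F (Q ∪ Set.range fun d => algebraMap F A (a d) + τ * η d)) :
    ∃ α ∈ Algebra.adjoin F Q, ∃ b : ι → A, (∀ d, b d ∈ Algebra.adjoin F Q) ∧
      x = α + τ * ∑ d, η d * b d := by
  induction hx using Algebra.adjoin_induction with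
  | mem x hx =>
    rcases hx with hx | ⟨d, rfl⟩
    · exact ⟨x, Algebra.subset_adjoin hx, 0, fun _ => zero_mem _, by simp⟩
    · refine ⟨algebraMap F A (a d), Subalgebra.algebraMap_mem _ _, fun e => if e = d then 1 else 0,
        fun e => ?_, ?_⟩
      · simp only
        split_ifs
        · exact one_mem _
        · exact zero_mem _
      · simp
  | algebraMap r =>
    exact ⟨algebraMap F A r, Subalgebra.algebraMap_mem _ _, 0, fun _ => zero_mem _, by simp⟩
  | add x y _ _ hx hy =>
    obtain ⟨α, hα, b, hb, rfl⟩ := hx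
    obtain ⟨α', hα', b', hb', rfl⟩ := hy
    refine ⟨α + α', add_mem hα hα', fun d => b d + b' d, fun d => add_mem (hb d) (hb' d), ?_⟩
    have h1 : ∑ d, η d * (b d + b' d) = ∑ d, η d * b d + ∑ d, η d * b' d := by
      rw [← Finset.sum_add_distrib]
      exact Finset.sum_congr rfl fun d _ => by ring
    rw [h1]
    ring
  | mul x y _ _ hx hy =>
    obtain ⟨α, hα, b, hb, rfl⟩ := hx
    obtain ⟨α', hα', b', hb', rfl⟩ := hy
    refine ⟨α * α', mul_mem hα hα', fun d => α * b' d + α' * b d,
      fun d => add_mem (mul_mem hα (hb' d)) (mul_mem hα' (hb d)), ?_⟩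
    have h1 : ∑ d, η d * (α * b' d + α' * b d) = α * ∑ d, η d * b' d + α' * ∑ d, η d * b d := by
      rw [Finset.mul_sum, Finset.mul_sum, ← Finset.sum_add_distrib]
      exact Finset.sum_congr rfl fun d _ => by ring
    rw [h1]
    linear_combination ((∑ d, η d * b d) * ∑ d, η d * b' d) * hτ

end

end Pool.Agent.W942.Ns
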