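import Mathlib

/-!
# The truncated polynomial algebra and transversals
-/

set_option autoImplicit false
set_option maxHeartbeats 1000000

namespace Pool.Agent.W942.Ns

open Finset MvPolynomial

universe u

/-- An algebra with elements of square zero and the coefficient of their product. -/
theorem exists_trunc (F : Type u) [Field F] (P : Type) [Fintype P] [DecidableEq P] :
    ∃ (T : Type u) (_ : CommRing T) (_ : Algebra F T) (τ : P → T) (Top : T →ₗ[F] F),
      (∀ p, τ p * τ p = 0) ∧
      ∀ e : P → ℕ, Top (∏ p, τ p ^ e p) = if ∀ p, e p = 1 then 1 else 0 := by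
  classical
  let I : Ideal (MvPolynomial P F) := Ideal.span (Set.range fun p : P => (X p : MvPolynomial P F) ^ 2)
  let π : MvPolynomial P F →ₐ[F] (MvPolynomial P F ⧸ I) := Ideal.Quotient.mkₐ F I
  have hπ : Function.Surjective π := Ideal.Quotient.mkₐ_surjective F I
  obtain ⟨s, hs⟩ := LinearMap.exists_rightInverse_of_surjective π.toLinearMap
    (LinearMap.range_eq_top.2 hπ)
  let one : P →₀ ℕ := Finsupp.equivFunOnFinite.symm fun _ => 1
  have hker : ∀ x ∈ I, ∀ a : MvPolynomial P F, coeff one (a * x) = 0 := by
    intro x hx
    refine Submodule.span_induction (p := fun x _ => ∀ a : MvPolynomial P F, coeff one (a * x) = 0)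
      ?_ ?_ ?_ ?_ hx
    · rintro _ ⟨p, rfl⟩ a
      have h1 : (X p : MvPolynomial P F) ^ 2 = monomial (Finsupp.single p 2) 1 := by
        rw [X_pow_eq_monomial]
      show coeff one (a * X p ^ 2) = 0
      rw [h1, coeff_mul_monomial', if_neg]
      intro h
      have := h p
      simp [one] at this
    · intro a
      rw [mul_zero, coeff_zero]
    · intro x y _ _ h1 h2 a
      rw [mul_add, coeff_add, h1, h2, add_zero]
    · intro b x _ h1 a
      rw [smul_eq_mul, ← mul_assoc]
      exact h1 _
  have hf : ∀ g : MvPolynomial P F, coeff one (s (π g)) = coeff one g := by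
    intro g
    have h1 : π (s (π g)) = π g := congrArg (fun f => f (π g)) hs
    have h2 : s (π g) - g ∈ I := by
      rw [← Ideal.Quotient.eq_zero_iff_mem, map_sub]
      exact sub_eq_zero.2 h1
    have h3 := hker _ h2 1
    rw [one_mul, coeff_sub] at h3
    exact sub_eq_zero.1 h3
  refine ⟨MvPolynomial P F ⧸ I, inferInstance, inferInstance, fun p => π (X p),
    (lcoeff F one).comp s, fun p => ?_, fun e => ?_⟩
  · have h1 : π (X p) * π (X p) = π (X p ^ 2) := by rw [sq, map_mul]
    rw [h1]
    exact Ideal.Quotient.eq_zero_iff_mem.2 (Ideal.subset_span ⟨p, rfl⟩)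
  · have h1 : (∏ p, π (X p) ^ e p) = π (monomial (Finsupp.equivFunOnFinite.symm e) 1) := by
      rw [monomial_eq, C_1, one_mul, Finsupp.prod_fintype _ _ (fun i => pow_zero _), map_prod]
      refine Finset.prod_congr rfl fun p _ => ?_
      rw [map_pow]
      rfl
    rw [h1, LinearMap.comp_apply, lcoeff_apply, hf, coeff_monomial]
    refine if_congr ?_ rfl rfl
    constructor
    · intro h p
      have := DFunLike.congr_fun h p
      simpa [one] using this
    · intro h
      ext p
      simp [one, h p]

section
variable {F T P Λ : Type*} [Field F] [CommRing T] [Algebra F T] [Fintype P] [DecidableEq P]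
  [Fintype Λ] [DecidableEq Λ]

/-- The top coefficient is a sum over transversals. -/
theorem transversal_sum (τ : P → T) (Top : T →ₗ[F] F)
    (hTop : ∀ e : P → ℕ, Top (∏ p, τ p ^ e p) = if ∀ p, e p = 1 then 1 else 0) (pos : Λ → P)
    (Z : MvPolynomial Λ F) : Top (aeval (fun l => τ (pos l)) Z) =
      ∑ μ ∈ Fintype.piFinset (fun p => Finset.univ.filter fun l => pos l = p),
        Top (aeval (fun l => if μ (pos l) = l then τ (pos l) else 0) Z) := by
  classical
  induction Z using MvPolynomial.induction_on' with
  | add p q hp hq =>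
    rw [map_add, map_add, hp, hq, ← Finset.sum_add_distrib]
    exact Finset.sum_congr rfl fun μ _ => by rw [map_add, map_add]
  | monomial w a =>
    -- one position
    let h : P → Λ → F := fun p l =>
      if w l = 1 ∧ ∀ l', pos l' = p → l' ≠ l → w l' = 0 then 1 else 0
    have hpos : ∀ φ : Λ → T, aeval φ (monomial w a) =
        a • ∏ p, ∏ l ∈ Finset.univ.filter (fun l => pos l = p), φ l ^ w l := by
      intro φ
      rw [aeval_monomial, Finsupp.prod_fintype _ _ (fun i => pow_zero _), Algebra.smul_def,
        Finset.prod_fiberwise]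
    have hL : Top (aeval (fun l => τ (pos l)) (monomial w a)) =
        a * ∏ p, if (∑ l ∈ Finset.univ.filter (fun l => pos l = p), w l) = 1 then 1 else 0 := by
      rw [hpos, map_smul, smul_eq_mul]
      congr 1
      have h1 : ∏ p, ∏ l ∈ Finset.univ.filter (fun l => pos l = p), τ (pos l) ^ w l =
          ∏ p, τ p ^ (∑ l ∈ Finset.univ.filter (fun l => pos l = p), w l) := by
        refine Finset.prod_congr rfl fun p _ => ?_
        rw [← Finset.prod_pow_eq_pow_sum]
        refine Finset.prod_congr rfl fun l hl => ?_
        rw [(Finset.mem_filter.1 hl).2]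
      rw [h1, hTop, Finset.prod_ite_zero]
      simp
    have hR : ∀ μ ∈ Fintype.piFinset (fun p => Finset.univ.filter fun l => pos l = p),
        Top (aeval (fun l => if μ (pos l) = l then τ (pos l) else 0) (monomial w a)) =
          a * ∏ p, h p (μ p) := by
      intro μ hμ
      have hμ' : ∀ p, pos (μ p) = p := fun p =>
        (Finset.mem_filter.1 (Fintype.mem_piFinset.1 hμ p)).2
      rw [hpos, map_smul, smul_eq_mul]
      congr 1
      by_cases hgood : ∀ p l', pos l' = p → l' ≠ μ p → w l' = 0
      · have h1 : ∏ p, ∏ l ∈ Finset.univ.filter (fun l => pos l = p),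
            (if μ (pos l) = l then τ (pos l) else 0) ^ w l = ∏ p, τ p ^ w (μ p) := by
          refine Finset.prod_congr rfl fun p _ => ?_
          rw [Finset.prod_eq_single (μ p)]
          · rw [hμ', if_pos rfl]
          · intro l hl hne
            rw [hgood p l (Finset.mem_filter.1 hl).2 hne, pow_zero]
          · intro hn
            have hmem : μ p ∈ Finset.univ.filter (fun l => pos l = p) :=
              Finset.mem_filter.2 ⟨Finset.mem_univ _, hμ' p⟩
            exact absurd hmem hn
        rw [h1, hTop]
        have h2 : ∀ p, h p (μ p) = if w (μ p) = 1 then 1 else 0 := by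
          intro p
          simp only [h]
          exact if_congr ⟨fun h => h.1, fun h => ⟨h, hgood p⟩⟩ rfl rfl
        simp only [h2]
        rw [Finset.prod_ite_zero]
        simp
      · push Not at hgood
        obtain ⟨p, l', hl', hne, hw⟩ := hgood
        have h1 : ∏ p, ∏ l ∈ Finset.univ.filter (fun l => pos l = p),
            (if μ (pos l) = l then τ (pos l) else 0) ^ w l = 0 := by
          refine Finset.prod_eq_zero (Finset.mem_univ p) ?_
          refine Finset.prod_eq_zero (i := l') (Finset.mem_filter.2 ⟨Finset.mem_univ _, hl'⟩) ?_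
          rw [hl', if_neg (Ne.symm hne), zero_pow hw]
        rw [h1, map_zero]
        symm
        refine Finset.prod_eq_zero (Finset.mem_univ p) ?_
        simp only [h]
        rw [if_neg]
        rintro ⟨_, h2⟩
        exact hw (h2 l' hl' hne)
    rw [hL, Finset.sum_congr rfl hR, ← Finset.mul_sum]
    congr 1
    rw [← Finset.prod_univ_sum]
    refine Finset.prod_congr rfl fun p _ => ?_
    by_cases hs : (∑ l ∈ Finset.univ.filter (fun l => pos l = p), w l) = 1
    · rw [if_pos hs]
      obtain ⟨l0, hl0, hl0'⟩ : ∃ l ∈ Finset.univ.filter (fun l => pos l = p), w l ≠ 0 := by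
        by_contra hcon
        push Not at hcon
        rw [Finset.sum_eq_zero hcon] at hs
        exact absurd hs (by norm_num)
      have h1 : w l0 + ∑ l ∈ (Finset.univ.filter (fun l => pos l = p)).erase l0, w l = 1 := by
        rw [Finset.add_sum_erase _ _ hl0, hs]
      have h2 : w l0 = 1 := by omega
      have h3 : ∀ l', pos l' = p → l' ≠ l0 → w l' = 0 := by
        intro l' h4 h5
        have h6 : ∑ l ∈ (Finset.univ.filter (fun l => pos l = p)).erase l0, w l = 0 := by omega
        exact Finset.sum_eq_zero_iff.1 h6 l' (Finset.mem_erase.2 ⟨h5, Finset.mem_filter.2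
          ⟨Finset.mem_univ _, h4⟩⟩)
      rw [Finset.sum_eq_single l0]
      · simp only [h]
        rw [if_pos ⟨h2, h3⟩]
      · intro l hl hne
        simp only [h]
        rw [if_neg]
        rintro ⟨h4, _⟩
        rw [h3 l (Finset.mem_filter.1 hl).2 hne] at h4
        exact absurd h4 (by norm_num)
      · intro hn
        exact absurd hl0 hn
    · rw [if_neg hs]
      symm
      refine Finset.sum_eq_zero fun l hl => ?_
      simp only [h]
      rw [if_neg]
      rintro ⟨h1, h2⟩
      apply hs
      rw [← Finset.add_sum_erase _ _ hl, h1, Finset.sum_eq_zero, add_zero]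
      intro l' hl'
      rw [Finset.mem_erase, Finset.mem_filter] at hl'
      exact h2 l' hl'.2.2 hl'.1

end

end Pool.Agent.W942.Ns
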