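import Pool.Agent.W942.NsR
import Pool.Agent.W942.NsT
import Pool.Agent.W942.NsPhi

/-!
# Nested programs of determinants: the rank of the top coefficient
-/

set_option autoImplicit false
set_option maxHeartbeats 1000000

namespace Pool.Agent.W942.Ns

open Finset MvPolynomial

/-- Course-of-values recursion. -/
noncomputable def recu {α : Type*} {t : ℕ} (step : (j : Fin t) → ({k : Fin t // k < j} → α) → α)
    (j : Fin t) : α :=
  step j (fun k => recu step k.1)
termination_by j.val
decreasing_by exact k.2

theorem recu_eq {α : Type*} {t : ℕ} (step : (j : Fin t) → ({k : Fin t // k < j} → α) → α)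
    (j : Fin t) : recu step j = step j (fun k => recu step k.1) := by
  rw [recu]

theorem fin_strong {t : ℕ} {p : Fin t → Prop} (h : ∀ j, (∀ k < j, p k) → p j) (j : Fin t) : p j := by
  obtain ⟨v, hv⟩ := j
  induction v using Nat.strong_induction_on with
  | _ v ih => exact h ⟨v, hv⟩ fun k hk => ih k.1 hk k.2

section
variable {R : Type*} [CommRing R]

theorem det_aux {m P : Type*} [Fintype m] [DecidableEq m] [Fintype P] [DecidableEq P]
    (A V C : Matrix m m R) (E : Matrix m P R) (D : P → R) (hAV : A * V = 1) :
    (A + E * Matrix.diagonal D * E.transpose * C).det =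
      A.det * (1 + Matrix.diagonal D * (E.transpose * C * V * E)).det := by
  have h1 : A + E * Matrix.diagonal D * E.transpose * C =
      A * (1 + (V * E) * (Matrix.diagonal D * E.transpose * C)) := by
    rw [mul_add, mul_one]
    congr 1
    simp only [Matrix.mul_assoc]
    rw [← Matrix.mul_assoc A V, hAV, Matrix.one_mul]
  rw [h1, Matrix.det_mul, Matrix.det_one_add_mul_comm]
  simp only [Matrix.mul_assoc]

theorem det_mem {F : Type*} [CommRing F] [Algebra F R] {m : Type*} [Fintype m] [DecidableEq m]
    (S : Subalgebra F R) (M : Matrix m m R) (h : ∀ i i', M i i' ∈ S) : M.det ∈ S := by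
  rw [Matrix.det_apply]
  refine sum_mem fun σ _ => ?_
  have h1 : ∏ i, M (σ i) i ∈ S := prod_mem fun i _ => h _ _
  rcases Int.units_eq_one_or (Equiv.Perm.sign σ) with h2 | h2
  · rw [h2, one_smul]
    exact h1
  · rw [h2, Units.neg_smul, one_smul]
    exact neg_mem h1

end

section
variable {F ι : Type*} [Field F] [Fintype ι] {t : ℕ} {m : Fin t → ℕ}

/-- One instruction. -/
noncomputable def stepS {S : Type*} [CommRing S] [Algebra F S] (q : Fin t → F)
    (α : (j : Fin t) → Fin (m j) → Fin (m j) → MvPolynomial {k : Fin t // k < j} F)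
    (β : (j : Fin t) → Fin (m j) → Fin (m j) → ι → MvPolynomial {k : Fin t // k < j} F)
    (s : (j : Fin t) → Fin (m j) → S) (e : (j : Fin t) → Fin (m j) → ι → S)
    (j : Fin t) (prev : {k : Fin t // k < j} → S) : S :=
  haveI := Classical.dec (q j = 0)
  if q j = 0 then 0 else (Matrix.of fun i i' => aeval prev (α j i i') +
    s j i * ∑ d, e j i d * aeval prev (β j i i' d)).det

/-- The values of all instructions. -/
noncomputable def Qs {S : Type*} [CommRing S] [Algebra F S] (q : Fin t → F)
    (α : (j : Fin t) → Fin (m j) → Fin (m j) → MvPolynomial {k : Fin t // k < j} F)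
    (β : (j : Fin t) → Fin (m j) → Fin (m j) → ι → MvPolynomial {k : Fin t // k < j} F)
    (s : (j : Fin t) → Fin (m j) → S) (e : (j : Fin t) → Fin (m j) → ι → S) (j : Fin t) : S :=
  recu (stepS q α β s e) j

variable (q : Fin t → F)
    (α : (j : Fin t) → Fin (m j) → Fin (m j) → MvPolynomial {k : Fin t // k < j} F)
    (β : (j : Fin t) → Fin (m j) → Fin (m j) → ι → MvPolynomial {k : Fin t // k < j} F)

theorem Qs_zero {S : Type*} [CommRing S] [Algebra F S]
    (s : (j : Fin t) → Fin (m j) → S) (e : (j : Fin t) → Fin (m j) → ι → S) (j : Fin t)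
    (hj : q j = 0) : Qs q α β s e j = 0 := by
  have h : Qs q α β s e j = stepS q α β s e j (fun k => Qs q α β s e k.1) := recu_eq _ _
  rw [h]
  unfold stepS
  rw [if_pos hj]

theorem Qs_eq {S : Type*} [CommRing S] [Algebra F S]
    (s : (j : Fin t) → Fin (m j) → S) (e : (j : Fin t) → Fin (m j) → ι → S) (j : Fin t)
    (hj : q j ≠ 0) : Qs q α β s e j =
      (Matrix.of fun i i' => aeval (fun k : {k : Fin t // k < j} => Qs q α β s e k.1) (α j i i') +
        s j i * ∑ d, e j i d *
          aeval (fun k : {k : Fin t // k < j} => Qs q α β s e k.1) (β j i i' d)).det := by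
  have h : Qs q α β s e j = stepS q α β s e j (fun k => Qs q α β s e k.1) := recu_eq _ _
  rw [h]
  unfold stepS
  rw [if_neg hj]

theorem Qs_map {S S' : Type*} [CommRing S] [Algebra F S] [CommRing S'] [Algebra F S']
    (f : S →ₐ[F] S') (s : (j : Fin t) → Fin (m j) → S) (e : (j : Fin t) → Fin (m j) → ι → S)
    (j : Fin t) : f (Qs q α β s e j) =
      Qs q α β (fun j i => f (s j i)) (fun j i d => f (e j i d)) j := by
  induction j using fin_strong with
  | _ j ih =>
    by_cases hj : q j = 0
    · rw [Qs_zero q α β s e j hj, Qs_zero q α β _ _ j hj, map_zero]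
    · rw [Qs_eq q α β s e j hj, Qs_eq q α β _ _ j hj, AlgHom.map_det]
      congr 1
      ext i i'
      simp only [AlgHom.mapMatrix_apply, Matrix.map_apply, Matrix.of_apply]
      have h1 : ∀ g : MvPolynomial {k : Fin t // k < j} F,
          f (aeval (fun k : {k : Fin t // k < j} => Qs q α β s e k.1) g) =
            aeval (fun k : {k : Fin t // k < j} =>
              Qs q α β (fun j i => f (s j i)) (fun j i d => f (e j i d)) k.1) g := by
        intro g
        rw [← AlgHom.comp_apply, comp_aeval]
        congr 2
        funext k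
        exact ih k.1 k.2
      rw [map_add, map_mul, map_sum, h1]
      congr 2
      refine Finset.sum_congr rfl fun d _ => ?_
      rw [map_mul, h1]

end

end Pool.Agent.W942.Ns
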