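import Pool.Agent.W942.Rk

/-!
# Towers of square-zero elements: the rank of the top coefficient
-/

set_option autoImplicit false
set_option maxHeartbeats 1000000

namespace Pool.Agent.W942.Ns

open Finset

section
variable {F A : Type*} [CommRing F] [CommRing A] [Algebra F A]

/-- Elements of an algebra generated by one more element of square zero. -/
theorem adjoin_insert_sq {S : Set A} {y x : A} (hy : y * y = 0)
    (hx : x ∈ Algebra.adjoin F (insert y S)) :
    ∃ α ∈ Algebra.adjoin F S, ∃ β ∈ Algebra.adjoin F S, x = α + β * y := by
  induction hx using Algebra.adjoin_induction with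
  | mem x hx =>
    rcases hx with rfl | hx
    · exact ⟨0, zero_mem _, 1, one_mem _, by ring⟩
    · exact ⟨x, Algebra.subset_adjoin hx, 0, zero_mem _, by ring⟩
  | algebraMap r => exact ⟨algebraMap F A r, Subalgebra.algebraMap_mem _ r, 0, zero_mem _, by ring⟩
  | add x z _ _ hx hz =>
    obtain ⟨a, ha, b, hb, rfl⟩ := hx
    obtain ⟨a', ha', b', hb', rfl⟩ := hz
    exact ⟨a + a', add_mem ha ha', b + b', add_mem hb hb', by ring⟩
  | mul x z _ _ hx hz =>
    obtain ⟨a, ha, b, hb, rfl⟩ := hx
    obtain ⟨a', ha', b', hb', rfl⟩ := hz
    refine ⟨a * a', mul_mem ha ha', a * b' + b * a', add_mem (mul_mem ha hb') (mul_mem hb ha'), ?_⟩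
    linear_combination (b * b') * hy

/-- Expansion of a product in an element of square zero. -/
theorem prod_expand {P : Type*} [DecidableEq P] (s : Finset P) (α β : P → A) {y : A}
    (hy : y * y = 0) : ∏ a ∈ s, (α a + β a * y) =
      ∏ a ∈ s, α a + y * ∑ b ∈ s, β b * ∏ a ∈ s.erase b, α a := by
  induction s using Finset.induction_on with
  | empty => simp
  | insert c s hc ih =>
    rw [Finset.prod_insert hc, ih, Finset.prod_insert hc, Finset.sum_insert hc,
      Finset.erase_insert hc]
    have h1 : ∑ b ∈ s, β b * ∏ a ∈ (insert c s).erase b, α a =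
        α c * ∑ b ∈ s, β b * ∏ a ∈ s.erase b, α a := by
      rw [Finset.mul_sum]
      refine Finset.sum_congr rfl fun b hb => ?_
      have h2 : c ≠ b := fun h => hc (h ▸ hb)
      rw [Finset.erase_insert_of_ne h2, Finset.prod_insert (fun h => hc (Finset.mem_of_mem_erase h))]
      ring
    rw [h1]
    linear_combination (β c * ∑ b ∈ s, β b * ∏ a ∈ s.erase b, α a) * hy

end

section
variable {F T U V P I : Type*} [Field F] [CommRing T] [Algebra F T]

variable (F T) in
/-- The scalars which only depend on the side of `p`. -/
def side (PU : Set P) (p : P) : Set (U → V → T) :=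
  {f | (p ∈ PU ∧ ∃ g : U → F, f = fun u _ => algebraMap F T (g u)) ∨
    (p ∉ PU ∧ ∃ g : V → F, f = fun _ v => algebraMap F T (g v))}

theorem adjoin_side (PU : Set P) (p : P) {f : U → V → T}
    (hf : f ∈ Algebra.adjoin F (side F T PU p)) : f ∈ side F T PU p := by
  induction hf using Algebra.adjoin_induction with
  | mem x hx => exact hx
  | algebraMap r =>
    by_cases hp : p ∈ PU
    · exact Or.inl ⟨hp, fun _ => r, rfl⟩
    · exact Or.inr ⟨hp, fun _ => r, rfl⟩
  | add x z _ _ hx hz =>
    rcases hx with ⟨hp, g, rfl⟩ | ⟨hp, g, rfl⟩
    · rcases hz with ⟨_, g', rfl⟩ | ⟨hp', _⟩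
      · refine Or.inl ⟨hp, fun u => g u + g' u, ?_⟩
        funext u v
        simp
      · exact absurd hp hp'
    · rcases hz with ⟨hp', _⟩ | ⟨_, g', rfl⟩
      · exact absurd hp' hp
      · refine Or.inr ⟨hp, fun u => g u + g' u, ?_⟩
        funext u v
        simp
  | mul x z _ _ hx hz =>
    rcases hx with ⟨hp, g, rfl⟩ | ⟨hp, g, rfl⟩
    · rcases hz with ⟨_, g', rfl⟩ | ⟨hp', _⟩
      · refine Or.inl ⟨hp, fun u => g u * g' u, ?_⟩
        funext u v
        simp
      · exact absurd hp hp'
    · rcases hz with ⟨hp', _⟩ | ⟨_, g', rfl⟩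
      · exact absurd hp' hp
      · refine Or.inr ⟨hp, fun u => g u * g' u, ?_⟩
        funext u v
        simp

/-- The rank of the top coefficient. -/
theorem tower_rk [Fintype P] [DecidableEq P] [DecidableEq I] (τ : P → T)
    (hτ : ∀ p, τ p * τ p = 0) (Top : T →ₗ[F] F)
    (hTop : ∀ S : Finset P, S ≠ Finset.univ → Top (∏ a ∈ S, τ a) = 0) (PU : Set P) (pos : I → P)
    (lev : I → ℕ) (y g : I → U → V → T) (hy : ∀ i u v, y i u v = τ (pos i) * g i u v) :
    ∀ (N : ℕ) (J : Finset I), J.card = N →
    (∀ i ∈ J, g i ∈ Algebra.adjoin F (side F T PU (pos i) ∪ y '' {j | j ∈ J ∧ lev j < lev i})) →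
    ∀ (used : Finset P) (f0 : U → V → T) (f : P → U → V → T),
      f0 ∈ Algebra.adjoin F (y '' {j | j ∈ J}) →
      (∀ a ∈ used, f a ∈ Algebra.adjoin F (side F T PU a ∪ y '' {j | j ∈ J})) →
      HasRk (fun u v => Top ((∏ a ∈ used, τ a) * (f0 u v * ∏ a ∈ used, f a u v)))
        (∏ p ∈ Finset.univ \ used, (Fintype.card P * (J.filter fun i => pos i = p).card)) := by
  classical
  intro N
  induction N with
  | zero =>
    intro J hJ _ used f0 f hf0 hf
    have hJ0 : J = ∅ := Finset.card_eq_zero.1 hJ
    subst hJ0
    have h1 : ({j | j ∈ (∅ : Finset I)} : Set I) = ∅ := by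
      ext j; simp
    rw [h1, Set.image_empty, Algebra.adjoin_empty] at hf0
    obtain ⟨c, hc⟩ := Algebra.mem_bot.1 hf0
    have h2 : ∀ a ∈ used, f a ∈ side F T PU a := by
      intro a ha
      have h3 := hf a ha
      rw [h1, Set.image_empty, Set.union_empty] at h3
      exact adjoin_side PU a h3
    have h4 : ∀ a ∈ used, ∃ (r : U → V → F), HasRk r 1 ∧ ∀ u v, f a u v = algebraMap F T (r u v) := by
      intro a ha
      rcases h2 a ha with ⟨_, g, h⟩ | ⟨_, g, h⟩
      · exact ⟨fun u _ => g u, HasRk.one_of_mul g (fun _ => 1) (fun u v => by simp), fun u v => by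
          rw [h]⟩
      · exact ⟨fun _ v => g v, HasRk.one_of_mul (fun _ => 1) g (fun u v => by simp), fun u v => by
          rw [h]⟩
    by_cases hu : used = Finset.univ
    · -- a product of one-sided functions
      have h5 : ∀ s : Finset P, s ⊆ used → ∃ r : U → V → F, HasRk r 1 ∧
          ∀ u v, ∏ a ∈ s, f a u v = algebraMap F T (r u v) := by
        intro s
        induction s using Finset.induction_on with
        | empty => exact fun _ => ⟨fun _ _ => 1, HasRk.one_of_mul (fun _ => 1) (fun _ => 1)
            (fun u v => by simp), fun u v => by simp⟩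
        | insert a s ha ih =>
          intro hs
          obtain ⟨r, hr, h6⟩ := ih ((Finset.subset_insert a s).trans hs)
          obtain ⟨r', hr', h7⟩ := h4 a (hs (Finset.mem_insert_self a s))
          refine ⟨fun u v => r' u v * r u v, by simpa using hr'.mul hr, fun u v => ?_⟩
          rw [Finset.prod_insert ha, h6, h7, map_mul]
      obtain ⟨r, hr, h6⟩ := h5 used subset_rfl
      rw [hu, Finset.sdiff_self, Finset.prod_empty]
      rw [hu] at h6
      have h7 : HasRk (fun _ _ => c * Top (∏ a, τ a) : U → V → F) 1 :=
        HasRk.one_of_mul (fun _ => c) (fun _ => Top (∏ a, τ a)) (fun u v => rfl)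
      have h8 := h7.mul hr
      rw [mul_one] at h8
      refine h8.congr fun u v => ?_
      rw [h6, ← hc]
      have h9 : (∏ a, τ a) * ((algebraMap F (U → V → T)) c u v * algebraMap F T (r u v)) =
          (c * r u v) • ∏ a, τ a := by
        rw [Pi.algebraMap_apply, Pi.algebraMap_apply, Algebra.smul_def, map_mul]
        ring
      rw [h9, map_smul, smul_eq_mul]
      ring
    · refine (HasRk.zero.congr fun u v => ?_).mono (Nat.zero_le _)
      choose! r hr h6 using h4
      rw [Finset.prod_congr rfl fun a ha => h6 a ha u v, ← map_prod, ← hc]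
      have h9 : (∏ a ∈ used, τ a) * ((algebraMap F (U → V → T)) c u v *
          algebraMap F T (∏ a ∈ used, r a u v)) = (c * ∏ a ∈ used, r a u v) • ∏ a ∈ used, τ a := by
        rw [Pi.algebraMap_apply, Pi.algebraMap_apply, Algebra.smul_def, map_mul]
        ring
      rw [h9, map_smul, hTop used hu, smul_zero]
  | succ N ih =>
    intro J hJ hg used f0 f hf0 hf
    have hne : J.Nonempty := Finset.card_pos.1 (by omega)
    obtain ⟨i0, hi0, hmax⟩ := Finset.exists_max_image J lev hne
    set J' := J.erase i0 with hJ'
    have hcard : J'.card = N := by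
      rw [hJ', Finset.card_erase_of_mem hi0]
      omega
    have hsq : y i0 * y i0 = 0 := by
      funext u v
      simp only [Pi.mul_apply, Pi.zero_apply, hy]
      linear_combination (g i0 u v * g i0 u v) * hτ (pos i0)
    have himg : y '' {j | j ∈ J} = insert (y i0) (y '' {j | j ∈ J'}) := by
      rw [← Set.image_insert_eq]
      congr 1
      ext j
      simp only [Set.mem_ofPred_eq, Set.mem_insert_iff, hJ', Finset.mem_erase]
      constructor
      · intro h
        by_cases hj : j = i0
        · exact Or.inl hj
        · exact Or.inr ⟨hj, h⟩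
      · rintro (h | h)
        · rw [h]; exact hi0
        · exact h.2
    have hsub : ∀ i, lev i ≤ lev i0 → {j | j ∈ J ∧ lev j < lev i} ⊆ {j | j ∈ J'} := by
      intro i hi j hj
      simp only [Set.mem_ofPred_eq, hJ', Finset.mem_erase] at hj ⊢
      refine ⟨?_, hj.1⟩
      rintro rfl
      exact absurd (lt_of_lt_of_le hj.2 hi) (lt_irrefl _)
    have hg' : ∀ i ∈ J', g i ∈ Algebra.adjoin F (side F T PU (pos i) ∪
        y '' {j | j ∈ J' ∧ lev j < lev i}) := by
      intro i hi
      have hiJ : i ∈ J := Finset.mem_of_mem_erase hi
      refine Algebra.adjoin_mono (Set.union_subset_union_right _ (Set.image_mono ?_)) (hg i hiJ)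
      intro j hj
      exact ⟨hsub i (hmax i hiJ) hj, hj.2⟩
    have hg0 : g i0 ∈ Algebra.adjoin F (side F T PU (pos i0) ∪ y '' {j | j ∈ J'}) :=
      Algebra.adjoin_mono (Set.union_subset_union_right _ (Set.image_mono (hsub i0 le_rfl)))
        (hg i0 hi0)
    rw [himg] at hf0
    obtain ⟨α0, hα0, β0, hβ0, h0⟩ := adjoin_insert_sq hsq hf0
    have hf' : ∀ a ∈ used, ∃ α ∈ Algebra.adjoin F (side F T PU a ∪ y '' {j | j ∈ J'}),
        ∃ β ∈ Algebra.adjoin F (side F T PU a ∪ y '' {j | j ∈ J'}), f a = α + β * y i0 := by
      intro a ha
      have h1 := hf a ha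
      rw [himg, Set.union_insert] at h1
      exact adjoin_insert_sq hsq h1
    choose! α hα β hβ hfa using hf'
    -- the bound for the smaller set
    have hcnt : ∀ p, (J'.filter fun i => pos i = p).card ≤ (J.filter fun i => pos i = p).card :=
      fun p => Finset.card_le_card (Finset.filter_subset_filter _ (Finset.erase_subset _ _))
    have E0 := ih J' hcard hg' used α0 α hα0 hα
    by_cases hp0 : pos i0 ∈ used
    · refine (E0.congr fun u v => ?_).mono (Finset.prod_le_prod' fun p _ =>
        Nat.mul_le_mul_left _ (hcnt p))
      have hz : (∏ a ∈ used, τ a) * y i0 u v = 0 := by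
        rw [hy, ← Finset.mul_prod_erase _ _ hp0]
        linear_combination ((∏ a ∈ used.erase (pos i0), τ a) * g i0 u v) * hτ (pos i0)
      have hsq' : y i0 u v * y i0 u v = 0 := congrFun (congrFun hsq u) v
      rw [Finset.prod_congr rfl fun a ha => congrFun (congrFun (hfa a ha) u) v]
      simp only [Pi.add_apply, Pi.mul_apply]
      rw [prod_expand used (fun a => α a u v) (fun a => β a u v) hsq',
        show f0 u v = α0 u v + β0 u v * y i0 u v from congrFun (congrFun h0 u) v]
      refine congrArg Top ?_
      linear_combination (β0 u v * (∏ a ∈ used, α a u v + y i0 u v *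
        ∑ b ∈ used, β b u v * ∏ a ∈ used.erase b, α a u v) +
        α0 u v * ∑ b ∈ used, β b u v * ∏ a ∈ used.erase b, α a u v) * hz
    · -- the new position
      set p0 := pos i0 with hp0d
      have hins : ∀ (f' : P → U → V → T), (∀ a ∈ used, f' a ∈ Algebra.adjoin F
          (side F T PU a ∪ y '' {j | j ∈ J'})) → ∀ f0' ∈ Algebra.adjoin F (y '' {j | j ∈ J'}),
          HasRk (fun u v => Top ((∏ a ∈ used, τ a) * (τ p0 * g i0 u v * f0' u v *
            ∏ a ∈ used, f' a u v)))
            (∏ p ∈ Finset.univ \ insert p0 used,
              (Fintype.card P * (J'.filter fun i => pos i = p).card)) := by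
        intro f' hf' f0' hf0'
        have h1 := ih J' hcard hg' (insert p0 used) f0' (fun a => if a = p0 then g i0 else f' a)
          hf0' (fun a ha => by
            by_cases h : a = p0
            · subst h
              rw [if_pos rfl]
              exact hg0
            · rw [if_neg h]
              exact hf' a (Finset.mem_of_mem_insert_of_ne ha h))
        refine h1.congr fun u v => ?_
        refine congrArg Top ?_
        rw [Finset.prod_insert hp0, Finset.prod_insert hp0, if_pos rfl]
        have h2 : ∏ a ∈ used, (if a = p0 then g i0 else f' a) u v = ∏ a ∈ used, f' a u v := by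
          refine Finset.prod_congr rfl fun a ha => ?_
          have h3 : a ≠ p0 := by
            rintro rfl
            exact hp0 ha
          rw [if_neg h3]
        rw [h2]
        ring
      have Er := hins α hα β0 hβ0
      have Eb : ∀ b ∈ used, HasRk (fun u v => Top ((∏ a ∈ used, τ a) * (τ p0 * g i0 u v * α0 u v *
            (β b u v * ∏ a ∈ used.erase b, α a u v))))
            (∏ p ∈ Finset.univ \ insert p0 used,
              (Fintype.card P * (J'.filter fun i => pos i = p).card)) := by
        intro b hb
        have h1 := hins (fun a => if a = b then β b else α a) (fun a ha => by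
            by_cases h : a = b
            · subst h
              simp only [if_true]
              exact hβ a ha
            · simp only [if_neg h]
              exact hα a ha) α0 hα0
        refine h1.congr fun u v => ?_
        refine congrArg Top ?_
        rw [← Finset.mul_prod_erase used (fun a => (if a = b then β b else α a) u v) hb, if_pos rfl]
        have h2 : ∏ a ∈ used.erase b, (if a = b then β b else α a) u v =
            ∏ a ∈ used.erase b, α a u v := by
          refine Finset.prod_congr rfl fun a ha => ?_
          rw [if_neg (Finset.ne_of_mem_erase ha)]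
        rw [h2]
      have Es := HasRk.sum used Eb
      have Eall := (E0.add Er).add Es
      refine (Eall.congr fun u v => ?_).mono ?_
      · have hsq' : y i0 u v * y i0 u v = 0 := congrFun (congrFun hsq u) v
        rw [← map_add, ← map_sum, ← map_add]
        refine congrArg Top ?_
        rw [Finset.prod_congr rfl fun a ha => congrFun (congrFun (hfa a ha) u) v]
        simp only [Pi.add_apply, Pi.mul_apply]
        rw [prod_expand used (fun a => α a u v) (fun a => β a u v) hsq',
          show f0 u v = α0 u v + β0 u v * y i0 u v from congrFun (congrFun h0 u) v]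
        have h3 : ∑ b ∈ used, (∏ a ∈ used, τ a) * (τ p0 * g i0 u v * α0 u v *
            (β b u v * ∏ a ∈ used.erase b, α a u v)) = (∏ a ∈ used, τ a) * (τ p0 * g i0 u v *
            α0 u v * ∑ b ∈ used, β b u v * ∏ a ∈ used.erase b, α a u v) := by
          rw [Finset.mul_sum, Finset.mul_sum]
        rw [h3]
        have h4 := hy i0 u v
        rw [← hp0d] at h4
        set Sb := ∑ b ∈ used, β b u v * ∏ a ∈ used.erase b, α a u v
        set Pα := ∏ a ∈ used, α a u v
        set Y := y i0 u v
        rw [← h4]
        linear_combination ((∏ a ∈ used, τ a) * β0 u v * Sb) * hsq'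
      · -- the arithmetic
        have hfe : ∀ p, (J'.filter fun i => pos i = p) = (J.filter fun i => pos i = p).erase i0 := by
          intro p
          ext j
          simp only [hJ', Finset.mem_filter, Finset.mem_erase]
          tauto
        have hc0 : (J.filter fun i => pos i = p0).card = (J'.filter fun i => pos i = p0).card + 1 := by
          rw [hfe, Finset.card_erase_of_mem (by rw [Finset.mem_filter]; exact ⟨hi0, rfl⟩)]
          have : 0 < (J.filter fun i => pos i = p0).card :=
            Finset.card_pos.2 ⟨i0, by rw [Finset.mem_filter]; exact ⟨hi0, rfl⟩⟩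
          omega
        have hc1 : ∀ p ∈ Finset.univ \ insert p0 used, (J'.filter fun i => pos i = p).card =
            (J.filter fun i => pos i = p).card := by
          intro p hp
          rw [Finset.mem_sdiff, Finset.mem_insert, not_or] at hp
          congr 1
          rw [hfe, Finset.erase_eq_of_notMem]
          rw [Finset.mem_filter]
          rintro ⟨_, h⟩
          exact hp.2.1 (h ▸ hp0d.symm ▸ rfl)
        have hsd : Finset.univ \ used = insert p0 (Finset.univ \ insert p0 used) := by
          ext a
          simp only [Finset.mem_sdiff, Finset.mem_univ, true_and, Finset.mem_insert, not_or]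
          constructor
          · intro h
            by_cases h1 : a = p0
            · exact Or.inl h1
            · exact Or.inr ⟨h1, h⟩
          · rintro (h | h)
            · rw [h]; exact hp0
            · exact h.2
        have hni : p0 ∉ Finset.univ \ insert p0 used := by simp
        have hu1 : used.card + 1 ≤ Fintype.card P := by
          have h1 := Finset.card_le_univ (insert p0 used)
          rwa [Finset.card_insert_of_notMem hp0] at h1
        rw [hsd, Finset.prod_insert hni, Finset.prod_insert hni, hc0,
          Finset.prod_congr rfl fun p hp => by rw [hc1 p hp], Finset.sum_const, smul_eq_mul]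
        set Q := ∏ p ∈ Finset.univ \ insert p0 used,
          Fintype.card P * (J.filter fun i => pos i = p).card
        calc _ = Fintype.card P * (J'.filter fun i => pos i = p0).card * Q +
              (used.card + 1) * Q := by ring
          _ ≤ Fintype.card P * (J'.filter fun i => pos i = p0).card * Q +
              Fintype.card P * Q := Nat.add_le_add_left (Nat.mul_le_mul_right _ hu1) _
          _ = _ := by ring

end

end Pool.Agent.W942.Ns
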