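import Pool.Agent.W942.Fam

/-!
# Fractional moments of the cost factor of a block
-/

set_option autoImplicit false
set_option maxHeartbeats 1000000

namespace Pool.Agent.W942

open Finset

variable {n : ℕ}

theorem om_le_43 (m a : ℕ) : om m a ≤ 4 / 3 := by
  unfold om
  split_ifs with h h'
  · norm_num
  · have : (1 / 6 : ℝ) ^ (Int.natAbs (2 * a - m)) ≤ 1 := pow_le_one₀ (by norm_num) (by norm_num)
    linarith
  · have h2 : 1 ≤ Int.natAbs (2 * a - m) := by omega
    have h3 : (1 / 6 : ℝ) ^ (Int.natAbs (2 * a - m)) ≤ (1 / 6) ^ 1 :=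
      pow_le_pow_of_le_one (by norm_num) (by norm_num) h2
    linarith

theorem omg_le_43 (R : Finset (Fin n)) (lam : Fin n → SignType) : omg R lam ≤ 4 / 3 :=
  om_le_43 _ _

theorem sum_pow_abs' {y : ℝ} (h0 : 0 ≤ y) (h1 : y ≤ 1) (m : ℕ) :
    (1 - y ^ 2) * ∑ a ∈ Finset.range (m + 1), y ^ (Int.natAbs (2 * a - m)) ≤
      2 - 2 * y ^ (m + 2) := by
  induction m using Nat.strong_induction_on with
  | _ m ih =>
    match m, ih with
    | 0, _ =>
      have : y ^ 2 ≤ 1 := pow_le_one₀ h0 h1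
      simp
      linarith
    | 1, _ =>
      rw [Finset.sum_range_succ, Finset.sum_range_succ]
      have h2 : Int.natAbs (2 * ((0 : ℕ) : ℤ) - ((1 : ℕ) : ℤ)) = 1 := by norm_num
      have h3 : Int.natAbs (2 * ((1 : ℕ) : ℤ) - ((1 : ℕ) : ℤ)) = 1 := by norm_num
      rw [Finset.sum_range_zero, h2, h3]
      have h4 : y ^ (1 + 2) = y * y ^ 2 := by ring
      have h5 : (1 - y ^ 2) * (0 + y ^ 1 + y ^ 1) = 2 * y - 2 * (y * y ^ 2) := by ring
      rw [h4, h5]
      linarith
    | m + 2, ih =>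
      have h1 := ih m (by omega)
      rw [Finset.sum_range_succ, Finset.sum_range_succ']
      have h2 : ∑ k ∈ Finset.range (m + 1), y ^ (Int.natAbs (2 * ((k + 1 : ℕ) : ℤ) -
          ((m + 2 : ℕ) : ℤ))) = ∑ a ∈ Finset.range (m + 1), y ^ (Int.natAbs (2 * a - m)) := by
        refine Finset.sum_congr rfl fun k _ => ?_
        congr 2
        push_cast; ring
      rw [h2]
      have h3 : Int.natAbs (2 * ((0 : ℕ) : ℤ) - ((m + 2 : ℕ) : ℤ)) = m + 2 := by omega
      have h4 : Int.natAbs (2 * ((m + 2 : ℕ) : ℤ) - ((m + 2 : ℕ) : ℤ)) = m + 2 := by omega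
      rw [h3, h4, mul_add, mul_add]
      have h5 : y ^ (m + 2 + 2) = y ^ (m + 2) * y ^ 2 := pow_add _ _ _
      rw [h5]
      linarith

theorem rpow_chord {θ : ℝ} (h0 : 0 ≤ θ) (h1 : θ ≤ 1) :
    35 / 36 * θ ≤ 1 - ((1 / 6 : ℝ) ^ θ) ^ 2 := by
  have h2 : ((1 / 6 : ℝ) ^ θ) ^ 2 = (1 / 36 : ℝ) ^ θ := by
    rw [sq, ← Real.mul_rpow (by norm_num) (by norm_num)]
    norm_num
  rw [h2]
  have h3 := Real.geom_mean_le_arith_mean2_weighted (w₁ := θ) (w₂ := 1 - θ) (p₁ := 1 / 36)
    (p₂ := 1) h0 (by linarith) (by norm_num) (by norm_num) (by ring)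
  rw [Real.one_rpow, mul_one] at h3
  linarith

theorem om_rpow_le {θ : ℝ} (h0 : 0 ≤ θ) (h1 : θ ≤ 1) (m a : ℕ) (ha : a ≤ m) :
    om m a ^ θ ≤ 4 * ((1 / 6 : ℝ) ^ θ) ^ (Int.natAbs (2 * a - m)) := by
  have h2 := Real.rpow_le_rpow (om_nonneg m a) (om_le m a ha) h0
  rw [Real.mul_rpow (by norm_num) (by positivity)] at h2
  have h3 : (4 : ℝ) ^ θ ≤ 4 := by
    calc (4 : ℝ) ^ θ ≤ 4 ^ (1 : ℝ) := Real.rpow_le_rpow_of_exponent_le (by norm_num) h1
      _ = 4 := Real.rpow_one _
  have h4 : ((1 / 6 : ℝ) ^ (Int.natAbs (2 * a - m))) ^ θ =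
      ((1 / 6 : ℝ) ^ θ) ^ (Int.natAbs (2 * a - m)) := by
    rw [← Real.rpow_natCast, ← Real.rpow_natCast, ← Real.rpow_mul (by norm_num),
      ← Real.rpow_mul (by norm_num), mul_comm]
  rw [h4] at h2
  refine h2.trans (mul_le_mul_of_nonneg_right h3 (by positivity))

theorem om_rpow_inner {θ : ℝ} (h0 : 0 < θ) (h1 : θ ≤ 1) (m : ℕ) :
    bin (1 / 2) m (fun a => om m a ^ θ) ≤ (288 / (35 * θ)) * (1 / Real.sqrt (m + 1)) := by
  rw [bin_eq]
  have hs0 : (0 : ℝ) ≤ 1 / Real.sqrt (m + 1) := by positivity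
  set y : ℝ := (1 / 6 : ℝ) ^ θ with hy
  have hy0 : 0 ≤ y := by positivity
  have hy1 : y ≤ 1 := Real.rpow_le_one (by norm_num) (by norm_num) h0.le
  calc ∑ a ∈ Finset.range (m + 1), (m.choose a : ℝ) * (1 / 2) ^ a * (1 - 1 / 2) ^ (m - a) *
        om m a ^ θ
      ≤ ∑ a ∈ Finset.range (m + 1), (1 / Real.sqrt (m + 1)) *
          (4 * y ^ (Int.natAbs (2 * a - m))) := by
        refine Finset.sum_le_sum fun a ha => ?_
        have ha' : a ≤ m := by have := Finset.mem_range.1 ha; omega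
        have h1' : (m.choose a : ℝ) * (1 / 2) ^ a * (1 - 1 / 2) ^ (m - a) =
            (m.choose a : ℝ) * (1 / 2) ^ m := by
          rw [mul_assoc, show (1 - 1 / 2 : ℝ) = 1 / 2 by norm_num, ← pow_add,
            Nat.add_sub_cancel' ha']
        rw [h1']
        exact mul_le_mul (choose_le_div m a) (om_rpow_le h0.le h1 m a ha')
          (Real.rpow_nonneg (om_nonneg _ _) _) hs0
    _ = (1 / Real.sqrt (m + 1)) * (4 * ∑ a ∈ Finset.range (m + 1),
          y ^ (Int.natAbs (2 * a - m))) := by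
        rw [Finset.mul_sum, Finset.mul_sum]
    _ ≤ (1 / Real.sqrt (m + 1)) * (288 / (35 * θ)) := by
        refine mul_le_mul_of_nonneg_left ?_ hs0
        have h2 := sum_pow_abs' hy0 hy1 m
        have h3 := rpow_chord h0.le h1
        rw [← hy] at h3
        have h4 : (0 : ℝ) ≤ y ^ (m + 2) := by positivity
        have h5 : (0 : ℝ) ≤ ∑ a ∈ Finset.range (m + 1), y ^ (Int.natAbs (2 * a - m)) :=
          Finset.sum_nonneg fun _ _ => by positivity
        rw [le_div_iff₀ (by positivity)]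
        nlinarith
    _ = _ := by ring

theorem ex_omg_rpow {θ : ℝ} (h0 : 0 < θ) (h1 : θ ≤ 1) (R : Finset (Fin n)) :
    ex (fun lam => omg R lam ^ θ) ≤ 35 / (θ * Real.sqrt (R.card + 1)) := by
  have h := ex_stats R (fun m a => om m a ^ θ)
  unfold omg
  rw [h]
  have h2 : bin (1 / 18) R.card (fun m => bin (1 / 2) m (fun a => om m a ^ θ)) ≤
      bin (1 / 18) R.card (fun m => (288 / (35 * θ)) * (1 / Real.sqrt (m + 1))) :=
    bin_mono (by norm_num) (by norm_num) _ fun m _ => om_rpow_inner h0 h1 m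
  rw [bin_mul] at h2
  have h3 := bin_inv_sqrt_le (p := 1 / 18) (by norm_num) (by norm_num) R.card
  have h4 : (0 : ℝ) < (R.card : ℝ) + 1 := by positivity
  have h5 : (288 / (35 * θ)) * (1 / Real.sqrt ((R.card + 1) * (1 / 18))) ≤
      35 / (θ * Real.sqrt (R.card + 1)) := by
    rw [Real.sqrt_mul h4.le]
    have h6 : 288 / 35 ≤ 35 * Real.sqrt (1 / 18) := by
      have : (288 / 1225 : ℝ) ≤ Real.sqrt (1 / 18) := Real.le_sqrt_of_sq_le (by norm_num)
      linarith
    have h7 : 0 < Real.sqrt ((R.card : ℝ) + 1) := Real.sqrt_pos.2 h4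
    have h8 : 0 < Real.sqrt (1 / 18 : ℝ) := Real.sqrt_pos.2 (by norm_num)
    rw [div_mul_div_comm, div_le_div_iff₀ (by positivity) (by positivity)]
    have h9 : 0 < θ * Real.sqrt ((R.card : ℝ) + 1) := by positivity
    nlinarith
  refine h2.trans (le_trans ?_ h5)
  exact mul_le_mul_of_nonneg_left h3 (by positivity)

/-- Jensen's inequality. -/
theorem ex_rpow_le {X : (Fin n → SignType) → ℝ} (hX : ∀ lam, 0 ≤ X lam) {θ θ' : ℝ} (h0 : 0 < θ)
    (h1 : θ ≤ θ') : ex (fun lam => X lam ^ θ) ≤ (ex (fun lam => X lam ^ θ')) ^ (θ / θ') := by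
  have h2 : 0 < θ' := by linarith
  have h := Real.arith_mean_le_rpow_mean (Finset.univ : Finset (Fin n → SignType))
    (fun lam => ∏ i, wt (lam i)) (fun lam => X lam ^ θ)
    (fun lam _ => Finset.prod_nonneg fun _ _ => wt_nonneg _) (sum_prod_wt (Fin n))
    (fun lam _ => Real.rpow_nonneg (hX lam) _) (p := θ' / θ) ((one_le_div h0).2 h1)
  unfold ex
  refine h.trans (le_of_eq ?_)
  rw [one_div_div]
  congr 1
  refine Finset.sum_congr rfl fun lam _ => ?_
  rw [← Real.rpow_mul (hX lam), mul_div_cancel₀ _ h0.ne']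

/-- The parameters: the exponent of the moment, -/
noncomputable def th (z : ℕ) : ℝ := 81 / Real.sqrt z

/-- and the rate. -/
noncomputable def rh (z : ℕ) : ℝ := 1 / (8 * z)

theorem sqrt_z {z : ℕ} (hz : 10 ^ 6 ≤ z) : (1000 : ℝ) ≤ Real.sqrt z := by
  refine Real.le_sqrt_of_sq_le ?_
  have : ((10 ^ 6 : ℕ) : ℝ) ≤ z := by exact_mod_cast hz
  norm_num at this ⊢
  exact this

theorem th_pos {z : ℕ} (hz : 10 ^ 6 ≤ z) : 0 < th z := by
  have := sqrt_z hz
  unfold th
  positivity

theorem th_le {z : ℕ} (hz : 10 ^ 6 ≤ z) : th z ≤ 81 / 1000 := by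
  have := sqrt_z hz
  unfold th
  exact div_le_div_of_nonneg_left (by norm_num) (by norm_num) this

/-- The fractional moment of the cost factor of a small block. -/
theorem frac_moment {z : ℕ} (hz : 10 ^ 6 ≤ z) (R : Finset (Fin n)) (hR : R.card < z) :
    ex (fun lam => omg R lam ^ th z) ≤ Real.exp (-(2 * rh z * R.card)) := by
  have hs := sqrt_z hz
  have hth := th_pos hz
  have hth1 := th_le hz
  have hz0 : (0 : ℝ) < z := by
    have : 0 < z := by omega
    exact_mod_cast this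
  have hss : Real.sqrt z * Real.sqrt z = z := Real.mul_self_sqrt hz0.le
  set t := R.card with ht
  set r := Real.sqrt z with hr
  have hrpos : 0 < r := by linarith
  have hrate : ∀ t : ℝ, 2 * rh z * t = t / (4 * z) := by
    intro t
    unfold rh
    field_simp
    ring
  -- Jensen with exponent one
  have hpsi : ex (fun lam => omg R lam ^ th z) ≤ psi t ^ th z := by
    have h := ex_rpow_le (X := omg R) (omg_nonneg R) hth (θ' := 1) (by linarith)
    simp only [Real.rpow_one, div_one] at h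
    have h2 : ex (fun lam => omg R lam) = psi t := ex_omg R
    rw [h2] at h
    exact h
  have hthr : th z * r = 81 := by
    unfold th
    rw [← hr]
    field_simp
  have hthz : th z = 81 * r / z := by
    rw [eq_div_iff hz0.ne', ← hss, ← mul_assoc, hthr]
  rcases Nat.eq_zero_or_pos t with h0 | hpos
  · rw [h0] at hpsi ⊢
    rw [psi_zero, Real.one_rpow] at hpsi
    refine hpsi.trans ?_
    simp
  rw [hrate]
  by_cases h1 : t ≤ 2000
  · -- small blocks
    refine hpsi.trans ?_
    have h2 : psi t ≤ Real.exp (-(1 / 162)) := by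
      refine (psi_le_one t (by omega)).trans ?_
      have := Real.add_one_le_exp (-(1 / 162) : ℝ)
      linarith
    refine (Real.rpow_le_rpow (psi_nonneg t) h2 hth.le).trans ?_
    rw [← Real.exp_mul, Real.exp_le_exp]
    have h3 : (t : ℝ) ≤ 2000 := by exact_mod_cast h1
    have h4 : (t : ℝ) / (4 * z) ≤ th z / 162 := by
      rw [hthz, div_div, div_le_div_iff₀ (by positivity) (by positivity)]
      have : (t : ℝ) * (z * 162) ≤ 81 * r * (4 * z) := by
        have : (t : ℝ) * 162 ≤ 81 * r * 4 := by nlinarith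
        nlinarith
      exact this
    linarith
  by_cases h1' : t ≤ 9215
  · -- middle blocks
    refine hpsi.trans ?_
    have h2 : psi t ≤ 34 / 44 := by
      refine (psi_le_sqrt t).trans ?_
      refine div_le_div_of_nonneg_left (by norm_num) (by norm_num) ?_
      refine Real.le_sqrt_of_sq_le ?_
      have : (2001 : ℝ) ≤ t := by
        have : 2001 ≤ t := by omega
        exact_mod_cast this
      norm_num
      linarith
    have h3 : (34 / 44 : ℝ) ≤ Real.exp (-(5 / 22)) := by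
      have := Real.add_one_le_exp (-(5 / 22) : ℝ)
      linarith
    refine (Real.rpow_le_rpow (psi_nonneg t) (h2.trans h3) hth.le).trans ?_
    rw [← Real.exp_mul, Real.exp_le_exp]
    have h3 : (t : ℝ) ≤ 9215 := by exact_mod_cast h1'
    have h4 : (t : ℝ) / (4 * z) ≤ th z * (5 / 22) := by
      rw [hthz, div_mul_eq_mul_div, div_le_div_iff₀ (by positivity) (by positivity)]
      have : (t : ℝ) ≤ 81 * r * (5 / 22) * 4 := by nlinarith
      nlinarith
    linarith
  · -- large blocks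
    have hT : (9216 : ℝ) ≤ (t : ℝ) + 1 := by
      have : 9216 ≤ t := by omega
      have h : ((9216 : ℕ) : ℝ) ≤ t := by exact_mod_cast this
      push_cast at h
      linarith
    set q := Real.sqrt ((t : ℝ) + 1) with hq
    have hq96 : 96 ≤ q := Real.le_sqrt_of_sq_le (by norm_num; linarith)
    have hqq : q * q = (t : ℝ) + 1 := Real.mul_self_sqrt (by linarith)
    have hqr : q ≤ r := by
      refine Real.sqrt_le_sqrt ?_
      have : t + 1 ≤ z := hR
      exact_mod_cast this
    have hq0 : 0 < q := by linarith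
    set θ' : ℝ := 96 / q with hθ'
    have h2 : θ' ≤ 1 := (div_le_one hq0).2 hq96
    have h3 : 0 < θ' := by positivity
    have h4 : th z ≤ θ' := by
      unfold th
      rw [hθ', ← hr]
      exact div_le_div₀ (by norm_num) (by norm_num) hq0 hqr
    have h5 := ex_rpow_le (X := omg R) (omg_nonneg R) hth h4
    have h6 : ex (fun lam => omg R lam ^ θ') ≤ Real.exp (-1) := by
      refine (ex_omg_rpow h3 h2 R).trans ?_
      rw [← ht, ← hq, hθ', div_mul_cancel₀ _ hq0.ne']
      have := Real.exp_one_lt_d9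
      have he : (0 : ℝ) < Real.exp 1 := Real.exp_pos 1
      rw [Real.exp_neg, div_le_iff₀ (by norm_num), ← div_eq_inv_mul, le_div_iff₀ he]
      linarith
    have h7 : 0 ≤ ex (fun lam => omg R lam ^ θ') :=
      ex_nonneg fun lam => Real.rpow_nonneg (omg_nonneg R lam) _
    refine h5.trans ((Real.rpow_le_rpow h7 h6 (by positivity)).trans ?_)
    rw [← Real.exp_mul, Real.exp_le_exp]
    have h8 : (t : ℝ) / (4 * z) ≤ th z / θ' := by
      rw [hθ', hthz, div_div_eq_mul_div, div_mul_eq_mul_div, div_div,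
        div_le_div_iff₀ (by positivity) (by positivity)]
      have h9 : (t : ℝ) ≤ q * r := by nlinarith
      have h10 : (t : ℝ) * 96 ≤ 81 * r * q * 4 := by nlinarith
      nlinarith
    linarith

end Pool.Agent.W942
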