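import Pool.Agent.W942.Glynn

/-!
# A family of matrices with entries `0, 1, -1` whose permanents form a monomial matrix
-/

set_option autoImplicit false

namespace Pool.Agent.W942

open Finset

/-- Positions in a block: eighteen pairs. -/
abbrev Pos : Type := Fin 18 × Bool

/-- Rows and columns: `k` blocks and a rest. -/
abbrev Idx (k : ℕ) (ρ : Type*) : Type _ := (Fin k × Pos) ⊕ ρ

/-- In every block: a unit row at position `a b`, a unit row at position `a' b`, and for the pairs
`j ≠ 0` the rows `s j + s 0`, `s j - s 0`, where `s j` is the sum of the two columns of the pair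
`j`. -/
def Ymat {k : ℕ} {ρ : Type*} [DecidableEq ρ] (a a' : Fin k → Pos) :
    Matrix (Idx k ρ) (Idx k ρ) ℤ := fun x c =>
  match x with
  | Sum.inr y => if c = Sum.inr y then 1 else 0
  | Sum.inl (b, (j, s)) =>
    if j = 0 then (if c = Sum.inl (b, if s then a' b else a b) then 1 else 0)
    else (if c = Sum.inl (b, (j, false)) ∨ c = Sum.inl (b, (j, true)) then 1
      else if c = Sum.inl (b, (0, false)) ∨ c = Sum.inl (b, (0, true)) then (if s then -1 else 1)
      else 0)

theorem Ymat_entries {k : ℕ} {ρ : Type*} [DecidableEq ρ] (a a' : Fin k → Pos) (x c : Idx k ρ) :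
    Ymat a a' x c = -1 ∨ Ymat a a' x c = 0 ∨ Ymat a a' x c = 1 := by
  unfold Ymat
  rcases x with ⟨b, j, s⟩ | y
  · simp only
    split_ifs <;> simp
  · simp only
    split_ifs <;> simp

/-- The value of a block. -/
def mz (p p' : Pos) : ℤ :=
  if p.1 = p'.1 ∧ p.2 ≠ p'.2 then (if p.1 = 0 then 2 ^ 17 else -2 ^ 17) else 0

/-- The factor of a pair. -/
noncomputable def hv (e : Bool) (j : Fin 18) (p p' : Pos) (s t : Bool) : ℝ :=
  (if j = 0 then sg s * sg t * ((1 + sg e * (sg s * sg t)) / 2)
    else 2 * (1 - sg e * (sg s * sg t))) *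
  ((if p.1 = j then (if p.2 then sg t else sg s) else 1) *
   (if p'.1 = j then (if p'.2 then sg t else sg s) else 1))

/-- The expected factor of a pair. -/
noncomputable def ev (e : Bool) (j : Fin 18) (p p' : Pos) : ℝ :=
  (hv e j p p' true true + hv e j p p' true false + hv e j p p' false true +
    hv e j p p' false false) / 4

theorem ev_val (e : Bool) (j : Fin 18) (p p' : Pos) : ev e j p p' =
    if j = 0 then (if p.1 = j then (if p'.1 = j then (if p.2 = p'.2 then sg e / 2 else 1 / 2)
      else 0) else (if p'.1 = j then 0 else sg e / 2))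
    else (if p.1 = j then (if p'.1 = j then (if p.2 = p'.2 then 2 else -2 * sg e) else 0)
      else (if p'.1 = j then 0 else 2)) := by
  unfold ev hv
  obtain ⟨p1, p2⟩ := p
  obtain ⟨q1, q2⟩ := p'
  by_cases h0 : j = 0
  · subst h0
    by_cases h1 : p1 = 0
    · by_cases h2 : q1 = 0
      · cases p2 <;> cases q2 <;> cases e <;> simp [h1, h2, sg] <;> norm_num
      · cases p2 <;> cases q2 <;> cases e <;> simp [h1, h2, sg] <;> norm_num
    · by_cases h2 : q1 = 0
      · cases p2 <;> cases q2 <;> cases e <;> simp [h1, h2, sg] <;> norm_num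
      · cases p2 <;> cases q2 <;> cases e <;> simp [h1, h2, sg] <;> norm_num
  · by_cases h1 : p1 = j
    · by_cases h2 : q1 = j
      · cases p2 <;> cases q2 <;> cases e <;> simp [h0, h1, h2, sg] <;> norm_num
      · cases p2 <;> cases q2 <;> cases e <;> simp [h0, h1, h2, sg] <;> norm_num
    · by_cases h2 : q1 = j
      · cases p2 <;> cases q2 <;> cases e <;> simp [h0, h1, h2, sg] <;> norm_num
      · cases p2 <;> cases q2 <;> cases e <;> simp [h0, h1, h2, sg] <;> norm_num

theorem mm_val (p p' : Pos) : ∑ e : Bool, ∏ j, ev e j p p' = (mz p p' : ℝ) := by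
  obtain ⟨p1, p2⟩ := p
  obtain ⟨q1, q2⟩ := p'
  unfold mz
  simp only
  by_cases h1 : p1 = q1
  · subst h1
    by_cases h2 : p2 = q2
    · -- equal positions
      rw [if_neg (by simp [h2])]
      have h3 : ∀ e : Bool, ∏ j, ev e j (p1, p2) (p1, q2) = sg e / 2 * 2 ^ 17 := by
        intro e
        rw [Fin.prod_univ_succ]
        congr 1
        · rw [ev_val]
          by_cases h0 : p1 = 0 <;> simp [h0, h2]
        · rw [Finset.prod_congr rfl (g := fun _ => (2 : ℝ))]
          · simp
          · intro i _
            rw [ev_val]
            by_cases h0 : p1 = i.succ <;> simp [h0, h2]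
      rw [Fintype.sum_bool, h3, h3]
      simp [sg]
      norm_num
    · rw [if_pos ⟨rfl, h2⟩]
      by_cases h0 : p1 = 0
      · subst h0
        have h3 : ∀ e : Bool, ∏ j, ev e j (0, p2) (0, q2) = 1 / 2 * 2 ^ 17 := by
          intro e
          rw [Fin.prod_univ_succ]
          congr 1
          · rw [ev_val]
            simp [h2]
          · rw [Finset.prod_congr rfl (g := fun _ => (2 : ℝ))]
            · simp
            · intro i _
              rw [ev_val]
              simp [(Fin.succ_ne_zero i).symm]
        rw [Fintype.sum_bool, h3, h3]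
        norm_num
      · have h3 : ∀ e : Bool, ∏ j, ev e j (p1, p2) (p1, q2) = sg e / 2 * (-2 * sg e * 2 ^ 16) := by
          intro e
          rw [Fin.prod_univ_succ]
          congr 1
          · rw [ev_val]
            simp [h0]
          · obtain ⟨i0, hi0⟩ := Fin.exists_succ_eq.2 h0
            rw [← Finset.mul_prod_erase _ _ (Finset.mem_univ i0)]
            congr 1
            · rw [ev_val]
              simp [hi0, h2, h0]
            · rw [Finset.prod_congr rfl (g := fun _ => (2 : ℝ))]
              · simp
              · intro i hi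
                have h4 : p1 ≠ i.succ := by
                  intro h
                  rw [← hi0] at h
                  exact (Finset.ne_of_mem_erase hi) (Fin.succ_injective _ h).symm
                rw [ev_val]
                simp [h4]
        rw [Fintype.sum_bool, h3, h3, if_neg h0]
        simp [sg]
        norm_num
  · rw [if_neg (by tauto)]
    have h3 : ∀ e : Bool, ∏ j, ev e j (p1, p2) (q1, q2) = 0 := by
      intro e
      refine Finset.prod_eq_zero (Finset.mem_univ p1) ?_
      rw [ev_val]
      simp [Ne.symm h1]
    rw [Fintype.sum_bool, h3, h3]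
    simp

end Pool.Agent.W942
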