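import Pool.Agent.W942.PerA

/-!
# The permanent of `Ymat`
-/

set_option autoImplicit false

namespace Pool.Agent.W942

open Finset

theorem permanent_map' {ι R S : Type*} [Fintype ι] [DecidableEq ι] [CommRing R] [CommRing S]
    (f : R →+* S) (M : Matrix ι ι R) : (M.map f).permanent = f M.permanent := by
  simp [Matrix.permanent, map_sum, map_prod]

theorem permanent_submatrix_equiv {ι κ R : Type*} [Fintype ι] [DecidableEq ι] [Fintype κ]
    [DecidableEq κ] [CommRing R] (M : Matrix ι ι R) (r c : κ ≃ ι) :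
    (M.submatrix r c).permanent = M.permanent := by
  unfold Matrix.permanent
  rw [← (Equiv.equivCongr c r).sum_comp]
  refine Finset.sum_congr rfl fun σ _ => ?_
  rw [← c.prod_comp]
  refine Finset.prod_congr rfl fun i _ => ?_
  simp [Equiv.equivCongr]

variable {k : ℕ} {ρ : Type*} [Fintype ρ] [DecidableEq ρ]

theorem sum_two_pairs {ι : Type*} [Fintype ι] [DecidableEq ι] (x1 x2 x3 x4 : ι) (h12 : x1 ≠ x2)
    (h13 : x1 ≠ x3) (h14 : x1 ≠ x4) (h23 : x2 ≠ x3) (h24 : x2 ≠ x4) (h34 : x3 ≠ x4) (e : ℤ)
    (f : ι → ℝ) :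
    ∑ c, (((if c = x1 ∨ c = x2 then 1 else if c = x3 ∨ c = x4 then e else 0 : ℤ)) : ℝ) * f c =
      f x1 + f x2 + e * (f x3 + f x4) := by
  have h : ∀ c, (((if c = x1 ∨ c = x2 then 1 else if c = x3 ∨ c = x4 then e else 0 : ℤ)) : ℝ) * f c
      = (if c = x1 then f c else 0) + (if c = x2 then f c else 0) +
        (e * (if c = x3 then f c else 0) + e * (if c = x4 then f c else 0)) := by
    intro c
    by_cases h1 : c = x1
    · subst h1
      simp [h12, h13, h14]
    · by_cases h2 : c = x2
      · subst h2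
        simp [Ne.symm h12, h23, h24]
      · by_cases h3 : c = x3
        · subst h3
          simp [Ne.symm h13, Ne.symm h23, h34]
        · by_cases h4 : c = x4
          · subst h4
            simp [Ne.symm h14, Ne.symm h24, Ne.symm h34]
          · simp [h1, h2, h3, h4]
  rw [Finset.sum_congr rfl fun c _ => h c, Finset.sum_add_distrib, Finset.sum_add_distrib,
    Finset.sum_add_distrib, ← Finset.mul_sum, ← Finset.mul_sum]
  simp
  ring

theorem Ymat_row_inr (a a' : Fin k → Pos) (y : ρ) (d : Idx k ρ → Bool) :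
    ∑ c, (Ymat a a' (Sum.inr y) c : ℝ) * sg (d c) = sg (d (Sum.inr y)) := by
  simp [Ymat]

theorem Ymat_row_zero (a a' : Fin k → Pos) (b : Fin k) (s : Bool) (d : Idx k ρ → Bool) :
    ∑ c, (Ymat a a' (Sum.inl (b, (0, s))) c : ℝ) * sg (d c) =
      sg (d (Sum.inl (b, if s then a' b else a b))) := by
  simp only [Ymat, if_true]
  simp only [Int.cast_ite, Int.cast_one, Int.cast_zero, ite_mul, one_mul, zero_mul]
  rw [Finset.sum_ite_eq' Finset.univ]
  simp

theorem Ymat_row_pair (a a' : Fin k → Pos) (b : Fin k) (j : Fin 18) (hj : j ≠ 0) (s : Bool)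
    (d : Idx k ρ → Bool) :
    ∑ c, (Ymat a a' (Sum.inl (b, (j, s))) c : ℝ) * sg (d c) =
      sg (d (Sum.inl (b, (j, false)))) + sg (d (Sum.inl (b, (j, true)))) +
      (if s then -1 else 1) * (sg (d (Sum.inl (b, (0, false)))) + sg (d (Sum.inl (b, (0, true))))) := by
  simp only [Ymat, if_neg hj]
  have h := sum_two_pairs (Sum.inl (b, (j, false)) : Idx k ρ) (Sum.inl (b, (j, true)))
    (Sum.inl (b, (0, false))) (Sum.inl (b, (0, true))) (by simp) (by simp [hj]) (by simp)
    (by simp) (by simp [hj]) (by simp) (if s then -1 else 1) (fun c => sg (d c))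
  rw [h]
  cases s <;> simp

theorem hv_zero_prod (p p' : Pos) (D : Fin 18 → Bool → Bool) :
    ∑ e : Bool, ∏ j, hv e j p p' (D j false) (D j true) =
      (sg (D 0 false) * sg (D 0 true)) * ((sg (D p.1 p.2)) * (sg (D p'.1 p'.2))) *
        ∏ j ∈ Finset.univ.erase (0 : Fin 18),
          (2 * (1 - (sg (D 0 false) * sg (D 0 true)) * (sg (D j false) * sg (D j true)))) := by
  have h1 : ∀ (e : Bool), ∏ j, hv e j p p' (D j false) (D j true) =
      (sg (D 0 false) * sg (D 0 true) * ((1 + sg e * (sg (D 0 false) * sg (D 0 true))) / 2)) *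
      (∏ j ∈ Finset.univ.erase (0 : Fin 18),
        (2 * (1 - sg e * (sg (D j false) * sg (D j true))))) *
      ((sg (D p.1 p.2)) * (sg (D p'.1 p'.2))) := by
    intro e
    unfold hv
    rw [Finset.prod_mul_distrib, Finset.prod_mul_distrib]
    have h2 : ∀ p : Pos, ∏ j, (if p.1 = j then (if p.2 then sg (D j true) else sg (D j false))
        else 1) = sg (D p.1 p.2) := by
      intro p
      rw [Finset.prod_ite_eq Finset.univ p.1 (fun j => if p.2 then sg (D j true) else sg (D j false))]
      simp only [Finset.mem_univ, if_true]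
      cases h : p.2 <;> simp
    rw [h2, h2, ← Finset.mul_prod_erase _ _ (Finset.mem_univ (0 : Fin 18)), if_pos rfl]
    have h3 : ∏ j ∈ Finset.univ.erase (0 : Fin 18), (if j = 0 then
        sg (D j false) * sg (D j true) * ((1 + sg e * (sg (D j false) * sg (D j true))) / 2)
        else 2 * (1 - sg e * (sg (D j false) * sg (D j true)))) =
        ∏ j ∈ Finset.univ.erase (0 : Fin 18),
          (2 * (1 - sg e * (sg (D j false) * sg (D j true)))) :=
      Finset.prod_congr rfl fun j hj => by rw [if_neg (Finset.ne_of_mem_erase hj)]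
    rw [h3]
  rw [Fintype.sum_bool, h1, h1]
  have h3 : sg (D 0 false) * sg (D 0 true) = 1 ∨ sg (D 0 false) * sg (D 0 true) = -1 := by
    cases D 0 false <;> cases D 0 true <;> simp [sg]
  have ht : sg true = 1 := by simp [sg]
  have hf : sg false = -1 := by simp [sg]
  rcases h3 with h3 | h3
  · rw [h3, ht, hf]
    ring
  · rw [h3, ht, hf]
    ring

theorem permanent_Ymat (a a' : Fin k → Pos) :
    (Ymat (ρ := ρ) a a').permanent = ∏ b, mz (a b) (a' b) := by
  have hreal : ((Ymat (ρ := ρ) a a').map (Int.castRingHom ℝ)).permanent =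
      ∏ b, (mz (a b) (a' b) : ℝ) := by
    rw [permanent_eq_es]
    have h1 : ∀ d : Idx k ρ → Bool, ∏ x, (sg (d x) * ∑ c, ((Ymat (ρ := ρ) a a').map
        (Int.castRingHom ℝ)) x c * sg (d c)) = ∏ b : Fin k, ∑ e : Bool, ∏ j, hv e j (a b) (a' b)
          (d (Sum.inl (b, (j, false)))) (d (Sum.inl (b, (j, true)))) := by
      intro d
      simp only [Matrix.map_apply, eq_intCast]
      rw [Fintype.prod_sum_type]
      have h2 : ∏ y : ρ, (sg (d (Sum.inr y)) * ∑ c, (Ymat (ρ := ρ) a a' (Sum.inr y) c : ℝ) *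
          sg (d c)) = 1 := by
        refine Finset.prod_eq_one fun y _ => ?_
        rw [Ymat_row_inr, sg_sq]
      rw [h2, mul_one, Fintype.prod_prod_type]
      refine Finset.prod_congr rfl fun b _ => ?_
      rw [hv_zero_prod (a b) (a' b) (fun j s => d (Sum.inl (b, (j, s))))]
      rw [Fintype.prod_prod_type, ← Finset.mul_prod_erase _ _ (Finset.mem_univ (0 : Fin 18))]
      congr 1
      · rw [Fintype.prod_bool, Ymat_row_zero, Ymat_row_zero]
        simp
        ring
      · refine Finset.prod_congr rfl fun j hj => ?_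
        rw [Fintype.prod_bool, Ymat_row_pair _ _ _ _ (Finset.ne_of_mem_erase hj),
          Ymat_row_pair _ _ _ _ (Finset.ne_of_mem_erase hj)]
        have e1 := sg_sq (d (Sum.inl (b, (j, false))))
        have e2 := sg_sq (d (Sum.inl (b, (j, true))))
        have e3 := sg_sq (d (Sum.inl (b, ((0 : Fin 18), false))))
        have e4 := sg_sq (d (Sum.inl (b, ((0 : Fin 18), true))))
        simp only [if_true]
        set x := sg (d (Sum.inl (b, (j, false))))
        set y := sg (d (Sum.inl (b, (j, true))))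
        set z := sg (d (Sum.inl (b, ((0 : Fin 18), false))))
        set w := sg (d (Sum.inl (b, ((0 : Fin 18), true))))
        have h5 : (y * (x + y + -1 * (z + w)) * (x * (x + y + 1 * (z + w)))) =
          x * y * (x * x + y * y + 2 * (x * y) - z * z - w * w - 2 * (z * w)) := by ring
        have h6 : (if (false = true) then (-1 : ℝ) else 1) = 1 := by simp
        rw [h6, h5, e1, e2, e3, e4]
        have h7 : x * y * (1 + 1 + 2 * (x * y) - 1 - 1 - 2 * (z * w)) =
          2 * ((x * x) * (y * y) - z * w * (x * y)) := by ring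
        rw [h7, e1, e2]
        ring
    simp only [h1]
    have h3 := es_prod (ι := Idx k ρ) (Finset.univ : Finset (Fin k))
      (fun b => Finset.univ.filter fun x : Idx k ρ => ∃ p, x = Sum.inl (b, p))
      (fun b _ b' _ hbb => by
        rw [Finset.disjoint_left]
        intro x hx hx'
        obtain ⟨p, hp⟩ := (Finset.mem_filter.1 hx).2
        obtain ⟨p', hp'⟩ := (Finset.mem_filter.1 hx').2
        rw [hp] at hp'
        exact hbb (congrArg Prod.fst (Sum.inl_injective hp')))
      (fun b d => ∑ e : Bool, ∏ j, hv e j (a b) (a' b)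
          (d (Sum.inl (b, (j, false)))) (d (Sum.inl (b, (j, true)))))
      (fun b _ d d' h => by
        refine Finset.sum_congr rfl fun e _ => Finset.prod_congr rfl fun j _ => ?_
        rw [h _ (Finset.mem_filter.2 ⟨Finset.mem_univ _, _, rfl⟩),
          h _ (Finset.mem_filter.2 ⟨Finset.mem_univ _, _, rfl⟩)])
    rw [h3]
    refine Finset.prod_congr rfl fun b _ => ?_
    rw [es_sum, ← mm_val]
    refine Finset.sum_congr rfl fun e _ => ?_
    have h4 := es_prod (ι := Idx k ρ) (Finset.univ : Finset (Fin 18))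
      (fun j => Finset.univ.filter fun x : Idx k ρ => ∃ s, x = Sum.inl (b, (j, s)))
      (fun j _ j' _ hjj => by
        rw [Finset.disjoint_left]
        intro x hx hx'
        obtain ⟨p, hp⟩ := (Finset.mem_filter.1 hx).2
        obtain ⟨p', hp'⟩ := (Finset.mem_filter.1 hx').2
        rw [hp] at hp'
        exact hjj (congrArg (fun z => z.2.1) (Sum.inl_injective hp')))
      (fun j d => hv e j (a b) (a' b) (d (Sum.inl (b, (j, false)))) (d (Sum.inl (b, (j, true)))))
      (fun j _ d d' h => by
        have k1 := h (Sum.inl (b, (j, false))) (Finset.mem_filter.2 ⟨Finset.mem_univ _, _, rfl⟩)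
        have k2 := h (Sum.inl (b, (j, true))) (Finset.mem_filter.2 ⟨Finset.mem_univ _, _, rfl⟩)
        simp only [k1, k2])
    rw [h4]
    refine Finset.prod_congr rfl fun j _ => ?_
    exact es_two (Sum.inl (b, (j, false)) : Idx k ρ) (Sum.inl (b, (j, true))) (by simp)
      (fun s t => hv e j (a b) (a' b) s t)
  rw [permanent_map'] at hreal
  have h5 : ((Ymat (ρ := ρ) a a').permanent : ℝ) = ((∏ b, mz (a b) (a' b) : ℤ) : ℝ) := by
    rw [Int.cast_prod, ← hreal]
    rfl
  exact_mod_cast h5

end Pool.Agent.W942
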