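import Pool.Agent.W942.PerB

/-!
# A family of matrices with entries `0, 1, -1` whose permanents form a monomial matrix

The version with blocks of `h + 1` pairs.
-/

set_option autoImplicit false
set_option maxHeartbeats 1000000

namespace Pool.Agent.W942.G

open Finset

/-- Positions in a block: `h + 1` pairs. -/
abbrev Pos (h : ℕ) : Type := Fin (h + 1) × Bool

/-- Rows and columns: `k` blocks and a rest. -/
abbrev Idx (h k : ℕ) (ρ : Type*) : Type _ := (Fin k × Pos h) ⊕ ρ

/-- In every block: a unit row at position `a b`, a unit row at position `a' b`, and for the pairs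
`j ≠ 0` the rows `s j + s 0`, `s j - s 0`, where `s j` is the sum of the two columns of the pair
`j`. -/
def Ymat {h k : ℕ} {ρ : Type*} [DecidableEq ρ] (a a' : Fin k → Pos h) :
    Matrix (Idx h k ρ) (Idx h k ρ) ℤ := fun x c =>
  match x with
  | Sum.inr y => if c = Sum.inr y then 1 else 0
  | Sum.inl (b, (j, s)) =>
    if j = 0 then (if c = Sum.inl (b, if s then a' b else a b) then 1 else 0)
    else (if c = Sum.inl (b, (j, false)) ∨ c = Sum.inl (b, (j, true)) then 1
      else if c = Sum.inl (b, (0, false)) ∨ c = Sum.inl (b, (0, true)) then (if s then -1 else 1)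
      else 0)

theorem Ymat_entries {h k : ℕ} {ρ : Type*} [DecidableEq ρ] (a a' : Fin k → Pos h) (x c : Idx h k ρ) :
    Ymat a a' x c = -1 ∨ Ymat a a' x c = 0 ∨ Ymat a a' x c = 1 := by
  unfold Ymat
  rcases x with ⟨b, j, s⟩ | y
  · simp only
    split_ifs <;> simp
  · simp only
    split_ifs <;> simp

/-- The value of a block. -/
def mz {h : ℕ} (p p' : Pos h) : ℤ :=
  if p.1 = p'.1 ∧ p.2 ≠ p'.2 then (if p.1 = 0 then 2 ^ h else -2 ^ h) else 0

/-- The factor of a pair. -/
noncomputable def hv {h : ℕ} (e : Bool) (j : Fin (h + 1)) (p p' : Pos h) (s t : Bool) : ℝ :=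
  (if j = 0 then sg s * sg t * ((1 + sg e * (sg s * sg t)) / 2)
    else 2 * (1 - sg e * (sg s * sg t))) *
  ((if p.1 = j then (if p.2 then sg t else sg s) else 1) *
   (if p'.1 = j then (if p'.2 then sg t else sg s) else 1))

/-- The expected factor of a pair. -/
noncomputable def ev {h : ℕ} (e : Bool) (j : Fin (h + 1)) (p p' : Pos h) : ℝ :=
  (hv e j p p' true true + hv e j p p' true false + hv e j p p' false true +
    hv e j p p' false false) / 4

theorem ev_val {h : ℕ} (e : Bool) (j : Fin (h + 1)) (p p' : Pos h) : ev e j p p' =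
    if j = 0 then (if p.1 = j then (if p'.1 = j then (if p.2 = p'.2 then sg e / 2 else 1 / 2)
      else 0) else (if p'.1 = j then 0 else sg e / 2))
    else (if p.1 = j then (if p'.1 = j then (if p.2 = p'.2 then 2 else -2 * sg e) else 0)
      else (if p'.1 = j then 0 else 2)) := by
  unfold ev hv
  obtain ⟨p1, p2⟩ := p
  obtain ⟨q1, q2⟩ := p'
  by_cases h0 : j = 0
  · subst h0
    by_cases h1 : p1 = 0
    · by_cases h2 : q1 = 0
      · cases p2 <;> cases q2 <;> cases e <;> simp [h1, h2, sg] <;> norm_num
      · cases p2 <;> cases q2 <;> cases e <;> simp [h1, h2, sg] <;> norm_num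
    · by_cases h2 : q1 = 0
      · cases p2 <;> cases q2 <;> cases e <;> simp [h1, h2, sg] <;> norm_num
      · cases p2 <;> cases q2 <;> cases e <;> simp [h1, h2, sg] <;> norm_num
  · by_cases h1 : p1 = j
    · by_cases h2 : q1 = j
      · cases p2 <;> cases q2 <;> cases e <;> simp [h0, h1, h2, sg] <;> norm_num
      · cases p2 <;> cases q2 <;> cases e <;> simp [h0, h1, h2, sg] <;> norm_num
    · by_cases h2 : q1 = j
      · cases p2 <;> cases q2 <;> cases e <;> simp [h0, h1, h2, sg] <;> norm_num
      · cases p2 <;> cases q2 <;> cases e <;> simp [h0, h1, h2, sg] <;> norm_num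

theorem mm_val {h : ℕ} (p p' : Pos h) : ∑ e : Bool, ∏ j, ev e j p p' = (mz p p' : ℝ) := by
  obtain ⟨p1, p2⟩ := p
  obtain ⟨q1, q2⟩ := p'
  unfold mz
  simp only
  by_cases h1 : p1 = q1
  · subst h1
    by_cases h2 : p2 = q2
    · -- equal positions
      rw [if_neg (by simp [h2])]
      have h3 : ∀ e : Bool, ∏ j, ev e j (p1, p2) (p1, q2) = sg e / 2 * 2 ^ h := by
        intro e
        rw [Fin.prod_univ_succ]
        congr 1
        · rw [ev_val]
          by_cases h0 : p1 = 0 <;> simp [h0, h2]
        · rw [Finset.prod_congr rfl (g := fun _ => (2 : ℝ))]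
          · simp
          · intro i _
            rw [ev_val]
            by_cases h0 : p1 = i.succ <;> simp [h0, h2]
      rw [Fintype.sum_bool, h3, h3]
      simp [sg]
      norm_num
    · rw [if_pos ⟨rfl, h2⟩]
      by_cases h0 : p1 = 0
      · subst h0
        have h3 : ∀ e : Bool, ∏ j : Fin (h + 1), ev e j (0, p2) (0, q2) = 1 / 2 * 2 ^ h := by
          intro e
          rw [Fin.prod_univ_succ]
          congr 1
          · rw [ev_val]
            simp [h2]
          · rw [Finset.prod_congr rfl (g := fun _ => (2 : ℝ))]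
            · simp
            · intro i _
              rw [ev_val]
              simp [(Fin.succ_ne_zero i).symm]
        rw [Fintype.sum_bool, h3, h3, if_pos rfl]
        push_cast
        ring
      · have h3 : ∀ e : Bool, ∏ j, ev e j (p1, p2) (p1, q2) = sg e / 2 * (-2 * sg e * 2 ^ (h - 1)) := by
          intro e
          rw [Fin.prod_univ_succ]
          congr 1
          · rw [ev_val]
            simp [h0]
          · obtain ⟨i0, hi0⟩ := Fin.exists_succ_eq.2 h0
            rw [← Finset.mul_prod_erase _ _ (Finset.mem_univ i0)]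
            congr 1
            · rw [ev_val]
              simp [hi0, h2, h0]
            · rw [Finset.prod_congr rfl (g := fun _ => (2 : ℝ))]
              · simp
              · intro i hi
                have h4 : p1 ≠ i.succ := by
                  intro h
                  rw [← hi0] at h
                  exact (Finset.ne_of_mem_erase hi) (Fin.succ_injective _ h).symm
                rw [ev_val]
                simp [h4]
        have hh : (2 : ℝ) ^ h = 2 ^ (h - 1) * 2 := by
          rw [← pow_succ]
          congr 1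
          rcases Nat.eq_zero_or_pos h with h4 | h4
          · subst h4
            exact absurd (Fin.ext (by omega) : p1 = 0) h0
          · omega
        rw [Fintype.sum_bool, h3, h3, if_neg h0]
        push_cast
        rw [hh]
        simp [sg]
        ring
  · rw [if_neg (by tauto)]
    have h3 : ∀ e : Bool, ∏ j, ev e j (p1, p2) (q1, q2) = 0 := by
      intro e
      refine Finset.prod_eq_zero (Finset.mem_univ p1) ?_
      rw [ev_val]
      simp [Ne.symm h1]
    rw [Fintype.sum_bool, h3, h3]
    simp


variable {h k : ℕ} {ρ : Type*} [Fintype ρ] [DecidableEq ρ]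

theorem Ymat_row_inr (a a' : Fin k → Pos h) (y : ρ) (d : Idx h k ρ → Bool) :
    ∑ c, (Ymat a a' (Sum.inr y) c : ℝ) * sg (d c) = sg (d (Sum.inr y)) := by
  simp [Ymat]

theorem Ymat_row_zero (a a' : Fin k → Pos h) (b : Fin k) (s : Bool) (d : Idx h k ρ → Bool) :
    ∑ c, (Ymat a a' (Sum.inl (b, (0, s))) c : ℝ) * sg (d c) =
      sg (d (Sum.inl (b, if s then a' b else a b))) := by
  simp only [Ymat, if_true]
  simp only [Int.cast_ite, Int.cast_one, Int.cast_zero, ite_mul, one_mul, zero_mul]
  rw [Finset.sum_ite_eq' Finset.univ]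
  simp

theorem Ymat_row_pair (a a' : Fin k → Pos h) (b : Fin k) (j : Fin (h + 1)) (hj : j ≠ 0) (s : Bool)
    (d : Idx h k ρ → Bool) :
    ∑ c, (Ymat a a' (Sum.inl (b, (j, s))) c : ℝ) * sg (d c) =
      sg (d (Sum.inl (b, (j, false)))) + sg (d (Sum.inl (b, (j, true)))) +
      (if s then -1 else 1) * (sg (d (Sum.inl (b, (0, false)))) + sg (d (Sum.inl (b, (0, true))))) := by
  simp only [Ymat, if_neg hj]
  have h := sum_two_pairs (Sum.inl (b, (j, false)) : Idx h k ρ) (Sum.inl (b, (j, true)))
    (Sum.inl (b, (0, false))) (Sum.inl (b, (0, true))) (by simp) (by simp [hj]) (by simp)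
    (by simp) (by simp [hj]) (by simp) (if s then -1 else 1) (fun c => sg (d c))
  rw [h]
  cases s <;> simp

theorem hv_zero_prod (p p' : Pos h) (D : Fin (h + 1) → Bool → Bool) :
    ∑ e : Bool, ∏ j, hv e j p p' (D j false) (D j true) =
      (sg (D 0 false) * sg (D 0 true)) * ((sg (D p.1 p.2)) * (sg (D p'.1 p'.2))) *
        ∏ j ∈ Finset.univ.erase (0 : Fin (h + 1)),
          (2 * (1 - (sg (D 0 false) * sg (D 0 true)) * (sg (D j false) * sg (D j true)))) := by
  have h1 : ∀ (e : Bool), ∏ j, hv e j p p' (D j false) (D j true) =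
      (sg (D 0 false) * sg (D 0 true) * ((1 + sg e * (sg (D 0 false) * sg (D 0 true))) / 2)) *
      (∏ j ∈ Finset.univ.erase (0 : Fin (h + 1)),
        (2 * (1 - sg e * (sg (D j false) * sg (D j true))))) *
      ((sg (D p.1 p.2)) * (sg (D p'.1 p'.2))) := by
    intro e
    unfold hv
    rw [Finset.prod_mul_distrib, Finset.prod_mul_distrib]
    have h2 : ∀ p : Pos h, ∏ j, (if p.1 = j then (if p.2 then sg (D j true) else sg (D j false))
        else 1) = sg (D p.1 p.2) := by
      intro p
      rw [Finset.prod_ite_eq Finset.univ p.1 (fun j => if p.2 then sg (D j true) else sg (D j false))]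
      simp only [Finset.mem_univ, if_true]
      cases h : p.2 <;> simp
    rw [h2, h2, ← Finset.mul_prod_erase _ _ (Finset.mem_univ (0 : Fin (h + 1))), if_pos rfl]
    have h3 : ∏ j ∈ Finset.univ.erase (0 : Fin (h + 1)), (if j = 0 then
        sg (D j false) * sg (D j true) * ((1 + sg e * (sg (D j false) * sg (D j true))) / 2)
        else 2 * (1 - sg e * (sg (D j false) * sg (D j true)))) =
        ∏ j ∈ Finset.univ.erase (0 : Fin (h + 1)),
          (2 * (1 - sg e * (sg (D j false) * sg (D j true)))) :=
      Finset.prod_congr rfl fun j hj => by rw [if_neg (Finset.ne_of_mem_erase hj)]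
    rw [h3]
  rw [Fintype.sum_bool, h1, h1]
  have h3 : sg (D 0 false) * sg (D 0 true) = 1 ∨ sg (D 0 false) * sg (D 0 true) = -1 := by
    cases D 0 false <;> cases D 0 true <;> simp [sg]
  have ht : sg true = 1 := by simp [sg]
  have hf : sg false = -1 := by simp [sg]
  rcases h3 with h3 | h3
  · rw [h3, ht, hf]
    ring
  · rw [h3, ht, hf]
    ring

theorem permanent_Ymat (a a' : Fin k → Pos h) :
    (Ymat (ρ := ρ) a a').permanent = ∏ b, mz (a b) (a' b) := by
  have hreal : ((Ymat (ρ := ρ) a a').map (Int.castRingHom ℝ)).permanent =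
      ∏ b, (mz (a b) (a' b) : ℝ) := by
    rw [permanent_eq_es]
    have h1 : ∀ d : Idx h k ρ → Bool, ∏ x, (sg (d x) * ∑ c, ((Ymat (ρ := ρ) a a').map
        (Int.castRingHom ℝ)) x c * sg (d c)) = ∏ b : Fin k, ∑ e : Bool, ∏ j, hv e j (a b) (a' b)
          (d (Sum.inl (b, (j, false)))) (d (Sum.inl (b, (j, true)))) := by
      intro d
      simp only [Matrix.map_apply, eq_intCast]
      rw [Fintype.prod_sum_type]
      have h2 : ∏ y : ρ, (sg (d (Sum.inr y)) * ∑ c, (Ymat (ρ := ρ) a a' (Sum.inr y) c : ℝ) *
          sg (d c)) = 1 := by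
        refine Finset.prod_eq_one fun y _ => ?_
        rw [Ymat_row_inr, sg_sq]
      rw [h2, mul_one, Fintype.prod_prod_type]
      refine Finset.prod_congr rfl fun b _ => ?_
      rw [hv_zero_prod (a b) (a' b) (fun j s => d (Sum.inl (b, (j, s))))]
      rw [Fintype.prod_prod_type, ← Finset.mul_prod_erase _ _ (Finset.mem_univ (0 : Fin (h + 1)))]
      congr 1
      · rw [Fintype.prod_bool, Ymat_row_zero, Ymat_row_zero]
        simp
        ring
      · refine Finset.prod_congr rfl fun j hj => ?_
        rw [Fintype.prod_bool, Ymat_row_pair _ _ _ _ (Finset.ne_of_mem_erase hj),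
          Ymat_row_pair _ _ _ _ (Finset.ne_of_mem_erase hj)]
        have e1 := sg_sq (d (Sum.inl (b, (j, false))))
        have e2 := sg_sq (d (Sum.inl (b, (j, true))))
        have e3 := sg_sq (d (Sum.inl (b, ((0 : Fin (h + 1)), false))))
        have e4 := sg_sq (d (Sum.inl (b, ((0 : Fin (h + 1)), true))))
        simp only [if_true]
        set x := sg (d (Sum.inl (b, (j, false))))
        set y := sg (d (Sum.inl (b, (j, true))))
        set z := sg (d (Sum.inl (b, ((0 : Fin (h + 1)), false))))
        set w := sg (d (Sum.inl (b, ((0 : Fin (h + 1)), true))))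
        have h5 : (y * (x + y + -1 * (z + w)) * (x * (x + y + 1 * (z + w)))) =
          x * y * (x * x + y * y + 2 * (x * y) - z * z - w * w - 2 * (z * w)) := by ring
        have h6 : (if (false = true) then (-1 : ℝ) else 1) = 1 := by simp
        rw [h6, h5, e1, e2, e3, e4]
        have h7 : x * y * (1 + 1 + 2 * (x * y) - 1 - 1 - 2 * (z * w)) =
          2 * ((x * x) * (y * y) - z * w * (x * y)) := by ring
        rw [h7, e1, e2]
        ring
    simp only [h1]
    have h3 := es_prod (ι := Idx h k ρ) (Finset.univ : Finset (Fin k))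
      (fun b => Finset.univ.filter fun x : Idx h k ρ => ∃ p, x = Sum.inl (b, p))
      (fun b _ b' _ hbb => by
        rw [Finset.disjoint_left]
        intro x hx hx'
        obtain ⟨p, hp⟩ := (Finset.mem_filter.1 hx).2
        obtain ⟨p', hp'⟩ := (Finset.mem_filter.1 hx').2
        rw [hp] at hp'
        exact hbb (congrArg Prod.fst (Sum.inl_injective hp')))
      (fun b d => ∑ e : Bool, ∏ j, hv e j (a b) (a' b)
          (d (Sum.inl (b, (j, false)))) (d (Sum.inl (b, (j, true)))))
      (fun b _ d d' h => by
        refine Finset.sum_congr rfl fun e _ => Finset.prod_congr rfl fun j _ => ?_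
        rw [h _ (Finset.mem_filter.2 ⟨Finset.mem_univ _, _, rfl⟩),
          h _ (Finset.mem_filter.2 ⟨Finset.mem_univ _, _, rfl⟩)])
    rw [h3]
    refine Finset.prod_congr rfl fun b _ => ?_
    rw [es_sum, ← mm_val]
    refine Finset.sum_congr rfl fun e _ => ?_
    have h4 := es_prod (ι := Idx h k ρ) (Finset.univ : Finset (Fin (h + 1)))
      (fun j => Finset.univ.filter fun x : Idx h k ρ => ∃ s, x = Sum.inl (b, (j, s)))
      (fun j _ j' _ hjj => by
        rw [Finset.disjoint_left]
        intro x hx hx'
        obtain ⟨p, hp⟩ := (Finset.mem_filter.1 hx).2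
        obtain ⟨p', hp'⟩ := (Finset.mem_filter.1 hx').2
        rw [hp] at hp'
        exact hjj (congrArg (fun z => z.2.1) (Sum.inl_injective hp')))
      (fun j d => hv e j (a b) (a' b) (d (Sum.inl (b, (j, false)))) (d (Sum.inl (b, (j, true)))))
      (fun j _ d d' h => by
        have k1 := h (Sum.inl (b, (j, false))) (Finset.mem_filter.2 ⟨Finset.mem_univ _, _, rfl⟩)
        have k2 := h (Sum.inl (b, (j, true))) (Finset.mem_filter.2 ⟨Finset.mem_univ _, _, rfl⟩)
        simp only [k1, k2])
    rw [h4]
    refine Finset.prod_congr rfl fun j _ => ?_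
    exact es_two (Sum.inl (b, (j, false)) : Idx h k ρ) (Sum.inl (b, (j, true))) (by simp)
      (fun s t => hv e j (a b) (a' b) s t)
  rw [permanent_map'] at hreal
  have h5 : ((Ymat (ρ := ρ) a a').permanent : ℝ) = ((∏ b, mz (a b) (a' b) : ℤ) : ℝ) := by
    rw [Int.cast_prod, ← hreal]
    rfl
  exact_mod_cast h5

end Pool.Agent.W942.G
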