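import Mathlib

/-!
# Functions of two arguments of bounded rank
-/

set_option autoImplicit false

namespace Pool.Agent.W942

open Finset

variable {K : Type*} [Field K]

/-- The function `M : U → V → K` is a sum of `r` products of a function of `u` and a function of `v`. -/
def HasRk {U V : Type*} (M : U → V → K) (r : ℕ) : Prop :=
  ∃ (f : Fin r → U → K) (g : Fin r → V → K), ∀ u v, M u v = ∑ i, f i u * g i v

/-- The rank is at most the real number `ρ`. -/
def HasRkR {U V : Type*} (M : U → V → K) (ρ : ℝ) : Prop :=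
  ∃ r : ℕ, HasRk M r ∧ (r : ℝ) ≤ ρ

section
variable {U V : Type*}

theorem HasRk.of_fintype {M : U → V → K} {ι : Type*} [Fintype ι] (f : ι → U → K) (g : ι → V → K)
    (h : ∀ u v, M u v = ∑ i, f i u * g i v) : HasRk M (Fintype.card ι) := by
  classical
  let e := (Fintype.equivFin ι).symm
  refine ⟨fun i => f (e i), fun i => g (e i), fun u v => ?_⟩
  rw [h, ← e.sum_comp]

theorem HasRk.mono {M : U → V → K} {r s : ℕ} (h : HasRk M r) (hrs : r ≤ s) : HasRk M s := by
  obtain ⟨f, g, hfg⟩ := h
  obtain ⟨d, rfl⟩ := Nat.exists_eq_add_of_le hrs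
  refine ⟨fun i => Fin.addCases (motive := fun _ => U → K) f (fun _ _ => 0) i,
    fun i => Fin.addCases (motive := fun _ => V → K) g (fun _ _ => 0) i, fun u v => ?_⟩
  rw [hfg, Fin.sum_univ_add]
  simp

theorem HasRk.zero : HasRk (fun (_ : U) (_ : V) => (0 : K)) 0 :=
  ⟨fun i => i.elim0, fun i => i.elim0, fun _ _ => by simp⟩

theorem HasRk.congr {M M' : U → V → K} {r : ℕ} (h : HasRk M r) (he : ∀ u v, M' u v = M u v) :
    HasRk M' r := by
  obtain ⟨f, g, hfg⟩ := h
  exact ⟨f, g, fun u v => by rw [he, hfg]⟩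

theorem HasRk.one_of_mul {M : U → V → K} (f : U → K) (g : V → K) (h : ∀ u v, M u v = f u * g v) :
    HasRk M 1 :=
  ⟨fun _ => f, fun _ => g, fun u v => by simp [h]⟩

theorem HasRk.add {M N : U → V → K} {r s : ℕ} (hM : HasRk M r) (hN : HasRk N s) :
    HasRk (fun u v => M u v + N u v) (r + s) := by
  obtain ⟨f, g, h1⟩ := hM
  obtain ⟨f', g', h2⟩ := hN
  have := HasRk.of_fintype (M := fun u v => M u v + N u v) (ι := Fin r ⊕ Fin s)
    (Sum.elim f f') (Sum.elim g g') (fun u v => by simp [h1, h2])
  simpa using this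

theorem HasRk.mul {M N : U → V → K} {r s : ℕ} (hM : HasRk M r) (hN : HasRk N s) :
    HasRk (fun u v => M u v * N u v) (r * s) := by
  obtain ⟨f, g, h1⟩ := hM
  obtain ⟨f', g', h2⟩ := hN
  have := HasRk.of_fintype (M := fun u v => M u v * N u v) (ι := Fin r × Fin s)
    (fun p u => f p.1 u * f' p.2 u) (fun p v => g p.1 v * g' p.2 v) (fun u v => by
      rw [h1, h2, Fintype.sum_prod_type, Finset.sum_mul_sum]
      refine Finset.sum_congr rfl fun i _ => Finset.sum_congr rfl fun j _ => by ring)
  simpa using this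

theorem HasRk.sum {ι : Type*} (s : Finset ι) {M : ι → U → V → K} {r : ι → ℕ}
    (h : ∀ i ∈ s, HasRk (M i) (r i)) :
    HasRk (fun u v => ∑ i ∈ s, M i u v) (∑ i ∈ s, r i) := by
  classical
  induction s using Finset.induction_on with
  | empty => simpa using HasRk.zero
  | insert a s ha ih =>
    have h1 := (h a (Finset.mem_insert_self a s)).add
      (ih fun i hi => h i (Finset.mem_insert_of_mem hi))
    rw [Finset.sum_insert ha]
    exact h1.congr fun u v => by rw [Finset.sum_insert ha]

/-- A function which depends on `u` only through `π u` has rank at most the number of values. -/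
theorem HasRk.of_left {P : Type*} [Fintype P] (π : U → P) {M : U → V → K}
    (h : ∀ u u' v, π u = π u' → M u v = M u' v) : HasRk M (Fintype.card P) := by
  classical
  by_cases hU : Nonempty U
  · refine HasRk.of_fintype (ι := P) (fun p u => if π u = p then 1 else 0)
      (fun p v => if hp : ∃ u, π u = p then M hp.choose v else 0) (fun u v => ?_)
    rw [Finset.sum_eq_single (π u)]
    · have hp : ∃ u', π u' = π u := ⟨u, rfl⟩
      simp only [if_true, one_mul, dif_pos hp]
      exact h _ _ _ hp.choose_spec.symm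
    · intro p _ hp
      simp [Ne.symm hp]
    · intro hp
      exact absurd (Finset.mem_univ _) hp
  · exact HasRk.of_fintype (ι := P) (fun _ _ => 0) (fun _ _ => 0) (fun u => (hU ⟨u⟩).elim)

theorem HasRk.swap {M : U → V → K} {r : ℕ} (h : HasRk M r) : HasRk (fun v u => M u v) r := by
  obtain ⟨f, g, hfg⟩ := h
  exact ⟨g, f, fun v u => (hfg u v).trans (Finset.sum_congr rfl fun i _ => mul_comm _ _)⟩

theorem HasRk.of_right {P : Type*} [Fintype P] (π : V → P) {M : U → V → K}
    (h : ∀ u v v', π v = π v' → M u v = M u v') : HasRk M (Fintype.card P) :=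
  (HasRk.of_left π (M := fun v u => M u v) fun v v' u hv => h u v v' hv).swap

/-- Cutting into cells: if on the cell `(p, q)` the function agrees with a function of rank at
most `r`, then the rank is at most `r` times the number of cells. -/
theorem HasRk.cells {P Q : Type*} [Fintype P] [Fintype Q] (π : U → P) (σ : V → Q)
    {M : U → V → K} {r : ℕ} (N : P → Q → U → V → K) (hN : ∀ p q, HasRk (N p q) r)
    (h : ∀ u v, M u v = N (π u) (σ v) u v) :
    HasRk M (Fintype.card P * Fintype.card Q * r) := by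
  classical
  have h1 : HasRk (fun u v => ∑ x ∈ (Finset.univ : Finset (P × Q)),
      ((if π u = x.1 then 1 else 0) * (if σ v = x.2 then 1 else 0)) * N x.1 x.2 u v)
      (∑ _x ∈ (Finset.univ : Finset (P × Q)), 1 * r) := by
    refine HasRk.sum _ fun x _ => HasRk.mul ?_ (hN _ _)
    exact HasRk.one_of_mul (fun u => if π u = x.1 then 1 else 0)
      (fun v => if σ v = x.2 then 1 else 0) (fun u v => rfl)
  have h2 : (∑ _x ∈ (Finset.univ : Finset (P × Q)), 1 * r) =
      Fintype.card P * Fintype.card Q * r := by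
    simp [Finset.sum_const, Fintype.card_prod]
  rw [h2] at h1
  refine h1.congr fun u v => ?_
  rw [Finset.sum_eq_single (π u, σ v)]
  · simp [h]
  · rintro ⟨p, q⟩ _ hpq
    by_cases hp : π u = p
    · by_cases hq : σ v = q
      · exact absurd (by rw [hp, hq]) hpq
      · simp [hq]
    · simp [hp]
  · intro hx
    exact absurd (Finset.mem_univ _) hx

end

section Real
variable {U V : Type*}

theorem HasRkR.mono {M : U → V → K} {ρ σ : ℝ} (h : HasRkR M ρ) (hs : ρ ≤ σ) : HasRkR M σ := by
  obtain ⟨r, h1, h2⟩ := h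
  exact ⟨r, h1, h2.trans hs⟩

theorem HasRkR.congr {M M' : U → V → K} {ρ : ℝ} (h : HasRkR M ρ) (he : ∀ u v, M' u v = M u v) :
    HasRkR M' ρ := by
  obtain ⟨r, h1, h2⟩ := h
  exact ⟨r, h1.congr he, h2⟩

theorem HasRkR.zero : HasRkR (fun (_ : U) (_ : V) => (0 : K)) 0 :=
  ⟨0, HasRk.zero, by simp⟩

theorem HasRkR.add {M N : U → V → K} {ρ σ : ℝ} (hM : HasRkR M ρ) (hN : HasRkR N σ) :
    HasRkR (fun u v => M u v + N u v) (ρ + σ) := by
  obtain ⟨r, h1, h2⟩ := hM
  obtain ⟨s, h3, h4⟩ := hN
  exact ⟨r + s, h1.add h3, by push_cast; linarith⟩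

theorem HasRkR.nonneg {M : U → V → K} {ρ : ℝ} (hM : HasRkR M ρ) : 0 ≤ ρ := by
  obtain ⟨r, _, h2⟩ := hM
  exact (Nat.cast_nonneg r).trans h2

theorem HasRkR.mul {M N : U → V → K} {ρ σ : ℝ} (hM : HasRkR M ρ) (hN : HasRkR N σ) :
    HasRkR (fun u v => M u v * N u v) (ρ * σ) := by
  have h5 := hM.nonneg
  obtain ⟨r, h1, h2⟩ := hM
  obtain ⟨s, h3, h4⟩ := hN
  exact ⟨r * s, h1.mul h3, by push_cast; exact mul_le_mul h2 h4 (Nat.cast_nonneg _) h5⟩

theorem HasRkR.sum {ι : Type*} (s : Finset ι) {M : ι → U → V → K} {ρ : ι → ℝ}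
    (h : ∀ i ∈ s, HasRkR (M i) (ρ i)) :
    HasRkR (fun u v => ∑ i ∈ s, M i u v) (∑ i ∈ s, ρ i) := by
  classical
  induction s using Finset.induction_on with
  | empty => simpa using HasRkR.zero
  | insert a s ha ih =>
    have h1 := (h a (Finset.mem_insert_self a s)).add
      (ih fun i hi => h i (Finset.mem_insert_of_mem hi))
    rw [Finset.sum_insert ha]
    exact h1.congr fun u v => by rw [Finset.sum_insert ha]

end Real

/-- An invertible square matrix of order `N` inside a function of rank `r` forces `N ≤ r`. -/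
theorem HasRk.lower {U V : Type*} {M : U → V → K} {r : ℕ} (h : HasRk M r)
    {P : Type*} [Fintype P] [DecidableEq P] (a : P → U) (b : P → V) (N : Matrix P P K)
    (hN : ∀ i j, ∑ l, M (a i) (b l) * N l j = if i = j then 1 else 0) :
    Fintype.card P ≤ r := by
  obtain ⟨f, g, hfg⟩ := h
  let A : Matrix P (Fin r) K := fun i k => f k (a i)
  let B : Matrix (Fin r) P K := fun k l => g k (b l)
  have h1 : A * (B * N) = 1 := by
    rw [← Matrix.mul_assoc]
    ext i j
    rw [Matrix.mul_apply, Matrix.one_apply, ← hN i j]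
    refine Finset.sum_congr rfl fun l _ => ?_
    rw [Matrix.mul_apply, hfg]
  have h2 : Fintype.card P = (1 : Matrix P P K).rank := by simp
  rw [h2, ← h1]
  calc (A * (B * N)).rank ≤ A.rank := Matrix.rank_mul_le_left _ _
    _ ≤ Fintype.card (Fin r) := Matrix.rank_le_card_width _
    _ = r := by simp

end Pool.Agent.W942
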