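import Pool.Agent.W942.PerG
import Pool.Agent.W942.PerC

/-!
# Sums of determinants to which every row of the variables contributes with small rank
-/

set_option autoImplicit false
set_option maxHeartbeats 1000000

namespace Pool.Agent.W942

open Finset MvPolynomial

universe u v w

/-- `p` is the determinant of a matrix `A + ∑ i, P i * L i` of some order `m`, where the `m × m`
matrix `A` and the `m × r` matrices `P i` are constant and the entries of the `r × m` matrix `L i`
are arbitrary polynomials in the variables of the `i`-th row of `X`. -/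
def RowRankDet {K : Type u} [CommRing K] {n : ℕ} (r : ℕ)
    (p : MvPolynomial (Fin n × Fin n) K) : Prop :=
  ∃ (m : ℕ) (A : Matrix (Fin m) (Fin m) K) (P : Fin n → Matrix (Fin m) (Fin r) K)
    (L : Fin n → Matrix (Fin r) (Fin m) (MvPolynomial (Fin n × Fin n) K)),
    (∀ i t b, ∀ x ∈ (L i t b).vars, x.1 = i) ∧
    p = (Matrix.of fun a b => C (A a b) + ∑ i, ∑ t, C (P i a t) * L i t b).det

theorem det_rk' {K U V ι : Type*} [Field K] [Fintype ι] [DecidableEq ι] (A B : Finset ι)
    (hAB : Disjoint A B) (E : U → V → Matrix ι ι K)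
    (hA : ∀ i ∈ A, ∀ u v v', E u v i = E u v' i) (hB : ∀ i ∈ B, ∀ u u' v, E u v i = E u' v i)
    (hC : ∀ i ∉ A, i ∉ B → ∀ u u' v v', E u v i = E u' v' i) :
    HasRk (fun u v => (E u v).det) ((A.card + B.card).choose A.card) := by
  classical
  let e := Fintype.equivFin ι
  have h1 := det_rk (A.map e.toEmbedding) (B.map e.toEmbedding)
    (by
      rw [Finset.disjoint_left]
      intro x hx hx'
      obtain ⟨a, ha, rfl⟩ := Finset.mem_map.1 hx
      obtain ⟨b, hb, hab⟩ := Finset.mem_map.1 hx'
      have : b = a := e.injective hab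
      subst this
      exact Finset.disjoint_left.1 hAB ha hb)
    (fun u v => (E u v).submatrix e.symm e.symm)
    (fun i hi u v v' => by
      obtain ⟨a, ha, rfl⟩ := Finset.mem_map.1 hi
      funext j
      simp only [Matrix.submatrix_apply, Equiv.coe_toEmbedding, Equiv.symm_apply_apply]
      rw [hA a ha u v v'])
    (fun i hi u u' v => by
      obtain ⟨a, ha, rfl⟩ := Finset.mem_map.1 hi
      funext j
      simp only [Matrix.submatrix_apply, Equiv.coe_toEmbedding, Equiv.symm_apply_apply]
      rw [hB a ha u u' v])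
    (fun i hi hi' u u' v v' => by
      funext j
      simp only [Matrix.submatrix_apply]
      rw [hC (e.symm i) (fun h => hi (Finset.mem_map.2 ⟨_, h, by simp⟩))
        (fun h => hi' (Finset.mem_map.2 ⟨_, h, by simp⟩)) u u' v v'])
  rw [Finset.card_map, Finset.card_map] at h1
  exact h1.congr fun u v => (Matrix.det_submatrix_equiv_self e.symm (E u v)).symm

section
variable {K : Type u} [Field K]

/-- The rank of the determinant of `Z + ∑ b, P b * A b u + ∑ b, Q b * B b v`. -/
theorem det_lowrank_rk {U V : Type*} {m r k : ℕ} (Z : Matrix (Fin m) (Fin m) K)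
    (P Q : Fin k → Matrix (Fin m) (Fin r) K) (A : Fin k → U → Matrix (Fin r) (Fin m) K)
    (B : Fin k → V → Matrix (Fin r) (Fin m) K) :
    HasRk (fun u v => (Matrix.of fun i j => Z i j + ∑ b, ∑ t, P b i t * A b u t j +
      ∑ b, ∑ t, Q b i t * B b v t j).det) (4 ^ (r * k)) := by
  classical
  -- the extended matrix
  let PP : Matrix (Fin m) ((Fin k × Fin r) ⊕ (Fin k × Fin r)) K := Matrix.of fun i x =>
    match x with
    | Sum.inl (b, c) => P b i c
    | Sum.inr (b, c) => Q b i c
  let CC : U → V → Matrix ((Fin k × Fin r) ⊕ (Fin k × Fin r)) (Fin m) K := fun u v =>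
    Matrix.of fun x j =>
      match x with
      | Sum.inl (b, c) => -A b u c j
      | Sum.inr (b, c) => -B b v c j
  have hdet : ∀ u v, (Matrix.of fun i j => Z i j + ∑ b, ∑ t, P b i t * A b u t j +
      ∑ b, ∑ t, Q b i t * B b v t j).det = (Matrix.fromBlocks Z PP (CC u v) 1).det := by
    intro u v
    rw [Matrix.det_fromBlocks_one₂₂]
    congr 1
    ext i j
    simp only [Matrix.sub_apply, Matrix.mul_apply, Fintype.sum_sum_type, Fintype.sum_prod_type,
      PP, CC, Matrix.of_apply, mul_neg, Finset.sum_neg_distrib]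
    ring
  have h1 := det_rk' (K := K) (U := U) (V := V) (ι := Fin m ⊕ ((Fin k × Fin r) ⊕ (Fin k × Fin r)))
    (Finset.univ.map ⟨fun x : Fin k × Fin r => Sum.inr (Sum.inl x), fun x y h => by
      simpa using h⟩)
    (Finset.univ.map ⟨fun x : Fin k × Fin r => Sum.inr (Sum.inr x), fun x y h => by
      simpa using h⟩)
    (by
      rw [Finset.disjoint_left]
      intro x hx hx'
      obtain ⟨a, _, rfl⟩ := Finset.mem_map.1 hx
      obtain ⟨b, _, hab⟩ := Finset.mem_map.1 hx'
      simp at hab)
    (fun u v => Matrix.fromBlocks Z PP (CC u v) 1)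
    (fun i hi u v v' => by
      obtain ⟨a, _, rfl⟩ := Finset.mem_map.1 hi
      funext j
      rcases j with j | j
      · rfl
      · rfl)
    (fun i hi u u' v => by
      obtain ⟨a, _, rfl⟩ := Finset.mem_map.1 hi
      funext j
      rcases j with j | j
      · rfl
      · rfl)
    (fun i hi hi' u u' v v' => by
      funext j
      rcases i with i | i | i
      · rcases j with j | j <;> rfl
      · exact absurd (Finset.mem_map.2 ⟨i, Finset.mem_univ _, rfl⟩) hi
      · exact absurd (Finset.mem_map.2 ⟨i, Finset.mem_univ _, rfl⟩) hi')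
  rw [Finset.card_map, Finset.card_map, Finset.card_univ, Fintype.card_prod, Fintype.card_fin,
    Fintype.card_fin] at h1
  refine (h1.congr fun u v => hdet u v).mono ((Nat.choose_le_two_pow _ _).trans ?_)
  rw [show (4 : ℕ) = 2 ^ 2 by norm_num, ← pow_mul]
  exact Nat.pow_le_pow_right (by norm_num) (by ring_nf; exact le_rfl)

end

section
variable {O : Type u} {K : Type v} {F : Type w} [CommRing O] [Field K] [Field F] {n : ℕ}

theorem mzG_ne {h : ℕ} {p q : G.Pos h} (hpq : p ≠ q) : G.mz p (q.1, !q.2) = 0 := by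
  unfold G.mz
  rw [if_neg]
  rintro ⟨h1, h2⟩
  apply hpq
  refine Prod.ext h1 ?_
  simp only at h2
  revert h2
  cases p.2 <;> cases q.2 <;> simp

theorem mzG_self (hF : (2 : F) ≠ 0) {h : ℕ} (p : G.Pos h) : (G.mz p (p.1, !p.2) : F) ≠ 0 := by
  have h1 : (2 : F) ^ h ≠ 0 := pow_ne_zero h hF
  unfold G.mz
  have h2 : p.2 ≠ !p.2 := by cases p.2 <;> simp
  rw [if_pos ⟨rfl, h2⟩]
  split_ifs
  · push_cast; exact h1
  · push_cast; exact neg_ne_zero.2 h1

theorem rowRankDet_value_rk {r k h : ℕ} {ρ : Type*} [Fintype ρ] [DecidableEq ρ]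
    (e : Fin n ≃ G.Idx h k ρ) (p : MvPolynomial (Fin n × Fin n) K) (hp : RowRankDet r p) :
    HasRk (fun a a' : Fin k → G.Pos h => eval (fun ij : Fin n × Fin n =>
      ((G.Ymat a a' (e ij.1) (e ij.2) : ℤ) : K)) p) (4 ^ (r * k)) := by
  classical
  obtain ⟨m, A, P, L, hL, rfl⟩ := hp
  let a0 : Fin k → G.Pos h := fun _ => (0, false)
  let x : (Fin k → G.Pos h) → (Fin k → G.Pos h) → Fin n × Fin n → K := fun a a' ij =>
    ((G.Ymat a a' (e ij.1) (e ij.2) : ℤ) : K)
  -- the value of `L i`
  let LL : (Fin k → G.Pos h) → (Fin k → G.Pos h) → Fin n → Matrix (Fin r) (Fin m) K :=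
    fun a a' i => (L i).map (eval (x a a'))
  let rp : Fin k → Fin n := fun b => e.symm (Sum.inl (b, (0, false)))
  let rm : Fin k → Fin n := fun b => e.symm (Sum.inl (b, (0, true)))
  have hLcongr : ∀ (i : Fin n) (a a' c c' : Fin k → G.Pos h),
      (∀ j, x a a' (i, j) = x c c' (i, j)) → LL a a' i = LL c c' i := by
    intro i a a' c c' h1
    ext s t
    simp only [LL, Matrix.map_apply]
    refine MvPolynomial.hom_congr_vars (f₁ := eval (x a a')) (f₂ := eval (x c c')) ?_
      (fun z hz _ => ?_) rfl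
    · ext r; simp
    · rw [eval_X, eval_X]
      have h2 := hL i s t z hz
      obtain ⟨z1, z2⟩ := z
      simp only at h2
      subst h2
      exact h1 z2
  have hxp : ∀ (b : Fin k) (a a' c' : Fin k → G.Pos h) (j : Fin n),
      x a a' (rp b, j) = x a c' (rp b, j) := by
    intro b a a' c' j
    simp only [x, rp, Equiv.apply_symm_apply, G.Ymat, if_true]
    simp
  have hxm : ∀ (b : Fin k) (a c a' : Fin k → G.Pos h) (j : Fin n),
      x a a' (rm b, j) = x c a' (rm b, j) := by
    intro b a c a' j
    simp only [x, rm, Equiv.apply_symm_apply, G.Ymat, if_true]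
  have hxo : ∀ (i : Fin n), (∀ b, i ≠ rp b) → (∀ b, i ≠ rm b) →
      ∀ (a a' c c' : Fin k → G.Pos h) (j : Fin n), x a a' (i, j) = x c c' (i, j) := by
    intro i h1 h2 a a' c c' j
    simp only [x]
    congr 1
    rcases hei : e i with ⟨b, j0, s⟩ | y
    · by_cases hj : j0 = 0
      · subst hj
        cases s
        · exact absurd (e.injective (by rw [hei]; simp [rp])) (h1 b)
        · exact absurd (e.injective (by rw [hei]; simp [rm])) (h2 b)
      · simp only [G.Ymat, if_neg hj]
    · simp only [G.Ymat]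
  have hrp : Function.Injective rp := by
    intro b b' hb
    have := e.symm.injective hb
    simpa using this
  have hrm : Function.Injective rm := by
    intro b b' hb
    have := e.symm.injective hb
    simpa using this
  have hpm : ∀ b b', rp b ≠ rm b' := by
    intro b b' hb
    have := e.symm.injective hb
    simp at this
  -- the three kinds of rows
  set Sp : Finset (Fin n) := Finset.univ.map ⟨rp, hrp⟩ with hSp
  set Sm : Finset (Fin n) := Finset.univ.map ⟨rm, hrm⟩ with hSm
  have hdisj : Disjoint Sp Sm := by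
    rw [Finset.disjoint_left]
    intro i hi hi'
    obtain ⟨b, _, rfl⟩ := Finset.mem_map.1 hi
    obtain ⟨b', _, hb⟩ := Finset.mem_map.1 hi'
    exact hpm b b' hb.symm
  have hsplit : ∀ (f : Fin n → K), ∑ i, f i =
      ∑ i ∈ Finset.univ \ (Sp ∪ Sm), f i + ∑ b, f (rp b) + ∑ b, f (rm b) := by
    intro f
    rw [← Finset.sum_sdiff (Finset.subset_univ (Sp ∪ Sm)), Finset.sum_union hdisj, hSp, hSm,
      Finset.sum_map, Finset.sum_map, add_assoc]
    rfl
  have h1 := det_lowrank_rk (U := Fin k → G.Pos h) (V := Fin k → G.Pos h) (r := r)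
    (Matrix.of fun s t => A s t + ∑ i ∈ Finset.univ \ (Sp ∪ Sm), ∑ c, P i s c * LL a0 a0 i c t)
    (fun b => P (rp b)) (fun b => P (rm b)) (fun b a => LL a a0 (rp b))
    (fun b a' => LL a0 a' (rm b))
  refine h1.congr fun a a' => ?_
  rw [RingHom.map_det]
  congr 1
  ext s t
  simp only [RingHom.mapMatrix_apply, Matrix.map_apply, Matrix.of_apply, map_add, map_sum,
    map_mul, eval_C]
  have h2 : ∀ i c, eval (fun ij : Fin n × Fin n => ((G.Ymat a a' (e ij.1) (e ij.2) : ℤ) : K))
      (L i c t) = LL a a' i c t := fun i c => rfl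
  simp only [h2]
  rw [hsplit, ← add_assoc, ← add_assoc]
  congr 1
  · congr 1
    · congr 1
      refine Finset.sum_congr rfl fun i hi => ?_
      rw [hLcongr i a a' a0 a0 (fun j => hxo i (fun b hb => ?_) (fun b hb => ?_) _ _ _ _ j)]
      · refine (Finset.mem_sdiff.1 hi).2 (Finset.mem_union_left _ ?_)
        exact Finset.mem_map.2 ⟨b, Finset.mem_univ _, hb.symm⟩
      · refine (Finset.mem_sdiff.1 hi).2 (Finset.mem_union_right _ ?_)
        exact Finset.mem_map.2 ⟨b, Finset.mem_univ _, hb.symm⟩
    · refine Finset.sum_congr rfl fun b _ => ?_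
      rw [hLcongr (rp b) a a' a a0 (fun j => hxp b a a' a0 j)]
  · refine Finset.sum_congr rfl fun b _ => ?_
    rw [hLcongr (rm b) a a' a0 a' (fun j => hxm b a a0 a' j)]

theorem sumDet_lower (ι : O →+* K) (hι : Function.Injective ι) (res : O →+* F)
    (hF : (2 : F) ≠ 0) {r s k h : ℕ} (hk : 2 * (h + 1) * k ≤ n)
    (p : Fin s → MvPolynomial (Fin n × Fin n) K) (hp : ∀ i, RowRankDet r (p i)) (c : Fin s → K)
    (hrep : RepPer ι res (∑ i, C (c i) * p i)) :
    (2 * (h + 1)) ^ k ≤ s * 4 ^ (r * k) := by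
  classical
  -- roles
  obtain ⟨e⟩ : Nonempty (Fin n ≃ G.Idx h k (Fin (n - 2 * (h + 1) * k))) := by
    rw [← Fintype.card_eq, Fintype.card_sum, Fintype.card_prod, Fintype.card_prod]
    simp only [Fintype.card_fin, Fintype.card_bool]
    have : k * ((h + 1) * 2) = 2 * (h + 1) * k := by ring
    omega
  let x : (Fin k → G.Pos h) → (Fin k → G.Pos h) → Fin n × Fin n → K := fun a a' ij =>
    ((G.Ymat a a' (e ij.1) (e ij.2) : ℤ) : K)
  set P := ∑ i, C (c i) * p i with hP
  -- the upper bound
  have hup : HasRk (fun a a' => eval (x a a') P) (s * 4 ^ (r * k)) := by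
    have h1 := HasRk.sum (K := K) (U := Fin k → G.Pos h) (V := Fin k → G.Pos h)
      (Finset.univ : Finset (Fin s))
      (M := fun i a a' => c i * eval (x a a') (p i)) (r := fun _ => 1 * 4 ^ (r * k))
      (fun i _ => (HasRk.one_of_mul (fun _ => c i) (fun _ => 1) (fun _ _ => by simp)).mul
        (rowRankDet_value_rk e (p i) (hp i)))
    have h2 : (∑ _i : Fin s, 1 * 4 ^ (r * k)) = s * 4 ^ (r * k) := by simp
    rw [h2] at h1
    refine h1.congr fun a a' => ?_
    rw [hP, map_sum]
    refine Finset.sum_congr rfl fun i _ => ?_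
    rw [map_mul, eval_C]
  -- the values of the permanent
  have hex : ∀ a a' : Fin k → G.Pos h, ∃ g : O, ι g = eval (x a a') P ∧
      res g = ((∏ b, G.mz (a b) (a' b) : ℤ) : F) := by
    intro a a'
    obtain ⟨g, h1, h2⟩ := hrep ((G.Ymat a a').submatrix e e) (fun i j => G.Ymat_entries a a' _ _)
    refine ⟨g, h1, ?_⟩
    rw [h2, permanent_submatrix_equiv, G.permanent_Ymat]
  choose g hg1 hg2 using hex
  set MO : Matrix (Fin k → G.Pos h) (Fin k → G.Pos h) O := Matrix.of fun a c =>
    g a (fun b => ((c b).1, !(c b).2)) with hMO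
  have hres : (MO.map res).det ≠ 0 := by
    have h1 : MO.map res = Matrix.diagonal
        (fun a => ((∏ b, G.mz (a b) ((a b).1, !(a b).2) : ℤ) : F)) := by
      ext a c
      rw [Matrix.map_apply, Matrix.diagonal_apply]
      simp only [hMO, Matrix.of_apply, hg2]
      by_cases hac : a = c
      · subst hac; simp
      · rw [if_neg hac]
        obtain ⟨b, hb⟩ := Function.ne_iff.1 hac
        rw [Finset.prod_eq_zero (Finset.mem_univ b) (mzG_ne hb)]
        simp
    rw [h1, Matrix.det_diagonal]
    refine Finset.prod_ne_zero_iff.2 fun a _ => ?_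
    rw [Int.cast_prod]
    exact Finset.prod_ne_zero_iff.2 fun b _ => mzG_self hF _
  have hdetO : MO.det ≠ 0 := by
    intro h
    apply hres
    have h2 := RingHom.map_det res MO
    rw [h, map_zero] at h2
    exact h2.symm
  have hdetK : (MO.map ι).det ≠ 0 := by
    have h2 := RingHom.map_det ι MO
    have h3 : (ι.mapMatrix MO) = MO.map ι := rfl
    rw [h3] at h2
    rw [← h2]
    intro h
    exact hdetO (hι (by rw [h, map_zero]))
  have h1 := hup.lower (P := Fin k → G.Pos h) id (fun c b => ((c b).1, !(c b).2)) (MO.map ι)⁻¹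
    (fun i j => by
      have h2 := Matrix.mul_nonsing_inv (MO.map ι) (isUnit_iff_ne_zero.2 hdetK)
      have h3 := congrFun (congrFun h2 i) j
      rw [Matrix.mul_apply, Matrix.one_apply] at h3
      rw [← h3]
      refine Finset.sum_congr rfl fun l _ => ?_
      rw [Matrix.map_apply]
      show _ = ι (g i (fun b => ((l b).1, !(l b).2))) * _
      rw [hg1]
      rfl)
  have h4 : Fintype.card (Fin k → G.Pos h) = (2 * (h + 1)) ^ k := by
    rw [Fintype.card_fun, Fintype.card_prod]
    simp [mul_comm]
  rwa [h4] at h1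

end

end Pool.Agent.W942
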