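import Pool.Agent.W942.Ext
import Pool.Agent.W942.SumDet

/-!
# The rank of the row-linear part of a determinant
-/

set_option autoImplicit false
set_option maxHeartbeats 1000000

namespace Pool.Agent.W942.Ext

open Finset MvPolynomial

theorem pderiv_comm' {R σ : Type*} [CommRing R] (i j : σ) (f : MvPolynomial σ R) :
    pderiv i (pderiv j f) = pderiv j (pderiv i f) := by
  classical
  have h : ⁅(pderiv i : Derivation R (MvPolynomial σ R) (MvPolynomial σ R)),
      (pderiv j : Derivation R (MvPolynomial σ R) (MvPolynomial σ R))⁆ = 0 := by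
    apply MvPolynomial.derivation_ext
    intro k
    rw [Derivation.commutator_apply, pderiv_X, pderiv_X, Pi.single_apply, Pi.single_apply]
    split_ifs <;> simp
  have h2 := congrArg (fun D : Derivation R (MvPolynomial σ R) (MvPolynomial σ R) => D f) h
  simp only [Derivation.commutator_apply] at h2
  exact sub_eq_zero.1 h2

section
variable {K U V ι : Type*} [Field K] [Fintype ι] [DecidableEq ι] {n : ℕ}

theorem rk_dl (own : ι → Option (Fin n)) (PU : Finset (Fin n)) (t : Fin n → K)
    (l : List (Fin n)) (hl : l.Nodup) : ∀ (A B : Finset ι) (_ : Disjoint A B)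
    (M : U → V → Matrix ι ι (MvPolynomial (Fin n) K))
    (_ : ∀ i ∈ A, ∀ u v v', M u v i = M u v' i) (_ : ∀ i ∈ B, ∀ u u' v, M u v i = M u' v i)
    (_ : ∀ i ∉ A, i ∉ B → ∀ u u' v v' j, eval t (M u v i j) = eval t (M u' v' i j))
    (_ : ∀ i ρ, i ∈ A ∪ B → ρ ∈ l → own i ≠ some ρ)
    (_ : ∀ i ρ, ρ ∈ l → own i = some ρ → ρ ∈ PU → ∀ u v v', M u v i = M u v' i)
    (_ : ∀ i ρ, ρ ∈ l → own i = some ρ → ρ ∉ PU → ∀ u u' v, M u v i = M u' v i)
    (_ : ∀ i ρ, ρ ∈ l → own i ≠ some ρ → ∀ u v j, pderiv ρ (M u v i j) = 0),
    HasRk (fun u v => eval t (dl l (M u v).det))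
      (2 ^ (A.card + B.card + l.length) *
        (l.map fun ρ => (Finset.univ.filter fun i => own i = some ρ).card).prod) := by
  classical
  induction l with
  | nil =>
    intro A B hAB M hA hB hC _ _ _ _
    have h1 := det_rk' A B hAB (fun u v => (M u v).map (eval t))
      (fun i hi u v v' => by
        funext j
        simp only [Matrix.map_apply]
        rw [hA i hi u v v'])
      (fun i hi u u' v => by
        funext j
        simp only [Matrix.map_apply]
        rw [hB i hi u u' v])
      (fun i hi hi' u u' v v' => by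
        funext j
        simp only [Matrix.map_apply]
        exact hC i hi hi' u u' v v' j)
    refine (h1.congr fun u v => ?_).mono ?_
    · rw [dl_nil, RingHom.map_det]
      rfl
    · simp only [List.length_nil, List.map_nil, List.prod_nil, mul_one, add_zero]
      exact Nat.choose_le_two_pow _ _
  | cons ρ l ih =>
    intro A B hAB M hA hB hC hO hU hV hD
    obtain ⟨hρl, hl'⟩ := List.nodup_cons.1 hl
    set T : Finset ι := Finset.univ.filter fun i => own i = some ρ with hT
    let N : ι → U → V → Matrix ι ι (MvPolynomial (Fin n) K) := fun i u v =>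
      (M u v).updateRow i (fun j => pderiv ρ (M u v i j))
    have hsplit : ∀ u v, eval t (dl (ρ :: l) (M u v).det) =
        ∑ i ∈ T, eval t (dl l (N i u v).det) := by
      intro u v
      rw [dl_cons, deriv_det, map_sum, map_sum]
      symm
      refine Finset.sum_subset (Finset.subset_univ _) fun i _ hi => ?_
      have h0 : (N i u v).det = 0 := by
        refine Matrix.det_eq_zero_of_row_eq_zero i fun j => ?_
        simp only [N, Matrix.updateRow_self]
        exact hD i ρ (by simp) (fun h => hi (by rw [hT, Finset.mem_filter]; exact ⟨Finset.mem_univ _, h⟩))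
          u v j
      rw [h0, map_zero, map_zero]
    have hTo : ∀ i ∈ T, own i = some ρ := fun i hi => (Finset.mem_filter.1 hi).2
    have hTA : ∀ i ∈ T, i ∉ A := fun i hi hA => hO i ρ (Finset.mem_union_left _ hA) (by simp)
      (hTo i hi)
    have hTB : ∀ i ∈ T, i ∉ B := fun i hi hB => hO i ρ (Finset.mem_union_right _ hB) (by simp)
      (hTo i hi)
    have hne : ∀ i ∈ T, ∀ i', own i' ≠ some ρ → i' ≠ i := by
      rintro i hi i' h rfl
      exact h (hTo _ hi)
    have hown : ∀ ρ' ∈ l, ρ' ≠ ρ := by
      rintro ρ' h rfl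
      exact hρl h
    have hNne : ∀ i i' u v, i' ≠ i → N i u v i' = M u v i' := by
      intro i i' u v h
      exact Matrix.updateRow_ne h
    have hNs : ∀ i u v, N i u v i = fun j => pderiv ρ (M u v i j) := by
      intro i u v
      exact Matrix.updateRow_self
    -- the conditions for the tail
    have kU : ∀ i ∈ T, ∀ i' ρ', ρ' ∈ l → own i' = some ρ' → ρ' ∈ PU → ∀ u v v',
        N i u v i' = N i u v' i' := by
      intro i hi i' ρ' h1 h2 h3 u v v'
      have h4 : i' ≠ i := hne i hi i' (by rw [h2]; exact fun h => hown ρ' h1 (Option.some_injective _ h))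
      rw [hNne _ _ _ _ h4, hNne _ _ _ _ h4]
      exact hU i' ρ' (List.mem_cons_of_mem _ h1) h2 h3 u v v'
    have kV : ∀ i ∈ T, ∀ i' ρ', ρ' ∈ l → own i' = some ρ' → ρ' ∉ PU → ∀ u u' v,
        N i u v i' = N i u' v i' := by
      intro i hi i' ρ' h1 h2 h3 u u' v
      have h4 : i' ≠ i := hne i hi i' (by rw [h2]; exact fun h => hown ρ' h1 (Option.some_injective _ h))
      rw [hNne _ _ _ _ h4, hNne _ _ _ _ h4]
      exact hV i' ρ' (List.mem_cons_of_mem _ h1) h2 h3 u u' v
    have kD : ∀ i ∈ T, ∀ i' ρ', ρ' ∈ l → own i' ≠ some ρ' → ∀ u v j,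
        pderiv ρ' (N i u v i' j) = 0 := by
      intro i hi i' ρ' h1 h2 u v j
      by_cases h4 : i' = i
      · rw [h4, hNs]
        simp only
        rw [pderiv_comm', hD i ρ' (List.mem_cons_of_mem _ h1) (h4 ▸ h2), map_zero]
      · rw [hNne _ _ _ _ h4]
        exact hD i' ρ' (List.mem_cons_of_mem _ h1) h2 u v j
    have kO : ∀ i ∈ T, ∀ i' ρ', i' ∈ insert i (A ∪ B) → ρ' ∈ l → own i' ≠ some ρ' := by
      intro i hi i' ρ' h1 h2 h3
      rcases Finset.mem_insert.1 h1 with h4 | h4
      · rw [h4, hTo i hi] at h3
        exact hown ρ' h2 (Option.some_injective _ h3).symm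
      · exact hO i' ρ' h4 (List.mem_cons_of_mem _ h2) h3
    have kC : ∀ i ∈ T, ∀ i', i' ∉ insert i (A ∪ B) → ∀ u u' v v' j,
        eval t (N i u v i' j) = eval t (N i u' v' i' j) := by
      intro i hi i' h1 u u' v v' j
      have h4 : i' ≠ i := fun h => h1 (h ▸ Finset.mem_insert_self _ _)
      have h5 : i' ∉ A ∪ B := fun h => h1 (Finset.mem_insert_of_mem h)
      rw [hNne _ _ _ _ h4, hNne _ _ _ _ h4]
      exact hC i' (fun h => h5 (Finset.mem_union_left _ h)) (fun h => h5 (Finset.mem_union_right _ h))
        u u' v v' j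
    have hcase : ∀ i ∈ T, HasRk (fun u v => eval t (dl l (N i u v).det))
        (2 ^ (A.card + B.card + (ρ :: l).length) *
          (l.map fun ρ => (Finset.univ.filter fun i => own i = some ρ).card).prod) := by
      intro i hi
      by_cases hP : ρ ∈ PU
      · have h1 := ih hl' (insert i A) B
          (Finset.disjoint_insert_left.2 ⟨hTB i hi, hAB⟩) (N i)
          (fun i' hi' u v v' => by
            rcases Finset.mem_insert.1 hi' with h4 | h4
            · rw [h4, hNs, hNs, hU i ρ (by simp) (hTo i hi) hP u v v']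
            · have h5 : i' ≠ i := fun h => hTA i hi (h ▸ h4)
              rw [hNne _ _ _ _ h5, hNne _ _ _ _ h5, hA i' h4 u v v'])
          (fun i' hi' u u' v => by
            have h5 : i' ≠ i := fun h => hTB i hi (h ▸ hi')
            rw [hNne _ _ _ _ h5, hNne _ _ _ _ h5, hB i' hi' u u' v])
          (fun i' h1 h2 => kC i hi i' (by
            rw [Finset.mem_insert, Finset.mem_union]
            rw [Finset.mem_insert] at h1
            tauto))
          (fun i' ρ' h1 h2 => kO i hi i' ρ' (by
            rw [Finset.mem_union, Finset.mem_insert] at h1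
            rw [Finset.mem_insert, Finset.mem_union]
            tauto) h2)
          (kU i hi) (kV i hi) (kD i hi)
        refine h1.mono (Nat.mul_le_mul_right _ (Nat.pow_le_pow_right (by norm_num) ?_))
        rw [Finset.card_insert_of_notMem (hTA i hi), List.length_cons]
        omega
      · have h1 := ih hl' A (insert i B)
          (Finset.disjoint_insert_right.2 ⟨hTA i hi, hAB⟩) (N i)
          (fun i' hi' u v v' => by
            have h5 : i' ≠ i := fun h => hTA i hi (h ▸ hi')
            rw [hNne _ _ _ _ h5, hNne _ _ _ _ h5, hA i' hi' u v v'])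
          (fun i' hi' u u' v => by
            rcases Finset.mem_insert.1 hi' with h4 | h4
            · rw [h4, hNs, hNs, hV i ρ (by simp) (hTo i hi) hP u u' v]
            · have h5 : i' ≠ i := fun h => hTB i hi (h ▸ h4)
              rw [hNne _ _ _ _ h5, hNne _ _ _ _ h5, hB i' h4 u u' v])
          (fun i' h1 h2 => kC i hi i' (by
            rw [Finset.mem_insert, Finset.mem_union]
            rw [Finset.mem_insert] at h2
            tauto))
          (fun i' ρ' h1 h2 => kO i hi i' ρ' (by
            rw [Finset.mem_union, Finset.mem_insert] at h1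
            rw [Finset.mem_insert, Finset.mem_union]
            tauto) h2)
          (kU i hi) (kV i hi) (kD i hi)
        refine h1.mono (Nat.mul_le_mul_right _ (Nat.pow_le_pow_right (by norm_num) ?_))
        rw [Finset.card_insert_of_notMem (hTB i hi), List.length_cons]
        omega
    have h2 := HasRk.sum T hcase
    refine (h2.congr fun u v => hsplit u v).mono (le_of_eq ?_)
    rw [Finset.sum_const, smul_eq_mul, List.map_cons, List.prod_cons]
    ring

end

end Pool.Agent.W942.Ext
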