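import Pool.Agent.W942.TaG

/-!
Descartes' rule of signs and sign changes along a chain.
-/

open Polynomial Finset

namespace Pool.Agent.W942.So

theorem sv_le : ∀ (n : ℕ) (g : ℝ[X]), g ≠ 0 → g.support.card = n → signVariations g + 1 ≤ n := by
  intro n
  induction n using Nat.strong_induction_on with
  | _ n ih =>
    intro g hg hn
    by_cases he : g.eraseLead = 0
    · have h := signVariations_eq_eraseLead_add_ite hg
      rw [he] at h
      have h0 : SignType.sign g.leadingCoeff ≠ 0 := by
        rw [sign_ne_zero]
        exact leadingCoeff_ne_zero.mpr hg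
      simp only [signVariations_zero, leadingCoeff_zero, sign_zero, neg_zero, if_neg h0] at h
      have : 0 < g.support.card := card_pos.mpr (nonempty_support_iff.mpr hg)
      omega
    · have hc := card_support_eraseLead_add_one hg
      have h1 := ih g.eraseLead.support.card (by omega) g.eraseLead he rfl
      have h2 := signVariations_le_eraseLead_succ g
      omega

theorem pos_roots_le (g : ℝ[X]) (hg : g ≠ 0) :
    (g.roots.toFinset.filter (fun x => 0 < x)).card + 1 ≤ g.support.card := by
  have h1 := sv_le _ g hg rfl
  have h2 := roots_countP_pos_le_signVariations g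
  have h3 : (g.roots.toFinset.filter (fun x => 0 < x)).card ≤
      Multiset.countP (fun x => 0 < x) g.roots := by
    rw [Multiset.countP_eq_card_filter, ← Multiset.toFinset_filter]
    exact Multiset.toFinset_card_le _
  omega

/-- number of distinct real roots of a sparse polynomial -/
theorem real_roots_le (g : ℝ[X]) (hg : g ≠ 0) :
    g.roots.toFinset.card + 1 ≤ 2 * g.support.card := by
  set g' := g.comp (C (-1) * X) with hg'
  have hs : g'.support = g.support := Ta.support_flip g
  have hg0 : g' ≠ 0 := by
    intro h
    rw [h] at hs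
    exact hg (support_eq_empty.mp (hs.symm.trans (by simp)))
  have h1 := pos_roots_le g hg
  have h2 := pos_roots_le g' hg0
  rw [hs] at h2
  have h3 : (g.roots.toFinset.filter (fun x => x < 0)).card ≤
      (g'.roots.toFinset.filter (fun x => 0 < x)).card := by
    refine card_le_card_of_injOn (fun x => -x) ?_ (fun a _ b _ h => neg_injective h)
    intro x hx
    obtain ⟨hx1, hx2⟩ := mem_filter.mp (mem_coe.mp hx)
    rw [Multiset.mem_toFinset, mem_roots hg, IsRoot] at hx1
    refine mem_coe.mpr (mem_filter.mpr ⟨?_, by linarith⟩)
    rw [Multiset.mem_toFinset, mem_roots hg0, IsRoot, hg', Ta.eval_flip, neg_neg]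
    exact hx1
  have h4 : g.roots.toFinset ⊆ (g.roots.toFinset.filter (fun x => 0 < x)) ∪
      (g.roots.toFinset.filter (fun x => x < 0)) ∪ {0} := by
    intro x hx
    rcases lt_trichotomy x 0 with h | h | h
    · simp only [mem_union, mem_filter, mem_singleton]
      left; right; exact ⟨hx, h⟩
    · simp [h]
    · simp only [mem_union, mem_filter, mem_singleton]
      left; left; exact ⟨hx, h⟩
  have h5 := card_le_card h4
  have h6 := (card_union_le ((g.roots.toFinset.filter (fun x => 0 < x)) ∪
      (g.roots.toFinset.filter (fun x => x < 0))) {0})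
  have h7 := card_union_le (g.roots.toFinset.filter (fun x => 0 < x))
      (g.roots.toFinset.filter (fun x => x < 0))
  rw [card_singleton] at h6
  omega

/-- sign changes along a chain are at most the number of roots -/
theorem switches_le (g : ℝ[X]) (hg : g ≠ 0) (N : ℕ) (x : ℕ → ℝ) (hx : Monotone x) :
    ((range N).filter fun r => g.eval (x r) * g.eval (x (r + 1)) < 0).card ≤
      g.roots.toFinset.card := by
  classical
  have key : ∀ r, g.eval (x r) * g.eval (x (r + 1)) < 0 → ∃ z, x r < z ∧ z < x (r + 1) ∧
      g.eval z = 0 := by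
    intro r h
    have hle := hx (Nat.le_succ r)
    have hc : ContinuousOn (fun y => g.eval y) (Set.Icc (x r) (x (r + 1))) :=
      g.continuous.continuousOn
    have hz : (0:ℝ) ∈ (fun y => g.eval y) '' (Set.Icc (x r) (x (r + 1))) := by
      rcases mul_neg_iff.mp h with ⟨h1, h2⟩ | ⟨h1, h2⟩
      · exact intermediate_value_Icc' hle hc ⟨h2.le, h1.le⟩
      · exact intermediate_value_Icc hle hc ⟨h1.le, h2.le⟩
    obtain ⟨z, hz1, hz2⟩ := hz
    refine ⟨z, lt_of_le_of_ne hz1.1 ?_, lt_of_le_of_ne hz1.2 ?_, hz2⟩
    · rintro rfl
      simp only at hz2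
      rw [hz2] at h
      simp at h
    · rintro rfl
      simp only at hz2
      rw [hz2] at h
      simp at h
  choose! z hz using key
  refine card_le_card_of_injOn z ?_ ?_
  · intro r hr
    have := hz r (mem_filter.mp (mem_coe.mp hr)).2
    rw [mem_coe, Multiset.mem_toFinset, mem_roots hg]
    exact this.2.2
  · intro r hr q hq h
    have hr' := hz r (mem_filter.mp (mem_coe.mp hr)).2
    have hq' := hz q (mem_filter.mp (mem_coe.mp hq)).2
    by_contra hne
    rcases lt_or_gt_of_ne hne with hlt | hlt
    · have := hx (show r + 1 ≤ q from hlt)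
      linarith [hr'.2.1, hq'.1]
    · have := hx (show q + 1 ≤ r from hlt)
      linarith [hq'.2.1, hr'.1]

end Pool.Agent.W942.So
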