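import Pool.Agent.W942.SoV

/-!
Sums of squares with one balance parameter.
-/

open MeasureTheory ProbabilityTheory Finset Polynomial
open scoped ENNReal NNReal

namespace Pool.Agent.W942.So

section gen

variable {ι κ : Type*} [Fintype ι] [Fintype κ] (p : ι → ℝ[X]) (q : κ → ℝ[X])

/-- the points where not everything vanishes -/
def S0 : Set ℝ := {x | 0 < sq p x + sq q x}

theorem eVar_th {S : Finset ℕ} (hp : ∀ i, (p i).support ⊆ S) (hq : ∀ j, (q j).support ⊆ S) :
    eVariationOn (th p q) (S0 p q) ≤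
      ENNReal.ofReal (Real.pi / 2) * ((4 * S.card - 2 : ℕ) : ℝ≥0∞) := by
  unfold eVariationOn
  refine iSup_le ?_
  rintro ⟨N, u, hu, hus⟩
  exact vr_th p q hp hq N hu hus

theorem sin_sq_th {x : ℝ} (hx : 0 < sq p x + sq q x) :
    Real.sin (th p q x) ^ 2 * (sq p x + sq q x) = sq p x := by
  have h := sin_th p q hx
  have h2 := congrArg (fun z => z ^ 2) h
  simp only [mul_pow] at h2
  rwa [Real.sq_sqrt hx.le, Real.sq_sqrt (sq_nonneg' p x)] at h2

theorem th_eq {x φ : ℝ} (hx : 0 < sq p x + sq q x) (h0 : 0 < φ) (h1 : φ < Real.pi / 2)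
    (h : Real.cos φ ^ 2 * sq p x = Real.sin φ ^ 2 * sq q x) : th p q x = φ := by
  have h2 := sin_sq_th p q hx
  have h3 := Real.sin_sq_add_cos_sq φ
  have h4 : Real.sin (th p q x) ^ 2 * (sq p x + sq q x) = Real.sin φ ^ 2 * (sq p x + sq q x) := by
    rw [h2]
    have : sq p x = (Real.sin φ ^ 2 + Real.cos φ ^ 2) * sq p x := by rw [h3, one_mul]
    linarith
  have h5 : Real.sin (th p q x) ^ 2 = Real.sin φ ^ 2 := mul_right_cancel₀ hx.ne' h4
  have hpi := Real.pi_pos
  have hs1 : 0 ≤ Real.sin (th p q x) := Real.sin_nonneg_of_nonneg_of_le_pi (th_nonneg p q x)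
    (by linarith [th_le p q x])
  have hs2 : 0 ≤ Real.sin φ := Real.sin_nonneg_of_nonneg_of_le_pi h0.le (by linarith)
  have h6 : Real.sin (th p q x) = Real.sin φ := by
    have := (sq_eq_sq_iff_abs_eq_abs _ _).mp h5
    rwa [abs_of_nonneg hs1, abs_of_nonneg hs2] at this
  exact Real.injOn_sin ⟨by linarith [th_nonneg p q x], th_le p q x⟩ ⟨by linarith, h1.le⟩ h6

theorem sq_zero_iff {ι : Type*} [Fintype ι] (p : ι → ℝ[X]) {x : ℝ} (h : sq p x = 0) (i : ι) :
    (p i).eval x = 0 := by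
  unfold sq at h
  have := (sum_eq_zero_iff_of_nonneg fun i _ => sq_nonneg ((p i).eval x)).mp h i (mem_univ _)
  exact pow_eq_zero_iff (two_ne_zero) |>.mp this

/-- the common zeros are few -/
theorem zeros_le {S : Finset ℕ} (hp : ∀ i, (p i).support ⊆ S) (hq : ∀ j, (q j).support ⊆ S)
    (hne : (∃ i, p i ≠ 0) ∨ ∃ j, q j ≠ 0) :
    ({x : ℝ | ¬ 0 < sq p x + sq q x}.encard : ℕ∞) ≤ ((2 * S.card - 1 : ℕ) : ℕ∞) := by
  have hz : ∀ x : ℝ, ¬ 0 < sq p x + sq q x → sq p x = 0 ∧ sq q x = 0 := by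
    intro x h
    have h1 := sq_nonneg' p x
    have h2 := sq_nonneg' q x
    constructor <;> linarith
  have main : ∀ g : ℝ[X], g ≠ 0 → g.support ⊆ S →
      (∀ x : ℝ, ¬ 0 < sq p x + sq q x → g.eval x = 0) →
      ({x : ℝ | ¬ 0 < sq p x + sq q x}.encard : ℕ∞) ≤ ((2 * S.card - 1 : ℕ) : ℕ∞) := by
    intro g hg hs h
    have hsub : {x : ℝ | ¬ 0 < sq p x + sq q x} ⊆ (g.roots.toFinset : Set ℝ) := by
      intro x hx
      rw [mem_coe, Multiset.mem_toFinset, mem_roots hg]
      exact h x hx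
    refine (Set.encard_le_encard hsub).trans ?_
    rw [Set.encard_coe_eq_coe_finsetCard]
    have h1 := real_roots_le g hg
    have h2 := card_le_card hs
    have : g.roots.toFinset.card ≤ 2 * S.card - 1 := by omega
    exact_mod_cast this
  rcases hne with ⟨i, hi⟩ | ⟨j, hj⟩
  · exact main (p i) hi (hp i) fun x hx => sq_zero_iff p (hz x hx).1 i
  · exact main (q j) hj (hq j) fun x hx => sq_zero_iff q (hz x hx).2 j

/-- the root set at angle `φ` -/
def rts (φ : ℝ) : Set ℝ := {x : ℝ | Real.cos φ ^ 2 * sq p x = Real.sin φ ^ 2 * sq q x}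

theorem lint_rts {S : Finset ℕ} (hp : ∀ i, (p i).support ⊆ S) (hq : ∀ j, (q j).support ⊆ S)
    (hne : (∃ i, p i ≠ 0) ∨ ∃ j, q j ≠ 0) :
    ∫⁻ φ in Set.Ioo 0 (Real.pi / 2), (((rts p q φ).encard : ℕ∞) : ℝ≥0∞) ≤
      ENNReal.ofReal (Real.pi / 2 * (6 * S.card - 3)) := by
  obtain ⟨a, ha, ha1, ha2⟩ := Ta.indicatrix' (th p q) (S0 p q)
  have hn : 1 ≤ S.card := by
    rcases hne with ⟨i, hi⟩ | ⟨j, hj⟩
    · obtain ⟨e, he⟩ := nonempty_support_iff.mpr hi
      exact card_pos.mpr ⟨e, hp i he⟩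
    · obtain ⟨e, he⟩ := nonempty_support_iff.mpr hj
      exact card_pos.mpr ⟨e, hq j he⟩
  have hle : ∀ φ ∈ Set.Ioo (0:ℝ) (Real.pi / 2), (((rts p q φ).encard : ℕ∞) : ℝ≥0∞) ≤
      a φ + ((2 * S.card - 1 : ℕ) : ℝ≥0∞) := by
    intro φ hφ
    have hsub : rts p q φ ⊆ {x ∈ S0 p q | th p q x = φ} ∪ {x : ℝ | ¬ 0 < sq p x + sq q x} := by
      intro x hx
      by_cases h : 0 < sq p x + sq q x
      · exact Or.inl ⟨h, th_eq p q h hφ.1 hφ.2 hx⟩
      · exact Or.inr h
    have h1 := (Set.encard_le_encard hsub).trans (Set.encard_union_le _ _)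
    have h2 := h1.trans (add_le_add le_rfl (zeros_le p q hp hq hne))
    calc (((rts p q φ).encard : ℕ∞) : ℝ≥0∞)
        ≤ ((({x ∈ S0 p q | th p q x = φ}.encard + ((2 * S.card - 1 : ℕ) : ℕ∞) : ℕ∞)) : ℝ≥0∞) := by
          exact_mod_cast h2
      _ ≤ _ := by
          rw [ENat.toENNReal_add]
          refine add_le_add (ha1 φ) ?_
          simp
  calc ∫⁻ φ in Set.Ioo 0 (Real.pi / 2), (((rts p q φ).encard : ℕ∞) : ℝ≥0∞)
      ≤ ∫⁻ φ in Set.Ioo 0 (Real.pi / 2), (a φ + ((2 * S.card - 1 : ℕ) : ℝ≥0∞)) :=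
        setLIntegral_mono' measurableSet_Ioo hle
    _ = (∫⁻ φ in Set.Ioo 0 (Real.pi / 2), a φ) +
        ∫⁻ _ in Set.Ioo 0 (Real.pi / 2), ((2 * S.card - 1 : ℕ) : ℝ≥0∞) :=
        lintegral_add_left ha _
    _ ≤ ENNReal.ofReal (Real.pi / 2) * ((4 * S.card - 2 : ℕ) : ℝ≥0∞) +
        ENNReal.ofReal (Real.pi / 2) * ((2 * S.card - 1 : ℕ) : ℝ≥0∞) := by
        refine add_le_add ?_ ?_
        · exact (setLIntegral_le_lintegral _ _).trans (ha2.trans (eVar_th p q hp hq))
        · rw [setLIntegral_const, Real.volume_Ioo, sub_zero, mul_comm]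
    _ = ENNReal.ofReal (Real.pi / 2 * (6 * S.card - 3)) := by
        rw [← mul_add, ← Nat.cast_add, ENNReal.ofReal_mul (by positivity)]
        congr 1
        have : 4 * S.card - 2 + (2 * S.card - 1) = 6 * S.card - 3 := by omega
        rw [this, ← ENNReal.ofReal_natCast]
        congr 1
        rw [Nat.cast_sub (by omega)]
        push_cast
        ring

/-- some balance parameter in any interval of angles -/
theorem exists_rts {S : Finset ℕ} (hp : ∀ i, (p i).support ⊆ S) (hq : ∀ j, (q j).support ⊆ S)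
    (hne : (∃ i, p i ≠ 0) ∨ ∃ j, q j ≠ 0) {α β : ℝ} (h0 : 0 ≤ α) (hab : α < β)
    (h1 : β ≤ Real.pi / 2) :
    ∃ φ ∈ Set.Ioo α β, (rts p q φ).Finite ∧
      ((rts p q φ).ncard : ℝ) ≤ Real.pi / 2 * (6 * S.card - 3) / (β - α) := by
  have hn : 1 ≤ S.card := by
    rcases hne with ⟨i, hi⟩ | ⟨j, hj⟩
    · obtain ⟨e, he⟩ := nonempty_support_iff.mpr hi
      exact card_pos.mpr ⟨e, hp i he⟩
    · obtain ⟨e, he⟩ := nonempty_support_iff.mpr hj
      exact card_pos.mpr ⟨e, hq j he⟩
  have hn' : (1:ℝ) ≤ S.card := by exact_mod_cast hn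
  have hpi := Real.pi_pos
  by_contra hcon
  push Not at hcon
  have hd : 0 < β - α := by linarith
  set B : ℝ := Real.pi / 2 * (6 * S.card - 3) / (β - α) with hB
  have hC0 : 0 ≤ Real.pi / 2 * (6 * (S.card : ℝ) - 3) := mul_nonneg (by positivity) (by linarith)
  have hB0 : 0 ≤ B := div_nonneg hC0 hd.le
  set n : ℕ := ⌊B⌋₊ + 1 with hn1
  have hnB : B < n := by
    rw [hn1]; push_cast; exact Nat.lt_floor_add_one B
  have hlow : ∀ y ∈ Set.Ioo α β, ((n : ℕ) : ℝ≥0∞) ≤ (((rts p q y).encard : ℕ∞) : ℝ≥0∞) := by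
    intro y hy
    by_cases hfin : (rts p q y).Finite
    · have h1 := hcon y hy hfin
      have h2 : ⌊B⌋₊ < (rts p q y).ncard := (Nat.floor_lt hB0).mpr h1
      rw [← hfin.cast_ncard_eq]
      simp only [ENat.toENNReal_coe, Nat.cast_le]
      omega
    · have : (rts p q y).Infinite := hfin
      rw [this.encard_eq]
      simp
  have h3 : ((n : ℕ) : ℝ≥0∞) * ENNReal.ofReal (β - α) ≤
      ENNReal.ofReal (Real.pi / 2 * (6 * S.card - 3)) := by
    calc ((n : ℕ) : ℝ≥0∞) * ENNReal.ofReal (β - α) = ∫⁻ _ in Set.Ioo α β, ((n : ℕ) : ℝ≥0∞) := by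
          rw [lintegral_const]
          simp
      _ ≤ ∫⁻ y in Set.Ioo α β, (((rts p q y).encard : ℕ∞) : ℝ≥0∞) :=
          setLIntegral_mono' measurableSet_Ioo hlow
      _ ≤ ∫⁻ y in Set.Ioo 0 (Real.pi / 2), (((rts p q y).encard : ℕ∞) : ℝ≥0∞) :=
          lintegral_mono_set (Set.Ioo_subset_Ioo h0 h1)
      _ ≤ _ := lint_rts p q hp hq hne
  have h4 : (n : ℝ) * (β - α) ≤ Real.pi / 2 * (6 * S.card - 3) := by
    have h5 := ENNReal.toReal_mono ENNReal.ofReal_ne_top h3
    rwa [ENNReal.toReal_mul, ENNReal.toReal_natCast, ENNReal.toReal_ofReal hd.le,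
      ENNReal.toReal_ofReal hC0] at h5
  have h5 : B * (β - α) = Real.pi / 2 * (6 * S.card - 3) := by
    rw [hB]; field_simp
  nlinarith

/-- robust sign alternations -/
theorem robust {S : Finset ℕ} (hp : ∀ i, (p i).support ⊆ S) (hq : ∀ j, (q j).support ⊆ S)
    (hS : 1 ≤ S.card) {δ : ℝ} (hδ : 0 < δ) (N : ℕ) (x : ℕ → ℝ) (hx : ∀ r < N, x r < x (r + 1))
    (hs : ∀ r < N, (sq p (x r) - sq q (x r)) * (sq p (x (r + 1)) - sq q (x (r + 1))) < 0)
    (hr : ∀ r ≤ N, δ * (sq p (x r) + sq q (x r)) ≤ |sq p (x r) - sq q (x r)|) :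
    N * δ ≤ Real.pi * (2 * S.card - 1) := by
  have hS' : (1:ℝ) ≤ S.card := by exact_mod_cast hS
  have hpi := Real.pi_pos
  rcases Nat.eq_zero_or_pos N with rfl | hN
  · simp only [Nat.cast_zero, zero_mul]
    exact mul_nonneg hpi.le (by linarith)
  have hmono : ∀ a b, a ≤ b → b ≤ N → x a ≤ x b := by
    intro a b hab
    induction hab with
    | refl => intro _; exact le_rfl
    | step h ih => intro hb; exact (ih (by omega)).trans (hx _ (by omega)).le
  have hpos : ∀ r ≤ N, 0 < sq p (x r) + sq q (x r) := by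
    intro r hrN
    have hne : sq p (x r) - sq q (x r) ≠ 0 := by
      intro h0
      rcases Nat.eq_or_lt_of_le hrN with h | h
      · have := hs (r - 1) (by omega)
        rw [Nat.sub_add_cancel (by omega), h0, mul_zero] at this
        exact lt_irrefl _ this
      · have := hs r h
        rw [h0, zero_mul] at this
        exact lt_irrefl _ this
    have h1 := sq_nonneg' p (x r)
    have h2 := sq_nonneg' q (x r)
    rcases h1.lt_or_eq with h | h
    · linarith
    · rcases h2.lt_or_eq with h' | h'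
      · linarith
      · exact absurd (by linarith) hne
  set X : ℕ → ℝ := fun r => x (min r N) with hX
  have hXm : Monotone X := by
    intro a b hab
    exact hmono _ _ (min_le_min_right _ hab) (min_le_right _ _)
  have hXp : ∀ r, 0 < sq p (X r) + sq q (X r) := fun r => hpos _ (min_le_right _ _)
  have h := vr_th p q hp hq N hXm hXp
  have hlow : ∀ r ∈ range N, ENNReal.ofReal δ ≤ edist (th p q (X (r + 1))) (th p q (X r)) := by
    intro r hrN
    have hrN' := mem_range.mp hrN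
    have e1 : X r = x r := by rw [hX]; simp only; rw [min_eq_left hrN'.le]
    have e2 : X (r + 1) = x (r + 1) := by rw [hX]; simp only; rw [min_eq_left hrN']
    rw [e1, e2, edist_dist, Real.dist_eq]
    apply ENNReal.ofReal_le_ofReal
    have w1 := hpos r hrN'.le
    have w2 := hpos (r + 1) hrN'
    have s1 := sin_sq_th p q w1
    have s2 := sin_sq_th p q w2
    have a1 := hr r hrN'.le
    have a2 := hr (r + 1) hrN'
    have a3 := hs r hrN'
    set u := Real.sin (th p q (x r)) ^ 2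
    set v := Real.sin (th p q (x (r + 1))) ^ 2
    have b1 : sq p (x r) - sq q (x r) = (2 * u - 1) * (sq p (x r) + sq q (x r)) := by linarith
    have b2 : sq p (x (r+1)) - sq q (x (r+1)) = (2 * v - 1) * (sq p (x (r+1)) + sq q (x (r+1))) := by
      linarith
    rw [b1, abs_mul, abs_of_pos w1] at a1
    rw [b2, abs_mul, abs_of_pos w2] at a2
    have c1 := le_of_mul_le_mul_right a1 w1
    have c2 := le_of_mul_le_mul_right a2 w2
    have c3 : (2 * u - 1) * (2 * v - 1) < 0 := by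
      rw [b1, b2] at a3
      have : ((2 * u - 1) * (2 * v - 1)) * ((sq p (x r) + sq q (x r)) *
          (sq p (x (r+1)) + sq q (x (r+1)))) < 0 := by linarith
      by_contra hcc
      exact absurd (mul_nonneg (not_lt.mp hcc) (mul_pos w1 w2).le) (not_le.mpr this)
    have d1 : δ ≤ |v - u| := by
      rcases mul_neg_iff.mp c3 with ⟨g1, g2⟩ | ⟨g1, g2⟩
      · rw [abs_of_pos g1] at c1
        rw [abs_of_neg g2] at c2
        rw [abs_of_neg (by linarith)]
        linarith
      · rw [abs_of_neg g1] at c1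
        rw [abs_of_pos g2] at c2
        rw [abs_of_pos (by linarith)]
        linarith
    have d2 : v - u = Real.sin (th p q (x (r+1)) - th p q (x r)) *
        Real.sin (th p q (x (r+1)) + th p q (x r)) := by
      rw [Real.sin_sub, Real.sin_add]
      have t1 := Real.sin_sq_add_cos_sq (th p q (x (r+1)))
      have t2 := Real.sin_sq_add_cos_sq (th p q (x r))
      have t1' : Real.cos (th p q (x (r+1))) ^ 2 = 1 - v := by linarith
      have t2' : Real.cos (th p q (x r)) ^ 2 = 1 - u := by linarith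
      have e : (Real.sin (th p q (x (r + 1))) * Real.cos (th p q (x r)) -
          Real.cos (th p q (x (r + 1))) * Real.sin (th p q (x r))) *
          (Real.sin (th p q (x (r + 1))) * Real.cos (th p q (x r)) +
          Real.cos (th p q (x (r + 1))) * Real.sin (th p q (x r))) =
          v * Real.cos (th p q (x r)) ^ 2 - Real.cos (th p q (x (r+1))) ^ 2 * u := by ring
      rw [e, t1', t2']
      ring
    rw [d2, abs_mul] at d1
    have d3 : |Real.sin (th p q (x (r+1)) - th p q (x r))| ≤ |th p q (x (r+1)) - th p q (x r)| :=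
      Real.abs_sin_le_abs
    have d4 : |Real.sin (th p q (x (r+1)) + th p q (x r))| ≤ 1 := Real.abs_sin_le_one _
    calc δ ≤ _ := d1
      _ ≤ |th p q (x (r+1)) - th p q (x r)| * 1 := by gcongr
      _ = _ := mul_one _
  have h2 : ((N : ℕ) : ℝ≥0∞) * ENNReal.ofReal δ ≤
      ENNReal.ofReal (Real.pi / 2) * ((4 * S.card - 2 : ℕ) : ℝ≥0∞) := by
    refine le_trans ?_ h
    have := sum_le_sum hlow
    simpa using this
  have h3 := ENNReal.toReal_mono (ENNReal.mul_ne_top ENNReal.ofReal_ne_top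
    (ENNReal.natCast_ne_top _)) h2
  rw [ENNReal.toReal_mul, ENNReal.toReal_mul, ENNReal.toReal_natCast, ENNReal.toReal_natCast,
    ENNReal.toReal_ofReal hδ.le, ENNReal.toReal_ofReal (by positivity),
    Nat.cast_sub (by omega)] at h3
  push_cast at h3
  linarith

end gen

section final

variable {s : ℕ} (c : Fin s → ℝ) (f : Fin s → ℝ[X])

/-- the positive half -/
noncomputable def pp (i : Fin s) : ℝ[X] := C (Real.sqrt (max (c i) 0)) * f i

/-- the negative half -/
noncomputable def qq (i : Fin s) : ℝ[X] := C (Real.sqrt (max (-c i) 0)) * f i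

theorem sq_pp (x : ℝ) : sq (pp c f) x = ∑ i, max (c i) 0 * (f i).eval x ^ 2 := by
  unfold sq pp
  refine sum_congr rfl fun i _ => ?_
  rw [eval_mul, eval_C, mul_pow, Real.sq_sqrt (le_max_right _ _)]

theorem sq_qq (x : ℝ) : sq (qq c f) x = ∑ i, max (-c i) 0 * (f i).eval x ^ 2 := by
  unfold sq qq
  refine sum_congr rfl fun i _ => ?_
  rw [eval_mul, eval_C, mul_pow, Real.sq_sqrt (le_max_right _ _)]

theorem supp_C_mul (a : ℝ) (g : ℝ[X]) : (C a * g).support ⊆ g.support := by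
  intro e he
  rw [mem_support_iff, coeff_C_mul] at he
  exact mem_support_iff.mpr (right_ne_zero_of_mul he)

theorem supp_pp (i : Fin s) : (pp c f i).support ⊆ (univ : Finset (Fin s)).biUnion
    fun i => (f i).support := by
  unfold pp
  refine (supp_C_mul _ _).trans ?_
  exact subset_biUnion_of_mem (fun i => (f i).support) (mem_univ i)

theorem supp_qq (i : Fin s) : (qq c f i).support ⊆ (univ : Finset (Fin s)).biUnion
    fun i => (f i).support := by
  unfold qq
  refine (supp_C_mul _ _).trans ?_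
  exact subset_biUnion_of_mem (fun i => (f i).support) (mem_univ i)

theorem ne_pq (h0 : ∑ i, C (c i) * f i ^ 2 ≠ 0) :
    (∃ i, pp c f i ≠ 0) ∨ ∃ j, qq c f j ≠ 0 := by
  by_contra hcon
  push Not at hcon
  apply h0
  refine sum_eq_zero fun i _ => ?_
  rcases eq_or_ne (f i) 0 with hf | hf
  · rw [hf]; simp
  · have h1 := hcon.1 i
    have h2 := hcon.2 i
    unfold pp at h1
    unfold qq at h2
    have h3 : Real.sqrt (max (c i) 0) = 0 := by
      rcases mul_eq_zero.mp h1 with h | h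
      · exact C_eq_zero.mp h
      · exact absurd h hf
    have h4 : Real.sqrt (max (-c i) 0) = 0 := by
      rcases mul_eq_zero.mp h2 with h | h
      · exact C_eq_zero.mp h
      · exact absurd h hf
    rw [Real.sqrt_eq_zero (le_max_right _ _)] at h3 h4
    have h5 : c i ≤ 0 := by rw [← h3]; exact le_max_left _ _
    have h6 : -c i ≤ 0 := by rw [← h4]; exact le_max_left _ _
    have : c i = 0 := by linarith
    rw [this]; simp

theorem card_ne (h0 : ∑ i, C (c i) * f i ^ 2 ≠ 0) :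
    1 ≤ ((univ : Finset (Fin s)).biUnion fun i => (f i).support).card := by
  rcases ne_pq c f h0 with ⟨i, hi⟩ | ⟨j, hj⟩
  · obtain ⟨e, he⟩ := nonempty_support_iff.mpr hi
    exact card_pos.mpr ⟨e, supp_pp c f i he⟩
  · obtain ⟨e, he⟩ := nonempty_support_iff.mpr hj
    exact card_pos.mpr ⟨e, supp_qq c f j he⟩

theorem eval_total (x : ℝ) : (∑ i, C (c i) * f i ^ 2).eval x =
    sq (pp c f) x - sq (qq c f) x := by
  rw [sq_pp, sq_qq, eval_finsetSum, ← sum_sub_distrib]
  refine sum_congr rfl fun i _ => ?_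
  rw [eval_mul, eval_C, eval_pow, ← sub_mul]
  congr 1
  rcases le_total (c i) 0 with h | h
  · rw [max_eq_right h, max_eq_left (by linarith)]; ring
  · rw [max_eq_left h, max_eq_right (by linarith)]; ring

theorem abs_total (x : ℝ) : ∑ i, |c i| * (f i).eval x ^ 2 =
    sq (pp c f) x + sq (qq c f) x := by
  rw [sq_pp, sq_qq, ← sum_add_distrib]
  refine sum_congr rfl fun i _ => ?_
  rw [← add_mul]
  congr 1
  rcases le_total (c i) 0 with h | h
  · rw [max_eq_right h, max_eq_left (by linarith), abs_of_nonpos h]; ring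
  · rw [max_eq_left h, max_eq_right (by linarith), abs_of_nonneg h]; ring

/-- tangent squared near one -/
theorem tan_sq {ε φ : ℝ} (hε : 0 < ε) (hε1 : ε ≤ 1)
    (hφ : φ ∈ Set.Ioo (Real.pi / 4) (Real.pi / 4 + ε / 8)) :
    0 < Real.cos φ ∧ 1 < Real.sin φ ^ 2 / Real.cos φ ^ 2 ∧
      Real.sin φ ^ 2 / Real.cos φ ^ 2 < 1 + ε := by
  have hpi := Real.pi_gt_three
  have hcos : 0 < Real.cos φ := Real.cos_pos_of_mem_Ioo ⟨by linarith [hφ.1], by linarith [hφ.2]⟩
  set η := 2 * φ - Real.pi / 2 with hη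
  have hη0 : 0 < η := by linarith [hφ.1]
  have hη1 : η < ε / 4 := by linarith [hφ.2]
  have h1 : Real.cos (2 * φ) = - Real.sin η := by
    have : 2 * φ = η + Real.pi / 2 := by rw [hη]; ring
    rw [this, Real.cos_add_pi_div_two]
  have hs0 : 0 < Real.sin η := Real.sin_pos_of_pos_of_lt_pi hη0 (by linarith)
  have hs1 : Real.sin η < ε / 4 := (Real.sin_lt hη0).trans hη1
  have h2 := Real.cos_sq φ
  have h3 := Real.sin_sq φ
  rw [h1] at h2
  have hc2 : 0 < Real.cos φ ^ 2 := by positivity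
  refine ⟨hcos, ?_, ?_⟩
  · rw [lt_div_iff₀ hc2]
    linarith
  · rw [div_lt_iff₀ hc2]
    nlinarith

theorem exists_lambda (h0 : ∑ i, C (c i) * f i ^ 2 ≠ 0) {ε : ℝ} (hε : 0 < ε) (hε1 : ε ≤ 1) :
    ∃ l : ℝ, 1 < l ∧ l < 1 + ε ∧
      {x : ℝ | ∑ i, max (c i) 0 * (f i).eval x ^ 2 =
        l * ∑ i, max (-c i) 0 * (f i).eval x ^ 2}.Finite ∧
      ({x : ℝ | ∑ i, max (c i) 0 * (f i).eval x ^ 2 =
        l * ∑ i, max (-c i) 0 * (f i).eval x ^ 2}.ncard : ℝ) ≤
        76 * ((univ : Finset (Fin s)).biUnion fun i => (f i).support).card / ε := by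
  have hpi := Real.pi_gt_three
  obtain ⟨φ, hφ, hfin, hcard⟩ := exists_rts (pp c f) (qq c f) (supp_pp c f) (supp_qq c f)
    (ne_pq c f h0) (α := Real.pi / 4) (β := Real.pi / 4 + ε / 8) (by positivity) (by linarith)
    (by linarith)
  obtain ⟨hcos, h1, h2⟩ := tan_sq hε hε1 hφ
  have hset : {x : ℝ | ∑ i, max (c i) 0 * (f i).eval x ^ 2 =
      (Real.sin φ ^ 2 / Real.cos φ ^ 2) * ∑ i, max (-c i) 0 * (f i).eval x ^ 2} =
      rts (pp c f) (qq c f) φ := by
    ext x
    unfold rts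
    simp only [Set.mem_ofPred_eq]
    rw [sq_pp, sq_qq]
    have hc2 : Real.cos φ ^ 2 ≠ 0 := by positivity
    constructor
    · intro h
      rw [h]
      field_simp
    · intro h
      field_simp
      linarith
  refine ⟨Real.sin φ ^ 2 / Real.cos φ ^ 2, h1, h2, ?_, ?_⟩
  · rw [hset]; exact hfin
  · rw [hset]
    refine hcard.trans ?_
    have e : Real.pi / 4 + ε / 8 - Real.pi / 4 = ε / 8 := by ring
    rw [e, div_le_div_iff₀ (by positivity) hε]
    have hn : (0:ℝ) ≤ ((univ : Finset (Fin s)).biUnion fun i => (f i).support).card := by positivity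
    have hpi2 := Real.pi_lt_d2
    nlinarith [mul_nonneg hn hε.le, mul_nonneg hn (by linarith : (0:ℝ) ≤ 3.15 - Real.pi),
      mul_nonneg (mul_nonneg hn hε.le) (by linarith : (0:ℝ) ≤ 3.15 - Real.pi),
      mul_nonneg hε.le (by linarith : (0:ℝ) ≤ Real.pi)]

end final

end Pool.Agent.W942.So
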