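import Mathlib

/-!
Gaussian combinations and the angle formula.
-/

open MeasureTheory ProbabilityTheory Finset
open scoped ENNReal NNReal

namespace Pool.Agent.W942.So

/-- the variance as a nonnegative real -/
noncomputable def nn (x : ℝ) : ℝ≥0 := Real.toNNReal x

/-- law of a Gaussian combination -/
theorem map_comb {ι : Type*} [Fintype ι] (v : ι → ℝ) :
    (Measure.pi fun _ : ι => gaussianReal 0 1).map (fun a => ∑ i, a i * v i) =
      gaussianReal 0 (nn (∑ i, v i ^ 2)) := by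
  have hmeas : Measurable (fun a : ι → ℝ => ∑ i, a i * v i) := by fun_prop
  have : IsProbabilityMeasure ((Measure.pi fun _ : ι => gaussianReal 0 1).map
      (fun a => ∑ i, a i * v i)) := Measure.isProbabilityMeasure_map hmeas.aemeasurable
  refine Measure.ext_of_charFun ?_
  funext s
  rw [charFun_apply_real, integral_map hmeas.aemeasurable
    (by fun_prop : Continuous _).aestronglyMeasurable, charFun_gaussianReal]
  have h1 : ∀ a : ι → ℝ, Complex.exp (s * ((∑ i, a i * v i : ℝ) : ℂ) * Complex.I) =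
      ∏ i, Complex.exp (((s * v i : ℝ) : ℂ) * (a i : ℂ) * Complex.I) := by
    intro a
    rw [← Complex.exp_sum]
    congr 1
    push_cast
    rw [mul_sum, sum_mul]
    refine sum_congr rfl fun i _ => ?_
    ring
  simp_rw [h1]
  rw [integral_fintype_prod_eq_prod
    (f := fun i (x : ℝ) => Complex.exp (((s * v i : ℝ) : ℂ) * (x : ℂ) * Complex.I))]
  have h2 : ∀ i, ∫ x : ℝ, Complex.exp (((s * v i : ℝ) : ℂ) * (x : ℂ) * Complex.I)
      ∂(gaussianReal 0 1) = Complex.exp (-((s * v i : ℝ) : ℂ) ^ 2 / 2) := by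
    intro i
    have := charFun_gaussianReal (μ := 0) (v := 1) (s * v i)
    rw [charFun_apply_real] at this
    rw [this]
    congr 1
    push_cast
    ring
  simp_rw [h2]
  rw [← Complex.exp_sum]
  congr 1
  have h3 : ((nn (∑ i, v i ^ 2) : ℝ≥0) : ℝ) = ∑ i, v i ^ 2 :=
    Real.coe_toNNReal _ (sum_nonneg fun _ _ => sq_nonneg _)
  have h4 : (((nn (∑ i, v i ^ 2) : ℝ≥0) : ℝ) : ℂ) = ∑ i, (v i : ℂ) ^ 2 := by
    rw [h3]; push_cast; rfl
  have h5 : ((nn (∑ i, v i ^ 2) : ℝ≥0) : ℂ) = ∑ i, (v i : ℂ) ^ 2 := h4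
  rw [h5]
  push_cast
  rw [← sum_div, sum_neg_distrib]
  simp only [mul_zero, zero_mul, zero_sub]
  rw [sum_mul]
  congr 2
  rw [neg_div]
  refine congrArg (fun z => -(z / 2)) (sum_congr rfl fun i _ => ?_)
  ring

/-- the same law, as a multiple of a standard Gaussian -/
theorem map_comb' {ι : Type*} [Fintype ι] (v : ι → ℝ) :
    (Measure.pi fun _ : ι => gaussianReal 0 1).map (fun a => ∑ i, a i * v i) =
      (gaussianReal 0 1).map (fun u => Real.sqrt (∑ i, v i ^ 2) * u) := by
  rw [map_comb, gaussianReal_map_const_mul]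
  congr 1
  · simp
  · apply NNReal.coe_injective
    have h0 : 0 ≤ ∑ i, v i ^ 2 := sum_nonneg fun _ _ => sq_nonneg _
    rw [mul_one]
    show ((nn (∑ i, v i ^ 2) : ℝ≥0) : ℝ) = Real.sqrt (∑ i, v i ^ 2) ^ 2
    rw [Real.sq_sqrt h0]
    exact Real.coe_toNNReal _ h0

/-- the density of the standard Gaussian of the plane -/
theorem prod_gauss : (gaussianReal 0 1).prod (gaussianReal 0 1) =
    (volume : Measure (ℝ × ℝ)).withDensity
      (fun z => ENNReal.ofReal ((2 * Real.pi)⁻¹ * Real.exp (-(z.1 ^ 2 + z.2 ^ 2) / 2))) := by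
  rw [gaussianReal_of_var_ne_zero _ one_ne_zero,
    prod_withDensity (measurable_gaussianPDF _ _) (measurable_gaussianPDF _ _),
    ← Measure.volume_eq_prod]
  congr 1
  funext z
  unfold gaussianPDF
  rw [← ENNReal.ofReal_mul (gaussianPDFReal_nonneg _ _ _)]
  congr 1
  unfold gaussianPDFReal
  simp only [NNReal.coe_one, mul_one, sub_zero]
  have h1 : (Real.sqrt (2 * Real.pi))⁻¹ * Real.exp (-z.1 ^ 2 / 2) *
      ((Real.sqrt (2 * Real.pi))⁻¹ * Real.exp (-z.2 ^ 2 / 2)) =
      ((Real.sqrt (2 * Real.pi)) * (Real.sqrt (2 * Real.pi)))⁻¹ *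
        (Real.exp (-z.1 ^ 2 / 2) * Real.exp (-z.2 ^ 2 / 2)) := by
    rw [mul_inv]; ring
  rw [h1, Real.mul_self_sqrt (by positivity), ← Real.exp_add]
  congr 2
  ring

/-- the radial factor -/
noncomputable def rad (r : ℝ) : ℝ≥0∞ :=
  ENNReal.ofReal r * ENNReal.ofReal ((2 * Real.pi)⁻¹ * Real.exp (-r ^ 2 / 2))

theorem sector_aux (S : Set (ℝ × ℝ)) (hS : MeasurableSet S) (T : Set ℝ) (hT : MeasurableSet T)
    (h : ∀ r : ℝ, 0 < r → ∀ θ ∈ Set.Ioo (-Real.pi) Real.pi,
      ((r * Real.cos θ, r * Real.sin θ) ∈ S ↔ θ ∈ T)) :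
    ((gaussianReal 0 1).prod (gaussianReal 0 1)) S =
      (∫⁻ r in Set.Ioi (0:ℝ), rad r) * volume (T ∩ Set.Ioo (-Real.pi) Real.pi) := by
  rw [prod_gauss, withDensity_apply _ hS, ← lintegral_indicator hS,
    ← lintegral_comp_polarCoord_symm]
  have hm1 : Measurable rad := by unfold rad; fun_prop
  have h1 : ∀ p ∈ polarCoord.target, ENNReal.ofReal p.1 •
      S.indicator (fun z : ℝ × ℝ =>
        ENNReal.ofReal ((2 * Real.pi)⁻¹ * Real.exp (-(z.1 ^ 2 + z.2 ^ 2) / 2)))
        (polarCoord.symm p) = rad p.1 * T.indicator 1 p.2 := by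
    rintro ⟨r, θ⟩ hp
    rw [polarCoord_target] at hp
    obtain ⟨hr, hθ⟩ := hp
    simp only [polarCoord_symm_apply, smul_eq_mul]
    have hr' : 0 < r := hr
    by_cases hmem : θ ∈ T
    · rw [Set.indicator_of_mem ((h r hr' θ hθ).mpr hmem), Set.indicator_of_mem hmem]
      unfold rad
      simp only [Pi.one_apply, mul_one]
      congr 5
      have := Real.sin_sq_add_cos_sq θ
      nlinarith
    · rw [Set.indicator_of_notMem (fun hh => hmem ((h r hr' θ hθ).mp hh)),
        Set.indicator_of_notMem hmem]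
      simp
  rw [setLIntegral_congr_fun polarCoord.open_target.measurableSet h1, polarCoord_target,
    Measure.volume_eq_prod, ← Measure.prod_restrict,
    lintegral_prod_mul hm1.aemeasurable (measurable_one.indicator hT).aemeasurable]
  congr 1
  rw [lintegral_indicator_one hT, Measure.restrict_apply hT]

theorem rad_mul : (∫⁻ r in Set.Ioi (0:ℝ), rad r) * ENNReal.ofReal (2 * Real.pi) = 1 := by
  have h := sector_aux Set.univ MeasurableSet.univ Set.univ MeasurableSet.univ (by simp)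
  rw [measure_univ, Set.univ_inter, Real.volume_Ioo] at h
  rw [h]
  congr 2
  ring

theorem sector (S : Set (ℝ × ℝ)) (hS : MeasurableSet S) (T : Set ℝ) (hT : MeasurableSet T)
    (h : ∀ r : ℝ, 0 < r → ∀ θ ∈ Set.Ioo (-Real.pi) Real.pi,
      ((r * Real.cos θ, r * Real.sin θ) ∈ S ↔ θ ∈ T)) :
    ((gaussianReal 0 1).prod (gaussianReal 0 1)) S * ENNReal.ofReal (2 * Real.pi) =
      volume (T ∩ Set.Ioo (-Real.pi) Real.pi) := by
  rw [sector_aux S hS T hT h, mul_assoc, mul_comm (volume _), ← mul_assoc, rad_mul, one_mul]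

/-- trigonometric comparison -/
theorem trig_aux {α t : ℝ} (h0 : 0 ≤ α) (h1 : α ≤ Real.pi / 2) (ht0 : 0 ≤ t)
    (ht1 : t ≤ Real.pi / 2) :
    Real.sin t * Real.cos α < Real.cos t * Real.sin α ↔ t < α := by
  have e : Real.sin t * Real.cos α - Real.cos t * Real.sin α = Real.sin (t - α) := by
    rw [Real.sin_sub]
  constructor
  · intro h
    have : Real.sin (t - α) < 0 := by linarith
    by_contra hc
    have := Real.sin_nonneg_of_nonneg_of_le_pi (x := t - α) (by linarith)
      (by linarith [Real.pi_pos])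
    linarith
  · intro h
    have := Real.sin_neg_of_neg_of_neg_pi_lt (x := t - α) (by linarith)
      (by linarith [Real.pi_pos])
    linarith

theorem trig {α θ : ℝ} (h0 : 0 ≤ α) (h1 : α ≤ Real.pi / 2)
    (hθ : θ ∈ Set.Ioo (-Real.pi) Real.pi) :
    |Real.sin θ| * Real.cos α < |Real.cos θ| * Real.sin α ↔ |θ| < α ∨ Real.pi - α < |θ| := by
  have hpi := Real.pi_pos
  -- reduce to nonnegative angles
  have key : ∀ t : ℝ, 0 ≤ t → t < Real.pi →
      (|Real.sin t| * Real.cos α < |Real.cos t| * Real.sin α ↔ t < α ∨ Real.pi - α < t) := by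
    intro t ht0 ht1
    have hs : 0 ≤ Real.sin t := Real.sin_nonneg_of_nonneg_of_le_pi ht0 ht1.le
    rw [abs_of_nonneg hs]
    rcases le_total t (Real.pi / 2) with h | h
    · rw [abs_of_nonneg (Real.cos_nonneg_of_neg_pi_div_two_le_of_le (by linarith) h),
        trig_aux h0 h1 ht0 h]
      constructor
      · intro hh; exact Or.inl hh
      · rintro (hh | hh)
        · exact hh
        · linarith
    · have hc : Real.cos t ≤ 0 := Real.cos_nonpos_of_pi_div_two_le_of_le h (by linarith)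
      rw [abs_of_nonpos hc, ← Real.cos_pi_sub, ← Real.sin_pi_sub t,
        trig_aux h0 h1 (by linarith) (by linarith)]
      constructor
      · intro hh; right; linarith
      · rintro (hh | hh)
        · linarith
        · linarith
  obtain ⟨ha, hb⟩ := hθ
  have habs : |θ| < Real.pi := abs_lt.mpr ⟨ha, hb⟩
  have hk := key |θ| (abs_nonneg _) habs
  rw [Real.cos_abs] at hk
  have hsin : |Real.sin (|θ|)| = |Real.sin θ| := by
    rcases abs_choice θ with h | h
    · rw [h]
    · rw [h, Real.sin_neg, abs_neg]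
  rw [hsin] at hk
  exact hk

theorem vol_T {α : ℝ} (h0 : 0 ≤ α) (h1 : α ≤ Real.pi / 2) :
    volume ({θ : ℝ | |θ| < α ∨ Real.pi - α < |θ|} ∩ Set.Ioo (-Real.pi) Real.pi) =
      ENNReal.ofReal (4 * α) := by
  have hpi := Real.pi_pos
  have hset : {θ : ℝ | |θ| < α ∨ Real.pi - α < |θ|} ∩ Set.Ioo (-Real.pi) Real.pi =
      (Set.Ioo (-α) α ∪ Set.Ioo (-Real.pi) (-(Real.pi - α))) ∪ Set.Ioo (Real.pi - α) Real.pi := by
    ext θ
    simp only [Set.mem_inter_iff, Set.mem_ofPred_eq, Set.mem_Ioo, Set.mem_union]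
    constructor
    · rintro ⟨h | h, h2, h3⟩
      · left; left; exact abs_lt.mp h
      · rcases lt_abs.mp h with h | h
        · right; exact ⟨h, h3⟩
        · left; right; exact ⟨h2, by linarith⟩
    · rintro ((⟨h2, h3⟩ | ⟨h2, h3⟩) | ⟨h2, h3⟩)
      · exact ⟨Or.inl (abs_lt.mpr ⟨h2, h3⟩), by linarith, by linarith⟩
      · refine ⟨Or.inr (lt_abs.mpr (Or.inr (by linarith))), by linarith, by linarith⟩
      · refine ⟨Or.inr (lt_abs.mpr (Or.inl (by linarith))), by linarith, by linarith⟩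
  rw [hset, measure_union, measure_union, Real.volume_Ioo, Real.volume_Ioo, Real.volume_Ioo,
    ← ENNReal.ofReal_add, ← ENNReal.ofReal_add]
  · congr 1; ring
  · linarith
  · linarith
  · linarith
  · linarith
  · rw [Set.disjoint_left]
    intro θ hθ hθ'
    linarith [hθ.1, hθ'.2]
  · exact measurableSet_Ioo
  · rw [Set.disjoint_left]
    intro θ hθ hθ'
    rcases hθ with hθ | hθ
    · linarith [hθ.2, hθ'.1]
    · linarith [hθ.2, hθ'.1]
  · exact measurableSet_Ioo

/-- **The angle formula.** -/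
theorem angle {α : ℝ} (h0 : 0 ≤ α) (h1 : α ≤ Real.pi / 2) :
    ((gaussianReal 0 1).prod (gaussianReal 0 1))
      {z : ℝ × ℝ | |z.2| * Real.cos α < |z.1| * Real.sin α} =
      ENNReal.ofReal (2 / Real.pi * α) := by
  have hpi := Real.pi_pos
  have hT : MeasurableSet {θ : ℝ | |θ| < α ∨ Real.pi - α < |θ|} := by
    have e : {θ : ℝ | |θ| < α ∨ Real.pi - α < |θ|} =
        {θ : ℝ | |θ| < α} ∪ {θ : ℝ | Real.pi - α < |θ|} := by
      ext θ; simp
    rw [e]
    exact (measurableSet_lt (by fun_prop) (by fun_prop)).union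
      (measurableSet_lt (by fun_prop) (by fun_prop))
  have h := sector {z : ℝ × ℝ | |z.2| * Real.cos α < |z.1| * Real.sin α}
    (measurableSet_lt (by fun_prop) (by fun_prop)) {θ : ℝ | |θ| < α ∨ Real.pi - α < |θ|}
    hT ?_
  · rw [vol_T h0 h1] at h
    have h2 : ENNReal.ofReal (4 * α) =
        ENNReal.ofReal (2 / Real.pi * α) * ENNReal.ofReal (2 * Real.pi) := by
      rw [← ENNReal.ofReal_mul (by positivity)]
      congr 1
      field_simp
      ring
    rw [h2] at h
    have h3 : ENNReal.ofReal (2 * Real.pi) ≠ 0 := by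
      simp [hpi]
    exact (ENNReal.mul_left_inj h3 ENNReal.ofReal_ne_top).mp h
  · intro r hr θ hθ
    simp only [Set.mem_ofPred_eq]
    rw [← trig h0 h1 hθ, abs_mul, abs_mul, abs_of_pos hr, mul_assoc, mul_assoc]
    exact mul_lt_mul_iff_right₀ hr

end Pool.Agent.W942.So
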