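import Pool.Agent.W942.SoD
import Pool.Agent.W942.SoG

/-!
The angle between the two halves of a sum of squares has small variation.
-/

open MeasureTheory ProbabilityTheory Finset Polynomial
open scoped ENNReal NNReal

namespace Pool.Agent.W942.So

variable {ι κ : Type*} [Fintype ι] [Fintype κ] (p : ι → ℝ[X]) (q : κ → ℝ[X])

/-- sum of the squares -/
noncomputable def sq {ι : Type*} [Fintype ι] (p : ι → ℝ[X]) (x : ℝ) : ℝ := ∑ i, (p i).eval x ^ 2

/-- combination -/
noncomputable def comb {ι : Type*} [Fintype ι] (p : ι → ℝ[X]) (a : ι → ℝ) : ℝ[X] :=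
  ∑ i, C (a i) * p i

theorem eval_comb {ι : Type*} [Fintype ι] (p : ι → ℝ[X]) (a : ι → ℝ) (x : ℝ) :
    (comb p a).eval x = ∑ i, a i * (p i).eval x := by
  unfold comb
  rw [eval_finsetSum]
  simp

theorem sq_nonneg' {ι : Type*} [Fintype ι] (p : ι → ℝ[X]) (x : ℝ) : 0 ≤ sq p x :=
  sum_nonneg fun _ _ => sq_nonneg _

/-- the angle -/
noncomputable def th (x : ℝ) : ℝ := Real.arcsin (Real.sqrt (sq p x / (sq p x + sq q x)))

theorem th_nonneg (x : ℝ) : 0 ≤ th p q x := Real.arcsin_nonneg.mpr (Real.sqrt_nonneg _)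

theorem th_le (x : ℝ) : th p q x ≤ Real.pi / 2 := Real.arcsin_le_pi_div_two _

theorem frac_le {x : ℝ} (hx : 0 < sq p x + sq q x) : sq p x / (sq p x + sq q x) ≤ 1 := by
  rw [div_le_one hx]
  linarith [sq_nonneg' q x]

theorem sin_th {x : ℝ} (hx : 0 < sq p x + sq q x) :
    Real.sin (th p q x) * Real.sqrt (sq p x + sq q x) = Real.sqrt (sq p x) := by
  unfold th
  rw [Real.sin_arcsin (by linarith [Real.sqrt_nonneg (sq p x / (sq p x + sq q x))])
    (Real.sqrt_le_one.mpr (frac_le p q hx)), ← Real.sqrt_mul (div_nonneg (sq_nonneg' p x) hx.le),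
    div_mul_cancel₀ _ hx.ne']

theorem cos_th {x : ℝ} (hx : 0 < sq p x + sq q x) :
    Real.cos (th p q x) * Real.sqrt (sq p x + sq q x) = Real.sqrt (sq q x) := by
  unfold th
  rw [Real.cos_arcsin, Real.sq_sqrt (div_nonneg (sq_nonneg' p x) hx.le),
    ← Real.sqrt_mul (by linarith [frac_le p q hx])]
  congr 1
  field_simp
  ring

/-- the Gaussian measure -/
noncomputable def mu (ι κ : Type*) [Fintype ι] [Fintype κ] : Measure ((ι → ℝ) × (κ → ℝ)) :=
  (Measure.pi fun _ : ι => gaussianReal 0 1).prod (Measure.pi fun _ : κ => gaussianReal 0 1)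

instance : IsProbabilityMeasure (mu ι κ) := by unfold mu; infer_instance

theorem meas_eval {ι : Type*} [Fintype ι] (p : ι → ℝ[X]) (x : ℝ) :
    Measurable fun a : ι → ℝ => (comb p a).eval x := by
  simp_rw [eval_comb]
  fun_prop

/-- transfer to the plane -/
theorem mu_plane (x : ℝ) (S : Set (ℝ × ℝ)) (hS : MeasurableSet S) :
    mu ι κ {ω | ((comb p ω.1).eval x, (comb q ω.2).eval x) ∈ S} =
      ((gaussianReal 0 1).prod (gaussianReal 0 1))
        {z | (Real.sqrt (sq p x) * z.1, Real.sqrt (sq q x) * z.2) ∈ S} := by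
  have h1 : mu ι κ {ω | ((comb p ω.1).eval x, (comb q ω.2).eval x) ∈ S} =
      ((mu ι κ).map (Prod.map (fun a => (comb p a).eval x) (fun b => (comb q b).eval x))) S := by
    rw [Measure.map_apply ((meas_eval p x).prodMap (meas_eval q x)) hS]
    rfl
  have h2 : ((gaussianReal 0 1).prod (gaussianReal 0 1))
        {z | (Real.sqrt (sq p x) * z.1, Real.sqrt (sq q x) * z.2) ∈ S} =
      (((gaussianReal 0 1).prod (gaussianReal 0 1)).map
        (Prod.map (fun u => Real.sqrt (sq p x) * u) (fun u => Real.sqrt (sq q x) * u))) S := by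
    rw [Measure.map_apply (by fun_prop) hS]
    rfl
  rw [h1, h2]
  unfold mu
  rw [← Measure.map_prod_map _ _ (meas_eval p x) (meas_eval q x),
    ← Measure.map_prod_map _ _ (by fun_prop) (by fun_prop)]
  simp_rw [eval_comb]
  rw [map_comb', map_comb']
  rfl

/-- where the first combination wins -/
def Ev (x : ℝ) : Set ((ι → ℝ) × (κ → ℝ)) :=
  {ω | |(comb q ω.2).eval x| < |(comb p ω.1).eval x|}

/-- where the second combination wins -/
def Ev' (x : ℝ) : Set ((ι → ℝ) × (κ → ℝ)) :=
  {ω | |(comb p ω.1).eval x| < |(comb q ω.2).eval x|}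

theorem meas_Ev (x : ℝ) : MeasurableSet (Ev p q x) :=
  measurableSet_lt ((meas_eval q x).comp measurable_snd).abs
    ((meas_eval p x).comp measurable_fst).abs

theorem meas_Ev' (x : ℝ) : MeasurableSet (Ev' p q x) :=
  measurableSet_lt ((meas_eval p x).comp measurable_fst).abs
    ((meas_eval q x).comp measurable_snd).abs

theorem mu_Ev {x : ℝ} (hx : 0 < sq p x + sq q x) :
    mu ι κ (Ev p q x) = ENNReal.ofReal (2 / Real.pi * th p q x) := by
  rw [← angle (th_nonneg p q x) (th_le p q x)]
  have h := mu_plane p q x {z : ℝ × ℝ | |z.2| < |z.1|}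
    (measurableSet_lt (by fun_prop) (by fun_prop))
  refine Eq.trans ?_ (h.trans ?_)
  · rfl
  · congr 1
    ext z
    simp only [Set.mem_ofPred_eq]
    rw [abs_mul, abs_mul, abs_of_nonneg (Real.sqrt_nonneg _), abs_of_nonneg (Real.sqrt_nonneg _),
      ← sin_th p q hx, ← cos_th p q hx]
    have hs : 0 < Real.sqrt (sq p x + sq q x) := Real.sqrt_pos.mpr hx
    constructor
    · intro hh
      have : (|z.2| * Real.cos (th p q x)) * Real.sqrt (sq p x + sq q x) <
          (|z.1| * Real.sin (th p q x)) * Real.sqrt (sq p x + sq q x) := by linarith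
      exact lt_of_mul_lt_mul_right this hs.le
    · intro hh
      have := mul_lt_mul_of_pos_right hh hs
      linarith

theorem mu_Ev' {x : ℝ} (hx : 0 < sq p x + sq q x) :
    mu ι κ (Ev' p q x) = ENNReal.ofReal (2 / Real.pi * (Real.pi / 2 - th p q x)) := by
  rw [← angle (by linarith [th_le p q x]) (by linarith [th_nonneg p q x])]
  have h := mu_plane p q x {z : ℝ × ℝ | |z.1| < |z.2|}
    (measurableSet_lt (by fun_prop) (by fun_prop))
  refine Eq.trans ?_ (h.trans ?_)
  · rfl
  · rw [Real.cos_pi_div_two_sub, Real.sin_pi_div_two_sub]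
    have hsw : ((gaussianReal 0 1).prod (gaussianReal 0 1))
        {z : ℝ × ℝ | |z.2| * Real.sin (th p q x) < |z.1| * Real.cos (th p q x)} =
        ((gaussianReal 0 1).prod (gaussianReal 0 1))
        {z : ℝ × ℝ | |z.1| * Real.sin (th p q x) < |z.2| * Real.cos (th p q x)} := by
      conv_lhs => rw [← Measure.prod_swap]
      rw [Measure.map_apply measurable_swap (measurableSet_lt (by fun_prop) (by fun_prop))]
      rfl
    rw [hsw]
    congr 1
    ext z
    simp only [Set.mem_ofPred_eq]
    rw [abs_mul, abs_mul, abs_of_nonneg (Real.sqrt_nonneg _), abs_of_nonneg (Real.sqrt_nonneg _),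
      ← sin_th p q hx, ← cos_th p q hx]
    have hs : 0 < Real.sqrt (sq p x + sq q x) := Real.sqrt_pos.mpr hx
    constructor
    · intro hh
      have : (|z.1| * Real.sin (th p q x)) * Real.sqrt (sq p x + sq q x) <
          (|z.2| * Real.cos (th p q x)) * Real.sqrt (sq p x + sq q x) := by linarith
      exact lt_of_mul_lt_mul_right this hs.le
    · intro hh
      have := mul_lt_mul_of_pos_right hh hs
      linarith

theorem ae_ne {x : ℝ} (hx : 0 < sq p x + sq q x) :
    ∀ᵐ ω ∂(mu ι κ), |(comb p ω.1).eval x| ≠ |(comb q ω.2).eval x| := by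
  have hd : Disjoint (Ev p q x) (Ev' p q x) := by
    rw [Set.disjoint_left]
    intro ω h1 h2
    have h1' : |(comb q ω.2).eval x| < |(comb p ω.1).eval x| := h1
    have h2' : |(comb p ω.1).eval x| < |(comb q ω.2).eval x| := h2
    exact absurd h1' (not_lt.mpr (le_of_lt h2'))
  have h1 : mu ι κ (Ev p q x ∪ Ev' p q x) = 1 := by
    rw [measure_union hd (meas_Ev' p q x), mu_Ev p q hx, mu_Ev' p q hx,
      ← ENNReal.ofReal_add]
    · rw [← ENNReal.ofReal_one]
      congr 1
      have := Real.pi_pos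
      field_simp
      ring
    · exact mul_nonneg (by positivity) (th_nonneg p q x)
    · exact mul_nonneg (by positivity) (by linarith [th_le p q x])
  have h2 := (prob_compl_eq_zero_iff ((meas_Ev p q x).union (meas_Ev' p q x))).mpr h1
  rw [ae_iff]
  refine measure_mono_null ?_ h2
  intro ω hω hmem
  simp only [Set.mem_ofPred_eq, ne_eq, not_not] at hω
  rcases hmem with h | h
  · exact absurd hω.symm (ne_of_lt h)
  · exact absurd hω (ne_of_lt h)

theorem supp_comb {ι : Type*} [Fintype ι] (p : ι → ℝ[X]) (a : ι → ℝ) {S : Finset ℕ}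
    (hS : ∀ i, (p i).support ⊆ S) : (comb p a).support ⊆ S := by
  intro e he
  by_contra hno
  apply mem_support_iff.mp he
  unfold comb
  rw [finsetSum_coeff]
  refine sum_eq_zero fun i _ => ?_
  rw [coeff_C_mul]
  have : e ∉ (p i).support := fun h => hno (hS i h)
  rw [notMem_support_iff.mp this, mul_zero]

variable {X : ℕ → ℝ}

/-- switches of the events along a chain -/
theorem switch_count {S : Finset ℕ} (hp : ∀ i, (p i).support ⊆ S) (hq : ∀ j, (q j).support ⊆ S)
    (N : ℕ) (hX : Monotone X) (ω : (ι → ℝ) × (κ → ℝ))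
    (hω : ∀ r ≤ N, |(comb p ω.1).eval (X r)| ≠ |(comb q ω.2).eval (X r)|) :
    ∑ r ∈ range N, (symmDiff (Ev p q (X (r + 1))) (Ev p q (X r))).indicator
      (fun _ => (1 : ℝ≥0∞)) ω ≤ ((4 * S.card - 2 : ℕ) : ℝ≥0∞) := by
  classical
  set U := comb p ω.1 - comb q ω.2 with hU
  set V := comb p ω.1 + comb q ω.2 with hV
  have hprod : ∀ x, U.eval x * V.eval x =
      (comb p ω.1).eval x ^ 2 - (comb q ω.2).eval x ^ 2 := by
    intro x
    rw [hU, hV, eval_sub, eval_add]
    ring
  have hnz : ∀ r ≤ N, U.eval (X r) * V.eval (X r) ≠ 0 := by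
    intro r hr h
    rw [hprod, sub_eq_zero, sq_eq_sq_iff_abs_eq_abs] at h
    exact hω r hr h
  have hU0 : U ≠ 0 := by
    intro h; apply hnz 0 (Nat.zero_le _); rw [h]; simp
  have hV0 : V ≠ 0 := by
    intro h; apply hnz 0 (Nat.zero_le _); rw [h]; simp
  have hUs : U.support ⊆ S := by
    intro e he
    by_contra hno
    apply mem_support_iff.mp he
    rw [hU, coeff_sub, notMem_support_iff.mp fun h => hno (supp_comb p ω.1 hp h),
      notMem_support_iff.mp fun h => hno (supp_comb q ω.2 hq h), sub_zero]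
  have hVs : V.support ⊆ S := by
    intro e he
    by_contra hno
    apply mem_support_iff.mp he
    rw [hV, coeff_add, notMem_support_iff.mp fun h => hno (supp_comb p ω.1 hp h),
      notMem_support_iff.mp fun h => hno (supp_comb q ω.2 hq h), add_zero]
  have hmem : ∀ r ≤ N, ω ∈ Ev p q (X r) ↔ 0 < U.eval (X r) * V.eval (X r) := by
    intro r hr
    rw [hprod, sub_pos, sq_lt_sq]
    rfl
  have hle : ∀ r ∈ range N, (symmDiff (Ev p q (X (r + 1))) (Ev p q (X r))).indicator
      (fun _ => (1 : ℝ≥0∞)) ω ≤ (if U.eval (X r) * U.eval (X (r + 1)) < 0 then 1 else 0) +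
        (if V.eval (X r) * V.eval (X (r + 1)) < 0 then 1 else 0) := by
    intro r hr
    have hrN := mem_range.mp hr
    by_cases hm : ω ∈ symmDiff (Ev p q (X (r + 1))) (Ev p q (X r))
    · rw [Set.indicator_of_mem hm]
      have hneg : (U.eval (X r) * V.eval (X r)) * (U.eval (X (r + 1)) * V.eval (X (r + 1))) < 0 := by
        rcases (Set.mem_symmDiff).mp hm with ⟨h1, h2⟩ | ⟨h1, h2⟩
        · rw [hmem _ (by omega)] at h1
          rw [hmem _ (by omega)] at h2
          have := lt_of_le_of_ne (not_lt.mp h2) (hnz r (by omega))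
          exact mul_neg_of_neg_of_pos this h1
        · rw [hmem _ (by omega)] at h1
          rw [hmem _ (by omega)] at h2
          have := lt_of_le_of_ne (not_lt.mp h2) (hnz (r + 1) (by omega))
          exact mul_neg_of_pos_of_neg h1 this
      have heq : (U.eval (X r) * V.eval (X r)) * (U.eval (X (r + 1)) * V.eval (X (r + 1))) =
          (U.eval (X r) * U.eval (X (r + 1))) * (V.eval (X r) * V.eval (X (r + 1))) := by ring
      rw [heq] at hneg
      rcases mul_neg_iff.mp hneg with ⟨_, h⟩ | ⟨h, _⟩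
      · rw [if_pos h]
        exact le_add_self
      · rw [if_pos h]
        exact le_self_add
    · rw [Set.indicator_of_notMem hm]
      exact zero_le
  have hn : 1 ≤ S.card := by
    obtain ⟨e, he⟩ := nonempty_support_iff.mpr hU0
    exact card_pos.mpr ⟨e, hUs he⟩
  calc _ ≤ ∑ r ∈ range N, ((if U.eval (X r) * U.eval (X (r + 1)) < 0 then (1 : ℝ≥0∞) else 0) +
        (if V.eval (X r) * V.eval (X (r + 1)) < 0 then 1 else 0)) := sum_le_sum hle
    _ = (((range N).filter fun r => U.eval (X r) * U.eval (X (r + 1)) < 0).card : ℝ≥0∞) +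
        (((range N).filter fun r => V.eval (X r) * V.eval (X (r + 1)) < 0).card : ℝ≥0∞) := by
        rw [sum_add_distrib, sum_boole, sum_boole]
    _ ≤ ((4 * S.card - 2 : ℕ) : ℝ≥0∞) := by
        rw [← Nat.cast_add]
        apply Nat.cast_le.mpr
        have a1 := switches_le U hU0 N X hX
        have a2 := switches_le V hV0 N X hX
        have b1 := real_roots_le U hU0
        have b2 := real_roots_le V hV0
        have c1 := card_le_card hUs
        have c2 := card_le_card hVs
        omega

theorem vr_th {S : Finset ℕ} (hp : ∀ i, (p i).support ⊆ S) (hq : ∀ j, (q j).support ⊆ S)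
    (N : ℕ) (hX : Monotone X) (hpos : ∀ r, 0 < sq p (X r) + sq q (X r)) :
    ∑ r ∈ range N, edist (th p q (X (r + 1))) (th p q (X r)) ≤
      ENNReal.ofReal (Real.pi / 2) * ((4 * S.card - 2 : ℕ) : ℝ≥0∞) := by
  have hstep : ∀ r, edist (th p q (X (r + 1))) (th p q (X r)) ≤
      ENNReal.ofReal (Real.pi / 2) *
        mu ι κ (symmDiff (Ev p q (X (r + 1))) (Ev p q (X r))) := by
    intro r
    have key : ∀ x y : ℝ, 0 < sq p x + sq q x → 0 < sq p y + sq q y →
        th p q x - th p q y ≤ Real.pi / 2 * (mu ι κ).real (symmDiff (Ev p q x) (Ev p q y)) := by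
      intro x y hx hy
      have h1 : (mu ι κ).real (Ev p q x) = 2 / Real.pi * th p q x := by
        unfold Measure.real
        rw [mu_Ev p q hx, ENNReal.toReal_ofReal (mul_nonneg (by positivity) (th_nonneg p q x))]
      have h2 : (mu ι κ).real (Ev p q y) = 2 / Real.pi * th p q y := by
        unfold Measure.real
        rw [mu_Ev p q hy, ENNReal.toReal_ofReal (mul_nonneg (by positivity) (th_nonneg p q y))]
      have h3 : (mu ι κ).real (Ev p q x) ≤
          (mu ι κ).real (symmDiff (Ev p q x) (Ev p q y)) + (mu ι κ).real (Ev p q y) := by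
        refine (measureReal_mono ?_).trans (measureReal_union_le _ _)
        intro ω hω
        by_cases hy : ω ∈ Ev p q y
        · exact Or.inr hy
        · exact Or.inl (Set.mem_symmDiff.mpr (Or.inl ⟨hω, hy⟩))
      rw [h1, h2] at h3
      have hpi := Real.pi_pos
      have h4 : 2 / Real.pi * (th p q x - th p q y) ≤
          (mu ι κ).real (symmDiff (Ev p q x) (Ev p q y)) := by linarith
      calc th p q x - th p q y = Real.pi / 2 * (2 / Real.pi * (th p q x - th p q y)) := by
            field_simp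
        _ ≤ _ := by gcongr
    have h1 := key (X (r+1)) (X r) (hpos _) (hpos _)
    have h2 := key (X r) (X (r+1)) (hpos _) (hpos _)
    rw [symmDiff_comm] at h2
    have h3 : |th p q (X (r + 1)) - th p q (X r)| ≤
        Real.pi / 2 * (mu ι κ).real (symmDiff (Ev p q (X (r+1))) (Ev p q (X r))) := by
      rw [abs_le]
      constructor <;> linarith
    rw [edist_dist, Real.dist_eq]
    refine (ENNReal.ofReal_le_ofReal h3).trans ?_
    rw [ENNReal.ofReal_mul (by positivity)]
    unfold Measure.real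
    rw [ENNReal.ofReal_toReal (measure_ne_top _ _)]
  have hms : ∀ r, MeasurableSet (symmDiff (Ev p q (X (r + 1))) (Ev p q (X r))) := fun r =>
    (meas_Ev p q _).symmDiff (meas_Ev p q _)
  calc ∑ r ∈ range N, edist (th p q (X (r + 1))) (th p q (X r))
      ≤ ∑ r ∈ range N, ENNReal.ofReal (Real.pi / 2) *
        mu ι κ (symmDiff (Ev p q (X (r + 1))) (Ev p q (X r))) := sum_le_sum fun r _ => hstep r
    _ = ENNReal.ofReal (Real.pi / 2) * ∑ r ∈ range N,
        mu ι κ (symmDiff (Ev p q (X (r + 1))) (Ev p q (X r))) := (mul_sum _ _ _).symm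
    _ = ENNReal.ofReal (Real.pi / 2) * ∫⁻ ω, ∑ r ∈ range N,
        (symmDiff (Ev p q (X (r + 1))) (Ev p q (X r))).indicator (fun _ => (1 : ℝ≥0∞)) ω
          ∂(mu ι κ) := by
        congr 1
        rw [lintegral_finsetSum _ fun r _ => measurable_const.indicator (hms r)]
        refine sum_congr rfl fun r _ => ?_
        rw [lintegral_indicator_const (hms r), one_mul]
    _ ≤ ENNReal.ofReal (Real.pi / 2) * ∫⁻ _, ((4 * S.card - 2 : ℕ) : ℝ≥0∞) ∂(mu ι κ) := by
        refine mul_le_mul' le_rfl (lintegral_mono_ae ?_)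
        have hall : ∀ᵐ ω ∂(mu ι κ), ∀ r ∈ range (N + 1),
            |(comb p ω.1).eval (X r)| ≠ |(comb q ω.2).eval (X r)| := by
          rw [Filter.eventually_all_finset]
          intro r _
          exact ae_ne p q (hpos r)
        filter_upwards [hall] with ω hω
        exact switch_count p q hp hq N hX ω fun r hr => hω r (mem_range.mpr (by omega))
    _ = _ := by simp

end Pool.Agent.W942.So
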