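import Mathlib

/-!
Counting preimages by the variation: for every real function `g` and every set `s` of reals,
the integral over the levels `y` of the number of points of `s` where `g = y` is at most the
total variation of `g` on `s`.
-/

open MeasureTheory Set Filter
open scoped ENNReal Topology

namespace Pool.Agent.W942.Ta

/-- the left end of cell `j` at level `n` -/
noncomputable def cellEnd (n j : ℕ) : ℝ := -(2:ℝ) ^ n + j / 2 ^ n

/-- cell `j` at level `n` of the set `s` -/
noncomputable def cell (s : Set ℝ) (n j : ℕ) : Set ℝ := s ∩ Ico (cellEnd n j) (cellEnd n (j + 1))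

theorem cellEnd_mono (n : ℕ) {i j : ℕ} (h : i ≤ j) : cellEnd n i ≤ cellEnd n j := by
  unfold cellEnd
  have : (i:ℝ) ≤ j := by exact_mod_cast h
  gcongr

/-- number of cells whose hull of values contains `y` -/
noncomputable def Nn (g : ℝ → ℝ) (s : Set ℝ) (n : ℕ) (y : ℝ) : ℝ≥0∞ :=
  ∑ j ∈ Finset.range (2 * 4 ^ n), (convexHull ℝ (g '' cell s n j)).indicator 1 y

theorem vol_hull (g : ℝ → ℝ) (C : Set ℝ) :
    volume (convexHull ℝ (g '' C)) ≤ eVariationOn g C := by
  refine (Real.volume_le_diam _).trans ?_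
  rw [convexHull_ediam]
  refine Metric.ediam_le ?_
  rintro _ ⟨x, hx, rfl⟩ _ ⟨y, hy, rfl⟩
  exact eVariationOn.edist_le g hx hy

theorem sum_cells (g : ℝ → ℝ) (s : Set ℝ) (n N : ℕ) :
    ∑ j ∈ Finset.range N, eVariationOn g (cell s n j) ≤
      eVariationOn g (s ∩ Ico (cellEnd n 0) (cellEnd n N)) := by
  induction N with
  | zero => simp
  | succ N ih =>
    rw [Finset.sum_range_succ]
    refine (add_le_add_left ih _).trans ?_
    refine (eVariationOn.add_le_union g ?_).trans ?_
    · rintro x ⟨_, hx⟩ y ⟨_, hy⟩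
      exact hx.2.le.trans hy.1
    · refine eVariationOn.mono g ?_
      rintro x (⟨hx, hx'⟩ | ⟨hx, hx'⟩)
      · exact ⟨hx, hx'.1, hx'.2.trans_le (cellEnd_mono n (Nat.le_succ N))⟩
      · exact ⟨hx, (cellEnd_mono n (Nat.zero_le N)).trans hx'.1, hx'.2⟩

theorem meas_hull (A : Set ℝ) : MeasurableSet (convexHull ℝ A) :=
  (Convex.ordConnected (convex_convexHull ℝ A)).measurableSet

theorem lint_Nn (g : ℝ → ℝ) (s : Set ℝ) (n : ℕ) : ∫⁻ y, Nn g s n y ≤ eVariationOn g s := by
  unfold Nn
  rw [lintegral_finsetSum]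
  · calc ∑ j ∈ Finset.range (2 * 4 ^ n), ∫⁻ y, (convexHull ℝ (g '' cell s n j)).indicator 1 y
        = ∑ j ∈ Finset.range (2 * 4 ^ n), volume (convexHull ℝ (g '' cell s n j)) := by
          refine Finset.sum_congr rfl fun j _ => ?_
          exact lintegral_indicator_one (meas_hull _)
      _ ≤ ∑ j ∈ Finset.range (2 * 4 ^ n), eVariationOn g (cell s n j) :=
          Finset.sum_le_sum fun j _ => vol_hull g _
      _ ≤ _ := (sum_cells g s n _).trans (eVariationOn.mono g inter_subset_left)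
  · intro j _
    exact measurable_one.indicator (meas_hull _)

/-- the index of the cell of `x` -/
noncomputable def idx (n : ℕ) (x : ℝ) : ℕ := ⌊(x + 2 ^ n) * 2 ^ n⌋₊

theorem mem_cell_idx {s : Set ℝ} {n : ℕ} {x : ℝ} (hx : x ∈ s) (h : -(2:ℝ) ^ n ≤ x) :
    x ∈ cell s n (idx n x) := by
  have h2 : (0:ℝ) < 2 ^ n := by positivity
  have h0 : 0 ≤ (x + 2 ^ n) * 2 ^ n := by
    apply mul_nonneg _ h2.le
    linarith
  refine ⟨hx, ?_, ?_⟩
  · have := Nat.floor_le h0
    unfold cellEnd idx
    rw [neg_add_le_iff_le_add, div_le_iff₀ h2]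
    linarith
  · have := Nat.lt_floor_add_one ((x + 2 ^ n) * 2 ^ n)
    unfold cellEnd idx
    rw [lt_neg_add_iff_add_lt, lt_div_iff₀ h2]
    push_cast
    linarith

theorem idx_lt {n : ℕ} {x : ℝ} (h : -(2:ℝ) ^ n ≤ x) (h' : x < 2 ^ n) : idx n x < 2 * 4 ^ n := by
  have h2 : (0:ℝ) < 2 ^ n := by positivity
  unfold idx
  rw [Nat.floor_lt (mul_nonneg (by linarith) h2.le)]
  push_cast
  have : (4:ℝ) ^ n = 2 ^ n * 2 ^ n := by
    rw [← mul_pow]; norm_num
  rw [this]
  nlinarith

theorem idx_ne {n : ℕ} {x y : ℝ} (hx : -(2:ℝ) ^ n ≤ x) (hy : -(2:ℝ) ^ n ≤ y)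
    (h : 1 ≤ |x - y| * 2 ^ n) : idx n x ≠ idx n y := by
  intro he
  have h2 : (0:ℝ) < 2 ^ n := by positivity
  have h1 := Nat.floor_le (mul_nonneg (by linarith : 0 ≤ x + 2 ^ n) h2.le)
  have h1' := Nat.lt_floor_add_one ((x + 2 ^ n) * 2 ^ n)
  have h3 := Nat.floor_le (mul_nonneg (by linarith : 0 ≤ y + 2 ^ n) h2.le)
  have h3' := Nat.lt_floor_add_one ((y + 2 ^ n) * 2 ^ n)
  unfold idx at he
  rw [he] at h1 h1'
  have : |x - y| * 2 ^ n < 1 := by
    rw [← abs_of_pos h2, ← abs_mul, abs_lt]
    constructor <;> nlinarith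
  linarith

/-- **Counting preimages**, with a measurable majorant. -/
theorem indicatrix' (g : ℝ → ℝ) (s : Set ℝ) :
    ∃ a : ℝ → ℝ≥0∞, Measurable a ∧
      (∀ y, ((({x ∈ s | g x = y} : Set ℝ).encard : ℕ∞) : ℝ≥0∞) ≤ a y) ∧
      ∫⁻ y, a y ≤ eVariationOn g s := by
  have key : ∀ y, ((({x ∈ s | g x = y} : Set ℝ).encard : ℕ∞) : ℝ≥0∞) ≤
      liminf (fun n => Nn g s n y) atTop := by
    intro y
    -- every finite subset
    have hfin : ∀ F : Finset ℝ, (F : Set ℝ) ⊆ {x ∈ s | g x = y} →
        ((F.card : ℕ) : ℝ≥0∞) ≤ liminf (fun n => Nn g s n y) atTop := by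
      intro F hF
      refine le_liminf_of_le (by isBoundedDefault) ?_
      -- eventually
      have e1 : ∀ᶠ n : ℕ in atTop, ∀ x ∈ F, |x| < (2:ℝ) ^ n := by
        rw [Filter.eventually_all_finset]
        intro x _
        exact (tendsto_pow_atTop_atTop_of_one_lt (one_lt_two)).eventually_gt_atTop |x|
      have e2 : ∀ᶠ n : ℕ in atTop, ∀ x ∈ F, ∀ z ∈ F, x ≠ z → 1 ≤ |x - z| * (2:ℝ) ^ n := by
        rw [Filter.eventually_all_finset]
        intro x _
        rw [Filter.eventually_all_finset]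
        intro z _
        by_cases hxz : x = z
        · simp [hxz]
        · have hpos : 0 < |x - z| := abs_pos.mpr (sub_ne_zero.mpr hxz)
          have := ((tendsto_pow_atTop_atTop_of_one_lt (one_lt_two (α := ℝ))).const_mul_atTop
            hpos).eventually_ge_atTop 1
          filter_upwards [this] with n hn _
          exact hn
      filter_upwards [e1, e2] with n h1 h2
      have hneg : ∀ x ∈ F, -(2:ℝ) ^ n ≤ x := fun x hx => (abs_lt.mp (h1 x hx)).1.le
      unfold Nn
      calc ((F.card : ℕ) : ℝ≥0∞) = ∑ x ∈ F, (1 : ℝ≥0∞) := by simp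
        _ ≤ ∑ x ∈ F, (convexHull ℝ (g '' cell s n (idx n x))).indicator 1 y := by
            refine Finset.sum_le_sum fun x hx => ?_
            have hm : y ∈ convexHull ℝ (g '' cell s n (idx n x)) := by
              apply subset_convexHull
              exact ⟨x, mem_cell_idx (hF hx).1 (hneg x hx), (hF hx).2⟩
            rw [Set.indicator_of_mem hm]
            simp
        _ = ∑ j ∈ F.image (idx n), (convexHull ℝ (g '' cell s n j)).indicator 1 y := by
            rw [Finset.sum_image]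
            intro x hx z hz he
            by_contra hne
            exact idx_ne (hneg x hx) (hneg z hz) (h2 x hx z hz hne) he
        _ ≤ _ := by
            refine Finset.sum_le_sum_of_subset ?_
            intro j hj
            obtain ⟨x, hx, rfl⟩ := Finset.mem_image.mp hj
            exact Finset.mem_range.mpr (idx_lt (hneg x hx) (abs_lt.mp (h1 x hx)).2)
    by_cases hf : ({x ∈ s | g x = y} : Set ℝ).Finite
    · have := hfin hf.toFinset (by simp)
      rw [hf.encard_eq_coe_toFinset_card]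
      exact this
    · have hinf : ({x ∈ s | g x = y} : Set ℝ).Infinite := hf
      rw [hinf.encard_eq]
      refine le_of_forall_lt ?_
      intro c hc
      simp only [ENat.toENNReal_top] at hc
      obtain ⟨k, hk⟩ := ENNReal.exists_nat_gt hc.ne
      obtain ⟨F, hF, hFc⟩ := hinf.exists_subset_card_eq k
      exact hk.trans_le (hFc ▸ hfin F hF)
  have hm : ∀ n, Measurable (Nn g s n) := by
    intro n
    unfold Nn
    exact Finset.measurable_sum _ fun j _ => measurable_one.indicator (meas_hull _)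
  refine ⟨fun y => liminf (fun n => Nn g s n y) atTop, Measurable.liminf hm, key, ?_⟩
  calc ∫⁻ y, liminf (fun n => Nn g s n y) atTop ≤ liminf (fun n => ∫⁻ y, Nn g s n y) atTop := by
        exact lintegral_liminf_le hm
    _ ≤ liminf (fun _ : ℕ => eVariationOn g s) atTop := by
        refine liminf_le_liminf ?_
        exact Filter.Eventually.of_forall fun n => lint_Nn g s n
    _ = eVariationOn g s := liminf_const _

/-- **Counting preimages.** -/
theorem indicatrix (g : ℝ → ℝ) (s : Set ℝ) :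
    ∫⁻ y, ((({x ∈ s | g x = y} : Set ℝ).encard : ℕ∞) : ℝ≥0∞) ≤ eVariationOn g s := by
  obtain ⟨a, _, h1, h2⟩ := indicatrix' g s
  exact (lintegral_mono h1).trans h2

end Pool.Agent.W942.Ta
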