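import Pool.Agent.W942.TaM
import Pool.Agent.W942.TaI

/-!
Sums of products of sparse polynomials divided by their absolute versions have small variation.
-/

open Finset Polynomial MeasureTheory
open scoped ENNReal

namespace Pool.Agent.W942.Ta

variable {X : ℕ → ℝ}

/-- share of `a i` against finitely many others, one step -/
theorem share_step {ι : Type*} [Fintype ι] [DecidableEq ι] (a b : ι → ℝ) (ha : ∀ i, 0 < a i)
    (hb : ∀ i, 0 < b i) (i : ι) :
    |b i / (∑ l, b l) - a i / (∑ l, a l)| ≤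
      ∑ l ∈ univ.erase i, |b i / (b i + b l) - a i / (a i + a l)| := by
  have hA : 0 < ∑ l, a l := sum_pos (fun l _ => ha l) ⟨i, mem_univ _⟩
  have hB : 0 < ∑ l, b l := sum_pos (fun l _ => hb l) ⟨i, mem_univ _⟩
  have e1 : b i / (∑ l, b l) - a i / (∑ l, a l) =
      ∑ l ∈ univ.erase i, (b i * a l - a i * b l) / ((∑ l, b l) * (∑ l, a l)) := by
    rw [div_sub_div _ _ hB.ne' hA.ne', ← sum_div]
    congr 1
    rw [sum_sub_distrib, ← mul_sum, ← mul_sum]
    have h1 : ∑ l, a l = a i + ∑ l ∈ univ.erase i, a l := (add_sum_erase _ _ (mem_univ i)).symm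
    have h2 : ∑ l, b l = b i + ∑ l ∈ univ.erase i, b l := (add_sum_erase _ _ (mem_univ i)).symm
    rw [h1, h2]
    ring
  rw [e1]
  refine (abs_sum_le_sum_abs _ _).trans (sum_le_sum fun l hl => ?_)
  have hli : l ≠ i := (mem_erase.mp hl).1
  have hai := ha i
  have hbi := hb i
  have hal := ha l
  have hbl := hb l
  rw [div_sub_div _ _ (by positivity) (by positivity)]
  have e2 : b i * (a i + a l) - (b i + b l) * a i = b i * a l - a i * b l := by ring
  rw [e2, abs_div, abs_div]
  rw [abs_of_pos (mul_pos hB hA), abs_of_pos (by positivity : 0 < (b i + b l) * (a i + a l))]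
  have h1 : a i + a l ≤ ∑ l, a l := by
    rw [← add_sum_erase _ _ (mem_univ i)]
    have := single_le_sum (f := a) (fun j _ => (ha j).le) hl
    linarith
  have h2 : b i + b l ≤ ∑ l, b l := by
    rw [← add_sum_erase _ _ (mem_univ i)]
    have := single_le_sum (f := b) (fun j _ => (hb j).le) hl
    linarith
  gcongr

theorem prod_step {J : Type*} (s : Finset J) (a b : J → ℝ) (ha : ∀ q ∈ s, |a q| ≤ 1)
    (hb : ∀ q ∈ s, |b q| ≤ 1) : |∏ q ∈ s, b q - ∏ q ∈ s, a q| ≤ ∑ q ∈ s, |b q - a q| := by
  classical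
  induction s using Finset.induction_on with
  | empty => simp
  | insert q s hq ih =>
    rw [prod_insert hq, prod_insert hq, sum_insert hq]
    have ih' := ih (fun r hr => ha r (mem_insert_of_mem hr)) (fun r hr => hb r (mem_insert_of_mem hr))
    have hP : |∏ r ∈ s, b r| ≤ 1 := by
      rw [abs_prod]
      exact prod_le_one (fun _ _ => abs_nonneg _) fun r hr => hb r (mem_insert_of_mem hr)
    have e : b q * ∏ r ∈ s, b r - a q * ∏ r ∈ s, a r =
        (b q - a q) * ∏ r ∈ s, b r + a q * (∏ r ∈ s, b r - ∏ r ∈ s, a r) := by ring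
    rw [e]
    refine (abs_add_le _ _).trans ?_
    rw [abs_mul, abs_mul]
    have h1 : |b q - a q| * |∏ r ∈ s, b r| ≤ |b q - a q| * 1 := by gcongr
    have h2 : |a q| * |∏ r ∈ s, b r - ∏ r ∈ s, a r| ≤ 1 * ∑ r ∈ s, |b r - a r| := by
      have := ha q (mem_insert_self _ _)
      gcongr
    linarith

section Fam

variable {ι : Type*} [Fintype ι] {m : ℕ} (f : ι → Fin m → ℝ[X])

/-- product of the absolute sums -/
noncomputable def AA (i : ι) (x : ℝ) : ℝ := ∏ j, ab (f i j) x

/-- the absolute version of the whole representation -/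
noncomputable def WW (x : ℝ) : ℝ := ∑ i, AA f i x

/-- the value of the representation -/
noncomputable def FF (x : ℝ) : ℝ := ∑ i, ∏ j, (f i j).eval x

omit [Fintype ι] in
theorem AA_pos (hf : ∀ i j, f i j ≠ 0) (i : ι) {x : ℝ} (hx : 0 < x) : 0 < AA f i x :=
  prod_pos fun j _ => ab_pos (hf i j) hx

omit [Fintype ι] in
theorem sg_AA (hf : ∀ i j, f i j ≠ 0) (i l : ι) {x : ℝ} (hx : 0 < x) :
    AA f i x / (AA f i x + AA f l x) =
      sg (∑ q : Fin m ⊕ Fin m, (Sum.elim (fun _ => (1:ℝ)) (fun _ => -1) q) *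
        Real.log (ab (Sum.elim (f i) (f l) q) x)) := by
  have hi := AA_pos f hf i hx
  have hl := AA_pos f hf l hx
  have h1 : ∑ q : Fin m ⊕ Fin m, (Sum.elim (fun _ => (1:ℝ)) (fun _ => -1) q) *
        Real.log (ab (Sum.elim (f i) (f l) q) x) = Real.log (AA f i x) - Real.log (AA f l x) := by
    rw [Fintype.sum_sum_type]
    simp only [Sum.elim_inl, Sum.elim_inr, one_mul, neg_mul]
    unfold AA
    rw [Real.log_prod (fun j _ => (ab_pos (hf i j) hx).ne'),
      Real.log_prod (fun j _ => (ab_pos (hf l j) hx).ne')]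
    rw [sum_neg_distrib]
    ring
  rw [h1]
  unfold sg
  rw [neg_sub, Real.exp_sub, Real.exp_log hl, Real.exp_log hi]
  field_simp

theorem vr_main [DecidableEq ι] (hf : ∀ i j, f i j ≠ 0) {t : ℕ}
    (ht : ∀ i j, (f i j).support.card ≤ t) (hm : 1 ≤ m) (N : ℕ) (hX : Monotone X)
    (hpos : ∀ r, 0 < X r) :
    vr N (fun r => FF f (X r) / WW f (X r)) ≤ 6 * (Fintype.card ι : ℝ) ^ 2 * m * t := by
  classical
  rcases isEmpty_or_nonempty ι with he | hne
  · have : vr N (fun r => FF f (X r) / WW f (X r)) = 0 := by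
      unfold vr FF
      simp
    rw [this]
    positivity
  have hW : ∀ {x : ℝ}, 0 < x → 0 < WW f x := fun hx =>
    sum_pos (fun i _ => AA_pos f hf i hx) univ_nonempty
  -- decomposition
  have hg : ∀ {x : ℝ}, 0 < x → FF f x / WW f x = ∑ i, (AA f i x / WW f x) * ∏ j, rr (f i j) x := by
    intro x hx
    unfold FF
    rw [sum_div]
    refine sum_congr rfl fun i _ => ?_
    unfold rr
    rw [prod_div_distrib]
    have h1 : ∏ j, ab (f i j) x ≠ 0 := (AA_pos f hf i hx).ne'
    have h2 := (hW hx).ne'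
    unfold AA
    field_simp
  -- one step
  have hstep : ∀ r, |FF f (X (r+1)) / WW f (X (r+1)) - FF f (X r) / WW f (X r)| ≤
      ∑ i, (∑ l ∈ univ.erase i, |AA f i (X (r+1)) / (AA f i (X (r+1)) + AA f l (X (r+1))) -
        AA f i (X r) / (AA f i (X r) + AA f l (X r))| +
        ∑ j, |rr (f i j) (X (r+1)) - rr (f i j) (X r)|) := by
    intro r
    rw [hg (hpos _), hg (hpos _), ← sum_sub_distrib]
    refine (abs_sum_le_sum_abs _ _).trans (sum_le_sum fun i _ => ?_)
    set p := AA f i (X r) / WW f (X r)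
    set p' := AA f i (X (r+1)) / WW f (X (r+1))
    set R := ∏ j, rr (f i j) (X r)
    set R' := ∏ j, rr (f i j) (X (r+1))
    have e : p' * R' - p * R = (p' - p) * R' + p * (R' - R) := by ring
    rw [e]
    refine (abs_add_le _ _).trans (add_le_add ?_ ?_)
    · rw [abs_mul]
      have h1 : |R'| ≤ 1 := by
        rw [abs_prod]
        exact prod_le_one (fun _ _ => abs_nonneg _) fun j _ => abs_rr_le _
      have h2 := share_step (fun l => AA f l (X r)) (fun l => AA f l (X (r+1)))
        (fun l => AA_pos f hf l (hpos _)) (fun l => AA_pos f hf l (hpos _)) i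
      calc |p' - p| * |R'| ≤ |p' - p| * 1 := by gcongr
        _ ≤ _ := by rw [mul_one]; exact h2
    · rw [abs_mul]
      have h1 : |p| ≤ 1 := by
        rw [abs_of_nonneg (div_nonneg (AA_pos f hf i (hpos _)).le (hW (hpos _)).le)]
        rw [div_le_one (hW (hpos _))]
        exact single_le_sum (f := fun i => AA f i (X r)) (fun l _ => (AA_pos f hf l (hpos _)).le)
          (mem_univ i)
      have h2 := prod_step (univ : Finset (Fin m)) (fun j => rr (f i j) (X r))
        (fun j => rr (f i j) (X (r+1))) (fun j _ => abs_rr_le _) (fun j _ => abs_rr_le _)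
      calc |p| * |R' - R| ≤ 1 * |R' - R| := by gcongr
        _ ≤ _ := by rw [one_mul]; exact h2
  -- sum over steps
  have hpair : ∀ i l, vr N (fun r => AA f i (X r) / (AA f i (X r) + AA f l (X r))) ≤
      6 * (m * t) := by
    intro i l
    have h1 : (fun r => AA f i (X r) / (AA f i (X r) + AA f l (X r))) = fun r =>
        sg (∑ q : Fin m ⊕ Fin m, (Sum.elim (fun _ => (1:ℝ)) (fun _ => -1) q) *
        Real.log (ab (Sum.elim (f i) (f l) q) (X r))) := by
      funext r
      exact sg_AA f hf i l (hpos r)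
    rw [h1]
    have h2 := vr_pair (J := Fin m ⊕ Fin m) (Sum.elim (f i) (f l))
      (by rintro (j | j) <;> exact hf _ j) (t := t) (by rintro (j | j) <;> exact ht _ j)
      (Sum.elim (fun _ => (1:ℝ)) (fun _ => -1)) (by rintro (j | j) <;> simp) N hX hpos
    refine h2.trans ?_
    rw [Fintype.card_sum, Fintype.card_fin]
    push_cast
    have hm' : (1:ℝ) ≤ m := by exact_mod_cast hm
    nlinarith
  calc vr N (fun r => FF f (X r) / WW f (X r))
      ≤ ∑ r ∈ range N, ∑ i, (∑ l ∈ univ.erase i,
          |AA f i (X (r+1)) / (AA f i (X (r+1)) + AA f l (X (r+1))) -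
            AA f i (X r) / (AA f i (X r) + AA f l (X r))| +
          ∑ j, |rr (f i j) (X (r+1)) - rr (f i j) (X r)|) := sum_le_sum fun r _ => hstep r
    _ = ∑ i, (∑ l ∈ univ.erase i, vr N (fun r => AA f i (X r) / (AA f i (X r) + AA f l (X r))) +
          ∑ j, vr N (fun r => rr (f i j) (X r))) := by
        rw [sum_comm]
        refine sum_congr rfl fun i _ => ?_
        rw [sum_add_distrib, sum_comm, sum_comm (s := range N) (t := univ)]
        rfl
    _ ≤ ∑ i : ι, (∑ l ∈ univ.erase i, 6 * ((m:ℝ) * t) + ∑ j : Fin m, 4 * (t:ℝ)) := by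
        refine sum_le_sum fun i _ => add_le_add (sum_le_sum fun l _ => hpair i l)
          (sum_le_sum fun j _ => vr_rr (hf i j) (ht i j) N hX hpos)
    _ ≤ 6 * (Fintype.card ι : ℝ) ^ 2 * m * t := by
        simp only [sum_const, card_erase_of_mem (mem_univ _), card_univ, nsmul_eq_mul,
          Fintype.card_fin]
        have hk : 1 ≤ Fintype.card ι := Fintype.card_pos
        rw [Nat.cast_sub hk]
        push_cast
        have hk' : (1:ℝ) ≤ Fintype.card ι := by exact_mod_cast hk
        have hmt : (0:ℝ) ≤ (m:ℝ) * t := by positivity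
        nlinarith [mul_nonneg (by linarith : (0:ℝ) ≤ Fintype.card ι) hmt]

end Fam

end Pool.Agent.W942.Ta
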