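import Pool.Agent.W942.TaF

/-!
Real roots of perturbed sums of products of sparse polynomials, and robust sign alternations.
-/

open Finset Polynomial MeasureTheory
open scoped ENNReal

namespace Pool.Agent.W942.Ta

theorem sum_restrict {ι : Type*} [Fintype ι] (P : ι → Prop) [DecidablePred P] (g : ι → ℝ)
    (h : ∀ i, ¬ P i → g i = 0) : ∑ i, g i = ∑ i : {i // P i}, g i := by
  rw [← Finset.sum_subtype (univ.filter P) (by simp) g]
  exact (sum_filter_of_ne fun i _ hi => by
    by_contra hP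
    exact hi (h i hP)).symm

section

variable {k m : ℕ} (f : Fin k → Fin m → ℝ[X])

/-- the indices with no zero factor -/
def Good (i : Fin k) : Prop := ∀ j, f i j ≠ 0

open Classical in
theorem FF_restrict (x : ℝ) :
    FF f x = FF (fun (i : {i // Good f i}) j => f i j) x := by
  unfold FF
  refine sum_restrict (Good f) _ fun i hi => ?_
  unfold Good at hi
  push Not at hi
  obtain ⟨j, hj⟩ := hi
  exact prod_eq_zero (mem_univ j) (by rw [hj]; simp)

open Classical in
theorem WW_restrict (x : ℝ) :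
    WW f x = WW (fun (i : {i // Good f i}) j => f i j) x := by
  unfold WW AA
  refine sum_restrict (Good f) _ fun i hi => ?_
  unfold Good at hi
  push Not at hi
  obtain ⟨j, hj⟩ := hi
  exact prod_eq_zero (mem_univ j) (by rw [hj]; simp [ab])

theorem vr_all {t : ℕ} (ht : ∀ i j, (f i j).support.card ≤ t) (hm : 1 ≤ m) (N : ℕ) {X : ℕ → ℝ}
    (hX : Monotone X) (hpos : ∀ r, 0 < X r) :
    vr N (fun r => FF f (X r) / WW f (X r)) ≤ 6 * (k : ℝ) ^ 2 * m * t := by
  classical
  simp_rw [FF_restrict, WW_restrict]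
  have h := vr_main (fun (i : {i // Good f i}) j => f i j) (fun i j => i.2 j)
    (t := t) (fun i j => ht i j) hm N hX hpos
  refine h.trans ?_
  have hc : Fintype.card {i // Good f i} ≤ k := by
    simpa using Fintype.card_subtype_le (Good f)
  have hc' : (Fintype.card {i // Good f i} : ℝ) ≤ k := by exact_mod_cast hc
  gcongr

theorem eVar_pos {t : ℕ} (ht : ∀ i j, (f i j).support.card ≤ t) (hm : 1 ≤ m) :
    eVariationOn (fun x => FF f x / WW f x) (Set.Ioi 0) ≤ ((6 * k ^ 2 * m * t : ℕ) : ℝ≥0∞) := by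
  unfold eVariationOn
  refine iSup_le ?_
  rintro ⟨N, u, hu, hus⟩
  simp only
  have h := vr_all f ht hm N hu (fun r => hus r)
  have h1 : ∑ i ∈ range N, edist (FF f (u (i + 1)) / WW f (u (i + 1))) (FF f (u i) / WW f (u i)) =
      ENNReal.ofReal (vr N (fun r => FF f (u r) / WW f (u r))) := by
    unfold vr
    rw [ENNReal.ofReal_sum_of_nonneg fun _ _ => abs_nonneg _]
    refine sum_congr rfl fun r _ => ?_
    rw [edist_dist, Real.dist_eq]
  rw [h1]
  calc ENNReal.ofReal (vr N (fun r => FF f (u r) / WW f (u r)))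
      ≤ ENNReal.ofReal ((6 * k ^ 2 * m * t : ℕ) : ℝ) := by
        apply ENNReal.ofReal_le_ofReal
        push_cast
        exact h
    _ = _ := ENNReal.ofReal_natCast _

theorem coeff_flip (p : ℝ[X]) (n : ℕ) : (p.comp (C (-1) * Polynomial.X)).coeff n =
    p.coeff n * (-1) ^ n := comp_C_mul_X_coeff

theorem support_flip (p : ℝ[X]) : (p.comp (C (-1) * Polynomial.X)).support = p.support := by
  ext n
  rw [mem_support_iff, mem_support_iff, coeff_flip]
  simp

theorem eval_flip (p : ℝ[X]) (x : ℝ) : (p.comp (C (-1) * Polynomial.X)).eval x = p.eval (-x) := by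
  simp [eval_comp]

theorem ab_neg (p : ℝ[X]) (x : ℝ) : ab p (-x) = ab p x := by
  unfold ab
  refine sum_congr rfl fun e _ => ?_
  rw [abs_mul, abs_mul, abs_pow, abs_pow, abs_neg]

theorem ab_flip (p : ℝ[X]) (x : ℝ) : ab (p.comp (C (-1) * Polynomial.X)) x = ab p x := by
  unfold ab
  rw [support_flip]
  refine sum_congr rfl fun e _ => ?_
  rw [coeff_flip, abs_mul, abs_mul, abs_mul, abs_pow (-1 : ℝ)]
  simp

theorem eVar_neg {t : ℕ} (ht : ∀ i j, (f i j).support.card ≤ t) (hm : 1 ≤ m) :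
    eVariationOn (fun x => FF f x / WW f x) (Set.Iio 0) ≤ ((6 * k ^ 2 * m * t : ℕ) : ℝ≥0∞) := by
  have h1 := eVar_pos (fun i j => (f i j).comp (C (-1) * Polynomial.X)) (t := t)
    (fun i j => by rw [support_flip]; exact ht i j) hm
  have h2 : (fun x => FF (fun i j => (f i j).comp (C (-1) * Polynomial.X)) x /
      WW (fun i j => (f i j).comp (C (-1) * Polynomial.X)) x) =
      (fun x => FF f x / WW f x) ∘ (fun x : ℝ => -x) := by
    funext x
    simp only [Function.comp]
    unfold FF WW AA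
    simp_rw [eval_flip, ab_flip, ab_neg]
  rw [h2, eVariationOn.comp_eq_of_antitoneOn _ _ (fun a _ b _ h => neg_le_neg h)] at h1
  have h3 : (fun x : ℝ => -x) '' Set.Ioi 0 = Set.Iio 0 := by
    ext x
    simp only [Set.mem_image, Set.mem_Ioi, Set.mem_Iio]
    constructor
    · rintro ⟨y, hy, rfl⟩; linarith
    · intro hx; exact ⟨-x, by linarith, by ring⟩
  rw [h3] at h1
  exact h1

theorem WW_ne (h0 : ∑ i, ∏ j, f i j ≠ 0) {x : ℝ} (hx : x ≠ 0) : 0 < WW f x := by
  classical
  have hW : WW f x = WW f |x| := by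
    rcases abs_choice x with h | h
    · rw [h]
    · rw [h]
      unfold WW AA
      simp_rw [ab_neg]
  rw [hW, WW_restrict]
  have hx' : 0 < |x| := abs_pos.mpr hx
  unfold WW
  refine sum_pos (fun i _ => AA_pos _ (fun i j => i.2 j) i hx') ?_
  by_contra hemp
  rw [univ_nonempty_iff, not_nonempty_iff] at hemp
  apply h0
  refine sum_eq_zero fun i _ => ?_
  have : ¬ Good f i := fun h => hemp.false ⟨i, h⟩
  unfold Good at this
  push Not at this
  obtain ⟨j, hj⟩ := this
  exact prod_eq_zero (mem_univ j) hj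

theorem eval_eq_FF (x : ℝ) : (∑ i, ∏ j, f i j).eval x = FF f x := by
  unfold FF
  rw [eval_finsetSum]
  simp_rw [eval_prod]

/-- the set of nonzero real roots at level `y` -/
def roots (y : ℝ) : Set ℝ := {x : ℝ | x ≠ 0 ∧ (∑ i, ∏ j, f i j).eval x = y * WW f x}

theorem lint_roots {t : ℕ} (ht : ∀ i j, (f i j).support.card ≤ t) (hm : 1 ≤ m)
    (h0 : ∑ i, ∏ j, f i j ≠ 0) :
    ∫⁻ y, (((roots f y).encard : ℕ∞) : ℝ≥0∞) ≤ ((12 * k ^ 2 * m * t : ℕ) : ℝ≥0∞) := by
  obtain ⟨a, ha, ha1, ha2⟩ := indicatrix' (fun x => FF f x / WW f x) (Set.Ioi 0)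
  obtain ⟨b, hb, hb1, hb2⟩ := indicatrix' (fun x => FF f x / WW f x) (Set.Iio 0)
  have hle : ∀ y, (((roots f y).encard : ℕ∞) : ℝ≥0∞) ≤ a y + b y := by
    intro y
    have hsub : roots f y ⊆ {x ∈ Set.Ioi 0 | FF f x / WW f x = y} ∪
        {x ∈ Set.Iio 0 | FF f x / WW f x = y} := by
      rintro x ⟨hx, he⟩
      have hW := WW_ne f h0 hx
      have hy : FF f x / WW f x = y := by
        rw [div_eq_iff hW.ne', ← eval_eq_FF]
        exact he
      rcases lt_or_gt_of_ne hx with h | h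
      · exact Or.inr ⟨h, hy⟩
      · exact Or.inl ⟨h, hy⟩
    have h1 := (Set.encard_le_encard hsub).trans (Set.encard_union_le _ _)
    calc (((roots f y).encard : ℕ∞) : ℝ≥0∞)
        ≤ ((({x ∈ Set.Ioi (0:ℝ) | FF f x / WW f x = y}.encard +
          {x ∈ Set.Iio (0:ℝ) | FF f x / WW f x = y}.encard : ℕ∞)) : ℝ≥0∞) := by
          exact_mod_cast h1
      _ ≤ a y + b y := by
          rw [ENat.toENNReal_add]
          exact add_le_add (ha1 y) (hb1 y)
  calc ∫⁻ y, (((roots f y).encard : ℕ∞) : ℝ≥0∞) ≤ ∫⁻ y, (a y + b y) := lintegral_mono hle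
    _ = (∫⁻ y, a y) + ∫⁻ y, b y := lintegral_add_left ha _
    _ ≤ ((6 * k ^ 2 * m * t : ℕ) : ℝ≥0∞) + ((6 * k ^ 2 * m * t : ℕ) : ℝ≥0∞) :=
        add_le_add (ha2.trans (eVar_pos f ht hm)) (hb2.trans (eVar_neg f ht hm))
    _ = ((12 * k ^ 2 * m * t : ℕ) : ℝ≥0∞) := by
        rw [← Nat.cast_add]
        congr 1
        ring

/-- Some small level has few roots. -/
theorem exists_level {t : ℕ} (ht : ∀ i j, (f i j).support.card ≤ t) (hm : 1 ≤ m)
    (h0 : ∑ i, ∏ j, f i j ≠ 0) {ε : ℝ} (hε : 0 < ε) :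
    ∃ y ∈ Set.Ioo 0 ε, (roots f y).Finite ∧
      ((roots f y).ncard : ℝ) ≤ 12 * k ^ 2 * m * t / ε := by
  by_contra hcon
  push Not at hcon
  set B : ℝ := 12 * k ^ 2 * m * t / ε with hB
  have hB0 : 0 ≤ B := by positivity
  set n : ℕ := ⌊B⌋₊ + 1 with hn
  have hnB : B < n := by
    rw [hn]; push_cast; exact Nat.lt_floor_add_one B
  have hlow : ∀ y ∈ Set.Ioo (0:ℝ) ε, ((n : ℕ) : ℝ≥0∞) ≤ (((roots f y).encard : ℕ∞) : ℝ≥0∞) := by
    intro y hy
    by_cases hfin : (roots f y).Finite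
    · have h1 := hcon y hy hfin
      have h2 : ⌊B⌋₊ < (roots f y).ncard := (Nat.floor_lt hB0).mpr h1
      rw [← hfin.cast_ncard_eq]
      simp only [ENat.toENNReal_coe, Nat.cast_le]
      omega
    · have : (roots f y).Infinite := hfin
      rw [this.encard_eq]
      simp
  have h1 : ((n : ℕ) : ℝ≥0∞) * ENNReal.ofReal ε ≤ ((12 * k ^ 2 * m * t : ℕ) : ℝ≥0∞) := by
    calc ((n : ℕ) : ℝ≥0∞) * ENNReal.ofReal ε = ∫⁻ y in Set.Ioo (0:ℝ) ε, ((n : ℕ) : ℝ≥0∞) := by
          rw [lintegral_const]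
          simp
      _ ≤ ∫⁻ y in Set.Ioo (0:ℝ) ε, (((roots f y).encard : ℕ∞) : ℝ≥0∞) := by
          exact setLIntegral_mono' measurableSet_Ioo hlow
      _ ≤ ∫⁻ y, (((roots f y).encard : ℕ∞) : ℝ≥0∞) := setLIntegral_le_lintegral _ _
      _ ≤ _ := lint_roots f ht hm h0
  have h2 : (n : ℝ) * ε ≤ 12 * k ^ 2 * m * t := by
    have h3 := ENNReal.toReal_mono (ENNReal.natCast_ne_top _) h1
    rw [ENNReal.toReal_mul, ENNReal.toReal_natCast, ENNReal.toReal_ofReal hε.le,
      ENNReal.toReal_natCast] at h3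
    push_cast at h3
    exact h3
  have h3 : B * ε = 12 * k ^ 2 * m * t := by
    rw [hB]; field_simp
  nlinarith

/-- Robust sign alternations. -/
theorem robust {t : ℕ} (ht : ∀ i j, (f i j).support.card ≤ t) (hm : 1 ≤ m)
    {δ : ℝ} (hδ : 0 < δ) (N : ℕ) (x : ℕ → ℝ) (hx0 : 0 < x 0) (hx : ∀ r < N, x r < x (r + 1))
    (hs : ∀ r < N, (∑ i, ∏ j, f i j).eval (x r) * (∑ i, ∏ j, f i j).eval (x (r + 1)) < 0)
    (hr : ∀ r ≤ N, δ * WW f (x r) ≤ |(∑ i, ∏ j, f i j).eval (x r)|) :
    N * δ ≤ 3 * k ^ 2 * m * t := by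
  have hmono : ∀ a b, a ≤ b → b ≤ N → x a ≤ x b := by
    intro a b hab
    induction hab with
    | refl => intro _; exact le_rfl
    | step h ih => intro hb; exact (ih (by omega)).trans (hx _ (by omega)).le
  set X : ℕ → ℝ := fun r => x (min r N) with hX
  have hXm : Monotone X := by
    intro a b hab
    exact hmono _ _ (min_le_min_right _ hab) (min_le_right _ _)
  have hXp : ∀ r, 0 < X r := fun r => hx0.trans_le (hmono _ _ (Nat.zero_le _) (min_le_right _ _))
  have h := vr_all f ht hm N hXm hXp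
  have hlow : (N : ℝ) * (2 * δ) ≤ vr N (fun r => FF f (X r) / WW f (X r)) := by
    unfold vr
    have : (N : ℝ) * (2 * δ) = ∑ _r ∈ range N, 2 * δ := by simp
    rw [this]
    refine sum_le_sum fun r hrN => ?_
    have hrN' := mem_range.mp hrN
    have e1 : X r = x r := by rw [hX]; simp only; rw [min_eq_left hrN'.le]
    have e2 : X (r + 1) = x (r + 1) := by rw [hX]; simp only; rw [min_eq_left hrN']
    have hp1 : 0 < x r := by rw [← e1]; exact hXp r
    have hp2 : 0 < x (r + 1) := by rw [← e2]; exact hXp (r + 1)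
    simp only
    rw [e1, e2]
    have s1 := hs r hrN'
    have r1 := hr r hrN'.le
    have r2 := hr (r + 1) hrN'
    rw [eval_eq_FF] at s1 r1 r2
    rw [eval_eq_FF] at s1
    have h0 : ∑ i, ∏ j, f i j ≠ 0 := by
      intro h0
      rw [← eval_eq_FF, h0] at s1
      simp at s1
    have w1 := WW_ne f h0 hp1.ne'
    have w2 := WW_ne f h0 hp2.ne'
    set a := FF f (x r)
    set b := FF f (x (r + 1))
    set A := WW f (x r)
    set B := WW f (x (r + 1))
    rcases lt_trichotomy a 0 with ha | ha | ha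
    · have hb : 0 < b := by nlinarith
      rw [abs_of_neg ha] at r1
      rw [abs_of_pos hb] at r2
      have g1 : a / A ≤ -δ := by rw [div_le_iff₀ w1]; linarith
      have g2 : δ ≤ b / B := by rw [le_div_iff₀ w2]; linarith
      rw [abs_of_pos (by linarith)]
      linarith
    · rw [ha] at s1; simp at s1
    · have hb : b < 0 := by nlinarith
      rw [abs_of_pos ha] at r1
      rw [abs_of_neg hb] at r2
      have g1 : δ ≤ a / A := by rw [le_div_iff₀ w1]; linarith
      have g2 : b / B ≤ -δ := by rw [div_le_iff₀ w2]; linarith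
      rw [abs_of_neg (by linarith)]
      linarith
  linarith

end

end Pool.Agent.W942.Ta
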