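import Pool.Agent.W942.TaV

/-!
The largest monomial of a real polynomial on the positive axis, and the variation of the logarithm
of the sum of the absolute values of its terms.
-/

open Finset Polynomial

namespace Pool.Agent.W942.Ta

/-- the sum of the absolute values of the terms of `p` at `x` -/
noncomputable def ab (p : ℝ[X]) (x : ℝ) : ℝ := ∑ e ∈ p.support, |p.coeff e * x ^ e|

/-- absolute value of one term -/
noncomputable def w (p : ℝ[X]) (e : ℕ) (x : ℝ) : ℝ := |p.coeff e * x ^ e|

theorem w_pos {p : ℝ[X]} {e : ℕ} (he : e ∈ p.support) {x : ℝ} (hx : 0 < x) : 0 < w p e x := by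
  have := mem_support_iff.mp he
  exact abs_pos.mpr (mul_ne_zero this (pow_pos hx _).ne')

theorem w_eq (p : ℝ[X]) (e : ℕ) {x : ℝ} (hx : 0 < x) : w p e x = |p.coeff e| * x ^ e := by
  unfold w
  rw [abs_mul, abs_of_pos (pow_pos hx e)]

theorem exists_max (p : ℝ[X]) (hp : p ≠ 0) (x : ℝ) :
    (p.support.filter fun e => ∀ e' ∈ p.support, w p e' x ≤ w p e x).Nonempty := by
  obtain ⟨e, he, h⟩ := exists_max_image p.support (fun e => w p e x)
    (nonempty_support_iff.mpr hp)
  exact ⟨e, mem_filter.mpr ⟨he, h⟩⟩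

open Classical in
/-- the largest exponent of a largest term -/
noncomputable def top (p : ℝ[X]) (x : ℝ) : ℕ :=
  if hp : p ≠ 0 then (p.support.filter fun e => ∀ e' ∈ p.support, w p e' x ≤ w p e x).max'
    (exists_max p hp x) else 0

theorem top_mem {p : ℝ[X]} (hp : p ≠ 0) (x : ℝ) : top p x ∈ p.support := by
  unfold top
  rw [dif_pos hp]
  exact (mem_filter.mp (max'_mem _ (exists_max p hp x))).1

theorem le_top {p : ℝ[X]} (hp : p ≠ 0) (x : ℝ) {e : ℕ} (he : e ∈ p.support) :
    w p e x ≤ w p (top p x) x := by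
  have : top p x = (p.support.filter fun e => ∀ e' ∈ p.support, w p e' x ≤ w p e x).max'
    (exists_max p hp x) := by
    unfold top
    rw [dif_pos hp]
  rw [this]
  exact (mem_filter.mp (max'_mem _ (exists_max p hp x))).2 e he

theorem top_max {p : ℝ[X]} (hp : p ≠ 0) (x : ℝ) {e : ℕ} (he : e ∈ p.support)
    (h : w p (top p x) x ≤ w p e x) : e ≤ top p x := by
  have h2 : top p x = (p.support.filter fun e => ∀ e' ∈ p.support, w p e' x ≤ w p e x).max'
    (exists_max p hp x) := by
    unfold top
    rw [dif_pos hp]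
  conv_rhs => rw [h2]
  refine le_max' _ _ (mem_filter.mpr ⟨he, fun e' he' => (le_top hp x he').trans h⟩)

theorem top_mono {p : ℝ[X]} (hp : p ≠ 0) {x y : ℝ} (hx : 0 < x) (hxy : x ≤ y) :
    top p x ≤ top p y := by
  by_contra hlt
  push Not at hlt
  have hy : 0 < y := hx.trans_le hxy
  apply absurd (top_max hp y (top_mem hp x) ?_) (not_le.mpr hlt)
  have h := le_top hp x (top_mem hp y)
  rw [w_eq _ _ hx, w_eq _ _ hx] at h
  rw [w_eq _ _ hy, w_eq _ _ hy]
  obtain ⟨k, hk⟩ := Nat.exists_eq_add_of_lt hlt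
  rw [hk] at h ⊢
  set a := top p y
  have hxa : 0 < x ^ a := pow_pos hx _
  have hya : 0 < y ^ a := pow_pos hy _
  have h1 : |p.coeff a| ≤ |p.coeff (a + k + 1)| * x ^ (k + 1) := by
    have : |p.coeff a| * x ^ a ≤ (|p.coeff (a + k + 1)| * x ^ (k + 1)) * x ^ a := by
      calc _ ≤ _ := h
        _ = _ := by ring
    exact le_of_mul_le_mul_right this hxa
  have h2 : x ^ (k + 1) ≤ y ^ (k + 1) := pow_le_pow_left₀ hx.le hxy _
  calc |p.coeff a| * y ^ a ≤ (|p.coeff (a + k + 1)| * x ^ (k + 1)) * y ^ a := by gcongr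
    _ ≤ (|p.coeff (a + k + 1)| * y ^ (k + 1)) * y ^ a := by gcongr
    _ = _ := by ring

/-- the largest term -/
noncomputable def Mx (p : ℝ[X]) (x : ℝ) : ℝ := w p (top p x) x

theorem Mx_pos {p : ℝ[X]} (hp : p ≠ 0) {x : ℝ} (hx : 0 < x) : 0 < Mx p x := w_pos (top_mem hp x) hx

/-- normalized term -/
noncomputable def uu (p : ℝ[X]) (e : ℕ) (x : ℝ) : ℝ := w p e x / Mx p x

theorem uu_qc {p : ℝ[X]} (hp : p ≠ 0) {e : ℕ} (he : e ∈ p.support) {x y z : ℝ} (hx : 0 < x)
    (hxy : x ≤ y) (hyz : y ≤ z) : min (uu p e x) (uu p e z) ≤ uu p e y := by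
  have hy : 0 < y := hx.trans_le hxy
  have hz : 0 < z := hy.trans_le hyz
  have hT := top_mem hp y
  set a := top p y with ha
  have hca : 0 < |p.coeff a| := abs_pos.mpr (mem_support_iff.mp hT)
  have hce : 0 < |p.coeff e| := abs_pos.mpr (mem_support_iff.mp he)
  have hMy : Mx p y = |p.coeff a| * y ^ a := by
    unfold Mx; rw [w_eq _ _ hy]
  have bnd : ∀ v : ℝ, 0 < v → uu p e v ≤ (|p.coeff e| * v ^ e) / (|p.coeff a| * v ^ a) := by
    intro v hv
    unfold uu
    rw [w_eq _ _ hv]
    have h1 : |p.coeff a| * v ^ a ≤ Mx p v := by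
      have := le_top hp v hT
      rwa [w_eq _ _ hv] at this
    have := pow_pos hv e
    have := pow_pos hv a
    gcongr
  have hval : uu p e y = (|p.coeff e| * y ^ e) / (|p.coeff a| * y ^ a) := by
    unfold uu
    rw [hMy, w_eq _ _ hy]
  rcases le_total a e with hae | hea
  · refine (min_le_left _ _).trans ((bnd x hx).trans ?_)
    rw [hval]
    obtain ⟨k, rfl⟩ := Nat.exists_eq_add_of_le hae
    rw [pow_add, pow_add]
    have hxa := pow_pos hx a
    have hya := pow_pos hy a
    have e1 : |p.coeff (a + k)| * (x ^ a * x ^ k) / (|p.coeff a| * x ^ a) =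
        |p.coeff (a + k)| / |p.coeff a| * x ^ k := by
      field_simp
    have e2 : |p.coeff (a + k)| * (y ^ a * y ^ k) / (|p.coeff a| * y ^ a) =
        |p.coeff (a + k)| / |p.coeff a| * y ^ k := by
      field_simp
    rw [e1, e2]
    have := pow_le_pow_left₀ hx.le hxy k
    gcongr
  · refine (min_le_right _ _).trans ((bnd z hz).trans ?_)
    rw [hval]
    obtain ⟨k, hk⟩ := Nat.exists_eq_add_of_le hea
    rw [hk, pow_add, pow_add]
    have hze := pow_pos hz e
    have hye := pow_pos hy e
    have hzk := pow_pos hz k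
    have hyk := pow_pos hy k
    have hca' : 0 < |p.coeff (e + k)| := by rw [← hk]; exact hca
    have e1 : |p.coeff e| * z ^ e / (|p.coeff (e + k)| * (z ^ e * z ^ k)) =
        |p.coeff e| / |p.coeff (e + k)| / z ^ k := by
      field_simp
    have e2 : |p.coeff e| * y ^ e / (|p.coeff (e + k)| * (y ^ e * y ^ k)) =
        |p.coeff e| / |p.coeff (e + k)| / y ^ k := by
      field_simp
    rw [e1, e2]
    have := pow_le_pow_left₀ hy.le hyz k
    gcongr

theorem uu_nonneg {p : ℝ[X]} (hp : p ≠ 0) (e : ℕ) {x : ℝ} (hx : 0 < x) : 0 ≤ uu p e x :=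
  div_nonneg (abs_nonneg _) (Mx_pos hp hx).le

theorem uu_le {p : ℝ[X]} (hp : p ≠ 0) {e : ℕ} (he : e ∈ p.support) {x : ℝ} (hx : 0 < x) :
    uu p e x ≤ 1 := by
  unfold uu
  rw [div_le_one (Mx_pos hp hx)]
  exact le_top hp x he

/-- ratio of the absolute sum and the largest term -/
noncomputable def Rh (p : ℝ[X]) (x : ℝ) : ℝ := ab p x / Mx p x

/-- ratio of the value and the largest term -/
noncomputable def Rf (p : ℝ[X]) (x : ℝ) : ℝ := p.eval x / Mx p x

theorem ab_pos {p : ℝ[X]} (hp : p ≠ 0) {x : ℝ} (hx : 0 < x) : 0 < ab p x := by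
  unfold ab
  exact sum_pos (fun e he => w_pos he hx) (nonempty_support_iff.mpr hp)

theorem Mx_le_ab {p : ℝ[X]} (hp : p ≠ 0) (x : ℝ) : Mx p x ≤ ab p x := by
  unfold ab Mx
  exact single_le_sum (f := fun e => |p.coeff e * x ^ e|) (fun e _ => abs_nonneg _) (top_mem hp x)

theorem one_le_Rh {p : ℝ[X]} (hp : p ≠ 0) {x : ℝ} (hx : 0 < x) : 1 ≤ Rh p x := by
  unfold Rh
  rw [one_le_div (Mx_pos hp hx)]
  exact Mx_le_ab hp x

theorem abs_eval_le (p : ℝ[X]) (x : ℝ) : |p.eval x| ≤ ab p x := by
  unfold ab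
  rw [eval_eq_sum, Polynomial.sum]
  exact abs_sum_le_sum_abs _ _

theorem abs_Rf_le {p : ℝ[X]} (hp : p ≠ 0) {x : ℝ} (hx : 0 < x) : |Rf p x| ≤ Rh p x := by
  unfold Rf Rh
  rw [abs_div, abs_of_pos (Mx_pos hp hx)]
  have := Mx_pos hp hx
  gcongr
  exact abs_eval_le p x

variable {X : ℕ → ℝ}

theorem sum_uu_var {p : ℝ[X]} (hp : p ≠ 0) {t : ℕ} (ht : p.support.card ≤ t) (N : ℕ)
    (hX : Monotone X) (hpos : ∀ r, 0 < X r) :
    ∑ r ∈ range N, ∑ e ∈ p.support, |uu p e (X (r + 1)) - uu p e (X r)| ≤ 2 * t := by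
  rw [sum_comm]
  calc ∑ e ∈ p.support, ∑ r ∈ range N, |uu p e (X (r + 1)) - uu p e (X r)|
      ≤ ∑ e ∈ p.support, (2 : ℝ) := by
        refine sum_le_sum fun e he => ?_
        exact vr_qc (u := fun r => uu p e (X r)) (fun r _ => uu_nonneg hp e (hpos r))
          (fun r _ => uu_le hp he (hpos r))
          (fun a b c hab hbc _ => uu_qc hp he (hpos a) (hX hab) (hX hbc))
    _ = 2 * p.support.card := by simp [mul_comm]
    _ ≤ 2 * t := by
        have : (p.support.card : ℝ) ≤ t := by exact_mod_cast ht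
        linarith

theorem Rh_step {p : ℝ[X]} (x y : ℝ) :
    |Rh p y - Rh p x| ≤ ∑ e ∈ p.support, |uu p e y - uu p e x| := by
  have h : ∀ v, Rh p v = ∑ e ∈ p.support, uu p e v := by
    intro v
    unfold Rh ab uu w
    rw [sum_div]
  rw [h, h, ← sum_sub_distrib]
  exact abs_sum_le_sum_abs _ _

theorem Rf_step {p : ℝ[X]} {x y : ℝ} (hx : 0 < x) (hy : 0 < y) :
    |Rf p y - Rf p x| ≤ ∑ e ∈ p.support, |uu p e y - uu p e x| := by
  have h : ∀ v, 0 < v → Rf p v = ∑ e ∈ p.support, (SignType.sign (p.coeff e) : ℝ) * uu p e v := by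
    intro v hv
    unfold Rf uu
    rw [eval_eq_sum, Polynomial.sum, sum_div]
    refine sum_congr rfl fun e _ => ?_
    rw [w_eq _ _ hv, ← mul_div_assoc, ← mul_assoc]
    congr 2
    exact (sign_mul_abs _).symm
  rw [h x hx, h y hy, ← sum_sub_distrib]
  refine (abs_sum_le_sum_abs _ _).trans (sum_le_sum fun e _ => ?_)
  rw [← mul_sub, abs_mul]
  have : |(SignType.sign (p.coeff e) : ℝ)| ≤ 1 := by
    rcases lt_trichotomy (p.coeff e) 0 with h | h | h
    · simp [sign_neg h]
    · simp [h]
    · simp [sign_pos h]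
  calc _ ≤ 1 * |uu p e y - uu p e x| := by gcongr
    _ = _ := one_mul _

theorem log_step {a b : ℝ} (ha : 1 ≤ a) (hb : 1 ≤ b) : |Real.log b - Real.log a| ≤ |b - a| := by
  have key : ∀ {a b : ℝ}, 1 ≤ a → a ≤ b → Real.log b - Real.log a ≤ b - a := by
    intro a b ha hab
    have ha0 : 0 < a := by linarith
    have hb0 : 0 < b := by linarith
    rw [← Real.log_div hb0.ne' ha0.ne']
    have h1 := Real.log_le_sub_one_of_pos (div_pos hb0 ha0)
    have h2 : b / a - 1 ≤ b - a := by
      rw [div_sub_one ha0.ne', div_le_iff₀ ha0]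
      nlinarith
    linarith
  rcases le_total a b with h | h
  · have := key ha h
    have h2 := Real.log_le_log (by linarith) h
    rw [abs_of_nonneg (by linarith : 0 ≤ b - a),
      abs_of_nonneg (by linarith : 0 ≤ Real.log b - Real.log a)]
    exact this
  · have := key hb h
    have h2 := Real.log_le_log (by linarith) h
    rw [abs_of_nonpos (by linarith : b - a ≤ 0),
      abs_of_nonpos (by linarith : Real.log b - Real.log a ≤ 0)]
    linarith

/-- total variation of the logarithm of the normalized absolute sum -/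
theorem vr_logRh {p : ℝ[X]} (hp : p ≠ 0) {t : ℕ} (ht : p.support.card ≤ t) (N : ℕ)
    (hX : Monotone X) (hpos : ∀ r, 0 < X r) :
    vr N (fun r => Real.log (Rh p (X r))) ≤ 2 * t := by
  refine le_trans ?_ (sum_uu_var hp ht N hX hpos)
  refine sum_le_sum fun r _ => ?_
  exact (log_step (one_le_Rh hp (hpos _)) (one_le_Rh hp (hpos _))).trans (Rh_step _ _)

/-- the ratio of the value and the absolute sum -/
noncomputable def rr (p : ℝ[X]) (x : ℝ) : ℝ := p.eval x / ab p x

theorem rr_eq {p : ℝ[X]} (hp : p ≠ 0) {x : ℝ} (hx : 0 < x) : rr p x = Rf p x / Rh p x := by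
  have h1 := Mx_pos hp hx
  have h2 := ab_pos hp hx
  unfold rr Rf Rh
  field_simp

theorem abs_rr_le {p : ℝ[X]} (x : ℝ) : |rr p x| ≤ 1 := by
  unfold rr
  rw [abs_div]
  refine div_le_one_of_le₀ ?_ (abs_nonneg _)
  exact (abs_eval_le p x).trans (le_abs_self _)

theorem vr_rr {p : ℝ[X]} (hp : p ≠ 0) {t : ℕ} (ht : p.support.card ≤ t) (N : ℕ)
    (hX : Monotone X) (hpos : ∀ r, 0 < X r) :
    vr N (fun r => rr p (X r)) ≤ 4 * t := by
  have h := sum_uu_var hp ht N hX hpos
  calc vr N (fun r => rr p (X r))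
      ≤ ∑ r ∈ range N, 2 * ∑ e ∈ p.support, |uu p e (X (r + 1)) - uu p e (X r)| := by
        refine sum_le_sum fun r _ => ?_
        have hx := hpos r
        have hy := hpos (r + 1)
        simp only
        rw [rr_eq hp hx, rr_eq hp hy]
        have a1 := one_le_Rh hp hx
        have b1 := one_le_Rh hp hy
        have fa := abs_Rf_le hp hx
        have sa := Rf_step (p := p) hx hy
        have sb := Rh_step (p := p) (X r) (X (r + 1))
        set A := Rh p (X r)
        set B := Rh p (X (r + 1))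
        set a := Rf p (X r)
        set b := Rf p (X (r + 1))
        set S := ∑ e ∈ p.support, |uu p e (X (r + 1)) - uu p e (X r)|
        have hA : 0 < A := by linarith
        have hB : 0 < B := by linarith
        have e1 : b / B - a / A = (b - a) / B + (a / A) * ((A - B) / B) := by
          field_simp
          ring
        rw [e1]
        refine (abs_add_le _ _).trans ?_
        have h1 : |(b - a) / B| ≤ S := by
          rw [abs_div, abs_of_pos hB]
          calc |b - a| / B ≤ |b - a| / 1 := by gcongr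
            _ ≤ S := by rw [div_one]; exact sa
        have h2 : |a / A * ((A - B) / B)| ≤ S := by
          rw [abs_mul, abs_div, abs_div, abs_of_pos hB, abs_of_pos hA]
          have h3 : |a| / A ≤ 1 := div_le_one_of_le₀ fa hA.le
          have h4 : |A - B| / B ≤ S := by
            calc |A - B| / B ≤ |A - B| / 1 := by gcongr
              _ ≤ S := by rw [div_one, abs_sub_comm]; exact sb
          calc |a| / A * (|A - B| / B) ≤ 1 * (|A - B| / B) := by gcongr
            _ ≤ S := by rw [one_mul]; exact h4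
        linarith
    _ = 2 * ∑ r ∈ range N, ∑ e ∈ p.support, |uu p e (X (r + 1)) - uu p e (X r)| := by
        rw [mul_sum]
    _ ≤ 4 * t := by linarith

/-- logarithm of the largest term over a step where its exponent does not change -/
theorem log_Mx_step {p : ℝ[X]} (hp : p ≠ 0) {x y : ℝ} (hx : 0 < x) (hy : 0 < y)
    (h : top p x = top p y) :
    Real.log (Mx p y) - Real.log (Mx p x) = (top p x : ℝ) * (Real.log y - Real.log x) := by
  unfold Mx
  rw [w_eq _ _ hx, w_eq _ _ hy, ← h]
  have hc : |p.coeff (top p x)| ≠ 0 := (abs_pos.mpr (mem_support_iff.mp (top_mem hp x))).ne'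
  rw [Real.log_mul hc (pow_pos hy _).ne', Real.log_mul hc (pow_pos hx _).ne', Real.log_pow,
    Real.log_pow]
  ring

/-- **Variation of the logistic function of a signed sum of logarithms of absolute sums.** -/
theorem vr_pair {J : Type*} [Fintype J] (h : J → ℝ[X]) (hh : ∀ q, h q ≠ 0) {t : ℕ}
    (ht : ∀ q, (h q).support.card ≤ t) (ε : J → ℝ) (hε : ∀ q, |ε q| ≤ 1) (N : ℕ)
    (hX : Monotone X) (hpos : ∀ r, 0 < X r) :
    vr N (fun r => sg (∑ q, ε q * Real.log (ab (h q) (X r)))) ≤
      2 * (Fintype.card J * (t - 1) : ℝ) + 1 + Fintype.card J * t := by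
  classical
  set G : ℕ → ℝ := fun r => ∑ q, ε q * Real.log (Mx (h q) (X r)) with hG
  set E : ℕ → ℝ := fun r => ∑ q, ε q * Real.log (Rh (h q) (X r)) with hE
  have hsum : ∀ r, ∑ q, ε q * Real.log (ab (h q) (X r)) = G r + E r := by
    intro r
    rw [hG, hE]
    simp only
    rw [← sum_add_distrib]
    refine sum_congr rfl fun q _ => ?_
    unfold Rh
    rw [Real.log_div (ab_pos (hh q) (hpos r)).ne' (Mx_pos (hh q) (hpos r)).ne']
    ring
  simp_rw [hsum]
  -- bad steps
  set Bd : Finset ℕ := (range N).filter fun r => ∃ q, top (h q) (X r) ≠ top (h q) (X (r + 1))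
    with hBd
  have hBc : (Bd.card : ℝ) ≤ Fintype.card J * (t - 1) := by
    have h1 : Bd ⊆ (univ : Finset J).biUnion fun q =>
        (range N).filter fun r => top (h q) (X r) ≠ top (h q) (X (r + 1)) := by
      intro r hr
      obtain ⟨h1, q, h2⟩ := mem_filter.mp hr
      exact mem_biUnion.mpr ⟨q, mem_univ _, mem_filter.mpr ⟨h1, h2⟩⟩
    have h2 : ∀ q, ((((range N).filter fun r => top (h q) (X r) ≠ top (h q) (X (r + 1))).card : ℕ) : ℝ)
        ≤ t - 1 := by
      intro q
      have := changes_le N (fun r => top (h q) (X r))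
        (fun r _ => top_mono (hh q) (hpos r) (hX (Nat.le_succ r))) (h q).support
        (fun r _ => top_mem (hh q) _)
      have h3 := this.trans (ht q)
      have : ((((range N).filter fun r => top (h q) (X r) ≠ top (h q) (X (r + 1))).card : ℕ) : ℝ) + 1
          ≤ t := by exact_mod_cast h3
      linarith
    calc (Bd.card : ℝ) ≤ ((((univ : Finset J).biUnion fun q =>
        (range N).filter fun r => top (h q) (X r) ≠ top (h q) (X (r + 1))).card : ℕ) : ℝ) := by
          exact_mod_cast card_le_card h1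
      _ ≤ ∑ q : J, ((((range N).filter fun r => top (h q) (X r) ≠ top (h q) (X (r + 1))).card : ℕ) : ℝ) := by
          exact_mod_cast card_biUnion_le
      _ ≤ ∑ q : J, ((t:ℝ) - 1) := sum_le_sum fun q _ => h2 q
      _ = _ := by simp; ring
  -- direction
  set sl : ℕ → ℝ := fun r => ∑ q, ε q * (top (h q) (X r) : ℝ) with hsl
  set d : ℕ → Bool := fun r =>
    if r ∈ Bd then decide (G r ≤ G (r + 1)) else decide (0 ≤ sl r) with hd
  have hgood : ∀ r < N, r ∉ Bd → ∀ q, top (h q) (X r) = top (h q) (X (r + 1)) := by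
    intro r hr hB q
    by_contra hne
    exact hB (mem_filter.mpr ⟨mem_range.mpr hr, q, hne⟩)
  have hstep : ∀ r < N, r ∉ Bd → G (r + 1) - G r = sl r * (Real.log (X (r+1)) - Real.log (X r)) := by
    intro r hr hB
    rw [hG, hsl]
    simp only
    rw [← sum_sub_distrib, sum_mul]
    refine sum_congr rfl fun q _ => ?_
    rw [← mul_sub, log_Mx_step (hh q) (hpos r) (hpos (r + 1)) (hgood r hr hB q)]
    ring
  have hlog : ∀ r, 0 ≤ Real.log (X (r+1)) - Real.log (X r) := by
    intro r
    have := Real.log_le_log (hpos r) (hX (Nat.le_succ r))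
    linarith
  have h1 := vr_sg N G E d ?_ ?_
  · refine h1.trans ?_
    have hc : ((((range (N - 1)).filter fun r => d r ≠ d (r + 1)).card : ℕ) : ℝ) ≤ 2 * Bd.card := by
      have hsub : ((range (N - 1)).filter fun r => d r ≠ d (r + 1)) ⊆
          Bd ∪ Bd.image (fun r => r - 1) := by
        intro r hr
        obtain ⟨h1, h2⟩ := mem_filter.mp hr
        have h1' := mem_range.mp h1
        by_contra hno
        rw [mem_union, not_or] at hno
        have hb1 : r ∉ Bd := hno.1
        have hb2 : r + 1 ∉ Bd := by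
          intro hb
          exact hno.2 (mem_image.mpr ⟨r + 1, hb, by simp⟩)
        apply h2
        rw [hd]
        simp only [if_neg hb1, if_neg hb2]
        have : sl r = sl (r + 1) := by
          rw [hsl]
          simp only
          refine sum_congr rfl fun q _ => ?_
          rw [hgood r (by omega) hb1 q]
        rw [this]
      have := (card_le_card hsub).trans (card_union_le _ _)
      have h3 := card_image_le (s := Bd) (f := fun r => r - 1)
      have : ((range (N - 1)).filter fun r => d r ≠ d (r + 1)).card ≤ 2 * Bd.card := by omega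
      exact_mod_cast this
    have hv : vr N E ≤ Fintype.card J * (2 * t) := by
      calc vr N E ≤ ∑ r ∈ range N, ∑ q : J,
            |Real.log (Rh (h q) (X (r + 1))) - Real.log (Rh (h q) (X r))| := by
            refine sum_le_sum fun r _ => ?_
            rw [hE]
            simp only
            rw [← sum_sub_distrib]
            refine (abs_sum_le_sum_abs _ _).trans (sum_le_sum fun q _ => ?_)
            rw [← mul_sub, abs_mul]
            calc _ ≤ 1 * |Real.log (Rh (h q) (X (r + 1))) - Real.log (Rh (h q) (X r))| := by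
                  have := hε q
                  gcongr
              _ = _ := one_mul _
        _ = ∑ q : J, vr N (fun r => Real.log (Rh (h q) (X r))) := by
            rw [sum_comm]
            rfl
        _ ≤ ∑ q : J, (2 * (t:ℝ)) := sum_le_sum fun q _ => vr_logRh (hh q) (ht q) N hX hpos
        _ = _ := by simp
    linarith
  · intro r hr hdr
    rw [hd] at hdr
    simp only at hdr
    by_cases hB : r ∈ Bd
    · rw [if_pos hB] at hdr
      simpa using hdr
    · rw [if_neg hB] at hdr
      have h0 : 0 ≤ sl r := by simpa using hdr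
      have := hstep r hr hB
      have := mul_nonneg h0 (hlog r)
      linarith
  · intro r hr hdr
    rw [hd] at hdr
    simp only at hdr
    by_cases hB : r ∈ Bd
    · rw [if_pos hB] at hdr
      have : ¬ (G r ≤ G (r + 1)) := by simpa using hdr
      linarith
    · rw [if_neg hB] at hdr
      have h0 : ¬ (0 ≤ sl r) := by simpa using hdr
      have := hstep r hr hB
      have := mul_nonneg (by linarith : 0 ≤ - sl r) (hlog r)
      linarith

end Pool.Agent.W942.Ta
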