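import Pool.Agent.W942.ToV

/-!
# The variation of a sum of products of sparse polynomials against the products
-/

set_option autoImplicit false

namespace Pool.Agent.W942.To

open MeasureTheory Finset Polynomial Pool.Agent.H189R2.Tau Pool.Agent.W942.Ta
open scoped ENNReal

section
variable {k m : ℕ} (f : Fin k → Fin m → ℝ[X])

/-- the products on the half-line of sign `ε`, in the logarithmic variable -/
noncomputable def PP (ε : ℝ) (i : Fin k) (u : ℝ) : ℝ :=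
  pd (fun j => sp (f i j)) (fun j => cf ε (f i j)) u

/-- their derivatives -/
noncomputable def PP' (ε : ℝ) (i : Fin k) (u : ℝ) : ℝ :=
  pd' (fun j => sp (f i j)) (fun j => cf ε (f i j)) u

theorem PP_eq (ε : ℝ) (i : Fin k) (u : ℝ) : PP f ε i u = ∏ j, (f i j).eval (ε * Real.exp u) := by
  unfold PP pd
  exact Finset.prod_congr rfl (fun j _ => es_sp ε (f i j) u)

theorem hasDerivAt_PP (ε : ℝ) (i : Fin k) (u : ℝ) : HasDerivAt (PP f ε i) (PP' f ε i u) u :=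
  hasDerivAt_pd _ _ u

theorem continuous_PP' (ε : ℝ) (i : Fin k) : Continuous (PP' f ε i) := continuous_pd' _ _

theorem om_bound {t : ℕ} (hm : 0 < m) (hf : ∀ i j, (f i j).support.card ≤ t) {ε : ℝ} (hε : ε ≠ 0)
    (i j : Fin k) : ∫⁻ u, ENNReal.ofReal (om (PP f ε j) (PP' f ε j) (PP f ε i) (PP' f ε i) u) ≤
      ENNReal.ofReal (72 * (m : ℝ) ^ 2 * (t : ℝ) ^ 9) := by
  by_cases h : (∀ l, f i l ≠ 0) ∧ (∀ l, f j l ≠ 0)
  · exact angular hm (fun l => by rw [card_sp]; exact hf j l)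
      (fun l => by rw [card_sp]; exact hf i l) (fun l => sp_nonempty (h.2 l))
      (fun l => sp_nonempty (h.1 l)) (fun l => cf_ne hε _) (fun l => cf_ne hε _)
  · have h0 : ∀ u, om (PP f ε j) (PP' f ε j) (PP f ε i) (PP' f ε i) u = 0 := by
      intro u
      rw [not_and_or] at h
      push Not at h
      unfold om PP PP'
      rcases h with ⟨l, hl⟩ | ⟨l, hl⟩
      · have hs : ∃ l, sp (f i l) = ∅ := ⟨l, by rw [hl]; simp [sp]⟩
        rw [pd_zero (s := fun l => sp (f i l)) hs, pd'_zero (s := fun l => sp (f i l)) hs]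
        simp
      · have hs : ∃ l, sp (f j l) = ∅ := ⟨l, by rw [hl]; simp [sp]⟩
        rw [pd_zero (s := fun l => sp (f j l)) hs, pd'_zero (s := fun l => sp (f j l)) hs]
        simp
    simp only [h0]
    simp

theorem zeros {t : ℕ} (hf : ∀ i j, (f i j).support.card ≤ t) (h0 : ∃ i, ∏ j, f i j ≠ 0) {ε : ℝ}
    (hε : ε ≠ 0) : ∃ Z : Finset ℝ, Z.card ≤ m * t ∧ ∀ u, (∀ i, PP f ε i u = 0) → u ∈ Z := by
  obtain ⟨i₁, hi⟩ := h0
  have hi₁ : ∀ j, f i₁ j ≠ 0 := fun j => Finset.prod_ne_zero_iff.mp hi j (Finset.mem_univ j)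
  have hz : ∀ j, ∃ Z : Finset ℝ, Z.card ≤ t ∧ ∀ x, x ∈ Z ↔
      es (sp (f i₁ j)) (cf ε (f i₁ j)) x = 0 := by
    intro j
    obtain ⟨Z, hZ, h⟩ := (es_zb (sp_nonempty (hi₁ j)) (cf_ne hε (f i₁ j))).exists_finset
    refine ⟨Z, ?_, h⟩
    rw [card_sp] at hZ
    exact hZ.trans ((Nat.sub_le _ _).trans (hf i₁ j))
  choose Z hZ hZ0 using hz
  refine ⟨univ.biUnion Z, ?_, fun u hu => ?_⟩
  · refine card_biUnion_le.trans ?_
    calc ∑ j, (Z j).card ≤ ∑ _j : Fin m, t := sum_le_sum (fun j _ => hZ j)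
      _ = m * t := by simp
  · have h1 := hu i₁
    unfold PP pd at h1
    obtain ⟨j, _, hj⟩ := prod_eq_zero_iff.mp h1
    rw [mem_biUnion]
    exact ⟨j, mem_univ _, (hZ0 j u).mpr hj⟩

theorem pos_of_h0 {t : ℕ} (hm : 0 < m) (hf : ∀ i j, (f i j).support.card ≤ t)
    (h0 : ∃ i, ∏ j, f i j ≠ 0) : 1 ≤ k ∧ 1 ≤ t := by
  obtain ⟨i, hi⟩ := h0
  have h2 : 0 < (f i ⟨0, hm⟩).support.card := by
    rw [Finset.card_pos, support_nonempty]
    exact Finset.prod_ne_zero_iff.mp hi _ (Finset.mem_univ _)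
  have h3 := hf i ⟨0, hm⟩
  exact ⟨Nat.one_le_iff_ne_zero.mpr (fun h => by subst h; exact i.elim0), by omega⟩

theorem total {t : ℕ} (hm : 0 < m) (hf : ∀ i j, (f i j).support.card ≤ t)
    (h0 : ∃ i, ∏ j, f i j ≠ 0) {ε : ℝ} (hε : ε ≠ 0) {Z : Finset ℝ} (hZ : Z.card ≤ m * t) :
    (∫⁻ u, Om (PP f ε) (PP' f ε) u) + ((2 * k : ℕ) : ℝ≥0∞) * Z.card ≤
      ((74 * k ^ 2 * m ^ 2 * t ^ 9 : ℕ) : ℝ≥0∞) := by
  obtain ⟨hk, ht⟩ := pos_of_h0 f hm hf h0
  have hc : ∀ i, Continuous (PP f ε i) :=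
    fun i => continuous_iff_continuousAt.mpr (fun u => (hasDerivAt_PP f ε i u).continuousAt)
  have h1 := lintegral_Om (P := PP f ε) (P' := PP' f ε) hc (continuous_PP' f ε) Set.univ
  simp only [setLIntegral_univ] at h1
  have h2 : ∫⁻ u, Om (PP f ε) (PP' f ε) u ≤ ((k ^ 2 * (72 * m ^ 2 * t ^ 9) : ℕ) : ℝ≥0∞) := by
    rw [h1]
    calc ∑ i, ∑ j, ∫⁻ u, ENNReal.ofReal (om (PP f ε j) (PP' f ε j) (PP f ε i) (PP' f ε i) u)
        ≤ ∑ _i : Fin k, ∑ _j : Fin k, ENNReal.ofReal (72 * (m : ℝ) ^ 2 * (t : ℝ) ^ 9) :=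
          sum_le_sum fun i _ => sum_le_sum fun j _ => om_bound f hm hf hε i j
      _ = ((k ^ 2 * (72 * m ^ 2 * t ^ 9) : ℕ) : ℝ≥0∞) := by
          have : ENNReal.ofReal (72 * (m : ℝ) ^ 2 * (t : ℝ) ^ 9) =
              ((72 * m ^ 2 * t ^ 9 : ℕ) : ℝ≥0∞) := by
            rw [← ENNReal.ofReal_natCast]
            congr 1
            push_cast
            ring
          rw [this]
          simp only [sum_const, card_univ, Fintype.card_fin, nsmul_eq_mul]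
          push_cast
          ring
  have h3 : ((2 * k : ℕ) : ℝ≥0∞) * Z.card ≤ ((2 * k * (m * t) : ℕ) : ℝ≥0∞) := by
    rw [Nat.cast_mul (2 * k)]
    gcongr
  refine (add_le_add h2 h3).trans ?_
  rw [← Nat.cast_add]
  have h4 : 2 * k * (m * t) ≤ 2 * k ^ 2 * m ^ 2 * t ^ 9 := by
    calc 2 * k * (m * t) = 2 * (k * 1) * (m * 1) * (t * 1) := by ring
      _ ≤ 2 * (k * k) * (m * m) * (t * t ^ 8) := by
        have := Nat.one_le_pow 8 t ht
        gcongr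
        · exact hm
      _ = 2 * k ^ 2 * m ^ 2 * t ^ 9 := by ring
  refine Nat.cast_le.mpr ?_
  calc k ^ 2 * (72 * m ^ 2 * t ^ 9) + 2 * k * (m * t) ≤
      k ^ 2 * (72 * m ^ 2 * t ^ 9) + 2 * k ^ 2 * m ^ 2 * t ^ 9 := by omega
    _ = _ := by ring

/-- the sum of the products -/
noncomputable def Fs (x : ℝ) : ℝ := ∑ i, ∏ j, (f i j).eval x

/-- the Euclidean length of the vector of the products -/
noncomputable def w2 (x : ℝ) : ℝ := Real.sqrt (∑ i, (∏ j, (f i j).eval x) ^ 2)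

/-- the sum of the absolute values of the products -/
noncomputable def w1 (x : ℝ) : ℝ := ∑ i, |∏ j, (f i j).eval x|

theorem w2_zero {x : ℝ} (h : w2 f x = 0) (i : Fin k) : ∏ j, (f i j).eval x = 0 := by
  have h1 : ∑ i, (∏ j, (f i j).eval x) ^ 2 ≤ 0 := Real.sqrt_eq_zero'.mp h
  have h2 : ∑ i, (∏ j, (f i j).eval x) ^ 2 = 0 :=
    le_antisymm h1 (sum_nonneg fun _ _ => sq_nonneg _)
  have := (sum_eq_zero_iff_of_nonneg (fun i _ => sq_nonneg (∏ j, (f i j).eval x))).mp h2 i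
    (mem_univ i)
  exact pow_eq_zero_iff (by norm_num) |>.mp this

theorem w1_zero_iff {x : ℝ} : w1 f x = 0 ↔ ∀ i, ∏ j, (f i j).eval x = 0 := by
  unfold w1
  rw [sum_eq_zero_iff_of_nonneg (fun i _ => abs_nonneg _)]
  simp

theorem w2_zero_iff {x : ℝ} : w2 f x = 0 ↔ ∀ i, ∏ j, (f i j).eval x = 0 := by
  refine ⟨fun h i => w2_zero f h i, fun h => ?_⟩
  unfold w2
  simp [h]

/-- the points of the half-line of sign `ε` at which not all products vanish -/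
def TT (ε : ℝ) : Set ℝ := {x : ℝ | 0 < ε * x ∧ w2 f x ≠ 0}

theorem Q2_PP (ε u : ℝ) : Real.sqrt (Q2 (PP f ε) u) = w2 f (ε * Real.exp u) := by
  unfold Q2 w2
  simp_rw [PP_eq]

theorem image_TT {ε : ℝ} (hε : ε * ε = 1) :
    (fun u => ε * Real.exp u) '' {u | Q2 (PP f ε) u ≠ 0} = TT f ε := by
  ext x
  simp only [Set.mem_image, Set.mem_ofPred_eq, TT]
  constructor
  · rintro ⟨u, hu, rfl⟩
    refine ⟨?_, ?_⟩
    · rw [← mul_assoc, hε, one_mul]; exact Real.exp_pos u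
    · rw [← Q2_PP]
      exact (Real.sqrt_pos.mpr (lt_of_le_of_ne (Q2_nonneg u) (Ne.symm hu))).ne'
  · rintro ⟨hx, hw⟩
    have e : ε * Real.exp (Real.log (ε * x)) = x := by
      rw [Real.exp_log hx, ← mul_assoc, hε, one_mul]
    refine ⟨Real.log (ε * x), fun h => hw ?_, e⟩
    rw [← e, ← Q2_PP, h, Real.sqrt_zero]

theorem eVar_image {ε : ℝ} (hε : ε = 1 ∨ ε = -1) (g : ℝ → ℝ) :
    eVariationOn g (TT f ε) =
      eVariationOn (fun u => g (ε * Real.exp u)) {u | Q2 (PP f ε) u ≠ 0} := by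
  have h1 : ε * ε = 1 := by rcases hε with rfl | rfl <;> norm_num
  rw [← image_TT f h1]
  symm
  rcases hε with rfl | rfl
  · refine eVariationOn.comp_eq_of_monotoneOn g _ ?_
    intro a _ b _ h
    simpa using h
  · refine eVariationOn.comp_eq_of_antitoneOn g _ ?_
    intro a _ b _ h
    simpa using h

theorem var2 {t : ℕ} (hm : 0 < m) (hf : ∀ i j, (f i j).support.card ≤ t)
    (h0 : ∃ i, ∏ j, f i j ≠ 0) {ε : ℝ} (hε : ε = 1 ∨ ε = -1) :
    eVariationOn (fun x => Fs f x / w2 f x) (TT f ε) ≤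
      ((74 * k ^ 2 * m ^ 2 * t ^ 9 : ℕ) : ℝ≥0∞) := by
  have hε0 : ε ≠ 0 := by rcases hε with rfl | rfl <;> norm_num
  obtain ⟨Z, hZ, hZ0⟩ := zeros f hf h0 hε0
  rw [eVar_image f hε]
  refine le_trans ?_ (total f hm hf h0 hε0 hZ)
  refine le_trans (le_of_eq ?_) (var_euclid (hasDerivAt_PP f ε) (continuous_PP' f ε) hZ0)
  congr 1
  funext u
  rw [Q2_PP]
  unfold Fs
  simp_rw [PP_eq]

theorem var1 {t : ℕ} (hm : 0 < m) (hf : ∀ i j, (f i j).support.card ≤ t)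
    (h0 : ∃ i, ∏ j, f i j ≠ 0) {ε : ℝ} (hε : ε = 1 ∨ ε = -1) :
    eVariationOn (fun x => Fs f x / w1 f x) (TT f ε) ≤
      ((148 * k ^ 2 * m ^ 2 * t ^ 9 : ℕ) : ℝ≥0∞) := by
  have hε0 : ε ≠ 0 := by rcases hε with rfl | rfl <;> norm_num
  obtain ⟨Z, hZ, hZ0⟩ := zeros f hf h0 hε0
  rw [eVar_image f hε]
  have h1 := var_l1 (hasDerivAt_PP f ε) (continuous_PP' f ε) hZ0
  refine le_trans (le_of_eq ?_) (h1.trans ?_)
  · congr 1
    funext u
    unfold Fs w1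
    simp_rw [PP_eq]
  · refine (mul_le_mul_right (total f hm hf h0 hε0 hZ) 2).trans (le_of_eq ?_)
    rw [show (2 : ℝ≥0∞) = ((2 : ℕ) : ℝ≥0∞) from rfl, ← Nat.cast_mul]
    congr 1
    ring

end

end Pool.Agent.W942.To
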