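import Pool.Agent.W942.ToC

/-!
# Counting roots at the levels of the quotient
-/

set_option autoImplicit false

namespace Pool.Agent.W942.To

open MeasureTheory Finset Polynomial Pool.Agent.H189R2.Tau Pool.Agent.W942.Ta
open scoped ENNReal

/-- The averaging argument for counting functions. -/
theorem exists_low {N : ℝ → ℕ∞} {B ε : ℝ} (hε : 0 < ε) (hB : 0 ≤ B)
    (h : ∫⁻ y in Set.Ioo 0 ε, ((N y : ℕ∞) : ℝ≥0∞) ≤ ENNReal.ofReal B) :
    ∃ y ∈ Set.Ioo 0 ε, N y ≤ (⌊B / ε⌋₊ : ℕ∞) := by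
  by_contra hcon
  push Not at hcon
  set n : ℕ := ⌊B / ε⌋₊ + 1 with hn
  have hnB : B / ε < n := by
    rw [hn]; push_cast; exact Nat.lt_floor_add_one _
  have hlow : ∀ y ∈ Set.Ioo (0:ℝ) ε, ((n : ℕ) : ℝ≥0∞) ≤ ((N y : ℕ∞) : ℝ≥0∞) := by
    intro y hy
    have h1 : ((n : ℕ) : ℕ∞) ≤ N y := by
      have := Order.add_one_le_of_lt (hcon y hy)
      rw [hn]; push_cast
      exact_mod_cast this
    have h2 := ENat.toENNReal_mono h1
    simpa using h2
  have h1 : ((n : ℕ) : ℝ≥0∞) * ENNReal.ofReal ε ≤ ENNReal.ofReal B := by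
    calc ((n : ℕ) : ℝ≥0∞) * ENNReal.ofReal ε = ∫⁻ y in Set.Ioo (0:ℝ) ε, ((n : ℕ) : ℝ≥0∞) := by
          rw [lintegral_const]
          simp
      _ ≤ _ := setLIntegral_mono' measurableSet_Ioo hlow
      _ ≤ _ := h
  have h2 : (n : ℝ) * ε ≤ B := by
    have h3 := ENNReal.toReal_mono ENNReal.ofReal_ne_top h1
    rwa [ENNReal.toReal_mul, ENNReal.toReal_natCast, ENNReal.toReal_ofReal hε.le,
      ENNReal.toReal_ofReal hB] at h3
  rw [div_lt_iff₀ hε] at hnB
  linarith

theorem ncard_of_encard {s : Set ℝ} {B : ℝ} (hB : 0 ≤ B) (h : s.encard ≤ (⌊B⌋₊ : ℕ∞)) :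
    s.Finite ∧ (s.ncard : ℝ) ≤ B := by
  have hf : s.Finite := Set.finite_of_encard_le_coe h
  refine ⟨hf, ?_⟩
  rw [← hf.cast_ncard_eq] at h
  have h1 : s.ncard ≤ ⌊B⌋₊ := by exact_mod_cast h
  calc (s.ncard : ℝ) ≤ (⌊B⌋₊ : ℝ) := by exact_mod_cast h1
    _ ≤ B := Nat.floor_le hB

section
variable {k m : ℕ} (f : Fin k → Fin m → ℝ[X])

/-- the roots at level `y` with respect to the weight `w` -/
def lev (w : ℝ → ℝ) (y : ℝ) : Set ℝ := {x : ℝ | w x ≠ 0 ∧ Fs f x = y * w x}

/-- a measurable majorant for the number of roots at level `y`, given the variation bound -/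
theorem majorant {w : ℝ → ℝ} (hw : ∀ x, w x = 0 ↔ w2 f x = 0) {V : ℕ}
    (hV : ∀ ε : ℝ, ε = 1 ∨ ε = -1 → eVariationOn (fun x => Fs f x / w x) (TT f ε) ≤ (V : ℝ≥0∞)) :
    ∃ a : ℝ → ℝ≥0∞, Measurable a ∧ (∀ y, (((lev f w y).encard : ℕ∞) : ℝ≥0∞) ≤ a y) ∧
      ∫⁻ y, a y ≤ ((2 * V : ℕ) : ℝ≥0∞) := by
  obtain ⟨a, ha, ha1, ha2⟩ := indicatrix' (fun x => Fs f x / w x) (TT f 1)
  obtain ⟨b, hb, hb1, hb2⟩ := indicatrix' (fun x => Fs f x / w x) (TT f (-1))
  have hc : Measurable (({Fs f 0 / w 0} : Set ℝ).indicator (1 : ℝ → ℝ≥0∞)) :=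
    measurable_one.indicator (measurableSet_singleton _)
  refine ⟨fun y => a y + b y + ({Fs f 0 / w 0} : Set ℝ).indicator (1 : ℝ → ℝ≥0∞) y,
    (ha.add hb).add hc, fun y => ?_, ?_⟩
  · have hsub : lev f w y ⊆ ({x ∈ TT f 1 | Fs f x / w x = y} ∪
        {x ∈ TT f (-1) | Fs f x / w x = y}) ∪ {x : ℝ | x = 0 ∧ Fs f 0 / w 0 = y} := by
      rintro x ⟨hx, he⟩
      have hy : Fs f x / w x = y := by
        rw [div_eq_iff hx]
        exact he
      have hx2 : w2 f x ≠ 0 := fun h => hx ((hw x).mpr h)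
      rcases lt_trichotomy x 0 with h | h | h
      · exact Or.inl (Or.inr ⟨⟨by linarith, hx2⟩, hy⟩)
      · refine Or.inr ⟨h, ?_⟩
        rw [← h]; exact hy
      · exact Or.inl (Or.inl ⟨⟨by linarith, hx2⟩, hy⟩)
    have h1 := (Set.encard_le_encard hsub).trans ((Set.encard_union_le _ _).trans
      (add_le_add_left (Set.encard_union_le _ _) _))
    have h2 := ENat.toENNReal_mono h1
    rw [ENat.toENNReal_add, ENat.toENNReal_add] at h2
    refine h2.trans (add_le_add (add_le_add (ha1 y) (hb1 y)) ?_)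
    by_cases h : Fs f 0 / w 0 = y
    · have e1 : {x : ℝ | x = 0 ∧ Fs f 0 / w 0 = y} = {0} := by
        ext x; simp [h]
      rw [e1, Set.encard_singleton, Set.indicator_of_mem (by simp [h])]
      simp
    · have e1 : {x : ℝ | x = 0 ∧ Fs f 0 / w 0 = y} = ∅ := by
        ext x; simp [h]
      rw [e1, Set.encard_empty]
      simp
  · rw [lintegral_add_right _ hc, lintegral_add_left ha]
    have h3 : ∫⁻ y, ({Fs f 0 / w 0} : Set ℝ).indicator (1 : ℝ → ℝ≥0∞) y = 0 := by
      rw [lintegral_indicator_one (measurableSet_singleton _)]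
      simp
    rw [h3, add_zero]
    refine (add_le_add (ha2.trans (hV 1 (Or.inl rfl))) (hb2.trans (hV (-1) (Or.inr rfl)))).trans ?_
    rw [← Nat.cast_add]
    exact Nat.cast_le.mpr (by omega)

theorem common_zeros {t : ℕ} (hf : ∀ i j, (f i j).support.card ≤ t)
    (h0 : ∃ i, ∏ j, f i j ≠ 0) : {x : ℝ | w2 f x = 0}.encard ≤ ((2 * m * t + 1 : ℕ) : ℕ∞) := by
  obtain ⟨Z, hZ, hZ0⟩ := zeros f hf h0 (ε := 1) one_ne_zero
  obtain ⟨Y, hY, hY0⟩ := zeros f hf h0 (ε := -1) (by norm_num)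
  have hsub : {x : ℝ | w2 f x = 0} ⊆ ((fun u => 1 * Real.exp u) '' (Z : Set ℝ) ∪
      (fun u => -1 * Real.exp u) '' (Y : Set ℝ)) ∪ {0} := by
    intro x hx
    simp only [Set.mem_ofPred_eq] at hx
    have hx' := fun i => w2_zero f hx i
    rcases lt_trichotomy x 0 with h | h | h
    · refine Or.inl (Or.inr ⟨Real.log (-x), ?_, ?_⟩)
      · refine hY0 _ fun i => ?_
        rw [PP_eq, Real.exp_log (by linarith)]
        simpa using hx' i
      · simp only
        rw [Real.exp_log (by linarith)]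
        ring
    · exact Or.inr h
    · refine Or.inl (Or.inl ⟨Real.log x, ?_, ?_⟩)
      · refine hZ0 _ fun i => ?_
        rw [PP_eq, Real.exp_log h]
        simpa using hx' i
      · simp only
        rw [Real.exp_log h, one_mul]
  refine (Set.encard_le_encard hsub).trans ?_
  refine (Set.encard_union_le _ _).trans ?_
  have h1 : ((fun u => 1 * Real.exp u) '' (Z : Set ℝ)).encard ≤ ((m * t : ℕ) : ℕ∞) := by
    refine (Set.encard_image_le _ _).trans ?_
    rw [Set.encard_coe_eq_coe_finsetCard]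
    exact_mod_cast hZ
  have h2 : ((fun u => -1 * Real.exp u) '' (Y : Set ℝ)).encard ≤ ((m * t : ℕ) : ℕ∞) := by
    refine (Set.encard_image_le _ _).trans ?_
    rw [Set.encard_coe_eq_coe_finsetCard]
    exact_mod_cast hY
  calc _ ≤ (((m * t : ℕ) : ℕ∞) + ((m * t : ℕ) : ℕ∞)) + 1 := by
        refine add_le_add ((Set.encard_union_le _ _).trans (add_le_add h1 h2)) ?_
        rw [Set.encard_singleton]
    _ = _ := by
        push_cast
        ring

/-- Few roots for some small level, one weight. -/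
theorem exists_level {t : ℕ} (hf : ∀ i j, (f i j).support.card ≤ t)
    (h0 : ∃ i, ∏ j, f i j ≠ 0) {w : ℝ → ℝ} (hw : ∀ x, w x = 0 ↔ w2 f x = 0) {V : ℕ}
    (hV : ∀ ε : ℝ, ε = 1 ∨ ε = -1 → eVariationOn (fun x => Fs f x / w x) (TT f ε) ≤ (V : ℝ≥0∞))
    {ε : ℝ} (hε : 0 < ε) (hε1 : ε ≤ 1) :
    ∃ y ∈ Set.Ioo 0 ε, {x : ℝ | Fs f x = y * w x ∨ Fs f x = -y * w x}.Finite ∧
      ({x : ℝ | Fs f x = y * w x ∨ Fs f x = -y * w x}.ncard : ℝ) ≤
        (4 * V + 2 * m * t + 1) / ε := by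
  obtain ⟨a, ha, ha1, ha2⟩ := majorant f hw hV
  set B : ℝ := 4 * V + 2 * m * t + 1 with hB
  have hB0 : 0 ≤ B := by positivity
  have hbound : ∀ y, ((({x : ℝ | Fs f x = y * w x ∨ Fs f x = -y * w x}.encard : ℕ∞)) : ℝ≥0∞) ≤
      (a y + a (-y)) + ((2 * m * t + 1 : ℕ) : ℝ≥0∞) := by
    intro y
    have hsub : {x : ℝ | Fs f x = y * w x ∨ Fs f x = -y * w x} ⊆
        (lev f w y ∪ lev f w (-y)) ∪ {x : ℝ | w2 f x = 0} := by
      intro x hx
      by_cases h : w2 f x = 0
      · exact Or.inr h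
      · have hx2 : w x ≠ 0 := fun h' => h ((hw x).mp h')
        rcases hx with hx | hx
        · exact Or.inl (Or.inl ⟨hx2, hx⟩)
        · exact Or.inl (Or.inr ⟨hx2, hx⟩)
    have h1 := (Set.encard_le_encard hsub).trans ((Set.encard_union_le _ _).trans
      (add_le_add (Set.encard_union_le _ _) (common_zeros f hf h0)))
    have h2 := ENat.toENNReal_mono h1
    rw [ENat.toENNReal_add, ENat.toENNReal_add] at h2
    refine h2.trans (add_le_add (add_le_add (ha1 y) (ha1 (-y))) ?_)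
    simp
  have hint : ∫⁻ y in Set.Ioo 0 ε,
      ((({x : ℝ | Fs f x = y * w x ∨ Fs f x = -y * w x}.encard : ℕ∞)) : ℝ≥0∞) ≤
      ENNReal.ofReal B := by
    refine (lintegral_mono hbound).trans ?_
    rw [lintegral_add_right _ measurable_const, lintegral_add_left ha, lintegral_const]
    have i1 : ∫⁻ y in Set.Ioo 0 ε, a y ≤ ((2 * V : ℕ) : ℝ≥0∞) :=
      (setLIntegral_le_lintegral _ _).trans ha2
    have i2 : ∫⁻ y in Set.Ioo 0 ε, a (-y) ≤ ((2 * V : ℕ) : ℝ≥0∞) := by
      refine (setLIntegral_le_lintegral _ _).trans ?_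
      rw [lintegral_neg_eq_self a]
      exact ha2
    have i3 : ((2 * m * t + 1 : ℕ) : ℝ≥0∞) * (volume.restrict (Set.Ioo 0 ε)) Set.univ ≤
        ((2 * m * t + 1 : ℕ) : ℝ≥0∞) := by
      rw [Measure.restrict_apply_univ, Real.volume_Ioo, sub_zero]
      calc ((2 * m * t + 1 : ℕ) : ℝ≥0∞) * ENNReal.ofReal ε ≤ ((2 * m * t + 1 : ℕ) : ℝ≥0∞) * 1 := by
            gcongr
            exact ENNReal.ofReal_le_one.mpr hε1
        _ = _ := mul_one _
    refine (add_le_add (add_le_add i1 i2) i3).trans (le_of_eq ?_)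
    rw [← Nat.cast_add, ← Nat.cast_add, ← ENNReal.ofReal_natCast]
    congr 1
    rw [hB]
    push_cast
    ring
  obtain ⟨y, hy, hN⟩ := exists_low hε hB0 hint
  exact ⟨y, hy, ncard_of_encard (by positivity) hN⟩

/-- Robust sign alternations on the positive half-line. -/
theorem robust {t : ℕ} (hm : 0 < m) (hf : ∀ i j, (f i j).support.card ≤ t)
    {δ : ℝ} (hδ : 0 < δ) (N : ℕ) (x : ℕ → ℝ) (hx0 : 0 < x 0) (hx : ∀ r < N, x r < x (r + 1))
    (hs : ∀ r < N, Fs f (x r) * Fs f (x (r + 1)) < 0)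
    (hr : ∀ r ≤ N, δ * w2 f (x r) ≤ |Fs f (x r)|) :
    N * δ ≤ 37 * k ^ 2 * m ^ 2 * t ^ 9 := by
  rcases Nat.eq_zero_or_pos N with rfl | hN
  · simp; positivity
  have h0 : ∃ i, ∏ j, f i j ≠ 0 := by
    by_contra hcon
    push Not at hcon
    have h1 : Fs f (x 0) = 0 := by
      unfold Fs
      refine sum_eq_zero fun i _ => ?_
      rw [← eval_prod, hcon i, eval_zero]
    have := hs 0 hN
    rw [h1, zero_mul] at this
    exact lt_irrefl _ this
  have hmono : ∀ a b, a ≤ b → b ≤ N → x a ≤ x b := by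
    intro a b hab
    induction hab with
    | refl => intro _; exact le_rfl
    | step h ih => intro hb; exact (ih (by omega)).trans (hx _ (by omega)).le
  have hne : ∀ r ≤ N, Fs f (x r) ≠ 0 := by
    intro r hr' h
    rcases Nat.lt_or_ge r N with h1 | h1
    · have := hs r h1
      rw [h, zero_mul] at this
      exact lt_irrefl _ this
    · have h2 : r = (N - 1) + 1 := by omega
      have := hs (N - 1) (by omega)
      rw [← h2, h, mul_zero] at this
      exact lt_irrefl _ this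
  have hwpos : ∀ r ≤ N, 0 < w2 f (x r) := by
    intro r hr'
    refine lt_of_le_of_ne (Real.sqrt_nonneg _) (Ne.symm fun h => hne r hr' ?_)
    unfold Fs
    exact sum_eq_zero fun i _ => w2_zero f h i
  set X : ℕ → ℝ := fun r => x (min r N) with hX
  have hXm : Monotone X := by
    intro a b hab
    exact hmono _ _ (min_le_min_right _ hab) (min_le_right _ _)
  have hXT : ∀ r, X r ∈ TT f 1 := by
    intro r
    refine ⟨?_, (hwpos _ (min_le_right _ _)).ne'⟩
    rw [one_mul]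
    exact hx0.trans_le (hmono _ _ (Nat.zero_le _) (min_le_right _ _))
  have h := (eVariationOn.sum_le (f := fun x => Fs f x / w2 f x) (n := N) hXm hXT).trans
    (var2 f hm hf h0 (Or.inl rfl))
  have hlow : ((N : ℕ) : ℝ≥0∞) * ENNReal.ofReal (2 * δ) ≤
      ∑ i ∈ Finset.range N, edist (Fs f (X (i + 1)) / w2 f (X (i + 1)))
        (Fs f (X i) / w2 f (X i)) := by
    have e0 : ((N : ℕ) : ℝ≥0∞) * ENNReal.ofReal (2 * δ) =
        ∑ _i ∈ Finset.range N, ENNReal.ofReal (2 * δ) := by simp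
    rw [e0]
    refine sum_le_sum fun r hrN => ?_
    have hrN' := mem_range.mp hrN
    have e1 : X r = x r := by rw [hX]; simp only; rw [min_eq_left hrN'.le]
    have e2 : X (r + 1) = x (r + 1) := by rw [hX]; simp only; rw [min_eq_left hrN']
    rw [e1, e2, edist_dist, Real.dist_eq]
    apply ENNReal.ofReal_le_ofReal
    have s1 := hs r hrN'
    have r1 := hr r hrN'.le
    have r2 := hr (r + 1) hrN'
    have w1 := hwpos r hrN'.le
    have w2' := hwpos (r + 1) hrN'
    set a := Fs f (x r)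
    set b := Fs f (x (r + 1))
    set A := w2 f (x r)
    set B := w2 f (x (r + 1))
    rcases lt_trichotomy a 0 with ha | ha | ha
    · have hb : 0 < b := by nlinarith
      rw [abs_of_neg ha] at r1
      rw [abs_of_pos hb] at r2
      have g1 : a / A ≤ -δ := by rw [div_le_iff₀ w1]; linarith
      have g2 : δ ≤ b / B := by rw [le_div_iff₀ w2']; linarith
      rw [abs_of_pos (by linarith)]
      linarith
    · rw [ha] at s1; simp at s1
    · have hb : b < 0 := by nlinarith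
      rw [abs_of_pos ha] at r1
      rw [abs_of_neg hb] at r2
      have g1 : δ ≤ a / A := by rw [le_div_iff₀ w1]; linarith
      have g2 : b / B ≤ -δ := by rw [div_le_iff₀ w2']; linarith
      rw [abs_of_neg (by linarith)]
      linarith
  have h1 := hlow.trans h
  have h2 := ENNReal.toReal_mono (ENNReal.natCast_ne_top _) h1
  rw [ENNReal.toReal_mul, ENNReal.toReal_natCast, ENNReal.toReal_ofReal (by positivity),
    ENNReal.toReal_natCast] at h2
  push_cast at h2
  linarith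

end

end Pool.Agent.W942.To
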