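import Pool.Agent.W942.TaI
import Pool.Agent.H189R2.Tau.Half

/-!
# The variation of the direction of a curve, avoiding its zeros
-/

set_option autoImplicit false

namespace Pool.Agent.W942.To

open MeasureTheory Finset Pool.Agent.H189R2.Tau
open scoped ENNReal

/-- Bounding a variation by a measure of open intervals. -/
theorem eVar_le_measure {h : ℝ → ℝ} {T : Set ℝ} (μ : Measure ℝ)
    (H : ∀ a ∈ T, ∀ b ∈ T, a < b → edist (h a) (h b) ≤ μ (Set.Ioo a b)) :
    eVariationOn h T ≤ μ Set.univ := by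
  refine iSup_le ?_
  rintro ⟨n, u, hu, hT⟩
  simp only
  have h1 : ∀ i ∈ Finset.range n, edist (h (u (i + 1))) (h (u i)) ≤
      μ (Set.Ioo (u i) (u (i + 1))) := by
    intro i _
    rcases (hu (Nat.le_succ i)).lt_or_eq with h | h
    · rw [edist_comm]; exact H _ (hT i) _ (hT (i + 1)) h
    · have h' : u (i + 1) = u i := h.symm
      rw [h', edist_self]; exact zero_le
  refine (Finset.sum_le_sum h1).trans ?_
  refine sum_measure_le_measure_univ (fun i _ => measurableSet_Ioo.nullMeasurableSet) ?_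
  have key : ∀ i j, i < j → Disjoint (Set.Ioo (u i) (u (i + 1))) (Set.Ioo (u j) (u (j + 1))) := by
    intro i j hij
    rw [Set.disjoint_left]
    rintro x ⟨_, h2⟩ ⟨h3, _⟩
    have h4 : u (i + 1) ≤ u j := hu hij
    linarith
  intro i _ j _ hij
  refine Disjoint.aedisjoint ?_
  rcases lt_or_gt_of_ne hij with h | h
  · exact key i j h
  · exact (key j i h).symm

section
variable {k : ℕ} {P P' : Fin k → ℝ → ℝ}

/-- the square of the length -/
def Q2 (P : Fin k → ℝ → ℝ) (u : ℝ) : ℝ := ∑ i, P i u ^ 2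

theorem Q2_nonneg (u : ℝ) : 0 ≤ Q2 P u := sum_nonneg fun _ _ => sq_nonneg _

theorem Q2_zero {u : ℝ} (h : Q2 P u = 0) (i : Fin k) : P i u = 0 := by
  have := (sum_eq_zero_iff_of_nonneg (fun i _ => sq_nonneg (P i u))).mp h i (mem_univ i)
  exact pow_eq_zero_iff (by norm_num) |>.mp this

/-- the direction -/
noncomputable def dir (P : Fin k → ℝ → ℝ) (i : Fin k) (u : ℝ) : ℝ := P i u / Real.sqrt (Q2 P u)

/-- the derivative of the direction -/
noncomputable def dd (P P' : Fin k → ℝ → ℝ) (i : Fin k) (u : ℝ) : ℝ :=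
  (P' i u * Real.sqrt (Q2 P u) - P i u * ((∑ j, 2 * P j u * P' j u) / (2 * Real.sqrt (Q2 P u)))) /
    Real.sqrt (Q2 P u) ^ 2

theorem hasDerivAt_dir (hP : ∀ i u, HasDerivAt (P i) (P' i u) u) (i : Fin k) {u : ℝ}
    (hu : 0 < Q2 P u) : HasDerivAt (dir P i) (dd P P' i u) u := by
  have h1 : HasDerivAt (Q2 P) (∑ j, 2 * P j u * P' j u) u := by
    have h2 : HasDerivAt (fun u => ∑ j, P j u ^ 2) (∑ j, 2 * P j u * P' j u) u := by
      refine HasDerivAt.fun_sum fun j _ => ?_
      have := (hP j u).fun_pow 2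
      simpa [mul_assoc] using this
    exact h2
  exact (hP i u).div (h1.sqrt hu.ne') (Real.sqrt_pos.mpr hu).ne'

theorem dd_eq (i : Fin k) {u : ℝ} (hu : 0 < Q2 P u) : dd P P' i u =
    ∑ j, P j u * (P' i u * P j u - P i u * P' j u) / Real.sqrt (Q2 P u) ^ 3 := by
  have hw : 0 < Real.sqrt (Q2 P u) := Real.sqrt_pos.mpr hu
  have hw2 : Real.sqrt (Q2 P u) ^ 2 = ∑ j, P j u ^ 2 := Real.sq_sqrt hu.le
  rw [← sum_div]
  unfold dd
  have e1 : ∑ j, 2 * P j u * P' j u = 2 * ∑ j, P j u * P' j u := by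
    rw [mul_sum]; exact sum_congr rfl fun j _ => by ring
  have e2 : ∑ j, P j u * (P' i u * P j u - P i u * P' j u) =
      P' i u * (∑ j, P j u ^ 2) - P i u * ∑ j, P j u * P' j u := by
    rw [mul_sum, mul_sum, ← sum_sub_distrib]
    exact sum_congr rfl fun j _ => by ring
  rw [e1, e2, ← hw2]
  set w := Real.sqrt (Q2 P u)
  field_simp

theorem abs_dd_le (i : Fin k) {u : ℝ} (hu : 0 < Q2 P u) : |dd P P' i u| ≤
    ∑ j, om (P j) (P' j) (P i) (P' i) u := by
  have hw : 0 < Real.sqrt (Q2 P u) := Real.sqrt_pos.mpr hu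
  have hw2 : Real.sqrt (Q2 P u) ^ 2 = Q2 P u := Real.sq_sqrt hu.le
  rw [dd_eq i hu]
  refine (abs_sum_le_sum_abs _ _).trans (sum_le_sum fun j _ => ?_)
  have hj : |P j u| ≤ Real.sqrt (Q2 P u) := by
    rw [← Real.sqrt_sq_eq_abs]
    apply Real.sqrt_le_sqrt
    exact single_le_sum (f := fun j => P j u ^ 2) (fun _ _ => sq_nonneg _) (mem_univ j)
  rw [abs_div, abs_mul, abs_of_pos (pow_pos hw 3)]
  have h1 : |P j u| * |P' i u * P j u - P i u * P' j u| / Real.sqrt (Q2 P u) ^ 3 ≤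
      |P' i u * P j u - P i u * P' j u| / Q2 P u := by
    have h0 : |P' i u * P j u - P i u * P' j u| / Q2 P u =
      |P' i u * P j u - P i u * P' j u| / Real.sqrt (Q2 P u) ^ 2 := by rw [hw2]
    rw [h0, div_le_div_iff₀ (pow_pos hw 3) (pow_pos hw 2)]
    calc |P j u| * |P' i u * P j u - P i u * P' j u| * Real.sqrt (Q2 P u) ^ 2 ≤
        Real.sqrt (Q2 P u) * |P' i u * P j u - P i u * P' j u| * Real.sqrt (Q2 P u) ^ 2 := by
          gcongr
      _ = _ := by ring
  refine h1.trans ?_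
  unfold om
  have e : |P' j u * P i u - P j u * P' i u| = |P' i u * P j u - P i u * P' j u| := by
    rw [← abs_neg]; congr 1; ring
  rw [e]
  by_cases hij : i = j
  · subst hij
    rw [mul_comm (P' i u), sub_self, abs_zero, zero_div, zero_div]
  · rcases eq_or_ne (P j u ^ 2 + P i u ^ 2) 0 with h0 | h0
    · have h2 : P j u = 0 := by nlinarith [sq_nonneg (P i u), sq_nonneg (P j u)]
      have h3 : P i u = 0 := by nlinarith [sq_nonneg (P i u), sq_nonneg (P j u)]
      rw [h2, h3]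
      simp
    · have hpos : 0 < P j u ^ 2 + P i u ^ 2 := lt_of_le_of_ne (by positivity) (Ne.symm h0)
      have hle : P j u ^ 2 + P i u ^ 2 ≤ Q2 P u := by
        have : ∑ l ∈ ({j, i} : Finset (Fin k)), P l u ^ 2 ≤ ∑ l, P l u ^ 2 :=
          sum_le_sum_of_subset_of_nonneg (subset_univ _) fun _ _ _ => sq_nonneg _
        rwa [sum_pair (fun h => hij h.symm)] at this
      exact div_le_div_of_nonneg_left (abs_nonneg _) hpos hle

theorem continuousOn_dd (hP : ∀ i u, HasDerivAt (P i) (P' i u) u) (hP' : ∀ i, Continuous (P' i))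
    (i : Fin k) {s : Set ℝ} (hs : ∀ u ∈ s, 0 < Q2 P u) : ContinuousOn (dd P P' i) s := by
  have hc : ∀ i, Continuous (P i) :=
    fun i => continuous_iff_continuousAt.mpr (fun u => (hP i u).continuousAt)
  have hQ : Continuous (Q2 P) := continuous_finsetSum _ fun i _ => (hc i).pow 2
  have hw : Continuous fun u => Real.sqrt (Q2 P u) := hQ.sqrt
  have hne : ∀ u ∈ s, Real.sqrt (Q2 P u) ≠ 0 := fun u hu => (Real.sqrt_pos.mpr (hs u hu)).ne'
  have hS : Continuous fun u => ∑ j, 2 * P j u * P' j u :=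
    continuous_finsetSum _ fun j _ => (continuous_const.mul (hc j)).mul (hP' j)
  refine ContinuousOn.div ?_ (hw.pow 2).continuousOn fun u hu => pow_ne_zero 2 (hne u hu)
  refine ContinuousOn.sub ((hP' i).mul hw).continuousOn ?_
  refine (hc i).continuousOn.mul ?_
  refine ContinuousOn.div hS.continuousOn (continuous_const.mul hw).continuousOn fun u hu => ?_
  exact mul_ne_zero two_ne_zero (hne u hu)

/-- one step of one coordinate of the direction, without zeros between -/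
theorem step_smooth (hP : ∀ i u, HasDerivAt (P i) (P' i u) u) (hP' : ∀ i, Continuous (P' i))
    (i : Fin k) {a b : ℝ} (hab : a < b) (hs : ∀ u ∈ Set.Icc a b, 0 < Q2 P u) :
    ENNReal.ofReal |dir P i b - dir P i a| ≤
      ∫⁻ u in Set.Ioo a b, ENNReal.ofReal (∑ j, om (P j) (P' j) (P i) (P' i) u) := by
  have hcont : ContinuousOn (dd P P' i) (Set.uIcc a b) := by
    rw [Set.uIcc_of_le hab.le]
    exact continuousOn_dd hP hP' i hs
  have h1 : ∫ u in a..b, dd P P' i u = dir P i b - dir P i a := by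
    refine intervalIntegral.integral_eq_sub_of_hasDerivAt (fun u hu => ?_)
      hcont.intervalIntegrable
    rw [Set.uIcc_of_le hab.le] at hu
    exact hasDerivAt_dir hP i (hs u hu)
  rw [← h1, intervalIntegral.integral_of_le hab.le, ← Real.norm_eq_abs, ofReal_norm]
  refine (enorm_integral_le_lintegral_enorm _).trans ?_
  rw [← MeasureTheory.restrict_Ioo_eq_restrict_Ioc]
  refine setLIntegral_mono' measurableSet_Ioo fun u hu => ?_
  rw [← ofReal_norm, Real.norm_eq_abs]
  exact ENNReal.ofReal_le_ofReal (abs_dd_le i (hs u ⟨hu.1.le, hu.2.le⟩))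

theorem abs_dir_le (i : Fin k) (u : ℝ) : |dir P i u| ≤ 1 := by
  unfold dir
  rcases (Real.sqrt_nonneg (Q2 P u)).eq_or_lt with h | h
  · rw [← h, div_zero, abs_zero]; exact zero_le_one
  · rw [abs_div, abs_of_pos h, div_le_one h, ← Real.sqrt_sq_eq_abs]
    apply Real.sqrt_le_sqrt
    exact single_le_sum (f := fun j => P j u ^ 2) (fun _ _ => sq_nonneg _) (mem_univ i)

/-- the measure that dominates the steps of the direction -/
noncomputable def muD (P P' : Fin k → ℝ → ℝ) (Z : Finset ℝ) : Measure ℝ :=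
  volume.withDensity (Om P P') + ((2 * k : ℕ) : ℝ≥0∞) • ∑ z ∈ Z, Measure.dirac z

theorem muD_univ (Z : Finset ℝ) : muD P P' Z Set.univ =
    (∫⁻ u, Om P P' u) + ((2 * k : ℕ) : ℝ≥0∞) * Z.card := by
  unfold muD
  rw [Measure.add_apply, withDensity_apply _ MeasurableSet.univ, setLIntegral_univ,
    Measure.smul_apply, Measure.finsetSum_apply]
  simp

theorem om_nonneg (A A' B B' : ℝ → ℝ) (u : ℝ) : 0 ≤ om A A' B B' u := by
  unfold om; positivity

theorem step (hP : ∀ i u, HasDerivAt (P i) (P' i u) u) (hP' : ∀ i, Continuous (P' i))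
    {Z : Finset ℝ} (hZ : ∀ u, (∀ i, P i u = 0) → u ∈ Z) {a b : ℝ} (hab : a < b)
    (ha : Q2 P a ≠ 0) (hb : Q2 P b ≠ 0) :
    ENNReal.ofReal (∑ i, |dir P i b - dir P i a|) ≤ muD P P' Z (Set.Ioo a b) := by
  by_cases hz : ∃ z ∈ Set.Ioo a b, Q2 P z = 0
  · obtain ⟨z, hz, hQ⟩ := hz
    have hzZ : z ∈ Z := hZ z (Q2_zero hQ)
    have h1 : ∑ i, |dir P i b - dir P i a| ≤ ((2 * k : ℕ) : ℝ) := by
      calc ∑ i, |dir P i b - dir P i a| ≤ ∑ _i : Fin k, (2 : ℝ) := by
            refine sum_le_sum fun i _ => ?_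
            have h2 := abs_dir_le (P := P) i a
            have h3 := abs_dir_le (P := P) i b
            rw [abs_le] at h2 h3 ⊢
            constructor <;> linarith [h2.1, h2.2, h3.1, h3.2]
        _ = _ := by simp [mul_comm]
    refine (ENNReal.ofReal_le_ofReal h1).trans ?_
    rw [ENNReal.ofReal_natCast]
    unfold muD
    rw [Measure.add_apply, Measure.smul_apply, Measure.finsetSum_apply]
    refine le_add_left ?_
    have h2 : (1 : ℝ≥0∞) ≤ ∑ z ∈ Z, Measure.dirac z (Set.Ioo a b) := by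
      refine le_trans ?_ (single_le_sum (f := fun z => Measure.dirac z (Set.Ioo a b))
        (fun _ _ => zero_le) hzZ)
      rw [Measure.dirac_apply' _ measurableSet_Ioo, Set.indicator_of_mem hz]
      rfl
    calc ((2 * k : ℕ) : ℝ≥0∞) = ((2 * k : ℕ) : ℝ≥0∞) * 1 := (mul_one _).symm
      _ ≤ _ := by
        rw [smul_eq_mul]
        gcongr
  · push Not at hz
    have hs : ∀ u ∈ Set.Icc a b, 0 < Q2 P u := by
      intro u hu
      refine lt_of_le_of_ne (Q2_nonneg u) (Ne.symm ?_)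
      rcases hu.1.eq_or_lt with h | h
      · rw [← h]; exact ha
      · rcases hu.2.eq_or_lt with h' | h'
        · rw [h']; exact hb
        · exact hz u ⟨h, h'⟩
    rw [ENNReal.ofReal_sum_of_nonneg fun i _ => abs_nonneg _]
    refine (sum_le_sum fun i _ => step_smooth hP hP' i hab hs).trans ?_
    unfold muD
    rw [Measure.add_apply, withDensity_apply _ measurableSet_Ioo]
    refine le_add_right (le_of_eq ?_)
    have hc : ∀ i, Continuous (P i) :=
      fun i => continuous_iff_continuousAt.mpr (fun u => (hP i u).continuousAt)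
    rw [← lintegral_finsetSum]
    · refine lintegral_congr fun u => ?_
      unfold Om
      refine sum_congr rfl fun i _ => ?_
      rw [ENNReal.ofReal_sum_of_nonneg fun j _ => om_nonneg _ _ _ _ _]
    · intro i _
      exact (Finset.measurable_sum _ fun j _ =>
        measurable_om (hc j) (hP' j) (hc i) (hP' i)).ennreal_ofReal

/-- the sum divided by the Euclidean length -/
theorem var_euclid (hP : ∀ i u, HasDerivAt (P i) (P' i u) u) (hP' : ∀ i, Continuous (P' i))
    {Z : Finset ℝ} (hZ : ∀ u, (∀ i, P i u = 0) → u ∈ Z) :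
    eVariationOn (fun u => (∑ i, P i u) / Real.sqrt (Q2 P u)) {u | Q2 P u ≠ 0} ≤
      (∫⁻ u, Om P P' u) + ((2 * k : ℕ) : ℝ≥0∞) * Z.card := by
  rw [← muD_univ]
  refine eVar_le_measure _ fun a ha b hb hab => ?_
  refine le_trans ?_ (step hP hP' hZ hab ha hb)
  rw [edist_comm, edist_dist, Real.dist_eq]
  apply ENNReal.ofReal_le_ofReal
  rw [sum_div, sum_div, ← sum_sub_distrib]
  exact abs_sum_le_sum_abs _ _

theorem l1_step (a b : Fin k → ℝ) (hb : 1 ≤ ∑ i, |b i|) :
    |(∑ i, b i) / (∑ i, |b i|) - (∑ i, a i) / (∑ i, |a i|)| ≤ 2 * ∑ i, |b i - a i| := by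
  set x := ∑ i, b i
  set X := ∑ i, |b i|
  set y := ∑ i, a i
  set Y := ∑ i, |a i|
  have hX : 0 < X := lt_of_lt_of_le one_pos hb
  have hxy : |x - y| ≤ ∑ i, |b i - a i| := by
    rw [← sum_sub_distrib]; exact abs_sum_le_sum_abs _ _
  have hXY : |Y - X| ≤ ∑ i, |b i - a i| := by
    rw [← sum_sub_distrib]
    refine (abs_sum_le_sum_abs _ _).trans (sum_le_sum fun i _ => ?_)
    rw [abs_sub_comm (b i)]
    exact abs_abs_sub_abs_le_abs_sub _ _
  have hy : |y| ≤ Y := abs_sum_le_sum_abs _ _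
  have hY : 0 ≤ Y := sum_nonneg fun _ _ => abs_nonneg _
  have hyY : |y / Y| ≤ 1 := by
    rcases hY.eq_or_lt with h | h
    · rw [← h, div_zero, abs_zero]; exact zero_le_one
    · rw [abs_div, abs_of_pos h, div_le_one h]; exact hy
  have e : x / X - y / Y = (x - y) / X + (y / Y) * ((Y - X) / X) := by
    rcases hY.eq_or_lt with h | h
    · have hy0 : y = 0 := by
        rw [← h] at hy; exact abs_nonpos_iff.mp hy
      rw [hy0]; simp
    · field_simp; ring
  rw [e]
  refine (abs_add_le _ _).trans ?_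
  rw [abs_mul, abs_div, abs_div (Y - X), abs_of_pos hX]
  have h1 : |x - y| / X ≤ ∑ i, |b i - a i| := by
    rw [div_le_iff₀ hX]
    calc |x - y| ≤ ∑ i, |b i - a i| := hxy
      _ ≤ (∑ i, |b i - a i|) * X := le_mul_of_one_le_right (sum_nonneg fun _ _ => abs_nonneg _) hb
  have h2 : |Y - X| / X ≤ ∑ i, |b i - a i| := by
    rw [div_le_iff₀ hX]
    calc |Y - X| ≤ ∑ i, |b i - a i| := hXY
      _ ≤ (∑ i, |b i - a i|) * X := le_mul_of_one_le_right (sum_nonneg fun _ _ => abs_nonneg _) hb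
  have h3 : |y / Y| * (|Y - X| / X) ≤ 1 * ∑ i, |b i - a i| := by
    gcongr
  linarith

theorem l1_dir {u : ℝ} (hu : 0 < Q2 P u) : 1 ≤ ∑ i, |dir P i u| := by
  have hw : 0 < Real.sqrt (Q2 P u) := Real.sqrt_pos.mpr hu
  have hw2 : Real.sqrt (Q2 P u) ^ 2 = Q2 P u := Real.sq_sqrt hu.le
  have h1 : ∑ i, dir P i u ^ 2 = 1 := by
    unfold dir
    simp_rw [div_pow]
    rw [← sum_div, hw2]
    exact div_self hu.ne'
  calc 1 = ∑ i, dir P i u ^ 2 := h1.symm
    _ ≤ ∑ i, |dir P i u| := by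
      refine sum_le_sum fun i _ => ?_
      have h2 := abs_dir_le (P := P) i u
      rw [← sq_abs]
      nlinarith [abs_nonneg (dir P i u)]

/-- the sum divided by the sum of the absolute values -/
theorem var_l1 (hP : ∀ i u, HasDerivAt (P i) (P' i u) u) (hP' : ∀ i, Continuous (P' i))
    {Z : Finset ℝ} (hZ : ∀ u, (∀ i, P i u = 0) → u ∈ Z) :
    eVariationOn (fun u => (∑ i, P i u) / ∑ i, |P i u|) {u | Q2 P u ≠ 0} ≤
      2 * ((∫⁻ u, Om P P' u) + ((2 * k : ℕ) : ℝ≥0∞) * Z.card) := by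
  have hc : ∀ i, Continuous (P i) :=
    fun i => continuous_iff_continuousAt.mpr (fun u => (hP i u).continuousAt)
  have h2 : 2 * ((∫⁻ u, Om P P' u) + ((2 * k : ℕ) : ℝ≥0∞) * Z.card) =
      ((2 : ℝ≥0∞) • muD P P' Z) Set.univ := by
    rw [Measure.smul_apply, muD_univ, smul_eq_mul]
  rw [h2]
  refine eVar_le_measure _ fun a ha b hb hab => ?_
  rw [Measure.smul_apply, smul_eq_mul]
  refine le_trans ?_ (mul_le_mul_right (step hP hP' hZ hab ha hb) 2)
  rw [edist_comm, edist_dist, Real.dist_eq]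
  have h3 : (2 : ℝ≥0∞) * ENNReal.ofReal (∑ i, |dir P i b - dir P i a|) =
      ENNReal.ofReal (2 * ∑ i, |dir P i b - dir P i a|) := by
    rw [ENNReal.ofReal_mul zero_le_two]
    simp
  rw [h3]
  apply ENNReal.ofReal_le_ofReal
  have hpos : ∀ u, Q2 P u ≠ 0 → 0 < Q2 P u := fun u hu => lt_of_le_of_ne (Q2_nonneg u) hu.symm
  have h4 : ∀ u, Q2 P u ≠ 0 → (∑ i, P i u) / ∑ i, |P i u| =
      (∑ i, dir P i u) / ∑ i, |dir P i u| := by
    intro u hu
    have hw : 0 < Real.sqrt (Q2 P u) := Real.sqrt_pos.mpr (hpos u hu)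
    unfold dir
    simp_rw [abs_div, abs_of_pos hw]
    rw [← sum_div, ← sum_div, div_div_div_cancel_right₀ hw.ne']
  rw [h4 a ha, h4 b hb]
  exact l1_step _ _ (l1_dir (hpos b hb))

end

end Pool.Agent.W942.To
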